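import Pool.Agent.Lib.MP_7e5527_ag.E7.GDefs

/-! The integral octonions. -/

noncomputable section

namespace Pool.Agent.E7

theorem OZ.zero : OZ 0 := by
  exact ⟨fun _ => ⟨0, by simp⟩, ⟨0, by simp⟩, ⟨0, by simp⟩, ⟨0, by simp⟩, ⟨0, by simp⟩⟩

theorem OZ.add {x y : Fin 8 → ℚ} (hx : OZ x) (hy : OZ y) : OZ (x + y) := by
  obtain ⟨h0, ⟨s1, h1⟩, ⟨s2, h2⟩, ⟨s3, h3⟩, ⟨s4, h4⟩⟩ := hx
  obtain ⟨k0, ⟨t1, k1⟩, ⟨t2, k2⟩, ⟨t3, k3⟩, ⟨t4, k4⟩⟩ := hy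
  choose n hn using h0
  choose m hm using k0
  refine ⟨fun k => ⟨n k + m k, ?_⟩, ⟨s1 + t1, ?_⟩, ⟨s2 + t2, ?_⟩, ⟨s3 + t3, ?_⟩, ⟨s4 + t4, ?_⟩⟩ <;>
    simp only [Pi.add_apply, Int.cast_add]
  · linarith [hn k, hm k]
  all_goals linarith

theorem OZ.neg {x : Fin 8 → ℚ} (hx : OZ x) : OZ (-x) := by
  obtain ⟨h0, ⟨s1, h1⟩, ⟨s2, h2⟩, ⟨s3, h3⟩, ⟨s4, h4⟩⟩ := hx
  choose n hn using h0
  refine ⟨fun k => ⟨-n k, ?_⟩, ⟨-s1, ?_⟩, ⟨-s2, ?_⟩, ⟨-s3, ?_⟩, ⟨-s4, ?_⟩⟩ <;>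
    simp only [Pi.neg_apply, Int.cast_neg]
  · linarith [hn k]
  all_goals linarith

theorem OZ.sub {x y : Fin 8 → ℚ} (hx : OZ x) (hy : OZ y) : OZ (x - y) := by
  rw [sub_eq_add_neg]
  exact hx.add hy.neg

theorem OZ.zsmul {x : Fin 8 → ℚ} (hx : OZ x) (n : ℤ) : OZ ((n : ℚ) • x) := by
  obtain ⟨h0, ⟨s1, h1⟩, ⟨s2, h2⟩, ⟨s3, h3⟩, ⟨s4, h4⟩⟩ := hx
  choose m hm using h0
  refine ⟨fun k => ⟨n * m k, ?_⟩, ⟨n * s1, ?_⟩, ⟨n * s2, ?_⟩, ⟨n * s3, ?_⟩, ⟨n * s4, ?_⟩⟩ <;>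
    simp only [Pi.smul_apply, Int.cast_mul, smul_eq_mul]
  · linear_combination n * hm k
  · linear_combination n * h1
  · linear_combination n * h2
  · linear_combination n * h3
  · linear_combination n * h4

theorem OZ.sum {α : Type} (s : Finset α) {x : α → Fin 8 → ℚ} (h : ∀ a ∈ s, OZ (x a)) :
    OZ (∑ a ∈ s, x a) := by
  exact Finset.sum_induction x OZ (fun _ _ => OZ.add) OZ.zero h

theorem OZ.of_int (n : Fin 8 → ℤ) : OZ fun k => (n k : ℚ) := by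
  refine ⟨fun k => ⟨2 * n k, ?_⟩, ⟨n 0 + n 1 + n 2 + n 3, ?_⟩, ⟨n 0 + n 1 + n 4 + n 5, ?_⟩,
    ⟨n 0 + n 2 + n 4 + n 7, ?_⟩, ⟨n 4 + n 5 + n 6 + n 7, ?_⟩⟩ <;> simp

theorem OZ.conj_mem {x : Fin 8 → ℚ} (hx : OZ x) : OZ (oconj x) := by
  obtain ⟨h0, ⟨s1, h1⟩, ⟨s2, h2⟩, ⟨s3, h3⟩, ⟨s4, h4⟩⟩ := hx
  choose n hn using h0
  refine ⟨fun k => ⟨if k = 0 then n k else -n k, ?_⟩, ⟨n 0 - s1, ?_⟩, ⟨n 0 - s2, ?_⟩,
    ⟨n 0 - s3, ?_⟩, ⟨-s4, ?_⟩⟩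
  · rw [oconj]
    split_ifs <;> push_cast <;> linarith [hn k]
  all_goals
    simp only [oconj_0, oconj_1, oconj_2, oconj_3, oconj_4, oconj_5, oconj_6, oconj_7]
    push_cast
    linarith [hn 0]

/-- A decidable form of `OZ`. -/
private def latoD (x : Fin 8 → ℚ) : Prop :=
  (∀ k, (2 * x k).den = 1) ∧ (x 0 + x 1 + x 2 + x 3).den = 1 ∧ (x 0 + x 1 + x 4 + x 5).den = 1 ∧
    (x 0 + x 2 + x 4 + x 7).den = 1 ∧ (x 4 + x 5 + x 6 + x 7).den = 1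

private theorem lato_of {x : Fin 8 → ℚ} (h : latoD x) : OZ x :=
  have k : ∀ {q : ℚ}, q.den = 1 → ∃ n : ℤ, q = n := fun h =>
    ⟨_, ((Rat.den_eq_one_iff _).1 h).symm⟩
  ⟨fun j => k (h.1 j), k h.2.1, k h.2.2.1, k h.2.2.2.1, k h.2.2.2.2⟩

theorem OZ_eps (k : Fin 8) : OZ (eps k) := by
  refine lato_of ?_
  revert k
  unfold latoD
  decide +kernel

theorem OZ_epd (k : Fin 8) : OZ (epd k) := by
  refine lato_of ?_
  revert k
  unfold latoD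
  decide +kernel

theorem onorm_eps (k : Fin 8) : onorm (eps k) = 1 := by
  revert k
  decide +kernel

theorem oip_eps_epd (k l : Fin 8) : oip (eps k) (epd l) = if k = l then 1 else 0 := by
  revert k l
  decide +kernel

theorem eps_expand (x : Fin 8 → ℚ) : x = ∑ k, oip x (epd k) • eps k := by
  apply oct_ext <;> simp [Fin.sum_univ_eight, oip_eq, eps, epd] <;> ring

/-- Each `oip x (epd k)` is an integer combination of the `2 x k` and of the four sums in `OZ`. -/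
theorem OZ.oip_epd {x : Fin 8 → ℚ} (hx : OZ x) (k : Fin 8) : ∃ n : ℤ, oip x (epd k) = n := by
  obtain ⟨h0, ⟨s1, h1⟩, ⟨s2, h2⟩, ⟨s3, h3⟩, ⟨s4, h4⟩⟩ := hx
  choose n hn using h0
  refine ⟨![s2 + s4 - n 1 - n 4 - n 5 - n 7, s1 + s2 + s4 - n 0 - n 1 - n 3 - n 4 - n 5 - n 7,
    s1 + s3 - n 0 - n 1 - n 2 - n 7, s1 + s3 + s4 - n 0 - n 1 - n 2 - n 4 - n 6 - n 7,
    n 3, n 1 - n 3, n 7 - n 6, n 6] k, ?_⟩
  fin_cases k <;> simp [oip_eq, epd] <;>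
    linarith [hn 0, hn 1, hn 2, hn 3, hn 4, hn 5, hn 6, hn 7]

private theorem lato_ind {p : (Fin 8 → ℚ) → Prop} (h0 : p 0) (h1 : ∀ a b, p a → p b → p (a + b))
    (h2 : ∀ (n : ℤ) k, p ((n : ℚ) • eps k)) {x : Fin 8 → ℚ} (hx : OZ x) : p x := by
  rw [eps_expand x]
  refine Finset.sum_induction _ p h1 h0 fun k _ => ?_
  obtain ⟨n, hn⟩ := hx.oip_epd k
  exact hn ▸ h2 n k

private theorem lato_mul : ∀ k l, latoD (omul (eps k) (eps l)) := by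
  unfold latoD
  decide +kernel

/-- By `eps_expand` and bilinearity it is enough to check the 64 products `eps k * eps l`. -/
theorem OZ.mul_mem {x y : Fin 8 → ℚ} (hx : OZ x) (hy : OZ y) : OZ (omul x y) := by
  refine lato_ind (p := fun x => OZ (omul x y)) (by rw [omul_zero_left]; exact OZ.zero)
    (fun a b ha hb => by rw [omul_add_left]; exact ha.add hb) (fun n k => ?_) hx
  rw [omul_smul_left]
  refine OZ.zsmul ?_ n
  refine lato_ind (p := fun y => OZ (omul (eps k) y)) (by rw [omul_zero_right]; exact OZ.zero)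
    (fun a b ha hb => by rw [omul_add_right]; exact ha.add hb) (fun m l => ?_) hy
  rw [omul_smul_right]
  exact (lato_of (lato_mul k l)).zsmul m

theorem OZ.oip_int {x y : Fin 8 → ℚ} (hx : OZ x) (hy : OZ y) : ∃ n : ℤ, oip x y = n := by
  have h := (hx.mul_mem hy.conj_mem).1 0
  rwa [two_mul_omul_0, oconj_oconj] at h

/-- Induction over the sum in `eps_expand` with `onorm_add`. -/
theorem OZ.onorm_int {x : Fin 8 → ℚ} (hx : OZ x) : ∃ n : ℤ, onorm x = n := by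
  obtain ⟨n, hn⟩ := (hx.mul_mem hx.conj_mem).2.1
  refine ⟨n, hn ▸ ?_⟩
  simp only [onorm_eq, omul_0, omul_1, omul_2, omul_3, oconj_0, oconj_1, oconj_2, oconj_3,
    oconj_4, oconj_5, oconj_6, oconj_7]
  ring

private theorem lato_code : ∀ a b c e : Fin 2, ∃ d0 d1 d2 d3 d4 d5 d6 d7 : Fin 2,
    (d0 : ℕ) + d1 + d2 + d3 + d4 + d5 + d6 + d7 ≤ 2 ∧ ((d0 : ℕ) + d1 + d2 + d3) % 2 = a ∧
      ((d0 : ℕ) + d1 + d4 + d5) % 2 = b ∧ ((d0 : ℕ) + d2 + d4 + d7) % 2 = c ∧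
      ((d4 : ℕ) + d5 + d6 + d7) % 2 = e := by
  decide +kernel

private theorem lato_round (t : ℝ) (d : Fin 2) :
    ∃ u : ℤ, (t - ((round t + (d : ℕ) + 2 * u : ℤ) : ℝ)) ^ 2 ≤ 1 / 4 + 3 / 4 * ((d : ℕ) : ℝ) := by
  obtain ⟨h1, h2⟩ := abs_le.1 (abs_sub_round t)
  fin_cases d
  · exact ⟨0, by push_cast; nlinarith⟩
  · rcases le_total (round t : ℝ) t with h | h
    · exact ⟨0, by push_cast; nlinarith⟩
    · exact ⟨-1, by push_cast; nlinarith⟩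

/-- Round `2 x k` to the nearest integer `n k` (error of `x k` at most `1 / 4`). The parity
pattern of `n` is within Hamming distance two of a pattern allowed by `OZ` (256 cases); in the
changed places use the second nearest integer (error at most `1 / 2`):
`6 / 16 + 2 / 4 = 7 / 8`. -/
theorem cover (x : Fin 8 → ℝ) : ∃ u, OZ u ∧ onorm (x - fun k => (u k : ℝ)) ≤ 7 / 8 := by
  have par : ∀ n : ℤ, ∃ a : Fin 2, n % 2 = (a : ℕ) := fun n => by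
    rcases Int.emod_two_eq_zero_or_one n with h | h
    exacts [⟨0, h⟩, ⟨1, h⟩]
  obtain ⟨n, hn⟩ : ∃ n : Fin 8 → ℤ, ∀ k, n k = round (2 * x k) := ⟨_, fun _ => rfl⟩
  obtain ⟨a, ha⟩ := par (n 0 + n 1 + n 2 + n 3)
  obtain ⟨b, hb⟩ := par (n 0 + n 1 + n 4 + n 5)
  obtain ⟨c, hc⟩ := par (n 0 + n 2 + n 4 + n 7)
  obtain ⟨e, he⟩ := par (n 4 + n 5 + n 6 + n 7)
  obtain ⟨d0, d1, d2, d3, d4, d5, d6, d7, h0, h1, h2, h3, h4⟩ := lato_code a b c e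
  choose u hu using fun k => lato_round (2 * x k) (![d0, d1, d2, d3, d4, d5, d6, d7] k)
  simp only [← hn] at hu
  have ev : ∀ {p q r s : ℤ}, (p + q + r + s) % 2 = 0 →
      ∃ m : ℤ, (p : ℚ) / 2 + q / 2 + r / 2 + s / 2 = m := fun {p q r s} h => by
    obtain ⟨m, hm⟩ := Int.dvd_of_emod_eq_zero h
    have h5 : (p : ℚ) + q + r + s = 2 * m := by exact_mod_cast hm
    exact ⟨m, by linarith⟩
  refine ⟨fun k => ((n k + (![d0, d1, d2, d3, d4, d5, d6, d7] k : ℕ) + 2 * u k : ℤ) : ℚ) / 2,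
    ⟨fun k => ⟨_, mul_div_cancel₀ _ two_ne_zero⟩, ev ?_, ev ?_, ev ?_, ev ?_⟩, ?_⟩
  · simp only [Matrix.cons_val]
    omega
  · simp only [Matrix.cons_val]
    omega
  · simp only [Matrix.cons_val]
    omega
  · simp only [Matrix.cons_val]
    omega
  · refine (Finset.sum_le_sum (g := fun k => (1 / 4 + 3 / 4 *
      ((![d0, d1, d2, d3, d4, d5, d6, d7] k : ℕ) : ℝ)) / 4) fun k _ => ?_).trans ?_
    · rw [Pi.sub_apply, Rat.cast_div, Rat.cast_intCast, Rat.cast_ofNat]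
      linarith [hu k]
    · have h5 : (((d0 : ℕ) : ℝ) + (d1 : ℕ) + (d2 : ℕ) + (d3 : ℕ) + (d4 : ℕ) + (d5 : ℕ) + (d6 : ℕ) +
        (d7 : ℕ)) ≤ 2 := by exact_mod_cast h0
      simp only [Fin.sum_univ_eight, Matrix.cons_val]
      linarith

theorem cover_rat (x : Fin 8 → ℚ) : ∃ u, OZ u ∧ onorm (x - u) ≤ 7 / 8 := by
  obtain ⟨u, hu, h⟩ := cover fun k => (x k : ℝ)
  refine ⟨u, hu, (Rat.cast_le (K := ℝ)).1 ?_⟩
  simpa [onorm] using h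

end Pool.Agent.E7
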