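import Pool.Agent.Lib.MP_7e5527_ag.E7.Cone
import Pool.Agent.Lib.MP_7e5527_ag.E7.LatO

/-! The lattice `J(ℤ)` and its basis. -/

noncomputable section

namespace Pool.Agent.E7

theorem Lam.zero : (0 : Ix → ℚ) ∈ Lam :=
  ⟨fun _ => ⟨0, by simp⟩, fun _ => OZ.zero⟩

theorem Lam.add {T T' : Ix → ℚ} (h : T ∈ Lam) (h' : T' ∈ Lam) : T + T' ∈ Lam := by
  refine ⟨fun i => ?_, fun i => (h.2 i).add (h'.2 i)⟩
  obtain ⟨n, hn⟩ := h.1 i
  obtain ⟨m, hm⟩ := h'.1 i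
  exact ⟨n + m, by rw [dg_add, hn, hm]; push_cast; ring⟩

theorem Lam.neg {T : Ix → ℚ} (h : T ∈ Lam) : -T ∈ Lam := by
  refine ⟨fun i => ?_, fun i => (h.2 i).neg⟩
  obtain ⟨n, hn⟩ := h.1 i
  exact ⟨-n, by rw [dg_neg, hn]; push_cast; ring⟩

theorem Lam.sub {T T' : Ix → ℚ} (h : T ∈ Lam) (h' : T' ∈ Lam) : T - T' ∈ Lam := by
  rw [sub_eq_add_neg]; exact Lam.add h (Lam.neg h')

theorem Lam.zsmul {T : Ix → ℚ} (h : T ∈ Lam) (n : ℤ) : (n : ℚ) • T ∈ Lam := by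
  refine ⟨fun i => ?_, fun i => (h.2 i).zsmul n⟩
  obtain ⟨m, hm⟩ := h.1 i
  exact ⟨n * m, by rw [dg_smul, hm]; push_cast; ring⟩

theorem Lam.nsmul {T : Ix → ℚ} (h : T ∈ Lam) (n : ℕ) : (n : ℚ) • T ∈ Lam := by
  have h1 := Lam.zsmul h (n : ℤ)
  rwa [Int.cast_natCast] at h1

theorem Lam.sum {α : Type} (s : Finset α) {T : α → Ix → ℚ} (h : ∀ a ∈ s, T a ∈ Lam) :
    ∑ a ∈ s, T a ∈ Lam :=
  Finset.sum_induction T (· ∈ Lam) (fun _ _ => Lam.add) Lam.zero h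

theorem Lam.two_mul {T : Ix → ℚ} (h : T ∈ Lam) (l : Ix) : ∃ n : ℤ, 2 * T l = n := by
  rcases l with i | ⟨i, k⟩
  · obtain ⟨n, hn⟩ := h.1 i
    exact ⟨2 * n, by rw [show T (.inl i) = n from hn]; push_cast; ring⟩
  · exact (h.2 i).1 k

theorem Lam.tr_int {T T' : Ix → ℚ} (h : T ∈ Lam) (h' : T' ∈ Lam) : ∃ n : ℤ, tr T T' = n := by
  obtain ⟨a0, ha0⟩ := h.1 0
  obtain ⟨a1, ha1⟩ := h.1 1
  obtain ⟨a2, ha2⟩ := h.1 2
  obtain ⟨b0, hb0⟩ := h'.1 0
  obtain ⟨b1, hb1⟩ := h'.1 1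
  obtain ⟨b2, hb2⟩ := h'.1 2
  obtain ⟨c0, hc0⟩ := (h.2 0).oip_int (h'.2 0)
  obtain ⟨c1, hc1⟩ := (h.2 1).oip_int (h'.2 1)
  obtain ⟨c2, hc2⟩ := (h.2 2).oip_int (h'.2 2)
  refine ⟨a0 * b0 + a1 * b1 + a2 * b2 + c0 + c1 + c2, ?_⟩
  rw [tr_eq, ha0, ha1, ha2, hb0, hb1, hb2, hc0, hc1, hc2]; push_cast; ring

theorem Lam.sharp_mem {T : Ix → ℚ} (h : T ∈ Lam) : sharp T ∈ Lam := by
  refine ⟨fun i => ?_, fun i => ?_⟩
  · obtain ⟨a, ha⟩ := h.1 (i + 1)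
    obtain ⟨b, hb⟩ := h.1 (i + 2)
    obtain ⟨c, hc⟩ := (h.2 i).onorm_int
    refine ⟨a * b - c, ?_⟩
    rw [show dg (sharp T) i = dg T (i + 1) * dg T (i + 2) - onorm (oc T i) from rfl, ha, hb, hc]
    push_cast; ring
  · obtain ⟨a, ha⟩ := h.1 i
    rw [show oc (sharp T) i = oconj (omul (oc T (i + 1)) (oc T (i + 2))) - dg T i • oc T i from rfl,
      ha]
    exact ((h.2 _).mul_mem (h.2 _)).conj_mem.sub ((h.2 i).zsmul a)

theorem Lam.cross_mem {T T' : Ix → ℚ} (h : T ∈ Lam) (h' : T' ∈ Lam) : cross T T' ∈ Lam :=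
  Lam.sub (Lam.sub (Lam.sharp_mem (Lam.add h h')) (Lam.sharp_mem h)) (Lam.sharp_mem h')

theorem Lam.nrm_int {T : Ix → ℚ} (h : T ∈ Lam) : ∃ n : ℤ, nrm T = n := by
  obtain ⟨a0, ha0⟩ := h.1 0
  obtain ⟨a1, ha1⟩ := h.1 1
  obtain ⟨a2, ha2⟩ := h.1 2
  obtain ⟨c0, hc0⟩ := (h.2 0).onorm_int
  obtain ⟨c1, hc1⟩ := (h.2 1).onorm_int
  obtain ⟨c2, hc2⟩ := (h.2 2).onorm_int
  obtain ⟨d, hd⟩ := ((h.2 0).mul_mem (h.2 1)).oip_int (h.2 2).conj_mem
  refine ⟨a0 * a1 * a2 - a0 * c0 - a1 * c1 - a2 * c2 + d, ?_⟩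
  rw [nrm_eq, hd, ha0, ha1, ha2, hc0, hc1, hc2]; push_cast; ring

theorem latJ_single (i j : Fin 3) : ∃ n : ℤ, (Pi.single i 1 : Fin 3 → ℚ) j = n :=
  ⟨if j = i then 1 else 0, by rw [Pi.single_apply]; split_ifs <;> simp⟩

theorem latJ_OZ_single (i j : Fin 3) {x : Fin 8 → ℚ} (hx : OZ x) :
    OZ ((Pi.single i x : Fin 3 → Fin 8 → ℚ) j) := by
  rw [Pi.single_apply]
  split_ifs
  exacts [hx, OZ.zero]

theorem ed_mem (i : Fin 3) : (ed i : Ix → ℚ) ∈ Lam :=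
  ⟨fun j => latJ_single i j, fun _ => OZ.zero⟩

theorem TT_mem (i : Ix) : TT i ∈ Lam := by
  rcases i with i | ⟨i, k⟩
  · exact ed_mem i
  · refine ⟨fun j => ?_, fun j => latJ_OZ_single i j (OZ_eps k)⟩
    obtain ⟨n, hn⟩ := latJ_single i j
    refine ⟨1 - n, ?_⟩
    rw [show dg (TT (.inr (i, k))) j = 1 - (Pi.single i 1 : Fin 3 → ℚ) j from rfl, hn]
    push_cast; ring

theorem UU_mem (i : Ix) : UU i ∈ Lam := by
  rcases i with i | ⟨i, k⟩
  · refine ⟨fun j => latJ_single i j, fun j => ?_⟩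
    rw [show oc (UU (.inl i)) j = if j = i then 0 else -∑ k, epd k from rfl]
    split_ifs
    exacts [OZ.zero, (OZ.sum _ fun k _ => OZ_epd k).neg]
  · exact ⟨fun _ => ⟨0, by simp [UU]⟩, fun j => latJ_OZ_single i j (OZ_epd k)⟩

theorem latJ_oip_sum (k : Fin 8) : oip (eps k) (∑ l, epd l) = 1 := by
  simp only [Fin.sum_univ_eight, oip_add_right, oip_eps_epd]
  fin_cases k <;> simp

theorem tr_TT_UU (i j : Ix) : tr (TT i) (UU j) = if i = j then 1 else 0 := by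
  rcases i with i | ⟨i, k⟩ <;> rcases j with j | ⟨j, l⟩
  · rw [show TT (.inl i) = ed i from rfl, tr_comm, tr_ed]
    simp [UU, Pi.single_apply]
  · rw [show TT (.inl i) = ed i from rfl, tr_comm, tr_ed]
    simp [UU]
  · fin_cases i <;> fin_cases j <;>
      simp [TT, UU, tr_eq, oip_zero_left, oip_zero_right, oip_neg_right, latJ_oip_sum]
  · fin_cases i <;> fin_cases j <;>
      simp [TT, UU, tr_eq, oip_zero_left, oip_zero_right, oip_eps_epd]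

theorem sharp_TT (i : Ix) : sharp (TT i) = 0 := by
  rcases i with i | ⟨i, k⟩ <;> fin_cases i <;> apply jext <;>
    simp [TT, ed, dg_sharp_0, dg_sharp_1, dg_sharp_2, oc_sharp_0, oc_sharp_1, oc_sharp_2,
      omul_zero_left, omul_zero_right, oconj_zero, onorm_zero, onorm_eps]

theorem TT_diag (i : Ix) (j : Fin 3) : dg (TT i) j = 0 ∨ dg (TT i) j = 1 := by
  rcases i with i | ⟨i, k⟩ <;> fin_cases i <;> fin_cases j <;> simp [TT, ed]

theorem TT_one (i : Ix) : ∃ j, dg (TT i) j = 1 := by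
  rcases i with i | ⟨i, k⟩
  · exact ⟨i, by simp [TT, ed]⟩
  · exact ⟨i + 1, by fin_cases i <;> simp [TT]⟩

section Field

variable {F : Type} [Field F] [CharZero F]

/-- `pt` as a linear map. -/
def latJ_ptL : (Ix → F) →ₗ[F] Ix → F where
  toFun := pt
  map_add' y y' := by simp only [pt, Pi.add_apply, add_smul, Finset.sum_add_distrib]
  map_smul' c y := by
    simp only [pt, Pi.smul_apply, smul_eq_mul, mul_smul, Finset.smul_sum, RingHom.id_apply]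

/-- `yc` as a linear map. -/
def latJ_ycL : (Ix → F) →ₗ[F] Ix → F where
  toFun := yc
  map_add' _ _ := funext fun _ => tr_add_right _ _ _
  map_smul' _ _ := funext fun _ => tr_smul_right _ _ _

theorem yc_pt (y : Ix → F) : yc (pt y) = y := by
  funext i
  simp only [yc, pt, tr_sum_right, tr_smul_right, tr_toR, tr_TT_UU]
  rw [Finset.sum_eq_single i] <;> simp +contextual [eq_comm]

/-- `yc ∘ pt = id` for linear maps of a finite dimensional space gives `pt ∘ yc = id`. -/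
theorem pt_yc (Y : Ix → F) : pt (yc Y) = Y := by
  have h : (latJ_ycL : (Ix → F) →ₗ[F] Ix → F) * latJ_ptL = 1 := LinearMap.ext fun y => yc_pt y
  exact LinearMap.congr_fun (mul_eq_one_comm.1 h) Y

theorem sum_TT (T : Ix → F) : ∑ i, tr T (toR F (UU i)) • toR F (TT i) = T := by
  refine eq_of_tr fun Y => ?_
  conv_rhs => rw [← pt_yc Y]
  simp only [pt, yc, tr_sum_left, tr_sum_right, tr_smul_left, tr_smul_right]
  exact Finset.sum_congr rfl fun _ _ => mul_comm _ _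

theorem pt_add (y y' : Ix → F) : pt (y + y') = pt y + pt y' := latJ_ptL.map_add y y'

theorem pt_smul (c : F) (y : Ix → F) : pt (c • y) = c • pt y := latJ_ptL.map_smul c y

theorem yc_add (Y Y' : Ix → F) : yc (Y + Y') = yc Y + yc Y' := latJ_ycL.map_add Y Y'

theorem yc_smul (c : F) (Y : Ix → F) : yc (c • Y) = c • yc Y := latJ_ycL.map_smul c Y

theorem toR_pt (y : Ix → ℚ) : toR F (pt y) = pt fun i => (y i : F) := by
  simp only [pt, toR_sum, toR_smul, toR_rat]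

theorem tr_vec_pt (m : Ix → ℤ) (y : Ix → F) :
    tr (toR F (vec m)) (pt y) = ∑ i, (m i : F) * y i := by
  have h := congrFun (yc_pt y)
  simp only [yc] at h
  simp only [vec, toR_sum, toR_smul, tr_sum_left, tr_smul_left, h, Rat.cast_intCast]

end Field

theorem latJ_sum_TT (T : Ix → ℚ) : ∑ i, tr T (UU i) • TT i = T := by
  simpa only [toR_rat] using sum_TT T

theorem latJ_sum_UU (T : Ix → ℚ) : ∑ i, tr (TT i) T • UU i = T := by
  simpa only [pt, yc, toR_rat] using pt_yc T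

theorem mem_Lam_iff (T : Ix → ℚ) : T ∈ Lam ↔ ∀ i, ∃ n : ℤ, tr T (UU i) = n := by
  refine ⟨fun h i => Lam.tr_int h (UU_mem i), fun h => ?_⟩
  rw [← latJ_sum_TT T]
  refine Lam.sum _ fun i _ => ?_
  obtain ⟨n, hn⟩ := h i
  rw [hn]; exact Lam.zsmul (TT_mem i) n

theorem mem_Lam_iff' (T : Ix → ℚ) : T ∈ Lam ↔ ∀ i, ∃ n : ℤ, tr (TT i) T = n := by
  refine ⟨fun h i => Lam.tr_int (TT_mem i) h, fun h => ?_⟩
  rw [← latJ_sum_UU T]
  refine Lam.sum _ fun i _ => ?_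
  obtain ⟨n, hn⟩ := h i
  rw [hn]; exact Lam.zsmul (UU_mem i) n

theorem self_dual {T : Ix → ℚ} (h : ∀ B ∈ Lam, ∃ n : ℤ, tr T B = n) : T ∈ Lam :=
  (mem_Lam_iff T).2 fun i => h _ (UU_mem i)

theorem vec_mem (m : Ix → ℤ) : vec m ∈ Lam := Lam.sum _ fun i _ => Lam.zsmul (TT_mem i) (m i)

theorem vec_zero : vec 0 = 0 := by simp [vec]

theorem vec_add (m m' : Ix → ℤ) : vec (m + m') = vec m + vec m' := by
  simp only [vec, Pi.add_apply, Int.cast_add, add_smul, Finset.sum_add_distrib]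

theorem vec_sub (m m' : Ix → ℤ) : vec (m - m') = vec m - vec m' := by
  simp only [vec, Pi.sub_apply, Int.cast_sub, sub_smul, Finset.sum_sub_distrib]

theorem vec_single (i : Ix) : vec (Pi.single i 1) = TT i := by
  rw [vec, Finset.sum_eq_single i] <;> simp +contextual

theorem tr_vec_UU (m : Ix → ℤ) (i : Ix) : tr (vec m) (UU i) = m i := by
  simp only [vec, tr_sum_left, tr_smul_left, tr_TT_UU]
  rw [Finset.sum_eq_single i] <;> simp +contextual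

theorem vec_inj : Function.Injective vec := by
  intro m m' h
  funext i
  have h1 := tr_vec_UU m i
  rw [h, tr_vec_UU] at h1
  exact_mod_cast h1.symm

theorem range_vec : Set.range vec = Lam := by
  ext T
  refine ⟨fun ⟨m, hm⟩ => hm ▸ vec_mem m, fun h => ?_⟩
  choose m hm using (mem_Lam_iff T).1 h
  exact ⟨m, by simp only [vec, ← hm, latJ_sum_TT]⟩

theorem latJ_den {α : Type} [Fintype α] (q : α → ℚ) :
    ∃ M : ℕ, 0 < M ∧ ∀ i, ∃ n : ℤ, (M : ℚ) * q i = n := by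
  refine ⟨∏ i, (q i).den, Finset.prod_pos fun i _ => (q i).den_pos, fun i => ?_⟩
  obtain ⟨c, hc⟩ := Finset.dvd_prod_of_mem (fun i => (q i).den) (Finset.mem_univ i)
  refine ⟨c * (q i).num, ?_⟩
  rw [hc]; push_cast
  rw [← Rat.den_mul_eq_num]; ring

theorem latJ_lin_sum {α : Type} (s : Finset α) (A : Matrix Ix Ix ℚ) (T : α → Ix → ℚ) :
    lin A (∑ a ∈ s, T a) = ∑ a ∈ s, lin A (T a) := by
  simp only [lin, Matrix.mulVec_sum]

theorem latJ_lin_exp (A : Matrix Ix Ix ℚ) (T : Ix → ℚ) (i : Ix) :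
    tr (lin A T) (UU i) = ∑ j, tr (lin A (TT j)) (UU i) * tr T (UU j) := by
  conv_lhs => rw [← latJ_sum_TT T]
  simp only [latJ_lin_sum, lin_smul, tr_sum_left, tr_smul_left]
  exact Finset.sum_congr rfl fun _ _ => mul_comm _ _

theorem exists_den (T : Ix → ℚ) : ∃ M : ℕ, 0 < M ∧ (M : ℚ) • T ∈ Lam := by
  obtain ⟨M, hM, h⟩ := latJ_den fun i => tr T (UU i)
  exact ⟨M, hM, (mem_Lam_iff _).2 fun i => by rw [tr_smul_left]; exact h i⟩

/-- A rational matrix maps the lattice into `1 / M` times the lattice. -/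
theorem exists_den_lin (A : Matrix Ix Ix ℚ) :
    ∃ M : ℕ, 0 < M ∧ ∀ T ∈ Lam, (M : ℚ) • lin A T ∈ Lam := by
  obtain ⟨M, hM, h⟩ := latJ_den fun a : Ix × Ix => tr (lin A (TT a.1)) (UU a.2)
  choose c hc using h
  refine ⟨M, hM, fun T hT => (mem_Lam_iff _).2 fun i => ?_⟩
  choose m hm using (mem_Lam_iff T).1 hT
  refine ⟨∑ j, c (j, i) * m j, ?_⟩
  rw [tr_smul_left, latJ_lin_exp, Finset.mul_sum]; push_cast
  exact Finset.sum_congr rfl fun j _ => by rw [← hc (j, i), hm, mul_assoc]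

theorem latJ_cyc {T : Ix → ℚ} (h : T ∈ Lam) : cyc T ∈ Lam := by
  refine ⟨fun i => ?_, fun i => ?_⟩ <;> fin_cases i
  exacts [h.1 2, h.1 0, h.1 1, h.2 2, h.2 0, h.2 1]

theorem latJ_swp {T : Ix → ℚ} (h : T ∈ Lam) : swp T ∈ Lam := by
  refine ⟨fun i => ?_, fun i => ?_⟩ <;> fin_cases i
  exacts [h.1 0, h.1 2, h.1 1, (h.2 0).conj_mem, (h.2 2).conj_mem, (h.2 1).conj_mem]

theorem latJ_elm {u : Fin 8 → ℚ} (hu : OZ u) {T : Ix → ℚ} (h : T ∈ Lam) : elm u T ∈ Lam := by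
  obtain ⟨a1, ha1⟩ := h.1 1
  obtain ⟨a2, ha2⟩ := h.1 2
  obtain ⟨b, hb⟩ := hu.oip_int (h.2 0).conj_mem
  obtain ⟨c, hc⟩ := hu.onorm_int
  have h2 : ∃ n : ℤ, dg T 2 + oip u (oconj (oc T 0)) + onorm u * dg T 1 = n :=
    ⟨a2 + b + c * a1, by rw [ha1, ha2, hb, hc]; push_cast; ring⟩
  have k0 : OZ (oc T 0 + dg T 1 • oconj u) := by
    rw [ha1]; exact (h.2 0).add (hu.conj_mem.zsmul a1)
  refine ⟨fun i => ?_, fun i => ?_⟩ <;> fin_cases i
  exacts [h.1 0, h.1 1, h2, k0, (h.2 1).add (hu.mul_mem (h.2 2).conj_mem), h.2 2]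

theorem isSimZ_cyc : IsSimZ (matOf cyc) := by
  refine ⟨isSim_cyc, fun T => ?_⟩
  rw [lin_cyc]
  exact ⟨fun h => cyc_cyc_cyc T ▸ latJ_cyc (latJ_cyc h), latJ_cyc⟩

theorem isSimZ_swp : IsSimZ (matOf swp) := by
  refine ⟨isSim_swp, fun T => ?_⟩
  rw [lin_swp]
  exact ⟨fun h => swp_swp T ▸ latJ_swp h, latJ_swp⟩

theorem isSimZ_elm {u : Fin 8 → ℚ} (hu : OZ u) : IsSimZ (matOf (elm u)) := by
  refine ⟨isSim_elm u, fun T => ?_⟩
  simp only [lin_elm, Rat.cast_id]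
  exact ⟨fun h => elm_neg_elm u T ▸ latJ_elm hu.neg h, latJ_elm hu⟩

theorem latJ_adj {A : Matrix Ix Ix ℚ} (h : IsSimZ A) {T : Ix → ℚ} (hT : T ∈ Lam) :
    lin (adjM A) T ∈ Lam :=
  self_dual fun B hB => by rw [← tr_lin]; exact Lam.tr_int hT ((h.2 B).2 hB)

/-- By `self_dual` and `tr_lin`. -/
theorem IsSimZ.adj_mem {A : Matrix Ix Ix ℚ} (h : IsSimZ A) (T : Ix → ℚ) :
    lin (adjM A) T ∈ Lam ↔ T ∈ Lam := by
  refine ⟨fun hT => ?_, latJ_adj h⟩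
  have h1 := latJ_adj h.symm hT
  rwa [adjM_inv h.1.1, lin_inv_lin (by rw [det_adjM]; exact h.1.1)] at h1

/-- The matrix in the basis `TT`. -/
def latJ_M (A : Matrix Ix Ix ℚ) : Matrix Ix Ix ℚ := Matrix.of fun i j => tr (lin A (TT j)) (UU i)

theorem latJ_M_det (A : Matrix Ix Ix ℚ) : (latJ_M A).det = A.det := by
  let P : Matrix Ix Ix ℚ := Matrix.of fun l j => TT j l
  let Q : Matrix Ix Ix ℚ := Matrix.of fun i l => (wt l : ℚ) * UU i l
  have h1 : ∀ B, latJ_M B = Q * (B * P) := fun B => by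
    ext i j
    simp only [latJ_M, Matrix.of_apply, tr_eq_sum, Matrix.mul_apply, P, Q, lin, Matrix.mulVec,
      dotProduct, Matrix.map_apply, Rat.cast_id]
    exact Finset.sum_congr rfl fun _ _ => by ring
  have h2 : Q * P = 1 := by
    rw [← one_mul P, ← h1]
    ext i j
    simp only [latJ_M, Matrix.of_apply, lin_one, tr_TT_UU, Matrix.one_apply, eq_comm]
  have h3 : Q.det * P.det = 1 := by rw [← Matrix.det_mul, h2, Matrix.det_one]
  rw [h1, Matrix.det_mul, Matrix.det_mul]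
  linear_combination A.det * h3

theorem latJ_det_int {A : Matrix Ix Ix ℚ} (h : IsSimZ A) : ∃ n : ℤ, A.det = n := by
  choose c hc using fun i j => Lam.tr_int ((h.2 _).2 (TT_mem j)) (UU_mem i)
  refine ⟨(Matrix.of c).det, ?_⟩
  rw [← latJ_M_det, Int.cast_det]
  exact congrArg _ (Matrix.ext hc)

/-- In the basis `TT` the matrix and its inverse are integral. -/
theorem IsSimZ.det_sq {A : Matrix Ix Ix ℚ} (h : IsSimZ A) : A.det ^ 2 = 1 := by
  obtain ⟨n, hn⟩ := latJ_det_int h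
  obtain ⟨m, hm⟩ := latJ_det_int h.symm
  have h1 := Matrix.det_nonsing_inv_mul_det A h.1.1
  rw [hn, hm] at h1
  have h2 : m * n = 1 := by exact_mod_cast h1
  rw [hn]
  rcases Int.eq_one_or_neg_one_of_mul_eq_one' h2 with ⟨_, h3⟩ | ⟨_, h3⟩ <;> simp [h3]

end Pool.Agent.E7
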