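import Pool.Agent.Lib.MP_7e5527_ag.E7.Tube
import Pool.Agent.Lib.MP_7e5527_ag.E7.LatJ

/-! The action of the groups on the tube domain. -/

noncomputable section

namespace Pool.Agent.E7

theorem actx_mfun_mul (A B : Matrix Ix Ix ℚ) (c d : ℚ) (v : W) :
    mfun A c (mfun B d v) = mfun (A * B) (c * d) v := by
  simp only [mfun, adjM_mul, Matrix.mul_inv_rev, lin_mul, lin_smul, smul_smul, Rat.cast_mul,
    mul_assoc]

theorem actx_mfun_one (v : W) : mfun 1 1 v = v := by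
  simp only [mfun, adjM_one, inv_one, lin_one, Rat.cast_one, one_smul, one_mul]

theorem actx_mfun_left {A : Matrix Ix Ix ℚ} {c : ℚ} (h : IsSim A c) (v : W) :
    mfun A⁻¹ c⁻¹ (mfun A c v) = v := by
  rw [actx_mfun_mul, Matrix.nonsing_inv_mul _ h.1, inv_mul_cancel₀ h.pos.ne', actx_mfun_one]

theorem actx_mfun_right {A : Matrix Ix Ix ℚ} {c : ℚ} (h : IsSim A c) (v : W) :
    mfun A c (mfun A⁻¹ c⁻¹ v) = v := by
  rw [actx_mfun_mul, Matrix.mul_nonsing_inv _ h.1, mul_inv_cancel₀ h.pos.ne', actx_mfun_one]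

theorem exists_m {A : Matrix Ix Ix ℚ} {c : ℚ} (h : IsSim A c) : ∃ g, IsM A c g := by
  refine ⟨{ toFun := mfun A c
            map_add' := fun v v' => ?_
            map_smul' := fun s v => ?_
            invFun := mfun A⁻¹ c⁻¹
            left_inv := actx_mfun_left h
            right_inv := actx_mfun_right h }, fun _ => rfl⟩
  · simp only [mfun, Prod.fst_add, Prod.snd_add, lin_add, smul_add, mul_add, Prod.mk_add_mk]
  · simp only [mfun, Prod.smul_fst, Prod.smul_snd, lin_smul, Prod.smul_mk, smul_eq_mul,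
      RingHom.id_apply, smul_comm (c : ℂ) s, mul_left_comm (c : ℂ) s]
theorem IsM.symm {A : Matrix Ix Ix ℚ} {c : ℚ} {g : Gb} (h : IsSim A c) (hg : IsM A c g) :
    IsM A⁻¹ c⁻¹ g⁻¹ := by
  intro v
  apply g.injective
  rw [hg (mfun _ _ _), actx_mfun_right h]
  exact g.apply_symm_apply v
theorem IsM.mul {A B : Matrix Ix Ix ℚ} {c d : ℚ} {g g' : Gb} (h : IsSim A c) (h' : IsSim B d)
    (hg : IsM A c g) (hg' : IsM B d g') : IsM (A * B) (c * d) (g * g') := by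
  have _h := h
  have _h' := h'
  intro v
  rw [LinearEquiv.mul_apply, hg', hg, actx_mfun_mul]
theorem Gam_le : Gam ≤ GG := by
  refine Subgroup.closure_mono ?_
  rintro g (⟨B, -, h⟩ | ⟨A, hA, h⟩ | h)
  exacts [Or.inl ⟨B, h⟩, Or.inr (Or.inl ⟨A, 1, hA.1, h⟩), Or.inr (Or.inr h)]
theorem nE_mem_GG (B : Ix → ℚ) : nE (toR ℂ B) ∈ GG :=
  Subgroup.subset_closure (Or.inl ⟨B, rfl⟩)
theorem nE_mem_Gam {B : Ix → ℚ} (h : B ∈ Lam) : nE (toR ℂ B) ∈ Gam :=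
  Subgroup.subset_closure (Or.inl ⟨B, h, rfl⟩)
theorem IsM.mem_GG {A : Matrix Ix Ix ℚ} {c : ℚ} {g : Gb} (h : IsSim A c) (hg : IsM A c g) :
    g ∈ GG := Subgroup.subset_closure (Or.inr (Or.inl ⟨A, c, h, hg⟩))
theorem IsM.mem_Gam {A : Matrix Ix Ix ℚ} {g : Gb} (h : IsSimZ A) (hg : IsM A 1 g) : g ∈ Gam :=
  Subgroup.subset_closure (Or.inr (Or.inl ⟨A, h, hg⟩))
theorem wE_mem : wE ∈ Gam := Subgroup.subset_closure (Or.inr (Or.inr rfl))
theorem cE_mem : cE ∈ Gam := isM_cE.mem_Gam isSimZ_cyc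
theorem w0E_mem : w0E ∈ Gam := by
  have h : nE (-ed 0) ∈ Gam := by
    have h1 := nE_mem_Gam (Lam.neg (ed_mem 0))
    rwa [toR_neg, toR_ed] at h1
  rw [w0E_eq]
  exact mul_mem (mul_mem h (mul_mem (mul_mem wE_mem h) (inv_mem wE_mem))) h

theorem actx_wE_inv : wE⁻¹ = wE * wE * wE := by
  refine inv_eq_of_mul_eq_one_right (LinearEquiv.ext fun v => ?_)
  simp only [LinearEquiv.mul_apply, wE_sq, neg_neg, LinearEquiv.coe_one, id]

theorem actx_ind {S : Set Gb} {p : Gb → Prop} (hc : cE ∈ Subgroup.closure S)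
    (h0 : w0E ∈ Subgroup.closure S) (hw : wE ∈ Subgroup.closure S) (pc : p cE) (pc' : p cE⁻¹)
    (p0 : p w0E) (p1 : p 1)
    (hS : ∀ g ∈ S, g = wE ∨ p g ∧ p g⁻¹)
    (hmul : ∀ g ∈ Subgroup.closure S, ∀ g' ∈ Subgroup.closure S, p g → p g' → p (g * g')) :
    ∀ g ∈ Subgroup.closure S, p g := by
  have hc' := inv_mem hc
  have pw : p wE := by
    rw [wE_eq]
    exact hmul _ (mul_mem h0 (mul_mem (mul_mem hc h0) hc')) _ (mul_mem (mul_mem hc' h0) hc)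
      (hmul _ h0 _ (mul_mem (mul_mem hc h0) hc') p0
        (hmul _ (mul_mem hc h0) _ hc' (hmul _ hc _ h0 pc p0) pc'))
      (hmul _ (mul_mem hc' h0) _ hc (hmul _ hc' _ h0 pc' p0) pc)
  have pw' : p wE⁻¹ := by
    rw [actx_wE_inv]
    exact hmul _ (mul_mem hw hw) _ hw (hmul _ hw _ hw pw pw) pw
  intro g hg
  induction hg using Subgroup.closure_induction'' with
  | mem x hx =>
    rcases hS x hx with rfl | h
    exacts [pw, h.1]
  | inv_mem x hx =>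
    rcases hS x hx with rfl | h
    exacts [pw', h.2]
  | one => exact p1
  | mul x y hx hy px py => exact hmul x hx y hy px py

/-- Induction with `w0E` in place of `wE` (`wE_eq`); inverses of generators are products of
generators (`nE_neg`, `IsM.symm`, `w0E_pow`). -/
theorem Gam_ind {p : Gb → Prop} (hn : ∀ B ∈ Lam, p (nE (toR ℂ B)))
    (hm : ∀ A g, IsSimZ A → IsM A 1 g → p g) (hw : p w0E)
    (hmul : ∀ g ∈ Gam, ∀ g' ∈ Gam, p g → p g' → p (g * g')) : ∀ g ∈ Gam, p g := by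
  have hm' : ∀ A g, IsSimZ A → IsM A 1 g → p g⁻¹ := fun A g hA hg =>
    hm A⁻¹ g⁻¹ hA.symm (by simpa only [inv_one] using hg.symm hA.1)
  refine actx_ind cE_mem w0E_mem wE_mem (hm _ _ isSimZ_cyc isM_cE) (hm' _ _ isSimZ_cyc isM_cE) hw
    ?_ ?_ hmul
  · have h := hn 0 Lam.zero
    rwa [toR_zero, nE_zero] at h
  · rintro g (⟨B, hB, rfl⟩ | ⟨A, hA, h⟩ | h)
    · refine Or.inr ⟨hn B hB, ?_⟩
      rw [← nE_neg, ← toR_neg]
      exact hn _ (Lam.neg hB)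
    · exact Or.inr ⟨hm A g hA h, hm' A g hA h⟩
    · exact Or.inl h
theorem GG_ind {p : Gb → Prop} (hn : ∀ B, p (nE (toR ℂ B)))
    (hm : ∀ A c g, IsSim A c → IsM A c g → p g) (hw : p w0E)
    (hmul : ∀ g ∈ GG, ∀ g' ∈ GG, p g → p g' → p (g * g')) : ∀ g ∈ GG, p g := by
  have hm' : ∀ A c g, IsSim A c → IsM A c g → p g⁻¹ := fun A c g hA hg =>
    hm A⁻¹ c⁻¹ g⁻¹ hA.symm (hg.symm hA)
  refine actx_ind (Gam_le cE_mem) (Gam_le w0E_mem) (Gam_le wE_mem) (hm _ _ _ isSim_cyc isM_cE)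
    (hm' _ _ _ isSim_cyc isM_cE) hw ?_ ?_ hmul
  · have h := hn 0
    rwa [toR_zero, nE_zero] at h
  · rintro g (⟨B, rfl⟩ | ⟨A, c, hA, h⟩ | h)
    · refine Or.inr ⟨hn B, ?_⟩
      rw [← nE_neg, ← toR_neg]
      exact hn _
    · exact Or.inr ⟨hm A c g hA h, hm' A c g hA h⟩
    · exact Or.inl h

theorem act_of_eq {g : Gb} {Z Z' : Ix → ℂ} {j : ℂ} (hj : j ≠ 0) (h : g (rr Z) = j • rr Z') :
    jf g Z = j ∧ act g Z = Z' := by
  have h1 : jf g Z = j := by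
    rw [jf, h]
    exact mul_one j
  refine ⟨h1, ?_⟩
  rw [act, h1, h]
  exact inv_smul_smul₀ hj Z'
theorem act_spec {g : Gb} (hg : g ∈ GG) {Z : Ix → ℂ} (hZ : Z ∈ HH) :
    jf g Z ≠ 0 ∧ act g Z ∈ HH ∧ g (rr Z) = jf g Z • rr (act g Z) := by
  have key : ∀ g ∈ GG, ∀ Z ∈ HH, ∃ (j : ℂ) (Z' : Ix → ℂ), j ≠ 0 ∧ Z' ∈ HH ∧
      g (rr Z) = j • rr Z' := by
    refine GG_ind (fun B Z hZ => ?_) (fun A c g hA hg Z hZ => ?_) (fun Z hZ => ?_)
      fun g _ g' _ h h' Z hZ => ?_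
    · exact ⟨1, _, one_ne_zero, HH.add_toR hZ B, by rw [nE_rr, one_smul]⟩
    · exact ⟨1, _, one_ne_zero, HH.lin_mem hZ hA, by rw [hg, mfun_rr hA, one_smul]⟩
    · exact ⟨_, _, HH.dg_ne hZ 0, HH.i0_mem hZ, w0E_rr (HH.dg_ne hZ 0)⟩
    · obtain ⟨j, Z', hj, hZ', e⟩ := h' Z hZ
      obtain ⟨j', Z'', hj', hZ'', e'⟩ := h Z' hZ'
      exact ⟨j * j', Z'', mul_ne_zero hj hj', hZ'', by
        rw [LinearEquiv.mul_apply, e, map_smul, e', smul_smul]⟩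
  obtain ⟨j, Z', hj, hZ', e⟩ := key g hg Z hZ
  obtain ⟨h1, h2⟩ := act_of_eq hj e
  rw [h1, h2]
  exact ⟨hj, hZ', e⟩
theorem jf_mul (g : Gb) {g' : Gb} (hg' : g' ∈ GG) {Z : Ix → ℂ} (hZ : Z ∈ HH) :
    jf (g * g') Z = jf g (act g' Z) * jf g' Z := by
  rw [jf, LinearEquiv.mul_apply, (act_spec hg' hZ).2.2, map_smul, mul_comm]
  rfl
theorem act_mul {g g' : Gb} (hg : g ∈ GG) (hg' : g' ∈ GG) {Z : Ix → ℂ} (hZ : Z ∈ HH) :
    act (g * g') Z = act g (act g' Z) := by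
  obtain ⟨h1, h2, h3⟩ := act_spec hg' hZ
  obtain ⟨h4, -, h5⟩ := act_spec hg h2
  refine (act_of_eq (mul_ne_zero h1 h4) ?_).2
  rw [LinearEquiv.mul_apply, h3, map_smul, h5, smul_smul]
theorem jf_one (Z : Ix → ℂ) : jf 1 Z = 1 := rfl
theorem act_one (Z : Ix → ℂ) : act 1 Z = Z :=
  (act_of_eq (g := 1) one_ne_zero (one_smul ℂ (rr Z)).symm).2
theorem jf_nE (B Z : Ix → ℂ) : jf (nE B) Z = 1 := rfl
theorem act_nE (B Z : Ix → ℂ) : act (nE B) Z = Z + B :=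
  (act_of_eq one_ne_zero (by rw [nE_rr, one_smul])).2
theorem IsM.jf_eq {A : Matrix Ix Ix ℚ} {c : ℚ} {g : Gb} (hg : IsM A c g) (Z : Ix → ℂ) :
    jf g Z = 1 := by
  rw [jf, hg]
  rfl
theorem IsM.act_eq {A : Matrix Ix Ix ℚ} {c : ℚ} {g : Gb} (hg : IsM A c g) (Z : Ix → ℂ) :
    act g Z = lin A Z := by
  rw [act, hg.jf_eq, inv_one, one_smul, hg]
  rfl
theorem jf_wE (Z : Ix → ℂ) : jf wE Z = nrm Z := rfl
theorem act_wE (Z : Ix → ℂ) : act wE Z = inv Z := by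
  rw [act, jf_wE, inv, neg_smul, ← smul_neg]
  rfl
theorem HH.nrm_ne {Z : Ix → ℂ} (h : Z ∈ HH) : nrm Z ≠ 0 := (act_spec (Gam_le wE_mem) h).1
theorem jf_w0E (Z : Ix → ℂ) : jf w0E Z = dg Z 0 := rfl
theorem act_w0E {Z : Ix → ℂ} (h : Z ∈ HH) : act w0E Z = i0 Z :=
  (act_of_eq (HH.dg_ne h 0) (w0E_rr (HH.dg_ne h 0))).2

theorem actx_isP {g : Gb} {t : ℚ} {B : Ix → ℚ} {A : Matrix Ix Ix ℚ} {c : ℚ} (h : IsP g t B A c)
    (Z : Ix → ℂ) : g (rr Z) = (t : ℂ) • rr (lin A Z + toR ℂ B) := by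
  rw [h.2.2, mfun_rr h.2.1, ← nE_apply, nE_rr]

theorem IsP.jf_eq {g : Gb} {t : ℚ} {B : Ix → ℚ} {A : Matrix Ix Ix ℚ} {c : ℚ} (h : IsP g t B A c)
    (Z : Ix → ℂ) : jf g Z = t := (act_of_eq (Rat.cast_ne_zero.2 h.1) (actx_isP h Z)).1
theorem IsP.act_eq {g : Gb} {t : ℚ} {B : Ix → ℚ} {A : Matrix Ix Ix ℚ} {c : ℚ} (h : IsP g t B A c)
    (Z : Ix → ℂ) : act g Z = lin A Z + toR ℂ B :=
  (act_of_eq (Rat.cast_ne_zero.2 h.1) (actx_isP h Z)).2

/-- Left multiplication of a parabolic element by a Levi element. -/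
theorem IsP.m_mul {g m : Gb} {t : ℚ} {B : Ix → ℚ} {A A' : Matrix Ix Ix ℚ} {c c' : ℚ}
    (h : IsP g t B A c) (h' : IsSim A' c') (hm : IsM A' c' m) :
    IsP (m * g) t (lin A' B) (A' * A) (c' * c) := by
  refine ⟨h.1, h'.mul h.2.1, fun v => ?_⟩
  have key : (m * nE (toR ℂ B) : Gb).toLinearMap =
      (nE (toR ℂ (lin A' B)) * m : Gb).toLinearMap := by
    refine ext_rr _ _ fun Z _ => ?_
    simp only [LinearEquiv.coe_coe, LinearEquiv.mul_apply]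
    rw [nE_rr, hm, hm, mfun_rr h', mfun_rr h', nE_rr, lin_add, lin_toR]
  have h1 := LinearMap.congr_fun key (mfun A c v)
  simp only [LinearEquiv.coe_coe, LinearEquiv.mul_apply, nE_apply] at h1
  rw [LinearEquiv.mul_apply, h.2.2, map_smul, h1, hm, actx_mfun_mul]

theorem polyFn_jf (g : Gb) : PolyFn (jf g) :=
  polyFn_rr ((LinearMap.fst ℂ _ _).comp g.toLinearMap)

theorem actx_polyFn (g : Gb) (l : Ix) : PolyFn fun Z => (g (rr Z)).2.1 l :=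
  polyFn_rr ((LinearMap.proj l).comp ((LinearMap.fst ℂ _ _).comp
    ((LinearMap.snd ℂ _ _).comp g.toLinearMap)))

theorem differentiableAt_act {g : Gb} (hg : g ∈ GG) {Z : Ix → ℂ} (hZ : Z ∈ HH) :
    DifferentiableAt ℂ (act g) Z := by
  refine differentiableAt_pi.2 fun l => ?_
  exact (((polyFn_jf g).differentiable Z).inv (act_spec hg hZ).1).mul
    ((actx_polyFn g l).differentiable Z)

theorem Hecke.exists_act {Z0 Z : Ix → ℂ} (h0 : Z0 ∈ HH) (h : Hecke Z0 Z) :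
    ∃ g ∈ GG, Z = act g Z0 := by
  induction h with
  | base => exact ⟨1, one_mem _, (act_one Z0).symm⟩
  | add Z B _ ih =>
    obtain ⟨g, hg, rfl⟩ := ih
    exact ⟨_, mul_mem (nE_mem_GG B) hg, by rw [act_mul (nE_mem_GG B) hg h0, act_nE]⟩
  | sim Z A c hA _ ih =>
    obtain ⟨g, hg, rfl⟩ := ih
    obtain ⟨m, hm⟩ := exists_m hA
    exact ⟨_, mul_mem (hm.mem_GG hA) hg, by rw [act_mul (hm.mem_GG hA) hg h0, hm.act_eq]⟩
  | flip Z _ ih =>
    obtain ⟨g, hg, rfl⟩ := ih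
    exact ⟨_, mul_mem (Gam_le wE_mem) hg, by rw [act_mul (Gam_le wE_mem) hg h0, act_wE]⟩

/-- `jf g ^ d * P (act g Z)` is polynomial in `Z`. -/
theorem exists_poly_act {g : Gb} (hg : g ∈ GG) (P : MvPolynomial Ix ℂ) :
    ∃ P' : MvPolynomial Ix ℂ, ∀ Z ∈ HH, MvPolynomial.eval Z P' =
      jf g Z ^ P.totalDegree * MvPolynomial.eval (act g Z) P := by
  obtain ⟨P', hP'⟩ := PolyFn.sum P.support
    (f := fun s Z => P.coeff s * jf g Z ^ (P.totalDegree - ∑ l, s l) *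
      ∏ l, (g (rr Z)).2.1 l ^ s l)
    fun s _ => ((PolyFn.const _).mul ((polyFn_jf g).pow _)).mul
      (PolyFn.prod _ fun l _ => (actx_polyFn g l).pow _)
  refine ⟨P', fun Z hZ => ?_⟩
  rw [← hP', MvPolynomial.eval_eq', Finset.mul_sum]
  refine Finset.sum_congr rfl fun s hs => ?_
  have h1 : ∑ l, s l ≤ P.totalDegree := by
    have h2 := MvPolynomial.le_totalDegree hs
    rwa [Finsupp.sum_fintype _ _ fun _ => rfl] at h2
  have h2 : ∀ l, (g (rr Z)).2.1 l = jf g Z * act g Z l := fun l => by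
    rw [(act_spec hg hZ).2.2]
    rfl
  obtain ⟨n, hn⟩ := Nat.exists_eq_add_of_le h1
  simp only [h2, mul_pow, Finset.prod_mul_distrib, Finset.prod_pow_eq_pow_sum]
  rw [hn, Nat.add_sub_cancel_left, pow_add]
  ring

end Pool.Agent.E7
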