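import Mathlib

/-! Germs of analytic functions. -/

open Filter Topology

noncomputable section

namespace Pool.Agent.E7

/-- Germs of analytic functions at `0`. -/
def An : Subring (Germ (𝓝 (0 : ℂ)) ℂ) where
  carrier := {g | ∃ f : ℂ → ℂ, AnalyticAt ℂ f 0 ∧ (f : Germ (𝓝 (0 : ℂ)) ℂ) = g}
  mul_mem' := by
    rintro _ _ ⟨f, hf, rfl⟩ ⟨g, hg, rfl⟩
    exact ⟨f * g, hf.mul hg, rfl⟩
  add_mem' := by
    rintro _ _ ⟨f, hf, rfl⟩ ⟨g, hg, rfl⟩
    exact ⟨f + g, hf.add hg, rfl⟩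
  one_mem' := ⟨fun _ => 1, analyticAt_const, rfl⟩
  zero_mem' := ⟨fun _ => 0, analyticAt_const, rfl⟩
  neg_mem' := by
    rintro _ ⟨f, hf, rfl⟩
    exact ⟨-f, hf.neg, rfl⟩

/-- Constant germs. -/
def An.cst : ℂ →+* An where
  toFun c := ⟨((fun _ => c : ℂ → ℂ) : Germ (𝓝 (0 : ℂ)) ℂ), fun _ => c, analyticAt_const, rfl⟩
  map_one' := rfl
  map_mul' _ _ := rfl
  map_zero' := rfl
  map_add' _ _ := rfl

instance An.algebra : Algebra ℂ An := An.cst.toAlgebra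

theorem an_mul_zero {f g : ℂ → ℂ} (hf : AnalyticAt ℂ f 0) (hg : AnalyticAt ℂ g 0)
    (h : f * g =ᶠ[𝓝 0] 0) : f =ᶠ[𝓝 0] 0 ∨ g =ᶠ[𝓝 0] 0 := by
  refine hf.eventually_eq_zero_or_eventually_ne_zero.imp id fun h1 => ?_
  refine hg.frequently_zero_iff_eventually_zero.mp (Eventually.frequently ?_)
  filter_upwards [h1, h.filter_mono nhdsWithin_le_nhds] with z h2 h3
  exact (mul_eq_zero.mp h3).resolve_left h2

instance An.isDomain : IsDomain An := by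
  have : NoZeroDivisors An := ⟨by
    rintro ⟨_, f, hf, rfl⟩ ⟨_, g, hg, rfl⟩ h
    have h1 : ((f * g : ℂ → ℂ) : Germ (𝓝 (0 : ℂ)) ℂ) = ((0 : ℂ → ℂ) : Germ (𝓝 (0 : ℂ)) ℂ) :=
      congrArg Subtype.val h
    exact (an_mul_zero hf hg (Germ.coe_eq.mp h1)).imp
      (fun h2 => Subtype.ext (Germ.coe_eq.mpr h2)) fun h2 => Subtype.ext (Germ.coe_eq.mpr h2)⟩
  exact NoZeroDivisors.to_isDomain An

/-- The derivative of a germ. -/
def an_d (g : Germ (𝓝 (0 : ℂ)) ℂ) : Germ (𝓝 (0 : ℂ)) ℂ :=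
  g.liftOn (fun f => ((deriv f : ℂ → ℂ) : Germ (𝓝 (0 : ℂ)) ℂ)) fun _ _ h =>
    Germ.coe_eq.mpr h.deriv

theorem an_d_mem (g : An) : an_d g ∈ An := by
  obtain ⟨_, f, hf, rfl⟩ := g
  exact ⟨deriv f, hf.deriv, rfl⟩

/-- The derivative as an additive map. -/
def an_D : An →+ An :=
  AddMonoidHom.mk' (fun g => ⟨an_d g, an_d_mem g⟩) (by
    rintro ⟨_, f, hf, rfl⟩ ⟨_, g, hg, rfl⟩
    refine Subtype.ext (Germ.coe_eq.mpr (?_ : deriv (f + g) =ᶠ[𝓝 0] deriv f + deriv g))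
    filter_upwards [hf.eventually_analyticAt, hg.eventually_analyticAt] with z h1 h2
    exact deriv_add h1.differentiableAt h2.differentiableAt)

theorem an_D_mul (a b : An) : an_D (a * b) = a * an_D b + b * an_D a := by
  obtain ⟨_, f, hf, rfl⟩ := a
  obtain ⟨_, g, hg, rfl⟩ := b
  refine Subtype.ext (Germ.coe_eq.mpr (?_ : deriv (f * g) =ᶠ[𝓝 0] f * deriv g + g * deriv f))
  filter_upwards [hf.eventually_analyticAt, hg.eventually_analyticAt] with z h1 h2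
  rw [deriv_mul h1.differentiableAt h2.differentiableAt]
  simp only [Pi.add_apply, Pi.mul_apply]
  ring

theorem an_prop {f g : ℂ → ℂ} (hf : AnalyticAt ℂ f 0) (hg : AnalyticAt ℂ g 0)
    (h0 : ¬ g =ᶠ[𝓝 0] 0) (h : g * deriv f =ᶠ[𝓝 0] f * deriv g) :
    ∃ c : ℂ, f =ᶠ[𝓝 0] (fun _ => c) * g := by
  obtain ⟨r, hr, h1⟩ := Metric.eventually_nhds_iff_ball.mp
    ((hf.eventually_analyticAt.and hg.eventually_analyticAt).and h)
  obtain ⟨z, hz, hz0⟩ : ∃ z ∈ Metric.ball (0 : ℂ) r, g z ≠ 0 := by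
    by_contra hc
    push Not at hc
    exact h0 (eventually_of_mem (Metric.ball_mem_nhds 0 hr) hc)
  obtain ⟨s, hs, h2⟩ := Metric.eventually_nhds_iff_ball.mp
    (((h1 z hz).1.2.continuousAt.eventually_ne hz0).and (Metric.isOpen_ball.mem_nhds hz))
  obtain ⟨c, hc⟩ := Metric.isOpen_ball.exists_is_const_of_deriv_eq_zero (f := f / g)
    (convex_ball z s).isPreconnected
    (fun w hw => ((h1 w (h2 w hw).2).1.1.differentiableAt.div
      (h1 w (h2 w hw).2).1.2.differentiableAt (h2 w hw).1).differentiableWithinAt)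
    (fun w hw => by
      have h3 : g w * deriv f w = f w * deriv g w := (h1 w (h2 w hw).2).2
      rw [deriv_div (h1 w (h2 w hw).2).1.1.differentiableAt
        (h1 w (h2 w hw).2).1.2.differentiableAt (h2 w hw).1, mul_comm, h3, sub_self, zero_div]
      rfl)
  refine ⟨c, eventually_of_mem (Metric.ball_mem_nhds 0 hr) ?_⟩
  refine AnalyticOnNhd.eqOn_of_preconnected_of_eventuallyEq (𝕜 := ℂ) (fun w hw => (h1 w hw).1.1)
    (fun w hw => analyticAt_const.mul (h1 w hw).1.2) (convex_ball 0 r).isPreconnected hz ?_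
  filter_upwards [Metric.ball_mem_nhds z hs] with w hw
  exact (div_eq_iff (h2 w hw).1).mp (hc w hw)

/-- The derivative of germs; germs with equal logarithmic derivative are proportional. -/
theorem exists_deriv_An : ∃ D : Derivation ℤ An An,
    (∀ (f : ℂ → ℂ) (g : An), (f : Germ (𝓝 (0 : ℂ)) ℂ) = g →
      ((deriv f : ℂ → ℂ) : Germ (𝓝 (0 : ℂ)) ℂ) = D g) ∧
    ∀ f g : An, g ≠ 0 → g * D f = f * D g → ∃ c : ℂ, f = An.cst c * g := by
  refine ⟨Derivation.mk' an_D.toIntLinearMap an_D_mul, fun f g h => ?_, ?_⟩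
  · change _ = an_d g
    rw [← h]
    rfl
  · rintro ⟨_, f, hf, rfl⟩ ⟨_, g, hg, rfl⟩ h0 h
    have h1 : ((g * deriv f : ℂ → ℂ) : Germ (𝓝 (0 : ℂ)) ℂ) =
        ((f * deriv g : ℂ → ℂ) : Germ (𝓝 (0 : ℂ)) ℂ) := congrArg Subtype.val h
    obtain ⟨c, hc⟩ := an_prop hf hg (fun h2 => h0 (Subtype.ext (Germ.coe_eq.mpr h2)))
      (Germ.coe_eq.mp h1)
    exact ⟨c, Subtype.ext (Germ.coe_eq.mpr hc)⟩

end Pool.Agent.E7
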