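import Mathlib

/-! Algebra of a curve with infinitely many points defined over a small field. -/

open Polynomial
open scoped Polynomial.Bivariate

noncomputable section

namespace Pool.Agent.E7

/-- Any two elements of `B` are algebraically dependent over `K`. -/
def Dep2 (K B : Type*) [Field K] [CommRing B] [Algebra K B] : Prop :=
  ∀ a b : B, ∃ P : MvPolynomial (Fin 2) K, P ≠ 0 ∧ MvPolynomial.aeval ![a, b] P = 0

variable {K B : Type*} [Field K] [CommRing B] [IsDomain B] [Algebra K B]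

omit [IsDomain B] in
theorem ccurve_not_indep {a b : B} (h : ¬ AlgebraicIndependent K ![a, b]) :
    ∃ P : MvPolynomial (Fin 2) K, P ≠ 0 ∧ MvPolynomial.aeval ![a, b] P = 0 := by
  rw [algebraicIndependent_iff] at h
  push Not at h
  obtain ⟨P, h1, h2⟩ := h
  exact ⟨P, h2, h1⟩

omit [IsDomain B] in
theorem dep2_of_trdeg (h : Algebra.trdeg K B ≤ 1) : Dep2 K B := by
  intro a b
  refine ccurve_not_indep fun hi => ?_
  have h1 := hi.lift_cardinalMk_le_trdeg
  have h2 := le_trans h1 (Cardinal.lift_le.2 h)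
  simp at h2

/-- Dependence passes to algebraic extensions. -/
theorem dep2_of_alg (B0 : Subalgebra K B)
    (h0 : ∀ a ∈ B0, ∀ b ∈ B0, ∃ P : MvPolynomial (Fin 2) K, P ≠ 0 ∧
      MvPolynomial.aeval ![a, b] P = 0)
    (halg : ∀ b : B, IsAlgebraic B0 b) : Dep2 K B := by
  intro a b
  refine ccurve_not_indep fun hi => ?_
  have hr : (AlgebraicIndependent.matroid K B).eRk (B0 : Set B) ≤ 1 := by
    obtain ⟨I, hI⟩ := (AlgebraicIndependent.matroid K B).exists_isBasis (B0 : Set B)
    rw [← hI.encard_eq_eRk, Set.encard_le_one_iff]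
    intro u v hu hv
    by_contra huv
    obtain ⟨P, hP, hP0⟩ := h0 u (hI.subset hu) v (hI.subset hv)
    have h1 : AlgebraicIndependent K ((↑) : I → B) :=
      AlgebraicIndependent.matroid_indep_iff.1 hI.indep
    have h2 := h1.comp (![⟨u, hu⟩, ⟨v, hv⟩] : Fin 2 → I) (by
      intro i j hij
      fin_cases i <;> fin_cases j <;> simp_all [eq_comm])
    have h3 : (((↑) : I → B) ∘ (![⟨u, hu⟩, ⟨v, hv⟩] : Fin 2 → I)) = ![u, v] := by
      ext i; fin_cases i <;> rfl
    rw [h3, algebraicIndependent_iff] at h2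
    exact hP (h2 P hP0)
  have hi' : (AlgebraicIndependent.matroid K B).Indep (Set.range ![a, b]) :=
    AlgebraicIndependent.matroid_indep_iff.2 hi.to_subtype_range
  have hsub : Set.range ![a, b] ⊆ (AlgebraicIndependent.matroid K B).closure (B0 : Set B) := by
    intro z _
    rw [AlgebraicIndependent.matroid_closure_eq, SetLike.mem_coe, Subalgebra.mem_algebraicClosure,
      Algebra.adjoin_eq]
    exact halg z
  have h1 := hi'.encard_le_eRk_of_subset hsub
  rw [Matroid.eRk_closure_eq] at h1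
  have h2 := le_trans hi.injective.encard_range (le_trans h1 hr)
  simp at h2

/-- Everything algebraic over `K[x0]`. -/
theorem dep2_of_gen (x0 : B) (h : ∀ b : B, IsAlgebraic (Algebra.adjoin K {x0}) b) : Dep2 K B := by
  intro a b
  refine ccurve_not_indep fun hi => ?_
  have hi' : (AlgebraicIndependent.matroid K B).Indep (Set.range ![a, b]) :=
    AlgebraicIndependent.matroid_indep_iff.2 hi.to_subtype_range
  have hsub : Set.range ![a, b] ⊆ (AlgebraicIndependent.matroid K B).closure {x0} := by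
    intro z _
    rw [AlgebraicIndependent.matroid_closure_eq, SetLike.mem_coe, Subalgebra.mem_algebraicClosure]
    exact h z
  have h1 := hi'.encard_le_eRk_of_subset hsub
  rw [Matroid.eRk_closure_eq] at h1
  have h2 := le_trans hi.injective.encard_range (le_trans h1 (Matroid.eRk_le_encard _ _))
  simp at h2

omit [IsDomain B] in
theorem ccurve_equiv (a b : B) (p : K[X][Y]) :
    MvPolynomial.aeval ![a, b] (Bivariate.equivMvPolynomial K p) = aevalAeval a b p := by
  have : (MvPolynomial.aeval ![a, b]).comp (Bivariate.equivMvPolynomial K).toAlgHom =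
      aevalAeval a b := by
    ext <;> simp
  exact DFunLike.congr_fun this p

omit [IsDomain B] in
theorem Dep2.biv (hd : Dep2 K B) (a b : B) : ∃ p : K[X][Y], p ≠ 0 ∧ aevalAeval a b p = 0 := by
  obtain ⟨P, hP, h⟩ := hd a b
  refine ⟨(Bivariate.equivMvPolynomial K).symm P, by simpa using hP, ?_⟩
  rw [← ccurve_equiv, AlgEquiv.apply_symm_apply, h]

omit [IsDomain B] in
theorem ccurve_eps (eps : B →ₐ[K] K) (a b : B) (p : K[X][Y]) :
    eps (aevalAeval a b p) = p.evalEval (eps a) (eps b) := by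
  have : eps.comp (aevalAeval a b) = aevalAeval (eps a) (eps b) := by
    ext <;> simp
  rw [← coe_aevalAeval_eq_evalEval]
  exact DFunLike.congr_fun this p

omit [IsDomain B] in
/-- Relations between the values of two elements. -/
theorem curve_rel (hd : Dep2 K B) (a b : B) :
    ∃ P : K[X][Y], P ≠ 0 ∧ ∀ eps : B →ₐ[K] K, P.evalEval (eps a) (eps b) = 0 := by
  obtain ⟨p, hp, h⟩ := hd.biv a b
  exact ⟨p, hp, fun eps => by rw [← ccurve_eps, h, map_zero]⟩

theorem ccurve_strip (hd : Dep2 K B) (a b : B) (c : K) (hb : b ≠ algebraMap K B c) :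
    ∃ q : K[X][Y], q.eval (C c) ≠ 0 ∧ aevalAeval a b q = 0 := by
  obtain ⟨p, hp, h⟩ := hd.biv a b
  obtain ⟨q, hq, hn⟩ := exists_eq_pow_rootMultiplicity_mul_and_not_dvd p hp (C c)
  refine ⟨q, fun h0 => hn (dvd_iff_isRoot.2 h0), ?_⟩
  rw [hq, map_mul, map_pow, map_sub, aevalAeval_Y, aevalAeval_C, aeval_C] at h
  exact (mul_eq_zero.1 h).resolve_left (pow_ne_zero _ (sub_ne_zero.2 hb))

/-- A nonzero element divides a nonzero polynomial in any given element. -/
theorem curve_dep (hd : Dep2 K B) (a b : B) (hb : b ≠ 0) :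
    ∃ Q0 : K[X], Q0 ≠ 0 ∧ ∃ R : MvPolynomial (Fin 2) K,
      aeval a Q0 = b * MvPolynomial.aeval ![a, b] R := by
  obtain ⟨q, hq, h⟩ := ccurve_strip hd a b 0 (by simpa using hb)
  refine ⟨q.coeff 0, by rwa [map_zero, ← coeff_zero_eq_eval_zero] at hq,
    Bivariate.equivMvPolynomial K (-divX q), ?_⟩
  rw [← X_mul_divX_add q, map_add, map_mul, aevalAeval_Y, aevalAeval_C] at h
  rw [ccurve_equiv, map_neg]
  linear_combination h

variable {ι : Type*} [Finite ι]

omit [IsDomain B] in
theorem ccurve_fin (x : ι → B) (eps : ℕ → B →ₐ[K] K)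
    (hfib : ∀ c : ι → K, {n | (fun i => eps n (x i)) = c}.Finite) (g : ι → K[X])
    (hg : ∀ i, g i ≠ 0) : {n | ∀ i, (g i).eval (eps n (x i)) = 0}.Finite := by
  have h1 : {c : ι → K | ∀ i, c i ∈ (g i).rootSet K}.Finite :=
    Set.Finite.pi' fun i => rootSet_finite _ _
  refine (h1.biUnion fun c _ => hfib c).subset fun n hn => ?_
  simp only [Set.mem_iUnion]
  exact ⟨fun i => eps n (x i), fun i => (mem_rootSet_of_ne (hg i)).2 (by simpa using hn i), rfl⟩

/-- Some coordinate has finite fibres. -/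
theorem curve_fib (hd : Dep2 K B) (x : ι → B) (eps : ℕ → B →ₐ[K] K)
    (hfib : ∀ c : ι → K, {n | (fun i => eps n (x i)) = c}.Finite) :
    ∃ i1, ∀ c, {n | eps n (x i1) = c}.Finite := by
  have h1 : ∃ i1, ∀ c, x i1 ≠ algebraMap K B c := by
    by_contra h
    push Not at h
    choose c hc using h
    refine Set.infinite_univ ((hfib c).subset fun n _ => ?_)
    ext i
    simp [hc i]
  obtain ⟨i1, hi1⟩ := h1
  refine ⟨i1, fun c => ?_⟩
  choose q hq h using fun j => ccurve_strip hd (x j) (x i1) c (hi1 c)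
  refine (ccurve_fin x eps hfib _ hq).subset fun n hn j => ?_
  have h2 := ccurve_eps (eps n) (x j) (x i1) (q j)
  rw [h j, map_zero, show eps n (x i1) = c from hn] at h2
  exact h2.symm

theorem ccurve_noroot (u : ℕ → K) (hu : ∀ c, {n | u n = c}.Finite) (Q0 : K[X]) (hQ : Q0 ≠ 0) :
    {n | Q0.eval (u n) = 0}.Finite := by
  refine ((rootSet_finite Q0 K).biUnion fun c _ => hu c).subset fun n hn => ?_
  simp only [Set.mem_iUnion]
  exact ⟨u n, (mem_rootSet_of_ne hQ).2 (by simpa using hn), rfl⟩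

omit [IsDomain B] in
theorem ccurve_eps1 (eps : B →ₐ[K] K) (a : B) (Q0 : K[X]) :
    eps (aeval a Q0) = Q0.eval (eps a) := by
  rw [← aeval_algHom_apply, coe_aeval_eq_eval]

omit [IsDomain B] in
theorem ccurve_eps2 (eps : B →ₐ[K] K) (a b : B) (P : MvPolynomial (Fin 2) K) :
    eps (MvPolynomial.aeval ![a, b] P) = MvPolynomial.eval ![eps a, eps b] P := by
  have : eps.comp (MvPolynomial.aeval ![a, b]) = MvPolynomial.aeval ![eps a, eps b] := by
    ext i
    fin_cases i <;> simp
  rw [← MvPolynomial.coe_aeval_eq_eval]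
  exact DFunLike.congr_fun this P

/-- A nonzero element vanishes at finitely many of the points. -/
theorem curve_zero_fin (hd : Dep2 K B) (a : B) (eps : ℕ → B →ₐ[K] K)
    (ha : ∀ c, {n | eps n a = c}.Finite) (b : B) (hb : b ≠ 0) : {n | eps n b = 0}.Finite := by
  obtain ⟨Q0, hQ, R, h⟩ := curve_dep hd a b hb
  refine (ccurve_noroot _ ha Q0 hQ).subset fun n hn => ?_
  have h1 : eps n b = 0 := hn
  show Q0.eval (eps n a) = 0
  rw [← ccurve_eps1, h, map_mul, h1, zero_mul]

/-- Descent of a polynomial to a subfield that contains the zeros of interest. -/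
theorem ccurve_desc {K0 σ : Type*} [Field K0] [Algebra K0 K] (A : IntermediateField K0 K)
    (P : MvPolynomial σ K) (hP : P ≠ 0) :
    ∃ P' : MvPolynomial σ K, P' ≠ 0 ∧ (∀ m, P'.coeff m ∈ A) ∧
      ∀ u : σ → K, (∀ i, u i ∈ A) → MvPolynomial.eval u P = 0 → MvPolynomial.eval u P' = 0 := by
  classical
  obtain ⟨m0, hm0⟩ := MvPolynomial.ne_zero_iff.1 hP
  obtain ⟨f, hf⟩ := Module.Projective.exists_dual_eq_one A hm0
  have hco : ∀ m, (∑ k ∈ P.support, MvPolynomial.monomial k ((f (P.coeff k) : A) : K)).coeff m =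
      ((f (P.coeff m) : A) : K) := by
    intro m
    rw [MvPolynomial.coeff_sum]
    simp only [MvPolynomial.coeff_monomial, Finset.sum_ite_eq']
    split_ifs with h
    · rfl
    · rw [MvPolynomial.notMem_support_iff.1 h]
      simp
  refine ⟨∑ k ∈ P.support, MvPolynomial.monomial k ((f (P.coeff k) : A) : K), ?_, ?_, ?_⟩
  · refine MvPolynomial.ne_zero_iff.2 ⟨m0, ?_⟩
    rw [hco, hf]
    simp
  · intro m
    rw [hco]
    exact (f (P.coeff m)).2
  · intro u hu h
    have hm : ∀ k : σ →₀ ℕ, (k.prod fun i e => u i ^ e) ∈ A := fun k =>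
      prod_mem fun i _ => pow_mem (hu i) _
    have h1 : ∑ k ∈ P.support, (⟨_, hm k⟩ : A) • P.coeff k = 0 := by
      rw [← h, MvPolynomial.eval_eq]
      refine Finset.sum_congr rfl fun k _ => ?_
      rw [mul_comm]
      rfl
    have h2 := congrArg (fun z => ((f z : A) : K)) h1
    simp only [map_sum, map_smul, map_zero, smul_eq_mul] at h2
    rw [map_sum]
    simp only [MvPolynomial.eval_monomial]
    rw [show ((0 : A) : K) = 0 from rfl] at h2
    rw [← h2, show ∀ (s : Finset (σ →₀ ℕ)) (g : (σ →₀ ℕ) → A),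
      ((∑ k ∈ s, g k : A) : K) = ∑ k ∈ s, (g k : K) from fun s g => map_sum A.val g s]
    refine Finset.sum_congr rfl fun k _ => ?_
    rw [mul_comm]
    rfl

/-- A separable relation with coefficients in the small field. -/
theorem ccurve_sep [CharZero K] {K0 : Type*} [Field K0] [Algebra K0 K] (A : IntermediateField K0 K)
    (hd : Dep2 K B) (a b : B) (eps : ℕ → B →ₐ[K] K) (ha : ∀ c, {n | eps n a = c}.Finite)
    (hA : ∀ n, eps n a ∈ A) (hB : ∀ n, eps n b ∈ A) :
    ∃ P : MvPolynomial (Fin 2) K, (∀ m, P.coeff m ∈ A) ∧ MvPolynomial.aeval ![a, b] P = 0 ∧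
      MvPolynomial.aeval ![a, b] (MvPolynomial.pderiv 1 P) ≠ 0 := by
  classical
  have hev : ∀ n (P : MvPolynomial (Fin 2) K), eps n (MvPolynomial.aeval ![a, b] P) =
      MvPolynomial.eval ![eps n a, eps n b] P := by
    exact fun n P => ccurve_eps2 (eps n) a b P
  have hex : ∃ d, ∃ P : MvPolynomial (Fin 2) K, P ≠ 0 ∧ (∀ m, P.coeff m ∈ A) ∧
      MvPolynomial.aeval ![a, b] P = 0 ∧ P.degreeOf 1 = d := by
    obtain ⟨P, hP, h⟩ := hd a b
    obtain ⟨P', h1, h2, h3⟩ := ccurve_desc A P hP
    refine ⟨_, P', h1, h2, ?_, rfl⟩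
    by_contra hne
    refine Set.infinite_univ ((curve_zero_fin hd a eps ha _ hne).subset fun n _ => ?_)
    show eps n _ = 0
    rw [hev]
    refine h3 _ (fun i => ?_) (by rw [← hev, h, map_zero])
    fin_cases i
    · exact hA n
    · exact hB n
  obtain ⟨P, hP, hc, h0, hdeg⟩ := Nat.find_spec hex
  refine ⟨P, hc, h0, fun h1 => ?_⟩
  by_cases hz : MvPolynomial.pderiv 1 P = 0
  · obtain ⟨p, rfl⟩ := (Bivariate.equivMvPolynomial K).surjective P
    rw [Bivariate.pderiv_one_equivMvPolynomial, map_eq_zero_iff _ (AlgEquiv.injective _)] at hz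
    have hp := eq_C_of_derivative_eq_zero hz
    have hp0 : p.coeff 0 ≠ 0 := fun h => hP (by rw [hp, h]; simp)
    rw [ccurve_equiv, hp, aevalAeval_C] at h0
    refine Set.infinite_univ ((ccurve_noroot _ ha _ hp0).subset fun n _ => ?_)
    show (p.coeff 0).eval (eps n a) = 0
    rw [← ccurve_eps1, h0, map_zero]
  · have hle := Nat.find_min' hex ⟨_, hz, fun m => by
      rw [MvPolynomial.coeff_pderiv]
      exact mul_mem (hc _) (add_mem (natCast_mem A _) (one_mem A)), h1, rfl⟩
    obtain ⟨m, hm, hm1⟩ := Finset.exists_mem_eq_sup _ (MvPolynomial.support_nonempty.2 hz)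
      (fun m : Fin 2 →₀ ℕ => m 1)
    rw [← hdeg, MvPolynomial.degreeOf_eq_sup 1 (MvPolynomial.pderiv 1 P), hm1] at hle
    have hm2 : m + Finsupp.single 1 1 ∈ P.support := by
      rw [MvPolynomial.mem_support_iff] at hm ⊢
      rw [MvPolynomial.coeff_pderiv] at hm
      exact left_ne_zero_of_mul hm
    have h3 := MvPolynomial.monomial_le_degreeOf 1 hm2
    simp at h3
    omega

/-- The curve algebra: a coordinate with finite fibres and separable plane equations over a finite
extension. -/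
theorem curve_alg [CharZero K] {K0 : Type*} [Field K0] [Algebra K0 K] (hd : Dep2 K B) (x : ι → B)
    (eps : ℕ → B →ₐ[K] K) (halg : ∀ n i, IsAlgebraic K0 (eps n (x i)))
    (hfib : ∀ c : ι → K, {n | (fun i => eps n (x i)) = c}.Finite) :
    ∃ (i1 : ι) (E : IntermediateField K0 K) (P : ι → MvPolynomial (Fin 2) K),
      FiniteDimensional K0 E ∧ (∀ j m, (P j).coeff m ∈ E) ∧
      (∀ j, MvPolynomial.aeval ![x i1, x j] (P j) = 0) ∧
      (∀ j, MvPolynomial.aeval ![x i1, x j] (MvPolynomial.pderiv 1 (P j)) ≠ 0) ∧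
      ∀ c, {n | eps n (x i1) = c}.Finite := by
  obtain ⟨i1, hi1⟩ := curve_fib hd x eps hfib
  choose P hc h0 h1 using fun j => ccurve_sep (algebraicClosure K0 K) hd (x i1) (x j) eps hi1
    (fun n => mem_algebraicClosure_iff.2 (halg n i1)) fun n => mem_algebraicClosure_iff.2 (halg n j)
  have hfin : (⋃ j, ((P j).coeffs : Set K)).Finite :=
    Set.finite_iUnion fun j => Finset.finite_toSet _
  refine ⟨i1, IntermediateField.adjoin K0 (⋃ j, ((P j).coeffs : Set K)), P, ?_, ?_, h0, h1, hi1⟩
  · have := hfin.to_subtype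
    refine IntermediateField.finiteDimensional_adjoin fun z hz => ?_
    obtain ⟨j, hj⟩ := Set.mem_iUnion.1 hz
    obtain ⟨m, -, rfl⟩ := MvPolynomial.mem_coeffs_iff.1 hj
    exact (mem_algebraicClosure_iff.1 (hc j m)).isIntegral
  · intro j m
    by_cases h : (P j).coeff m = 0
    · rw [h]
      exact zero_mem _
    · exact IntermediateField.subset_adjoin _ _
        (Set.mem_iUnion.2 ⟨j, MvPolynomial.coeff_mem_coeffs m h⟩)

/-- An injective sequence has finite fibres. -/
theorem fib_of_injective {α : Type*} {f : ℕ → α} (h : Function.Injective f) (c : α) :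
    {n | f n = c}.Finite :=
  Set.Finite.preimage h.injOn (Set.finite_singleton c)

end Pool.Agent.E7
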