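import Pool.Agent.Lib.MP_7e5527_ag.E7.Hol
import Pool.Agent.Lib.MP_7e5527_ag.E7.An

/-! Holomorphic functions along the arc. -/

open Filter Topology

noncomputable section

namespace Pool.Agent.E7

variable {h : ℂ → Ix → ℂ}

theorem cx_mem (hA : Arc h) : ∀ᶠ t in 𝓝 (0 : ℂ), h t ∈ HH :=
  hA.an.continuousAt.preimage_mem_nhds (isOpen_HH.mem_nhds hA.mem)

theorem cx_poly (hA : Arc h) (P : MvPolynomial Ix ℂ) (h0 : Van (MvPolynomial.aeval yF P) h) :
    P = 0 := by
  obtain ⟨P', h1, h2⟩ := exists_poly_yc P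
  refine h2 (hA.dense P' ?_)
  filter_upwards [cx_mem hA, h0] with t h3 h4
  rw [aeval_apply, ofC_eq h3] at h4
  exact (h1 _).trans h4

/-- `analyticAt_iff_eventually_differentiableAt`. -/
theorem Arc.analytic (hA : Arc h) {F : Fn} (hF : IsHol F) :
    AnalyticAt ℂ (fun t => F (ofC (h t))) 0 := by
  refine Complex.analyticAt_iff_eventually_differentiableAt.2 ?_
  filter_upwards [cx_mem hA, hA.an.eventually_analyticAt] with t h1 h2
  exact (hF.differentiableAt h1).comp t h2.differentiableAt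

/-- The germ of a holomorphic function along the arc. -/
def tau (hA : Arc h) : Hol →+* An where
  toFun F := ⟨((fun t => F.1 (ofC (h t)) : ℂ → ℂ) : Germ (𝓝 (0 : ℂ)) ℂ), _, hA.analytic F.2, rfl⟩
  map_one' := rfl
  map_mul' _ _ := rfl
  map_zero' := rfl
  map_add' _ _ := rfl

theorem tau_eq_zero (hA : Arc h) (F : Hol) : tau hA F = 0 ↔ Van F h := by
  exact Subtype.ext_iff.trans Germ.coe_eq
theorem tau_const (hA : Arc h) (c : ℂ) : tau hA (algebraMap ℂ Hol c) = An.cst c := rfl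

theorem van_mul (hA : Arc h) {F G : Fn} (hF : IsHol F) (hG : IsHol G) (h0 : Van (F * G) h) :
    Van F h ∨ Van G h := by
  exact an_mul_zero (hA.analytic hF) (hA.analytic hG) h0
theorem van_pow (hA : Arc h) {F : Fn} (hF : IsHol F) {n : ℕ} (h0 : Van (F ^ n) h) : Van F h := by
  exact h0.mono fun _ h1 => pow_eq_zero_iff'.1 h1 |>.1
theorem van_prod (hA : Arc h) {α : Type} (s : Finset α) {F : α → Fn} (hF : ∀ a ∈ s, IsHol (F a))
    (h0 : Van (∏ a ∈ s, F a) h) : ∃ a ∈ s, Van (F a) h := by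
  classical
  induction s using Finset.induction_on with
  | empty => exact absurd h0.exists.choose_spec one_ne_zero
  | insert a s ha ih =>
    rw [Finset.prod_insert ha] at h0
    have h1 : ∀ b ∈ s, IsHol (F b) := fun b hb => hF b (Finset.mem_insert_of_mem hb)
    rcases van_mul hA (hF a (Finset.mem_insert_self a s)) (Hol.prod_mem h1) h0 with h2 | h2
    · exact ⟨a, Finset.mem_insert_self a s, h2⟩
    · obtain ⟨b, hb, h3⟩ := ih h1 h2
      exact ⟨b, Finset.mem_insert_of_mem hb, h3⟩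

/-- The chain rule, with `η i` the germ of `2 π i * yc (deriv h t) i` (`exists_deriv_An`,
`fderiv_ext`). If all `η i` vanish then `tau (yF i)` is constant, against `hA.dense`
(`exists_poly_yc`). -/
theorem exists_chain (hA : Arc h) : ∃ (D : Derivation ℤ An An) (η : Ix → An),
    (∀ F, D (tau hA F) = ∑ i, tau hA (dH i F) * η i) ∧ (∃ l, η l ≠ 0) ∧
      ∀ f g : An, g ≠ 0 → g * D f = f * D g → ∃ c : ℂ, f = An.cst c * g := by
  obtain ⟨D, h1, h2⟩ := exists_deriv_An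
  let e : Ix → ℂ → ℂ := fun i t => 2 * Real.pi * Complex.I * yc (deriv h t) i
  have he : ∀ i, AnalyticAt ℂ (e i) 0 := fun i => analyticAt_const.mul
    (((LinearMap.toContinuousLinearMap ((LinearMap.proj i).comp
      (latJ_ycL : (Ix → ℂ) →ₗ[ℂ] Ix → ℂ))).analyticAt _).comp hA.an.deriv)
  have key : ∀ F, D (tau hA F) = ∑ i, tau hA (dH i F) * ⟨e i, _, he i, rfl⟩ := by
    intro F
    refine Subtype.ext ((h1 (fun t => F.1 (ofC (h t))) (tau hA F) rfl).symm.trans ?_)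
    refine Eq.trans ?_ ((map_sum (Germ.coeRingHom (𝓝 (0 : ℂ)))
      (fun i => (fun t => dl i F.1 (ofC (h t))) * e i) Finset.univ).trans
        (map_sum An.subtype (fun i => tau hA (dH i F) * ⟨e i, _, he i, rfl⟩) Finset.univ).symm)
    refine Germ.coe_eq.2 ?_
    filter_upwards [cx_mem hA, hA.an.eventually_analyticAt] with t h3 h4
    refine ((IsHol.differentiableAt F.2 h3).hasFDerivAt.comp_hasDerivAt t
      h4.differentiableAt.hasDerivAt).deriv.trans ((fderiv_ext F.1 ⟨_, h3⟩ _).trans ?_)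
    rw [Finset.sum_apply, Finset.mul_sum]
    refine Finset.sum_congr rfl fun i _ => ?_
    simp only [e, Pi.mul_apply, ofC_eq h3]
    ring
  refine ⟨D, _, key, ?_, h2⟩
  by_contra hc
  push Not at hc
  obtain ⟨c, h3⟩ := h2 (tau hA ⟨yF (.inl 0), isHol_yF _⟩) 1 one_ne_zero (by
    simp only [key, hc, mul_zero, Finset.sum_const_zero, Derivation.map_one_eq_zero])
  have h4 := cx_poly hA (MvPolynomial.X (.inl 0) - MvPolynomial.C c) (by
    rw [map_sub, MvPolynomial.aeval_X, MvPolynomial.aeval_C]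
    refine (tau_eq_zero hA (⟨yF (.inl 0), isHol_yF _⟩ - algebraMap ℂ Hol c)).1 ?_
    rw [map_sub, h3, tau_const, mul_one, sub_self])
  simpa using congrArg (MvPolynomial.eval fun _ => c + 1) h4

/-- `Wr.rel_of_psi_zero` in `Hol` (`Wr.map_Psi`, `Wr.map_Dk`), then `hA.dense`, `exists_poly_yc`,
`P.indep`. -/
theorem psi_not_van (hA : Arc h) {k : Option Ix → ℤ} {F : Option Ix → Fn} (hF : ∀ a, IsHol (F a))
    (i1 : Ix) (hΦ : ∀ j, j ≠ i1 → Van (F (some j)) h) (hk : k none ≠ 0) (h0 : ¬ Van (F none) h)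
    {n : ℤ} {G : Fn} (hG : IsHol G) (h1 : ¬ Van (Wr.Dk dl k F i1 n G) h) {d : ℕ} (P : PB d) :
    ¬ Van (PsiF k F i1 P) h := by
  intro hz
  obtain ⟨D, η, h2, h3, h4⟩ := exists_chain hA
  have hσ : ∀ (i : Ix) (x : Hol), Hol.val.toRingHom (dH i x) = dl i (Hol.val.toRingHom x) :=
    fun _ _ => rfl
  have key : ∀ (x : Hol) (y : Fn), Hol.val.toRingHom x = y → (tau hA x = 0 ↔ Van y h) :=
    fun x y e => e ▸ tau_eq_zero hA x
  have e1 : tau hA (Wr.Dk (fun i (x : Hol) => dH i x) k (fun a => ⟨F a, hF a⟩) i1 n ⟨G, hG⟩) ≠ 0 :=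
    mt (key _ _ (Wr.map_Dk (dl := fun i (x : Hol) => dH i x) Hol.val.toRingHom hσ k
      (fun a => ⟨F a, hF a⟩) i1 n ⟨G, hG⟩)).1 h1
  obtain ⟨c, a0, h5, h6, h7⟩ := Wr.rel_of_psi_zero (fun i (x : Hol) => dH i x) k
    (fun a => ⟨F a, hF a⟩) i1 D (tau hA) η h2 (fun j hj => (tau_eq_zero hA _).2 (hΦ j hj)) h3
    (mul_ne_zero ((map_intCast An.cst _).symm.trans_ne
      ((map_ne_zero An.cst).2 (Int.cast_ne_zero.2 hk))) fun h5 => h0 ((tau_eq_zero hA _).1 h5))
    ⟨n, _, e1⟩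
    (Wr.wStep k i1 18) (-(d : ℤ)) (fun α => ⟨pF (P.b α), isHol_pF _⟩)
    ((key _ _ (Wr.map_Psi (dl := fun i (x : Hol) => dH i x) Hol.val.toRingHom hσ k
      (fun a => ⟨F a, hF a⟩) i1 (Wr.wStep k i1 18)
      (-(d : ℤ)) fun α => ⟨pF (P.b α), isHol_pF _⟩)).2 hz)
  choose κ hκ using fun a => h4 (c a) (c a0) h5 ((h7 a).trans (mul_comm _ _))
  have h8 : tau hA (∑ a, algebraMap ℂ Hol (κ a) * ⟨pF (P.b a), isHol_pF _⟩) = 0 := by
    refine (mul_eq_zero.1 (Eq.trans ?_ h6)).resolve_left h5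
    rw [map_sum, Finset.mul_sum]
    refine Finset.sum_congr rfl fun a _ => ?_
    rw [map_mul, tau_const, hκ a, ← mul_assoc, mul_comm (c a0)]
  have h9 : ((∑ a, algebraMap ℂ Hol (κ a) * ⟨pF (P.b a), isHol_pF _⟩ : Hol) : Fn) =
      MvPolynomial.aeval yF (∑ a, κ a • MvPolynomial.map (algebraMap ℚ ℂ) (P.b a)) := by
    rw [map_sum, AddSubmonoidClass.coe_finsetSum]
    refine Finset.sum_congr rfl fun a _ => ?_
    rw [map_smul, ← pF_eq, Algebra.smul_def]
    rfl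
  have h10 := P.indep κ (cx_poly hA _ ((key _ _ h9).1 h8))
  exact h5 (by rw [hκ a0, h10, Pi.zero_apply, map_zero, zero_mul])

end Pool.Agent.E7
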