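import Pool.Agent.Lib.MP_7e5527_ag.Base

/-! Definitions for the `p`-adic part: series rings over a cone, evaluation, points. -/

open Filter Topology Polynomial
open scoped Polynomial.Bivariate

noncomputable section

namespace Pool.Agent.E7

variable {ι : Type} [Fintype ι] [DecidableEq ι]

/-- Pairing of an exponent with a valuation vector. -/
def ip (T : ι → ℤ) (y : ι → ℚ) : ℚ := ∑ i, (T i : ℚ) * y i

/-- Pairing of two integer vectors. -/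
def ipZ (T a : ι → ℤ) : ℤ := ∑ i, T i * a i

/-- The monomial `q ^ T` in a field. -/
def mon {K : Type} [Field K] (q : ι → K) (T : ι → ℤ) : K := ∏ i, q i ^ T i

/-- The monomial `u ^ T` in units of a ring. -/
def umon {A : Type} [CommRing A] (u : ι → Aˣ) (T : ι → ℤ) : A := ((∏ i, u i ^ T i : Aˣ) : A)

/-- Exponents `Lp`, open cone `Om` (rational points) and Siegel set `Sg`. -/
structure Cone (ι : Type) [Fintype ι] [DecidableEq ι] where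
  Lp : Set (ι → ℤ)
  Om : Set (ι → ℚ)
  Sg : Set (ι → ℚ)
  zero_mem : 0 ∈ Lp
  add_mem : ∀ T ∈ Lp, ∀ T' ∈ Lp, T + T' ∈ Lp
  single_mem : ∀ i, Pi.single i 1 ∈ Lp
  sub : Sg ⊆ Om
  ne : Om.Nonempty
  fin : ∀ y ∈ Om, ∀ R : ℚ, {T | T ∈ Lp ∧ ip T y ≤ R}.Finite
  pos : ∀ y ∈ Om, ∀ T ∈ Lp, T ≠ 0 → 0 < ip T y
  line : ∀ (U : Ultrafilter ℕ) (y : ℕ → ι → ℚ) (ya yb : ι → ℚ), (∀ n, y n ∈ Sg) →
    (∃ R : ℚ, ∀ n i, y n i ≤ R) → (∀ᶠ n in (U : Filter ℕ), ∃ s : ℚ, y n = ya + s • yb) →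
    ∃ Y1 ∈ Om, ∃ Y2 : ι → ℚ, (∀ T ∈ Lp, 0 ≤ ip T Y2) ∧
      ∀ᶠ n in (U : Filter ℕ), ∃ l m : ℚ, 0 < l ∧ 0 ≤ m ∧ y n = l • Y1 + m • Y2

/-- A ring `Q` of series with exponents in `C.Lp` and coefficients in `ℂ_[p]`. -/
structure SR (p : ℕ) [Fact p.Prime] (C : Cone ι) (Q : Type) [CommRing Q] where
  co : Q →+ ((ι → ℤ) → ℂ_[p])
  supp : ∀ F T, co F T ≠ 0 → T ∈ C.Lp
  co_one : co 1 = Pi.single 0 1
  co_mul : ∀ F G T, co (F * G) T = ∑ᶠ S, co F S * co G (T - S)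
  fg : ∀ F, ∃ s : Finset ℂ_[p], ∀ T, co F T ∈ Submodule.span ℤ (s : Set ℂ_[p])
  cst : ℂ_[p] →+* Q
  co_cst : ∀ c F T, co (cst c * F) T = c * co F T
  del : ι → Q → Q
  co_del : ∀ i F T, co (del i F) T = (T i : ℂ_[p]) * co F T
  th0 : Q
  th : ι → Q
  int0 : ∀ T, ∃ n : ℤ, co th0 T = n
  int : ∀ i T, ∃ n : ℤ, co (th i) T = n
  one0 : co th0 0 = 1
  one : ∀ i, co (th i) (Pi.single i 1) = 1
  dom : ∀ i T, co (th i) T ≠ 0 → T ≠ Pi.single i 1 → ∀ y ∈ C.Sg, y i < ip T y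

/-- `μ` is a multiplicative system of monomials that tends to zero. -/
structure Adm (C : Cone ι) {A : Type} [NormedCommRing A] (μ : (ι → ℤ) → A) : Prop where
  zero : μ 0 = 1
  add : ∀ T ∈ C.Lp, ∀ T' ∈ C.Lp, μ (T + T') = μ T * μ T'
  lim : Tendsto (fun T : C.Lp => μ T) cofinite (𝓝 0)

variable {p : ℕ} [Fact p.Prime] {C : Cone ι} {Q : Type} [CommRing Q]

/-- Value of a series. -/
def SR.ev (S : SR p C Q) {A : Type} [NormedCommRing A] [NormedAlgebra ℂ_[p] A]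
    (μ : (ι → ℤ) → A) (F : Q) : A := ∑' T, S.co F T • μ T

/-- The point `q` has valuation vector `y`. -/
def Pt (p : ℕ) {K : Type} [NormedField K] (q : ι → K) (y : ι → ℚ) : Prop :=
  ∀ i, ‖q i‖ = (p : ℝ) ^ (-(y i : ℝ))

/-- The coordinates `x i = θ i / θ 0`. -/
def SR.xc (S : SR p C Q) {K : Type} [NormedField K] [NormedAlgebra ℂ_[p] K] (q : ι → K) (i : ι) :
    K := S.ev (mon q) (S.th i) / S.ev (mon q) S.th0

/-- A family of small elements that tends to zero. -/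
def Small {A : Type} [NormedCommRing A] (m : (ι → ℤ) → A) : Prop :=
  (∀ T, ‖m T‖ < 1) ∧ Tendsto m cofinite (𝓝 0)

/-- The fixed point equation of the inversion lemma. -/
def Fix {A : Type} [NormedCommRing A] (m0 : (ι → ℤ) → A) (m : ι → (ι → ℤ) → A) (u : ι → Aˣ) :
    Prop :=
  ∀ i, ‖(u i : A) - 1‖ < 1 ∧
    (u i : A) * (1 + ∑' T, m i T * umon u T) = 1 + ∑' T, m0 T * umon u T

/-- Coefficients of the fixed point equation, from the monomials `ν T = x ^ T`. -/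
def SR.m0 (S : SR p C Q) {A : Type} [NormedCommRing A] [NormedAlgebra ℂ_[p] A]
    (ν : (ι → ℤ) → A) (T : ι → ℤ) : A := if T = 0 then 0 else S.co S.th0 T • ν T

/-- Coefficients of the fixed point equation, from the monomials `ν T = x ^ T`. -/
def SR.m1 (S : SR p C Q) {A : Type} [NormedCommRing A] [NormedAlgebra ℂ_[p] A]
    (ν : (ι → ℤ) → A) (i : ι) (T : ι → ℤ) : A :=
  if T = 0 then 0 else S.co (S.th i) (T + Pi.single i 1) • ν T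

/-- Every `c ^ j q` is a conjugate of `q` over `E`. -/
def Good (E : IntermediateField ℚ_[p] ℂ_[p]) (q c : ι → ℂ_[p]) : Prop :=
  ∀ j : ℕ, ∃ σ : ℂ_[p] →+* ℂ_[p], UAP.Iso σ ∧ (∀ a ∈ E, σ a = a) ∧ ∀ i, σ (q i) = c i ^ j * q i

/-- The Wronskian oracle. -/
def Oracle (S : SR p C Q) {κ : Type} (Φ : κ → Q) (ψ : ℕ → Q) : Prop :=
  ∀ (L : Type) [CommRing L] [IsDomain L] [Algebra ℂ_[p] L] (D : Derivation ℂ_[p] L L)
    (ε : Q →+* L) (z : ι → L), (∀ c, ε (S.cst c) = algebraMap ℂ_[p] L c) →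
    (∀ F, D (ε F) = ∑ i, ε (S.del i F) * D (z i)) → (∀ j, ε (Φ j) = 0) → ε S.th0 ≠ 0 →
    (∃ i, D (z i) ≠ 0) → ∀ (d : ℕ) (P : MvPolynomial ι L), P ≠ 0 → P.totalDegree ≤ d →
    (∀ m, D (P.coeff m) = 0) → MvPolynomial.eval z P = 0 → ε (ψ d) = 0

/-- The oracle for `z = a X + lam`, where `X` is a new variable with derivative one. -/
def Oracle' (S : SR p C Q) {κ : Type} (Φ : κ → Q) (ψ : ℕ → Q) : Prop :=
  ∀ (L : Type) [CommRing L] [IsDomain L] [Algebra ℂ_[p] L] (D : Derivation ℂ_[p] L L)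
    (ε : Q →+* L) (a lam : ι → L), (∀ c, ε (S.cst c) = algebraMap ℂ_[p] L c) →
    (∀ i, D (a i) = 0) → (∀ F, D (ε F) = ∑ i, ε (S.del i F) * (a i + D (lam i))) →
    (∀ j, ε (Φ j) = 0) → ε S.th0 ≠ 0 → (∃ i, a i + D (lam i) ≠ 0) →
    ∀ (d : ℕ) (P : MvPolynomial ι L), P ≠ 0 → P.totalDegree ≤ d → (∀ m, D (P.coeff m) = 0) →
    MvPolynomial.aeval (fun i => (Polynomial.C (a i) * X + Polynomial.C (lam i) : L[X])) P = 0 →
    ε (ψ d) = 0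

/-- `Lg` is a logarithm on `ℂ_[p]ˣ`. -/
def IsLog (Lg : ℂ_[p] → ℂ_[p]) : Prop :=
  ∀ x y : ℂ_[p], x ≠ 0 → y ≠ 0 → Lg (x * y) = Lg x + Lg y

/-- The polynomial `P` is invariant under translation in the direction `a`. -/
def InvDir (P : MvPolynomial ι ℂ_[p]) (a : ι → ℚ) : Prop :=
  ∀ (R : Type) [CommRing R] [Algebra ℂ_[p] R] (v : ι → R) (c : R),
    MvPolynomial.aeval (fun i => v i + algebraMap ℂ_[p] R (a i : ℂ_[p]) * c) P =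
      MvPolynomial.aeval v P

/-- An infinite sequence of Hecke points on a curve. -/
structure Data (S : SR p C Q) (κ : Type) where
  q : ℕ → ι → ℂ_[p]
  y : ℕ → ι → ℚ
  Φ : κ → Q
  ψ : ℕ → Q
  i1 : ι
  E : IntermediateField ℚ_[p] ℂ_[p]
  finE : FiniteDimensional ℚ_[p] E
  pt : ∀ n, Pt p (q n) (y n)
  sg : ∀ n, y n ∈ C.Sg
  van : ∀ n j, S.ev (mon (q n)) (Φ j) = 0
  coE : ∀ j T, S.co (Φ j) T ∈ E
  kum : ∀ n, ∃ m : ℕ, 0 < m ∧ ∀ i, q n i ^ m ∈ E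
  rel : ∀ i j, ∃ P : ℂ_[p][X][Y], P ≠ 0 ∧ ∀ n, P.evalEval (S.xc (q n) i) (S.xc (q n) j) = 0
  fib : ∀ c, {n | S.xc (q n) i1 = c}.Finite
  dep : ∀ d, ∃ Q0 : ℂ_[p][X], Q0 ≠ 0 ∧ ∃ B : ℝ, ∀ n,
    ‖Q0.eval (S.xc (q n) i1)‖ ≤ B * ‖S.ev (mon (q n)) (ψ d)‖
  orc : Oracle' S Φ ψ
  lgr : ∀ Lg, IsLog Lg → ∀ (U : Ultrafilter ℕ) (y0 a : ι → ℚ),
    (∀ᶠ n in (U : Filter ℕ), ∃ s : ℚ, y n = y0 + s • a) →
    ∃ P : MvPolynomial ι ℂ_[p], P ≠ 0 ∧ InvDir P a ∧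
      ∀ᶠ n in (U : Filter ℕ), MvPolynomial.eval (fun i => Lg (q n i)) P = 0

/-- Bounded sequences. -/
def Bdd (x : ℕ → ℂ_[p]) : Prop := ∃ B : ℝ, ∀ n, ‖x n‖ ≤ B

/-- An ultralimit of `ℂ_[p]` along `U`. -/
structure ULim (p : ℕ) [Fact p.Prime] (U : Ultrafilter ℕ) (K : Type) [NormedField K]
    [NormedAlgebra ℂ_[p] K] where
  lim : (ℕ → ℂ_[p]) → K
  norm : ∀ x, Bdd x → Tendsto (fun n => ‖x n‖) U (𝓝 ‖lim x‖)
  add : ∀ x y, Bdd x → Bdd y → lim (fun n => x n + y n) = lim x + lim y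
  mul : ∀ x y, Bdd x → Bdd y → lim (fun n => x n * y n) = lim x * lim y
  const : ∀ c, lim (fun _ => c) = algebraMap ℂ_[p] K c
  aut : ∀ φ : ℕ → ℂ_[p] →+* ℂ_[p], (∀ n, UAP.Iso (φ n)) →
    ∃ Φ : K →+* K, (∀ z, ‖Φ z‖ = ‖z‖) ∧ ∀ x, Bdd x → Φ (lim x) = lim fun n => φ n (x n)

/-- Bounded power series: variable `t`, derivative `dt`, values `ev s` on the open unit disc. -/
structure BS (p : ℕ) [Fact p.Prime] (A : Type) [NormedCommRing A] [NormedAlgebra ℂ_[p] A] where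
  t : A
  dt : Derivation ℂ_[p] A A
  ev : ℂ_[p] → A →ₐ[ℂ_[p]] ℂ_[p]
  norm_t : ‖t‖ ≤ 1
  dt_t : dt t = 1
  dt_cont : Continuous dt
  ev_t : ∀ s, ‖s‖ < 1 → ev s t = s
  ev_le : ∀ s f, ‖ev s f‖ ≤ ‖f‖
  zero : ∀ (f : A) (U : Ultrafilter ℕ) (s : ℕ → ℂ_[p]), Tendsto s U (𝓝 0) →
    (∀ᶠ n in (U : Filter ℕ), s n ≠ 0 ∧ ev (s n) f = 0) → f = 0
  const : ∀ f, dt f = 0 → ∀ s, ev s f = ev 0 f
  ser : ∀ (g : PowerSeries ℂ_[p]) (B : ℝ), (∀ k, ‖PowerSeries.coeff k g‖ ≤ B) →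
    ∃ f : A, ‖f‖ ≤ B ∧ ∀ s, ‖s‖ < 1 → UAP.HasEv g s (ev s f)

/-- The points `x n` lie on the arc `cc t ^ a g(t)`, at parameters `t n` that tend to zero. -/
structure PArc {A : Type} [NormedCommRing A] [NormedAlgebra ℂ_[p] A] (B : BS p A)
    (U : Ultrafilter ℕ) (x : ℕ → ι → ℂ_[p]) (n0 : ℕ) (t : ℕ → ℂ_[p]) (cc : ι → ℂ_[p]) (a : ι → ℤ)
    (g : ι → Aˣ) : Prop where
  one : ∀ i, ‖(g i : A) - 1‖ < 1
  norm : ∀ i, ‖cc i‖ = ‖x n0 i‖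
  lim : Tendsto t U (𝓝 0)
  eq : ∀ᶠ n in (U : Filter ℕ), t n ≠ 0 ∧ ‖t n‖ < 1 ∧
    ∀ i, x n i = cc i * t n ^ a i * B.ev (t n) (g i)

/-- The monomial `T` on the arc. -/
def BS.mon {A : Type} [NormedCommRing A] [NormedAlgebra ℂ_[p] A] (B : BS p A) (cc : ι → ℂ_[p])
    (a : ι → ℤ) (g : ι → Aˣ) (T : ι → ℤ) : A :=
  E7.mon cc T • (B.t ^ (ipZ T a).toNat * umon g T)

end Pool.Agent.E7
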