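import Pool.Agent.Lib.MP_7e5527_ag.E7.Sieg
import Pool.Agent.Lib.MP_7e5527_ag.E7.PDefs

/-! The cone of the exceptional domain in the coordinates of the lattice basis. -/

open Filter

noncomputable section

namespace Pool.Agent.E7

theorem ip_vec (m : Ix → ℤ) (y : Ix → ℚ) : ip m y = tr (vec m) (pt y) := by
  rw [ip, ← tr_vec_pt, toR_rat]

theorem ip_yc (m : Ix → ℤ) (Y : Ix → ℚ) : ip m (yc Y) = tr (vec m) Y := by
  rw [ip_vec, pt_yc]

theorem cast_ip (m : Ix → ℤ) (y : Ix → ℚ) :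
    ((ip m y : ℚ) : ℝ) = tr (toR ℝ (vec m)) (toR ℝ (pt y)) := by
  rw [ip_vec, tr_toR]

/-- Exponents, valuation vectors and the Siegel set. -/
def cone : Cone Ix where
  Lp := {m | Psd (vec m)}
  Om := {y | toR ℝ (pt y) ∈ Om}
  Sg := {y | toR ℝ (pt y) ∈ Sieg}
  zero_mem := by
    rw [Set.mem_ofPred_eq, vec_zero]
    exact Psd.zero
  add_mem T hT T' hT' := by
    rw [Set.mem_ofPred_eq, vec_add]
    exact Psd.add hT hT'
  single_mem i := by
    rw [Set.mem_ofPred_eq, vec_single]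
    exact psd_TT i
  sub y hy := Sieg_sub hy
  ne := ⟨yc one3, by
    rw [Set.mem_ofPred_eq, pt_yc, toR_one3]
    exact one3_mem⟩
  fin y hy R := by
    refine ((finite_psd one_pos hy R).preimage vec_inj.injOn).subset fun m hm => ⟨?_, hm.1, ?_⟩
    · simpa using vec_mem m
    · rw [← cast_ip]
      exact_mod_cast hm.2
  pos y hy T hT h0 := by
    have := Psd.pos hT (fun h => h0 (vec_inj (h.trans vec_zero.symm))) hy
    rw [← cast_ip] at this
    exact_mod_cast this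
  line U y ya yb hS hb hl := by
    obtain ⟨Y1, h1, Y2, h2, h3⟩ := sieg_line U (fun n => pt (y n)) (pt ya) (pt yb) hS
      (by simpa only [yc_pt] using hb)
      (hl.mono fun n ⟨s, hs⟩ => ⟨s, by rw [hs, pt_add, pt_smul]⟩)
    refine ⟨yc Y1, by rwa [Set.mem_ofPred_eq, pt_yc], yc Y2, fun T hT => ?_,
      h3.mono fun n ⟨l, m, hl, hm, e⟩ => ⟨l, m, hl, hm, ?_⟩⟩
    · rw [ip_yc]
      exact h2 _ hT
    · rw [← yc_smul, ← yc_smul, ← yc_add, ← e, yc_pt]

theorem mem_cone_Lp {m : Ix → ℤ} : m ∈ cone.Lp ↔ Psd (vec m) := Iff.rfl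

theorem yc_mem_Om {Y : Ix → ℚ} : yc Y ∈ cone.Om ↔ toR ℝ Y ∈ Om := by
  change toR ℝ (pt (yc Y)) ∈ Om ↔ _
  rw [pt_yc]

theorem yc_mem_Sg {Y : Ix → ℚ} : yc Y ∈ cone.Sg ↔ toR ℝ Y ∈ Sieg := by
  change toR ℝ (pt (yc Y)) ∈ Sieg ↔ _
  rw [pt_yc]

theorem cone_dom {m : Ix → ℤ} (hm : m ∈ cone.Lp) {i : Ix} (hc : Cong (vec m) (TT i))
    (hne : m ≠ Pi.single i 1) {y : Ix → ℚ} (hy : y ∈ cone.Sg) : y i < ip m y := by
  have h := dom (vec_mem m) hm hc (fun h => hne (vec_inj (h.trans (vec_single i).symm))) hy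
  rw [← cast_ip, ← vec_single, ← cast_ip] at h
  have e : ip (Pi.single i 1) y = y i := by simp [ip, Pi.single_apply]
  rw [e] at h
  exact_mod_cast h

end Pool.Agent.E7
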