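import Pool.Agent.Lib.MP_7e5527_ag.E7.PDefs
import Pool.Agent.Lib.MP_7e5527_ag.Ev

/-! Pairings and monomials. -/

open Filter Topology Polynomial
open scoped Polynomial.Bivariate

noncomputable section

namespace Pool.Agent.E7

variable {ι : Type} [Fintype ι] [DecidableEq ι] {p : ℕ} [Fact p.Prime] {C : Cone ι} {Q : Type}
  [CommRing Q]

theorem ip_add (T T' : ι → ℤ) (y : ι → ℚ) : ip (T + T') y = ip T y + ip T' y := by
  simp [ip, add_mul, Finset.sum_add_distrib]

theorem ip_sub (T T' : ι → ℤ) (y : ι → ℚ) : ip (T - T') y = ip T y - ip T' y := by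
  simp [ip, sub_mul, Finset.sum_sub_distrib]

theorem ip_zero (y : ι → ℚ) : ip 0 y = 0 := by simp [ip]

theorem ip_single (i : ι) (y : ι → ℚ) : ip (Pi.single i 1) y = y i := by
  simp [ip, Pi.single_apply]

theorem ipZ_add (T T' a : ι → ℤ) : ipZ (T + T') a = ipZ T a + ipZ T' a := by
  simp [ipZ, add_mul, Finset.sum_add_distrib]

theorem ipZ_sub (T T' a : ι → ℤ) : ipZ (T - T') a = ipZ T a - ipZ T' a := by
  simp [ipZ, sub_mul, Finset.sum_sub_distrib]

theorem ipZ_zero (a : ι → ℤ) : ipZ 0 a = 0 := by simp [ipZ]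

theorem ipZ_single (i : ι) (a : ι → ℤ) : ipZ (Pi.single i 1) a = a i := by
  simp [ipZ, Pi.single_apply]

theorem ipZ_cast (T a : ι → ℤ) : ((ipZ T a : ℤ) : ℚ) = ip T fun i => (a i : ℚ) := by
  simp [ipZ, ip]

theorem Cone.y_pos (C : Cone ι) {y : ι → ℚ} (hy : y ∈ C.Om) (i : ι) : 0 < y i := by
  have := C.pos y hy _ (C.single_mem i) (by simp)
  rwa [ip_single] at this

theorem Cone.ip_nonneg (C : Cone ι) {y : ι → ℚ} (hy : y ∈ C.Om) {T : ι → ℤ} (hT : T ∈ C.Lp) :
    0 ≤ ip T y := by
  by_cases h : T = 0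
  · rw [h, ip_zero]
  · exact (C.pos y hy T hT h).le

section Mon

variable {K : Type} [Field K] {q : ι → K}

theorem mon_zero (q : ι → K) : mon q 0 = 1 := by simp [mon]

theorem mon_single (q : ι → K) (i : ι) : mon q (Pi.single i 1) = q i := by
  rw [mon, Finset.prod_eq_single i] <;> simp +contextual [Pi.single_apply]

theorem mon_add (hq : ∀ i, q i ≠ 0) (T T' : ι → ℤ) : mon q (T + T') = mon q T * mon q T' := by
  simp [mon, zpow_add₀ (hq _), Finset.prod_mul_distrib]

theorem mon_ne_zero (hq : ∀ i, q i ≠ 0) (T : ι → ℤ) : mon q T ≠ 0 :=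
  Finset.prod_ne_zero_iff.2 fun i _ => zpow_ne_zero _ (hq i)

theorem mon_mul (q q' : ι → K) (T : ι → ℤ) :
    mon (fun i => q i * q' i) T = mon q T * mon q' T := by
  simp [mon, mul_zpow, Finset.prod_mul_distrib]

theorem mon_zpow {s : K} (hs : s ≠ 0) (a T : ι → ℤ) :
    mon (fun i => s ^ a i) T = s ^ ipZ T a := by
  have h : ∀ F : Finset ι, ∏ i ∈ F, (s ^ a i) ^ T i = s ^ ∑ i ∈ F, T i * a i := by
    intro F
    induction F using Finset.induction_on with
    | empty => simp
    | insert i F hi ih =>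
      rw [Finset.prod_insert hi, Finset.sum_insert hi, ih, zpow_add₀ hs, ← zpow_mul, mul_comm (a i)]
  exact h _

theorem map_mon {K' : Type} [Field K'] (φ : K →+* K') (q : ι → K) (T : ι → ℤ) :
    φ (mon q T) = mon (fun i => φ (q i)) T := by
  simp [mon]

theorem umon_eq_mon (u : ι → Kˣ) (T : ι → ℤ) : umon u T = mon (fun i => (u i : K)) T := by
  simp [umon, mon]

end Mon

section UMon

variable {A : Type} [CommRing A]

theorem umon_zero (u : ι → Aˣ) : umon u 0 = 1 := by simp [umon]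

theorem umon_add (u : ι → Aˣ) (T T' : ι → ℤ) : umon u (T + T') = umon u T * umon u T' := by
  simp only [umon, Pi.add_apply, zpow_add, Finset.prod_mul_distrib, Units.val_mul]

theorem umon_mul (u v : ι → Aˣ) (T : ι → ℤ) :
    umon (fun i => u i * v i) T = umon u T * umon v T := by
  simp only [umon, mul_zpow, Finset.prod_mul_distrib, Units.val_mul]

theorem map_umon {A' : Type} [CommRing A'] (φ : A →+* A') (u : ι → Aˣ) (T : ι → ℤ) :
    φ (umon u T) = umon (fun i => Units.map (φ : A →* A') (u i)) T := by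
  have : φ (umon u T) = ((Units.map (φ : A →* A') (∏ i, u i ^ T i) : A'ˣ) : A') := rfl
  rw [this, map_prod]
  simp only [map_zpow, umon]

/-- Logarithmic derivative of a monomial in units. -/
theorem der_umon {R : Type} [CommRing R] [Algebra R A] (D : Derivation R A A) (u : ι → Aˣ)
    (ω : ι → A) (h : ∀ i, D (u i : A) = ω i * u i) (T : ι → ℤ) :
    D (umon u T) = (∑ i, (T i : A) * ω i) * umon u T := by
  have h1 : ∀ (v : Aˣ) (w : A), D (v : A) = w * v → ∀ k : ℤ,
      D ((v ^ k : Aˣ) : A) = k * w * (v ^ k : Aˣ) := by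
    intro v w hv k
    have hi : D ((v⁻¹ : Aˣ) : A) = -w * (v⁻¹ : Aˣ) := by
      have h2 := D.leibniz (v : A) ((v⁻¹ : Aˣ) : A)
      rw [Units.mul_inv, D.map_one_eq_zero, hv, smul_eq_mul, smul_eq_mul] at h2
      have h3 : ((v⁻¹ : Aˣ) : A) * v = 1 := Units.inv_mul v
      linear_combination (-((v⁻¹ : Aˣ) : A)) * h2 -
        (D ((v⁻¹ : Aˣ) : A) + w * ((v⁻¹ : Aˣ) : A)) * h3
    induction k using Int.induction_on with
    | zero => simp
    | succ k ih =>
      rw [zpow_add_one, Units.val_mul, D.leibniz, ih, hv, smul_eq_mul, smul_eq_mul]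
      push_cast
      ring
    | pred k ih =>
      rw [zpow_sub_one, Units.val_mul, D.leibniz, ih, hi, smul_eq_mul, smul_eq_mul]
      push_cast
      ring
  have h2 : ∀ F : Finset ι, D ((∏ i ∈ F, u i ^ T i : Aˣ) : A) =
      (∑ i ∈ F, (T i : A) * ω i) * (∏ i ∈ F, u i ^ T i : Aˣ) := by
    intro F
    induction F using Finset.induction_on with
    | empty => simp
    | insert i F hi ih =>
      rw [Finset.prod_insert hi, Finset.sum_insert hi, Units.val_mul, D.leibniz, ih,
        h1 _ _ (h i), smul_eq_mul, smul_eq_mul]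
      ring
  exact h2 _

/-- Logarithmic derivative of a monomial in a field. -/
theorem der_mon {R K : Type} [CommRing R] [Field K] [Algebra R K] (D : Derivation R K K)
    {q : ι → K} (hq : ∀ i, q i ≠ 0) (T : ι → ℤ) :
    D (mon q T) = (∑ i, (T i : K) * (D (q i) / q i)) * mon q T := by
  have := der_umon D (fun i => Units.mk0 (q i) (hq i)) (fun i => D (q i) / q i)
    (fun i => (div_mul_cancel₀ _ (hq i)).symm) T
  rwa [umon_eq_mon] at this

end UMon

section Pt

variable {K : Type} [NormedField K] {q : ι → K} {y : ι → ℚ}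

theorem one_lt_p : (1 : ℝ) < p := by exact_mod_cast (Fact.out : p.Prime).one_lt

theorem Pt.ne_zero (hq : Pt p q y) (i : ι) : q i ≠ 0 := by
  rw [← norm_pos_iff, hq i]
  exact Real.rpow_pos_of_pos (one_pos.trans one_lt_p) _

theorem Pt.norm_mon (hq : Pt p q y) (T : ι → ℤ) :
    ‖mon q T‖ = (p : ℝ) ^ (-((ip T y : ℚ) : ℝ)) := by
  have hp : (0 : ℝ) < p := one_pos.trans one_lt_p
  rw [mon, norm_prod, ip]
  push_cast
  rw [← Finset.sum_neg_distrib, Real.rpow_sum_of_pos hp]
  refine Finset.prod_congr rfl fun i _ => ?_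
  rw [norm_zpow, hq i, ← Real.rpow_intCast, ← Real.rpow_mul hp.le]
  congr 1
  ring

end Pt

end Pool.Agent.E7
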