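import Pool.Agent.Lib.MP_7e5527_ag.E7.PEv
import Pool.Agent.Lib.MP_7e5527_ag.E7.PMon
import Pool.Agent.Lib.MP_7e5527_ag.Gal1

/-! Values of the series at points of a field. -/

open Filter Topology Polynomial
open scoped Polynomial.Bivariate

noncomputable section

namespace Pool.Agent.E7

variable {ι : Type} [Fintype ι] [DecidableEq ι] {p : ℕ} [Fact p.Prime] {C : Cone ι} {Q : Type}
  [CommRing Q]

variable {K : Type} [NormedField K] [NormedAlgebra ℂ_[p] K] [CompleteSpace K]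
  [IsUltrametricDist K]

variable {q : ι → K} {y : ι → ℚ}

/-- A family bounded by `p ^ (-(T, y))` tends to zero on `C.Lp`. -/
theorem Cone.tendsto_zero (C : Cone ι) {G : Type} [NormedAddCommGroup G] {ν : (ι → ℤ) → G}
    (hy : y ∈ C.Om) (h : ∀ T ∈ C.Lp, ‖ν T‖ ≤ (p : ℝ) ^ (-((ip T y : ℚ) : ℝ))) :
    Tendsto (fun T : C.Lp => ν T) cofinite (𝓝 0) := by
  have hp : (1 : ℝ) < p := one_lt_p
  rw [NormedAddGroup.tendsto_nhds_zero]
  intro ε hε
  obtain ⟨N, hN⟩ := exists_pow_lt_of_lt_one hε (inv_lt_one_of_one_lt₀ hp)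
  rw [Filter.eventually_cofinite]
  refine ((C.fin y hy (N : ℚ)).preimage Subtype.val_injective.injOn).subset fun T hT => ?_
  refine ⟨T.2, ?_⟩
  by_contra hc
  apply hT
  refine (h T T.2).trans_lt (lt_of_le_of_lt ?_ hN)
  rw [inv_pow, ← Real.rpow_natCast, ← Real.rpow_neg (zero_le_one.trans hp.le)]
  refine Real.rpow_le_rpow_of_exponent_le hp.le (neg_le_neg ?_)
  exact_mod_cast (not_le.1 hc).le

theorem Pt.adm {K : Type} [NormedField K] {q : ι → K} (hq : Pt p q y) (hy : y ∈ C.Om) :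
    Adm C (mon q) := by
  refine ⟨mon_zero q, fun T _ T' _ => mon_add hq.ne_zero T T', ?_⟩
  exact C.tendsto_zero (p := p) hy fun T _ => (hq.norm_mon T).le

theorem ppt_norm_eq {a b : K} (h : ‖a - b‖ < ‖b‖) : ‖a‖ = ‖b‖ := by
  have h1 := IsUltrametricDist.norm_add_eq_max_of_norm_ne_norm h.ne
  rwa [sub_add_cancel, max_eq_right h.le] at h1

theorem ppt_term (hq : Pt p q y) {c : ℂ_[p]} (hc : ‖c‖ ≤ 1) {T : ι → ℤ} {i : ι}
    (h : c ≠ 0 → y i < ip T y) : ‖c • mon q T‖ < ‖q i‖ := by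
  by_cases h0 : c = 0
  · rw [h0, zero_smul, norm_zero]
    exact norm_pos_iff.2 (hq.ne_zero i)
  · rw [norm_smul]
    refine (mul_le_of_le_one_left (norm_nonneg _) hc).trans_lt ?_
    rw [hq.norm_mon, hq i]
    refine Real.rpow_lt_rpow_of_exponent_lt one_lt_p (neg_lt_neg ?_)
    exact_mod_cast h h0

theorem ppt_term0 (hq : Pt p q y) (hy : y ∈ C.Om) {c : ℂ_[p]} (hc : ‖c‖ ≤ 1) {T : ι → ℤ}
    (h : c ≠ 0 → T ∈ C.Lp) (hT : T ≠ 0) : ‖c • mon q T‖ < 1 := by
  by_cases h0 : c = 0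
  · rw [h0, zero_smul, norm_zero]
    exact one_pos
  · rw [norm_smul]
    refine (mul_le_of_le_one_left (norm_nonneg _) hc).trans_lt ?_
    rw [hq.norm_mon]
    refine Real.rpow_lt_one_of_one_lt_of_neg one_lt_p (neg_neg_of_pos ?_)
    exact_mod_cast C.pos y hy T (h h0) hT

namespace SR

variable (S : SR p C Q)

theorem ppt_sub {μ : (ι → ℤ) → K} (hμ : Adm C μ) (F : Q) (T0 : ι → ℤ) {r : ℝ} (hr : 0 < r)
    (h : ∀ T, T ≠ T0 → ‖S.co F T • μ T‖ < r) : ‖S.ev μ F - S.co F T0 • μ T0‖ < r := by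
  classical
  have h1 := (S.hasSum_ev hμ F).summable.tsum_eq_add_tsum_ite T0
  rw [ev, h1, add_sub_cancel_left]
  refine norm_tsum_lt ((S.tendsto_term hμ F).congr' ?_) hr fun T => ?_
  · filter_upwards [Filter.eventually_cofinite_ne T0] with T hT
    rw [if_neg hT]
  · split_ifs with hT
    · rwa [norm_zero]
    · exact h T hT

theorem ppt_co_del (l : ι) {F : Q} {T : ι → ℤ} (h : ‖S.co F T‖ ≤ 1) :
    ‖S.co (S.del l F) T‖ ≤ 1 := by
  rw [S.co_del, norm_mul]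
  exact mul_le_one₀ (IsUltrametricDist.norm_intCast_le_one ℂ_[p] _) (norm_nonneg _) h

theorem norm_co_th0 (T : ι → ℤ) : ‖S.co S.th0 T‖ ≤ 1 := by
  obtain ⟨n, hn⟩ := S.int0 T
  rw [hn]
  exact IsUltrametricDist.norm_intCast_le_one ℂ_[p] n

theorem norm_co_th (i : ι) (T : ι → ℤ) : ‖S.co (S.th i) T‖ ≤ 1 := by
  obtain ⟨n, hn⟩ := S.int i T
  rw [hn]
  exact IsUltrametricDist.norm_intCast_le_one ℂ_[p] n

theorem norm_ev_bound (F : Q) : ∃ B : ℝ, ∀ (q : ι → K) (y : ι → ℚ), Pt p q y → y ∈ C.Om →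
    ‖S.ev (mon q) F‖ ≤ B := by
  obtain ⟨B, hB, h⟩ := S.bdd F
  refine ⟨B, fun q y hq hy => S.norm_ev_le hB fun T => ?_⟩
  by_cases h0 : S.co F T = 0
  · rw [h0, zero_smul, norm_zero]
    exact hB
  · rw [norm_smul, hq.norm_mon]
    refine (mul_le_of_le_one_right (norm_nonneg _) ?_).trans (h T)
    refine Real.rpow_le_one_of_one_le_of_nonpos (one_lt_p (p := p)).le (neg_nonpos.2 ?_)
    exact_mod_cast C.ip_nonneg hy (S.supp F T h0)

theorem norm_ev_th0_sub (hq : Pt p q y) (hy : y ∈ C.Om) : ‖S.ev (mon q) S.th0 - 1‖ < 1 := by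
  have h := S.ppt_sub (hq.adm hy) S.th0 0 one_pos fun T hT =>
    ppt_term0 hq hy (S.norm_co_th0 T) (S.supp _ T) hT
  rwa [S.one0, mon_zero, one_smul] at h

theorem norm_ev_th0 (hq : Pt p q y) (hy : y ∈ C.Om) : ‖S.ev (mon q) S.th0‖ = 1 := by
  have h := S.norm_ev_th0_sub hq hy
  rw [ppt_norm_eq (b := 1) (by rwa [norm_one]), norm_one]

theorem norm_ev_th_sub (hq : Pt p q y) (hy : y ∈ C.Sg) (i : ι) :
    ‖S.ev (mon q) (S.th i) - q i‖ < ‖q i‖ := by
  have h := S.ppt_sub (hq.adm (C.sub hy)) (S.th i) (Pi.single i 1)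
    (norm_pos_iff.2 (hq.ne_zero i)) fun T hT =>
      ppt_term hq (S.norm_co_th i T) fun h0 => S.dom i T h0 hT y hy
  rwa [S.one, mon_single, one_smul] at h

theorem norm_ev_th (hq : Pt p q y) (hy : y ∈ C.Sg) (i : ι) :
    ‖S.ev (mon q) (S.th i)‖ = ‖q i‖ := by
  exact ppt_norm_eq (S.norm_ev_th_sub hq hy i)

theorem norm_ev_del_th0 (hq : Pt p q y) (hy : y ∈ C.Om) (l : ι) :
    ‖S.ev (mon q) (S.del l S.th0)‖ < 1 := by
  have h := S.ppt_sub (hq.adm hy) (S.del l S.th0) 0 one_pos fun T hT =>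
    ppt_term0 hq hy (S.ppt_co_del l (S.norm_co_th0 T)) (S.supp _ T) hT
  rwa [S.co_del, Pi.zero_apply, Int.cast_zero, zero_mul, zero_smul, sub_zero] at h

theorem norm_ev_del_th (hq : Pt p q y) (hy : y ∈ C.Sg) (l i : ι) :
    ‖S.ev (mon q) (S.del l (S.th i)) - (if l = i then q i else 0)‖ < ‖q i‖ := by
  have h := S.ppt_sub (hq.adm (C.sub hy)) (S.del l (S.th i)) (Pi.single i 1)
    (norm_pos_iff.2 (hq.ne_zero i)) fun T hT =>
      ppt_term hq (S.ppt_co_del l (S.norm_co_th i T)) fun h0 =>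
        S.dom i T (fun h1 => h0 (by rw [S.co_del, h1, mul_zero])) hT y hy
  rw [S.co_del, S.one, mul_one, mon_single] at h
  by_cases hl : l = i
  · subst hl
    rw [Pi.single_eq_same, Int.cast_one, one_smul] at h
    rwa [if_pos rfl]
  · rw [Pi.single_eq_of_ne hl, Int.cast_zero, zero_smul] at h
    rwa [if_neg hl]

theorem pt_xc (hq : Pt p q y) (hy : y ∈ C.Sg) : Pt p (S.xc q) y := by
  intro i
  rw [xc, norm_div, S.norm_ev_th hq hy, S.norm_ev_th0 hq (C.sub hy), div_one, hq i]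

/-- The series `th0`, `th i` have integer coefficients. -/
theorem map_xc (hq : Pt p q y) (hy : y ∈ C.Om) {K' : Type} [NormedField K']
    [NormedAlgebra ℂ_[p] K'] (φ : K →+* K') (hφ : Continuous φ) (i : ι) :
    φ (S.xc q i) = S.xc (fun i => φ (q i)) i := by
  have hm : (fun T => φ (mon q T)) = mon fun i => φ (q i) := funext fun T => map_mon φ q T
  have h : ∀ F : Q, (∀ T, ∃ n : ℤ, S.co F T = n) →
      φ (S.ev (mon q) F) = S.ev (mon fun i => φ (q i)) F := by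
    intro F hF
    rw [← hm]
    refine S.ev_map (hq.adm hy) φ hφ F fun T => ?_
    obtain ⟨n, hn⟩ := hF T
    rw [hn, map_intCast, map_intCast, map_intCast]
  rw [xc, xc, map_div₀, h _ (S.int i), h _ S.int0]

/-- The field generated by the `q i` is closed (`UAP.isClosed_field`). -/
theorem xc_alg {q : ι → ℂ_[p]} (hq : Pt p q y) (hy : y ∈ C.Om)
    (h : ∀ i, IsAlgebraic ℚ_[p] (q i)) (i : ι) : IsAlgebraic ℚ_[p] (S.xc q i) := by
  let E : IntermediateField ℚ_[p] ℂ_[p] := IntermediateField.adjoin ℚ_[p] (Set.range q)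
  have hE : FiniteDimensional ℚ_[p] E :=
    IntermediateField.finiteDimensional_adjoin fun x hx => by
      obtain ⟨j, rfl⟩ := hx
      exact (h j).isIntegral
  have hm : ∀ T, mon q T ∈ E := fun T =>
    prod_mem fun j _ => zpow_mem (IntermediateField.subset_adjoin _ _ (Set.mem_range_self j)) _
  have h1 : ∀ F : Q, (∀ T, ∃ n : ℤ, S.co F T = n) → S.ev (mon q) F ∈ E := by
    intro F hF
    refine S.ev_mem (hq.adm hy) E.toSubfield.toAddSubgroup (UAP.isClosed_field E) fun T => ?_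
    obtain ⟨n, hn⟩ := hF T
    rw [hn, smul_eq_mul]
    exact E.mul_mem (intCast_mem E n) (hm T)
  have h2 : S.xc q i ∈ E := div_mem (h1 _ (S.int i)) (h1 _ S.int0)
  exact ((Algebra.IsIntegral.isIntegral (R := ℚ_[p]) (⟨_, h2⟩ : E)).map E.val).isAlgebraic

end SR

end Pool.Agent.E7
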