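import Pool.Agent.Lib.MP_7e5527_ag.E7.PInv
import Pool.Agent.Lib.MP_7e5527_ag.E7.PPt

/-! The point is determined by its coordinates. -/

open Filter Topology Polynomial
open scoped Polynomial.Bivariate

noncomputable section

namespace Pool.Agent.E7

variable {ι : Type} [Fintype ι] [DecidableEq ι] {p : ℕ} [Fact p.Prime] {C : Cone ι} {Q : Type}
  [CommRing Q]

variable (S : SR p C Q)

section Ring

variable {A : Type} [NormedCommRing A] [NormedAlgebra ℂ_[p] A] {ν : (ι → ℤ) → A} {y : ι → ℚ}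

theorem pfix_small {f : (ι → ℤ) → A} (a : ι → ℤ) (hy : y ∈ C.Om)
    (h : ∀ T, f T ≠ 0 → T + a ∈ C.Lp ∧ 0 < ip T y ∧ ‖f T‖ ≤ (p : ℝ) ^ (-((ip T y : ℚ) : ℝ))) :
    Small f := by
  have hp : (1 : ℝ) < p := one_lt_p
  refine ⟨fun T => ?_, ?_⟩
  · by_cases h0 : f T = 0
    · rw [h0, norm_zero]
      exact one_pos
    · obtain ⟨-, h1, h2⟩ := h T h0
      refine h2.trans_lt (Real.rpow_lt_one_of_one_lt_of_neg hp ?_)
      have : (0 : ℝ) < ((ip T y : ℚ) : ℝ) := by exact_mod_cast h1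
      linarith
  · rw [NormedAddGroup.tendsto_nhds_zero]
    intro ε hε
    obtain ⟨n, hn⟩ := exists_pow_lt_of_lt_one hε (inv_lt_one_of_one_lt₀ hp)
    have hf := (C.fin y hy (n + ip a y)).preimage (f := fun T => T + a)
      (add_left_injective a).injOn
    refine Filter.mem_of_superset hf.compl_mem_cofinite fun T hT => ?_
    by_cases h0 : f T = 0
    · show ‖f T‖ < ε
      rwa [h0, norm_zero]
    · obtain ⟨h1, -, h2⟩ := h T h0
      have h3 : ¬ ip (T + a) y ≤ n + ip a y := fun h3 => hT ⟨h1, h3⟩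
      rw [ip_add] at h3
      have h4 : (n : ℚ) ≤ ip T y := by linarith
      have h5 : (n : ℝ) ≤ ((ip T y : ℚ) : ℝ) := by exact_mod_cast h4
      refine h2.trans_lt (lt_of_le_of_lt ?_ hn)
      rw [inv_pow, ← Real.rpow_natCast, ← Real.rpow_neg (zero_le_one.trans hp.le)]
      exact Real.rpow_le_rpow_of_exponent_le hp.le (neg_le_neg h5)

theorem pfix_smul {c : ℂ_[p]} (hc : ‖c‖ ≤ 1) (x : A) : ‖c • x‖ ≤ ‖x‖ :=
  (norm_smul_le c x).trans (mul_le_of_le_one_left (norm_nonneg _) hc)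

theorem pfix_pos0 {T : ι → ℤ} (h0 : T ≠ 0) (h1 : S.co S.th0 T ≠ 0) (hy : y ∈ C.Sg) :
    0 < ip T y := C.pos y (C.sub hy) T (S.supp _ _ h1) h0

theorem pfix_pos1 {i : ι} {T : ι → ℤ} (h0 : T ≠ 0) (h1 : S.co (S.th i) (T + Pi.single i 1) ≠ 0)
    (hy : y ∈ C.Sg) : 0 < ip T y := by
  have := S.dom i _ h1 (by simpa using h0) y hy
  rw [ip_add, ip_single] at this
  linarith

theorem SR.small_m0 (hy : y ∈ C.Sg) (h : ∀ T, ‖ν T‖ ≤ (p : ℝ) ^ (-((ip T y : ℚ) : ℝ))) :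
    Small (S.m0 ν) := by
  refine pfix_small (p := p) 0 (C.sub hy) fun T hT => ?_
  by_cases h0 : T = 0
  · exact absurd (if_pos h0) hT
  have e : S.m0 ν T = S.co S.th0 T • ν T := if_neg h0
  rw [e] at hT ⊢
  have h1 : S.co S.th0 T ≠ 0 := fun h1 => hT (by rw [h1, zero_smul])
  exact ⟨by simpa using S.supp _ _ h1, pfix_pos0 S h0 h1 hy,
    (pfix_smul (S.norm_co_th0 T) _).trans (h T)⟩

theorem SR.small_m1 (hy : y ∈ C.Sg) (h : ∀ T, ‖ν T‖ ≤ (p : ℝ) ^ (-((ip T y : ℚ) : ℝ))) (i : ι) :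
    Small (S.m1 ν i) := by
  refine pfix_small (p := p) (Pi.single i 1) (C.sub hy) fun T hT => ?_
  by_cases h0 : T = 0
  · exact absurd (if_pos h0) hT
  have e : S.m1 ν i T = S.co (S.th i) (T + Pi.single i 1) • ν T := if_neg h0
  rw [e] at hT ⊢
  have h1 : S.co (S.th i) (T + Pi.single i 1) ≠ 0 := fun h1 => hT (by rw [h1, zero_smul])
  exact ⟨S.supp _ _ h1, pfix_pos1 S h0 h1 hy, (pfix_smul (S.norm_co_th i _) _).trans (h T)⟩

end Ring

variable {K : Type} [NormedField K] [NormedAlgebra ℂ_[p] K] [CompleteSpace K]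
  [IsUltrametricDist K]

variable {q : ι → K} {y : ι → ℚ}

/-- The units `q i / x i` solve the fixed point equation. -/
theorem SR.fix_pt (hq : Pt p q y) (hy : y ∈ C.Sg) : ∃ u : ι → Kˣ, (∀ i, S.xc q i * u i = q i) ∧
    Fix (S.m0 (mon (S.xc q))) (S.m1 (mon (S.xc q))) u := by
  have hx : ∀ i, S.xc q i ≠ 0 := (S.pt_xc hq hy).ne_zero
  have hq0 : ∀ i, q i ≠ 0 := hq.ne_zero
  have hadm : Adm C (mon q) := hq.adm (C.sub hy)
  have h0 : S.ev (mon q) S.th0 ≠ 0 := by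
    rw [← norm_ne_zero_iff, S.norm_ev_th0 hq (C.sub hy)]
    exact one_ne_zero
  let u : ι → Kˣ := fun i => Units.mk0 (q i / S.xc q i) (div_ne_zero (hq0 i) (hx i))
  have hu : ∀ i, S.xc q i * u i = q i := fun i => mul_div_cancel₀ _ (hx i)
  have hm : ∀ T, mon (S.xc q) T * umon u T = mon q T := fun T => by
    rw [umon_eq_mon, ← mon_mul]
    exact congrArg (fun z => mon z T) (funext hu)
  have e0 : 1 + ∑' T, S.m0 (mon (S.xc q)) T * umon u T = S.ev (mon q) S.th0 := by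
    have hs := S.hasSum_ev hadm S.th0
    rw [← hs.tsum_eq, hs.summable.tsum_eq_add_tsum_ite 0, S.one0, mon_zero, one_smul]
    congr 1
    refine tsum_congr fun T => ?_
    by_cases h : T = 0
    · simp [SR.m0, h]
    · simp [SR.m0, h, hm]
  have e1 : ∀ i, q i * (1 + ∑' T, S.m1 (mon (S.xc q)) i T * umon u T) =
      S.ev (mon q) (S.th i) := fun i => by
    have hs := (Equiv.addRight (Pi.single i 1 : ι → ℤ)).hasSum_iff.2 (S.hasSum_ev hadm (S.th i))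
    rw [← hs.tsum_eq, hs.summable.tsum_eq_add_tsum_ite 0, mul_add, ← tsum_mul_left]
    congr 1
    · simp [S.one, mon_single]
    refine tsum_congr fun T => ?_
    by_cases h : T = 0
    · simp [SR.m1, h]
    · simp [SR.m1, h, hm, mon_add hq0, mon_single, mul_comm]
  refine ⟨u, hu, fun i => ⟨?_, ?_⟩⟩
  · have hqp : 0 < ‖q i‖ := norm_pos_iff.2 (hq0 i)
    have h1 : S.ev (mon q) (S.th i) ≠ 0 := by
      rw [← norm_ne_zero_iff, S.norm_ev_th hq hy]
      exact hqp.ne'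
    have h2 : (u i : K) - 1 = (q i * (S.ev (mon q) S.th0 - 1) +
        -(S.ev (mon q) (S.th i) - q i)) / S.ev (mon q) (S.th i) := by
      show q i / (S.ev (mon q) (S.th i) / S.ev (mon q) S.th0) - 1 = _
      field_simp
      ring
    rw [h2, norm_div, S.norm_ev_th hq hy, div_lt_one hqp]
    refine (IsUltrametricDist.norm_add_le_max _ _).trans_lt (max_lt ?_ ?_)
    · rw [norm_mul]
      exact mul_lt_of_lt_one_right hqp (S.norm_ev_th0_sub hq (C.sub hy))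
    · rw [norm_neg]
      exact S.norm_ev_th_sub hq hy i
  · rw [e0]
    refine mul_left_cancel₀ (hx i) ?_
    rw [← mul_assoc, hu, e1]
    exact (div_mul_cancel₀ _ h0).symm

theorem SR.xc_inj {q' : ι → K} {y' : ι → ℚ} (hq : Pt p q y) (hy : y ∈ C.Sg) (hq' : Pt p q' y')
    (hy' : y' ∈ C.Sg) (h : S.xc q = S.xc q') : q = q' := by
  obtain ⟨u, hu, hf⟩ := S.fix_pt hq hy
  obtain ⟨u', hu', hf'⟩ := S.fix_pt hq' hy'
  rw [← h] at hu' hf'
  have hn : ∀ T, ‖mon (S.xc q) T‖ ≤ (p : ℝ) ^ (-((ip T y : ℚ) : ℝ)) := fun T =>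
    ((S.pt_xc hq hy).norm_mon T).le
  have e := Fix.unique (S.small_m0 hy hn) (S.small_m1 hy hn) hf hf'
  funext i
  rw [← hu i, ← hu' i, e]

/-- A solution in a ring `A` specialises to the solution at a point. Only exponents `T` with
`0 < ip T y` on the whole Siegel set occur in `m0`, `m1`. -/
theorem SR.fix_eval {A : Type} [NormedCommRing A] [NormOneClass A] [NormedAlgebra ℂ_[p] A]
    [CompleteSpace A] [IsUltrametricDist A] {ν : (ι → ℤ) → A} {y0 : ι → ℚ} (hy0 : y0 ∈ C.Sg)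
    (hν : ∀ T, ‖ν T‖ ≤ (p : ℝ) ^ (-((ip T y0 : ℚ) : ℝ))) {u : ι → Aˣ}
    (hu : Fix (S.m0 ν) (S.m1 ν) u) (φ : A →ₐ[ℂ_[p]] K) (hφ : ∀ a, ‖φ a‖ ≤ ‖a‖) (hq : Pt p q y)
    (hy : y ∈ C.Sg) (h : ∀ T, (∀ y' ∈ C.Sg, 0 < ip T y') → φ (ν T) = mon (S.xc q) T) (i : ι) :
    S.xc q i * φ (u i) = q i := by
  obtain ⟨v, hv, hf⟩ := S.fix_pt hq hy
  have hn : ∀ T, ‖mon (S.xc q) T‖ ≤ (p : ℝ) ^ (-((ip T y : ℚ) : ℝ)) := fun T =>
    ((S.pt_xc hq hy).norm_mon T).le
  have hm := Fix.map (S.small_m0 hy0 hν) (S.small_m1 hy0 hν) hu (φ : A →+* K) hφ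
  have e0 : (fun T => (φ : A →+* K) (S.m0 ν T)) = S.m0 (mon (S.xc q)) := by
    funext T
    show φ (S.m0 ν T) = _
    by_cases h0 : T = 0
    · simp [SR.m0, h0]
    by_cases h1 : S.co S.th0 T = 0
    · simp [SR.m0, h1]
    · simp [SR.m0, h0, h T fun _ hy' => pfix_pos0 S h0 h1 hy']
  have e1 : (fun i T => (φ : A →+* K) (S.m1 ν i T)) = S.m1 (mon (S.xc q)) := by
    funext i T
    show φ (S.m1 ν i T) = _
    by_cases h0 : T = 0
    · simp [SR.m1, h0]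
    by_cases h1 : S.co (S.th i) (T + Pi.single i 1) = 0
    · simp [SR.m1, h1]
    · simp [SR.m1, h0, h T fun _ hy' => pfix_pos1 S h0 h1 hy']
  rw [e0, e1] at hm
  have e := Fix.unique (S.small_m0 hy hn) (S.small_m1 hy hn) hf hm
  rw [← hv i, e]
  rfl

theorem SR.mem_of_xc_mem (M : IntermediateField ℂ_[p] K) (hM : IsClosed (M : Set K))
    (hq : Pt p q y) (hy : y ∈ C.Sg) (hx : ∀ i, S.xc q i ∈ M) (i : ι) : q i ∈ M := by
  have : CompleteSpace M := hM.completeSpace_coe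
  let x : ι → M := fun i => ⟨S.xc q i, hx i⟩
  have hm : ∀ T, M.val (mon x T) = mon (S.xc q) T := fun T => map_mon (M.val : M →+* K) x T
  have hn : ∀ T, ‖mon x T‖ ≤ (p : ℝ) ^ (-((ip T y : ℚ) : ℝ)) := fun T => by
    rw [← (S.pt_xc hq hy).norm_mon T, ← hm]
    rfl
  obtain ⟨u, hu⟩ := exists_fix (S.small_m0 hy hn) (S.small_m1 hy hn)
  rw [← S.fix_eval hy hn hu M.val (fun _ => le_rfl) hq hy (fun T _ => hm T) i]
  exact mul_mem (hx i) (u i : M).2

end Pool.Agent.E7
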