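import Pool.Agent.Lib.MP_7e5527_ag.E7.PsiM
import Pool.Agent.Lib.MP_7e5527_ag.E7.ConeI
import Pool.Agent.Lib.MP_7e5527_ag.E7.PFix

/-! The ring of good series as a ring of `p`-adic series. -/

noncomputable section

namespace Pool.Agent.E7

variable {p : ℕ} [Fact p.Prime]

theorem sre1_ne (e : ℂ_[p] ≃+* ℂ) {z : ℂ} (h : e.symm z ≠ 0) : z ≠ 0 := fun h0 =>
  h (by rw [h0, map_zero])

theorem sre1_mul (e : ℂ_[p] ≃+* ℂ) (F G : GZ) (T : Ix → ℤ) :
    e.symm (cf (F * G : GZ) (vec T)) =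
      ∑ᶠ S, e.symm (cf F (vec S)) * e.symm (cf G (vec (T - S))) := by
  have h1 : cf ((F * G : GZ) : Fn) = fun T => ∑ᶠ S, cf F S * cf G (T - S) :=
    (F.2.1.spec.mul G.2.1.spec).cf_eq
  have h2 := finsum_mem_range (f := fun S => cf F S * cf G (vec T - S)) vec_inj
  have h3 : ∑ᶠ S, cf F S * cf G (vec T - S) = ∑ᶠ S ∈ Set.range vec, cf F S * cf G (vec T - S) := by
    rw [finsum_mem_def]
    refine finsum_congr fun S => ?_
    by_cases hS : S ∈ Set.range vec
    · rw [Set.indicator_of_mem hS]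
    · rw [Set.indicator_of_notMem hS]
      by_contra h
      exact hS (range_vec ▸ F.2.2 S (left_ne_zero_of_mul h))
  rw [h1]
  beta_reduce
  rw [h3, h2]
  refine (AddEquiv.map_finsum e.symm.toAddEquiv _).trans (finsum_congr fun S => ?_)
  rw [vec_sub]
  exact map_mul e.symm _ _

theorem sre1_fg (e : ℂ_[p] ≃+* ℂ) (F : GZ) : ∃ s : Finset ℂ_[p], ∀ T : Ix → ℤ,
    e.symm (cf F (vec T)) ∈ Submodule.span ℤ (s : Set ℂ_[p]) := by
  classical
  obtain ⟨s, hs⟩ := F.2.1.spec.fg
  refine ⟨s.image e.symm, fun T => ?_⟩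
  rw [Finset.coe_image]
  exact Submodule.apply_mem_span_image_of_mem_span
    (e.symm.toRingHom.toAddMonoidHom.toIntLinearMap) (hs (vec T))

/-- The `p`-adic series attached to good functions. -/
def SRE (e : ℂ_[p] ≃+* ℂ) : SR p cone GZ where
  co :=
    { toFun := fun F m => e.symm (cf F (vec m))
      map_zero' := by
        funext m
        show e.symm (cf 0 (vec m)) = 0
        rw [GoodC.zero.cf_eq, Pi.zero_apply, map_zero]
      map_add' := by
        intro F G
        funext m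
        show e.symm (cf ((F : Fn) + G) (vec m)) = e.symm (cf F (vec m)) + e.symm (cf G (vec m))
        rw [(F.2.1.spec.add G.2.1.spec).cf_eq, Pi.add_apply, map_add] }
  supp := by
    intro F T h
    obtain ⟨M, -, hM⟩ := F.2.1.spec.supp
    exact (hM _ (sre1_ne e h)).2
  co_one := by
    funext m
    show e.symm (cf 1 (vec m)) = _
    rw [GoodC.one.cf_eq]
    by_cases h : m = 0
    · rw [h, vec_zero, Pi.single_eq_same, Pi.single_eq_same, map_one]
    · rw [Pi.single_eq_of_ne h, Pi.single_eq_of_ne fun h' => h (vec_inj (h'.trans vec_zero.symm)),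
        map_zero]
  co_mul := sre1_mul e
  fg := sre1_fg e
  cst := (algebraMap ℂ GZ).comp e.toRingHom
  co_cst := by
    intro c F T
    show e.symm (cf ((algebraMap ℂ GZ (e c) * F : GZ) : Fn) (vec T)) = c * e.symm (cf F (vec T))
    rw [← Algebra.smul_def, Subalgebra.coe_smul, (F.2.1.spec.smul (e c)).cf_eq, Pi.smul_apply,
      smul_eq_mul, map_mul, e.symm_apply_apply]
  del i F := ⟨dl i F, GZ.dl_mem i F.2⟩
  co_del := by
    intro i F T
    show e.symm (cf (dl i F) (vec T)) = _ * e.symm (cf F (vec T))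
    rw [cf_dl i F.2.1, tr_vec_UU, map_mul, Rat.cast_intCast, map_intCast]
  th0 := ⟨ThF, ThF_mem⟩
  th i := ⟨Thi i, Thi_mem i⟩
  int0 := by
    intro T
    show ∃ n : ℤ, e.symm (cf ThF (vec T)) = n
    rw [ThF_good.cf_eq]
    by_cases h : vec T = 0
    · exact ⟨1, by rw [Kim.kc, if_pos h, map_one, Int.cast_one]⟩
    · obtain ⟨n, hn⟩ := Kim.kc_int h
      exact ⟨240 * n, by rw [hn, map_mul, map_intCast, map_ofNat]; push_cast; rfl⟩
  int := by
    intro i T
    show ∃ n : ℤ, e.symm (cf (Thi i) (vec T)) = n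
    obtain ⟨n, hn⟩ := thci_int i (vec T)
    exact ⟨n, by rw [(Thi_spec i).1.cf_eq, hn, map_intCast]⟩
  one0 := by
    show e.symm (cf ThF (vec 0)) = 1
    rw [ThF_good.cf_eq, vec_zero, Kim.kc, if_pos rfl, map_one]
  one := by
    intro i
    show e.symm (cf (Thi i) (vec (Pi.single i 1))) = 1
    rw [(Thi_spec i).1.cf_eq, vec_single, thci_TT, map_one]
  dom := by
    intro i T h hne y hy
    have h1 : cf (Thi i) (vec T) ≠ 0 := sre1_ne e h
    rw [(Thi_spec i).1.cf_eq] at h1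
    exact cone_dom (thci_supp h1).2.1 (thci_supp h1).2.2 hne hy

variable (e : ℂ_[p] ≃+* ℂ) {q : (Ix → ℚ) → ℂ_[p]} {Y : Ix → ℚ}

theorem Chr.pt (hq : Chr p q Y) : Pt p (fun i => q (TT i)) (yc Y) := by
  intro i
  rw [hq.norm]
  rfl
theorem Chr.vec_eq (hq : Chr p q Y) (m : Ix → ℤ) : q (vec m) = mon (fun i => q (TT i)) m := by
  let φ : (Ix → ℚ) →+ Additive ℂ_[p]ˣ :=
    { toFun := fun T => Additive.ofMul (Units.mk0 (q T) (hq.ne T))
      map_zero' := congrArg Additive.ofMul (Units.ext hq.zero)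
      map_add' := fun T T' => congrArg Additive.ofMul (Units.ext (hq.mul T T')) }
  have h : q (vec m) = ((Additive.toMul (φ (vec m)) : ℂ_[p]ˣ) : ℂ_[p]) := rfl
  rw [h, vec, map_sum, toMul_sum, Units.coe_prod, mon]
  refine Finset.prod_congr rfl fun i _ => ?_
  rw [Int.cast_smul_eq_zsmul, map_zsmul, toMul_zsmul, Units.val_zpow_eq_zpow_val]
  rfl
theorem evq_eq (hq : Chr p q Y) (F : GZ) :
    evq e q F = (SRE e).ev (mon fun i => q (TT i)) F := by
  rw [evq, ← vec_inj.tsum_eq fun T h => range_vec ▸ F.2.2 T (sre1_ne e (left_ne_zero_of_mul h))]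
  exact tsum_congr fun m => by rw [hq.vec_eq]; rfl
theorem norm_evq_ThF (hq : Chr p q Y) : ‖evq e q ThF‖ = 1 := by
  rw [evq_eq e hq ⟨ThF, ThF_mem⟩]
  exact (SRE e).norm_ev_th0 hq.pt (yc_mem_Om.2 hq.mem)
theorem SRE_aeval {σ : Type} (F : σ → GZ) (P : MvPolynomial σ ℂ_[p]) :
    ((MvPolynomial.eval₂ (SRE e).cst F P : GZ) : Fn) =
      MvPolynomial.aeval (fun r => (F r : Fn)) (MvPolynomial.map e.toRingHom P) := by
  induction P using MvPolynomial.induction_on with
  | C c =>
    rw [MvPolynomial.eval₂_C, MvPolynomial.map_C, MvPolynomial.aeval_C]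
    rfl
  | add P Q hP hQ => rw [MvPolynomial.eval₂_add, Subalgebra.coe_add, hP, hQ, map_add, map_add]
  | mul_X P r hP =>
    rw [MvPolynomial.eval₂_mul, MvPolynomial.eval₂_X, MulMemClass.coe_mul, hP, map_mul, map_mul,
      MvPolynomial.map_X, MvPolynomial.aeval_X]

/-- The series with coefficients in `E` form a subring (`finsum_induction`). -/
theorem SR.co_mem {ι Q σ : Type} [Fintype ι] [DecidableEq ι] {C : Cone ι} [CommRing Q]
    (S : SR p C Q) (E : IntermediateField ℚ_[p] ℂ_[p]) {F : σ → Q} (hF : ∀ r T, S.co (F r) T ∈ E)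
    {P : MvPolynomial σ ℂ_[p]} (hP : ∀ ν, P.coeff ν ∈ E) (T : ι → ℤ) :
    S.co (MvPolynomial.eval₂ S.cst F P) T ∈ E := by
  have h1 : ∀ T, S.co 1 T ∈ E := fun T => by
    rw [S.co_one, Pi.single_apply]
    split_ifs
    · exact one_mem E
    · exact zero_mem E
  let R : Subring Q :=
    { carrier := {G | ∀ T, S.co G T ∈ E}
      mul_mem' := fun {a b} ha hb T => by
        rw [S.co_mul]
        exact finsum_induction (· ∈ E) (zero_mem E) (fun _ _ => add_mem)
          fun U => mul_mem (ha U) (hb _)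
      one_mem' := h1
      add_mem' := fun {a b} ha hb T => by
        rw [map_add]
        exact add_mem (ha T) (hb T)
      zero_mem' := fun T => by
        rw [map_zero]
        exact zero_mem E
      neg_mem' := fun {a} ha T => by
        rw [map_neg]
        exact neg_mem (ha T) }
  refine MvPolynomial.eval₂_mem (s := R) (fun ν _ U => ?_) hF T
  rw [← mul_one (S.cst _), S.co_cst]
  exact mul_mem (hP ν) (h1 U)

/-- Apply `evHom` to the determinant, divide the first row by `4` and the column `j` by `x j`, use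
`det_ne_zero_of_small` with `norm_ev_th0`, `norm_ev_th`, `norm_ev_del_th0`, `norm_ev_del_th`. -/
theorem SR.jac_ne {ι Q : Type} [Fintype ι] [DecidableEq ι] {C : Cone ι} [CommRing Q]
    (S : SR p C Q) {x : ι → ℂ_[p]} {y : ι → ℚ} (hx : Pt p x y) (hy : y ∈ C.Sg) :
    S.ev (mon x) (Wr.br S.del (fun _ => 4) fun o => o.elim S.th0 S.th) ≠ 0 := by
  have hy' := C.sub hy
  have hx0 : ∀ i, x i ≠ 0 := hx.ne_zero
  have hn : ∀ i, 0 < ‖x i‖ := fun i => norm_pos_iff.2 (hx0 i)
  let F : Option ι → Q := fun o => o.elim S.th0 S.th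
  let a : Option ι → ℂ_[p] := fun r => r.elim 4 fun _ => 1
  let b : Option ι → ℂ_[p] := fun c => c.elim 1 x
  have hb : ∀ c, b c ≠ 0 := fun c => by
    cases c
    · exact one_ne_zero
    · exact hx0 _
  have ha : ∀ c, a c ≠ 0 := fun c => by
    cases c
    · exact (by norm_num : (4 : ℂ_[p]) ≠ 0)
    · exact one_ne_zero
  let N : Matrix (Option ι) (Option ι) ℂ_[p] := Matrix.of fun r c =>
    S.ev (mon x) (r.elim (F c) fun l => S.del l (F c)) / b c
  have hN : N.det ≠ 0 := by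
    refine det_ne_zero_of_small N ?_ (fun j => ?_) (fun l => ?_) fun l j => ?_
    · change ‖S.ev (mon x) S.th0 / 1‖ = 1
      rw [div_one, S.norm_ev_th0 hx hy']
    · change ‖S.ev (mon x) (S.th j) / x j‖ ≤ 1
      rw [norm_div, S.norm_ev_th hx hy, div_self (hn j).ne']
    · change ‖S.ev (mon x) (S.del l S.th0) / 1‖ < 1
      rw [div_one]
      exact S.norm_ev_del_th0 hx hy' l
    · change ‖S.ev (mon x) (S.del l (S.th j)) / x j - _‖ < 1
      have h1 : S.ev (mon x) (S.del l (S.th j)) / x j - (if l = j then 1 else 0) =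
          (S.ev (mon x) (S.del l (S.th j)) - if l = j then x j else 0) / x j := by
        split_ifs
        · rw [sub_div, div_self (hx0 j)]
        · rw [sub_zero, sub_zero]
      rw [h1, norm_div, div_lt_one (hn j)]
      exact S.norm_ev_del_th hx hy l j
  have hM : (S.evHom (hx.adm hy')).mapMatrix (Wr.brM S.del (fun _ => 4) F) =
      Matrix.of fun r c => a r * (Matrix.of fun r c => b c * N r c) r c := by
    ext r c
    change S.evHom (hx.adm hy') (Wr.col S.del 4 (F c) r) = a r * (b c * (_ / b c))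
    rw [mul_div_cancel₀ _ (hb c)]
    cases r
    · change S.evHom (hx.adm hy') (((4 : ℤ) : Q) * F c) = 4 * S.ev (mon x) (F c)
      rw [map_mul, map_intCast, S.evHom_apply]
      norm_num
    · exact (one_mul _).symm
  rw [← S.evHom_apply (hx.adm hy'), Wr.br, RingHom.map_det, hM, Matrix.det_mul_column,
    Matrix.det_mul_row]
  exact mul_ne_zero (Finset.prod_ne_zero_iff.2 fun c _ => ha c)
    (mul_ne_zero (Finset.prod_ne_zero_iff.2 fun c _ => hb c) hN)

theorem evq_JacF (hq : Chr p q Y) (hY : toR ℝ Y ∈ Sieg) : evq e q (JacF ^ 2) ≠ 0 := by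
  rw [evq_pow e hq JacF_mem.1]
  refine pow_ne_zero 2 ?_
  have h1 : (⟨JacF, JacF_mem⟩ : GZ) =
      Wr.br (SRE e).del (fun _ => 4) fun o => o.elim (SRE e).th0 (SRE e).th := by
    refine Subtype.ext (Eq.symm ?_)
    refine (Wr.map_br (dl := (SRE e).del) (dl' := dl) GZ.val.toRingHom (fun _ _ => rfl) _ _).trans ?_
    refine congrArg (Wr.br dl fun _ => 4) (funext fun o => ?_)
    cases o <;> rfl
  have h2 := evq_eq e hq ⟨JacF, JacF_mem⟩
  rw [h2, h1]
  refine (SRE e).jac_ne hq.pt ?_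
  change toR ℝ (pt (yc Y)) ∈ Sieg
  rwa [pt_yc]

/-- Some power of `qt e q A B T` lies in any field that contains the `q (TT i)` (`eT_root`,
`exists_den`, `range_vec`). -/
theorem qt_pow_mem (hq : Chr p q Y) (E : IntermediateField ℚ_[p] ℂ_[p]) (hE : ∀ i, q (TT i) ∈ E)
    (A : Matrix Ix Ix ℚ) (B : Ix → ℚ) : ∃ m : ℕ, 0 < m ∧ ∀ i, qt e q A B (TT i) ^ m ∈ E := by
  have h1 : ∀ (T : Ix → ℚ) (n : ℕ), q ((n : ℚ) • T) = q T ^ n := fun T n => by
    induction n with
    | zero => rw [Nat.cast_zero, zero_smul, hq.zero, pow_zero]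
    | succ n ih => rw [Nat.cast_succ, add_smul, one_smul, hq.mul, ih, pow_succ]
  have h2 : ∀ i, ∃ n : ℕ, 0 < n ∧ qt e q A B (TT i) ^ n ∈ E := fun i => by
    obtain ⟨N, hN, h3⟩ := eT_root (TT i) B
    obtain ⟨M, hM, h4⟩ := exists_den (lin (adjM A) (TT i))
    rw [← range_vec] at h4
    obtain ⟨m, hm⟩ := h4
    refine ⟨N * M, mul_pos hN hM, ?_⟩
    rw [qt, mul_pow, pow_mul, ← map_pow, h3, map_one, one_pow, one_mul, mul_comm, pow_mul, ← h1,
      ← hm, hq.vec_eq]
    exact pow_mem (prod_mem fun j _ => zpow_mem (hE j) _) N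
  choose n hn h3 using h2
  refine ⟨∏ i, n i, Finset.prod_pos fun i _ => hn i, fun i => ?_⟩
  obtain ⟨k, hk⟩ := Finset.dvd_prod_of_mem n (Finset.mem_univ i)
  rw [hk, pow_mul]
  exact pow_mem (h3 i) k

end Pool.Agent.E7
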