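import Pool.Agent.Lib.MP_7e5527_ag.E7.Match
import Pool.Agent.Lib.MP_7e5527_ag.E7.Cx
import Pool.Agent.Lib.MP_7e5527_ag.E7.SRE
import Pool.Agent.Lib.MP_7e5527_ag.E7.CCurve

/-! The ring of functions on the curve. -/

noncomputable section

namespace Pool.Agent.E7

variable {p : ℕ} [Fact p.Prime] {e : ℂ_[p] ≃+* ℂ} {q : (Ix → ℚ) → ℂ_[p]} {Y : Ix → ℚ}

/-- The characters of the sequence. -/
abbrev Pts.qn (X : Pts e q Y) (n : ℕ) : (Ix → ℚ) → ℂ_[p] := qt e q (X.A n) (X.B n)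

theorem Pts.chr (X : Pts e q Y) (hq : Chr p q Y) (n : ℕ) : Chr p (X.qn n) (lin (X.A n) Y) :=
  hq.qt e (X.sim n) _

theorem Pts.th_ne (X : Pts e q Y) (hq : Chr p q Y) (n : ℕ) : evq e (X.qn n) ThF ≠ 0 := by
  rw [← norm_ne_zero_iff, norm_evq_ThF e (X.chr hq n)]
  exact one_ne_zero

theorem Pts.not_van (X : Pts e q Y) (hq : Chr p q Y) : ¬ Van ThF X.h := fun h =>
  X.th_ne hq 0 (X.kill 0 4 _ ThF_m2.1 ThF_m2.2 h)

/-- The ring of the quotients `F / ThF ^ m` along the arc. -/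
structure BR (X : Pts e q Y) (B : Type) [CommRing B] [Algebra ℂ_[p] B] where
  io : ℤ → Fn → B
  ep : ℕ → B →ₐ[ℂ_[p]] ℂ_[p]
  van : ∀ m F, M2 (4 * m) F → (io m F = 0 ↔ Van F X.h)
  ev : ∀ n m F, M2 (4 * m) F → ep n (io m F) = evq e (X.qn n) F / evq e (X.qn n) ThF ^ m
  add : ∀ m F G, M2 (4 * m) F → M2 (4 * m) G → io m (F + G) = io m F + io m G
  mul : ∀ m l F G, M2 (4 * m) F → M2 (4 * l) G → io (m + l) (F * G) = io m F * io l G
  smul : ∀ m c F, M2 (4 * m) F → io m (e c • F) = c • io m F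
  one : io 0 1 = 1
  th : io 1 ThF = 1
  surj : ∀ b, ∃ m F, M2 (4 * m) F ∧ b = io m F

theorem br1_up {K R : Type} [Field K] [CommRing R] {M : ℤ → R → Prop} {θ : R} {w : R → K}
    (Mθ : M 1 θ) (Mmul : ∀ m l F G, M m F → M l G → M (m + l) (F * G)) (wθ : w θ ≠ 0)
    (wmul : ∀ m l F G, M m F → M l G → w (F * G) = w F * w G) {m : ℤ} {F : R} (hF : M m F)
    (k : ℕ) : M (m + k) (F * θ ^ k) ∧ w (F * θ ^ k) / w θ ^ (m + k) = w F / w θ ^ m := by
  induction k with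
  | zero => simpa using hF
  | succ k ih =>
    have h1 : m + ((k + 1 : ℕ) : ℤ) = m + k + 1 := by push_cast; ring
    rw [h1, pow_succ, ← mul_assoc]
    refine ⟨Mmul _ _ _ _ ih.1 Mθ, ?_⟩
    rw [wmul _ _ _ _ ih.1 Mθ, zpow_add_one₀ wθ, mul_div_mul_right _ _ wθ, ih.2]

theorem br1_abs {K L R : Type} [Field K] [Field L] [Algebra K L] [CommRing R]
    (M : ℤ → R → Prop) (θ : R) (sm : K → R → R) (T : R → L) (v : ℕ → R → K)
    (M1 : M 0 1) (Mθ : M 1 θ) (Madd : ∀ m F G, M m F → M m G → M m (F + G))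
    (Mmul : ∀ m l F G, M m F → M l G → M (m + l) (F * G))
    (Msm : ∀ m c F, M m F → M m (sm c F)) (T1 : T 1 = 1) (Tθ : T θ ≠ 0)
    (Tadd : ∀ m F G, M m F → M m G → T (F + G) = T F + T G)
    (Tmul : ∀ m l F G, M m F → M l G → T (F * G) = T F * T G)
    (Tsm : ∀ m c F, M m F → T (sm c F) = c • T F) (v1 : ∀ n, v n 1 = 1) (vθ : ∀ n, v n θ ≠ 0)
    (vadd : ∀ n m F G, M m F → M m G → v n (F + G) = v n F + v n G)
    (vmul : ∀ n m l F G, M m F → M l G → v n (F * G) = v n F * v n G)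
    (vsm : ∀ n m c F, M m F → v n (sm c F) = c * v n F)
    (kill : ∀ n m F, M m F → T F = 0 → v n F = 0) :
    ∃ (S : Subalgebra K L) (ep : ℕ → S →ₐ[K] K),
      (∀ x, x ∈ S ↔ ∃ m F, M m F ∧ x = T F / T θ ^ m) ∧
      ∀ n m F (x : S), M m F → (x : L) = T F / T θ ^ m → ep n x = v n F / v n θ ^ m := by
  have up : ∀ m l F G, M m F → M l G → ∃ N F' G', M N F' ∧ M N G' ∧
      T F' / T θ ^ N = T F / T θ ^ m ∧ T G' / T θ ^ N = T G / T θ ^ l ∧
      ∀ n, v n F' / v n θ ^ N = v n F / v n θ ^ m ∧ v n G' / v n θ ^ N = v n G / v n θ ^ l := by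
    intro m l F G hF hG
    obtain ⟨a, ha⟩ := Int.le.dest (le_max_left m l)
    obtain ⟨b, hb⟩ := Int.le.dest (le_max_right m l)
    have h1 := br1_up Mθ Mmul Tθ Tmul hF a
    have h2 := br1_up Mθ Mmul Tθ Tmul hG b
    have h3 := fun n => (br1_up Mθ Mmul (vθ n) (vmul n) hF a).2
    have h4 := fun n => (br1_up Mθ Mmul (vθ n) (vmul n) hG b).2
    rw [ha] at h1 h3
    rw [hb] at h2 h4
    exact ⟨_, _, _, h1.1, h2.1, h1.2, h2.2, fun n => ⟨h3 n, h4 n⟩⟩
  have wd : ∀ n m l F G, M m F → M l G → T F / T θ ^ m = T G / T θ ^ l →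
      v n F / v n θ ^ m = v n G / v n θ ^ l := by
    intro n m l F G hF hG h
    obtain ⟨N, F', G', h1, h2, h3, h4, h5⟩ := up m l F G hF hG
    rw [← h3, ← h4, div_left_inj' (zpow_ne_zero N Tθ)] at h
    have h6 := Msm N (-1) G' h2
    have h7 := kill n N _ (Madd N _ _ h1 h6) (by
      rw [Tadd N _ _ h1 h6, Tsm N _ _ h2, h, neg_smul, one_smul, add_neg_cancel])
    rw [vadd n N _ _ h1 h6, vsm n N _ _ h2, neg_one_mul, add_neg_eq_zero] at h7
    rw [← (h5 n).1, ← (h5 n).2, h7]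
  have hc : ∀ c : K, algebraMap K L c = T (sm c 1) / T θ ^ (0 : ℤ) := fun c => by
    rw [Tsm 0 c 1 M1, T1, zpow_zero, div_one, Algebra.algebraMap_eq_smul_one]
  have hm : ∀ m l F G, M m F → M l G →
      T F / T θ ^ m * (T G / T θ ^ l) = T (F * G) / T θ ^ (m + l) := fun m l F G hF hG => by
    rw [Tmul m l F G hF hG, zpow_add₀ Tθ, div_mul_div_comm]
  let S : Subalgebra K L :=
    { carrier := {x | ∃ m F, M m F ∧ x = T F / T θ ^ m}
      mul_mem' := by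
        rintro _ _ ⟨m, F, hF, rfl⟩ ⟨l, G, hG, rfl⟩
        exact ⟨m + l, F * G, Mmul m l F G hF hG, hm m l F G hF hG⟩
      add_mem' := by
        rintro _ _ ⟨m, F, hF, rfl⟩ ⟨l, G, hG, rfl⟩
        obtain ⟨N, F', G', h1, h2, h3, h4, -⟩ := up m l F G hF hG
        exact ⟨N, F' + G', Madd N _ _ h1 h2, by rw [Tadd N _ _ h1 h2, add_div, h3, h4]⟩
      algebraMap_mem' := fun c => ⟨0, sm c 1, Msm 0 c 1 M1, hc c⟩ }
  have hS : ∀ x : S, ∃ m F, M m F ∧ (x : L) = T F / T θ ^ m := fun x => x.2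
  choose a f ha hf using hS
  have key : ∀ n m F (x : S), M m F → (x : L) = T F / T θ ^ m →
      v n (f x) / v n θ ^ a x = v n F / v n θ ^ m := fun n m F x hF hx =>
    wd n _ _ _ _ (ha x) hF ((hf x).symm.trans hx)
  have kc : ∀ n (c : K), v n (f (algebraMap K S c)) / v n θ ^ a (algebraMap K S c) = c :=
    fun n c => by
      rw [key n 0 (sm c 1) _ (Msm 0 c 1 M1) (hc c), vsm n 0 c 1 M1, v1, zpow_zero, div_one, mul_one]
  refine ⟨S, fun n =>
    { toFun := fun x => v n (f x) / v n θ ^ a x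
      map_one' := by rw [← map_one (algebraMap K S), kc]
      map_mul' := fun x y => ?_
      map_zero' := by rw [← map_zero (algebraMap K S), kc]
      map_add' := fun x y => ?_
      commutes' := kc n }, fun _ => Iff.rfl, key⟩
  · rw [key n (a x + a y) (f x * f y) (x * y) (Mmul _ _ _ _ (ha x) (ha y))
      (by rw [← hm _ _ _ _ (ha x) (ha y), ← hf x, ← hf y]; rfl), vmul n _ _ _ _ (ha x) (ha y),
      zpow_add₀ (vθ n), div_mul_div_comm]
  · obtain ⟨N, F', G', h1, h2, h3, h4, h5⟩ := up _ _ _ _ (ha x) (ha y)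
    rw [key n N (F' + G') (x + y) (Madd N _ _ h1 h2)
      (by rw [Tadd N _ _ h1 h2, add_div, h3, h4, ← hf x, ← hf y]; rfl), vadd n N _ _ h1 h2,
      add_div, (h5 n).1, (h5 n).2]

open Classical in
/-- The germ along the arc in the fraction field. -/
def br1_T {h : ℂ → Ix → ℂ} (hA : Arc h) (F : Fn) : FractionRing An :=
  if hF : IsHol F then algebraMap An (FractionRing An) (tau hA ⟨F, hF⟩) else 0

theorem br1_T_eq {h : ℂ → Ix → ℂ} (hA : Arc h) (F : Hol) :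
    br1_T hA F = algebraMap An (FractionRing An) (tau hA F) := dif_pos F.2

theorem br1_T_zero {h : ℂ → Ix → ℂ} (hA : Arc h) {F : Fn} (hF : IsHol F) :
    br1_T hA F = 0 ↔ Van F h := by
  rw [br1_T_eq hA ⟨F, hF⟩, map_eq_zero_iff _ (IsFractionRing.injective An _), tau_eq_zero]

/-- Let `L` be the fraction field of `An`, an algebra over `ℂ_[p]` through `e`, and `B` the
subalgebra of the `tau F / tau ThF ^ m` with `M2 (4 * m) F` (bring two quotients to the same `m` by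
powers of `ThF`). The value `evq F / evq ThF ^ m` depends only on the quotient by `X.kill`. -/
theorem exists_BR (X : Pts e q Y) (hq : Chr p q Y) :
    ∃ (B : Type) (_ : CommRing B) (_ : IsDomain B) (_ : Algebra ℂ_[p] B), Nonempty (BR X B) := by
  classical
  let _ : Algebra ℂ_[p] (FractionRing An) :=
    (((algebraMap An (FractionRing An)).comp An.cst).comp e.toRingHom).toAlgebra
  have hol : ∀ {k F}, M2 k F → IsHol F := fun h => h.1.gd.isHol
  have M1 : M2 (4 * 0) 1 := by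
    rw [mul_zero]
    exact ⟨MF.one, Inv.one _⟩
  have Mθ : M2 (4 * 1) ThF := by
    rw [mul_one]
    exact ThF_m2
  have Madd : ∀ (m : ℤ) F G, M2 (4 * m) F → M2 (4 * m) G → M2 (4 * m) (F + G) :=
    fun m F G hF hG => ⟨hF.1.add hG.1, hF.2.add hG.2⟩
  have Mmul : ∀ (m l : ℤ) F G, M2 (4 * m) F → M2 (4 * l) G → M2 (4 * (m + l)) (F * G) :=
    fun m l F G hF hG => by
      rw [mul_add]
      exact ⟨hF.1.mul hG.1, hF.2.mul Gam2_le hG.2⟩
  have Msm : ∀ (m : ℤ) (c : ℂ_[p]) F, M2 (4 * m) F → M2 (4 * m) (e c • F) :=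
    fun m c F hF => ⟨hF.1.smul _, hF.2.smul _⟩
  have T1 : br1_T X.arc 1 = 1 := (br1_T_eq X.arc 1).trans (by rw [map_one, map_one])
  have Tθ : br1_T X.arc ThF ≠ 0 := fun h => X.not_van hq ((br1_T_zero X.arc (hol Mθ)).1 h)
  have Tadd : ∀ (m : ℤ) F G, M2 (4 * m) F → M2 (4 * m) G →
      br1_T X.arc (F + G) = br1_T X.arc F + br1_T X.arc G := fun m F G hF hG =>
    (br1_T_eq X.arc (⟨F, hol hF⟩ + ⟨G, hol hG⟩)).trans (by
      rw [map_add, map_add, ← br1_T_eq, ← br1_T_eq])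
  have Tmul : ∀ (m l : ℤ) F G, M2 (4 * m) F → M2 (4 * l) G →
      br1_T X.arc (F * G) = br1_T X.arc F * br1_T X.arc G := fun m l F G hF hG =>
    (br1_T_eq X.arc (⟨F, hol hF⟩ * ⟨G, hol hG⟩)).trans (by
      rw [map_mul, map_mul, ← br1_T_eq, ← br1_T_eq])
  have Tsm : ∀ (m : ℤ) (c : ℂ_[p]) F, M2 (4 * m) F →
      br1_T X.arc (e c • F) = c • br1_T X.arc F := fun m c F hF =>
    (br1_T_eq X.arc (e c • ⟨F, hol hF⟩)).trans (by
      rw [Algebra.smul_def, map_mul, map_mul, ← br1_T_eq X.arc ⟨F, hol hF⟩, tau_const]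
      rfl)
  obtain ⟨S, ep, hS, hep⟩ := br1_abs (fun m F => M2 (4 * m) F) ThF (fun c F => e c • F)
    (br1_T X.arc) (fun n F => evq e (X.qn n) F) M1 Mθ Madd Mmul Msm T1 Tθ Tadd Tmul Tsm
    (fun n => evq_one e (X.chr hq n)) (X.th_ne hq)
    (fun n m F G hF hG => evq_add e (X.chr hq n) hF.1.gd hG.1.gd)
    (fun n m l F G hF hG => evq_mul e (X.chr hq n) hF.1.gd hG.1.gd)
    (fun n m c F hF => by rw [evq_smul e (X.chr hq n) hF.1.gd, e.symm_apply_apply])
    (fun n m F hF h => X.kill n _ F hF.1 hF.2 ((br1_T_zero X.arc (hol hF)).1 h))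
  let io : ℤ → Fn → S := fun m F =>
    if hF : M2 (4 * m) F then ⟨br1_T X.arc F / br1_T X.arc ThF ^ m, (hS _).2 ⟨m, F, hF, rfl⟩⟩ else 0
  have hio : ∀ m F, M2 (4 * m) F →
      (io m F : FractionRing An) = br1_T X.arc F / br1_T X.arc ThF ^ m := fun m F hF => by
    simp only [io, dif_pos hF]
  refine ⟨S, inferInstance, inferInstance, inferInstance, ⟨io, ep, fun m F hF => ?_,
    fun n m F hF => hep n m F _ hF (hio m F hF), fun m F G hF hG => Subtype.ext ?_,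
    fun m l F G hF hG => Subtype.ext ?_, fun m c F hF => Subtype.ext ?_, Subtype.ext ?_,
    Subtype.ext ?_, fun b => ?_⟩⟩
  · rw [← br1_T_zero X.arc (hol hF), ← ZeroMemClass.coe_eq_zero, hio m F hF,
      div_eq_zero_iff, or_iff_left (zpow_ne_zero m Tθ)]
  · rw [Subalgebra.coe_add, hio m _ (Madd m F G hF hG), hio m F hF, hio m G hG,
      Tadd m F G hF hG, add_div]
  · rw [Subalgebra.coe_mul, hio _ _ (Mmul m l F G hF hG), hio m F hF, hio l G hG,
      Tmul m l F G hF hG, zpow_add₀ Tθ, div_mul_div_comm]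
  · rw [Subalgebra.coe_smul, hio m _ (Msm m c F hF), hio m F hF, Tsm m c F hF, smul_div_assoc]
  · rw [hio 0 1 M1, T1, zpow_zero, div_one, Subalgebra.coe_one]
  · rw [hio 1 ThF Mθ, zpow_one, div_self Tθ, Subalgebra.coe_one]
  · obtain ⟨m, F, hF, h⟩ := (hS b).1 b.2
    exact ⟨m, F, hF, Subtype.ext (h.trans (hio m F hF).symm)⟩

end Pool.Agent.E7
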