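import Pool.Agent.Lib.MP_7e5527_ag.E7.BR1

/-! The ring of functions on the curve has dimension one. -/

noncomputable section

namespace Pool.Agent.E7

variable {p : ℕ} [Fact p.Prime] {e : ℂ_[p] ≃+* ℂ} {q : (Ix → ℚ) → ℂ_[p]} {Y : Ix → ℚ}
  {X : Pts e q Y} {B : Type} [CommRing B] [Algebra ℂ_[p] B]

theorem M2.mul {k l : ℤ} {F G : Fn} (hF : M2 k F) (hG : M2 l G) : M2 (k + l) (F * G) :=
  ⟨hF.1.mul hG.1, hF.2.mul Gam2_le hG.2⟩
private theorem br2_zero (k : ℤ) : M2 k 0 := ⟨MF.zero k, Inv.zero _ k⟩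
private theorem br2_one : M2 (4 * 0) 1 := ⟨MF.one, Inv.one _⟩
private theorem br2_th : M2 (4 * 1) ThF := ThF_m2
private theorem br2_sum {k : ℤ} {α : Type} (s : Finset α) {F : α → Fn}
    (h : ∀ a ∈ s, M2 k (F a)) : M2 k (∑ a ∈ s, F a) :=
  ⟨MF.sum s fun a ha => (h a ha).1, Inv.sum s fun a ha => (h a ha).2⟩
private theorem br2_mul {k l : ℤ} {F G : Fn} (hF : M2 (4 * k) F) (hG : M2 (4 * l) G) :
    M2 (4 * (k + l)) (F * G) := by
  rw [mul_add]
  exact hF.mul hG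
private theorem br2_pow {m : ℤ} {F : Fn} (h : M2 (4 * m) F) (n : ℕ) :
    M2 (4 * (n * m)) (F ^ n) := by
  rw [mul_left_comm]
  exact ⟨h.1.pow n, h.2.pow Gam2_le n⟩
theorem BR.zero (R : BR X B) (m : ℤ) : R.io m 0 = 0 := by
  have h := R.add m 0 0 (br2_zero _) (br2_zero _)
  rw [add_zero] at h
  exact left_eq_add.1 h
theorem BR.sum (R : BR X B) (m : ℤ) {α : Type} (s : Finset α) {F : α → Fn}
    (h : ∀ a ∈ s, M2 (4 * m) (F a)) : R.io m (∑ a ∈ s, F a) = ∑ a ∈ s, R.io m (F a) := by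
  classical
  induction s using Finset.induction_on with
  | empty => simpa using R.zero m
  | insert a s ha ih =>
    have h1 : ∀ b ∈ s, M2 (4 * m) (F b) := fun b hb => h b (Finset.mem_insert_of_mem hb)
    rw [Finset.sum_insert ha, Finset.sum_insert ha,
      R.add m _ _ (h a (Finset.mem_insert_self _ _)) (br2_sum s h1), ih h1]
theorem BR.pow (R : BR X B) {m : ℤ} {F : Fn} (h : M2 (4 * m) F) (n : ℕ) :
    R.io (n * m) (F ^ n) = R.io m F ^ n := by
  induction n with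
  | zero => simpa using R.one
  | succ n ih =>
    rw [pow_succ, pow_succ, Nat.cast_succ, add_one_mul, R.mul _ _ _ _ (br2_pow h n) h, ih]
theorem BR.th_mul (R : BR X B) {m : ℤ} {F : Fn} (h : M2 (4 * m) F) (n : ℕ) :
    R.io (m + n) (F * ThF ^ n) = R.io m F := by
  have h1 := br2_pow br2_th n
  have h2 := R.pow br2_th n
  rw [mul_one] at h1 h2
  rw [R.mul _ _ _ _ h h1, h2, R.th, one_pow, mul_one]

private theorem br2_prod (R : BR X B) {α : Type} (s : Finset α) (k : α → ℤ) {F : α → Fn}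
    (h : ∀ a ∈ s, M2 (4 * k a) (F a)) : M2 (4 * ∑ a ∈ s, k a) (∏ a ∈ s, F a) ∧
      R.io (∑ a ∈ s, k a) (∏ a ∈ s, F a) = ∏ a ∈ s, R.io (k a) (F a) := by
  classical
  induction s using Finset.induction_on with
  | empty => exact ⟨br2_one, R.one⟩
  | insert a s ha ih =>
    obtain ⟨h1, h2⟩ := ih fun b hb => h b (Finset.mem_insert_of_mem hb)
    have h3 := h a (Finset.mem_insert_self _ _)
    rw [Finset.sum_insert ha, Finset.prod_insert ha, Finset.prod_insert ha, R.mul _ _ _ _ h3 h1, h2]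
    exact ⟨br2_mul h3 h1, rfl⟩

/-- A homogeneous polynomial in forms of one weight. -/
theorem BR.aeval (R : BR X B) {σ : Type} {m : ℤ} {F : σ → Fn} (h : ∀ r, M2 (4 * m) (F r))
    {P : MvPolynomial σ ℂ_[p]} {n : ℕ} (hP : P.IsHomogeneous n) :
    M2 (4 * (n * m)) (MvPolynomial.aeval F (MvPolynomial.map e.toRingHom P)) ∧
      R.io (n * m) (MvPolynomial.aeval F (MvPolynomial.map e.toRingHom P)) =
        MvPolynomial.aeval (fun r => R.io m (F r)) P := by
  have e1 : MvPolynomial.aeval F (MvPolynomial.map e.toRingHom P) =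
      ∑ d ∈ P.support, e (P.coeff d) • ∏ r ∈ d.support, F r ^ d r := by
    rw [MvPolynomial.aeval_def, MvPolynomial.eval₂_map, MvPolynomial.eval₂_eq]
    simp only [Algebra.smul_def]
    rfl
  have e2 : MvPolynomial.aeval (fun r => R.io m (F r)) P =
      ∑ d ∈ P.support, P.coeff d • ∏ r ∈ d.support, R.io m (F r) ^ d r := by
    rw [MvPolynomial.aeval_def, MvPolynomial.eval₂_eq]
    simp only [Algebra.smul_def]
  have w : ∀ d ∈ P.support, (n * m : ℤ) = ∑ r ∈ d.support, (d r : ℤ) * m := fun d hd => by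
    rw [hP.degree_eq_sum_deg_support hd, ← Finset.sum_mul]
    push_cast
    rfl
  have key : ∀ d ∈ P.support, M2 (4 * (n * m)) (∏ r ∈ d.support, F r ^ d r) ∧
      R.io (n * m) (∏ r ∈ d.support, F r ^ d r) = ∏ r ∈ d.support, R.io m (F r) ^ d r := by
    intro d hd
    obtain ⟨h1, h2⟩ := br2_prod R d.support (fun r => (d r : ℤ) * m) (F := fun r => F r ^ d r)
      fun r _ => br2_pow (h r) (d r)
    rw [w d hd]
    exact ⟨h1, h2.trans (Finset.prod_congr rfl fun r _ => R.pow (h r) (d r))⟩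
  have k2 : ∀ d ∈ P.support, M2 (4 * (n * m)) (e (P.coeff d) • ∏ r ∈ d.support, F r ^ d r) :=
    fun d hd => ⟨(key d hd).1.1.smul _, (key d hd).1.2.smul _⟩
  rw [e1, e2]
  refine ⟨br2_sum _ k2, ?_⟩
  rw [R.sum _ _ k2]
  refine Finset.sum_congr rfl fun d hd => ?_
  rw [R.smul _ _ _ (key d hd).1, (key d hd).2]

private theorem br2_lift (R : BR X B) {m N : ℤ} {F : Fn} (h1 : MF (4 * m) F)
    (h2 : Inv Gam (4 * m) F) (hN : m ≤ N) :
    ∃ G, MF (4 * N) G ∧ Inv Gam (4 * N) G ∧ R.io m F = R.io N G := by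
  obtain ⟨n, rfl⟩ := Int.le.dest hN
  have w : 4 * (m + n : ℤ) = 4 * m + n * 4 := by ring
  refine ⟨F * ThF ^ n, ?_, ?_, (R.th_mul ⟨h1, h2.mono Gam2_le⟩ n).symm⟩
  · rw [w]
    exact h1.mul (ThF_mf.pow n)
  · rw [w]
    exact h2.mul le_rfl (ThF_inv.pow le_rfl n)

/-- The values of the forms of level one. -/
private def br2_sub (R : BR X B) : Subalgebra ℂ_[p] B where
  carrier := {b | ∃ m F, MF (4 * m) F ∧ Inv Gam (4 * m) F ∧ R.io m F = b}
  mul_mem' := by
    rintro _ _ ⟨m, F, h1, h2, rfl⟩ ⟨l, G, h3, h4, rfl⟩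
    refine ⟨m + l, F * G, ?_, ?_, R.mul _ _ _ _ ⟨h1, h2.mono Gam2_le⟩ ⟨h3, h4.mono Gam2_le⟩⟩
    · rw [mul_add]
      exact h1.mul h3
    · rw [mul_add]
      exact h2.mul le_rfl h4
  add_mem' := by
    rintro _ _ ⟨m, F, h1, h2, rfl⟩ ⟨l, G, h3, h4, rfl⟩
    obtain ⟨F', a1, a2, a3⟩ := br2_lift R h1 h2 (le_max_left m l)
    obtain ⟨G', b1, b2, b3⟩ := br2_lift R h3 h4 (le_max_right m l)
    refine ⟨max m l, F' + G', a1.add b1, a2.add b2, ?_⟩
    rw [a3, b3, R.add _ _ _ ⟨a1, a2.mono Gam2_le⟩ ⟨b1, b2.mono Gam2_le⟩]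
  algebraMap_mem' := fun c => ⟨0, e c • 1, MF.one.smul _, (Inv.one _).smul _, by
    rw [R.smul _ _ _ br2_one, R.one, Algebra.algebraMap_eq_smul_one]⟩

private theorem br2_dep (R : BR X B) {a b : B} (ha : a ∈ br2_sub R) (hb : b ∈ br2_sub R) :
    ∃ P : MvPolynomial (Fin 2) ℂ_[p], P ≠ 0 ∧ MvPolynomial.aeval ![a, b] P = 0 := by
  obtain ⟨m, F, h1, h2, rfl⟩ := ha
  obtain ⟨l, G, h3, h4, rfl⟩ := hb
  obtain ⟨F', a1, a2, a3⟩ := br2_lift R h1 h2 ((le_max_left m l).trans (le_max_left _ 0))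
  obtain ⟨G', b1, b2, b3⟩ := br2_lift R h3 h4 ((le_max_right m l).trans (le_max_left _ 0))
  obtain ⟨H', c1, c2, c3⟩ := br2_lift R (m := 0) MF.one (Inv.one _) (le_max_right (max m l) 0)
  rw [R.one] at c3
  rw [a3, b3]
  generalize max (max m l) 0 = N at a1 a2 b1 b2 c1 c2 c3 ⊢
  have hT : ∀ i, MF (4 * N) (![H', F', G'] i) ∧ Inv Gam (4 * N) (![H', F', G'] i) := by
    intro i
    fin_cases i
    · exact ⟨c1, c2⟩
    · exact ⟨a1, a2⟩
    · exact ⟨b1, b2⟩
  obtain ⟨P, n, hP0, hP, hv⟩ := X.arc.crv _ _ hT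
  have hm : MvPolynomial.map e.toRingHom (MvPolynomial.map e.symm.toRingHom P) = P := by
    rw [MvPolynomial.map_map, RingEquiv.toRingHom_comp_symm_toRingHom, MvPolynomial.map_id]
  have hP' : (MvPolynomial.map e.symm.toRingHom P).IsHomogeneous n := hP.map _
  have hP0' : MvPolynomial.map e.symm.toRingHom P ≠ 0 := by
    intro h
    rw [h, map_zero] at hm
    exact hP0 hm.symm
  obtain ⟨d1, d2⟩ := R.aeval (F := ![H', F', G'])
    (fun r => ⟨(hT r).1, (hT r).2.mono Gam2_le⟩) hP'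
  rw [hm] at d1 d2
  obtain ⟨P2, e1, e2⟩ := exists_dehomog hP0' hP'
  refine ⟨P2, e1, ?_⟩
  have e3 : (fun r => R.io N (![H', F', G'] r)) = ![1, R.io N F', R.io N G'] := by
    funext r
    fin_cases r
    · exact c3.symm
    · rfl
    · rfl
  rw [e2, ← e3, ← d2, R.van _ _ d1]
  filter_upwards [hv] with t ht
  rw [← ht]
  have e4 := MvPolynomial.comp_aeval_apply ![H', F', G']
    (Pi.evalAlgHom ℂ (fun _ : HH => ℂ) (ofC (X.h t))) P
  exact e4

private theorem br2_sym {τ : Type} [Fintype τ] (T : Trans Gam2 τ) {k : ℤ} {G : Fn} (h : M2 k G)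
    {i : ℕ} (hi : i ≤ Fintype.card τ) :
    MF ((Fintype.card τ - i : ℕ) * k)
        ((∏ t, (Polynomial.X + Polynomial.C (sl k (T.rep t) G))).coeff i) ∧
      Inv Gam ((Fintype.card τ - i : ℕ) * k)
        ((∏ t, (Polynomial.X + Polynomial.C (sl k (T.rep t) G))).coeff i) := by
  have w : ∀ u ∈ Finset.powersetCard (Fintype.card τ - i) (Finset.univ : Finset τ),
      ((Fintype.card τ - i : ℕ) * k : ℤ) = ∑ _a ∈ u, k := fun u hu => by
    rw [Finset.sum_const, (Finset.mem_powersetCard.1 hu).2, nsmul_eq_mul]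
  constructor
  · rw [Finset.prod_X_add_C_coeff _ _ hi]
    refine MF.sum _ fun u hu => ?_
    rw [w u hu]
    exact MF.prod u fun t _ => h.1.slash (Gam_le (T.mem t))
  · intro g hg
    obtain ⟨σ, hσ⟩ := T.perm g hg
    conv_rhs => rw [← Equiv.prod_comp σ]
    rw [Finset.prod_X_add_C_coeff _ _ hi, Finset.prod_X_add_C_coeff _ _ hi, sl_sum]
    refine Finset.sum_congr rfl fun u hu => ?_
    rw [w u hu, sl_prod (Gam_le hg)]
    refine Finset.prod_congr rfl fun t _ => ?_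
    obtain ⟨δ, hδ, e1⟩ := hσ t
    rw [← sl_mul k (Gam_le (T.mem t)) (Gam_le hg), e1,
      sl_mul k (Gam_le (Gam2_le hδ)) (Gam_le (T.mem _)), h.2 δ hδ]

private theorem br2_alg [Nontrivial B] (R : BR X B) (b : B) : IsAlgebraic (br2_sub R) b := by
  obtain ⟨m, F, hF, rfl⟩ := R.surj b
  obtain ⟨τ, _, ⟨T⟩⟩ := exists_trans Gam2_le Gam2_index
  have hG : M2 (4 * m) ((-1 : ℂ) • F) := ⟨hF.1.smul _, hF.2.smul _⟩
  have hs := fun i (hi : i ≤ Fintype.card τ) => br2_sym T hG hi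
  obtain ⟨Q, hQ⟩ : ∃ Q,
      Q = ∏ t, (Polynomial.X + Polynomial.C (sl (4 * m) (T.rep t) ((-1 : ℂ) • F))) := ⟨_, rfl⟩
  have hQ0 : Q.eval F = 0 := by
    obtain ⟨t, δ, hδ, e1⟩ := T.cover 1 (one_mem _)
    rw [hQ, Polynomial.eval_prod]
    refine Finset.prod_eq_zero (Finset.mem_univ t) ?_
    rw [← hG.2 δ hδ, ← sl_mul _ (Gam_le (Gam2_le hδ)) (Gam_le (T.mem t)), ← e1, sl_one]
    simp
  have hQ1 : Q.coeff (Fintype.card τ) = 1 := by
    rw [hQ, Finset.prod_X_add_C_coeff _ _ (le_refl (Fintype.card τ))]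
    simp
  have hQ2 : Q.natDegree < Fintype.card τ + 1 := by
    rw [hQ, Nat.lt_succ_iff]
    refine (Polynomial.natDegree_prod_le _ _).trans
      ((Finset.sum_le_card_nsmul _ _ 1 fun t _ => ?_).trans (by simp))
    rw [Polynomial.natDegree_add_C]
    exact Polynomial.natDegree_X_le
  simp only [← hQ, mul_left_comm _ (4 : ℤ)] at hs
  generalize Fintype.card τ = N at hs hQ1 hQ2
  let c : Fin (N + 1) → br2_sub R := fun i => ⟨R.io ((N - i : ℕ) * m) (Q.coeff i), _, _,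
    (hs i (Nat.lt_succ_iff.1 i.2)).1, (hs i (Nat.lt_succ_iff.1 i.2)).2, rfl⟩
  refine ⟨∑ i : Fin (N + 1), Polynomial.monomial i (c i), fun h0 => ?_, ?_⟩
  · have h1 := congrArg (fun P => Polynomial.coeff P N) h0
    simp only [Polynomial.finsetSum_coeff, Polynomial.coeff_monomial, Polynomial.coeff_zero] at h1
    rw [Finset.sum_eq_single (Fin.last N), if_pos (Fin.val_last N)] at h1
    · have h2 := congrArg Subtype.val h1
      simp only [c, Fin.val_last, hQ1, Nat.sub_self, Nat.cast_zero, zero_mul, R.one] at h2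
      exact one_ne_zero h2
    · intro i _ hi
      exact if_neg fun e1 => hi (Fin.ext e1)
    · simp
  · have w : ∀ i : Fin (N + 1), (N * m : ℤ) = (N - i : ℕ) * m + (i : ℕ) * m := fun i => by
      rw [← add_mul, ← Nat.cast_add, Nat.sub_add_cancel (Nat.lt_succ_iff.1 i.2)]
    have hc : ∀ i : Fin (N + 1), M2 (4 * ((N - i : ℕ) * m)) (Q.coeff i) := fun i =>
      ⟨(hs i (Nat.lt_succ_iff.1 i.2)).1, (hs i (Nat.lt_succ_iff.1 i.2)).2.mono Gam2_le⟩
    have h1 : ∀ i ∈ (Finset.univ : Finset (Fin (N + 1))),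
        M2 (4 * (N * m)) (Q.coeff i * F ^ (i : ℕ)) := fun i _ => by
      rw [w i]
      exact br2_mul (hc i) (br2_pow hF i)
    rw [Polynomial.eval_eq_sum_range' hQ2, Finset.sum_range] at hQ0
    rw [← R.zero (N * m), ← hQ0, R.sum _ _ h1, map_sum]
    refine Finset.sum_congr rfl fun i _ => ?_
    rw [Polynomial.aeval_monomial, w i, R.mul _ _ _ _ (hc i) (br2_pow hF i), R.pow hF]
    rfl

/-- Apply `dep2_of_alg` to the subalgebra of the `io m F` with `Inv Gam (4 * m) F`. Two such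
elements are brought to one weight `4 N`, `N ≥ 0`; apply `X.arc.crv` to `ThF ^ N` and the two forms,
`BR.aeval`, `R.van`, `exists_dehomog`. For `b = io m F` expand `∏ t, (F - sl (rep t) F) = 0` over a
system `Trans Gam2 τ` (`exists_trans`); the elementary symmetric functions are invariant under `Gam`
by `perm`, and give a monic equation. -/
theorem BR.dep2 [IsDomain B] (R : BR X B) : Dep2 ℂ_[p] B :=
  dep2_of_alg (br2_sub R) (fun _ ha _ hb => br2_dep R ha hb) (br2_alg R)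

end Pool.Agent.E7
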