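import Mathlib

/-! Three equations that force integrality, and dependence of too many elements. -/

noncomputable section

namespace Pool.Agent.E7

/-- The valuative core: three equations bound three elements. -/
theorem cint_core {Γ : Type*} [LinearOrderedCommGroupWithZero Γ] {F : Type*} [Field F]
    (v : Valuation F Γ) (a b c α β γ b0 u1 u2 u3 r1 r2 : F)
    (hα : v α = 1) (hβ : v β ≤ 1) (hγ : v γ ≤ 1) (hb0 : v b0 ≤ 1)
    (hu1 : v u1 ≤ 1) (hu2 : v u2 ≤ 1) (hu3 : v u3 = 1)
    (hb : v b ≤ v a) (hc : v c ≤ v b) (hr1 : v r1 ≤ max 1 (v a)) (hr2 : v r2 ≤ max 1 (v a))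
    (e1 : α * a + β * b + γ * c = b0) (e2 : u1 * (b * c) + u2 * (a * c) + u3 * (a * b) = r1)
    (e3 : a * b * c = r2) : v a ≤ 1 := by
  by_contra h
  have h1 : 1 < v a := lt_of_not_ge h
  have h0 : 0 < v a := lt_trans zero_lt_one h1
  rw [max_eq_right h1.le] at hr1 hr2
  have hab : v b = v a := by
    refine le_antisymm hb (le_of_not_gt fun hlt => ?_)
    have e : α * a = b0 - β * b - γ * c := by rw [← e1]; ring
    have h2 : v (α * a) < v a := by
      rw [e]
      refine v.map_sub_lt (v.map_sub_lt (lt_of_le_of_lt hb0 h1) ?_) ?_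
      · rw [map_mul]
        exact lt_of_le_of_lt (mul_le_of_le_one_left' hβ) hlt
      · rw [map_mul]
        exact lt_of_le_of_lt (mul_le_of_le_one_left' hγ) (lt_of_le_of_lt hc hlt)
    rw [map_mul, hα, one_mul] at h2
    exact lt_irrefl _ h2
  have hac : v a * v c ≤ 1 := by
    have h2 : v a * (v a * v c) ≤ v a * 1 := by
      rw [mul_one]
      calc v a * (v a * v c) = v (a * b * c) := by rw [map_mul, map_mul, hab, mul_assoc]
        _ ≤ v a := by rw [e3]; exact hr2
    exact le_of_mul_le_mul_left h2 h0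
  have e : u3 * (a * b) = r1 - u1 * (b * c) - u2 * (a * c) := by rw [← e2]; ring
  have h3 : v (u3 * (a * b)) ≤ v a := by
    rw [e]
    refine v.map_sub_le (v.map_sub_le hr1 ?_) ?_
    · rw [map_mul, map_mul, hab]
      exact le_trans (mul_le_one' hu1 hac) h1.le
    · rw [map_mul, map_mul]
      exact le_trans (mul_le_one' hu2 hac) h1.le
  rw [map_mul, map_mul, hu3, one_mul, hab] at h3
  have h4 : v a * v a ≤ v a * 1 := by rwa [mul_one]
  exact h (le_of_mul_le_mul_left h4 h0)

/-- All three elements lie in every valuation ring that contains the coefficient field. -/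
theorem cint_val {Γ : Type*} [LinearOrderedCommGroupWithZero Γ] {F : Type*} [Field F]
    (v : Valuation F Γ) (l al y c e : Fin 3 → F) (b0 b1 b2 : F)
    (hal : ∀ i, v (al i) = 1) (hy : ∀ i, v (y i) = 1) (hc : ∀ i, v (c i) ≤ 1)
    (he : ∀ i, v (e i) ≤ 1) (hb0 : v b0 ≤ 1) (hb1 : v b1 ≤ 1) (hb2 : v b2 ≤ 1)
    (e1 : ∑ i, al i * l i = b0)
    (e2 : y 0 * (l 1 * l 2) + y 1 * (l 0 * l 2) + y 2 * (l 0 * l 1) = b1 + ∑ i, c i * l i)
    (e3 : l 0 * l 1 * l 2 = b2 + ∑ i, e i * l i) (i : Fin 3) : v (l i) ≤ 1 := by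
  have key : ∀ (M : Γ) (b : F) (d : Fin 3 → F), v b ≤ 1 → (∀ i, v (d i) ≤ 1) →
      (∀ i, v (l i) ≤ M) → v (b + ∑ i, d i * l i) ≤ max 1 M := by
    intro M b d hb hd hM
    refine v.map_add_le (le_trans hb (le_max_left _ _)) (v.map_sum_le fun j _ => ?_)
    rw [map_mul]
    exact le_trans (mul_le_of_le_one_left' (hd j)) (le_trans (hM j) (le_max_right _ _))
  rw [Fin.sum_univ_three] at e1
  have main : ∀ p q r : Fin 3, v (l q) ≤ v (l p) → v (l r) ≤ v (l q) →
      (∀ j, j = p ∨ j = q ∨ j = r) →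
      al p * l p + al q * l q + al r * l r = b0 →
      y p * (l q * l r) + y q * (l p * l r) + y r * (l p * l q) = b1 + ∑ i, c i * l i →
      l p * l q * l r = b2 + ∑ i, e i * l i → v (l i) ≤ 1 := by
    intro p q r h1 h2 h3 f1 f2 f3
    have hM : ∀ j, v (l j) ≤ v (l p) := by
      intro j
      rcases h3 j with rfl | rfl | rfl
      · exact le_rfl
      · exact h1
      · exact le_trans h2 h1
    exact le_trans (hM i) (cint_core v (l p) (l q) (l r) (al p) (al q) (al r) b0 (y p) (y q) (y r)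
      _ _ (hal p) (hal q).le (hal r).le hb0 (hy p).le (hy q).le (hy r) h1 h2
      (key _ b1 c hb1 hc hM) (key _ b2 e hb2 he hM) f1 f2 f3)
  rcases le_total (v (l 0)) (v (l 1)) with h01 | h01 <;>
    rcases le_total (v (l 0)) (v (l 2)) with h02 | h02 <;>
    rcases le_total (v (l 1)) (v (l 2)) with h12 | h12
  · exact main 2 1 0 h12 h01 (by decide) (by rw [← e1]; ring) (by rw [← e2]; ring)
      (by rw [← e3]; ring)
  · exact main 1 2 0 h12 h02 (by decide) (by rw [← e1]; ring) (by rw [← e2]; ring)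
      (by rw [← e3]; ring)
  · exact main 2 1 0 h12 h01 (by decide) (by rw [← e1]; ring) (by rw [← e2]; ring)
      (by rw [← e3]; ring)
  · exact main 1 0 2 h01 h02 (by decide) (by rw [← e1]; ring) (by rw [← e2]; ring)
      (by rw [← e3]; ring)
  · exact main 2 0 1 h02 h01 (by decide) (by rw [← e1]; ring) (by rw [← e2]; ring)
      (by rw [← e3]; ring)
  · exact main 0 1 2 h01 h12 (by decide) e1 e2 e3
  · exact main 0 2 1 h02 h12 (by decide) (by rw [← e1]; ring) (by rw [← e2]; ring)
      (by rw [← e3]; ring)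
  · exact main 0 1 2 h01 h12 (by decide) e1 e2 e3

/-- Three equations with top forms `∑ al i * l i`, `∑ y i * l j * l k`, `l 0 * l 1 * l 2` make the
`l i` algebraic over the field of the coefficients. -/
theorem integral3 {K F : Type*} [Field K] [Field F] [Algebra K F] (F1 : IntermediateField K F)
    (l al y c e : Fin 3 → F) (b0 b1 b2 : F)
    (hal : ∀ i, al i ∈ F1) (hal0 : ∀ i, al i ≠ 0) (hy : ∀ i, y i ∈ F1) (hy0 : ∀ i, y i ≠ 0)
    (hc : ∀ i, c i ∈ F1) (he : ∀ i, e i ∈ F1) (hb0 : b0 ∈ F1) (hb1 : b1 ∈ F1) (hb2 : b2 ∈ F1)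
    (e1 : ∑ i, al i * l i = b0)
    (e2 : y 0 * (l 1 * l 2) + y 1 * (l 0 * l 2) + y 2 * (l 0 * l 1) = b1 + ∑ i, c i * l i)
    (e3 : l 0 * l 1 * l 2 = b2 + ∑ i, e i * l i) (i : Fin 3) : IsAlgebraic F1 (l i) := by
  have h : l i ∈ (integralClosure (Subring.closure (F1 : Set F)) F).toSubring := by
    rw [← iInf_valuationSubring_superset, Subring.mem_iInf]
    rintro ⟨V, hV⟩
    have hle : ∀ x ∈ F1, V.valuation x ≤ 1 := fun x hx => (V.valuation_le_one_iff x).2 (hV hx)
    have heq : ∀ x ∈ F1, x ≠ 0 → V.valuation x = 1 := by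
      intro x hx h0
      refine le_antisymm (hle x hx) ?_
      have h1 := hle _ (F1.inv_mem hx)
      rw [map_inv₀] at h1
      exact (inv_le_one₀ (zero_lt_iff.2 ((map_ne_zero V.valuation).2 h0))).1 h1
    exact (V.valuation_le_one_iff _).1 (cint_val V.valuation l al y c e b0 b1 b2
      (fun j => heq _ (hal j) (hal0 j)) (fun j => heq _ (hy j) (hy0 j)) (fun j => hle _ (hc j))
      (fun j => hle _ (he j)) (hle _ hb0) (hle _ hb1) (hle _ hb2) e1 e2 e3 i)
  have h2 : IsIntegral (Subring.closure (F1 : Set F)) (l i) := h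
  have hs : ∀ x : Subring.closure (F1 : Set F), (x : F) ∈ F1 := fun x =>
    (Subring.closure_le (t := F1.toSubfield.toSubring)).2 (fun _ hx => hx) x.2
  let φ : Subring.closure (F1 : Set F) →+* F1 :=
    { toFun := fun x => ⟨x, hs x⟩
      map_one' := rfl
      map_mul' := fun _ _ => rfl
      map_zero' := rfl
      map_add' := fun _ _ => rfl }
  exact (IsIntegral.map_of_comp_eq φ (RingHom.id F) (by ext; rfl) h2).isAlgebraic

/-- More elements than generators, all algebraic over the generated field, are dependent. -/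
theorem dep_of_gen {K F : Type*} [Field K] [Field F] [Algebra K F] {σ τ : Type*} [Fintype σ]
    [Fintype τ] (g : σ → F) (w : τ → F) (hcard : Fintype.card σ < Fintype.card τ)
    (hw : ∀ t, IsAlgebraic (IntermediateField.adjoin K (Set.range g)) (w t)) :
    ¬ AlgebraicIndependent K w := by
  intro h
  have hi : (AlgebraicIndependent.matroid K F).Indep (Set.range w) :=
    AlgebraicIndependent.matroid_indep_iff.2 h.to_subtype_range
  have hsub : Set.range w ⊆ (AlgebraicIndependent.matroid K F).closure (Set.range g) := by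
    rintro _ ⟨t, rfl⟩
    rw [AlgebraicIndependent.matroid_closure_eq, SetLike.mem_coe, Subalgebra.mem_algebraicClosure]
    exact IntermediateField.isAlgebraic_adjoin_iff.1 (hw t)
  have h1 := hi.encard_le_eRk_of_subset hsub
  rw [Matroid.eRk_closure_eq] at h1
  have h2 := le_trans h1 (Matroid.eRk_le_encard _ _)
  replace h2 := le_trans h.injective.encard_range h2
  have h3 : (Set.range g).encard ≤ (Fintype.card σ : ℕ∞) := by
    rw [← Set.image_univ]
    refine le_trans (Set.encard_image_le _ _) ?_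
    simp
  have h4 := le_trans h2 h3
  simp only [ENat.card_eq_coe_fintype_card, Nat.cast_le] at h4
  omega

/-- The same, as a polynomial relation. -/
theorem exists_rel_of_gen {K F : Type*} [Field K] [Field F] [Algebra K F] {σ τ : Type*} [Fintype σ]
    [Fintype τ] (g : σ → F) (w : τ → F) (hcard : Fintype.card σ < Fintype.card τ)
    (hw : ∀ t, IsAlgebraic (IntermediateField.adjoin K (Set.range g)) (w t)) :
    ∃ P : MvPolynomial τ K, P ≠ 0 ∧ MvPolynomial.aeval w P = 0 := by
  have h := dep_of_gen g w hcard hw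
  rw [algebraicIndependent_iff] at h
  push Not at h
  obtain ⟨P, h1, h2⟩ := h
  exact ⟨P, h2, h1⟩

end Pool.Agent.E7
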