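import Pool.Agent.Lib.MP_7e5527_ag.E7.Krut

/-! Commensurability. -/

noncomputable section

namespace Pool.Agent.E7

/-- A system of representatives of `Δ \ Γ`. -/
structure Trans (Δ : Subgroup Gb) (τ : Type) where
  rep : τ → Gb
  mem : ∀ t, rep t ∈ Gam
  cover : ∀ g ∈ Gam, ∃ t, ∃ δ ∈ Δ, g = δ * rep t
  perm : ∀ g ∈ Gam, ∃ σ : τ ≃ τ, ∀ t, ∃ δ ∈ Δ, rep t * g = δ * rep (σ t)

theorem exists_trans {Δ : Subgroup Gb} (h : Δ ≤ Gam) (hi : Δ.relIndex Gam ≠ 0) :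
    ∃ (τ : Type) (_ : Fintype τ), Nonempty (Trans Δ τ) := by
  have key : ∀ (x : Gam) (t : Gam ⧸ Δ.subgroupOf Gam), QuotientGroup.mk x = t →
      ∃ δ ∈ Δ, ((x⁻¹ : Gam) : Gb) = δ * ((t.out⁻¹ : Gam) : Gb) := by
    rintro x _ rfl
    obtain ⟨δ, hδ⟩ := QuotientGroup.mk_out_eq_mul (Δ.subgroupOf Gam) x
    exact ⟨δ.1, δ.2, by rw [hδ]; simp⟩
  refine ⟨Gam ⧸ Δ.subgroupOf Gam, Subgroup.fintypeOfIndexNeZero hi,
    ⟨⟨fun t => ((t.out⁻¹ : Gam) : Gb), fun t => (t.out⁻¹ : Gam).2, fun g hg => ?_, fun g hg => ?_⟩⟩⟩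
  · exact ⟨_, by simpa using key (⟨g, hg⟩ : Gam)⁻¹ _ rfl⟩
  · refine ⟨MulAction.toPerm (⟨g, hg⟩ : Gam)⁻¹, fun t => ?_⟩
    simpa using key _ _ (MulAction.Quotient.mk_smul_out (Δ.subgroupOf Gam) (⟨g, hg⟩ : Gam)⁻¹ t)

/-- Integral coordinates. -/
abbrev comm_A : Type := ℤ × (Ix → ℤ) × (Ix → ℤ) × ℤ

/-- The lattice vector with given coordinates. -/
def comm_φ : comm_A →+ W :=
  AddMonoidHom.mk' (fun a => (a.1, toR ℂ (vec a.2.1), toR ℂ (vec a.2.2.1), a.2.2.2)) fun a b => by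
    simp [vec_add, toR_add]

theorem comm_mem {v : W} : v ∈ WZ ↔ v ∈ comm_φ.range := by
  constructor
  · rintro ⟨⟨a, ha⟩, ⟨T, hT, hb⟩, ⟨T', hT', hc⟩, d, hd⟩
    rw [← range_vec] at hT hT'
    obtain ⟨m, rfl⟩ := hT
    obtain ⟨m', rfl⟩ := hT'
    exact ⟨(a, m, m', d), Prod.ext ha.symm (Prod.ext hb.symm (Prod.ext hc.symm hd.symm))⟩
  · rintro ⟨a, rfl⟩
    exact ⟨⟨_, rfl⟩, ⟨_, vec_mem _, rfl⟩, ⟨_, vec_mem _, rfl⟩, _, rfl⟩

theorem comm_fg : AddGroup.FG comm_A := Module.Finite.iff_addGroup_fg.1 inferInstance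

theorem comm_nsmul {v : W} (h : v ∈ WZ) (n : ℕ) : (n : ℂ) • v ∈ WZ := by
  rw [comm_mem] at h ⊢
  rw [Nat.cast_smul_eq_nsmul]
  exact nsmul_mem h n

theorem comm_add {v w : W} (h : v ∈ WZ) (h' : w ∈ WZ) : v + w ∈ WZ :=
  comm_mem.2 (add_mem (comm_mem.1 h) (comm_mem.1 h'))

theorem comm_sub {v w : W} (h : v ∈ WZ) (h' : w ∈ WZ) : v - w ∈ WZ :=
  comm_mem.2 (sub_mem (comm_mem.1 h) (comm_mem.1 h'))

theorem exists_den_G {g : Gb} (hg : g ∈ GG) : ∃ M : ℕ, 0 < M ∧ ∀ v ∈ WZ, (M : ℂ) • g v ∈ WZ := by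
  obtain ⟨S, hS⟩ := comm_fg.out
  choose M h0 hM using fun a : comm_A => exists_den_W (WQ_map hg (WZ_sub (comm_mem.2 ⟨a, rfl⟩)))
  refine ⟨∏ a ∈ S, M a, Finset.prod_pos fun a _ => h0 a, fun v hv => ?_⟩
  obtain ⟨a, rfl⟩ := comm_mem.1 hv
  have ha : a ∈ AddSubgroup.closure (S : Set comm_A) := hS ▸ AddSubgroup.mem_top a
  induction ha using AddSubgroup.closure_induction with
  | mem a ha =>
    obtain ⟨k, hk⟩ := Finset.dvd_prod_of_mem M ha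
    rw [hk, Nat.cast_mul, mul_comm, mul_smul]
    exact comm_nsmul (hM a) k
  | zero => simpa using comm_mem.2 (zero_mem _)
  | add a b _ _ iha ihb =>
    rw [map_add, map_add, smul_add]
    exact comm_add (iha (comm_mem.2 ⟨a, rfl⟩)) (ihb (comm_mem.2 ⟨b, rfl⟩))
  | neg a _ iha =>
    rw [map_neg, map_neg, smul_neg]
    exact comm_mem.2 (neg_mem (comm_mem.1 (iha (comm_mem.2 ⟨a, rfl⟩))))

theorem comm_reps {N : ℕ} (hN : N ≠ 0) : ∃ (Q : Type) (_ : Finite Q) (r : Q → W),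
    ∀ v ∈ WZ, ∃ q, ∃ b ∈ WZ, r q = v + (N : ℂ) • b := by
  have := comm_fg
  have := AddSubgroup.finiteIndex_range_nsmulAddMonoidHom_of_fg comm_A hN
  refine ⟨comm_A ⧸ (nsmulAddMonoidHom (α := comm_A) N).range, inferInstance,
    fun q => comm_φ q.out, fun v hv => ?_⟩
  obtain ⟨a, rfl⟩ := comm_mem.1 hv
  obtain ⟨⟨_, b, rfl⟩, hb⟩ :=
    QuotientAddGroup.mk_out_eq_add (nsmulAddMonoidHom (α := comm_A) N).range a
  refine ⟨QuotientAddGroup.mk a, comm_φ b, comm_mem.2 ⟨b, rfl⟩, ?_⟩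
  beta_reduce
  rw [hb, map_add, Nat.cast_smul_eq_nsmul, ← map_nsmul]
  rfl

/-- The lattices `(g γ)⁻¹ WZ` lie between `M WZ` and `M⁻¹ WZ`; there are finitely many of them
(`WZ` is a finitely generated group); equal lattices give equal cosets by `mem_Gam_of_WZ`. -/
theorem double_coset {g : Gb} (hg : g ∈ GG) : ∃ s : Finset Gb, (∀ x ∈ s, x ∈ GG) ∧
    ∀ γ ∈ Gam, ∃ γ' ∈ Gam, ∃ x ∈ s, g * γ = γ' * x := by
  classical
  obtain ⟨M, h0, hM⟩ := exists_den_G hg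
  obtain ⟨M', h0', hM'⟩ := exists_den_G (inv_mem hg)
  obtain ⟨Q, _, r, hr⟩ := comm_reps (mul_pos h0' h0).ne'
  have hc : (M' : ℂ) ≠ 0 := Nat.cast_ne_zero.2 h0'.ne'
  let F : Gam → Q → Prop := fun γ q => (g * γ.1) ((M' : ℂ)⁻¹ • r q) ∈ WZ
  have key : ∀ γ γ' : Gam, F γ = F γ' → ∀ v, (g * γ.1) v ∈ WZ → (g * γ'.1) v ∈ WZ := by
    intro γ γ' e v hv
    have h1 : (M' : ℂ) • v ∈ WZ := by
      have := WZ_map (inv_mem γ.2) (hM' _ hv)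
      simpa using this
    obtain ⟨q, b, hb, hq⟩ := hr _ h1
    have h2 : ∀ γ : Gam, (g * γ.1) ((M' : ℂ)⁻¹ • r q) = (g * γ.1) v + (M : ℂ) • g (γ.1 b) := by
      intro γ
      rw [hq, smul_add, inv_smul_smul₀ hc, Nat.cast_mul, mul_smul, inv_smul_smul₀ hc, map_add,
        map_smul]
      rfl
    have h3 : F γ q := by
      change (g * γ.1) _ ∈ WZ
      rw [h2]
      exact comm_add hv (hM _ (WZ_map γ.2 hb))
    have h4 : (g * γ'.1) ((M' : ℂ)⁻¹ • r q) ∈ WZ := (e ▸ h3 : F γ' q)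
    rw [h2] at h4
    simpa using comm_sub h4 (hM _ (WZ_map γ'.2 hb))
  have := Fintype.ofFinite (Q → Prop)
  refine ⟨Finset.univ.image fun y => g * (Function.invFun F y).1, fun x hx => ?_, fun γ hγ => ?_⟩
  · obtain ⟨y, -, rfl⟩ := Finset.mem_image.1 hx
    exact mul_mem hg (Gam_le (Function.invFun F y).2)
  · have e : F (Function.invFun F (F ⟨γ, hγ⟩)) = F ⟨γ, hγ⟩ := Function.invFun_eq ⟨_, rfl⟩
    refine ⟨g * γ * (g * (Function.invFun F (F ⟨γ, hγ⟩)).1)⁻¹, ?_, _,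
      Finset.mem_image_of_mem _ (Finset.mem_univ (F ⟨γ, hγ⟩)), by group⟩
    generalize Function.invFun F (F ⟨γ, hγ⟩) = γ' at e
    refine mem_Gam_of_WZ (mul_mem (mul_mem hg (Gam_le hγ)) (inv_mem (mul_mem hg (Gam_le γ'.2))))
      fun v => ⟨fun hv => ?_, fun hv => ?_⟩
    · simpa using key _ _ e.symm ((g * γ'.1)⁻¹ v) hv
    · exact key _ _ e ((g * γ'.1)⁻¹ v) (by simpa using hv)

/-- A subgroup of finite index that is normal in `Gam` and is moved into the core of `Δ` by `g`.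
From `double_coset`, the elements `δ` of `Gam` with `g δ g⁻¹ ∈ Gam` form a subgroup of finite
index; pull back the normal core of `Δ`, take the normal core again. -/
theorem exists_level {Δ : Subgroup Gb} (h : Δ ≤ Gam) (hi : Δ.relIndex Gam ≠ 0) {g : Gb}
    (hg : g ∈ GG) : ∃ Δ' : Subgroup Gb, Δ' ≤ Gam ∧ Δ'.relIndex Gam ≠ 0 ∧
      ∀ δ ∈ Δ', ∀ γ ∈ Gam, ∀ γ1 ∈ Gam, γ1 * g * γ * δ * (γ1 * g * γ)⁻¹ ∈ Δ := by
  obtain ⟨s, -, hs⟩ := double_coset hg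
  obtain ⟨τ, _, ⟨T⟩⟩ := exists_trans h hi
  let O : Set (Gb ⧸ Δ) := {o | ∃ γ ∈ Gam, ∃ γ1 ∈ Gam, o = QuotientGroup.mk (γ1 * g * γ)⁻¹}
  have hO : O.Finite := by
    refine ((s.finite_toSet.prod (Set.toFinite (Set.univ : Set τ))).image
      fun p => (QuotientGroup.mk (T.rep p.2 * p.1)⁻¹ : Gb ⧸ Δ)).subset ?_
    rintro _ ⟨γ, hγ, γ1, h1, rfl⟩
    obtain ⟨γ', hγ', x, hx, e⟩ := hs γ hγ
    obtain ⟨t, δ, hδ, e'⟩ := T.cover _ (mul_mem h1 hγ')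
    refine ⟨(x, t), ⟨hx, trivial⟩, QuotientGroup.eq.2 ?_⟩
    rw [mul_assoc γ1, e, ← mul_assoc γ1, e']
    simpa [mul_assoc] using hδ
  have := hO.to_subtype
  refine ⟨Gam ⊓ ⨅ o : O, MulAction.stabilizer Gb o.1, inf_le_left, ?_, fun δ hδ γ hγ γ1 h1 => ?_⟩
  · rw [Subgroup.inf_relIndex_left]
    refine Subgroup.relIndex_iInf_ne_zero ?_
    rintro ⟨_, γ, hγ, γ1, h1, rfl⟩
    change (MulAction.stabilizer Gam (QuotientGroup.mk (γ1 * g * γ)⁻¹ : Gb ⧸ Δ)).index ≠ 0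
    rw [MulAction.index_stabilizer]
    refine Set.ncard_ne_zero_of_mem (MulAction.mem_orbit_self _) (hO.subset ?_)
    rintro _ ⟨δ, rfl⟩
    refine ⟨γ * δ.1⁻¹, mul_mem hγ (inv_mem δ.2), γ1, h1, ?_⟩
    change (QuotientGroup.mk (δ.1 * (γ1 * g * γ)⁻¹) : Gb ⧸ Δ) = _
    rw [← mul_assoc, mul_inv_rev _ δ.1⁻¹, inv_inv]
  · have h2 : (QuotientGroup.mk (δ * (γ1 * g * γ)⁻¹) : Gb ⧸ Δ) = QuotientGroup.mk (γ1 * g * γ)⁻¹ :=
      Subgroup.mem_iInf.1 hδ.2 ⟨_, γ, hγ, γ1, h1, rfl⟩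
    have h3 := QuotientGroup.eq.1 h2.symm
    rwa [inv_inv, ← mul_assoc] at h3

end Pool.Agent.E7
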