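import Pool.Agent.Lib.MP_7e5527_ag.E7.Lin

/-! The cone of positive definite matrices. -/

noncomputable section

namespace Pool.Agent.E7

section Jac

variable {R : Type} [CommRing R] (d0 d1 d2 : R) (u0 u1 u2 u : Fin 8 → R)

theorem cone_oc0 : oc (jac d0 d1 d2 u0 u1 u2) 0 = d0 • oconj (omul u1 u2) + d1 • u0 := by
  simp [jac, v0, v1, ed]
theorem cone_oc1 : oc (jac d0 d1 d2 u0 u1 u2) 1 = d0 • u1 := by
  simp [jac, v0, v1, ed]
theorem cone_oc2 : oc (jac d0 d1 d2 u0 u1 u2) 2 = d0 • u2 := by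
  simp [jac, v0, v1, ed]
theorem dg_jac_0 : dg (jac d0 d1 d2 u0 u1 u2) 0 = d0 := by
  simp [jac, v0, v1, ed]
theorem dg_jac_1 : dg (jac d0 d1 d2 u0 u1 u2) 1 = d1 + d0 * onorm u2 := by
  simp [jac, v0, v1, ed, add_comm]
theorem dg_jac_2 : dg (jac d0 d1 d2 u0 u1 u2) 2 = d2 + d1 * onorm u0 + d0 * onorm u1 := by
  simp [jac, v0, v1, ed]
  ring
theorem dg_sharp_jac_2 : dg (sharp (jac d0 d1 d2 u0 u1 u2)) 2 = d0 * d1 := by
  rw [dg_sharp_2, dg_jac_0, dg_jac_1, cone_oc2, onorm_smul]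
  ring
theorem dg_sharp_jac_1 :
    dg (sharp (jac d0 d1 d2 u0 u1 u2)) 1 = d0 * (d2 + d1 * onorm u0) := by
  rw [dg_sharp_1, dg_jac_0, dg_jac_2, cone_oc1, onorm_smul]
  ring
theorem nrm_jac : nrm (jac d0 d1 d2 u0 u1 u2) = d0 * d1 * d2 := by
  have h (x : Fin 8 → R) : oip (omul x u1) (oconj u2) = oip (oconj (omul u1 u2)) x := by
    rw [← two_mul_omul_0, omul_cyc_0, two_mul_omul_0, oip_oconj_left]
  rw [nrm_eq, dg_jac_0, dg_jac_1, dg_jac_2, cone_oc0, cone_oc1, cone_oc2]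
  simp only [onorm_add, onorm_smul, omul_smul_right, oconj_smul, oip_smul_left, oip_smul_right, h,
    oip_add_right, oip_self, onorm_oconj, onorm_omul]
  ring
theorem elm_jac : elm u (jac d0 d1 d2 u0 u1 u2) =
    jac d0 d1 d2 (u0 + oconj u) (u1 + omul u (oconj u2)) u2 := by
  apply jext <;> simp only [elm, dg_mkJ, oc_mkJ, Matrix.cons_val_zero, Matrix.cons_val_one,
    Matrix.cons_val, dg_jac_0, dg_jac_1, dg_jac_2, cone_oc0, cone_oc1, cone_oc2]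
  · simp only [oconj_add, oconj_smul, oconj_oconj, oip_add_right, oip_smul_right, onorm_add,
      onorm_oconj, onorm_omul]
    rw [oip_comm u1, oip_omul_right, oconj_oconj, oip_comm u0, oip_oconj_left]
    ring
  · rw [omul_add_left, mul_conj_mul', oconj_add, oconj_smul]
    module
  · rw [oconj_smul, omul_smul_right]
    module
theorem elm10_jac : cyc (cyc (elm u (cyc (jac d0 d1 d2 u0 u1 u2)))) =
    jac d0 d1 d2 u0 u1 (u2 + oconj u) := by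
  apply jext <;> simp only [elm, cyc, dg_mkJ, oc_mkJ, Matrix.cons_val_zero, Matrix.cons_val_one,
    Matrix.cons_val, dg_jac_0, dg_jac_1, dg_jac_2, cone_oc0, cone_oc1, cone_oc2]
  · simp only [oconj_smul, oip_smul_right, onorm_add, onorm_oconj]
    rw [oip_comm u2, oip_oconj_left]
    ring
  · rw [omul_add_right, oconj_add, oconj_omul u1 (oconj u), oconj_oconj, oconj_smul,
      omul_smul_right]
    module
  · module
theorem elm20_jac : swp (cyc (cyc (elm u (cyc (swp (jac d0 d1 d2 u0 u1 u2)))))) =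
    jac d0 d1 d2 u0 (u1 + u) u2 := by
  apply jext <;> simp only [elm, cyc, swp, dg_mkJ, oc_mkJ, Matrix.cons_val_zero,
    Matrix.cons_val_one, Matrix.cons_val, dg_jac_0, dg_jac_1, dg_jac_2, cone_oc0, cone_oc1,
    cone_oc2, oconj_add, oconj_smul, oconj_oconj]
  · simp only [oip_smul_right, onorm_add]
    rw [oip_comm u1]
    ring
  · rw [omul_add_left, oconj_add, omul_smul_right, oconj_smul]
    module
  · module

end Jac

theorem cone_all {Y : Ix → ℝ} (h : Y ∈ Om) : 0 < dg Y 1 ∧ 0 < dg Y 2 ∧ 0 < dg (sharp Y) 0 ∧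
    0 < dg (sharp Y) 1 := by
  obtain ⟨h0, h1, h2⟩ := h
  have e0 := dg_sharp_0 (sharp Y)
  have e1 := dg_sharp_1 (sharp Y)
  rw [sharp_sharp, dg_smul] at e0 e1
  have a1 : 0 < dg Y 1 := (pos_iff_pos_of_mul_pos (a := dg Y 0) (by
    linarith [dg_sharp_2 Y, onorm_nonneg (oc Y 2)])).1 h0
  have a2 : 0 < dg (sharp Y) 1 := (pos_iff_pos_of_mul_pos (b := dg (sharp Y) 2) (by
    linarith [mul_pos h2 h0, onorm_nonneg (oc (sharp Y) 0)])).2 h1
  have a3 : 0 < dg (sharp Y) 0 := (pos_iff_pos_of_mul_pos (a := dg (sharp Y) 2) (by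
    linarith [mul_pos h2 a1, onorm_nonneg (oc (sharp Y) 1)])).1 h1
  exact ⟨a1, (pos_iff_pos_of_mul_pos (b := dg Y 0) (by
    linarith [dg_sharp_1 Y, onorm_nonneg (oc Y 1)])).2 h0, a3, a2⟩

/-- Use `sharp_sharp`: `s1 s2 - N = nrm * y0` and so on. -/
theorem Om.dg_pos {Y : Ix → ℝ} (h : Y ∈ Om) (i : Fin 3) : 0 < dg Y i := by
  obtain ⟨h0, h1, -⟩ := cone_all h
  fin_cases i
  exacts [h.1, h0, h1]
theorem Om.dg_sharp_pos {Y : Ix → ℝ} (h : Y ∈ Om) (i : Fin 3) : 0 < dg (sharp Y) i := by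
  obtain ⟨-, -, h0, h1⟩ := cone_all h
  fin_cases i
  exacts [h0, h1, h.2.1]
theorem cyc_mem_Om (Y : Ix → ℝ) : cyc Y ∈ Om ↔ Y ∈ Om := by
  have key : ∀ Y ∈ Om, cyc Y ∈ Om := fun Y h =>
    ⟨Om.dg_pos h 2, by rw [sharp_cyc]; exact Om.dg_sharp_pos h 1, by rw [nrm_cyc]; exact h.2.2⟩
  exact ⟨fun h => cyc_cyc_cyc Y ▸ key _ (key _ h), key Y⟩
theorem swp_mem_Om (Y : Ix → ℝ) : swp Y ∈ Om ↔ Y ∈ Om := by
  have key : ∀ Y ∈ Om, swp Y ∈ Om := fun Y h =>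
    ⟨h.1, by rw [sharp_swp]; exact Om.dg_sharp_pos h 1, by rw [nrm_swp]; exact h.2.2⟩
  exact ⟨fun h => swp_swp Y ▸ key _ h, key Y⟩
theorem elm_mem_Om (u : Fin 8 → ℝ) (Y : Ix → ℝ) : elm u Y ∈ Om ↔ Y ∈ Om := by
  have h0 : dg (elm u Y) 0 = dg Y 0 := rfl
  have h1 : dg (sharp (elm u Y)) 2 = dg (sharp Y) 2 := by
    simp only [dg_sharp_2, elm, dg_mkJ, oc_mkJ, Matrix.cons_val_zero, Matrix.cons_val_one,
      Matrix.cons_val]
  simp only [Om, Set.mem_ofPred_eq, h0, h1, nrm_elm]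
theorem isOpen_Om : IsOpen Om := by
  have h2 : Continuous fun Y : Ix → ℝ => dg (sharp Y) 2 := by
    simp only [dg_sharp_2]
    simp only [onorm_eq, dg, oc]
    fun_prop
  have h3 : Continuous fun Y : Ix → ℝ => nrm Y := by
    simp only [nrm_eq, onorm_eq, oip_eq, omul_0, omul_1, omul_2, omul_3, omul_4, omul_5, omul_6,
      omul_7, oconj_0, oconj_1, oconj_2, oconj_3, oconj_4, oconj_5, oconj_6, oconj_7, dg, oc]
    fun_prop
  exact (isOpen_lt continuous_const (continuous_apply _)).inter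
    ((isOpen_lt continuous_const h2).inter (isOpen_lt continuous_const h3))
theorem Om.smul {Y : Ix → ℝ} (h : Y ∈ Om) {c : ℝ} (hc : 0 < c) : c • Y ∈ Om := by
  refine ⟨mul_pos hc h.1, ?_, ?_⟩
  · rw [sharp_smul]
    exact mul_pos (pow_pos hc 2) h.2.1
  · rw [nrm_smul]
    exact mul_pos (pow_pos hc 3) h.2.2
theorem jac_mem {d0 d1 d2 : ℝ} (h0 : 0 < d0) (h1 : 0 < d1) (h2 : 0 < d2) (u0 u1 u2 : Fin 8 → ℝ) :
    jac d0 d1 d2 u0 u1 u2 ∈ Om := by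
  refine ⟨by rwa [dg_jac_0], ?_, ?_⟩
  · rw [dg_sharp_jac_2]
    positivity
  · rw [nrm_jac]
    positivity

/-- `d0 = y0`, `u1 = x1 / y0`, `u2 = x2 / y0`, `d1 = s2 / y0`, `u0 = - oc (sharp Y) 0 / s2`,
`d2 = nrm Y / s2` where `s2 = dg (sharp Y) 2`; the last diagonal entry is checked with
`sharp_sharp`. -/
theorem exists_jac {Y : Ix → ℝ} (h : Y ∈ Om) : ∃ (d0 d1 d2 : ℝ) (u0 u1 u2 : Fin 8 → ℝ),
    0 < d0 ∧ 0 < d1 ∧ 0 < d2 ∧ Y = jac d0 d1 d2 u0 u1 u2 := by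
  obtain ⟨h0, h1, h2⟩ := h
  have e0 := dg_sharp_0 (sharp Y)
  rw [sharp_sharp, dg_smul, dg_sharp_1] at e0
  have e2 := dg_sharp_2 Y
  refine ⟨dg Y 0, dg (sharp Y) 2 / dg Y 0, nrm Y / dg (sharp Y) 2,
    -(dg (sharp Y) 2)⁻¹ • oc (sharp Y) 0, (dg Y 0)⁻¹ • oc Y 1, (dg Y 0)⁻¹ • oc Y 2, h0,
    div_pos h1 h0, div_pos h2 h1, jext ?_ ?_ ?_ ?_ ?_ ?_⟩
  · rw [dg_jac_0]
  · rw [dg_jac_1, onorm_smul]
    field_simp
    linarith
  · rw [dg_jac_2, onorm_smul, onorm_smul]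
    field_simp
    linarith
  · rw [cone_oc0, omul_smul_left, omul_smul_right, oconj_smul, oconj_smul, oc_sharp_0]
    match_scalars <;> field_simp
    ring
  · rw [cone_oc1, smul_inv_smul₀ h0.ne']
  · rw [cone_oc2, smul_inv_smul₀ h0.ne']

theorem Sieg_sub : Sieg ⊆ Om := by
  rintro _ ⟨d0, d1, d2, u0, u1, u2, h0, h1, h2, -, -, -, rfl⟩
  exact jac_mem h0 (by linarith) (by linarith) _ _ _
theorem exists_sub_one3 {Y : Ix → ℝ} (h : Y ∈ Om) : ∃ ε : ℝ, 0 < ε ∧ Y - ε • one3 ∈ Om := by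
  have h1 : Continuous fun ε : ℝ => Y - ε • (one3 : Ix → ℝ) := by fun_prop
  have h2 : ∀ᶠ ε in nhds (0 : ℝ), Y - ε • one3 ∈ Om :=
    h1.continuousAt.eventually_mem (isOpen_Om.mem_nhds (by simpa using h))
  obtain ⟨ε, h3, h4⟩ := ((h2.filter_mono nhdsWithin_le_nhds).and
    (self_mem_nhdsWithin (s := Set.Ioi (0 : ℝ)))).exists
  exact ⟨ε, h4, h3⟩
theorem eventually_add_one3 (Y : Ix → ℝ) :
    ∀ᶠ s : ℝ in Filter.atTop, Y + s • one3 ∈ Om := by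
  have h1 : Continuous fun ε : ℝ => one3 + ε • Y := by fun_prop
  have h2 : ∀ᶠ ε in nhds (0 : ℝ), one3 + ε • Y ∈ Om :=
    h1.continuousAt.eventually_mem (isOpen_Om.mem_nhds (by simpa using one3_mem))
  filter_upwards [tendsto_inv_atTop_zero.eventually h2, Filter.eventually_gt_atTop 0] with s h3 h4
  have h5 := Om.smul h3 h4
  rwa [smul_add, smul_inv_smul₀ h4.ne', add_comm] at h5

/-- Cauchy-Schwarz (`oip_sq_le`) in a two by two block. -/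
theorem Om.block {Y : Ix → ℝ} (h : Y ∈ Om) (i : Fin 3) {s t : ℝ} (hs : 0 ≤ s) (ht : 0 ≤ t)
    {x : Fin 8 → ℝ} (hx : onorm x ≤ s * t) :
    0 ≤ s * dg Y (i + 1) + t * dg Y (i + 2) + oip x (oc Y i) := by
  have h1 := Om.dg_pos h (i + 1)
  have h2 := Om.dg_pos h (i + 2)
  have h3 : 0 < dg Y (i + 1) * dg Y (i + 2) - onorm (oc Y i) := Om.dg_sharp_pos h i
  have h4 := mul_le_mul hx (sub_pos.1 h3).le (onorm_nonneg _) (mul_nonneg hs ht)
  have h5 := abs_le_of_sq_le_sq' (a := oip x (oc Y i)) (b := s * dg Y (i + 1) + t * dg Y (i + 2))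
    (by nlinarith [oip_sq_le x (oc Y i), sq_nonneg (s * dg Y (i + 1) - t * dg Y (i + 2))])
    (by positivity)
  linarith [h5.1]

theorem cone_unit {A B : Matrix Ix Ix ℚ} (h : ∀ Z : Ix → ℚ, lin B (lin A Z) = Z) :
    IsUnit A.det :=
  Matrix.isUnit_det_of_left_inverse (B := B)
    (lin_ext (F := ℚ) fun Z => by rw [lin_mul, h, lin_one])

theorem isSim_cyc : IsSim (matOf cyc) 1 := by
  refine ⟨cone_unit (B := matOf cyc * matOf cyc) fun Z => ?_, fun Z => ?_, fun Y => ?_⟩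
  · rw [lin_mul, lin_cyc, lin_cyc, lin_cyc, cyc_cyc_cyc]
  · rw [lin_cyc, nrm_cyc, Rat.cast_one, one_mul]
  · rw [lin_cyc, cyc_mem_Om]
theorem isSim_swp : IsSim (matOf swp) 1 := by
  refine ⟨cone_unit (B := matOf swp) fun Z => ?_, fun Z => ?_, fun Y => ?_⟩
  · rw [lin_swp, lin_swp, swp_swp]
  · rw [lin_swp, nrm_swp, Rat.cast_one, one_mul]
  · rw [lin_swp, swp_mem_Om]
theorem isSim_elm (u : Fin 8 → ℚ) : IsSim (matOf (elm u)) 1 := by
  refine ⟨cone_unit (B := matOf (elm (-u))) fun Z => ?_, fun Z => ?_, fun Y => ?_⟩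
  · simp only [lin_elm, Rat.cast_id]
    exact elm_neg_elm u Z
  · rw [lin_elm, nrm_elm, Rat.cast_one, one_mul]
  · rw [lin_elm, elm_mem_Om]

end Pool.Agent.E7
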