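import Mathlib

/-! Definitions used in the statement: octonions, the exceptional Jordan algebra, the tube domain
of type E7, modular forms for the group of Baily, Hecke orbits and Tate points. -/

noncomputable section

namespace Pool.Agent.E7

open scoped Quaternion

/-- Coordinates of a Hermitian 3 by 3 octonion matrix: three diagonal entries, three octonions. -/
abbrev Ix : Type := Fin 3 ⊕ Fin 3 × Fin 8

section Alg

variable {R : Type} [CommRing R]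

/-- First quaternion half of an octonion. -/
def q1 (x : Fin 8 → R) : ℍ[R] := ⟨x 0, x 1, x 2, x 3⟩

/-- Second quaternion half of an octonion. -/
def q2 (x : Fin 8 → R) : ℍ[R] := ⟨x 4, x 5, x 6, x 7⟩

/-- The octonion with given halves. -/
def ofQ (a b : ℍ[R]) : Fin 8 → R :=
  ![a.re, a.imI, a.imJ, a.imK, b.re, b.imI, b.imJ, b.imK]

/-- Octonion product (Cayley-Dickson): `(a, b) (c, d) = (a c - d* b, d a + b c*)`. -/
def omul (x y : Fin 8 → R) : Fin 8 → R :=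
  ofQ (q1 x * q1 y - star (q2 y) * q2 x) (q2 y * q1 x + q2 x * star (q1 y))

/-- Octonion conjugation. -/
def oconj (x : Fin 8 → R) : Fin 8 → R := fun k => if k = 0 then x k else -x k

/-- Octonion norm. -/
def onorm (x : Fin 8 → R) : R := ∑ k, x k ^ 2

/-- Diagonal entries. -/
def dg (Z : Ix → R) (i : Fin 3) : R := Z (.inl i)

/-- Off diagonal entries. -/
def oc (Z : Ix → R) (i : Fin 3) : Fin 8 → R := fun k => Z (.inr (i, k))

/-- The cubic norm (determinant). -/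
def nrm (Z : Ix → R) : R :=
  dg Z 0 * dg Z 1 * dg Z 2 - ∑ i, dg Z i * onorm (oc Z i) +
    2 * omul (omul (oc Z 0) (oc Z 1)) (oc Z 2) 0

/-- The adjoint `Z#`. -/
def sharp (Z : Ix → R) : Ix → R :=
  Sum.elim (fun i => dg Z (i + 1) * dg Z (i + 2) - onorm (oc Z i))
    fun a => oconj (omul (oc Z (a.1 + 1)) (oc Z (a.1 + 2))) a.2 - dg Z a.1 * oc Z a.1 a.2

/-- The trace form. -/
def tr (T Z : Ix → R) : R := ∑ i, dg T i * dg Z i + 2 * ∑ i, ∑ k, oc T i k * oc Z i k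

end Alg

/-- A rational point seen over `R`. -/
def toR (R : Type) [DivisionRing R] (T : Ix → ℚ) : Ix → R := fun l => (T l : R)

/-- A rational matrix acting on points over `R`. -/
def lin {R : Type} [Field R] (A : Matrix Ix Ix ℚ) (Z : Ix → R) : Ix → R :=
  (A.map fun a => (a : R)).mulVec Z

/-- The cone of positive definite matrices (positive leading minors). -/
def Om : Set (Ix → ℝ) := {Y | 0 < dg Y 0 ∧ 0 < dg (sharp Y) 2 ∧ 0 < nrm Y}

/-- The tube domain. -/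
def HH : Set (Ix → ℂ) := {Z | (fun l => (Z l).im) ∈ Om}

/-- The integral octonions of Coxeter. -/
def OZ (x : Fin 8 → ℚ) : Prop :=
  (∀ k, ∃ n : ℤ, 2 * x k = n) ∧ (∃ n : ℤ, x 0 + x 1 + x 2 + x 3 = n) ∧
    (∃ n : ℤ, x 0 + x 1 + x 4 + x 5 = n) ∧ (∃ n : ℤ, x 0 + x 2 + x 4 + x 7 = n) ∧
    ∃ n : ℤ, x 4 + x 5 + x 6 + x 7 = n

/-- The lattice `J(ℤ)`. -/
def Lam : Set (Ix → ℚ) := {T | (∀ i, ∃ n : ℤ, dg T i = n) ∧ ∀ i, OZ (oc T i)}

/-- Positive semidefinite. -/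
def Psd (T : Ix → ℚ) : Prop := ∀ Y ∈ Om, 0 ≤ tr (toR ℝ T) Y

/-- Rational similitudes of the norm, with factor `c`, that preserve the cone. -/
def IsSim (A : Matrix Ix Ix ℚ) (c : ℚ) : Prop :=
  IsUnit A.det ∧ (∀ Z : Ix → ℂ, nrm (lin A Z) = c * nrm Z) ∧ ∀ Y : Ix → ℝ, lin A Y ∈ Om ↔ Y ∈ Om

/-- The inversion `-Z⁻¹`. -/
def inv (Z : Ix → ℂ) : Ix → ℂ := -(nrm Z)⁻¹ • sharp Z

/-- `F` is a modular form of weight `k` for the group of Baily, with Fourier coefficients `a`. -/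
def IsMF (k : ℤ) (F : (Ix → ℂ) → ℂ) (a : (Ix → ℚ) → ℂ) : Prop :=
  (∀ T, a T ≠ 0 → T ∈ Lam ∧ Psd T) ∧
  (∃ s : Finset ℂ, ∀ T, a T ∈ Submodule.span ℤ (s : Set ℂ)) ∧
  (∀ Z ∈ HH, HasSum (fun T => a T * Complex.exp (2 * Real.pi * Complex.I * tr (toR ℂ T) Z)) (F Z)) ∧
  (∀ A, IsSim A 1 → (∀ T, lin A T ∈ Lam ↔ T ∈ Lam) → ∀ Z ∈ HH, F (lin A Z) = F Z) ∧
  ∀ Z ∈ HH, F (inv Z) = nrm Z ^ k * F Z

/-- Same point of `Proj` of the ring of modular forms. -/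
def SamePt (Z Z' : Ix → ℂ) : Prop :=
  ∃ c : ℂ, c ≠ 0 ∧ ∀ k F a, IsMF k F a → F Z = c ^ k * F Z'

/-- The Hecke orbit: orbit under rational translations, similitudes and the inversion. -/
inductive Hecke (Z0 : Ix → ℂ) : (Ix → ℂ) → Prop
  | base : Hecke Z0 Z0
  | add (Z : Ix → ℂ) (B : Ix → ℚ) : Hecke Z0 Z → Hecke Z0 (Z + toR ℂ B)
  | sim (Z : Ix → ℂ) (A : Matrix Ix Ix ℚ) (c : ℚ) : IsSim A c → Hecke Z0 Z → Hecke Z0 (lin A Z)
  | flip (Z : Ix → ℂ) : Hecke Z0 Z → Hecke Z0 (inv Z)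

/-- Tate point at `p`: its coordinates are the values of the `q`-expansions at a character `q` with
algebraic values whose valuations are given by a point of the cone. -/
def IsTate {p : ℕ} [Fact p.Prime] (e : ℂ_[p] ≃+* ℂ) (Z0 : Ix → ℂ) : Prop :=
  ∃ (q : (Ix → ℚ) → ℂ_[p]) (Y0 : Ix → ℚ) (c : ℂ), toR ℝ Y0 ∈ Om ∧ c ≠ 0 ∧
    (∀ T T', q (T + T') = q T * q T') ∧ (∀ T, IsAlgebraic ℚ_[p] (q T)) ∧
    (∀ T, ‖q T‖ = (p : ℝ) ^ (-(tr T Y0 : ℚ) : ℝ)) ∧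
    ∀ k F a, IsMF k F a → F Z0 = c ^ k * e (∑' T, e.symm (a T) * q T)

end Pool.Agent.E7
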