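import Pool.Agent.Lib.MP_7e5527_ag.E7.KS

/-! Invariance under the integral similitudes. -/

noncomputable section

namespace Pool.Agent.E7.Kim

open Complex
open scoped Classical

/-- The weights of the trace form. -/
def ka_g : Ix → ℚ := Sum.elim (fun _ => 1) fun _ => 2

theorem ka_g_ne (l : Ix) : ka_g l ≠ 0 := by
  rcases l with l | l <;> simp [ka_g]

/-- The adjoint matrix for the trace form. -/
def ka_adj (A : Matrix Ix Ix ℚ) : Matrix Ix Ix ℚ := fun l m => A m l * ka_g m / ka_g l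

section
variable {K : Type} [Field K] [CharZero K]

theorem ka_tr (T Z : Ix → K) : tr T Z = ∑ l, (ka_g l : K) * T l * Z l := by
  simp [tr, Fintype.sum_sum_type, Fintype.sum_prod_type, dg, oc, ka_g, Finset.mul_sum, mul_assoc]

omit [CharZero K] in
theorem ka_lin (A : Matrix Ix Ix ℚ) (Z : Ix → K) (l : Ix) :
    lin A Z l = ∑ m, (A l m : K) * Z m := rfl

theorem ka_tr_adj (A : Matrix Ix Ix ℚ) (T Z : Ix → K) :
    tr (lin (ka_adj A) T) Z = tr T (lin A Z) := by
  rw [ka_tr, ka_tr]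
  simp only [ka_lin, Finset.mul_sum, Finset.sum_mul]
  rw [Finset.sum_comm]
  refine Finset.sum_congr rfl fun m _ => Finset.sum_congr rfl fun l _ => ?_
  have h : (ka_g l : K) ≠ 0 := by exact_mod_cast ka_g_ne l
  simp only [ka_adj]
  push_cast
  field_simp

theorem ka_ext {T T' : Ix → K} (h : ∀ U, tr T U = tr T' U) : T = T' := by
  funext l
  have h1 := h (Pi.single l 1)
  rw [ka_tr, ka_tr, Finset.sum_eq_single l, Finset.sum_eq_single l] at h1
  · have h2 : (ka_g l : K) ≠ 0 := by exact_mod_cast ka_g_ne l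
    simpa [h2] using h1
  · intro m _ hm
    simp [hm]
  · simp
  · intro m _ hm
    simp [hm]
  · simp

theorem ka_lin_mul (A B : Matrix Ix Ix ℚ) (Z : Ix → K) : lin (A * B) Z = lin A (lin B Z) := by
  funext l
  simp only [ka_lin, Matrix.mul_apply, Finset.mul_sum]
  push_cast
  simp only [Finset.sum_mul]
  rw [Finset.sum_comm]
  exact Finset.sum_congr rfl fun m _ => Finset.sum_congr rfl fun n _ => by ring

omit [CharZero K] in
theorem ka_lin_one (Z : Ix → K) : lin 1 Z = Z := by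
  funext l
  rw [ka_lin, Finset.sum_eq_single l]
  · simp
  · intro m _ hm
    simp [Matrix.one_apply_ne hm.symm]
  · simp

omit [CharZero K] in
theorem ka_lin_add (A : Matrix Ix Ix ℚ) (Z W : Ix → K) : lin A (Z + W) = lin A Z + lin A W :=
  Matrix.mulVec_add _ _ _

omit [CharZero K] in
theorem ka_lin_smul (A : Matrix Ix Ix ℚ) (c : K) (Z : Ix → K) : lin A (c • Z) = c • lin A Z :=
  Matrix.mulVec_smul _ _ _

omit [CharZero K] in
theorem ka_lin_zero (A : Matrix Ix Ix ℚ) : lin A (0 : Ix → K) = 0 := Matrix.mulVec_zero _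

theorem ka_toR_lin (A : Matrix Ix Ix ℚ) (T : Ix → ℚ) : toR K (lin A T) = lin A (toR K T) := by
  funext l
  simp only [toR, ka_lin]
  push_cast
  rfl

theorem ka_toR_sharp (T : Ix → ℚ) : toR K (sharp T) = sharp (toR K T) := by
  funext l
  rcases l with i | ⟨i, k⟩
  · simp [toR, sharp, dg, oc, onorm]
  · fin_cases k <;> simp [toR, sharp, dg, oc, oconj, omul_eq]

theorem ka_toR_zero {T : Ix → ℚ} : toR K T = 0 ↔ T = 0 := by
  constructor
  · intro h
    funext l
    have := congrFun h l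
    simpa [toR] using this
  · rintro rfl
    funext l
    simp [toR]

theorem ka_tr_smul (c : K) (T Z : Ix → K) : tr T (c • Z) = c * tr T Z := by
  rw [ka_tr, ka_tr, Finset.mul_sum]
  exact Finset.sum_congr rfl fun l _ => by rw [Pi.smul_apply, smul_eq_mul]; ring

omit [CharZero K] in
theorem ka_sharp_line (W E : Ix → K) :
    ∃ X : Ix → K, ∀ s : K, sharp (W + s • E) = sharp W + s • X + s ^ 2 • sharp E := by
  refine ⟨mkJ (fun i => dg W (i + 1) * dg E (i + 2) + dg E (i + 1) * dg W (i + 2) -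
      2 * oip (oc W i) (oc E i))
    fun i => oconj (omul (oc W (i + 1)) (oc E (i + 2))) +
      oconj (omul (oc E (i + 1)) (oc W (i + 2))) - dg W i • oc E i - dg E i • oc W i,
    fun s => ?_⟩
  have e1 : ∀ i, dg (W + s • E) i = dg W i + s * dg E i := fun _ => rfl
  have e2 : ∀ i, oc (W + s • E) i = oc W i + s • oc E i := fun _ => rfl
  refine ext_J (fun i => ?_) fun i => ?_
  · change dg (sharp (W + s • E)) i = dg (sharp W) i + s * (dg W (i + 1) * dg E (i + 2) +
      dg E (i + 1) * dg W (i + 2) - 2 * oip (oc W i) (oc E i)) + s ^ 2 * dg (sharp E) i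
    rw [dg_sharp, dg_sharp, dg_sharp, e1, e1, e2, onorm_add, onorm_smul, oip_smul]
    ring
  · change oc (sharp (W + s • E)) i = oc (sharp W) i + s • (oconj (omul (oc W (i + 1))
      (oc E (i + 2))) + oconj (omul (oc E (i + 1)) (oc W (i + 2))) - dg W i • oc E i -
      dg E i • oc W i) + s ^ 2 • oc (sharp E) i
    rw [oc_sharp, oc_sharp, oc_sharp, e1, e2, e2, e2]
    simp only [omul_add, add_omul, omul_smul, smul_omul, oconj_add, oconj_smul]
    funext k
    simp only [Pi.add_apply, Pi.sub_apply, Pi.smul_apply, smul_eq_mul]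
    ring

theorem ka_poly {f0 f1 f2 a0 a1 a2 : K}
    (h : ∀ s, a0 + s * a1 + s ^ 2 * a2 + s ^ 3 ≠ 0 → f0 + s * f1 + s ^ 2 * f2 = 0) : f0 = 0 := by
  have h1 : (Polynomial.C f0 + Polynomial.C f1 * Polynomial.X +
      Polynomial.C f2 * Polynomial.X ^ 2) * (Polynomial.C a0 + Polynomial.C a1 * Polynomial.X +
      Polynomial.C a2 * Polynomial.X ^ 2 + Polynomial.X ^ 3) = 0 := by
    refine Polynomial.funext fun s => ?_
    simp only [Polynomial.eval_mul, Polynomial.eval_add, Polynomial.eval_C, Polynomial.eval_X,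
      Polynomial.eval_pow, Polynomial.eval_zero]
    by_cases h0 : a0 + s * a1 + s ^ 2 * a2 + s ^ 3 = 0
    · linear_combination (f0 + f1 * s + f2 * s ^ 2) * h0
    · linear_combination (a0 + a1 * s + a2 * s ^ 2 + s ^ 3) * h s h0
  rcases mul_eq_zero.1 h1 with h2 | h2
  · simpa using congrArg (Polynomial.coeff · 0) h2
  · have := congrArg (Polynomial.coeff · 3) h2
    simp [Polynomial.coeff_X, Polynomial.coeff_C] at this

omit [CharZero K] in
theorem ka_nrm_one : nrm (mkJ 1 0 : Ix → K) = 1 := by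
  simp [nrm, onorm, omul_eq]

variable {A A' : Matrix Ix Ix ℚ}

theorem ka_sharp_lin (h1 : A * A' = 1) (h2 : A' * A = 1) (hn : ∀ Z : Ix → K, nrm (lin A Z) = nrm Z)
    (Z : Ix → K) : sharp (lin A Z) = lin (ka_adj A') (sharp Z) := by
  have key : ∀ W, tr (sharp (lin A Z)) (lin A W) = tr (sharp Z) W := by
    intro W
    have e1 := hn (Z + W)
    have e2 := hn (Z + (-1 : K) • W)
    rw [ka_lin_add, nrm_add, nrm_add, hn, hn] at e1
    rw [ka_lin_add, nrm_add, nrm_add, hn, hn, ka_lin_smul, sharp_smul, sharp_smul, ka_tr_smul,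
      ka_tr_smul, ka_tr_smul, ka_tr_smul] at e2
    have h2 : (2 : K) ≠ 0 := two_ne_zero
    refine mul_left_cancel₀ h2 ?_
    linear_combination e1 - e2
  refine ka_ext fun U => ?_
  rw [ka_tr_adj, ← key, ← ka_lin_mul, h1, ka_lin_one]

theorem ka_sharp_adj (h1 : A * A' = 1) (h2 : A' * A = 1) (hn : ∀ Z : Ix → K, nrm (lin A Z) = nrm Z)
    (W : Ix → K) : sharp (lin (ka_adj A') W) = lin A (sharp W) := by
  have k1 : ∀ Z : Ix → K, sharp (lin (ka_adj A') (sharp Z)) = lin A (sharp (sharp Z)) := by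
    intro Z
    rw [← ka_sharp_lin h1 h2 hn, sharp_sharp, sharp_sharp, hn, ka_lin_smul]
  have k2 : ∀ U : Ix → K, nrm U ≠ 0 → sharp (lin (ka_adj A') U) = lin A (sharp U) := by
    intro U hU
    have := k1 (sharp U)
    rw [sharp_sharp, ka_lin_smul, sharp_smul, sharp_smul, ka_lin_smul] at this
    exact smul_right_injective _ (pow_ne_zero 2 hU) this
  obtain ⟨X, hX⟩ := ka_sharp_line W (mkJ 1 0)
  obtain ⟨X', hX'⟩ := ka_sharp_line (lin (ka_adj A') W) (lin (ka_adj A') (mkJ 1 0))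
  funext l
  rw [← sub_eq_zero]
  refine ka_poly (f1 := X' l - lin A X l)
    (f2 := sharp (lin (ka_adj A') (mkJ 1 0)) l - lin A (sharp (mkJ 1 0)) l) (a0 := nrm W)
    (a1 := tr (sharp W) (mkJ 1 0)) (a2 := tr W (sharp (mkJ 1 0))) fun s hs => ?_
  have h3 := k2 (W + s • mkJ 1 0) (by
    rw [nrm_add, sharp_smul, ka_tr_smul, ka_tr_smul, nrm_smul, ka_nrm_one, mul_one]
    exact hs)
  rw [hX, ka_lin_add, ka_lin_smul, hX', ka_lin_add, ka_lin_add, ka_lin_smul, ka_lin_smul] at h3
  have h4 := congrFun h3 l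
  simp only [Pi.add_apply, Pi.smul_apply, smul_eq_mul] at h4
  linear_combination h4

end

theorem Th_sim {A : Matrix Ix Ix ℚ} (hA : IsSim A 1) (hL : ∀ T, lin A T ∈ Lam ↔ T ∈ Lam)
    (Z : Ix → ℂ) : Th (lin A Z) = Th Z := by
  have h1 : A * A⁻¹ = 1 := Matrix.mul_nonsing_inv A hA.1
  have h2 : A⁻¹ * A = 1 := Matrix.nonsing_inv_mul A hA.1
  generalize A⁻¹ = A' at h1 h2
  have hn : ∀ Z : Ix → ℂ, nrm (lin A Z) = nrm Z := fun Z => by
    rw [hA.2.1, Rat.cast_one, one_mul]
  have e1 : ∀ T : Ix → ℚ, lin (ka_adj A) (lin (ka_adj A') T) = T := fun T =>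
    ka_ext fun U => by rw [ka_tr_adj, ka_tr_adj, ← ka_lin_mul, h2, ka_lin_one]
  have e2 : ∀ T : Ix → ℚ, lin (ka_adj A') (lin (ka_adj A) T) = T := fun T =>
    ka_ext fun U => by rw [ka_tr_adj, ka_tr_adj, ← ka_lin_mul, h1, ka_lin_one]
  have hlam : ∀ S : Ix → ℚ, lin (ka_adj A') S ∈ Lam ↔ S ∈ Lam := by
    intro S
    constructor
    · intro h
      refine lam_dual fun U hU => ?_
      have := lam_tr h ((hL U).2 hU)
      rwa [ka_tr_adj, ← ka_lin_mul, h2, ka_lin_one] at this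
    · intro h
      refine lam_dual fun U hU => ?_
      rw [ka_tr_adj]
      refine lam_tr h ((hL _).1 ?_)
      rwa [← ka_lin_mul, h1, ka_lin_one]
  have hpsd : ∀ S : Ix → ℚ, Psd (lin (ka_adj A') S) ↔ Psd S := by
    intro S
    constructor
    · intro h Y hY
      have := h _ ((hA.2.2 Y).2 hY)
      rwa [ka_toR_lin, ka_tr_adj, ← ka_lin_mul, h2, ka_lin_one] at this
    · intro h Y hY
      rw [ka_toR_lin, ka_tr_adj]
      refine h _ ((hA.2.2 _).1 ?_)
      rwa [← ka_lin_mul, h1, ka_lin_one]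
  have hsh : ∀ S : Ix → ℚ, sharp (lin (ka_adj A') S) = 0 ↔ sharp S = 0 := by
    intro S
    rw [← ka_toR_zero (K := ℂ), ← ka_toR_zero (K := ℂ) (T := sharp S), ka_toR_sharp, ka_toR_sharp,
      ka_toR_lin, ka_sharp_adj h1 h2 hn]
    constructor
    · intro h
      have := congrArg (lin A') h
      rwa [← ka_lin_mul, h2, ka_lin_one, ka_lin_zero] at this
    · intro h
      rw [h, ka_lin_zero]
  have hz : ∀ S : Ix → ℚ, lin (ka_adj A') S = 0 ↔ S = 0 := by
    intro S
    constructor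
    · intro h
      rw [← e1 S, h, ka_lin_zero]
    · intro h
      rw [h, ka_lin_zero]
  have hkc : ∀ S : Ix → ℚ, kc (lin (ka_adj A') S) = kc S := by
    intro S
    have hr : R1 (lin (ka_adj A') S) ↔ R1 S := by
      unfold R1
      rw [hlam, hpsd, hsh]
    have hs : s3 (lin (ka_adj A') S) = s3 S := by
      unfold s3
      refine finsum_congr fun d => ?_
      rw [← ka_lin_smul, hlam]
    unfold kc
    rw [hs]
    simp only [hz, hr]
  let e : (Ix → ℚ) ≃ (Ix → ℚ) := ⟨lin (ka_adj A'), lin (ka_adj A), e1, e2⟩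
  unfold Th
  rw [← e.tsum_eq]
  refine tsum_congr fun S => ?_
  change term (lin A Z) (lin (ka_adj A') S) = term Z S
  unfold term
  rw [hkc, ka_toR_lin, ka_tr_adj, ← ka_lin_mul, h2, ka_lin_one]

end Pool.Agent.E7.Kim
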