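import Pool.Agent.Lib.MP_7e5527_ag.E7.KB

/-! Euclid on the lower block. -/

noncomputable section

namespace Pool.Agent.E7.Kim

open Complex
open scoped Classical

theorem ke_equiv (e : (Ix → ℚ) ≃ (Ix → ℚ)) {b b' : ℚ × ℚ × (Fin 8 → ℚ)}
    (h : ∀ T, low T = b ↔ low (e T) = b') {Z W : Ix → ℂ} (ht : ∀ T, term Z (e T) = term W T) :
    Thl b' Z = Thl b W := by
  rw [Thl, Thl, ← (e.subtypeEquiv h).tsum_eq]
  exact tsum_congr fun T => ht T.1

theorem ke_swp (s t : ℚ) (x : Fin 8 → ℚ) (Z : Ix → ℂ) :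
    Thl (t, s, oconj x) Z = Thl (s, t, x) (swp Z) := by
  refine ke_equiv ⟨swp, swp, swp_swp, swp_swp⟩ (fun T => ?_) fun T => ?_
  · change (dg T 1, dg T 2, oc T 0) = (s, t, x) ↔
      (dg T 2, dg T 1, oconj (oc T 0)) = (t, s, oconj x)
    simp only [Prod.mk.injEq]
    refine ⟨fun ⟨a, b, c⟩ => ⟨b, a, by rw [c]⟩, fun ⟨a, b, c⟩ => ⟨b, a, ?_⟩⟩
    rw [← oconj_oconj (oc T 0), c, oconj_oconj]
  · change term Z (swp T) = _
    rw [term, term, kc_swp, toR_swp, tr_swp]

theorem ke_tv {y : Fin 8 → ℚ} (hy : OZ y) (s t : ℚ) (x : Fin 8 → ℚ) (Z : Ix → ℂ) :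
    Thl (s, t + 2 * oip x y + s * onorm y, x + s • y) Z = Thl (s, t, x) (tw (oC y) Z) := by
  refine ke_equiv ⟨tv y, tv (-y), tv_neg y, fun T => ?_⟩ (fun T => ?_) fun T => ?_
  · have := tv_neg (-y) T
    rwa [neg_neg] at this
  · change (dg T 1, dg T 2, oc T 0) = (s, t, x) ↔
      (dg T 1, dg T 2 + 2 * oip (oc T 0) y + dg T 1 * onorm y, oc T 0 + dg T 1 • y) =
        (s, t + 2 * oip x y + s * onorm y, x + s • y)
    simp only [Prod.mk.injEq]
    refine ⟨fun ⟨a, b, c⟩ => ⟨a, by rw [a, b, c], by rw [a, c]⟩, fun ⟨a, b, c⟩ => ?_⟩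
    rw [a, add_left_inj] at c
    rw [a, c, add_left_inj, add_left_inj] at b
    exact ⟨a, b, c⟩
  · change term Z (tv y T) = _
    rw [term, term, kc_tv hy, toR_tv, tr_tv]
    rfl

theorem ke_nonneg (x : Fin 8 → ℚ) : 0 ≤ onorm x := Finset.sum_nonneg fun _ _ => sq_nonneg _

theorem ke_zero {x : Fin 8 → ℚ} (h : onorm x = 0) : x = 0 := by
  funext k
  exact pow_eq_zero_iff two_ne_zero |>.1
    ((Finset.sum_eq_zero_iff_of_nonneg fun _ _ => sq_nonneg _).1 h k (Finset.mem_univ k))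

theorem Inv.swap {s t : ℚ} {x : Fin 8 → ℚ} (h : Inv (s, t, x)) : Inv (t, s, oconj x) := by
  intro Z hZ
  rw [ke_swp, ke_swp, ← sw0_swp, h _ (hh_swp hZ)]
  rfl

theorem Inv.shift {s t : ℚ} {x y : Fin 8 → ℚ} (hy : OZ y) (h : Inv (s, t, x)) :
    Inv (s, t + 2 * oip x y + s * onorm y, x + s • y) := by
  intro Z hZ
  rw [ke_tv hy, ke_tv hy, ← sw0_tw, h _ (hh_tw y hZ)]
  rfl

theorem ke_nat (s : ℕ) : ∀ (t : ℕ) (x : Fin 8 → ℚ), OZ x → (s : ℚ) * t = onorm x →
    Inv (s, t, x) := by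
  induction s using Nat.strong_induction_on with
  | _ s ih =>
    intro t x hx hn
    rcases Nat.eq_zero_or_pos s with rfl | hs
    · rw [Nat.cast_zero, zero_mul] at hn
      rw [ke_zero hn.symm, Nat.cast_zero]
      rcases Nat.eq_zero_or_pos t with rfl | ht
      · rw [Nat.cast_zero]
        exact inv_zero
      · have h1 := (inv_nat ht).swap
        have h2 : oconj (0 : Fin 8 → ℚ) = 0 := by
          funext k
          simp [oconj]
        rwa [h2] at h1
    · have hs' : (0 : ℚ) < s := by exact_mod_cast hs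
      obtain ⟨y, hy, hc⟩ := oz_cover ((s : ℚ)⁻¹ • x)
      obtain ⟨n, hn1⟩ := oz_ip hx hy
      obtain ⟨m, hm⟩ := oz_norm hy
      have e1 : x - (s : ℚ) • y = (s : ℚ) • ((s : ℚ)⁻¹ • x - y) := by
        rw [smul_sub, smul_smul, mul_inv_cancel₀ hs'.ne', one_smul]
      have e2 : onorm (x - (s : ℚ) • y) = s * ((t - n + s * m : ℤ) : ℚ) := by
        rw [onorm_sub, oip_smul, onorm_smul, ← hn, hm]
        push_cast
        rw [← hn1]
        ring
      have e3 : onorm (x - (s : ℚ) • y) ≤ s * (s * (7 / 8)) := by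
        rw [e1, onorm_smul, sq, mul_assoc]
        gcongr
      have h0 : 0 ≤ (t - n + s * m : ℤ) := by
        have h1 := ke_nonneg (x - (s : ℚ) • y)
        rw [e2] at h1
        exact_mod_cast nonneg_of_mul_nonneg_right h1 hs'
      obtain ⟨t', ht'⟩ := Int.eq_ofNat_of_zero_le h0
      rw [ht', Int.cast_natCast] at e2
      have hlt : t' < s := by
        rw [e2] at e3
        have h1 := le_of_mul_le_mul_left e3 hs'
        have h2 : (t' : ℚ) < s := by linarith
        exact_mod_cast h2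
      have hx' : OZ (x - (s : ℚ) • y) := by
        have h1 := oz_add hx (oz_neg (oz_smul s hy))
        rwa [← sub_eq_add_neg, Int.cast_natCast] at h1
      have h1 := (ih t' hlt s _ (oz_conj hx') (by rw [onorm_oconj, e2, mul_comm])).swap
      rw [oconj_oconj] at h1
      have h2 := h1.shift hy
      have e4 : (t' : ℚ) + 2 * oip (x - (s : ℚ) • y) y + s * onorm y = t := by
        have h3 : (t' : ℚ) = t - n + s * m := by exact_mod_cast ht'.symm
        rw [oip_comm, oip_sub, oip_smul, ← onorm_eq, oip_comm y x, h3, ← hn1, hm]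
        ring
      rwa [e4, sub_add_cancel] at h2

theorem inv_all (b : ℚ × ℚ × (Fin 8 → ℚ)) : Inv b := by
  by_cases h : ∃ T, low T = b ∧ kc T ≠ 0
  · obtain ⟨T, rfl, hT⟩ := h
    by_cases h0 : T = 0
    · rw [h0]
      exact inv_zero
    · have h1 : R1 T := by
        by_contra h1
        exact hT (by rw [kc, if_neg h0, if_neg h1])
      obtain ⟨⟨h2, h3⟩, h4, h5⟩ := h1
      have key : ∀ i, ∃ n : ℕ, dg T i = n := fun i => by
        obtain ⟨n, hn⟩ := h2 i
        have h6 := psd_dg h4 i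
        rw [hn] at h6
        obtain ⟨m, rfl⟩ := Int.eq_ofNat_of_zero_le (by exact_mod_cast h6 : 0 ≤ n)
        exact ⟨m, by rw [hn, Int.cast_natCast]⟩
      obtain ⟨s, hs⟩ := key 1
      obtain ⟨t, ht⟩ := key 2
      have h6 : dg T 1 * dg T 2 - onorm (oc T 0) = 0 := congrFun h5 (.inl 0)
      rw [low, hs, ht]
      exact ke_nat s t _ (h3 0) (by rw [← hs, ← ht]; exact sub_eq_zero.1 h6)
  · have h1 : ∀ Z, Thl b Z = 0 := fun Z => by
      have h2 : ∀ T : {T // low T = b}, term Z T.1 = 0 := fun T => by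
        have h3 : kc T.1 = 0 := by
          by_contra h3
          exact h ⟨T.1, T.2, h3⟩
        rw [term, h3, zero_mul]
      rw [Thl, tsum_congr h2, tsum_zero]
    intro Z _
    rw [h1, h1, mul_zero]

end Pool.Agent.E7.Kim
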