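import Pool.Agent.Lib.MP_7e5527_ag.E7.KI
import Pool.Agent.Lib.MP_7e5527_ag.E7.KA
import Pool.Agent.Lib.MP_7e5527_ag.E7.KE

/-! The modular form of weight four. -/

noncomputable section

namespace Pool.Agent.E7.Kim

open Complex
open scoped Classical

theorem Th_rot (Z : Ix → ℂ) : Th (rot Z) = Th Z := by
  let e : (Ix → ℚ) ≃ (Ix → ℚ) := ⟨rot, fun T => rot (rot T), rot_rot_rot, rot_rot_rot⟩
  refine ((e.tsum_eq _).symm).trans (tsum_congr fun T => ?_)
  change kc (rot T) * ee (tr (toR ℂ (rot T)) (rot Z)) = _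
  rw [kc_rot, toR_rot, tr_rot, term]

theorem Th_sw0 {Z : Ix → ℂ} (h : Z ∈ HH) : Th (sw0 Z) = dg Z 0 ^ 4 * Th Z := by
  have e : ∀ W ∈ HH, Th W = ∑' b, Thl b W := fun W hW =>
    ((summable_term hW).hasSum.tsum_fiberwise low).tsum_eq.symm
  rw [e _ h, e _ (hh_sw0 h), ← tsum_mul_left]
  exact tsum_congr fun b => inv_all b Z h

theorem isMF_Th : IsMF 4 Th kc := by
  refine ⟨fun T h => ?_, ⟨{1}, fun T => ?_⟩, fun Z h => (summable_term h).hasSum,
    fun A hA hL Z _ => Th_sim hA hL Z, fun Z h => ?_⟩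
  · by_cases h0 : T = 0
    · subst h0
      refine ⟨⟨fun i => ⟨0, rfl⟩, fun i => oz_zero⟩, fun Y _ => le_of_eq ?_⟩
      simp [tr, dg, oc, toR]
    · by_contra hn
      exact h (by rw [kc, if_neg h0, if_neg fun r => hn ⟨r.1, r.2.1⟩])
  · rw [Finset.coe_singleton, Submodule.mem_span_singleton]
    by_cases h0 : T = 0
    · exact ⟨1, by rw [h0, kc_zero, one_smul]⟩
    · obtain ⟨n, hn⟩ := kc_int h0
      exact ⟨240 * n, by simp [hn]⟩
  · have h1 := hh_rot (hh_sw0 h)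
    have h2 := hh_rot (hh_sw0 h1)
    rw [← inv_eq h, ← nrm_eq_prod h, Th_rot, Th_sw0 h2, Th_rot, Th_sw0 h1, Th_rot, Th_sw0 h]
    norm_cast
    ring

end Pool.Agent.E7.Kim
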