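import Pool.Agent.Lib.MP_7e5527_ag.E7.Psd

/-! Reduction theory. -/

open Filter

noncomputable section

namespace Pool.Agent.E7

theorem sieg1_min {α : Type} {O : Set α} (h : O.Nonempty) (f : α → ℝ) {c : ℝ} (hc : 0 < c)
    (hf : ∀ Z ∈ O, ∃ n : ℕ, c * f Z = n) : ∃ Z ∈ O, ∀ W ∈ O, f Z ≤ f W := by
  obtain ⟨Z, hZ, hm⟩ := (InvImage.wf (fun Z => ⌊c * f Z⌋₊) wellFounded_lt).has_min O h
  refine ⟨Z, hZ, fun W hW => le_of_mul_le_mul_left ?_ hc⟩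
  obtain ⟨n, hn⟩ := hf Z hZ
  obtain ⟨m, hm'⟩ := hf W hW
  have := hm W hW
  simp only [InvImage, hn, hm', Nat.floor_natCast, not_lt] at this
  rw [hn, hm']
  exact_mod_cast this

/-- The orbit of a point under the integral similitudes. -/
def sieg1_orb (X : Ix → ℝ) : Set (Ix → ℝ) := {Z | ∃ A, IsSimZ A ∧ Z = lin A X}

theorem sieg1_lin {X Z : Ix → ℝ} {B : Matrix Ix Ix ℚ} (hB : IsSimZ B) (h : Z ∈ sieg1_orb X) :
    lin B Z ∈ sieg1_orb X := by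
  obtain ⟨A, hA, rfl⟩ := h
  exact ⟨B * A, hB.mul hA, (lin_mul _ _ _).symm⟩

theorem sieg1_cyc {X Z : Ix → ℝ} (h : Z ∈ sieg1_orb X) : cyc Z ∈ sieg1_orb X :=
  lin_cyc Z ▸ sieg1_lin isSimZ_cyc h

theorem sieg1_swp {X Z : Ix → ℝ} (h : Z ∈ sieg1_orb X) : swp Z ∈ sieg1_orb X :=
  lin_swp Z ▸ sieg1_lin isSimZ_swp h

theorem sieg1_elm {X Z : Ix → ℝ} {u : Fin 8 → ℚ} (hu : OZ u) (h : Z ∈ sieg1_orb X) :
    elm (fun k => (u k : ℝ)) Z ∈ sieg1_orb X :=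
  lin_elm u Z ▸ sieg1_lin (isSimZ_elm hu) h

theorem sieg1_conj (x : Fin 8 → ℝ) (w : Fin 8 → ℚ) :
    x + oconj (fun k => ((-oconj w) k : ℝ)) = x - fun k => (w k : ℝ) := by
  funext k
  simp only [oconj, Pi.add_apply, Pi.neg_apply, Pi.sub_apply]
  split_ifs <;> push_cast <;> ring

theorem sieg1_red {X : Ix → ℝ} {d0 d1 d2 : ℝ} {u0 u1 u2 : Fin 8 → ℝ}
    (h : jac d0 d1 d2 u0 u1 u2 ∈ sieg1_orb X) : ∃ a0 a1 a2, onorm a0 ≤ 7 / 8 ∧ onorm a1 ≤ 7 / 8 ∧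
      onorm a2 ≤ 7 / 8 ∧ jac d0 d1 d2 a0 a1 a2 ∈ sieg1_orb X := by
  obtain ⟨w2, hw2, h2⟩ := cover u2
  have k2 := sieg1_cyc (sieg1_cyc (sieg1_elm hw2.conj_mem.neg (sieg1_cyc h)))
  rw [elm10_jac, sieg1_conj] at k2
  obtain ⟨w0, hw0, h0⟩ := cover u0
  have k0 := sieg1_elm hw0.conj_mem.neg k2
  rw [elm_jac, sieg1_conj] at k0
  generalize u1 + _ = b at k0
  obtain ⟨w1, hw1, h1⟩ := cover b
  have k1 := sieg1_swp (sieg1_cyc (sieg1_cyc (sieg1_elm hw1.neg (sieg1_cyc (sieg1_swp k0)))))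
  rw [elm20_jac] at k1
  refine ⟨_, _, _, h0, ?_, h2, k1⟩
  have e : (b + fun k => ((-w1) k : ℝ)) = b - fun k => (w1 k : ℝ) := by
    funext k
    simp [sub_eq_add_neg]
  rwa [e]

theorem sieg1_nat {x : ℝ} (hx : 0 < x) {q : ℚ} (h : x = q) (hq : ∃ n : ℤ, q = n) :
    ∃ n : ℕ, x = n := by
  obtain ⟨n, rfl⟩ := hq
  rw [Rat.cast_intCast] at h
  obtain ⟨m, rfl⟩ := Int.eq_ofNat_of_zero_le (a := n) (by exact_mod_cast (h ▸ hx).le)
  exact ⟨m, by simpa using h⟩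

/-- Among the `A Y` (entries in `M⁻¹ Lam`) minimise first `dg · 0`, then `dg (sharp ·) 2`. Reduce
`u2`, `u0`, `u1` in this order (`cover`, `elm10_jac`, `elm_jac`, `elm20_jac`; `d0 d1 d2` do not
change). Compare with the matrices obtained by exchanging the indices `0, 1` (`cyc` and `swp`)
and `1, 2` (`swp`, `dg_sharp_jac_1`). -/
theorem reduce {Y : Ix → ℚ} (hY : toR ℝ Y ∈ Om) : ∃ A, IsSimZ A ∧ toR ℝ (lin A Y) ∈ Sieg := by
  obtain ⟨M, hM, hMY⟩ := exists_den Y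
  have hM' : (0 : ℝ) < M := by exact_mod_cast hM
  have hom : ∀ Z ∈ sieg1_orb (toR ℝ Y), Z ∈ Om := by
    rintro _ ⟨A, hA, rfl⟩
    exact (hA.1.2.2 _).2 hY
  have hl : ∀ Z ∈ sieg1_orb (toR ℝ Y), ∃ T ∈ Lam, (M : ℝ) • Z = toR ℝ T := by
    rintro _ ⟨A, hA, rfl⟩
    refine ⟨_, (hA.2 _).2 hMY, ?_⟩
    rw [lin_smul, toR_smul, lin_toR, Rat.cast_natCast]
  obtain ⟨Z1, hZ1, m1⟩ := sieg1_min (O := sieg1_orb (toR ℝ Y)) ⟨_, 1, IsSimZ.one, rfl⟩
    (fun Z => dg Z 0) hM' fun Z hZ => by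
      obtain ⟨T, hT, e⟩ := hl Z hZ
      exact sieg1_nat (mul_pos hM' (hom Z hZ).1) (by rw [← dg_toR, ← e, dg_smul]) (hT.1 0)
  obtain ⟨Z2, ⟨hZ2, e2⟩, m2⟩ := sieg1_min (O := {Z | Z ∈ sieg1_orb (toR ℝ Y) ∧ dg Z 0 = dg Z1 0})
    ⟨Z1, hZ1, rfl⟩ (fun Z => dg (sharp Z) 2) (pow_pos hM' 2) fun Z hZ => by
      obtain ⟨T, hT, e⟩ := hl Z hZ.1
      exact sieg1_nat (mul_pos (pow_pos hM' 2) (hom Z hZ.1).2.1)
        (by rw [← dg_toR, ← sharp_toR, ← e, sharp_smul, dg_smul]) ((Lam.sharp_mem hT).1 2)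
  obtain ⟨d0, d1, d2, u0, u1, u2, h0, h1, h2, rfl⟩ := exists_jac (hom Z2 hZ2)
  obtain ⟨a0, a1, a2, n0, n1, n2, hJ⟩ := sieg1_red hZ2
  rw [dg_jac_0] at e2
  have k1 : dg Z1 0 ≤ dg (jac d0 d1 d2 a0 a1 a2) 1 := m1 _ (sieg1_cyc (sieg1_cyc hJ))
  have k2 := m2 _ ⟨sieg1_swp hJ, (dg_jac_0 d0 d1 d2 a0 a1 a2).trans e2⟩
  have k3 : dg (swp (sharp (jac d0 d1 d2 a0 a1 a2))) 2 = d0 * (d2 + d1 * onorm a0) :=
    dg_sharp_jac_1 d0 d1 d2 a0 a1 a2
  rw [dg_jac_1, ← e2] at k1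
  simp only [sharp_swp, k3, dg_sharp_jac_2] at k2
  have k4 := le_of_mul_le_mul_left k2 h0
  obtain ⟨A, hA, e⟩ := hJ
  refine ⟨A, hA, d0, d1, d2, a0, a1, a2, h0, by nlinarith, by nlinarith, by linarith, by linarith,
    by linarith, ?_⟩
  rw [← lin_toR, e]

theorem Sieg.nrm_le {Y : Ix → ℝ} (h : Y ∈ Sieg) :
    dg Y 0 * dg Y 1 ≤ 9 * dg (sharp Y) 2 ∧ dg Y 0 * dg Y 1 * dg Y 2 ≤ 657 * nrm Y := by
  obtain ⟨d0, d1, d2, u0, u1, u2, h0, h1, h2, n0, n1, n2, rfl⟩ := h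
  rw [dg_jac_0, dg_jac_1, dg_jac_2, dg_sharp_jac_2, nrm_jac]
  have p1 : 0 < d1 := by linarith
  have a1 : d1 + d0 * onorm u2 ≤ 9 * d1 := by nlinarith
  have a2 : d2 + d1 * onorm u0 + d0 * onorm u1 ≤ 73 * d2 := by nlinarith
  have b : d0 * (d1 + d0 * onorm u2) ≤ d0 * (9 * d1) := mul_le_mul_of_nonneg_left a1 h0.le
  have c2 : 0 ≤ d2 + d1 * onorm u0 + d0 * onorm u1 := by
    have := onorm_nonneg u0
    have := onorm_nonneg u1
    have : 0 < d2 := by linarith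
    positivity
  refine ⟨by linarith, (mul_le_mul b a2 c2 (by positivity)).trans_eq (by ring)⟩

theorem siegd_cs {F : Type} [Field F] [LinearOrder F] [IsStrictOrderedRing F] (c : F)
    (x u : Fin 8 → F) : 0 ≤ onorm x + c * oip x u + c ^ 2 * onorm u := by
  have h : onorm (x + c • u) = onorm x + c * oip x u + c ^ 2 * onorm u := by
    simp only [onorm, oip, Fin.sum_univ_eight, Pi.add_apply, Pi.smul_apply, smul_eq_mul]
    ring
  exact h ▸ onorm_nonneg _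

theorem siegd_eq {x y : Fin 8 → ℚ} (h : OZ ((1 / 1000 : ℚ) • (x - y))) (hx : onorm x ≤ 1)
    (hy : onorm y ≤ 1) : x = y := by
  obtain ⟨n, hn⟩ := h.onorm_int
  have h1 := siegd_cs 1 x y
  have h2 : onorm ((1 / 1000 : ℚ) • (x - y)) = (onorm x - oip x y + onorm y) / 1000000 := by
    simp only [onorm, oip, Fin.sum_univ_eight, Pi.sub_apply, Pi.smul_apply, smul_eq_mul]
    ring
  have h3 : (0 : ℚ) ≤ n := hn ▸ onorm_nonneg _
  have h4 : (n : ℚ) < 1 := by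
    rw [← hn, h2]
    linarith
  have h5 : n = 0 := by
    have : 0 ≤ n := by exact_mod_cast h3
    have : n < 1 := by exact_mod_cast h4
    omega
  rw [h5, Int.cast_zero] at hn
  exact sub_eq_zero.1 ((smul_eq_zero.1 (onorm_eq_zero hn)).resolve_left (by norm_num))

theorem siegd_dg {t s : ℚ} {n : ℤ} (h : (1 / 1000 : ℚ) * (t - s) = n) (ht : 0 ≤ t)
    (hs : s = 0 ∨ s = 1) : t = s ∨ 1000 ≤ t := by
  rcases lt_trichotomy n 0 with h1 | rfl | h1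
  · have : (n : ℚ) ≤ -1 := by exact_mod_cast (by omega : n ≤ -1)
    rcases hs with rfl | rfl <;> linarith
  · left
    push_cast at h
    linarith
  · have : (1 : ℚ) ≤ n := by exact_mod_cast (by omega : 1 ≤ n)
    right
    rcases hs with rfl | rfl <;> linarith

theorem dom {T : Ix → ℚ} (hT : T ∈ Lam) (hp : Psd T) {i : Ix} (hc : Cong T (TT i)) (hne : T ≠ TT i)
    {Y : Ix → ℝ} (hY : Y ∈ Sieg) : tr (toR ℝ (TT i)) Y < tr (toR ℝ T) Y := by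
  have _ := hT
  obtain ⟨d0, d1, d2, u, u1, u2, p0, p1, p2, q, q1, q2, rfl⟩ := hY
  have q0 : onorm (oconj (omul u1 u2)) ≤ 1 := by
    rw [onorm_oconj, onorm_omul]
    exact mul_le_one₀ q1 (onorm_nonneg _) q2
  have hs := TT_diag i
  have hB := psd_TT i
  generalize TT i = B at *
  have r0 := hp.pair0 u1 u2
  have r1 := hp.pair1 u
  have sq : ∀ j, 0 ≤ dg B j ∧ dg B j ≤ 1 := fun j => by rcases hs j with h | h <;> simp [h]
  have hd : ∀ j, dg T j = dg B j ∨ 1000 ≤ dg T j := fun j => by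
    obtain ⟨n, hn⟩ := hc.1 j
    exact siegd_dg hn (hp.dg_nonneg j) (hs j)
  have nq : ∀ j, onorm (oc B j) ≤ 1 := fun j =>
    (hB.onorm_le j).trans (mul_le_one₀ (sq _).2 (sq _).1 (sq _).2)
  have ho : ∀ j, dg T (j + 1) = dg B (j + 1) → dg T (j + 2) = dg B (j + 2) → oc T j = oc B j :=
    fun j h1 h2 => siegd_eq (hc.2 j) ((hp.onorm_le j).trans
      (by rw [h1, h2]; exact mul_le_one₀ (sq _).2 (sq _).1 (sq _).2)) (nq j)
  have cn : ∀ (S : Ix → ℚ) j, onorm (oc (toR ℝ S) j) = (onorm (oc S j) : ℚ) := fun S j =>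
    onorm_map (Rat.castHom ℝ) (oc S j)
  have cd : ∀ (S : Ix → ℚ) j, dg (toR ℝ S) j = (dg S j : ℚ) := fun S j => rfl
  have sn : ∀ j, 0 ≤ dg (toR ℝ B) j ∧ dg (toR ℝ B) j ≤ 1 := fun j => by
    rw [cd]
    exact_mod_cast sq j
  have nB : ∀ j, onorm (oc (toR ℝ B) j) ≤ 1 := fun j => by
    rw [cn]
    exact_mod_cast nq j
  have tn : ∀ j, 0 ≤ dg (toR ℝ T) j := fun j => by
    rw [cd]
    exact_mod_cast hp.dg_nonneg j
  have mi : ∀ j, onorm (oc (toR ℝ T) j) ≤ dg (toR ℝ T) (j + 1) * dg (toR ℝ T) (j + 2) := fun j => by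
    rw [cn, cd, cd]
    exact_mod_cast hp.onorm_le j
  have hd' : ∀ j, 1000 ≤ dg T j → 1000 ≤ dg (toR ℝ T) j := fun j h => by
    rw [cd]
    exact_mod_cast h
  have he : ∀ j, dg T j = dg B j → dg (toR ℝ T) j = dg (toR ℝ B) j := fun j h => by rw [cd, cd, h]
  have e0 : ∀ S : Ix → ℝ, tr S (v0 u1 u2) = dg S 0 + dg S 1 * onorm u2 + dg S 2 * onorm u1 +
      (oip (oc S 0) (oconj (omul u1 u2)) + oip (oc S 1) u1 + oip (oc S 2) u2) := fun S => by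
    simp [tr_eq, v0, add_assoc]
  have e1 : ∀ S : Ix → ℝ, tr S (v1 u) = dg S 1 + dg S 2 * onorm u + oip (oc S 0) u := fun S => by
    simp [tr_eq, v1, oip]
  simp only [jac, tr_add_right, tr_smul_right, tr_ed]
  have b0 : tr (toR ℝ B) (v0 u1 u2) ≤ 9 := by
    have a0 := siegd_cs (-1) (oc (toR ℝ B) 0) (oconj (omul u1 u2))
    have a1 := siegd_cs (-1) (oc (toR ℝ B) 1) u1
    have a2 := siegd_cs (-1) (oc (toR ℝ B) 2) u2
    have a3 := mul_le_one₀ (sn 1).2 (onorm_nonneg u2) q2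
    have a4 := mul_le_one₀ (sn 2).2 (onorm_nonneg u1) q1
    rw [e0]
    linarith [nB 0, nB 1, nB 2, (sn 0).2]
  have b1 : tr (toR ℝ B) (v1 u) ≤ 4 := by
    have a0 := siegd_cs (-1) (oc (toR ℝ B) 0) u
    have a4 := mul_le_one₀ (sn 2).2 (onorm_nonneg u) q
    rw [e1]
    linarith [nB 0, (sn 1).2]
  have p3 : 0 < d1 := by linarith
  have p4 : 0 < d2 := by linarith
  have c0 := mul_le_mul_of_nonneg_left b0 p0.le
  have c1 := mul_le_mul_of_nonneg_left b1 p3.le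
  have c2 := mul_nonneg p0.le r0
  have c3 := mul_nonneg p3.le r1
  rcases hd 2 with f2 | f2
  swap
  · have c4 := mul_le_mul_of_nonneg_left (hd' 2 f2) p4.le
    have c5 := mul_le_mul_of_nonneg_left (sn 2).2 p4.le
    linarith
  have t2 : dg (toR ℝ T) 2 ≤ 1 := he 2 f2 ▸ (sn 2).2
  rcases hd 1 with f1 | f1
  swap
  · have a0 := siegd_cs 2 (oc (toR ℝ T) 0) u
    have a1 : onorm (oc (toR ℝ T) 0) ≤ dg (toR ℝ T) 1 * dg (toR ℝ T) 2 := mi 0
    have a2 := mul_le_mul_of_nonneg_left t2 (tn 1)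
    have a3 := mul_nonneg (tn 2) (onorm_nonneg u)
    have a4 : 498 ≤ tr (toR ℝ T) (v1 u) := by
      rw [e1]
      linarith [hd' 1 f1]
    have c4 := mul_le_mul_of_nonneg_left a4 p3.le
    rw [he 2 f2]
    linarith
  have t1 : dg (toR ℝ T) 1 ≤ 1 := he 1 f1 ▸ (sn 1).2
  have o0 := ho 0 f1 f2
  rcases hd 0 with f0 | f0
  · exact absurd (jext f0 f1 f2 o0 (ho 1 f2 f0) (ho 2 f0 f1)) hne
  have o1 : oc (toR ℝ T) 0 = oc (toR ℝ B) 0 := funext fun k => congrArg Rat.cast (congrFun o0 k)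
  have a0 := siegd_cs 1 (oc (toR ℝ T) 0) (oconj (omul u1 u2))
  have a1 := siegd_cs 4 (oc (toR ℝ T) 1) u1
  have a2 := siegd_cs 4 (oc (toR ℝ T) 2) u2
  have a3 : onorm (oc (toR ℝ T) 1) ≤ dg (toR ℝ T) 2 * dg (toR ℝ T) 0 := mi 1
  have a4 : onorm (oc (toR ℝ T) 2) ≤ dg (toR ℝ T) 0 * dg (toR ℝ T) 1 := mi 2
  have a5 := mul_le_mul_of_nonneg_right t2 (tn 0)
  have a6 := mul_le_mul_of_nonneg_left t1 (tn 0)
  have a7 := mul_nonneg (tn 1) (onorm_nonneg u2)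
  have a8 := mul_nonneg (tn 2) (onorm_nonneg u1)
  have a9 : onorm (oc (toR ℝ T) 0) ≤ 1 := o1 ▸ nB 0
  have a10 : 490 ≤ tr (toR ℝ T) (v0 u1 u2) := by
    rw [e0]
    linarith [hd' 0 f0]
  have c4 := mul_le_mul_of_nonneg_left a10 p0.le
  have e3 : tr (toR ℝ T) (v1 u) = tr (toR ℝ B) (v1 u) := by rw [e1, e1, he 1 f1, he 2 f2, o1]
  rw [he 2 f2, e3]
  linarith

theorem siegl_ip {Y : Ix → ℚ} (h : toR ℝ Y ∈ Om) (T : Ix → ℚ) (hT : Psd T) : 0 ≤ tr T Y := by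
  have := hT _ h
  rw [tr_toR] at this
  exact_mod_cast this

theorem siegl_pos {Y : Ix → ℚ} (h : toR ℝ Y ∈ Om) (l : Ix) : 0 < yc Y l := by
  have := (psd_TT l).pos (TT_ne_zero l) h
  rw [tr_toR] at this
  rw [yc, toR_rat]
  exact_mod_cast this

/-- The real line through two rational points. -/
def sieglP (Ya Yb : Ix → ℚ) (t : ℝ) : Ix → ℝ := fun l => (Ya l : ℝ) + t * (Yb l : ℝ)

theorem siegl_toR (Ya Yb : Ix → ℚ) (t : ℚ) : toR ℝ (Ya + t • Yb) = sieglP Ya Yb t := by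
  funext l
  simp [toR, sieglP]

theorem siegl_c (Ya Yb : Ix → ℚ) : Continuous (sieglP Ya Yb) := by
  unfold sieglP
  fun_prop

theorem siegl_cdg (i : Fin 3) : Continuous fun Y : Ix → ℝ => dg Y i := continuous_apply _

theorem siegl_csh : Continuous fun Y : Ix → ℝ => dg (sharp Y) 2 := by
  simp only [dg_sharp_2]
  simp only [onorm_eq, dg, oc]
  fun_prop

theorem siegl_cnrm : Continuous fun Y : Ix → ℝ => nrm Y := by
  simp only [nrm_eq, onorm_eq, oip_eq, omul_0, omul_1, omul_2, omul_3, omul_4, omul_5, omul_6,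
    omul_7, oconj_0, oconj_1, oconj_2, oconj_3, oconj_4, oconj_5, oconj_6, oconj_7, dg, oc]
  fun_prop

theorem sieg_line (U : Ultrafilter ℕ) (Y : ℕ → Ix → ℚ) (Ya Yb : Ix → ℚ)
    (hS : ∀ n, toR ℝ (Y n) ∈ Sieg) (hb : ∃ R : ℚ, ∀ n i, yc (Y n) i ≤ R)
    (hl : ∀ᶠ n in (U : Filter ℕ), ∃ s : ℚ, Y n = Ya + s • Yb) :
    ∃ Y1, toR ℝ Y1 ∈ Om ∧ ∃ Y2 : Ix → ℚ, (∀ T, Psd T → 0 ≤ tr T Y2) ∧
      ∀ᶠ n in (U : Filter ℕ), ∃ l m : ℚ, 0 < l ∧ 0 ≤ m ∧ Y n = l • Y1 + m • Y2 := by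
  have h : ∀ n, toR ℝ (Y n) ∈ Om := fun n => Sieg_sub (hS n)
  by_cases h0 : Yb = 0
  · obtain ⟨n0, s0, hn0⟩ := hl.exists
    refine ⟨Y n0, h n0, 0, fun T _ => (tr_zero_right T).ge, hl.mono fun n ⟨s, hs⟩ =>
      ⟨1, 0, one_pos, le_rfl, ?_⟩⟩
    rw [hs, hn0, h0]
    simp
  obtain ⟨l0, hl0⟩ : ∃ l0, yc Yb l0 ≠ 0 := by
    by_contra hc
    push Not at hc
    refine h0 ?_
    rw [← pt_yc Yb, show yc Yb = (0 : ℚ) • yc Yb from by funext l; simp [hc l], pt_smul, zero_smul]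
  obtain ⟨R, hR⟩ := hb
  obtain ⟨s, hs⟩ : ∃ s : ℕ → ℚ, ∀ n, s n = (yc (Y n) l0 - yc Ya l0) / yc Yb l0 := ⟨_, fun _ => rfl⟩
  have hl' : ∀ᶠ n in (U : Filter ℕ), Y n = Ya + s n • Yb := hl.mono fun n ⟨t, ht⟩ => by
    have : s n = t := by
      rw [hs, ht, yc_add, yc_smul]
      simp only [Pi.add_apply, Pi.smul_apply, smul_eq_mul]
      field_simp
      ring
    rw [this, ht]
  have hB : ∀ n, ((s n : ℚ) : ℝ) ∈ Set.Icc (-(((R + |yc Ya l0|) / |yc Yb l0| : ℚ) : ℝ))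
      ((R + |yc Ya l0|) / |yc Yb l0| : ℚ) := fun n => by
    have h1 : |s n| ≤ (R + |yc Ya l0|) / |yc Yb l0| := by
      rw [hs, abs_div]
      refine div_le_div_of_nonneg_right ((abs_sub _ _).trans ?_) (abs_nonneg _)
      rw [abs_of_pos (siegl_pos (h n) l0)]
      linarith [hR n l0]
    obtain ⟨h2, h3⟩ := abs_le.1 h1
    exact ⟨by exact_mod_cast h2, by exact_mod_cast h3⟩
  obtain ⟨t, -, ht⟩ := isCompact_Icc.ultrafilter_le_nhds (U.map fun n => ((s n : ℚ) : ℝ))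
    (le_principal_iff.2 (Ultrafilter.mem_coe.2 (Ultrafilter.mem_map.2 (univ_mem' hB))))
  have ht' : Tendsto (fun n => ((s n : ℚ) : ℝ)) U (nhds t) := ht
  have hP : ∀ᶠ n in (U : Filter ℕ), toR ℝ (Y n) = sieglP Ya Yb (s n) :=
    hl'.mono fun n hn => by rw [← siegl_toR, ← hn]
  have hlim : Tendsto (fun n => toR ℝ (Y n)) U (nhds (sieglP Ya Yb t)) :=
    (((siegl_c Ya Yb).tendsto t).comp ht').congr' (hP.mono fun n hn => hn.symm)
  by_cases hO : sieglP Ya Yb t ∈ Om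
  · obtain ⟨a, b, hab, hsub⟩ := mem_nhds_iff_exists_Ioo_subset.1
      ((isOpen_Om.preimage (siegl_c Ya Yb)).mem_nhds hO)
    obtain ⟨q1, hq1, hq1'⟩ := exists_rat_btwn hab.1
    obtain ⟨q2, hq2, hq2'⟩ := exists_rat_btwn hab.2
    have o1 : toR ℝ (Ya + q1 • Yb) ∈ Om := by
      rw [siegl_toR]
      exact hsub ⟨hq1, hq1'.trans hab.2⟩
    have o2 : toR ℝ (Ya + q2 • Yb) ∈ Om := by
      rw [siegl_toR]
      exact hsub ⟨hab.1.trans hq2, hq2'⟩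
    refine ⟨_, o1, _, siegl_ip o2, ?_⟩
    filter_upwards [hl', ht'.eventually (Ioo_mem_nhds hq1' hq2)] with n hn hI
    have i1 : q1 < s n := by exact_mod_cast hI.1
    have i2 : s n < q2 := by exact_mod_cast hI.2
    have hq : 0 < q2 - q1 := by linarith
    refine ⟨(q2 - s n) / (q2 - q1), (s n - q1) / (q2 - q1), div_pos (by linarith) hq,
      (div_pos (by linarith) hq).le, ?_⟩
    rw [hn]
    funext l
    simp only [Pi.add_apply, Pi.smul_apply, smul_eq_mul]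
    field_simp
    ring
  · obtain ⟨i, hi⟩ : ∃ i, dg (sieglP Ya Yb t) i = 0 := by
      by_contra hc
      push Not at hc
      have hpos : ∀ i, 0 < dg (sieglP Ya Yb t) i := fun i =>
        lt_of_le_of_ne (ge_of_tendsto' (((siegl_cdg i).tendsto _).comp hlim) fun n =>
          (Om.dg_pos (h n) i).le) (hc i).symm
      have m1 : dg (sieglP Ya Yb t) 0 * dg (sieglP Ya Yb t) 1 ≤ 9 * dg (sharp (sieglP Ya Yb t)) 2 :=
        le_of_tendsto_of_tendsto' (((((siegl_cdg 0).mul (siegl_cdg 1))).tendsto _).comp hlim)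
          (((continuous_const.mul siegl_csh).tendsto _).comp hlim) fun n => (Sieg.nrm_le (hS n)).1
      have m2 : dg (sieglP Ya Yb t) 0 * dg (sieglP Ya Yb t) 1 * dg (sieglP Ya Yb t) 2 ≤
          657 * nrm (sieglP Ya Yb t) :=
        le_of_tendsto_of_tendsto'
          (((((siegl_cdg 0).mul (siegl_cdg 1)).mul (siegl_cdg 2)).tendsto _).comp hlim)
          (((continuous_const.mul siegl_cnrm).tendsto _).comp hlim) fun n => (Sieg.nrm_le (hS n)).2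
      have p1 := mul_pos (hpos 0) (hpos 1)
      have p2 := mul_pos p1 (hpos 2)
      exact hO ⟨hpos 0, by linarith, by linarith⟩
    obtain ⟨al, hal⟩ : ∃ al, al = dg Ya i := ⟨_, rfl⟩
    obtain ⟨be, hbe⟩ : ∃ be, be = dg Yb i := ⟨_, rfl⟩
    have hi' : (al : ℝ) + t * be = 0 := by rw [hal, hbe]; exact hi
    have hg : ∀ᶠ n in (U : Filter ℕ), 0 < al + s n * be := hP.mono fun n hn => by
      have := Om.dg_pos (h n) i
      rw [hn] at this
      have h2 : (0 : ℝ) < (al : ℝ) + s n * be := by rw [hal, hbe]; exact this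
      exact_mod_cast h2
    obtain ⟨n0, hn0, hg0⟩ := (hl'.and hg).exists
    have hb0 : be ≠ 0 := fun hb0 => by
      rw [hb0] at hi' hg0
      simp only [Rat.cast_zero, mul_zero, add_zero, Rat.cast_eq_zero] at hi' hg0
      exact hg0.ne' hi'
    have htq : t = ((-al / be : ℚ) : ℝ) := by
      have : (be : ℝ) ≠ 0 := by exact_mod_cast hb0
      push_cast
      field_simp
      linarith
    refine ⟨Y n0, h n0, Ya + (-al / be) • Yb, fun T hT => ?_, ?_⟩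
    · have h1 : Tendsto (fun n => ((tr T Ya : ℚ) : ℝ) + s n * (tr T Yb : ℚ)) U
          (nhds (((tr T Ya : ℚ) : ℝ) + t * (tr T Yb : ℚ))) :=
        (ht'.mul_const _).const_add _
      have h2 := ge_of_tendsto h1 (b := 0) (hl'.mono fun n hn => by
        have := siegl_ip (h n) T hT
        rw [hn, tr_add_right, tr_smul_right] at this
        exact_mod_cast this)
      rw [htq] at h2
      rw [tr_add_right, tr_smul_right]
      exact_mod_cast h2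
    · have h1 : Tendsto (fun n => (al : ℝ) + s n * be) U (nhds ((al : ℝ) + t * be)) :=
        (ht'.mul_const _).const_add _
      rw [hi'] at h1
      have h2 : (0 : ℝ) < ((al + s n0 * be : ℚ) : ℝ) := by exact_mod_cast hg0
      filter_upwards [hl', hg, h1.eventually (gt_mem_nhds h2)] with n hn hgn hlt
      have h3 : al + s n * be < al + s n0 * be := by exact_mod_cast hlt
      refine ⟨(al + s n * be) / (al + s n0 * be), 1 - (al + s n * be) / (al + s n0 * be),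
        div_pos hgn hg0, sub_nonneg.2 ((div_le_one hg0).2 h3.le), ?_⟩
      rw [hn, hn0]
      funext l
      simp only [Pi.add_apply, Pi.smul_apply, smul_eq_mul]
      have hu := mul_inv_cancel₀ hg0.ne'
      have hv := mul_inv_cancel₀ hb0
      simp only [div_eq_mul_inv]
      linear_combination (-Yb l * (al + s n * be) * be⁻¹) * hu +
        (Yb l * ((al + s n * be) * (al + s n0 * be)⁻¹ * s n0 - s n)) * hv

end Pool.Agent.E7
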