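import Pool.Agent.Lib.MP_7e5527_ag.E7.Comm
import Pool.Agent.Lib.MP_7e5527_ag.E7.Sieg
import Pool.Agent.Lib.MP_7e5527_ag.E7.KMain

/-! Functions on the tube domain, good expansions, forms of arbitrary level. -/

open Filter Topology
open scoped ContDiff

noncomputable section

namespace Pool.Agent.E7

abbrev Fn : Type := HH → ℂ

/-- A base point. -/
def bpt : HH := ⟨Complex.I • fun l => ((one3 : Ix → ℝ) l : ℂ), smul_mem_HH one3_mem (by simp)⟩

open Classical in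
/-- A retraction onto the domain. -/
def ofC (Z : Ix → ℂ) : HH := if h : Z ∈ HH then ⟨Z, h⟩ else bpt

/-- Extension of a function on the domain. -/
def ext (F : Fn) : (Ix → ℂ) → ℂ := fun Z => F (ofC Z)

/-- Restriction to the domain. -/
def res (F : (Ix → ℂ) → ℂ) : Fn := fun Z => F Z

/-- The slash operator. -/
def sl (k : ℤ) (g : Gb) (F : Fn) : Fn := fun Z => jf g Z ^ (-k) * F (ofC (act g Z))

/-- The exponential `e((T, Z))`. -/
def eT (T : Ix → ℚ) (Z : Ix → ℂ) : ℂ := Complex.exp (2 * Real.pi * Complex.I * tr (toR ℂ T) Z)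

/-- `F` has a good expansion with coefficients `a`. -/
structure GoodC (F : Fn) (a : (Ix → ℚ) → ℂ) : Prop where
  supp : ∃ M : ℕ, 0 < M ∧ ∀ T, a T ≠ 0 → (M : ℚ) • T ∈ Lam ∧ Psd T
  fg : ∃ s : Finset ℂ, ∀ T, a T ∈ Submodule.span ℤ (s : Set ℂ)
  sum : ∀ Z : HH, HasSum (fun T => a T * eT T Z) (F Z)

/-- `F` has a good expansion. -/
def Gd (F : Fn) : Prop := ∃ a, GoodC F a

/-- The coefficients of a good function. -/
def cf (F : Fn) : (Ix → ℚ) → ℂ := Classical.epsilon (GoodC F)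

/-- The derivative in the direction `UU i`, divided by `2 π i`. -/
def dl (i : Ix) (F : Fn) : Fn :=
  fun Z => (2 * Real.pi * Complex.I)⁻¹ * fderiv ℂ (ext F) Z (toR ℂ (UU i))

/-- Holomorphic functions. -/
def IsHol (F : Fn) : Prop := ContDiffOn ℂ ∞ (ext F) HH

/-- Forms of weight `k` and some level. -/
def MF (k : ℤ) (F : Fn) : Prop :=
  (∀ γ ∈ Gam, Gd (sl k γ F)) ∧ {G | ∃ γ ∈ Gam, G = sl k γ F}.Finite

/-- Invariance under a subgroup. -/
def Inv (Δ : Subgroup Gb) (k : ℤ) (F : Fn) : Prop := ∀ δ ∈ Δ, sl k δ F = F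

/-- The coordinate functions. -/
def yF (i : Ix) : Fn := fun Z => yc (Z : Ix → ℂ) i

/-- Rational polynomials in the coordinates. -/
def pF (P : MvPolynomial Ix ℚ) : Fn := fun Z => MvPolynomial.aeval (yc (Z : Ix → ℂ)) P

/-- The form of weight four. -/
def ThF : Fn := res Kim.Th

open Classical in
/-- Coefficients of the class sums. -/
def thci (i : Ix) (T : Ix → ℚ) : ℂ := if Cong T (TT i) then Kim.kc T / 240 else 0

/-- The class sums. -/
def Thi (i : Ix) : Fn := fun Z => ∑' T, thci i T * eT T Z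

/-- `F` vanishes along the arc `h`. -/
def Van (F : Fn) (h : ℂ → Ix → ℂ) : Prop := ∀ᶠ t in 𝓝 (0 : ℂ), F (ofC (h t)) = 0

/-- A Zariski dense analytic arc whose image in the quotient lies on a curve. -/
structure Arc (h : ℂ → Ix → ℂ) : Prop where
  an : AnalyticAt ℂ h 0
  mem : h 0 ∈ HH
  dense : ∀ P : MvPolynomial Ix ℂ, (∀ᶠ t in 𝓝 (0 : ℂ), MvPolynomial.eval (h t) P = 0) → P = 0
  crv : ∀ (k : ℤ) (F : Fin 3 → Fn), (∀ i, MF k (F i) ∧ Inv Gam k (F i)) →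
    ∃ (P : MvPolynomial (Fin 3) ℂ) (m : ℕ), P ≠ 0 ∧ P.IsHomogeneous m ∧
      ∀ᶠ t in 𝓝 (0 : ℂ), MvPolynomial.eval (fun i => F i (ofC (h t))) P = 0

section Padic

variable {p : ℕ} [Fact p.Prime]

/-- A character with valuation vector `Y` in the cone. -/
structure Chr (p : ℕ) [Fact p.Prime] (q : (Ix → ℚ) → ℂ_[p]) (Y : Ix → ℚ) : Prop where
  mem : toR ℝ Y ∈ Om
  mul : ∀ T T', q (T + T') = q T * q T'
  norm : ∀ T, ‖q T‖ = (p : ℝ) ^ (-(tr T Y : ℚ) : ℝ)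

/-- The value of the expansion of `F` at `q`. -/
def evq (e : ℂ_[p] ≃+* ℂ) (q : (Ix → ℚ) → ℂ_[p]) (F : Fn) : ℂ_[p] := ∑' T, e.symm (cf F T) * q T

/-- The translate of `q` by a parabolic element. -/
def qt (e : ℂ_[p] ≃+* ℂ) (q : (Ix → ℚ) → ℂ_[p]) (A : Matrix Ix Ix ℚ) (B : Ix → ℚ) (T : Ix → ℚ) :
    ℂ_[p] := e.symm (eT T (toR ℂ B)) * q (lin (adjM A) T)

end Padic

/-- A basis of the lattice of polynomials of degree `d` in the coordinates of `rr Z`. -/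
structure PB (d : ℕ) where
  D : ℕ
  b : Fin D → MvPolynomial Ix ℚ
  indep : ∀ κ : Fin D → ℂ, ∑ α, κ α • MvPolynomial.map (algebraMap ℚ ℂ) (b α) = 0 → κ = 0
  span : ∀ ν : Ix →₀ ℕ, (ν.sum fun _ n => n) ≤ d →
    ∃ ρ : Fin D → ℚ, MvPolynomial.monomial ν 1 = ∑ α, ρ α • b α
  trans : ∀ γ ∈ Gam, ∃ R : Matrix (Fin D) (Fin D) ℤ, R.det ^ 2 = 1 ∧
    ∀ α, sl (-(d : ℤ)) γ (pF (b α)) = ∑ β, (R α β : ℂ) • pF (b β)

end Pool.Agent.E7
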