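import Pool.Agent.Lib.MP_7e5527_ag.E7.Jor

/-! The 56 dimensional representation, the groups, the lattice basis, the Siegel set. -/

noncomputable section

namespace Pool.Agent.E7

abbrev W : Type := ℂ × (Ix → ℂ) × (Ix → ℂ) × ℂ

abbrev Gb : Type := W ≃ₗ[ℂ] W

/-- The embedding of the domain. -/
def rr (Z : Ix → ℂ) : W := (1, Z, sharp Z, nrm Z)

/-- The cusp. -/
def ee : W := (0, 0, 0, 1)

def nfun (B : Ix → ℂ) (v : W) : W :=
  (v.1, v.2.1 + v.1 • B, v.2.2.1 + cross v.2.1 B + v.1 • sharp B,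
    v.2.2.2 + tr v.2.2.1 B + tr v.2.1 (sharp B) + v.1 * nrm B)

theorem nfun_neg (B : Ix → ℂ) (v : W) : nfun (-B) (nfun B v) = v := by
  obtain ⟨a, b, c, d⟩ := v
  simp only [nfun, cross_neg_right, cross_add_left, cross_smul_left, cross_self, sharp_neg,
    nrm_neg, tr_neg_right, tr_add_left, tr_smul_left, tr_cross, tr_smul_right, tr_sharp_self,
    tr_comm B (sharp B), Prod.mk.injEq, true_and]
  refine ⟨by module, by module, by ring⟩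

/-- Translation. -/
def nE (B : Ix → ℂ) : Gb where
  toFun := nfun B
  map_add' v v' := by
    simp only [nfun, Prod.fst_add, Prod.snd_add, cross_add_left, tr_add_left, Prod.mk_add_mk,
      Prod.mk.injEq, true_and]
    refine ⟨by module, by module, by ring⟩
  map_smul' c v := by
    simp only [nfun, Prod.smul_fst, Prod.smul_snd, cross_smul_left, tr_smul_left, Prod.smul_mk,
      smul_eq_mul, RingHom.id_apply, Prod.mk.injEq, true_and]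
    refine ⟨by module, by module, by ring⟩
  invFun := nfun (-B)
  left_inv v := nfun_neg B v
  right_inv v := by simpa using nfun_neg (-B) v

/-- The inversion. -/
def wE : Gb where
  toFun v := (v.2.2.2, -v.2.2.1, v.2.1, -v.1)
  map_add' v v' := by simp [add_comm]
  map_smul' c v := by simp
  invFun v := (-v.2.2.2, v.2.2.1, -v.2.1, v.1)
  left_inv v := by simp
  right_inv v := by simp

/-- The inversion in the first diagonal variable. -/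
def w0E : Gb where
  toFun v := (dg v.2.1 0,
    mkJ ![-v.1, dg v.2.2.1 2, dg v.2.2.1 1] ![-oc v.2.2.1 0, oc v.2.1 1, oc v.2.1 2],
    mkJ ![v.2.2.2, -dg v.2.1 2, -dg v.2.1 1] ![oc v.2.1 0, oc v.2.2.1 1, oc v.2.2.1 2],
    -dg v.2.2.1 0)
  map_add' v v' := by
    refine Prod.ext rfl (Prod.ext ?_ (Prod.ext ?_ ?_))
    · apply jext <;> simp [add_comm]
    · apply jext <;> simp [add_comm]
    · simp [add_comm]
  map_smul' c v := by
    refine Prod.ext rfl (Prod.ext ?_ (Prod.ext ?_ ?_))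
    · apply jext <;> simp
    · apply jext <;> simp
    · simp
  invFun v := (-dg v.2.1 0,
    mkJ ![v.1, -dg v.2.2.1 2, -dg v.2.2.1 1] ![oc v.2.2.1 0, oc v.2.1 1, oc v.2.1 2],
    mkJ ![-v.2.2.2, dg v.2.1 2, dg v.2.1 1] ![-oc v.2.1 0, oc v.2.2.1 1, oc v.2.2.1 2],
    dg v.2.2.1 0)
  left_inv v := by
    refine Prod.ext (by simp) (Prod.ext ?_ (Prod.ext ?_ (by simp)))
    · apply jext <;> simp
    · apply jext <;> simp
  right_inv v := by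
    refine Prod.ext (by simp) (Prod.ext ?_ (Prod.ext ?_ (by simp)))
    · apply jext <;> simp
    · apply jext <;> simp

/-- The cyclic permutation. -/
def cE : Gb where
  toFun v := (v.1, cyc v.2.1, cyc v.2.2.1, v.2.2.2)
  map_add' v v' := by simp [cyc_add]
  map_smul' c v := by simp [cyc_smul]
  invFun v := (v.1, cyc (cyc v.2.1), cyc (cyc v.2.2.1), v.2.2.2)
  left_inv v := by simp [cyc_cyc_cyc]
  right_inv v := by simp [cyc_cyc_cyc]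

/-- The action of `w0E` on the domain. -/
def i0 (Z : Ix → ℂ) : Ix → ℂ :=
  mkJ ![-(dg Z 0)⁻¹, (dg Z 0)⁻¹ * dg (sharp Z) 2, (dg Z 0)⁻¹ * dg (sharp Z) 1]
    ![-((dg Z 0)⁻¹ • oc (sharp Z) 0), (dg Z 0)⁻¹ • oc Z 1, (dg Z 0)⁻¹ • oc Z 2]

/-- Adjoint for the trace form. -/
def adjM (A : Matrix Ix Ix ℚ) : Matrix Ix Ix ℚ :=
  Matrix.of fun l l' => (wt l : ℚ)⁻¹ * A l' l * wt l'

/-- The matrix of a linear map. -/
def matOf (f : (Ix → ℚ) → Ix → ℚ) : Matrix Ix Ix ℚ := Matrix.of fun l l' => f (Pi.single l' 1) l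

def mfun (A : Matrix Ix Ix ℚ) (c : ℚ) (v : W) : W :=
  (v.1, lin A v.2.1, (c : ℂ) • lin (adjM A)⁻¹ v.2.2.1, c * v.2.2.2)

/-- `g` is the Levi element of `A`. -/
def IsM (A : Matrix Ix Ix ℚ) (c : ℚ) (g : Gb) : Prop := ∀ v, g v = mfun A c v

/-- Integral similitudes. -/
def IsSimZ (A : Matrix Ix Ix ℚ) : Prop := IsSim A 1 ∧ ∀ T, lin A T ∈ Lam ↔ T ∈ Lam

/-- The rational group. -/
def GG : Subgroup Gb :=
  Subgroup.closure {g | (∃ B, g = nE (toR ℂ B)) ∨ (∃ A c, IsSim A c ∧ IsM A c g) ∨ g = wE}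

/-- The arithmetic group. -/
def Gam : Subgroup Gb :=
  Subgroup.closure {g | (∃ B ∈ Lam, g = nE (toR ℂ B)) ∨ (∃ A, IsSimZ A ∧ IsM A 1 g) ∨ g = wE}

/-- Automorphy factor. -/
def jf (g : Gb) (Z : Ix → ℂ) : ℂ := (g (rr Z)).1

/-- Action on the domain. -/
def act (g : Gb) (Z : Ix → ℂ) : Ix → ℂ := (jf g Z)⁻¹ • (g (rr Z)).2.1

/-- The symplectic form. -/
def sy (v v' : W) : ℂ :=
  v.1 * v'.2.2.2 - tr v.2.1 v'.2.2.1 + tr v.2.2.1 v'.2.1 - v.2.2.2 * v'.1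

/-- `g = t n(B) m(A)` lies in the parabolic subgroup. -/
def IsP (g : Gb) (t : ℚ) (B : Ix → ℚ) (A : Matrix Ix Ix ℚ) (c : ℚ) : Prop :=
  t ≠ 0 ∧ IsSim A c ∧ ∀ v, g v = (t : ℂ) • nfun (toR ℂ B) (mfun A c v)

/-- The lattice. -/
def WZ : Set W :=
  {v | (∃ n : ℤ, v.1 = n) ∧ (∃ T ∈ Lam, v.2.1 = toR ℂ T) ∧ (∃ T ∈ Lam, v.2.2.1 = toR ℂ T) ∧
    ∃ n : ℤ, v.2.2.2 = n}

/-- The rational points. -/
def WQ : Set W :=
  {v | (∃ n : ℚ, v.1 = n) ∧ (∃ T, v.2.1 = toR ℂ T) ∧ (∃ T, v.2.2.1 = toR ℂ T) ∧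
    ∃ n : ℚ, v.2.2.2 = n}

/-- Polynomial functions. -/
def PolyFn (f : (Ix → ℂ) → ℂ) : Prop :=
  ∃ P : MvPolynomial Ix ℂ, ∀ Z, f Z = MvPolynomial.eval Z P

/-- A basis of units of the integral octonions. -/
def eps : Fin 8 → Fin 8 → ℚ :=
  ![![1, 0, 0, 0, 0, 0, 0, 0], ![0, 0, 1, 0, 0, 0, 0, 0], ![0, 0, 0, 0, 1, 0, 0, 0],
    ![0, 0, 0, 0, 0, 1, 0, 0], ![1 / 2, 1 / 2, 1 / 2, 1 / 2, 0, 0, 0, 0],
    ![1 / 2, 1 / 2, 0, 0, 1 / 2, 1 / 2, 0, 0], ![1 / 2, 0, 1 / 2, 0, 1 / 2, 0, 0, 1 / 2],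
    ![0, 0, 0, 0, 1 / 2, 1 / 2, 1 / 2, 1 / 2]]

/-- The dual basis. -/
def epd : Fin 8 → Fin 8 → ℚ :=
  ![![1 / 2, -1 / 2, 0, 0, 0, 0, 1 / 2, -1 / 2], ![0, 0, 1 / 2, -1 / 2, 0, 0, 1 / 2, -1 / 2],
    ![0, -1 / 2, 0, 1 / 2, 1 / 2, 0, 0, -1 / 2], ![0, -1 / 2, 0, 1 / 2, 0, 1 / 2, -1 / 2, 0],
    ![0, 0, 0, 1, 0, 0, 0, 0], ![0, 1, 0, -1, 0, 0, 0, 0], ![0, 0, 0, 0, 0, 0, -1, 1],
    ![0, 0, 0, 0, 0, 0, 1, 0]]

/-- A basis of the lattice made of rank one elements. -/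
def TT : Ix → Ix → ℚ :=
  Sum.elim ed fun a => mkJ (1 - Pi.single a.1 1) (Pi.single a.1 (eps a.2))

/-- The dual basis. -/
def UU : Ix → Ix → ℚ :=
  Sum.elim (fun i => mkJ (Pi.single i 1) fun s => if s = i then 0 else -∑ k, epd k)
    fun a => mkJ 0 (Pi.single a.1 (epd a.2))

/-- The lattice vector with coordinates `m`. -/
def vec (m : Ix → ℤ) : Ix → ℚ := ∑ i, (m i : ℚ) • TT i

/-- The point with dual coordinates `y`. -/
def pt {R : Type} [Field R] (y : Ix → R) : Ix → R := ∑ i, y i • toR R (UU i)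

/-- Dual coordinates. -/
def yc {R : Type} [Field R] (Y : Ix → R) (i : Ix) : R := tr (toR R (TT i)) Y

/-- The Siegel set. -/
def Sieg : Set (Ix → ℝ) :=
  {Y | ∃ (d0 d1 d2 : ℝ) (u0 u1 u2 : Fin 8 → ℝ), 0 < d0 ∧ d0 ≤ 8 * d1 ∧ d1 ≤ 8 * d2 ∧
    onorm u0 ≤ 1 ∧ onorm u1 ≤ 1 ∧ onorm u2 ≤ 1 ∧ Y = jac d0 d1 d2 u0 u1 u2}

/-- `T` is congruent to `T'` modulo `1000 Lam`. -/
def Cong (T T' : Ix → ℚ) : Prop := (1 / 1000 : ℚ) • (T - T') ∈ Lam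

end Pool.Agent.E7
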