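import Pool.Agent.Lib.MP_7e5527_ag.E7.FDefs
import Pool.Agent.Lib.MP_7e5527_ag.E7.PDefs
import Pool.Agent.Lib.MP_7e5527_ag.E7.CInt

/-! A polynomial relation between the logarithms of the Hecke points. -/

open Filter

noncomputable section

namespace Pool.Agent.E7

section Mem

variable {K F : Type} [Field K] [Field F] [Algebra K F] (F1 : IntermediateField K F)

theorem lgr_tr_mem {X Z : Ix → F} (hX : ∀ l, X l ∈ F1) (hZ : ∀ l, Z l ∈ F1) : tr X Z ∈ F1 := by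
  rw [tr_eq_sum]
  exact sum_mem fun l _ => mul_mem (mul_mem (natCast_mem F1 _) (hX l)) (hZ l)

theorem lgr_sharp_mem {X : Ix → F} (hX : ∀ l, X l ∈ F1) (l : Ix) : sharp X l ∈ F1 := by
  have h := sharp_map F1.val.toRingHom fun l => (⟨X l, hX l⟩ : F1)
  rw [show sharp X = _ from h]
  exact Subtype.property _

theorem lgr_nrm_mem {X : Ix → F} (hX : ∀ l, X l ∈ F1) : nrm X ∈ F1 := by
  have h := nrm_map F1.val.toRingHom fun l => (⟨X l, hX l⟩ : F1)
  rw [show nrm X = _ from h]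
  exact Subtype.property _

theorem lgr_alg {Y L : Ix → F} (hY : ∀ l, Y l ∈ F1) (hL : ∀ a, L (.inr a) ∈ F1)
    (h0 : ∀ i, dg Y i ≠ 0) (h1 : ∀ i, dg (sharp Y) i ≠ 0) (e1 : tr (sharp Y) L ∈ F1)
    (e2 : tr Y (sharp L) ∈ F1) (e3 : nrm L ∈ F1) (l : Ix) : IsAlgebraic F1 (L l) := by
  rcases l with i | a
  swap
  · exact isAlgebraic_algebraMap (⟨_, hL a⟩ : F1)
  have hL' : ∀ l, mkJ 0 (oc L) l ∈ F1 := by
    rintro (i | a)
    · exact zero_mem _
    · exact hL a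
  have hS := lgr_sharp_mem F1 hY
  refine integral3 F1 (dg L) (dg (sharp Y)) (dg Y) (fun i => oip (oc Y i) (oc L i))
    (fun i => onorm (oc L i)) (tr (sharp Y) L - tr (sharp Y) (mkJ 0 (oc L)))
    (tr Y (sharp L) - tr Y (sharp (mkJ 0 (oc L)))) (nrm L - nrm (mkJ 0 (oc L)))
    (fun i => hS _) h1 (fun i => hY _) h0 (fun i => ?_) (fun i => ?_)
    (sub_mem e1 (lgr_tr_mem F1 hS hL')) (sub_mem e2 (lgr_tr_mem F1 hY (lgr_sharp_mem F1 hL')))
    (sub_mem e3 (lgr_nrm_mem F1 hL')) ?_ ?_ ?_ i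
  · exact mul_mem (ofNat_mem F1 2) (sum_mem fun k _ => mul_mem (hY _) (hL _))
  · exact sum_mem fun k _ => pow_mem (hL _) 2
  · simp only [tr_eq, Fin.sum_univ_three, dg_mkJ, oc_mkJ, Pi.zero_apply]
    ring
  · simp only [tr_eq, Fin.sum_univ_three, dg_mkJ, oc_mkJ, Pi.zero_apply, dg_sharp_0, dg_sharp_1,
      dg_sharp_2, oc_sharp_0, oc_sharp_1, oc_sharp_2, oip_sub_right, oip_smul_right]
    ring
  · simp only [nrm_eq, Fin.sum_univ_three, dg_mkJ, oc_mkJ, Pi.zero_apply]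
    ring

end Mem

/-- The ultrapower. -/
def UP (K : Type) (U : Ultrafilter ℕ) : Type := Germ (U : Filter ℕ) K

section Ultra

variable {K : Type} [Field K] {U : Ultrafilter ℕ}

instance : Field (UP K U) := inferInstanceAs (Field (Germ (U : Filter ℕ) K))

/-- The class of a sequence. -/
def UP.pi (U : Ultrafilter ℕ) : (ℕ → K) →+* UP K U := Germ.coeRingHom (U : Filter ℕ)

instance : Algebra K (UP K U) := ((UP.pi U).comp (Pi.constRingHom ℕ K)).toAlgebra

theorem UP.pi_eq {f g : ℕ → K} : UP.pi U f = UP.pi U g ↔ ∀ᶠ n in (U : Filter ℕ), f n = g n :=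
  Germ.coe_eq

theorem UP.pi_const (c : K) : UP.pi U (fun _ => c) = algebraMap K (UP K U) c := rfl

theorem UP.pi_ne {f : ℕ → K} (h : ∀ n, f n ≠ 0) : UP.pi U f ≠ 0 := by
  intro h0
  rw [← map_zero (UP.pi U), UP.pi_eq] at h0
  obtain ⟨n, hn⟩ := h0.exists
  exact h n hn

/-- The class of a sequence of points. -/
def ul (U : Ultrafilter ℕ) (X : ℕ → Ix → K) : Ix → UP K U := fun l => UP.pi U fun n => X n l

theorem ul_tr (X Z : ℕ → Ix → K) : tr (ul U X) (ul U Z) = UP.pi U fun n => tr (X n) (Z n) := by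
  refine (tr_map (UP.pi U) (fun l n => X n l) fun l n => Z n l).trans (congrArg _ ?_)
  funext n
  simp only [tr_eq_sum, Finset.sum_apply, Pi.mul_apply, Pi.natCast_apply]

theorem ul_sharp (X : ℕ → Ix → K) : sharp (ul U X) = ul U fun n => sharp (X n) :=
  (sharp_map (UP.pi U) fun l n => X n l).trans (funext fun l => congrArg _ (funext fun n =>
    (congrFun (sharp_map (Pi.evalRingHom (fun _ => K) n) fun l n => X n l) l).symm))

theorem ul_nrm (X : ℕ → Ix → K) : nrm (ul U X) = UP.pi U fun n => nrm (X n) :=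
  (nrm_map (UP.pi U) fun l n => X n l).trans (congrArg _ (funext fun n =>
    (nrm_map (Pi.evalRingHom (fun _ => K) n) fun l n => X n l).symm))

theorem ul_aeval {σ : Type} (x : ℕ → σ → K) (P : MvPolynomial σ K) :
    MvPolynomial.aeval (fun i => UP.pi U fun n => x n i) P =
      UP.pi U fun n => MvPolynomial.eval (x n) P := by
  induction P using MvPolynomial.induction_on with
  | C a => simp only [MvPolynomial.aeval_C, MvPolynomial.eval_C, UP.pi_const]
  | add P Q hP hQ =>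
    simp only [map_add, hP, hQ]
    exact (map_add _ _ _).symm
  | mul_X P i hP =>
    simp only [map_mul, hP, MvPolynomial.aeval_X, MvPolynomial.eval_X]
    exact (map_mul _ _ _).symm

theorem lgr_main (Y L : ℕ → Ix → K) (Ya Yb : Ix → K) (s : ℕ → K)
    (hs : ∀ᶠ n in (U : Filter ℕ), Y n = Ya + s n • Yb) (h0 : ∀ n i, dg (Y n) i ≠ 0)
    (h1 : ∀ n i, dg (sharp (Y n)) i ≠ 0) (k1 k2 k3 : K)
    (e1 : ∀ n, tr (sharp (Y n)) (L n) = k1 * nrm (Y n))
    (e2 : ∀ n, tr (Y n) (sharp (L n)) = k2 * nrm (Y n)) (e3 : ∀ n, nrm (L n) = k3 * nrm (Y n))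
    {τ : Type} [Fintype τ] (hτ : 25 < Fintype.card τ) (w : τ → Ix → K) :
    ∃ P : MvPolynomial τ K, P ≠ 0 ∧
      ∀ᶠ n in (U : Filter ℕ), MvPolynomial.eval (fun t => tr (w t) (L n)) P = 0 := by
  let g : Option (Fin 3 × Fin 8) → UP K U := fun o => o.elim (UP.pi U s) fun a => ul U L (.inr a)
  let F1 := IntermediateField.adjoin K (Set.range g)
  have hg : ∀ o, g o ∈ F1 := fun o => IntermediateField.subset_adjoin _ _ ⟨o, rfl⟩
  have hY : ∀ l, ul U Y l ∈ F1 := by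
    intro l
    have : ul U Y l = algebraMap K _ (Ya l) + g none * algebraMap K _ (Yb l) := by
      rw [← UP.pi_const, ← UP.pi_const]
      refine Eq.trans (UP.pi_eq.2 ?_) ((map_add _ _ _).trans (congrArg _ (map_mul _ _ _)))
      filter_upwards [hs] with n hn
      rw [hn]
      rfl
    rw [this]
    exact add_mem (F1.algebraMap_mem _) (mul_mem (hg none) (F1.algebraMap_mem _))
  have hk : ∀ (k : K) (f : ℕ → K), (∀ n, f n = k * nrm (Y n)) → UP.pi U f ∈ F1 := by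
    intro k f hf
    have : UP.pi U f = algebraMap K _ k * nrm (ul U Y) := by
      rw [ul_nrm, ← UP.pi_const, ← map_mul]
      exact congrArg _ (funext hf)
    rw [this]
    exact mul_mem (F1.algebraMap_mem _) (lgr_nrm_mem F1 hY)
  have hA : ∀ l, IsAlgebraic F1 (ul U L l) := lgr_alg F1 hY (fun a => hg (some a))
    (fun i => UP.pi_ne fun n => h0 n i) (fun i => by rw [ul_sharp]; exact UP.pi_ne fun n => h1 n i)
    (by rw [ul_sharp, ul_tr]; exact hk _ _ e1) (by rw [ul_sharp, ul_tr]; exact hk _ _ e2)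
    (by rw [ul_nrm]; exact hk _ _ e3)
  obtain ⟨P, hP, h⟩ := exists_rel_of_gen (K := K) g (fun t => UP.pi U fun n => tr (w t) (L n))
    (by simpa using hτ) fun t => by
      rw [← ul_tr (fun _ => w t) L, ← mem_algebraicClosure_iff]
      refine lgr_tr_mem (algebraicClosure F1 (UP K U)) (fun l => ?_) fun l =>
        mem_algebraicClosure_iff.2 (hA l)
      exact (algebraicClosure F1 (UP K U)).algebraMap_mem ⟨_, F1.algebraMap_mem (w t l)⟩
  refine ⟨P, hP, ?_⟩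
  rw [ul_aeval (fun n t => tr (w t) (L n)), ← map_zero (UP.pi U), UP.pi_eq] at h
  exact h

end Ultra

variable {p : ℕ} [Fact p.Prime]

theorem IsLog.root {Lg : ℂ_[p] → ℂ_[p]} (h : IsLog Lg) {x : ℂ_[p]} {m : ℕ} (hm : m ≠ 0)
    (hx : x ^ m = 1) : Lg x = 0 := by
  have h0 : x ≠ 0 := fun h0 => by simp [h0, hm] at hx
  have h1 : Lg 1 = 0 := by simpa using h 1 1 one_ne_zero one_ne_zero
  have h2 : ∀ k : ℕ, Lg (x ^ k) = k * Lg x := by
    intro k
    induction k with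
    | zero => simp [h1]
    | succ k ih =>
      rw [pow_succ, h _ _ (pow_ne_zero _ h0) h0, ih]
      push_cast
      ring
  have h3 := h2 m
  rw [hx, h1] at h3
  exact (mul_eq_zero.1 h3.symm).resolve_left (Nat.cast_ne_zero.2 hm)

theorem lgr_eT (T B : Ix → ℚ) : eT T (toR ℂ B) ^ (tr T B).den = 1 := by
  rw [eT, tr_toR, ← Complex.exp_nat_mul, Complex.exp_eq_one_iff]
  refine ⟨(tr T B).num, ?_⟩
  have : (((tr T B).den : ℚ) * tr T B : ℚ) = (tr T B).num := Rat.den_mul_eq_num _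
  have h2 : ((tr T B).den : ℂ) * ((tr T B : ℚ) : ℂ) = ((tr T B).num : ℂ) := by exact_mod_cast this
  rw [← h2]
  ring

theorem lgr_log {q : (Ix → ℚ) → ℂ_[p]} {Y : Ix → ℚ} (hq : Chr p q Y) {Lg : ℂ_[p] → ℂ_[p]}
    (hLg : IsLog Lg) : ∃ L0 : Ix → ℂ_[p], ∀ (e : ℂ_[p] ≃+* ℂ) A B T,
      Lg (qt e q A B T) = tr (toR ℂ_[p] T) (lin A L0) := by
  have hne : ∀ T, q T ≠ 0 := fun T => by
    rw [← norm_pos_iff, hq.norm]
    exact Real.rpow_pos_of_pos (Nat.cast_pos.2 (Fact.out : p.Prime).pos) _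
  let f : (Ix → ℚ) →+ ℂ_[p] := AddMonoidHom.mk' (fun T => Lg (q T)) fun T T' => by
    rw [hq.mul, hLg _ _ (hne T) (hne T')]
  have hf : ∀ T, Lg (q T) = tr (toR ℂ_[p] T) (pt fun i => f (TT i)) := by
    intro T
    rw [show Lg (q T) = f T from rfl, pt, tr_sum_right]
    conv_lhs => rw [← latJ_sum_TT T, map_sum]
    refine Finset.sum_congr rfl fun i _ => ?_
    rw [tr_smul_right, tr_toR, mul_comm]
    exact map_ratCast_smul f ℚ ℂ_[p] (tr T (UU i)) (TT i)
  refine ⟨pt fun i => f (TT i), fun e A B T => ?_⟩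
  have h1 : e.symm (eT T (toR ℂ B)) ^ (tr T B).den = 1 := by rw [← map_pow, lgr_eT, map_one]
  rw [qt, hLg _ _ (fun h0 => by simp [h0] at h1) (hne _), hLg.root (tr T B).den_nz h1, zero_add,
    hf, tr_lin, lin_toR]

/-- The field `lgr` of `Data`. -/
theorem lgr_e7 (e : ℂ_[p] ≃+* ℂ) {q : (Ix → ℚ) → ℂ_[p]} {Y : Ix → ℚ} (hq : Chr p q Y)
    (A : ℕ → Matrix Ix Ix ℚ) (c : ℕ → ℚ) (B : ℕ → Ix → ℚ) (hA : ∀ n, IsSim (A n) (c n))
    (Lg : ℂ_[p] → ℂ_[p]) (hLg : IsLog Lg) (U : Ultrafilter ℕ) (y0 a : Ix → ℚ)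
    (h : ∀ᶠ n in (U : Filter ℕ), ∃ s : ℚ, yc (lin (A n) Y) = y0 + s • a) :
    ∃ P : MvPolynomial Ix ℂ_[p], P ≠ 0 ∧ InvDir P a ∧ ∀ᶠ n in (U : Filter ℕ),
      MvPolynomial.eval (fun i => Lg (qt e q (A n) (B n) (TT i))) P = 0 := by
  classical
  obtain ⟨L0, hL0⟩ := lgr_log hq hLg
  obtain ⟨i0, hi0⟩ : ∃ i0, ∀ j, a j / a i0 * a i0 = a j := by
    by_cases ha : ∃ i, a i ≠ 0
    · obtain ⟨i, hi⟩ := ha
      exact ⟨i, fun j => div_mul_cancel₀ _ hi⟩
    · push Not at ha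
      exact ⟨.inl 0, fun j => by simp [ha]⟩
  have hOm : ∀ n, toR ℝ (lin (A n) Y) ∈ Om := fun n => by
    rw [← lin_toR]
    exact ((hA n).2.2 _).2 hq.mem
  have hN : nrm (toR ℂ_[p] Y) ≠ 0 := by
    have := hq.mem.2.2
    rw [nrm_toR] at this ⊢
    exact_mod_cast this.ne'
  have key : ∀ n (X Z : Ix → ℂ_[p]), tr (sharp (lin (A n) X)) (lin (A n) Z) =
      c n * tr (sharp X) Z := fun n X Z => by
    rw [(hA n).sharp_lin e.toRingHom, tr_smul_left, tr_lin,
      lin_lin_inv (by rw [det_adjM]; exact (hA n).1)]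
  choose! s hs using fun n (hn : ∃ s : ℚ, yc (lin (A n) Y) = y0 + s • a) => hn
  obtain ⟨P, hP, hz⟩ := lgr_main (U := U) (fun n => lin (A n) (toR ℂ_[p] Y))
    (fun n => lin (A n) L0) (toR _ (pt y0)) (toR _ (pt a)) (fun n => (s n : ℂ_[p]))
    (h.mono fun n hn => by
      rw [lin_toR, ← toR_smul, ← toR_add, ← pt_smul, ← pt_add, ← hs n hn, pt_yc])
    (fun n i => by
      have := Om.dg_pos (hOm n) i
      rw [lin_toR]
      rw [dg_toR] at this ⊢
      exact_mod_cast this.ne')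
    (fun n i => by
      have := Om.dg_sharp_pos (hOm n) i
      rw [lin_toR]
      rw [sharp_toR, dg_toR] at this ⊢
      exact_mod_cast this.ne')
    (tr (sharp (toR ℂ_[p] Y)) L0 / nrm (toR ℂ_[p] Y))
    (tr (sharp L0) (toR ℂ_[p] Y) / nrm (toR ℂ_[p] Y)) (nrm L0 / nrm (toR ℂ_[p] Y))
    (fun n => by rw [key, (hA n).nrm_lin e.toRingHom]; field_simp)
    (fun n => by rw [tr_comm, key, (hA n).nrm_lin e.toRingHom]; field_simp)
    (fun n => by rw [(hA n).nrm_lin e.toRingHom, (hA n).nrm_lin e.toRingHom]; field_simp)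
    (τ := {j // j ≠ i0}) (by simp)
    fun j => toR ℂ_[p] (TT j) - ((a j / a i0 : ℚ) : ℂ_[p]) • toR ℂ_[p] (TT i0)
  let w : {j // j ≠ i0} → MvPolynomial Ix ℂ_[p] := fun j =>
    MvPolynomial.X j.1 - MvPolynomial.C ((a j / a i0 : ℚ) : ℂ_[p]) * MvPolynomial.X i0
  refine ⟨MvPolynomial.aeval w P, fun h0 => hP ?_, fun R _ _ v t => ?_, hz.mono fun n hn => ?_⟩
  · have h1 := congrArg (MvPolynomial.aeval fun i : Ix =>
      if h : i = i0 then (0 : MvPolynomial {j // j ≠ i0} ℂ_[p]) else MvPolynomial.X ⟨i, h⟩) h0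
    rw [map_zero, ← AlgHom.comp_apply, MvPolynomial.comp_aeval] at h1
    rw [← h1, ← MvPolynomial.aeval_X_left_apply P, MvPolynomial.aeval_X_left_apply]
    conv_lhs => rw [← MvPolynomial.aeval_X_left_apply P]
    congr 2
    funext j
    simp [w, j.2]
  · rw [← AlgHom.comp_apply, MvPolynomial.comp_aeval, ← AlgHom.comp_apply, MvPolynomial.comp_aeval]
    congr 2
    funext j
    have h1 : algebraMap ℂ_[p] R ((a j / a i0 : ℚ) : ℂ_[p]) * algebraMap ℂ_[p] R (a i0 : ℂ_[p]) =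
        algebraMap ℂ_[p] R (a j : ℂ_[p]) := by
      rw [← map_mul, ← Rat.cast_mul, hi0]
    simp only [w, map_sub, map_mul, MvPolynomial.aeval_X, MvPolynomial.aeval_C]
    linear_combination (-t) * h1
  · rw [← hn, ← MvPolynomial.coe_aeval_eq_eval, ← MvPolynomial.coe_aeval_eq_eval]
    show MvPolynomial.aeval _ (MvPolynomial.aeval w P) = MvPolynomial.aeval _ P
    rw [← AlgHom.comp_apply, MvPolynomial.comp_aeval]
    congr 2
    funext j
    simp only [w, map_sub, map_mul, MvPolynomial.aeval_X, MvPolynomial.aeval_C, hL0, tr_sub_left,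
      tr_smul_left]
    rfl

end Pool.Agent.E7
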