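import Pool.Agent.Lib.MP_7e5527_ag.E7.SRE

/-! The Wronskian oracle. -/

noncomputable section

namespace Pool.Agent.E7

variable {p : ℕ} [Fact p.Prime]

open MvPolynomial in
/-- A relation among monomials gives a relation among the members of a spanning family. -/
theorem orc_rel {σ L R : Type} [CommRing L] [IsDomain L] [CommRing R] [Algebra R L]
    (D : Derivation R L L) (φ : ℚ →+* L) (hφ : ∀ r, D (φ r) = 0) (u v : L) (huv : v * u = 1)
    (hv : D v = 0) (z : σ → L) {N d : ℕ} (b : Fin N → MvPolynomial σ ℚ)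
    (hb : ∀ ν : σ →₀ ℕ, (ν.sum fun _ n => n) ≤ d →
      ∃ ρ : Fin N → ℚ, monomial ν 1 = ∑ α, ρ α • b α)
    (P : MvPolynomial σ L) (h0 : P ≠ 0) (hd : P.totalDegree ≤ d) (hD : ∀ m, D (P.coeff m) = 0)
    (hz : eval z P = 0) :
    ∃ c : Fin N → L, c ≠ 0 ∧ (∀ α, D (c α) = 0) ∧
      ∑ α, c α * eval₂ φ (fun i => u * z i) (b α) = 0 := by
  classical
  choose! ρ hρ using hb
  have hv0 : v ≠ 0 := left_ne_zero_of_mul_eq_one huv
  have hvn : ∀ n : ℕ, D (v ^ n) = 0 := fun n => by rw [Derivation.leibniz_pow, hv]; simp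
  let c : Fin N → L := fun α => ∑ ν ∈ P.support, P.coeff ν * v ^ (ν.sum fun _ n => n) * φ (ρ ν α)
  have key : ∑ α, C (c α) * map φ (b α) =
      ∑ ν ∈ P.support, monomial ν (P.coeff ν * v ^ (ν.sum fun _ n => n)) := by
    simp only [c, map_sum, Finset.sum_mul]
    rw [Finset.sum_comm]
    refine Finset.sum_congr rfl fun ν hν => ?_
    have h1 := congrArg (map φ) (hρ ν ((le_totalDegree hν).trans hd))
    rw [map_monomial, map_one, map_sum] at h1
    have h2 : (monomial ν (P.coeff ν * v ^ (ν.sum fun _ n => n)) : MvPolynomial σ L) =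
        C (P.coeff ν * v ^ (ν.sum fun _ n => n)) * monomial ν 1 := by
      rw [C_mul_monomial, mul_one]
    rw [h2, h1, Finset.mul_sum]
    refine Finset.sum_congr rfl fun α _ => ?_
    rw [smul_eq_C_mul, map_mul (map φ), map_C, map_mul C _ (φ _), mul_assoc]
  refine ⟨c, fun hc => ?_, fun α => ?_, ?_⟩
  · obtain ⟨ν, hν⟩ := support_nonempty.2 h0
    have h1 := congrArg (coeff ν) key
    simp only [hc, Pi.zero_apply, map_zero, zero_mul, Finset.sum_const_zero, coeff_zero, coeff_sum,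
      coeff_monomial, Finset.sum_ite_eq', if_pos hν] at h1
    exact mul_ne_zero (mem_support_iff.1 hν) (pow_ne_zero _ hv0) h1.symm
  · simp only [c, map_sum, Derivation.leibniz, hφ, hD, hvn, smul_zero, add_zero,
      Finset.sum_const_zero]
  · have h1 := congrArg (eval fun i => u * z i) key
    simp only [map_sum, map_mul, eval_C, eval_map, eval_monomial] at h1
    rw [h1, ← hz, eval_eq]
    refine Finset.sum_congr rfl fun ν _ => ?_
    simp only [Finsupp.prod, Finsupp.sum, mul_pow, Finset.prod_mul_distrib,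
      Finset.prod_pow_eq_pow_sum]
    rw [mul_assoc, ← mul_assoc (v ^ _), ← mul_pow, huv, one_pow, one_mul]

open MvPolynomial in
/-- The chain rule extends to polynomials. -/
theorem orc_chain {σ Q L R : Type} [Fintype σ] [DecidableEq σ] [CommRing Q] [CommRing L]
    [CommRing R] [Algebra R L] (D : Derivation R L L) (ε : Q →+* L) (z : σ → L) (del : σ → Q → Q)
    (hch : ∀ F, D (ε F) = ∑ i, ε (del i F) * D (z i)) (w : Q) (hw : D (ε w) = 0)
    (dd : σ → Derivation ℤ (MvPolynomial σ Q) (MvPolynomial σ Q))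
    (h1 : ∀ i c, dd i (C c) = C (del i c)) (h2 : ∀ i j, dd i (X j) = if i = j then C w else 0)
    (G : MvPolynomial σ Q) :
    D (eval₂Hom ε (fun i => ε w * z i) G) =
      ∑ i, eval₂Hom ε (fun i => ε w * z i) (dd i G) * D (z i) := by
  induction G using MvPolynomial.induction_on with
  | C a => simp only [h1, eval₂Hom_C, hch]
  | add f g hf hg => simp only [map_add, hf, hg, add_mul, Finset.sum_add_distrib]
  | mul_X f j hf =>
    simp only [map_mul, map_add, Derivation.leibniz, smul_eq_mul, eval₂Hom_X', hf, hw, h2, add_mul,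
      Finset.sum_add_distrib, mul_zero, add_zero, apply_ite (eval₂Hom ε fun i => ε w * z i),
      eval₂Hom_C, map_zero, mul_ite, ite_mul, zero_mul, Finset.sum_ite_eq', Finset.mem_univ,
      if_true, Finset.mul_sum, mul_assoc]

/-- Work in `MvPolynomial Ix GZ` with the derivations of `exists_dP`. The Wronskian `Ψ` there has
`Ψ ^ 4 = C (ψ d)` by `aeval_yF_inj`, `Wr.map_Psi`, `aeval_map_pF`. Extend `ε` by
`X i ↦ (2 π i)⁻¹ z i` (constants moved by `e.symm`); the chain rule extends by induction. With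
`P.span` the relation `∑ c ν z ^ ν = 0` becomes a relation among the `b α` with coefficients
`∑ c ν (2 π i) ^ |ν| ρ ν α`, not all zero because the sum of these times the `b α` is a non zero
polynomial over `L`. Apply `Wr.psi_zero_of_rel`. -/
theorem oracle_E7 (e : ℂ_[p] ≃+* ℂ) (k : Option Ix → ℤ) (Φ : Ix → GZ) (i1 : Ix) (P : ∀ d, PB d)
    (ψ : ℕ → GZ) (hψ : ∀ d, (ψ d : Fn) = PsiF k (FF fun j => Φ j) i1 (P d) ^ 4) :
    Oracle (SRE e) Φ ψ := by
  intro L _ _ _ D ε z hcst hch hΦ _ hz d Pp h0 hd hD hev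
  have hκ : ∀ c : ℂ, D (ε (algebraMap ℂ GZ c)) = 0 := fun c => by
    have h := hcst (e.symm c)
    have h' : (SRE e).cst (e.symm c) = algebraMap ℂ GZ c := by
      change algebraMap ℂ GZ (e (e.symm c)) = _
      rw [e.apply_symm_apply]
    rw [h'] at h
    rw [h, Derivation.map_algebraMap]
  have hπ : (2 * Real.pi * Complex.I : ℂ) ≠ 0 := Complex.two_pi_I_ne_zero
  obtain ⟨dd, h1, h2, h3⟩ := exists_dP (𝒮 := GZ) (GZ_le.trans GQ_le_Hol)
    fun i F hF => GZ.dl_mem i hF
  let w : GZ := algebraMap ℂ GZ (2 * Real.pi * Complex.I)⁻¹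
  let φ0 : ℚ →+* GZ := (algebraMap ℂ GZ).comp (algebraMap ℚ ℂ)
  let F' : Option Ix → MvPolynomial Ix GZ := fun o =>
    o.elim (MvPolynomial.C ⟨ThF, ThF_mem⟩) fun j => MvPolynomial.C (Φ j)
  let b' : Fin (P d).D → MvPolynomial Ix GZ := fun α => MvPolynomial.map φ0 ((P d).b α)
  let Ψ : MvPolynomial Ix GZ := Wr.Psi (fun i => dd i) k F' i1 (Wr.wStep k i1 18) (-(d : ℤ)) b'
  have hΨ : MvPolynomial.aeval yF Ψ = PsiF k (FF fun j => Φ j) i1 (P d) := by
    have h := Wr.map_Psi (dl := fun i => dd i) (dl' := dl)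
      (MvPolynomial.aeval yF : MvPolynomial Ix GZ →ₐ[GZ] Fn).toRingHom h3 k F' i1
      (Wr.wStep k i1 18) (-(d : ℤ)) b'
    refine h.trans ?_
    unfold PsiF
    congr 1
    · funext o
      cases o with
      | none => exact MvPolynomial.aeval_C yF _
      | some j => exact MvPolynomial.aeval_C yF _
    · funext α
      exact aeval_map_pF GZ _
  have h4 : Ψ ^ 4 = MvPolynomial.C (ψ d) := by
    apply aeval_yF_inj GZ_le
    rw [map_pow, hΨ, MvPolynomial.aeval_C, ← hψ]
    rfl
  obtain ⟨c, hc, hcD, hrel⟩ := orc_rel D (ε.comp φ0) (fun r => hκ _) (ε w)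
    (ε (algebraMap ℂ GZ (2 * Real.pi * Complex.I)))
    (by rw [← map_mul, ← map_mul, mul_inv_cancel₀ hπ, map_one, map_one]) (hκ _) z (P d).b
    (P d).span Pp h0 hd hD hev
  have h5 := Wr.psi_zero_of_rel (fun i => dd i) k F' i1 D
    (MvPolynomial.eval₂Hom ε fun i => ε w * z i) (fun i => D (z i))
    (orc_chain D ε z (SRE e).del hch w (hκ _) dd h1 h2)
    (fun j _ => (MvPolynomial.eval₂Hom_C _ _ _).trans (hΦ j)) hz (Wr.wStep k i1 18) (-(d : ℤ)) b' c
    hc hcD (by
      rw [← hrel]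
      refine Finset.sum_congr rfl fun α _ => ?_
      rw [MvPolynomial.coe_eval₂Hom, MvPolynomial.eval₂_map])
  have h6 := congrArg (MvPolynomial.eval₂Hom ε fun i => ε w * z i) h4
  rw [map_pow, h5, MvPolynomial.eval₂Hom_C] at h6
  rw [← h6]
  exact zero_pow (by norm_num)

end Pool.Agent.E7
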