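import Pool.Agent.Lib.MP_7e5527_ag.E7.Sl

/-! The lattice of polynomials of degree `d` in the coordinates of `rr Z`. -/

noncomputable section

namespace Pool.Agent.E7

open MvPolynomial

theorem pb_eq (P : MvPolynomial Ix ℚ) : pF P = aeval yF P := by
  funext Z
  exact (congrArg (fun f => f P) (comp_aeval yF (Pi.evalAlgHom ℚ (fun _ : HH => ℂ) Z))).symm

theorem pF_inj : Function.Injective pF := by
  have h0 : ∀ P : MvPolynomial Ix ℚ, PolyFn fun Z => aeval (yc Z) P := fun P => by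
    induction P using MvPolynomial.induction_on with
    | C a => simpa using PolyFn.const _
    | add P Q hP hQ => simpa using hP.add hQ
    | mul_X P i hP =>
      simp only [map_mul, aeval_X]
      refine hP.mul ?_
      simp only [yc, tr_eq_sum]
      exact PolyFn.sum _ fun l _ => (PolyFn.const _).mul (PolyFn.coord l)
  intro P Q h
  rw [← sub_eq_zero]
  refine map_injective (algebraMap ℚ ℂ) (algebraMap ℚ ℂ).injective ?_
  rw [map_zero]
  refine MvPolynomial.funext fun y => ?_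
  have h1 := (h0 (P - Q)).eq_zero (fun Z hZ => by
    rw [map_sub]
    exact sub_eq_zero.2 (congrFun h ⟨Z, hZ⟩)) (pt y)
  rw [yc_pt] at h1
  rw [eval_map, map_zero]
  exact h1

abbrev PbI : Type := Unit ⊕ Ix ⊕ Ix ⊕ Unit

/-- The integral coordinates. -/
def pbL : PbI → W → ℂ :=
  Sum.elim (fun _ v => v.1) (Sum.elim (fun i v => yc v.2.1 i)
    (Sum.elim (fun i v => yc v.2.2.1 i) fun _ v => v.2.2.2))

/-- The basis of the lattice. -/
def pbE : PbI → W :=
  Sum.elim (fun _ => (1, 0, 0, 0)) (Sum.elim (fun i => (0, toR ℂ (UU i), 0, 0))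
    (Sum.elim (fun i => (0, 0, toR ℂ (UU i), 0)) fun _ => (0, 0, 0, 1)))

/-- The universal point. -/
def pbZ : Ix → MvPolynomial Ix ℚ := fun l => ∑ i, X i * C (UU i l)

/-- The coordinates of `rr Z` as polynomials. -/
def pbP : PbI → MvPolynomial Ix ℚ :=
  Sum.elim (fun _ => 1) (Sum.elim X
    (Sum.elim (fun i => tr (fun l => C (TT i l)) (sharp pbZ)) fun _ => nrm pbZ))

theorem pb_add (s : PbI) (v w : W) : pbL s (v + w) = pbL s v + pbL s w := by
  rcases s with _ | i | i | _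
  · rfl
  · exact congrFun (yc_add _ _) i
  · exact congrFun (yc_add _ _) i
  · rfl

theorem pb_smul (s : PbI) (c : ℂ) (v : W) : pbL s (c • v) = c * pbL s v := by
  rcases s with _ | i | i | _
  · rfl
  · exact congrFun (yc_smul _ _) i
  · exact congrFun (yc_smul _ _) i
  · rfl

theorem pb_sum (v : W) : ∑ t, pbL t v • pbE t = v := by
  obtain ⟨a, b, c, d⟩ := v
  have h1 : ∑ i, yc b i • toR ℂ (UU i) = b := pt_yc b
  have h2 : ∑ i, yc c i • toR ℂ (UU i) = c := pt_yc c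
  simp only [Fintype.sum_sum_type (α₁ := Unit), Fintype.sum_sum_type (α₁ := Ix), pbL, pbE,
    Sum.elim_inl, Sum.elim_inr]
  refine Prod.ext ?_ (Prod.ext ?_ (Prod.ext ?_ ?_)) <;>
    simp only [Prod.fst_add, Prod.snd_add, Prod.fst_sum, Prod.snd_sum, Prod.smul_mk, smul_zero,
      Finset.sum_const_zero, h1, h2, add_zero, zero_add, smul_eq_mul, mul_one, mul_zero,
      Finset.univ_unique, Finset.sum_singleton]

theorem pb_mem (t : PbI) : pbE t ∈ WZ := by
  have h0 : ∃ T ∈ Lam, (0 : Ix → ℂ) = toR ℂ T := ⟨0, Lam.zero, toR_zero.symm⟩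
  rcases t with _ | i | i | _
  · exact ⟨⟨1, by simp [pbE]⟩, h0, h0, 0, by simp [pbE]⟩
  · exact ⟨⟨0, by simp [pbE]⟩, ⟨_, UU_mem i, rfl⟩, h0, 0, by simp [pbE]⟩
  · exact ⟨⟨0, by simp [pbE]⟩, h0, ⟨_, UU_mem i, rfl⟩, 0, by simp [pbE]⟩
  · exact ⟨⟨0, by simp [pbE]⟩, h0, h0, 1, by simp [pbE]⟩

theorem pb_int (s : PbI) {v : W} (h : v ∈ WZ) : ∃ n : ℤ, pbL s v = n := by
  have h0 : ∀ {b : Ix → ℂ} (i : Ix), (∃ T ∈ Lam, b = toR ℂ T) → ∃ n : ℤ, yc b i = n := by
    rintro _ i ⟨T, hT, rfl⟩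
    obtain ⟨n, hn⟩ := Lam.tr_int (TT_mem i) hT
    exact ⟨n, by rw [yc, tr_toR, hn, Rat.cast_intCast]⟩
  rcases s with _ | i | i | _
  exacts [h.1, h0 i h.2.1, h0 i h.2.2.1, h.2.2.2]

theorem pb_val (s : PbI) (Z : HH) : pF (pbP s) Z = pbL s (rr Z) := by
  have h : (fun l => (aeval (yc (Z : Ix → ℂ)) : MvPolynomial Ix ℚ →ₐ[ℚ] ℂ).toRingHom (pbZ l)) =
      Z := by
    funext l
    have := congrFun (pt_yc (Z : Ix → ℂ)) l
    simpa [pbZ, pt, toR] using this
  rcases s with _ | i | i | _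
  · exact map_one (aeval (yc (Z : Ix → ℂ)) : MvPolynomial Ix ℚ →ₐ[ℚ] ℂ)
  · exact aeval_X _ i
  · refine (tr_map (aeval (yc (Z : Ix → ℂ)) : MvPolynomial Ix ℚ →ₐ[ℚ] ℂ).toRingHom _ _).symm.trans ?_
    rw [← sharp_map, h]
    change _ = tr (toR ℂ (TT i)) (sharp (Z : Ix → ℂ))
    congr 1
    funext l
    simp [toR]
  · refine (nrm_map (aeval (yc (Z : Ix → ℂ)) : MvPolynomial Ix ℚ →ₐ[ℚ] ℂ).toRingHom _).symm.trans ?_
    rw [h]
    rfl

/-- The lattice spanned by the coordinates. -/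
def pbM : Submodule ℤ (MvPolynomial Ix ℚ) := Submodule.span ℤ (Set.range pbP)

theorem pb_zsmul (k : ℤ) (g : Gb) (z : ℤ) (F : Fn) : sl k g (z • F) = z • sl k g F := by
  rw [← Int.cast_smul_eq_zsmul ℂ, sl_smul, Int.cast_smul_eq_zsmul]

theorem pb_one {γ : Gb} (hγ : γ ∈ Gam) {P : MvPolynomial Ix ℚ} (hP : P ∈ pbM) :
    ∃ P' ∈ pbM, sl (-1) γ (pF P) = pF P' := by
  induction hP using Submodule.span_induction with
  | mem P hP =>
    obtain ⟨s, rfl⟩ := hP
    choose n hn using fun t => pb_int s (WZ_map hγ (pb_mem t))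
    refine ⟨∑ t, n t • pbP t, pbM.sum_mem fun t _ =>
      pbM.smul_mem _ (Submodule.subset_span ⟨t, rfl⟩), funext fun Z => ?_⟩
    obtain ⟨-, h1, h2⟩ := act_spec (Gam_le hγ) Z.2
    have h3 : ∀ F : Finset PbI, pbL s (γ (∑ t ∈ F, pbL t (rr Z) • pbE t)) =
        ∑ t ∈ F, n t • pF (pbP t) Z := fun F => by
      classical
      induction F using Finset.induction_on with
      | empty => simpa using pb_smul s 0 0
      | insert t F ht ih =>
        rw [Finset.sum_insert ht, Finset.sum_insert ht, map_add, pb_add, ih, map_smul, pb_smul, hn,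
          pb_val, zsmul_eq_mul, mul_comm]
    rw [sl, pb_val, coe_ofC h1, neg_neg, zpow_one, ← pb_smul, ← h2, ← pb_sum (rr Z), h3]
    simp only [pF, map_sum, map_zsmul]
  | zero => exact ⟨0, pbM.zero_mem, by rw [pb_eq, map_zero, sl_zero]⟩
  | add P Q _ _ hP hQ =>
    obtain ⟨P', h1, h2⟩ := hP
    obtain ⟨Q', h3, h4⟩ := hQ
    refine ⟨_, pbM.add_mem h1 h3, ?_⟩
    simp only [pb_eq, map_add, sl_add] at h2 h4 ⊢
    rw [h2, h4]
  | smul z P _ hP =>
    obtain ⟨P', h1, h2⟩ := hP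
    refine ⟨_, pbM.smul_mem z h1, ?_⟩
    simp only [pb_eq, map_zsmul, pb_zsmul] at h2 ⊢
    rw [h2]

theorem pb_pow {γ : Gb} (hγ : γ ∈ Gam) {d : ℕ} {P : MvPolynomial Ix ℚ} (hP : P ∈ pbM ^ d) :
    ∃ P' ∈ pbM ^ d, sl (-(d : ℤ)) γ (pF P) = pF P' := by
  induction hP using Submodule.pow_induction_on_left' with
  | algebraMap r =>
    refine ⟨_, Submodule.algebraMap_mem r, ?_⟩
    rw [Algebra.algebraMap_eq_smul_one, pb_eq, map_zsmul, map_one, pb_zsmul, Nat.cast_zero,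
      neg_zero, sl_zero_one]
  | add P Q i _ _ hP hQ =>
    obtain ⟨P', h1, h2⟩ := hP
    obtain ⟨Q', h3, h4⟩ := hQ
    refine ⟨_, Submodule.add_mem _ h1 h3, ?_⟩
    simp only [pb_eq, map_add, sl_add] at h2 h4 ⊢
    rw [h2, h4]
  | mem_mul m hm i P _ hP =>
    obtain ⟨P', h1, h2⟩ := hP
    obtain ⟨m', h3, h4⟩ := pb_one hγ hm
    refine ⟨m' * P', pow_succ' pbM i ▸ Submodule.mul_mem_mul h3 h1, ?_⟩
    simp only [pb_eq, map_mul] at h2 h4 ⊢
    rw [show (-((i.succ : ℕ) : ℤ)) = -1 + -(i : ℤ) by push_cast; ring, sl_mul_fn _ _ (Gam_le hγ), h2,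
      h4]

theorem pb_mon {d : ℕ} {ν : Ix →₀ ℕ} (h : (ν.sum fun _ n => n) ≤ d) :
    monomial ν (1 : ℚ) ∈ pbM ^ d := by
  have h1 : ∀ F : Finset Ix, ∏ i ∈ F, X i ^ ν i ∈ pbM ^ ∑ i ∈ F, ν i := fun F => by
    classical
    induction F using Finset.induction_on with
    | empty => simpa using Submodule.one_le.1 le_rfl
    | insert i F hi ih =>
      rw [Finset.prod_insert hi, Finset.sum_insert hi, pow_add]
      have h0 : X i ∈ pbM := Submodule.subset_span ⟨.inr (.inl i), rfl⟩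
      exact Submodule.mul_mem_mul (Submodule.pow_mem_pow _ h0 _) ih
  obtain ⟨e, rfl⟩ := Nat.exists_eq_add_of_le h
  have h2 := Submodule.mul_mem_mul (h1 ν.support)
    (Submodule.pow_mem_pow pbM (Submodule.subset_span ⟨.inl (), rfl⟩ : (1 : _) ∈ pbM) e)
  rw [one_pow, mul_one, ← pow_add] at h2
  rw [monomial_eq, C_1, one_mul]
  exact h2

theorem exists_PB (d : ℕ) : Nonempty (PB d) := by
  have : Module.Finite ℤ ↥(pbM ^ d) :=
    Module.Finite.iff_fg.2 ((Submodule.fg_span (Set.finite_range _)).pow d)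
  obtain ⟨D, ⟨b⟩⟩ : ∃ D, Nonempty (Module.Basis (Fin D) ℤ ↥(pbM ^ d)) :=
    ⟨_, ⟨Module.finBasis ℤ _⟩⟩
  have hi : LinearIndependent ℤ fun α => (b α : MvPolynomial Ix ℚ) :=
    b.linearIndependent.map' (pbM ^ d).subtype (Submodule.ker_subtype _)
  have hs : ∀ P ∈ pbM ^ d, ∃ ρ : Fin D → ℤ, P = ∑ α, ρ α • (b α : MvPolynomial Ix ℚ) :=
    fun P hP => ⟨b.repr ⟨P, hP⟩, by
      simpa only [Submodule.coe_sum, Submodule.coe_smul] using
        (congrArg Subtype.val (b.sum_repr ⟨P, hP⟩)).symm⟩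
  have ht : ∀ γ ∈ Gam, ∃ R : Matrix (Fin D) (Fin D) ℤ,
      ∀ α, sl (-(d : ℤ)) γ (pF (b α)) = ∑ β, R α β • pF (b β) := fun γ hγ => by
    have h1 : ∀ α, ∃ ρ : Fin D → ℤ, sl (-(d : ℤ)) γ (pF (b α)) = ∑ β, ρ β • pF (b β) := fun α => by
      obtain ⟨P', h1, h2⟩ := pb_pow hγ (b α).2
      obtain ⟨ρ, rfl⟩ := hs P' h1
      exact ⟨ρ, by rw [h2]; simp only [pb_eq, map_sum, map_zsmul]⟩
    choose R hR using h1
    exact ⟨R, hR⟩
  refine ⟨⟨D, fun α => b α, fun κ h => funext fun α => ?_, fun ν h => ?_, fun γ hγ => ?_⟩⟩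
  · refine (Module.forall_dual_apply_eq_zero_iff ℚ _).1 fun f => ?_
    refine Fintype.linearIndependent_iff.1 ((LinearIndependent.iff_fractionRing ℤ ℚ).1 hi)
      (fun α => f (κ α)) (MvPolynomial.ext _ _ fun m => ?_) α
    have h1 := congrArg (fun P => f (coeff m P)) h
    simp only [coeff_sum, coeff_smul, coeff_map, map_sum, coeff_zero, map_zero] at h1 ⊢
    refine Eq.trans (Finset.sum_congr rfl fun α _ => ?_) h1
    rw [smul_eq_mul, smul_eq_mul, mul_comm (κ α), ← Algebra.smul_def, map_smul, smul_eq_mul,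
      mul_comm]
  · obtain ⟨ρ, e⟩ := hs _ (pb_mon h)
    exact ⟨fun α => ρ α, by simpa only [Int.cast_smul_eq_zsmul] using e⟩
  · obtain ⟨R, hR⟩ := ht γ hγ
    obtain ⟨R', hR'⟩ := ht γ⁻¹ (inv_mem hγ)
    refine ⟨R, ?_, by simpa only [Int.cast_smul_eq_zsmul] using hR⟩
    have h1 : R * R' = 1 := by
      ext α ε
      have h2 := sl_mul (-(d : ℤ)) (Gam_le hγ) (Gam_le (inv_mem hγ)) (pF (b α))
      rw [mul_inv_cancel, sl_one, hR, sl_sum] at h2
      simp only [pb_zsmul, hR', Finset.smul_sum, smul_smul] at h2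
      rw [Finset.sum_comm] at h2
      simp only [← Finset.sum_smul, pb_eq, ← map_zsmul, ← map_sum] at h2
      simp only [← pb_eq] at h2
      refine sub_eq_zero.1 (Fintype.linearIndependent_iff.1 hi
        (fun ε => (R * R') α ε - (1 : Matrix (Fin D) (Fin D) ℤ) α ε) ?_ ε)
      simp only [sub_smul, Finset.sum_sub_distrib, Matrix.mul_apply, ← pF_inj h2]
      simp [Matrix.one_apply]
    have h3 := congrArg Matrix.det h1
    rw [Matrix.det_mul, Matrix.det_one] at h3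
    exact Int.isUnit_sq (IsUnit.of_mul_eq_one _ h3)

end Pool.Agent.E7
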