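import Pool.Agent.Lib.MP_7e5527_ag.E7.PEv
import Pool.Agent.Lib.MP_7e5527_ag.E7.PMon

/-! The inversion lemma. -/

open Filter Topology Polynomial
open scoped Polynomial.Bivariate

noncomputable section

namespace Pool.Agent.E7

variable {ι : Type} [Fintype ι] [DecidableEq ι] {p : ℕ} [Fact p.Prime] {C : Cone ι} {Q : Type}
  [CommRing Q]

variable {A : Type} [NormedCommRing A] [NormOneClass A] [CompleteSpace A] [IsUltrametricDist A]

theorem pinv_add {x y : A} {r : ℝ} (hx : ‖x‖ ≤ r) (hy : ‖y‖ ≤ r) : ‖x + y‖ ≤ r :=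
  (IsUltrametricDist.norm_add_le_max x y).trans (max_le hx hy)

theorem pinv_mul {x y : A} {r : ℝ} (hx : ‖x‖ ≤ 1) (hy : ‖y‖ ≤ r) : ‖x * y‖ ≤ r :=
  (norm_mul_le x y).trans ((mul_le_of_le_one_left (norm_nonneg y) hx).trans hy)

theorem pinv_le {x : A} (hx : ‖x - 1‖ < 1) : ‖x‖ ≤ 1 := by
  rw [← sub_add_cancel x 1]
  exact pinv_add hx.le norm_one.le

theorem pinv_inv {u : Aˣ} (hu : ‖(u : A) - 1‖ < 1) : ‖((u⁻¹ : Aˣ) : A)‖ ≤ 1 := by
  by_contra h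
  rw [not_le] at h
  have e : ((u⁻¹ : Aˣ) : A) = 1 + -(((u⁻¹ : Aˣ) : A) * (u - 1)) := by
    rw [mul_sub, Units.inv_mul]
    ring
  have h1 := IsUltrametricDist.norm_add_le_max 1 (-(((u⁻¹ : Aˣ) : A) * (u - 1)))
  rw [← e, norm_one, norm_neg] at h1
  exact h1.not_gt (max_lt h ((norm_mul_le _ _).trans_lt
    (mul_lt_of_lt_one_right (one_pos.trans h) hu)))

theorem pinv_mul_le (x : A) {y : A} (hx : ‖x - 1‖ < 1) : ‖x * y - 1‖ ≤ max ‖x - 1‖ ‖y - 1‖ := by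
  rw [show x * y - 1 = x - 1 + x * (y - 1) by ring]
  exact pinv_add (le_max_left _ _) (pinv_mul (pinv_le hx) (le_max_right _ _))

theorem pinv_inv_le {u : Aˣ} (hu : ‖(u : A) - 1‖ < 1) :
    ‖((u⁻¹ : Aˣ) : A) - 1‖ ≤ ‖(u : A) - 1‖ := by
  have e : ((u⁻¹ : Aˣ) : A) - 1 = -(((u⁻¹ : Aˣ) : A) * (u - 1)) := by
    rw [mul_sub, Units.inv_mul]
    ring
  rw [e, norm_neg]
  exact pinv_mul (pinv_inv hu) le_rfl

/-- Units close to one. -/
def pinv_grp (A : Type) [NormedCommRing A] [NormOneClass A] [CompleteSpace A] [IsUltrametricDist A]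
    {r : ℝ} (hr : 0 ≤ r) : Subgroup Aˣ where
  carrier := {u | ‖(u : A) - 1‖ < 1 ∧ ‖(u : A) - 1‖ ≤ r}
  mul_mem' := fun ha hb => ⟨(pinv_mul_le _ ha.1).trans_lt (max_lt ha.1 hb.1),
    (pinv_mul_le _ ha.1).trans (max_le ha.2 hb.2)⟩
  one_mem' := ⟨by simp, by simpa using hr⟩
  inv_mem' := fun ha => ⟨(pinv_inv_le ha.1).trans_lt ha.1, (pinv_inv_le ha.1).trans ha.2⟩

theorem pinv_umon {u : ι → Aˣ} {r : ℝ} (hr : 0 ≤ r) (hu : ∀ i, u i ∈ pinv_grp A hr) (T : ι → ℤ) :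
    ‖umon u T - 1‖ < 1 ∧ ‖umon u T - 1‖ ≤ r :=
  (pinv_grp A hr).prod_mem fun i _ => (pinv_grp A hr).zpow_mem (hu i) _

theorem exists_unit {x : A} (hx : ‖x - 1‖ < 1) : ∃ u : Aˣ, (u : A) = x := by
  exact ⟨Units.oneSub (1 - x) (by rwa [norm_sub_rev]), sub_sub_cancel 1 x⟩

theorem norm_mul_sub_one {x y : A} (hx : ‖x - 1‖ < 1) (hy : ‖y - 1‖ < 1) : ‖x * y - 1‖ < 1 := by
  exact (pinv_mul_le x hx).trans_lt (max_lt hx hy)

theorem norm_umon_sub_one {u : ι → Aˣ} (hu : ∀ i, ‖(u i : A) - 1‖ < 1) (T : ι → ℤ) :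
    ‖umon u T - 1‖ < 1 := by
  exact (pinv_umon zero_le_one (fun i => ⟨hu i, (hu i).le⟩) T).1

theorem norm_umon_le {u : ι → Aˣ} (hu : ∀ i, ‖(u i : A) - 1‖ < 1) (T : ι → ℤ) :
    ‖umon u T‖ ≤ 1 := by
  exact pinv_le (norm_umon_sub_one hu T)

theorem norm_umon_sub {u v : ι → Aˣ} (hu : ∀ i, ‖(u i : A) - 1‖ < 1) (hv : ∀ i, ‖(v i : A) - 1‖ < 1)
    {r : ℝ} (hr : 0 ≤ r) (h : ∀ i, ‖(u i : A) - v i‖ ≤ r) (T : ι → ℤ) :
    ‖umon u T - umon v T‖ ≤ r := by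
  have h1 := (pinv_umon (u := fun i => (v i)⁻¹ * u i) hr (fun i =>
    ⟨norm_mul_sub_one ((pinv_inv_le (hv i)).trans_lt (hv i)) (hu i), by
      rw [Units.val_mul, ← Units.inv_mul (v i), ← mul_sub]
      exact pinv_mul (pinv_inv (hv i)) (h i)⟩) T).2
  have e : umon u T = umon v T * umon (fun i => (v i)⁻¹ * u i) T := by
    rw [← umon_mul]
    simp only [mul_inv_cancel_left]
  rw [e, ← mul_sub_one]
  exact pinv_mul (norm_umon_le hv T) h1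

variable {m0 : (ι → ℤ) → A} {m : ι → (ι → ℤ) → A}

theorem pinv_rho (h0 : Small m0) : ∃ ρ : ℝ, 0 ≤ ρ ∧ ρ < 1 ∧ ∀ T, ‖m0 T‖ ≤ ρ := by
  have h1 : ∀ᶠ T in cofinite, ‖m0 T‖ ≤ 1 / 2 :=
    (tendsto_zero_iff_norm_tendsto_zero.1 h0.2).eventually (ge_mem_nhds (by norm_num))
  obtain ⟨T0, -, hT⟩ := Set.exists_max_image _ (fun T => ‖m0 T‖) (Set.Finite.insert 0 h1)
    (Set.insert_nonempty _ _)
  refine ⟨max (1 / 2) ‖m0 T0‖, by positivity, max_lt (by norm_num) (h0.1 _), fun T => ?_⟩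
  by_cases h : ‖m0 T‖ ≤ 1 / 2
  · exact le_max_of_le_left h
  · exact le_max_of_le_right (hT T (Set.mem_insert_of_mem _ h))

theorem pinv_rho' (h0 : Small m0) (h : ∀ i, Small (m i)) :
    ∃ ρ : ℝ, 0 ≤ ρ ∧ ρ < 1 ∧ (∀ T, ‖m0 T‖ ≤ ρ) ∧ ∀ i T, ‖m i T‖ ≤ ρ := by
  choose ρ h1 h2 h3 using fun o : Option ι => pinv_rho (m0 := o.elim m0 m) (by cases o <;> simp [*])
  obtain ⟨o, ho⟩ := Finite.exists_max ρ
  exact ⟨ρ o, h1 o, h2 o, fun T => (h3 none T).trans (ho _), fun i T => (h3 (some i) T).trans (ho _)⟩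

theorem pinv_summable (h0 : Small m0) {u : ι → Aˣ} (hu : ∀ i, ‖(u i : A) - 1‖ < 1) :
    Summable fun T => m0 T * umon u T := by
  refine NonarchimedeanAddGroup.summable_of_tendsto_cofinite_zero
    (squeeze_zero_norm (fun T => ?_) (tendsto_zero_iff_norm_tendsto_zero.1 h0.2))
  rw [mul_comm]
  exact pinv_mul (norm_umon_le hu T) le_rfl

theorem pinv_sum {ρ : ℝ} (hρ : 0 ≤ ρ) (h : ∀ T, ‖m0 T‖ ≤ ρ) {u : ι → Aˣ}
    (hu : ∀ i, ‖(u i : A) - 1‖ < 1) : ‖∑' T, m0 T * umon u T‖ ≤ ρ := by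
  refine IsUltrametricDist.norm_tsum_le_of_forall_le_of_nonneg hρ fun T => ?_
  rw [mul_comm]
  exact pinv_mul (norm_umon_le hu T) (h T)

theorem pinv_sub (h0 : Small m0) {ρ : ℝ} (hρ : 0 ≤ ρ) (h : ∀ T, ‖m0 T‖ ≤ ρ) {u v : ι → Aˣ}
    (hu : ∀ i, ‖(u i : A) - 1‖ < 1) (hv : ∀ i, ‖(v i : A) - 1‖ < 1) {r : ℝ} (hr : 0 ≤ r)
    (huv : ∀ i, ‖(u i : A) - v i‖ ≤ r) :
    ‖∑' T, m0 T * umon u T - ∑' T, m0 T * umon v T‖ ≤ ρ * r := by
  rw [← (pinv_summable h0 hu).tsum_sub (pinv_summable h0 hv)]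
  refine IsUltrametricDist.norm_tsum_le_of_forall_le_of_nonneg (mul_nonneg hρ hr) fun T => ?_
  rw [← mul_sub]
  exact (norm_mul_le _ _).trans (mul_le_mul (h T) (norm_umon_sub hu hv hr huv T) (norm_nonneg _) hρ)

theorem pinv_est (h0 : Small m0) (h : ∀ i, Small (m i)) {ρ : ℝ} (hρ : 0 ≤ ρ)
    (b0 : ∀ T, ‖m0 T‖ ≤ ρ) (b : ∀ i T, ‖m i T‖ ≤ ρ) {u v : ι → Aˣ}
    (hu : ∀ i, ‖(u i : A) - 1‖ < 1) (hv : ∀ i, ‖(v i : A) - 1‖ < 1) {r : ℝ} (hr : 0 ≤ r)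
    (huv : ∀ i, ‖(u i : A) - v i‖ ≤ r) (i : ι) :
    ‖1 + ∑' T, m0 T * umon u T - u i * ∑' T, m i T * umon u T -
      (1 + ∑' T, m0 T * umon v T - v i * ∑' T, m i T * umon v T)‖ ≤ ρ * r := by
  have e : ∀ a a' s s' x x' : A, 1 + a - x * s - (1 + a' - x' * s') =
      a - a' + (s * (x' - x) + x' * (s' - s)) := fun _ _ _ _ _ _ => by ring
  rw [e]
  refine pinv_add (pinv_sub h0 hρ b0 hu hv hr huv) (pinv_add ((norm_mul_le _ _).trans
    (mul_le_mul (pinv_sum hρ (b i) hu) ?_ (norm_nonneg _) hρ)) (pinv_mul (pinv_le (hv i)) ?_))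
  · rw [norm_sub_rev]
    exact huv i
  · rw [norm_sub_rev]
    exact pinv_sub (h i) hρ (b i) hu hv hr huv

/-- All `m0 T`, `m i T` have norm at most some `ρ < 1`; Banach fixed point theorem (or iteration) on
the closed ball of radius `ρ` around `1`, contraction constant `ρ`. -/
theorem exists_fix (h0 : Small m0) (h : ∀ i, Small (m i)) : ∃ u, Fix m0 m u := by
  obtain ⟨ρ, r0, r1, b0, b⟩ := pinv_rho' h0 h
  have hB : ∀ (x : Metric.closedBall (1 : ι → A) ρ) i, ‖x.1 i - 1‖ < 1 := fun x i =>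
    ((norm_le_pi_norm (x.1 - 1) i).trans (mem_closedBall_iff_norm.1 x.2)).trans_lt r1
  choose U hU using fun x i => exists_unit (hB x i)
  have hU' : ∀ x i, ‖(U x i : A) - 1‖ < 1 := fun x i => hU x i ▸ hB x i
  let F : Metric.closedBall (1 : ι → A) ρ → Metric.closedBall (1 : ι → A) ρ := fun x =>
    ⟨fun i => 1 + ∑' T, m0 T * umon (U x) T - U x i * ∑' T, m i T * umon (U x) T, by
      refine mem_closedBall_iff_norm.2 ((pi_norm_le_iff_of_nonneg r0).2 fun i => ?_)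
      rw [Pi.sub_apply, Pi.one_apply, sub_right_comm, add_sub_cancel_left, sub_eq_add_neg]
      refine pinv_add (pinv_sum r0 b0 (hU' x)) ?_
      rw [norm_neg]
      exact pinv_mul (pinv_le (hU' x i)) (pinv_sum r0 (b i) (hU' x))⟩
  have hF : ContractingWith ⟨ρ, r0⟩ F := ⟨r1, LipschitzWith.of_dist_le_mul fun x y => by
    rw [Subtype.dist_eq, dist_eq_norm]
    refine (pi_norm_le_iff_of_nonneg (mul_nonneg r0 dist_nonneg)).2 fun i =>
      pinv_est h0 h r0 b0 b (hU' x) (hU' y) dist_nonneg (fun j => ?_) i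
    rw [hU, hU, Subtype.dist_eq, dist_eq_norm]
    exact norm_le_pi_norm (x.1 - y.1) j⟩
  have : CompleteSpace (Metric.closedBall (1 : ι → A) ρ) :=
    Metric.isClosed_closedBall.completeSpace_coe
  have : Nonempty (Metric.closedBall (1 : ι → A) ρ) := ⟨⟨1, Metric.mem_closedBall_self r0⟩⟩
  obtain ⟨x, hx⟩ : ∃ x, F x = x := ⟨_, hF.fixedPoint_isFixedPt⟩
  refine ⟨U x, fun i => ⟨hU' _ i, ?_⟩⟩
  have e : 1 + ∑' T, m0 T * umon (U x) T - U x i * ∑' T, m i T * umon (U x) T = U x i :=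
    (congrFun (congrArg Subtype.val hx) i).trans (hU x i).symm
  linear_combination -e

theorem Fix.unique (h0 : Small m0) (h : ∀ i, Small (m i)) {u v : ι → Aˣ} (hu : Fix m0 m u)
    (hv : Fix m0 m v) : u = v := by
  obtain ⟨ρ, r0, r1, b0, b⟩ := pinv_rho' h0 h
  let d : ι → A := fun i => u i - v i
  have h1 : ‖d‖ ≤ ρ * ‖d‖ := (pi_norm_le_iff_of_nonneg (mul_nonneg r0 (norm_nonneg _))).2 fun i => by
    have := pinv_est h0 h r0 b0 b (fun j => (hu j).1) (fun j => (hv j).1) (norm_nonneg d)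
      (norm_le_pi_norm d) i
    rwa [← (hu i).2, ← (hv i).2, mul_add, mul_add, add_sub_cancel_right, add_sub_cancel_right,
      mul_one, mul_one] at this
  have h2 : d = 0 := norm_le_zero_iff.1 (by nlinarith [norm_nonneg d])
  exact funext fun i => Units.ext (sub_eq_zero.1 (congrFun h2 i))

theorem Fix.map (h0 : Small m0) (h : ∀ i, Small (m i)) {u : ι → Aˣ} (hu : Fix m0 m u)
    {A' : Type} [NormedCommRing A'] (φ : A →+* A') (hφ : ∀ a, ‖φ a‖ ≤ ‖a‖) :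
    Fix (fun T => φ (m0 T)) (fun i T => φ (m i T)) fun i => Units.map (φ : A →* A') (u i) := by
  have hc : Continuous φ := AddMonoidHomClass.continuous_of_bound φ 1 fun a => by
    rw [one_mul]
    exact hφ a
  have e : ∀ {n : (ι → ℤ) → A}, Small n → φ (∑' T, n T * umon u T) =
      ∑' T, φ (n T) * umon (fun i => Units.map (φ : A →* A') (u i)) T := fun hn => by
    rw [← ((pinv_summable hn fun j => (hu j).1).hasSum.map φ hc).tsum_eq]
    simp only [Function.comp_def, map_mul, map_umon]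
  refine fun i => ⟨?_, ?_⟩
  · have := (hφ _).trans_lt (hu i).1
    rwa [map_sub, map_one] at this
  · have := congrArg φ (hu i).2
    rwa [map_mul, map_add, map_add, map_one, e h0, e (h i)] at this

end Pool.Agent.E7
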