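import Pool.Agent.Lib.MP_7e5527_ag.E7.PDefs
import Pool.Agent.Lib.MP_7e5527_ag.Ev

/-! The ring of bounded power series. -/

open Filter Topology Polynomial
open scoped Polynomial.Bivariate

noncomputable section

namespace Pool.Agent.E7

variable {ι : Type} [Fintype ι] [DecidableEq ι] {p : ℕ} [Fact p.Prime] {C : Cone ι} {Q : Type}
  [CommRing Q]

theorem pser_mul_le {f g : PowerSeries ℂ_[p]} {B B' : ℝ}
    (hB : ∀ k, ‖PowerSeries.coeff k f‖ ≤ B) (hB' : ∀ k, ‖PowerSeries.coeff k g‖ ≤ B') (k : ℕ) :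
    ‖PowerSeries.coeff k (f * g)‖ ≤ B * B' := by
  have h0 : 0 ≤ B := (norm_nonneg _).trans (hB 0)
  have h0' : 0 ≤ B' := (norm_nonneg _).trans (hB' 0)
  rw [PowerSeries.coeff_mul]
  refine IsUltrametricDist.norm_sum_le_of_forall_le_of_nonneg (mul_nonneg h0 h0') fun i _ => ?_
  rw [norm_mul]
  exact mul_le_mul (hB _) (hB' _) (norm_nonneg _) h0

theorem pser_C_le (c : ℂ_[p]) (k : ℕ) : ‖PowerSeries.coeff k (PowerSeries.C c)‖ ≤ ‖c‖ := by
  rw [PowerSeries.coeff_C]
  split_ifs
  · exact le_rfl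
  · simp

/-- `co` identifies the normed algebra `A` with the bounded power series. -/
structure pser_Mod {A : Type} [NormedCommRing A] [NormedAlgebra ℂ_[p] A]
    (co : A →ₐ[ℂ_[p]] PowerSeries ℂ_[p]) : Prop where
  le : ∀ f k, ‖PowerSeries.coeff k (co f)‖ ≤ ‖f‖
  ge : ∀ (f : A) (B : ℝ), (∀ k, ‖PowerSeries.coeff k (co f)‖ ≤ B) → ‖f‖ ≤ B
  ex : ∀ (g : PowerSeries ℂ_[p]) (B : ℝ), (∀ k, ‖PowerSeries.coeff k g‖ ≤ B) → ∃ f, co f = g

section model

variable {A : Type} [NormedCommRing A] [NormedAlgebra ℂ_[p] A]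
  {co : A →ₐ[ℂ_[p]] PowerSeries ℂ_[p]}

theorem pser_inj (h : pser_Mod co) : Function.Injective co := by
  rw [injective_iff_map_eq_zero]
  intro f hf
  refine norm_le_zero_iff.mp (h.ge f 0 fun k => ?_)
  rw [hf]
  simp

theorem pser_one (h : pser_Mod co) : NormOneClass A := by
  refine ⟨le_antisymm (h.ge 1 1 fun k => ?_) ?_⟩
  · rw [map_one]
    simpa using pser_C_le (1 : ℂ_[p]) k
  · simpa using h.le 1 0

theorem pser_dom (h : pser_Mod co) : IsDomain A :=
  Function.Injective.isDomain co.toRingHom (pser_inj h)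

theorem pser_ultra (h : pser_Mod co) : IsUltrametricDist A := by
  refine IsUltrametricDist.isUltrametricDist_of_forall_norm_add_le_max_norm fun f g => ?_
  refine h.ge _ _ fun k => ?_
  rw [map_add, map_add]
  exact (IsUltrametricDist.norm_add_le_max _ _).trans (max_le_max (h.le f k) (h.le g k))

theorem pser_complete (h : pser_Mod co) : CompleteSpace A := by
  refine Metric.complete_of_cauchySeq_tendsto fun u hu => ?_
  have hc : ∀ k, CauchySeq fun n => PowerSeries.coeff k (co (u n)) := by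
    intro k
    rw [Metric.cauchySeq_iff] at hu ⊢
    intro ε hε
    obtain ⟨N, hN⟩ := hu ε hε
    refine ⟨N, fun m hm n hn => lt_of_le_of_lt ?_ (hN m hm n hn)⟩
    rw [dist_eq_norm, dist_eq_norm, ← map_sub, ← map_sub]
    exact h.le _ _
  choose c hc using fun k => cauchySeq_tendsto_of_complete (hc k)
  obtain ⟨R, hR⟩ := hu.norm_bddAbove
  obtain ⟨f, hf⟩ := h.ex (PowerSeries.mk c) R fun k => by
    rw [PowerSeries.coeff_mk]
    exact le_of_tendsto' (hc k).norm fun n => (h.le _ _).trans (hR ⟨n, rfl⟩)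
  refine ⟨f, ?_⟩
  rw [Metric.cauchySeq_iff] at hu
  rw [Metric.tendsto_atTop]
  intro ε hε
  obtain ⟨N, hN⟩ := hu (ε / 2) (half_pos hε)
  refine ⟨N, fun n hn => lt_of_le_of_lt ?_ (half_lt_self hε)⟩
  rw [dist_eq_norm]
  refine h.ge _ _ fun k => ?_
  rw [map_sub, map_sub, hf, PowerSeries.coeff_mk]
  refine le_of_tendsto ((hc k).const_sub (PowerSeries.coeff k (co (u n)))).norm ?_
  filter_upwards [eventually_ge_atTop N] with m hm
  rw [← map_sub, ← map_sub]
  refine (h.le _ _).trans ?_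
  rw [← dist_eq_norm]
  exact (hN n hn m hm).le

theorem pser_der_le (h : pser_Mod co) (f : A) (k : ℕ) :
    ‖PowerSeries.coeff k (PowerSeries.derivative ℂ_[p] (co f))‖ ≤ ‖f‖ := by
  rw [PowerSeries.coeff_derivative, norm_mul]
  have h1 : ‖((k : ℂ_[p]) + 1)‖ ≤ 1 := by
    simpa using IsUltrametricDist.norm_natCast_le_one ℂ_[p] (k + 1)
  calc _ ≤ ‖f‖ * 1 := mul_le_mul (h.le _ _) h1 (norm_nonneg _) (norm_nonneg _)
    _ = _ := mul_one _

theorem pser_der (h : pser_Mod co) : ∃ D : Derivation ℂ_[p] A A,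
    ∀ f, co (D f) = PowerSeries.derivative ℂ_[p] (co f) := by
  choose D hD using fun f : A => h.ex _ _ (pser_der_le h f)
  let L : A →ₗ[ℂ_[p]] A :=
    { toFun := D
      map_add' := fun a b => pser_inj h (by rw [map_add, hD, hD, hD, map_add, map_add])
      map_smul' := fun c a => pser_inj h (by
        rw [RingHom.id_apply, map_smul, hD, hD, map_smul, Derivation.map_smul]) }
  have hL : ∀ f, co (L f) = PowerSeries.derivative ℂ_[p] (co f) := hD
  refine ⟨Derivation.mk' L fun a b => pser_inj h ?_, hL⟩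
  rw [smul_eq_mul, smul_eq_mul, map_add, map_mul co a, map_mul co b, hL, hL, hL, map_mul,
    Derivation.leibniz, smul_eq_mul, smul_eq_mul]

theorem pser_ev1 (h : pser_Mod co) (s : ℂ_[p]) (hs : ‖s‖ < 1) :
    ∃ e : A →ₐ[ℂ_[p]] ℂ_[p], ∀ f, UAP.HasEv (co f) s (e f) := by
  have hex : ∀ f : A, ∃ v, UAP.HasEv (co f) s v := fun f =>
    UAP.exists_hasEv_of_bound (C := ‖f‖) (Λ := 1) (fun n => by simpa using h.le f n) one_pos
      (by simpa using hs)
  choose Ψ hΨ using hex
  refine ⟨⟨⟨⟨⟨Ψ, ?_⟩, fun a b => ?_⟩, ?_, fun a b => ?_⟩, fun c => ?_⟩, hΨ⟩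
  · refine (hΨ 1).unique ?_
    rw [map_one]
    exact UAP.hasEv_one s
  · refine (hΨ (a * b)).unique ?_
    rw [map_mul]
    exact UAP.mulOK_ultra _ _ _ _ _ (hΨ a) (hΨ b)
  · refine (hΨ 0).unique ?_
    rw [map_zero]
    exact UAP.hasEv_zero s
  · refine (hΨ (a + b)).unique ?_
    rw [map_add]
    exact (hΨ a).add (hΨ b)
  · refine (hΨ (algebraMap ℂ_[p] A c)).unique ?_
    rw [AlgHom.commutes]
    exact UAP.hasEv_C c s

theorem pser_ev (h : pser_Mod co) : ∃ e : ℂ_[p] → A →ₐ[ℂ_[p]] ℂ_[p],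
    ∀ s f, UAP.HasEv (co f) (if ‖s‖ < 1 then s else 0) (e s f) := by
  have hs : ∀ s : ℂ_[p], ‖if ‖s‖ < 1 then s else 0‖ < 1 := by
    intro s
    split_ifs with hs
    · exact hs
    · simp
  choose e he using fun s : ℂ_[p] => pser_ev1 h _ (hs s)
  exact ⟨e, he⟩

theorem pser_zero (h : pser_Mod co) (f : A) (U : Ultrafilter ℕ) (s : ℕ → ℂ_[p])
    (hs : Tendsto s U (𝓝 0)) (hf : ∀ᶠ n in (U : Filter ℕ), s n ≠ 0 ∧ UAP.HasEv (co f) (s n) 0) :
    f = 0 := by
  have key : ∀ k, PowerSeries.coeff k (co f) = 0 := by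
    intro k
    induction k using Nat.strong_induction_on with
    | _ k ih =>
      have hn : Tendsto (fun n => ‖s n‖) U (𝓝 0) := by simpa using hs.norm
      have hl : Tendsto (fun n => ‖f‖ * ‖s n‖) U (𝓝 0) := by simpa using hn.const_mul ‖f‖
      refine norm_le_zero_iff.mp (ge_of_tendsto hl ?_)
      filter_upwards [hf, hn.eventually (gt_mem_nhds one_pos)] with n hn1 hn2
      have ht := UAP.HasEv.tail (C := ‖f‖) (Λ := 1) (fun j => by simpa using h.le f j) one_pos
        (by simpa using hn2) hn1.2 k ih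
      rw [zero_sub, norm_neg, norm_mul, norm_pow, one_mul, pow_succ] at ht
      have hpos : 0 < ‖s n‖ ^ k := pow_pos (norm_pos_iff.mpr hn1.1) k
      refine le_of_mul_le_mul_right ?_ hpos
      calc _ ≤ _ := ht
        _ = _ := by ring
  refine pser_inj h ?_
  rw [map_zero]
  ext k
  rw [key, map_zero]

theorem pser_bs (h : pser_Mod co) : Nonempty (BS p A) := by
  obtain ⟨D, hD⟩ := pser_der h
  obtain ⟨e, he⟩ := pser_ev h
  have hX : ∀ k, ‖PowerSeries.coeff k (PowerSeries.X : PowerSeries ℂ_[p])‖ ≤ 1 := by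
    intro k
    rw [PowerSeries.coeff_X]
    split_ifs <;> simp
  obtain ⟨t, ht⟩ := h.ex PowerSeries.X 1 hX
  have he1 : ∀ s, ‖s‖ < 1 → ∀ f, UAP.HasEv (co f) s (e s f) := by
    intro s hs f
    simpa only [if_pos hs] using he s f
  refine ⟨⟨t, D, e, h.ge t 1 (by rw [ht]; exact hX), pser_inj h ?_, ?_, fun s hs => ?_,
    fun s f => ?_, fun f U s hs hf => ?_, fun f hf s => ?_, fun g B hB => ?_⟩⟩
  · rw [hD, ht, map_one, PowerSeries.derivative_X]
  · refine AddMonoidHomClass.continuous_of_bound D.toLinearMap 1 fun f => ?_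
    rw [one_mul]
    refine h.ge _ _ fun k => ?_
    have := pser_der_le h f k
    rw [← hD] at this
    exact this
  · refine (he1 s hs t).unique ?_
    rw [ht]
    exact UAP.hasEv_X s
  · refine (he s f).norm_le (h.le f) ?_
    split_ifs with hs
    · exact hs.le
    · simp
  · refine pser_zero h f U s hs ?_
    have hn : Tendsto (fun n => ‖s n‖) U (𝓝 0) := by simpa using hs.norm
    filter_upwards [hf, hn.eventually (gt_mem_nhds one_pos)] with n hn1 hn2
    refine ⟨hn1.1, ?_⟩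
    rw [← hn1.2]
    exact he1 _ hn2 f
  · have hc : co f = PowerSeries.C (PowerSeries.constantCoeff (co f)) := by
      refine PowerSeries.derivative.ext ?_ (by simp)
      rw [← hD, hf, map_zero, PowerSeries.derivative_C]
    have hv : ∀ s, e s f = PowerSeries.constantCoeff (co f) := by
      intro s
      refine (he s f).unique ?_
      have := UAP.hasEv_C (PowerSeries.constantCoeff (co f)) (if ‖s‖ < 1 then s else 0)
      rwa [← hc] at this
    rw [hv, hv]
  · obtain ⟨f, hf⟩ := h.ex g B hB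
    refine ⟨f, h.ge f B (by rw [hf]; exact hB), fun s hs => ?_⟩
    rw [← hf]
    exact he1 s hs f

end model

/-- Power series with bounded coefficients. -/
def pser_sub (p : ℕ) [Fact p.Prime] : Subalgebra ℂ_[p] (PowerSeries ℂ_[p]) where
  carrier := {f | ∃ B : ℝ, ∀ k, ‖PowerSeries.coeff k f‖ ≤ B}
  mul_mem' := by
    rintro f g ⟨B, hB⟩ ⟨B', hB'⟩
    exact ⟨B * B', pser_mul_le hB hB'⟩
  add_mem' := by
    rintro f g ⟨B, hB⟩ ⟨B', hB'⟩
    refine ⟨B + B', fun k => ?_⟩
    rw [map_add]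
    exact (norm_add_le _ _).trans (add_le_add (hB k) (hB' k))
  algebraMap_mem' := fun c => ⟨‖c‖, pser_C_le c⟩

/-- The sup norm. -/
def pser_nm (f : pser_sub p) : ℝ := ⨆ k, ‖PowerSeries.coeff k f.1‖

theorem pser_nm_le (f : pser_sub p) (k : ℕ) : ‖PowerSeries.coeff k f.1‖ ≤ pser_nm f := by
  obtain ⟨B, hB⟩ := f.2
  refine le_ciSup (f := fun k => ‖PowerSeries.coeff k f.1‖) ⟨B, ?_⟩ k
  rintro _ ⟨j, rfl⟩
  exact hB j

theorem pser_nm_ge (f : pser_sub p) (B : ℝ) (hB : ∀ k, ‖PowerSeries.coeff k f.1‖ ≤ B) :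
    pser_nm f ≤ B := ciSup_le hB

/-- The sup norm as a ring norm. -/
def pser_rn (p : ℕ) [Fact p.Prime] : RingNorm (pser_sub p) where
  toFun := pser_nm
  map_zero' := le_antisymm (pser_nm_ge _ _ fun k => by simp)
    ((norm_nonneg _).trans (pser_nm_le _ 0))
  add_le' := fun f g => pser_nm_ge _ _ fun k => by
    rw [Subalgebra.coe_add, map_add]
    exact (norm_add_le _ _).trans (add_le_add (pser_nm_le f k) (pser_nm_le g k))
  neg' := fun f => by
    unfold pser_nm
    simp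
  mul_le' := fun f g => pser_nm_ge _ _ (pser_mul_le (pser_nm_le f) (pser_nm_le g))
  eq_zero_of_map_eq_zero' := fun f hf => by
    refine Subtype.ext ?_
    ext k
    have := pser_nm_le f k
    rw [hf] at this
    simpa using this

/-- Power series over `ℂ_[p]` with bounded coefficients and the sup norm. For `1 ≤ ‖s‖` put
`ev s = ev 0`. -/
theorem exists_bs (p : ℕ) [Fact p.Prime] : ∃ (A : Type) (_ : NormedCommRing A) (_ : NormOneClass A)
    (_ : NormedAlgebra ℂ_[p] A) (_ : CompleteSpace A) (_ : IsUltrametricDist A) (_ : IsDomain A),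
    Nonempty (BS p A) := by
  let R : NormedCommRing (pser_sub p) :=
    { (pser_rn p).toNormedRing with mul_comm := mul_comm }
  let N : NormedAlgebra ℂ_[p] (pser_sub p) :=
    { (pser_sub p).algebra with
      norm_smul_le := fun c f => pser_nm_ge _ _ fun k => by
        have h1 : PowerSeries.coeff k (c • f).1 = c * PowerSeries.coeff k f.1 := by simp
        rw [h1, norm_mul]
        exact mul_le_mul_of_nonneg_left (pser_nm_le f k) (norm_nonneg _) }
  have h : pser_Mod (A := pser_sub p) (pser_sub p).val :=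
    ⟨pser_nm_le, pser_nm_ge, fun g B hB => ⟨⟨g, B, hB⟩, rfl⟩⟩
  exact ⟨pser_sub p, R, pser_one h, N, pser_complete h, pser_ultra h, pser_dom h, pser_bs h⟩

end Pool.Agent.E7
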