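import Pool.Agent.Lib.MP_7e5527_ag.E7.PA1
import Pool.Agent.Lib.MP_7e5527_ag.E7.PPt
import Pool.Agent.Lib.MP_7e5527_ag.E7.PSer
import Pool.Agent.Lib.MP_7e5527_ag.E7.PInv

/-! The oracle on the arc `q u ^ a`. -/

open Filter Topology Polynomial
open scoped Classical

noncomputable section

namespace Pool.Agent.E7

variable {ι : Type} [Fintype ι] [DecidableEq ι] {p : ℕ} [Fact p.Prime] {C : Cone ι} {Q : Type}
  [CommRing Q]

theorem pa_umon {A : Type} [CommRing A] (u : Aˣ) (T a : ι → ℤ) :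
    umon (fun _ => u) (T * a) = ((u ^ ipZ T a : Aˣ) : A) := by
  have h : ∀ F : Finset ι, ∏ i ∈ F, u ^ (T * a) i = u ^ ∑ i ∈ F, T i * a i := by
    intro F
    induction F using Finset.induction_on with
    | empty => simp
    | insert i F hi ih =>
      rw [Finset.prod_insert hi, Finset.sum_insert hi, ih, zpow_add, Pi.mul_apply]
  rw [umon, h, ipZ]

theorem pa_orc [Nontrivial ι] (S : SR p C Q) {κ J : Type} {Φ : κ → Q} {ψ : ℕ → Q}
    (orc : Oracle' S Φ ψ) {q : ι → ℂ_[p]} {y : ι → ℚ} (hq : Pt p q y) (hy : y ∈ C.Om)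
    {a : ι → ℤ} (ha : a ≠ 0) (cl : (ι → ℤ) → J) (rep : J → ι → ℤ)
    (hcl : ∀ T, ipZ T a = ipZ (rep (cl T)) a)
    (h : ∀ j c, ∑' T, (if cl T = c then S.co (Φ j) T * mon q T else 0) = 0) :
    S.ev (mon q) (ψ 1) = 0 := by
  obtain ⟨A, _, _, _, _, _, _, ⟨B⟩⟩ := exists_bs p
  have hp : (p : ℂ_[p]) ≠ 0 := by exact_mod_cast (Fact.out : p.Prime).ne_zero
  have h1 : ‖(1 + (p : ℂ_[p]) • B.t) - 1‖ < 1 := by
    rw [add_sub_cancel_left, norm_smul, UAP.norm_p_eq]
    exact (mul_le_of_le_one_right (by positivity) B.norm_t).trans_lt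
      (inv_lt_one_of_one_lt₀ one_lt_p)
  obtain ⟨u, hu⟩ := exists_unit h1
  rw [← hu] at h1
  obtain ⟨D, hD⟩ : ∃ D : Derivation ℂ_[p] A A, D = ((p : ℂ_[p])⁻¹ • (u : A)) • B.dt := ⟨_, rfl⟩
  have hDu : D u = 1 * u := by
    rw [hD, Derivation.smul_apply]
    nth_rewrite 2 [hu]
    rw [map_add, B.dt.map_one_eq_zero, B.dt.map_smul, B.dt_t, zero_add, smul_eq_mul,
      smul_mul_smul_comm, inv_mul_cancel₀ hp, one_smul, mul_comm]
  have hDc : Continuous D := by
    rw [hD]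
    exact B.dt_cont.const_smul ((p : ℂ_[p])⁻¹ • (u : A))
  obtain ⟨μ, hμ⟩ : ∃ μ : (ι → ℤ) → A, ∀ T, μ T = mon q T • umon (fun _ => u) (T * a) :=
    ⟨_, fun _ => rfl⟩
  have hadm : Adm C μ := by
    refine ⟨by rw [hμ, mon_zero, zero_mul, umon_zero, one_smul], fun T _ T' _ => ?_,
      C.tendsto_zero (p := p) hy fun T _ => ?_⟩
    · rw [hμ, hμ, hμ, mon_add hq.ne_zero, add_mul, umon_add, smul_mul_smul_comm]
    · rw [hμ, norm_smul, hq.norm_mon]
      exact mul_le_of_le_one_right (by positivity) (norm_umon_le (fun _ => h1) _)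
  have hc : Continuous (B.ev 0) :=
    AddMonoidHomClass.continuous_of_bound (B.ev 0) 1 fun f => by rw [one_mul]; exact B.ev_le 0 f
  have hev : ∀ F, B.ev 0 (S.ev μ F) = S.ev (mon q) F := by
    intro F
    rw [S.ev_map_alg hadm _ hc]
    congr 1
    funext T
    have h2 : B.ev 0 u = 1 := by
      rw [hu, map_add, map_one, map_smul, B.ev_t 0 (by simp), smul_zero, add_zero]
    have h3 : Units.map ((B.ev 0 : A →+* ℂ_[p]) : A →* ℂ_[p]) u = 1 := Units.ext h2
    have h4 := map_umon (B.ev 0 : A →+* ℂ_[p]) (fun _ : ι => u) (T * a)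
    rw [h3] at h4
    rw [hμ, map_smul, show B.ev 0 (umon (fun _ => u) (T * a)) = _ from h4]
    simp [umon]
  obtain ⟨i0, hi0⟩ := Function.ne_iff.1 ha
  obtain ⟨i1, hi1⟩ := exists_ne i0
  have hA : ((a i0 : ℤ) : A) ≠ 0 := by
    rw [← map_intCast (algebraMap ℂ_[p] A), map_ne_zero_iff _ (algebraMap ℂ_[p] A).injective]
    exact_mod_cast hi0
  rw [← hev, show S.ev μ (ψ 1) = 0 from ?_, map_zero]
  refine orc A D (S.evHom hadm) (fun i => (a i : A)) 0 (S.ev_cst hadm) (fun i => D.map_intCast _)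
    (S.ev_der hadm D hDc _ fun T _ => ?_) (fun j => ?_) (fun h0 => ?_) ⟨i0, by simpa using hA⟩ 1
    (MvPolynomial.C (a i0 : A) * MvPolynomial.X i1 - MvPolynomial.C (a i1 : A) * MvPolynomial.X i0)
    (fun h0 => ?_) ?_ (fun m => ?_) ?_
  · rw [hμ, D.map_smul, der_umon D (fun _ => u) (fun _ => 1) fun _ => hDu, mul_smul_comm]
    simp
  · have hs := (S.hasSum_ev (hq.adm hy) (Φ j)).summable
    rw [S.evHom_apply, SR.ev, ← (pa_fib (S.hasSum_ev hadm (Φ j)).summable cl).tsum_eq]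
    refine (tsum_congr fun c => ?_).trans tsum_zero
    have h2 := (pa_ite hs fun T => cl T = c).tsum_smul_const ((u ^ ipZ (rep c) a : Aˣ) : A)
    rw [show ∑' T, (if cl T = c then S.co (Φ j) T • mon q T else 0) = 0 from h j c,
      zero_smul] at h2
    refine (tsum_congr fun T => ?_).trans h2
    split_ifs with hT
    · rw [hμ, pa_umon, hcl, hT, smul_smul, smul_eq_mul]
    · rw [zero_smul]
  · have h2 := S.norm_ev_th0 hq hy
    rw [← hev, ← S.evHom_apply hadm, h0, map_zero, norm_zero] at h2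
    exact zero_ne_one h2
  · have h2 := congrArg (MvPolynomial.eval (Pi.single i1 1)) h0
    simp [hi1.symm, hA] at h2
  · refine (MvPolynomial.totalDegree_sub _ _).trans (max_le ?_ ?_) <;>
      exact (MvPolynomial.totalDegree_mul _ _).trans
        (by rw [MvPolynomial.totalDegree_C, MvPolynomial.totalDegree_X])
  · simp only [MvPolynomial.coeff_sub, MvPolynomial.coeff_C_mul, MvPolynomial.coeff_X', map_sub]
    split_ifs <;> simp
  · simp only [map_sub, map_mul, MvPolynomial.aeval_C, MvPolynomial.aeval_X, Pi.zero_apply,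
      map_zero, add_zero, algebraMap_eq]
    ring

end Pool.Agent.E7
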