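import Pool.Agent.Lib.MP_7e5527_ag.E7.PA2
import Pool.Agent.Lib.MP_7e5527_ag.E7.PA3

/-! The case of unbounded torsion cosets. -/

open Filter Topology Polynomial
open scoped Polynomial.Bivariate

noncomputable section

namespace Pool.Agent.E7

variable {ι : Type} [Fintype ι] [DecidableEq ι] {p : ℕ} [Fact p.Prime] {C : Cone ι} {Q : Type}
  [CommRing Q]

theorem pa_mon_smul {K : Type} [Field K] (q : ι → K) (z : ℤ) (T : ι → ℤ) :
    mon q (z • T) = mon q T ^ z := by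
  simp [mon, zpow_mul', Finset.prod_zpow]

theorem pa_mon_pow {K : Type} [Field K] (q : ι → K) (j : ℕ) (T : ι → ℤ) :
    mon (fun i => q i ^ j) T = mon q T ^ j := by
  rw [mon, mon, ← Finset.prod_pow]
  simp only [← zpow_natCast, ← zpow_mul, mul_comm]

open scoped Classical in
/-- The sums over the classes of a good character vanish. -/
theorem pa_class {S : SR p C Q} {κ : Type} (D : Data S κ) (k : ℕ) {c : ι → ℂ_[p]}
    (hg : Good D.E (D.q k) c) (j : κ) (T0 : ι → ℤ) :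
    ∑' T, (if mon c T = mon c T0 then S.co (D.Φ j) T * mon (D.q k) T else 0) = 0 := by
  obtain ⟨m, hm, h⟩ := D.kum k
  refine pa_filter (mon c) _ hm (fun T => ?_) (fun e => ?_) T0
  · rw [← pa_mon_pow]
    simp [mon, fun i => hg.pow_eq_one ((D.pt k).ne_zero i) (h i)]
  · obtain ⟨σ, h1, h2, h3⟩ := hg e
    have h4 := (S.hasSum_ev (D.adm k) (D.Φ j)).map σ
      (AddMonoidHomClass.continuous_of_bound σ 1 fun z => by rw [one_mul, h1 z])
    rw [D.van, map_zero] at h4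
    have e1 : (fun T => mon c T ^ e * (S.co (D.Φ j) T * mon (D.q k) T)) =
        σ ∘ fun T => S.co (D.Φ j) T • mon (D.q k) T := by
      funext T
      simp only [Function.comp, smul_eq_mul, map_mul, h2 _ (D.coE j T), map_mon, h3, mon_mul,
        pa_mon_pow]
      ring
    rwa [e1]

/-- A Noetherian ring of sequences. -/
theorem pa_ring (s : Finset ℂ_[p]) (b : ℂ_[p]) (hb : ∀ g ∈ s, ‖b * g‖ ≤ 1) (u : ℕ → ι → ℂ_[p])
    (ω : ℕ → ℂ_[p]) : ∃ (A : Type) (_ : CommRing A) (_ : IsNoetherianRing A)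
      (φ : ℕ → A →+* ℂ_[p]), (∀ a, (∀ k, φ k a = 0) → a = 0) ∧
      (∀ k, (∀ i, ‖u k i‖ = 1) → ‖ω k‖ ≤ 1 → ∀ a, ‖φ k a‖ ≤ 1) ∧
      ∀ a ∈ Submodule.span ℤ (s : Set ℂ_[p]), ∀ (T : ι → ℤ) (n : ℕ), ∃ w : A, ∀ k,
        φ k w = b * a * mon (u k) T * ω k ^ n := by
  obtain ⟨G, hG⟩ : ∃ G : Set (ℕ → ℂ_[p]), G = (fun g _ => b * g) '' s ∪
    (Set.range fun i k => u k i) ∪ (Set.range fun i k => (u k i)⁻¹) ∪ {ω} := ⟨_, rfl⟩
  have hGf : G.Finite := by
    rw [hG]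
    exact (((s.finite_toSet.image _).union (Set.finite_range _)).union
      (Set.finite_range _)).union (Set.finite_singleton _)
  have g1 : ∀ g ∈ s, (fun _ => b * g) ∈ G := fun g hg => by
    rw [hG]
    exact .inl (.inl (.inl ⟨g, hg, rfl⟩))
  have g2 : ∀ i, (fun k => u k i) ∈ G := fun i => by
    rw [hG]
    exact .inl (.inl (.inr ⟨i, rfl⟩))
  have g3 : ∀ i, (fun k => (u k i)⁻¹) ∈ G := fun i => by
    rw [hG]
    exact .inl (.inr ⟨i, rfl⟩)
  have g4 : ω ∈ G := by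
    rw [hG]
    exact .inr rfl
  have m1 : ∀ a ∈ Submodule.span ℤ (s : Set ℂ_[p]), (fun _ => b * a) ∈ Algebra.adjoin ℤ G := by
    intro a ha
    induction ha using Submodule.span_induction with
    | mem g hg => exact Algebra.subset_adjoin (g1 g hg)
    | zero =>
      rw [mul_zero]
      exact (Algebra.adjoin ℤ G).zero_mem
    | add a a' _ _ ha ha' =>
      rw [mul_add]
      exact (Algebra.adjoin ℤ G).add_mem ha ha'
    | smul z a _ ha =>
      rw [mul_smul_comm]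
      exact (Algebra.adjoin ℤ G).smul_mem ha z
  have m2 : ∀ T, (fun k => mon (u k) T) ∈ Algebra.adjoin ℤ G := by
    intro T
    have e : (fun k => mon (u k) T) = ∏ i, fun k => u k i ^ T i := by
      funext k
      simp [mon]
    rw [e]
    refine (Algebra.adjoin ℤ G).prod_mem fun i _ => ?_
    obtain ⟨n, hn | hn⟩ := (T i).eq_nat_or_neg
    · simp only [hn, zpow_natCast]
      exact (Algebra.adjoin ℤ G).pow_mem (Algebra.subset_adjoin (g2 i)) n
    · simp only [hn, zpow_neg, zpow_natCast, ← inv_pow]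
      exact (Algebra.adjoin ℤ G).pow_mem (Algebra.subset_adjoin (g3 i)) n
  refine ⟨Algebra.adjoin ℤ G, inferInstance,
    isNoetherianRing_of_fg (Subalgebra.fg_def.2 ⟨G, hGf, rfl⟩),
    fun k => (Pi.evalRingHom _ k).comp (Algebra.adjoin ℤ G).val.toRingHom,
    fun a h => Subtype.ext (funext h), fun k n1 n2 ⟨a, ha⟩ => ?_, fun a ha T n => ?_⟩
  · change ‖a k‖ ≤ 1
    induction ha using Algebra.adjoin_induction with
    | mem g hg =>
      rw [hG] at hg
      rcases hg with ((⟨g, hg, rfl⟩ | ⟨i, rfl⟩) | ⟨i, rfl⟩) | hg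
      · exact hb g hg
      · exact (n1 i).le
      · exact (by rw [norm_inv, n1, inv_one] : ‖(u k i)⁻¹‖ = 1).le
      · rwa [hg]
    | algebraMap z => simpa using IsUltrametricDist.norm_intCast_le_one ℂ_[p] z
    | add a a' _ _ ha ha' => exact (IsUltrametricDist.norm_add_le_max _ _).trans (max_le ha ha')
    | mul a a' _ _ ha ha' => exact (norm_mul_le _ _).trans (mul_le_one₀ ha (norm_nonneg _) ha')
  · refine ⟨⟨_, m1 a ha⟩ * ⟨_, m2 T⟩ * ⟨_, Algebra.subset_adjoin g4⟩ ^ n, fun k => ?_⟩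
    rw [map_mul, map_mul, map_pow]
    rfl

open scoped Classical in
/-- The sums over the limit classes vanish. -/
theorem pa_limit {S : SR p C Q} (U : Ultrafilter ℕ) {q : ℕ → ι → ℂ_[p]} {y : ℕ → ι → ℚ}
    (hq : ∀ k, Pt p (q k) (y k)) {Y1 Y2 : ι → ℚ} (hY1 : Y1 ∈ C.Om) (hY2 : ∀ T ∈ C.Lp, 0 ≤ ip T Y2)
    (hy : ∀ᶠ k in (U : Filter ℕ), ∃ l m : ℚ, 0 < l ∧ 0 ≤ m ∧ y k = l • Y1 + m • Y2) (F : Q)
    {J : Type} (χ : ℕ → (ι → ℤ) → ℂ_[p]) (cl : (ι → ℤ) → J) (rep : J → ι → ℤ)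
    (hrep : ∀ j, cl (rep j) = j)
    (h1 : ∀ᶠ k in (U : Filter ℕ), ∀ T T', cl T = cl T' → χ k T = χ k T')
    (h2 : ∀ T T', cl T ≠ cl T' → ∀ᶠ k in (U : Filter ℕ), χ k T ≠ χ k T')
    (h3 : ∀ k T0, ∑' T, (if χ k T = χ k T0 then S.co F T * mon (q k) T else 0) = 0) :
    ∀ᶠ k in (U : Filter ℕ), ∀ j, ∑' T, (if cl T = j then S.co F T * mon (q k) T else 0) = 0 := by
  have hp : (0 : ℝ) < p := one_pos.trans one_lt_p
  obtain ⟨d, hd, z1, z2, hz1, hz2⟩ := pa_den Y1 Y2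
  have hd' : (0 : ℚ) < d := by exact_mod_cast hd
  have hip : ∀ {z : ι → ℤ} {V : ι → ℚ}, (∀ i, (z i : ℚ) = d * V i) → ∀ T,
      ((ipZ T z : ℤ) : ℚ) = d * ip T V := fun hz T => by
    rw [ipZ_cast, ip, ip, Finset.mul_sum]
    exact Finset.sum_congr rfl fun i _ => by rw [hz, mul_left_comm]
  have hnn : ∀ {z : ι → ℤ} {V : ι → ℚ}, (∀ i, (z i : ℚ) = d * V i) → ∀ T, 0 ≤ ip T V →
      0 ≤ ipZ T z := fun hz T hT => by
    have := mul_nonneg hd'.le hT
    rw [← hip hz] at this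
    exact_mod_cast this
  have h4 : ∀ k, ∃ l m : ℚ, (∃ l m : ℚ, 0 < l ∧ 0 ≤ m ∧ y k = l • Y1 + m • Y2) →
      0 < l ∧ 0 ≤ m ∧ y k = l • Y1 + m • Y2 := fun k => by
    by_cases h : ∃ l m : ℚ, 0 < l ∧ 0 ≤ m ∧ y k = l • Y1 + m • Y2
    · obtain ⟨l, m, h⟩ := h
      exact ⟨l, m, fun _ => h⟩
    · exact ⟨0, 0, fun h' => absurd h' h⟩
  choose l m hlm using h4
  choose π hπ using fun k => pa_norm (p := p) (l k / d)
  choose ω hω using fun k => pa_norm (p := p) (m k / d)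
  have hπ0 : ∀ k, π k ≠ 0 := fun k => norm_pos_iff.1 (by rw [hπ]; positivity)
  have hω0 : ∀ k, ω k ≠ 0 := fun k => norm_pos_iff.1 (by rw [hω]; positivity)
  obtain ⟨u, hu⟩ : ∃ u : ℕ → ι → ℂ_[p], ∀ k, q k = fun i => u k i * (π k ^ z1 i * ω k ^ z2 i) :=
    ⟨fun k i => q k i / (π k ^ z1 i * ω k ^ z2 i), fun k => funext fun i =>
      (div_mul_cancel₀ _ (mul_ne_zero (zpow_ne_zero _ (hπ0 k)) (zpow_ne_zero _ (hω0 k)))).symm⟩
  obtain ⟨s, hs⟩ := S.fg F
  obtain ⟨b, hb0, hb⟩ := NormedField.exists_norm_lt ℂ_[p]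
    (r := (1 + ∑ g ∈ s, ‖g‖)⁻¹) (by positivity)
  obtain ⟨A, _, _, φ, hφ0, hφ1, hφ⟩ := pa_ring s b (fun g hg => by
    have h5 := Finset.single_le_sum (f := fun g : ℂ_[p] => ‖g‖) (fun _ _ => norm_nonneg _) hg
    have h6 : 0 < 1 + ∑ g ∈ s, ‖g‖ := by positivity
    rw [← one_div, lt_div_iff₀ h6] at hb
    rw [norm_mul]
    nlinarith) u ω
  choose w hw using fun T => hφ _ (hs T) T (ipZ T z2).toNat
  have he : ∀ k T, φ k (w T) * π k ^ (ipZ T z1).toNat = b * (S.co F T * mon (q k) T) := by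
    intro k T
    rw [hw]
    by_cases h0 : S.co F T = 0
    · simp [h0]
    have hT := S.supp F T h0
    rw [hu, mon_mul, mon_mul, mon_zpow (hπ0 k), mon_zpow (hω0 k), ← zpow_natCast, ← zpow_natCast,
      Int.toNat_of_nonneg (hnn hz1 T (C.ip_nonneg hY1 hT)),
      Int.toNat_of_nonneg (hnn hz2 T (hY2 T hT))]
    ring
  have hi : ∀ (P : (ι → ℤ) → Prop) (_ : DecidablePred P) k,
      ∑' T, (if P T then φ k (w T) * π k ^ (ipZ T z1).toNat else 0) =
      b * ∑' T, if P T then S.co F T * mon (q k) T else 0 := fun P _ k => by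
    rw [← tsum_mul_left]
    exact tsum_congr fun T => by rw [he, mul_ite, mul_zero]
  refine (pa_vanish (U : Filter ℕ) w (fun T => (ipZ T z1).toNat) (fun n => ?_) φ π χ cl rep hrep ?_
    h2).mono fun k hk j => ?_
  · refine (C.fin Y1 hY1 (n / d)).subset fun T hT => ⟨S.supp F T fun h0 => hT.1 ?_, ?_⟩
    · exact hφ0 _ fun k => by simp [hw, h0]
    · rw [le_div_iff₀' hd', ← hip hz1, ← hT.2]
      exact_mod_cast Int.self_le_toNat _
  · filter_upwards [hy, h1] with k hk hk1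
    obtain ⟨hl, hm, e⟩ := hlm k hk
    have hd'' : (0 : ℝ) < d := by exact_mod_cast hd
    have n1 : ∀ i, ‖u k i‖ = 1 := fun i => by
      have h5 := hq k i
      have e1 : ((z1 i : ℤ) : ℝ) = d * Y1 i := by exact_mod_cast hz1 i
      have e2 : ((z2 i : ℤ) : ℝ) = d * Y2 i := by exact_mod_cast hz2 i
      have e3 : -((l k / d : ℚ) : ℝ) * z1 i + -((m k / d : ℚ) : ℝ) * z2 i = -(y k i : ℝ) := by
        rw [e, e1, e2]
        simp only [Pi.add_apply, Pi.smul_apply, smul_eq_mul]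
        push_cast
        field_simp
        ring
      rw [hu, norm_mul, norm_mul, norm_zpow, norm_zpow, hπ, hω, ← Real.rpow_intCast,
        ← Real.rpow_intCast, ← Real.rpow_mul hp.le, ← Real.rpow_mul hp.le, ← Real.rpow_add hp,
        e3] at h5
      exact (mul_eq_right₀ (by positivity)).1 h5
    refine ⟨hφ1 k n1 ?_, ?_, hk1, fun T0 => by rw [hi, h3, mul_zero]⟩
    · rw [hω]
      refine Real.rpow_le_one_of_one_le_of_nonpos one_lt_p.le (neg_nonpos.2 ?_)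
      exact_mod_cast div_nonneg hm hd'.le
    · rw [hπ]
      refine Real.rpow_lt_one_of_one_lt_of_neg one_lt_p (neg_lt_zero.2 ?_)
      exact_mod_cast div_pos hl hd'
  · have h5 := hk j
    rw [hi] at h5
    exact (mul_eq_zero.1 h5).resolve_left (norm_pos_iff.1 hb0)

theorem caseA [Nontrivial ι] {S : SR p C Q} {κ : Type} [Finite κ] (D : Data S κ)
    (hb : ∃ R : ℚ, ∀ n i, D.y n i ≤ R) (c : ℕ → ι → ℂ_[p]) (hg : ∀ k, Good D.E (D.q k) (c k))
    (hc : ∀ k, ∃ i, c k i ^ k.factorial ≠ 1) : False := by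
  classical
  obtain ⟨U, hU⟩ : ∃ U : Ultrafilter ℕ, (U : Filter ℕ) ≤ cofinite := ⟨_, hyperfilter_le_cofinite⟩
  obtain ⟨ya, yb, hl⟩ := pa_trop D.pt_xc D.rel U
  obtain ⟨Y1, hY1, Y2, hY2, hy⟩ := C.line U D.y ya yb D.sg hb hl
  have h0 : ∀ k i, c k i ≠ 0 := fun k i h => by
    obtain ⟨m, hm, h1⟩ := D.kum k
    have := (hg k).pow_eq_one ((D.pt k).ne_zero i) (h1 i)
    rw [h, zero_pow hm.ne'] at this
    exact zero_ne_one this
  obtain ⟨Λ, hΛ⟩ : ∃ Λ : Submodule ℤ (ι → ℤ), ∀ T, T ∈ Λ ↔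
      ∀ᶠ k in (U : Filter ℕ), mon (c k) T = 1 :=
    ⟨{ carrier := {T | ∀ᶠ k in (U : Filter ℕ), mon (c k) T = 1}
       add_mem' := fun h h' => (h.and h').mono fun k h => by rw [mon_add (h0 k), h.1, h.2, one_mul]
       zero_mem' := Eventually.of_forall fun k => mon_zero _
       smul_mem' := fun z T h => h.mono fun k h => by rw [pa_mon_smul, h, one_zpow] },
      fun _ => Iff.rfl⟩
  obtain ⟨a, ha, horth⟩ := pa_orth Λ fun N hN => by
    by_contra h
    push Not at h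
    have h1 : ∀ᶠ k in (U : Filter ℕ), ∀ i, mon (c k) (Pi.single i N) = 1 :=
      eventually_all.2 fun i => (hΛ _).1 (h i)
    have h2 : ∀ᶠ k in (U : Filter ℕ), N ≤ k :=
      (hU.trans Nat.cofinite_eq_atTop.le) (eventually_ge_atTop N)
    obtain ⟨k, h3, h4⟩ := (h1.and h2).exists
    obtain ⟨i, hi⟩ := hc k
    obtain ⟨e, he⟩ := Nat.dvd_factorial hN h4
    have h5 := h3 i
    rw [← mul_one (N : ℤ), ← smul_eq_mul, Pi.single_smul', pa_mon_smul, mon_single,
      zpow_natCast] at h5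
    exact hi (by rw [he, pow_mul, h5, one_pow])
  have hm : ∀ k T T', mon (c k) T = mon (c k) (T - T') * mon (c k) T' := fun k T T' => by
    rw [← mon_add (h0 k), sub_add_cancel]
  have h1 : ∀ᶠ k in (U : Filter ℕ), ∀ T ∈ Λ, mon (c k) T = 1 := by
    obtain ⟨s, hs⟩ := IsNoetherian.noetherian Λ
    refine ((eventually_all_finset s).2 fun T hT =>
      (hΛ T).1 (hs ▸ Submodule.subset_span hT)).mono fun k hk T hT => ?_
    rw [← hs] at hT
    induction hT using Submodule.span_induction with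
    | mem T hT => exact hk T hT
    | zero => exact mon_zero _
    | add T T' _ _ h h' => rw [mon_add (h0 k), h, h', one_mul]
    | smul z T _ h => rw [pa_mon_smul, h, one_zpow]
  have hrep : ∀ j : (ι → ℤ) ⧸ Λ, Submodule.Quotient.mk j.out = j := fun j => j.out_eq
  refine D.absurd hU 1 ((eventually_all.2 fun j => pa_limit U D.pt hY1 hY2 hy (D.Φ j)
    (fun k => mon (c k)) (Submodule.Quotient.mk (p := Λ)) Quotient.out hrep
    (h1.mono fun k hk T T' h => ?_) (fun T T' h => ?_) fun k => pa_class D k (hg k) j).mono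
      fun k hk => pa_orc S D.orc (D.pt k) (D.om k) ha _ Quotient.out (fun T => ?_) hk)
  · rw [hm k T T', hk _ ((Submodule.Quotient.eq Λ).1 h), one_mul]
  · refine (Ultrafilter.eventually_not.2 fun h2 => h ((Submodule.Quotient.eq Λ).2
      ((hΛ _).2 h2))).mono fun k hk h3 => hk ?_
    rw [hm k T T'] at h3
    exact (mul_eq_right₀ (mon_ne_zero (h0 k) _)).1 h3
  · rw [← sub_eq_zero, ← ipZ_sub]
    exact horth _ ((Submodule.Quotient.eq Λ).1 (hrep _).symm)

end Pool.Agent.E7
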