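import Pool.Agent.Lib.MP_7e5527_ag.E7.PCaseB
import Pool.Agent.Lib.MP_7e5527_ag.E7.PA

/-! There is no infinite sequence of Hecke points on the curve. -/

open Filter Topology Polynomial
open scoped Polynomial.Bivariate

noncomputable section

namespace Pool.Agent.E7

variable {ι : Type} [Fintype ι] [DecidableEq ι] {p : ℕ} [Fact p.Prime] {C : Cone ι} {Q : Type}
  [CommRing Q]

theorem core [Nontrivial ι] (S : SR p C Q) {κ : Type} [Finite κ] (D : Data S κ) : False := by
  by_cases hb : ∃ R : ℚ, ∀ n i, D.y n i ≤ R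
  · by_cases hw : ∃ w0 : ℕ, 0 < w0 ∧ ∀ n c, Good D.E (D.q n) c → ∀ i, c i ^ w0 = 1
    · obtain ⟨w0, h0, h⟩ := hw
      exact caseB D hb h0 h
    · push Not at hw
      choose f c hg hc using fun k : ℕ => hw k.factorial k.factorial_pos
      have hf : Tendsto f cofinite cofinite := by
        refine Tendsto.cofinite_of_finite_preimage_singleton fun n => ?_
        obtain ⟨m, hm, h⟩ := D.kum n
        refine ((Set.finite_Iio m).subset fun k hk => ?_).to_subtype
        obtain ⟨i, hi⟩ := hc k
        have hk' : f k = n := hk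
        by_contra hkm
        obtain ⟨e, he⟩ := Nat.dvd_factorial hm (not_lt.1 hkm)
        refine hi ?_
        rw [he, pow_mul, (hg k).pow_eq_one ((D.pt _).ne_zero i) (hk' ▸ h i), one_pow]
      obtain ⟨R, hR⟩ := hb
      exact caseA (D.comp f hf) ⟨R, fun n => hR _⟩ c hg hc
  · have h1 : ∃ i, ∀ k : ℕ, ∃ n, (k : ℚ) < D.y n i := by
      by_contra h
      push Not at h
      choose k hk using h
      refine hb ⟨∑ i, k i, fun n i => (hk i n).trans ?_⟩
      exact Finset.single_le_sum (f := fun i => (k i : ℚ)) (fun _ _ => Nat.cast_nonneg _)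
        (Finset.mem_univ i)
    obtain ⟨i, h1⟩ := h1
    choose f hf using h1
    have hf' : Tendsto f cofinite cofinite := by
      refine Tendsto.cofinite_of_finite_preimage_singleton fun n => ?_
      refine ((Set.finite_Iio ⌈D.y n i⌉₊).subset fun k hk => ?_).to_subtype
      have hk' : f k = n := hk
      exact Nat.lt_ceil.2 (hk' ▸ hf k)
    refine caseI (D.comp f hf') (U := hyperfilter ℕ) hyperfilter_le_cofinite i 0 ?_
      (Eventually.of_forall fun n => ((D.comp f hf').pt_xc n).ne_zero i)
    refine Tendsto.mono_left ?_ (hyperfilter_le_cofinite.trans Nat.cofinite_eq_atTop.le)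
    have hp : (1 : ℝ) < p := one_lt_p
    refine squeeze_zero_norm (a := fun k : ℕ => ((p : ℝ)⁻¹) ^ k) (fun k => ?_)
      (tendsto_pow_atTop_nhds_zero_of_lt_one (by positivity) (inv_lt_one_of_one_lt₀ hp))
    rw [(D.comp f hf').pt_xc k i, inv_pow, ← Real.rpow_natCast, ← Real.rpow_neg (by positivity)]
    refine Real.rpow_le_rpow_of_exponent_le hp.le (neg_le_neg ?_)
    exact_mod_cast (hf k).le

end Pool.Agent.E7
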