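import Pool.Agent.Lib.MP_7e5527_ag.E7.PDefs

/-! The oracle with a new variable. -/

open Filter Topology Polynomial
open scoped Polynomial.Bivariate

noncomputable section

namespace Pool.Agent.E7

variable {ι : Type} [Fintype ι] [DecidableEq ι] {p : ℕ} [Fact p.Prime] {C : Cone ι} {Q : Type}
  [CommRing Q]

theorem porc_ext {k L : Type} [CommRing k] [CommRing L] [Algebra k L] (D : Derivation k L L) :
    ∃ D' : Derivation k L[X] L[X], D' X = 1 ∧ ∀ a, D' (Polynomial.C a) = Polynomial.C (D a) := by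
  refine ⟨(PolynomialModule.equivPolynomialSelf (R := L)).toLinearMap.compDer D.mapCoeffs +
      Polynomial.derivative'.restrictScalars k, ?_, fun a => ?_⟩
  · simp
  · simp

/-- Extend `D` to `L[X]` by `D X = 1`. -/
theorem Oracle.prime {S : SR p C Q} {κ : Type} {Φ : κ → Q} {ψ : ℕ → Q} (h : Oracle S Φ ψ) :
    Oracle' S Φ ψ := by
  intro L _ _ _ D ε a lam hc ha hD hΦ h0 hz d P hP hd hm he
  obtain ⟨D', hX, hC⟩ := porc_ext D
  have hz' : ∀ i, D' (Polynomial.C (a i) * X + Polynomial.C (lam i)) =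
      Polynomial.C (a i + D (lam i)) := fun i => by
    rw [map_add, D'.leibniz, hX, hC, hC, ha, map_add]
    simp
  have key := h L[X] D' (Polynomial.C.comp ε)
    (fun i => Polynomial.C (a i) * X + Polynomial.C (lam i)) (fun c => ?_) (fun F => ?_)
    (fun j => ?_) ?_ ?_ d (MvPolynomial.map Polynomial.C P) ?_ ?_ (fun m => ?_) ?_
  · exact Polynomial.C_eq_zero.1 key
  · rw [RingHom.comp_apply, hc, Polynomial.algebraMap_apply]
  · rw [RingHom.comp_apply, hC, hD, map_sum]
    refine Finset.sum_congr rfl fun i _ => ?_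
    rw [hz', map_mul, RingHom.comp_apply]
  · rw [RingHom.comp_apply, hΦ, map_zero]
  · exact Polynomial.C_ne_zero.2 h0
  · obtain ⟨i, hi⟩ := hz
    exact ⟨i, by rw [hz']; exact Polynomial.C_ne_zero.2 hi⟩
  · intro e
    exact hP (MvPolynomial.map_injective _ Polynomial.C_injective (by rw [e, map_zero]))
  · refine le_trans ?_ hd
    exact Finset.sup_mono (MvPolynomial.support_map_subset _ _)
  · rw [MvPolynomial.coeff_map, hC, hm, map_zero]
  · rw [MvPolynomial.eval_map, ← he, MvPolynomial.aeval_def, Polynomial.algebraMap_eq]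

end Pool.Agent.E7
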