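import Pool.Agent.Lib.MP_7e5527_ag.E7.BR2
import Pool.Agent.Lib.MP_7e5527_ag.E7.Orc
import Pool.Agent.Lib.MP_7e5527_ag.E7.Lgr
import Pool.Agent.Lib.MP_7e5527_ag.E7.PBas
import Pool.Agent.Lib.MP_7e5527_ag.E7.POrc
import Pool.Agent.Lib.MP_7e5527_ag.E7.PCore

/-! The data for the `p`-adic core. -/

noncomputable section

namespace Pool.Agent.E7

variable {p : ℕ} [Fact p.Prime] {e : ℂ_[p] ≃+* ℂ} {q : (Ix → ℚ) → ℂ_[p]} {Y : Ix → ℚ}

theorem glue_bdd {σ K : Type} [NormedField K] (u : ℕ → σ → K) (h : ∀ r, ∃ C : ℝ, ∀ n, ‖u n r‖ ≤ C)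
    (P : MvPolynomial σ K) : ∃ C : ℝ, ∀ n, ‖MvPolynomial.eval (u n) P‖ ≤ C := by
  induction P using MvPolynomial.induction_on with
  | C a => exact ⟨‖a‖, fun n => by rw [MvPolynomial.eval_C]⟩
  | add P Q hP hQ =>
    obtain ⟨a, ha⟩ := hP
    obtain ⟨b, hb⟩ := hQ
    exact ⟨a + b, fun n => by
      rw [map_add]
      exact (norm_add_le _ _).trans (add_le_add (ha n) (hb n))⟩
  | mul_X P r hP =>
    obtain ⟨a, ha⟩ := hP
    obtain ⟨b, hb⟩ := h r
    exact ⟨a * b, fun n => by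
      rw [map_mul, MvPolynomial.eval_X, norm_mul]
      exact mul_le_mul (ha n) (hb n) (norm_nonneg _) ((norm_nonneg _).trans (ha n))⟩

theorem glue_ev (X : Pts e q Y) (hq : Chr p q Y) (n : ℕ) (F : GZ) :
    (SRE e).ev (mon fun i => X.qn n (TT i)) F = evq e (X.qn n) F :=
  (evq_eq e (X.chr hq n) F).symm

theorem glue_sg (X : Pts e q Y) (n : ℕ) : yc (lin (X.A n) Y) ∈ cone.Sg :=
  yc_mem_Sg.2 (X.sieg n)

theorem glue_evb (X : Pts e q Y) (hq : Chr p q Y) {F : Fn} (hF : F ∈ GZ) :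
    ∃ C : ℝ, ∀ n, ‖evq e (X.qn n) F‖ ≤ C := by
  obtain ⟨C, hC⟩ := (SRE e).norm_ev_bound (K := ℂ_[p]) ⟨F, hF⟩
  refine ⟨C, fun n => ?_⟩
  have h1 := hC _ _ (X.chr hq n).pt (cone.sub (glue_sg X n))
  rwa [glue_ev X hq] at h1

theorem glue_jac (X : Pts e q Y) (hq : Chr p q Y) : ¬ Van JacF X.h := fun h => by
  refine evq_JacF e (X.chr hq 0) (X.sieg 0) (X.kill 0 _ _ JacF_m2.1 JacF_m2.2 ?_)
  filter_upwards [h] with t ht
  rw [Pi.pow_apply, ht, zero_pow two_ne_zero]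

theorem glue_m2 (i j : Ix) (r : Fin 3) : M2 (4 * 1) (![ThF, Thi i, Thi j] r) := by
  rw [mul_one]
  fin_cases r
  · exact ThF_m2
  · exact Thi_m2 i
  · exact Thi_m2 j

section

variable {X : Pts e q Y} {B : Type} [CommRing B] [Algebra ℂ_[p] B]

theorem glue_norm (R : BR X B) (hq : Chr p q Y) (n : ℕ) {m : ℤ} {F : Fn} (hF : M2 (4 * m) F) :
    ‖R.ep n (R.io m F)‖ = ‖evq e (X.qn n) F‖ := by
  rw [R.ev n m F hF, norm_div, norm_zpow, norm_evq_ThF e (X.chr hq n), one_zpow, div_one]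

theorem glue_x (R : BR X B) (hq : Chr p q Y) (n : ℕ) (i : Ix) :
    R.ep n (R.io 1 (Thi i)) = (SRE e).xc (fun i => X.qn n (TT i)) i := by
  rw [R.ev n 1 (Thi i) (glue_m2 i i 1), zpow_one, SR.xc, glue_ev X hq, glue_ev X hq]
  rfl

theorem glue_hom (R : BR X B) (i j : Ix) {P : MvPolynomial (Fin 3) ℂ_[p]} {n : ℕ}
    (hP : P.IsHomogeneous n) :
    M2 (4 * n) (MvPolynomial.aeval ![ThF, Thi i, Thi j] (MvPolynomial.map e.toRingHom P)) ∧
      (Van (MvPolynomial.aeval ![ThF, Thi i, Thi j] (MvPolynomial.map e.toRingHom P)) X.h ↔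
        MvPolynomial.aeval ![1, R.io 1 (Thi i), R.io 1 (Thi j)] P = 0) := by
  obtain ⟨h1, h2⟩ := R.aeval (glue_m2 i j) hP
  have h3 : (fun r => R.io 1 (![ThF, Thi i, Thi j] r)) = ![1, R.io 1 (Thi i), R.io 1 (Thi j)] := by
    funext r
    fin_cases r
    · exact R.th
    · rfl
    · rfl
  rw [h3] at h2
  rw [mul_one] at h1 h2
  exact ⟨h1, by rw [← R.van _ _ h1, h2]⟩

theorem glue_dep [IsDomain B] (R : BR X B) (hq : Chr p q Y) (i : Ix) {m : ℤ} {F : Fn}
    (hF : M2 (4 * m) F) (h0 : ¬ Van F X.h) : ∃ Q0 : Polynomial ℂ_[p], Q0 ≠ 0 ∧ ∃ C : ℝ, ∀ n,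
      ‖Q0.eval ((SRE e).xc (fun i => X.qn n (TT i)) i)‖ ≤ C * ‖evq e (X.qn n) F‖ := by
  obtain ⟨Q0, hQ, P, h⟩ := curve_dep R.dep2 (R.io 1 (Thi i)) (R.io m F)
    fun h => h0 ((R.van m F hF).1 h)
  obtain ⟨C, hC⟩ := glue_bdd (fun n => ![R.ep n (R.io 1 (Thi i)), R.ep n (R.io m F)]) (fun r => by
    fin_cases r
    · obtain ⟨C, hC⟩ := glue_evb X hq (Thi_mem i)
      exact ⟨C, fun n => (glue_norm R hq n (glue_m2 i i 1)).le.trans (hC n)⟩
    · obtain ⟨C, hC⟩ := glue_evb X hq (hF.1.mem_GZ hF.2)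
      exact ⟨C, fun n => (glue_norm R hq n hF).le.trans (hC n)⟩) P
  refine ⟨Q0, hQ, C, fun n => ?_⟩
  rw [← glue_x R hq, ← ccurve_eps1, h, map_mul, ccurve_eps2, norm_mul, glue_norm R hq n hF,
    mul_comm]
  exact mul_le_mul_of_nonneg_right (hC n) (norm_nonneg _)

end

/-- Take `B`, `R` from `exists_BR`, `x i = R.io 1 (Thi i)`, so that `R.ep n (x i)` is
`(SRE e).xc (q n) i`; `curve_alg` (with `xc_alg`, `xc_inj`, `X.inj`), `exists_homog`;
`Φ j = eval₂ cst ![th0, th i1, th j] (Ph j)`; `E` is the field of `curve_alg` joined with the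
`q (TT i)`; `ψ d = PsiF ^ 4`, which does not vanish along the arc by `psi_not_van`, `Dk_eq_prod`,
`van_mul`, `van_prod`, `BR.aeval`, `evq_JacF`; `curve_dep`, `curve_rel`, `norm_ev_bound`. -/
theorem exists_data (X : Pts e q Y) (hq : Chr p q Y) (ha : ∀ T, IsAlgebraic ℚ_[p] (q T)) :
    Nonempty (Data (SRE e) Ix) := by
  classical
  obtain ⟨B, _, _, _, ⟨R⟩⟩ := exists_BR X hq
  have hpt := fun n => (X.chr hq n).pt
  have halg : ∀ n i, IsAlgebraic ℚ_[p] (X.qn n (TT i)) := fun n i => by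
    obtain ⟨m, hm, h⟩ := qt_pow_mem e hq (algebraicClosure ℚ_[p] ℂ_[p])
      (fun i => mem_algebraicClosure_iff.2 (ha _)) (X.A n) (X.B n)
    exact IsAlgebraic.of_pow hm (mem_algebraicClosure_iff.1 (h i))
  obtain ⟨i1, E1, P, hE1, hco, h0, h1, hfib⟩ := curve_alg (K0 := ℚ_[p]) R.dep2
    (fun i => R.io 1 (Thi i)) R.ep
    (fun n i => by
      rw [glue_x R hq]
      exact (SRE e).xc_alg (hpt n) (cone.sub (glue_sg X n)) (halg n) i)
    (fib_of_injective fun n n' h => X.inj ((SRE e).xc_inj (hpt n) (glue_sg X n) (hpt n')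
      (glue_sg X n') (funext fun i => by
        rw [← glue_x R hq, ← glue_x R hq]
        exact congrFun h i)))
  let E0 : IntermediateField ℚ_[p] ℂ_[p] :=
    IntermediateField.adjoin ℚ_[p] (Set.range fun i => q (TT i))
  have hE0 : FiniteDimensional ℚ_[p] E0 :=
    IntermediateField.finiteDimensional_adjoin fun x hx => by
      obtain ⟨j, rfl⟩ := hx
      exact (ha _).isIntegral
  choose m Ph hhom hPco hPh using fun j => exists_homog (E1 ⊔ E0) (P j)
    fun ν => (le_sup_left : E1 ≤ E1 ⊔ E0) (hco j ν)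
  let Φ : Ix → GZ := fun j =>
    MvPolynomial.eval₂ (SRE e).cst ![(SRE e).th0, (SRE e).th i1, (SRE e).th j] (Ph j)
  have hΦ : ∀ j, (Φ j : Fn) =
      MvPolynomial.aeval ![ThF, Thi i1, Thi j] (MvPolynomial.map e.toRingHom (Ph j)) := fun j => by
    have h2 : (fun r => ((![(SRE e).th0, (SRE e).th i1, (SRE e).th j] r : GZ) : Fn)) =
        ![ThF, Thi i1, Thi j] := by
      funext r
      fin_cases r <;> rfl
    rw [← h2]
    exact SRE_aeval e _ _
  have hΦ' : (fun j => (Φ j : Fn)) = fun j =>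
      MvPolynomial.aeval ![ThF, Thi i1, Thi j] (MvPolynomial.map e.toRingHom (Ph j)) := funext hΦ
  have hm2 : ∀ j, M2 (4 * m j) (Φ j) := fun j => by
    rw [hΦ]
    exact (glue_hom R i1 j (hhom j)).1
  have hvan : ∀ j, Van (Φ j) X.h := fun j => by
    rw [hΦ, (glue_hom R i1 j (hhom j)).2, (hPh j B _ _).1]
    exact h0 j
  have hM : ∀ a, M2 (kk m a) (FF (fun j => (Φ j : Fn)) a) := fun a => by
    cases a with
    | none => exact ThF_m2
    | some j => exact hm2 j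
  have hDk : ¬ Van (Wr.Dk dl (kk m) (FF fun j => (Φ j : Fn)) i1 4 (Thi i1)) X.h := by
    rw [hΦ', Dk_eq_prod _ m (fun j => (hhom j).map _) i1]
    have hH : ∀ j, IsHol (MvPolynomial.aeval ![ThF, Thi i1, Thi j]
        (MvPolynomial.pderiv 2 (MvPolynomial.map e.toRingHom (Ph j)))) := fun j =>
      isHol_aeval (fun r => (glue_m2 i1 j r).1.gd.isHol) _
    intro h
    rcases van_mul X.arc (mem_Hol.1 (prod_mem fun j _ => mem_Hol.2 (hH j)))
      (Gd.isHol JacF_mem.1) h with h | h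
    · obtain ⟨j, _, hj⟩ := van_prod X.arc _ (fun j _ => hH j) h
      rw [MvPolynomial.pderiv_map, (glue_hom R i1 j (hhom j).pderiv).2, (hPh j B _ _).2] at hj
      exact h1 j hj
    · exact glue_jac X hq h
  have PP : ∀ d, PB d := fun d => (exists_PB d).some
  have h4 := fun d => psi_four hM i1 (PP d)
  have hψ : ∀ d, ¬ Van (PsiF (kk m) (FF fun j => (Φ j : Fn)) i1 (PP d) ^ 4) X.h := fun d h =>
    psi_not_van X.arc (fun a => (hM a).1.gd.isHol) i1 (fun j _ => hvan j)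
      (show (4 : ℤ) ≠ 0 by norm_num) (X.not_van hq) (Thi_m2 i1).1.gd.isHol hDk (PP d)
      (van_pow X.arc (isHol_PsiF _ (fun a => (hM a).1.gd.isHol) _ _) h)
  have hint : ∀ {c : ℂ_[p]}, (∃ n : ℤ, c = n) → c ∈ E1 ⊔ E0 := fun ⟨n, hn⟩ => by
    rw [hn]
    exact intCast_mem _ n
  exact ⟨{
    q := fun n i => X.qn n (TT i)
    y := fun n => yc (lin (X.A n) Y)
    Φ := Φ
    ψ := fun d => ⟨_, (h4 d).1.mem_GZ (h4 d).2⟩
    i1 := i1
    E := E1 ⊔ E0
    finE := inferInstance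
    pt := hpt
    sg := glue_sg X
    van := fun n j => by
      rw [glue_ev X hq]
      exact X.kill n _ _ (hm2 j).1 (hm2 j).2 (hvan j)
    coE := fun j T => by
      refine (SRE e).co_mem _ (fun r T => ?_) (hPco j) T
      fin_cases r
      · exact hint ((SRE e).int0 T)
      · exact hint ((SRE e).int i1 T)
      · exact hint ((SRE e).int j T)
    kum := fun n => qt_pow_mem e hq _ (fun i => (le_sup_right : E0 ≤ E1 ⊔ E0)
      (IntermediateField.subset_adjoin _ _ (Set.mem_range_self i))) _ _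
    rel := fun i j => by
      obtain ⟨P, hP, h⟩ := curve_rel R.dep2 (R.io 1 (Thi i)) (R.io 1 (Thi j))
      refine ⟨P, hP, fun n => ?_⟩
      rw [← glue_x R hq, ← glue_x R hq]
      exact h _
    fib := fun c => by
      simp only [← glue_x R hq]
      exact hfib c
    dep := fun d => by
      simp only [glue_ev X hq]
      exact glue_dep R hq i1 (h4 d) (hψ d)
    orc := (oracle_E7 e (kk m) Φ i1 PP _ fun _ => rfl).prime
    lgr := fun Lg hLg U y0 a h => lgr_e7 e hq X.A X.c X.B X.sim Lg hLg U y0 a h }⟩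

theorem pts_false (X : Pts e q Y) (hq : Chr p q Y) (ha : ∀ T, IsAlgebraic ℚ_[p] (q T)) : False :=
  have : Nontrivial Ix := ⟨⟨.inl 0, .inl 1, by decide⟩⟩
  (exists_data X hq ha).elim fun D => core (SRE e) D

end Pool.Agent.E7
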