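import Pool.Agent.Lib.MP_7e5527_ag.E7.Sl

/-! Filters by roots of unity and uniqueness of the coefficients. -/

noncomputable section

namespace Pool.Agent.E7

theorem g1_congr {F : Fn} {a b : (Ix → ℚ) → ℂ} (h : GoodC F a) (e : ∀ T, a T = b T) :
    GoodC F b := (funext e : a = b) ▸ h

theorem g1_pow (T B : Ix → ℚ) (N : ℕ) : eT T (toR ℂ ((N : ℚ) • B)) = eT T (toR ℂ B) ^ N := by
  rw [eT, eT, toR_smul, tr_smul_right, ← Complex.exp_nat_mul, Rat.cast_natCast, mul_left_comm]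

theorem g1_span_mul (s t : Finset ℂ) : ∃ u : Finset ℂ, ∀ x ∈ Submodule.span ℤ (s : Set ℂ),
    ∀ y ∈ Submodule.span ℤ (t : Set ℂ), x * y ∈ Submodule.span ℤ (u : Set ℂ) := by
  classical
  refine ⟨Finset.image₂ (· * ·) s t, fun x hx y hy => ?_⟩
  have h := Submodule.mul_mem_mul hx hy
  rw [Submodule.span_mul_span] at h
  rw [Finset.coe_image₂]
  exact h

theorem eT_add (T T' : Ix → ℚ) (Z : Ix → ℂ) : eT (T + T') Z = eT T Z * eT T' Z := by
  rw [eT, eT, eT, toR_add, tr_add_left, mul_add, Complex.exp_add]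
theorem eT_add_right (T : Ix → ℚ) (Z Z' : Ix → ℂ) : eT T (Z + Z') = eT T Z * eT T Z' := by
  rw [eT, eT, eT, tr_add_right, mul_add, Complex.exp_add]
theorem eT_zero (Z : Ix → ℂ) : eT 0 Z = 1 := by
  rw [eT, toR_zero, tr_zero_left, mul_zero, Complex.exp_zero]
theorem eT_ne (T : Ix → ℚ) (Z : Ix → ℂ) : eT T Z ≠ 0 := Complex.exp_ne_zero _
theorem norm_eT (T : Ix → ℚ) (Z : Ix → ℂ) :
    ‖eT T Z‖ = Real.exp (-(2 * Real.pi * tr (toR ℝ T) fun l => (Z l).im)) := by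
  rw [eT, Complex.norm_exp, ← im_tr]
  congr 1
  simp
theorem eT_eq_one (T B : Ix → ℚ) : eT T (toR ℂ B) = 1 ↔ ∃ n : ℤ, tr T B = n := by
  rw [eT, tr_toR, Complex.exp_eq_one_iff]
  refine exists_congr fun n => ?_
  rw [mul_comm (n : ℂ), mul_right_inj' Complex.two_pi_I_ne_zero]
  exact_mod_cast Iff.rfl
theorem eT_root (T B : Ix → ℚ) : ∃ N : ℕ, 0 < N ∧ eT T (toR ℂ B) ^ N = 1 := by
  refine ⟨(tr T B).den, (tr T B).den_pos, ?_⟩
  rw [← g1_pow, eT_eq_one, tr_smul_right]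
  exact ⟨(tr T B).num, Rat.den_mul_eq_num _⟩

/-- For `M • T ∈ Lam` the `eT T B` are roots of unity of one fixed order. -/
theorem eT_root_unif {M : ℕ} (hM : 0 < M) (B : Ix → ℚ) :
    ∃ N : ℕ, 0 < N ∧ ∀ T, (M : ℚ) • T ∈ Lam → eT T (toR ℂ B) ^ N = 1 := by
  obtain ⟨M', hM', hB⟩ := exists_den B
  refine ⟨M * M', mul_pos hM hM', fun T hT => ?_⟩
  obtain ⟨n, hn⟩ := Lam.tr_int hT hB
  rw [tr_smul_left, tr_smul_right] at hn
  rw [← g1_pow, eT_eq_one, tr_smul_right]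
  exact ⟨n, by rw [← hn, Nat.cast_mul, mul_assoc]⟩

theorem GoodC.zero : GoodC 0 0 :=
  ⟨⟨1, one_pos, fun _ h => absurd rfl h⟩, ⟨∅, fun _ => zero_mem _⟩,
    fun _ => by simp⟩
theorem GoodC.one : GoodC 1 (Pi.single 0 1) := by
  refine ⟨⟨1, one_pos, fun T h => ?_⟩, ⟨{1}, fun T => ?_⟩, fun Z => ?_⟩
  · obtain rfl : T = 0 := by_contra fun h0 => h (Pi.single_eq_of_ne h0 _)
    exact ⟨by rw [smul_zero]; exact Lam.zero, Psd.zero⟩
  · by_cases h0 : T = 0
    · rw [h0, Pi.single_eq_same]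
      exact Submodule.subset_span (by simp)
    · rw [Pi.single_eq_of_ne h0]
      exact zero_mem _
  · have h := hasSum_single (f := fun T => (Pi.single 0 1 : (Ix → ℚ) → ℂ) T * eT T Z) 0
      fun T h0 => by rw [Pi.single_eq_of_ne h0, zero_mul]
    rwa [Pi.single_eq_same, eT_zero, mul_one] at h
theorem GoodC.add {F G : Fn} {a b : (Ix → ℚ) → ℂ} (h : GoodC F a) (h' : GoodC G b) :
    GoodC (F + G) (a + b) := by
  classical
  obtain ⟨M, hM, h1⟩ := h.supp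
  obtain ⟨M', hM', h2⟩ := h'.supp
  obtain ⟨s, hs⟩ := h.fg
  obtain ⟨t, ht⟩ := h'.fg
  refine ⟨⟨M * M', mul_pos hM hM', fun T hT => ?_⟩, ⟨s ∪ t, fun T => ?_⟩, fun Z => ?_⟩
  · by_cases ha : a T = 0
    · have hb : b T ≠ 0 := fun hb => hT (by rw [Pi.add_apply, ha, hb, add_zero])
      exact ⟨by rw [Nat.cast_mul, mul_smul]; exact Lam.nsmul (h2 T hb).1 M, (h2 T hb).2⟩
    · exact ⟨by rw [Nat.cast_mul, mul_comm, mul_smul]; exact Lam.nsmul (h1 T ha).1 M', (h1 T ha).2⟩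
  · rw [Finset.coe_union]
    exact add_mem (Submodule.span_mono Set.subset_union_left (hs T))
      (Submodule.span_mono Set.subset_union_right (ht T))
  · simpa only [Pi.add_apply, add_mul] using (h.sum Z).add (h'.sum Z)
theorem GoodC.smul {F : Fn} {a : (Ix → ℚ) → ℂ} (h : GoodC F a) (c : ℂ) :
    GoodC (c • F) (c • a) := by
  obtain ⟨M, hM, h1⟩ := h.supp
  obtain ⟨s, hs⟩ := h.fg
  obtain ⟨u, hu⟩ := g1_span_mul {c} s
  refine ⟨⟨M, hM, fun T hT => h1 T (right_ne_zero_of_mul hT)⟩,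
    ⟨u, fun T => hu c (Submodule.subset_span (by simp)) _ (hs T)⟩, fun Z => ?_⟩
  simpa only [Pi.smul_apply, smul_eq_mul, mul_assoc] using (h.sum Z).mul_left c
theorem GoodC.finsum {α : Type} (s : Finset α) {F : α → Fn} {a : α → (Ix → ℚ) → ℂ}
    (h : ∀ x ∈ s, GoodC (F x) (a x)) : GoodC (∑ x ∈ s, F x) (∑ x ∈ s, a x) := by
  classical
  induction s using Finset.induction_on with
  | empty => simpa using GoodC.zero
  | insert x s hx ih =>
    rw [Finset.sum_insert hx, Finset.sum_insert hx]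
    exact (h x (Finset.mem_insert_self x s)).add (ih fun y hy => h y (Finset.mem_insert_of_mem hy))
theorem Gd.spec {F : Fn} (h : Gd F) : GoodC F (cf F) := Classical.epsilon_spec h

/-- The products lie in the span of the generators times the roots of unity of order `N`. -/
theorem GoodC.transl {F : Fn} {a : (Ix → ℚ) → ℂ} (h : GoodC F a) (k : ℤ) (B : Ix → ℚ) :
    GoodC (sl k (nE (toR ℂ B)) F) fun T => a T * eT T (toR ℂ B) := by
  obtain ⟨M, hM, h1⟩ := h.supp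
  obtain ⟨s, hs⟩ := h.fg
  obtain ⟨N, hN, h2⟩ := eT_root_unif hM B
  obtain ⟨u, hu⟩ := g1_span_mul s (Polynomial.nthRootsFinset N 1)
  refine ⟨⟨M, hM, fun T hT => h1 T (left_ne_zero_of_mul hT)⟩, ⟨u, fun T => ?_⟩, fun Z => ?_⟩
  · by_cases ha : a T = 0
    · rw [ha, zero_mul]
      exact zero_mem _
    · exact hu _ (hs T) _ (Submodule.subset_span (Finset.mem_coe.2
        ((Polynomial.mem_nthRootsFinset hN 1).2 (h2 T (h1 T ha).1))))
  · have h3 := h.sum ⟨Z + toR ℂ B, HH.add_toR Z.2 B⟩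
    rw [sl_nE, ofC_eq (HH.add_toR Z.2 B)]
    simpa only [eT_add_right, mul_assoc, mul_comm (eT _ (toR ℂ B))] using h3

open Classical in
/-- Average of translates: `N⁻¹ ∑ j < N, (eT T0 B)⁻¹ ^ j • F (Z + j B)`, where `N` kills all the
roots of unity `eT (T - T0) B` with `a T ≠ 0`. -/
theorem GoodC.filter {F : Fn} {a : (Ix → ℚ) → ℂ} (h : GoodC F a) (k : ℤ) (T0 B : Ix → ℚ) :
    ∃ (N : ℕ) (c : ℕ → ℂ),
      GoodC (∑ j ∈ Finset.range N, c j • sl k (nE (toR ℂ ((j : ℚ) • B))) F)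
        fun T => if ∃ n : ℤ, tr (T - T0) B = n then a T else 0 := by
  obtain ⟨M, hM, h1⟩ := h.supp
  obtain ⟨M', hM', h0⟩ := exists_den T0
  obtain ⟨N, hN, h2⟩ := eT_root_unif (mul_pos hM hM') B
  refine ⟨N, fun j => (N : ℂ)⁻¹ * (eT T0 (toR ℂ B))⁻¹ ^ j, ?_⟩
  have h3 := GoodC.finsum (Finset.range N) fun j _ =>
    (h.transl k ((j : ℚ) • B)).smul ((N : ℂ)⁻¹ * (eT T0 (toR ℂ B))⁻¹ ^ j)
  refine g1_congr h3 fun T => ?_
  simp only [Finset.sum_apply, Pi.smul_apply, smul_eq_mul, g1_pow]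
  by_cases ha : a T = 0
  · simp [ha]
  have h4 : eT (T - T0) (toR ℂ B) ^ N = 1 := h2 _ (by
    rw [smul_sub]
    refine Lam.sub ?_ ?_
    · rw [Nat.cast_mul, mul_comm, mul_smul]; exact Lam.nsmul (h1 T ha).1 M'
    · rw [Nat.cast_mul, mul_smul]; exact Lam.nsmul h0 M)
  have h5 : ∀ j : ℕ, (N : ℂ)⁻¹ * (eT T0 (toR ℂ B))⁻¹ ^ j * (a T * eT T (toR ℂ B) ^ j) =
      (N : ℂ)⁻¹ * a T * eT (T - T0) (toR ℂ B) ^ j := by
    intro j
    have h6 : eT (T - T0) (toR ℂ B) = (eT T0 (toR ℂ B))⁻¹ * eT T (toR ℂ B) := by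
      rw [eq_inv_mul_iff_mul_eq₀ (eT_ne _ _), ← eT_add, add_sub_cancel]
    rw [h6, mul_pow]
    ring
  simp only [h5, ← Finset.mul_sum, ← eT_eq_one]
  split_ifs with h7
  · have h8 : (N : ℂ) ≠ 0 := Nat.cast_ne_zero.2 hN.ne'
    simp only [h7, one_pow, Finset.sum_const, Finset.card_range, nsmul_eq_mul, mul_one]
    field_simp
  · rw [geom_sum_eq h7, h4, sub_self, zero_div, mul_zero]

/-- Filter with `B = N⁻¹ • UU i` for all `i`, then let `N` tend to infinity (dominated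
convergence for series, `sum_TT`). -/
theorem GoodC.eq_zero {a : (Ix → ℚ) → ℂ} (h : GoodC 0 a) : a = 0 := by
  classical
  funext T0
  have h1 : ∀ (B : Ix → Ix → ℚ) (s : Finset Ix), GoodC 0
      fun T => if ∀ i ∈ s, ∃ n : ℤ, tr (T - T0) (B i) = n then a T else 0 := by
    intro B s
    induction s using Finset.induction_on with
    | empty => simpa using h
    | insert i s hi ih =>
      obtain ⟨N, c, hc⟩ := ih.filter 0 T0 (B i)
      simp only [sl_zero, smul_zero, Finset.sum_const_zero] at hc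
      refine g1_congr hc fun T => ?_
      simp only [Finset.forall_mem_insert, ite_and]
  have h2 := tendsto_tsum_of_dominated_convergence (𝓕 := Filter.atTop)
    (f := fun (N : ℕ) T => (if ∀ i ∈ Finset.univ, ∃ n : ℤ, tr (T - T0) ((N : ℚ)⁻¹ • UU i) = n
      then a T else 0) * eT T bpt) (g := fun T => if T = T0 then a T0 * eT T0 bpt else 0)
    (h.sum bpt).summable.norm (fun T => ?_) (Filter.Eventually.of_forall fun N T => ?_)
  · rw [tsum_ite_eq] at h2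
    have h3 := tendsto_nhds_unique h2 (tendsto_const_nhds.congr fun N =>
      ((h1 (fun i => (N : ℚ)⁻¹ • UU i) Finset.univ).sum bpt).tsum_eq.symm)
    exact (mul_eq_zero.1 h3).resolve_right (eT_ne _ _)
  · by_cases hT : T = T0
    · refine tendsto_const_nhds.congr fun N => ?_
      rw [if_pos hT, if_pos fun i _ => ⟨0, by rw [hT, sub_self, tr_zero_left, Int.cast_zero]⟩, hT]
    · obtain ⟨i, hi⟩ : ∃ i, tr (T - T0) (UU i) ≠ 0 := by
        by_contra h4
        push Not at h4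
        have h5 := sum_TT (T - T0)
        simp only [toR_rat, h4, zero_smul, Finset.sum_const_zero] at h5
        exact hT (sub_eq_zero.1 h5.symm)
      obtain ⟨N0, hN0⟩ := exists_nat_gt |tr (T - T0) (UU i)|
      refine tendsto_const_nhds.congr' ((Filter.eventually_ge_atTop N0).mono fun N hN => ?_)
      have h6 : |tr (T - T0) (UU i)| < N := hN0.trans_le (Nat.cast_le.2 hN)
      have h7 : (0 : ℚ) < N := (abs_nonneg _).trans_lt h6
      beta_reduce
      rw [if_neg hT, if_neg, zero_mul]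
      intro h8
      obtain ⟨n, hn⟩ := h8 i (Finset.mem_univ i)
      rw [tr_smul_right, inv_mul_eq_iff_eq_mul₀ h7.ne'] at hn
      rw [hn, abs_mul, abs_of_pos h7, mul_lt_iff_lt_one_right h7] at h6
      have h9 : n = 0 := Int.abs_lt_one_iff.1 (by exact_mod_cast h6)
      exact hi (by rw [hn, h9, Int.cast_zero, mul_zero])
  · split_ifs
    · exact le_rfl
    · rw [zero_mul, norm_zero]
      exact norm_nonneg _

theorem GoodC.unique {F : Fn} {a b : (Ix → ℚ) → ℂ} (h : GoodC F a) (h' : GoodC F b) : a = b := by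
  have h1 := h.add (h'.smul (-1))
  rw [neg_one_smul, add_neg_cancel, neg_one_smul, ← sub_eq_add_neg] at h1
  exact sub_eq_zero.1 h1.eq_zero
theorem GoodC.cf_eq {F : Fn} {a : (Ix → ℚ) → ℂ} (h : GoodC F a) : cf F = a :=
  (Gd.spec ⟨a, h⟩).unique h
theorem g1_fix {F : Fn} {a : (Ix → ℚ) → ℂ} (h : GoodC F a) (k : ℤ) {B : Ix → ℚ}
    (hB : ∀ T, a T ≠ 0 → ∃ n : ℤ, tr T B = n) : sl k (nE (toR ℂ B)) F = F := by
  have e : (fun T => a T * eT T (toR ℂ B)) = a := funext fun T => by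
    by_cases ha : a T = 0
    · rw [ha, zero_mul]
    · rw [(eT_eq_one T B).2 (hB T ha), mul_one]
  have h1 := h.transl k B
  rw [e] at h1
  exact funext fun Z => (h1.sum Z).unique (h.sum Z)

theorem GoodC.periodic {F : Fn} {a : (Ix → ℚ) → ℂ} (h : GoodC F a) :
    ∃ M : ℕ, 0 < M ∧ ∀ (k : ℤ) (n : ℕ), ∀ B ∈ Lam,
      sl k (nE (toR ℂ (((M * n : ℕ) : ℚ) • B))) F = F := by
  obtain ⟨M, hM, h1⟩ := h.supp
  refine ⟨M, hM, fun k n B hB => g1_fix h k fun T hT => ?_⟩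
  obtain ⟨m, hm⟩ := Lam.tr_int (h1 T hT).1 (Lam.nsmul hB n)
  rw [tr_smul_left, tr_smul_right] at hm
  exact ⟨m, by rw [tr_smul_right, ← hm, Nat.cast_mul, mul_assoc]⟩

/-- By `GoodC.transl`, `GoodC.unique`, `eT_eq_one`, `self_dual`. -/
theorem GoodC.supp_Lam {F : Fn} {a : (Ix → ℚ) → ℂ} (h : GoodC F a) {k : ℤ}
    (hp : ∀ B ∈ Lam, sl k (nE (toR ℂ B)) F = F) {T : Ix → ℚ} (hT : a T ≠ 0) : T ∈ Lam := by
  refine self_dual fun B hB => (eT_eq_one T B).1 (mul_left_cancel₀ hT ?_)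
  have h1 := h.transl k B
  rw [hp B hB] at h1
  rw [mul_one]
  exact congrFun (h1.unique h) T
theorem GoodC.sl_nE {F : Fn} {a : (Ix → ℚ) → ℂ} (h : GoodC F a) (hs : ∀ T, a T ≠ 0 → T ∈ Lam)
    (k : ℤ) {B : Ix → ℚ} (hB : B ∈ Lam) : sl k (nE (toR ℂ B)) F = F :=
  g1_fix h k fun T hT => Lam.tr_int (hs T hT) hB

end Pool.Agent.E7
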