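import Pool.Agent.Lib.MP_7e5527_ag.E7.Good1

/-! The ring of good functions and its `p`-adic evaluations. -/

noncomputable section

namespace Pool.Agent.E7

theorem GoodC.conv_finite {F G : Fn} {a b : (Ix → ℚ) → ℂ} (h : GoodC F a) (h' : GoodC G b)
    (T : Ix → ℚ) : {S | a S ≠ 0 ∧ b (T - S) ≠ 0}.Finite := by
  obtain ⟨M, hM, h1⟩ := h.supp
  obtain ⟨M', -, h2⟩ := h'.supp
  exact (finite_antidiag hM T).subset fun S hS => ⟨(h1 S hS.1).1, (h1 S hS.1).2, (h2 _ hS.2).2⟩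

/-- Regrouping of a double series along the sum of the indices. -/
theorem hasSum_conv {K α : Type} [NormedField K] [AddCommGroup α] {f g : α → K} {s : K}
    (h : HasSum (fun x : α × α => f x.1 * g x.2) s)
    (hf : ∀ T, {S | f S ≠ 0 ∧ g (T - S) ≠ 0}.Finite) :
    HasSum (fun T => ∑ᶠ S, f S * g (T - S)) s := by
  let e : α × α ≃ α × α :=
    ⟨fun x => (x.2, x.1 - x.2), fun x => (x.1 + x.2, x.1), fun x => by simp, fun x => by simp⟩
  refine (e.hasSum_iff.2 h).prod_fiberwise fun T => ?_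
  have h1 : (Function.support fun S => f S * g (T - S)).Finite :=
    (hf T).subset fun S hS => mul_ne_zero_iff.1 hS
  exact tsum_eq_finsum (L := SummationFilter.unconditional α) h1 ▸
    (summable_of_hasFiniteSupport h1).hasSum
theorem good2a_ex {a b : (Ix → ℚ) → ℂ} {T : Ix → ℚ} (h : ∑ᶠ S, a S * b (T - S) ≠ 0) :
    ∃ S, a S ≠ 0 ∧ b (T - S) ≠ 0 := by
  by_contra h1
  exact h (finsum_eq_zero_of_forall_eq_zero fun S =>
    by_contra fun h2 => h1 ⟨S, mul_ne_zero_iff.1 h2⟩)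

theorem GoodC.mul {F G : Fn} {a b : (Ix → ℚ) → ℂ} (h : GoodC F a) (h' : GoodC G b) :
    GoodC (F * G) fun T => ∑ᶠ S, a S * b (T - S) := by
  classical
  obtain ⟨M, hM, h1⟩ := h.supp
  obtain ⟨M', hM', h2⟩ := h'.supp
  obtain ⟨s, hs⟩ := h.fg
  obtain ⟨s', hs'⟩ := h'.fg
  refine ⟨⟨M * M', Nat.mul_pos hM hM', fun T hT => ?_⟩, ⟨Finset.image₂ (· * ·) s s', fun T => ?_⟩,
    fun Z => ?_⟩
  · obtain ⟨S, ha, hb⟩ := good2a_ex hT
    have e : ((M * M' : ℕ) : ℚ) • T =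
        (M' : ℚ) • (M : ℚ) • S + (M : ℚ) • (M' : ℚ) • (T - S) := by
      push_cast
      module
    refine ⟨e ▸ Lam.add (Lam.nsmul (h1 S ha).1 M') (Lam.nsmul (h2 _ hb).1 M), ?_⟩
    simpa using (h1 S ha).2.add (h2 _ hb).2
  · refine finsum_induction (· ∈ Submodule.span ℤ _) (zero_mem _) (fun _ _ => add_mem) fun S => ?_
    have h3 := Submodule.mul_mem_mul (hs S) (hs' (T - S))
    rwa [Submodule.span_mul_span, ← Set.image2_mul, ← Finset.coe_image₂] at h3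
  · have h4 := summable_mul_of_summable_norm (h.sum Z).summable.norm (h'.sum Z).summable.norm
    have h3 := hasSum_conv (f := fun T => a T * eT T Z) (g := fun T => b T * eT T Z)
      (HasSum.mul (f := fun T => a T * eT T Z) (g := fun T => b T * eT T Z) (h.sum Z) (h'.sum Z) h4)
      fun T => (h.conv_finite h' T).subset
        fun S hS => ⟨left_ne_zero_of_mul hS.1, left_ne_zero_of_mul hS.2⟩
    refine Eq.mpr (congrArg (HasSum · _) (funext fun T => ?_)) h3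
    rw [finsum_mul]
    refine finsum_congr fun S => ?_
    rw [mul_mul_mul_comm, ← eT_add, add_sub_cancel]

/-- Good functions. -/
def GQ : Subalgebra ℂ Fn where
  carrier := {F | Gd F}
  mul_mem' := fun ⟨_, ha⟩ ⟨_, hb⟩ => ⟨_, ha.mul hb⟩
  add_mem' := fun ⟨_, ha⟩ ⟨_, hb⟩ => ⟨_, ha.add hb⟩
  algebraMap_mem' := fun c => ⟨_, Algebra.algebraMap_eq_smul_one (A := Fn) c ▸ GoodC.one.smul c⟩

/-- Good functions with exponents in the lattice. -/
def GZ : Subalgebra ℂ Fn where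
  carrier := {F | Gd F ∧ ∀ T, cf F T ≠ 0 → T ∈ Lam}
  mul_mem' := by
    rintro F G ⟨hF, h1⟩ ⟨hG, h2⟩
    have h3 := hF.spec.mul hG.spec
    refine ⟨⟨_, h3⟩, fun T hT => ?_⟩
    rw [h3.cf_eq] at hT
    obtain ⟨S, ha, hb⟩ := good2a_ex hT
    simpa using Lam.add (h1 S ha) (h2 _ hb)
  add_mem' := by
    rintro F G ⟨hF, h1⟩ ⟨hG, h2⟩
    have h3 := hF.spec.add hG.spec
    refine ⟨⟨_, h3⟩, fun T hT => ?_⟩
    rw [h3.cf_eq, Pi.add_apply] at hT
    by_cases h4 : cf F T = 0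
    · exact h2 T fun h5 => hT (by rw [h4, h5, add_zero])
    · exact h1 T h4
  algebraMap_mem' := by
    intro c
    have h3 := GoodC.one.smul c
    rw [Algebra.algebraMap_eq_smul_one]
    refine ⟨⟨_, h3⟩, fun T hT => ?_⟩
    rw [h3.cf_eq, Pi.smul_apply] at hT
    by_cases h4 : T = 0
    · exact h4 ▸ Lam.zero
    · exact absurd (by rw [Pi.single_eq_of_ne h4, smul_zero]) hT

theorem mem_GQ {F : Fn} : F ∈ GQ ↔ Gd F := Iff.rfl
theorem mem_GZ {F : Fn} : F ∈ GZ ↔ Gd F ∧ ∀ T, cf F T ≠ 0 → T ∈ Lam := Iff.rfl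
theorem GZ_le : GZ ≤ GQ := fun _ h => h.1

/-- Action of a parabolic element on the expansion (`IsP.jf_eq`, `IsP.act_eq`, `tr_lin`,
`Psd.lin_adj`, `exists_den_lin`, `eT_root_unif`). -/
theorem GoodC.slP {F : Fn} {a : (Ix → ℚ) → ℂ} (h : GoodC F a) (k : ℤ) {g : Gb} {t : ℚ} {B : Ix → ℚ}
    {A : Matrix Ix Ix ℚ} {c : ℚ} (hg : IsP g t B A c) :
    GoodC (sl k g F) fun T => (t : ℂ) ^ (-k) *
      (a (lin (adjM A)⁻¹ T) * eT (lin (adjM A)⁻¹ T) (toR ℂ B)) := by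
  have hA := hg.2.1
  have hu : IsUnit (adjM A).det := det_adjM A ▸ hA.1
  obtain ⟨M, hM, h1⟩ := h.supp
  obtain ⟨M', hM', h2⟩ := exists_den_lin (adjM A)
  obtain ⟨s, hs⟩ := ((h.transl k B).smul ((t : ℂ) ^ (-k))).fg
  refine ⟨⟨M' * M, Nat.mul_pos hM' hM, fun T hT => ?_⟩, ⟨s, fun T => hs _⟩, fun Z => ?_⟩
  · obtain ⟨h3, h4⟩ := h1 _ (left_ne_zero_of_mul (right_ne_zero_of_mul hT))
    have h5 := h2 _ h3
    have h6 := (Psd.lin_adj hA _).2 h4
    rw [lin_smul, lin_lin_inv hu, smul_smul, ← Nat.cast_mul] at h5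
    rw [lin_lin_inv hu] at h6
    exact ⟨h5, h6⟩
  · let e : (Ix → ℚ) ≃ (Ix → ℚ) := ⟨lin (adjM A), lin (adjM A)⁻¹, lin_inv_lin hu, lin_lin_inv hu⟩
    have h3 : lin A Z.1 + toR ℂ B ∈ HH := HH.add_toR (HH.lin_mem Z.2 hA) B
    rw [sl, hg.jf_eq, hg.act_eq, ofC_eq h3, ← e.hasSum_iff]
    refine Eq.mpr (congrArg (HasSum · _) (funext fun S => ?_))
      ((h.sum ⟨_, h3⟩).mul_left ((t : ℂ) ^ (-k)))
    have h4 : eT (lin (adjM A) S) Z = eT S (lin A Z.1) := by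
      rw [eT, eT, tr_lin, lin_toR]
    simp only [Function.comp, e, Equiv.coe_fn_mk, lin_inv_lin hu, h4, eT_add_right]
    ring

variable {p : ℕ} [Fact p.Prime] (e : ℂ_[p] ≃+* ℂ) {q : (Ix → ℚ) → ℂ_[p]} {Y : Ix → ℚ}

theorem Chr.ne (hq : Chr p q Y) (T : Ix → ℚ) : q T ≠ 0 := by
  have hp : (0 : ℝ) < p := by exact_mod_cast (Fact.out : p.Prime).pos
  rw [← norm_pos_iff, hq.norm]
  exact Real.rpow_pos_of_pos hp _

theorem Chr.zero (hq : Chr p q Y) : q 0 = 1 := by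
  have h := hq.mul 0 0
  rw [add_zero] at h
  exact mul_left_cancel₀ (hq.ne 0) (by rw [← h, mul_one])

theorem good2_norm_eT (T B : Ix → ℚ) : ‖e.symm (eT T (toR ℂ B))‖ = 1 := by
  obtain ⟨N, hN, h⟩ := eT_root T B
  refine (pow_eq_one_iff_of_nonneg (norm_nonneg _) hN.ne').1 ?_
  rw [← norm_pow, ← map_pow, h, map_one, norm_one]

theorem Chr.qt (hq : Chr p q Y) {A : Matrix Ix Ix ℚ} {c : ℚ} (hA : IsSim A c) (B : Ix → ℚ) :
    Chr p (qt e q A B) (lin A Y) := by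
  refine ⟨?_, fun T T' => ?_, fun T => ?_⟩
  · rw [← lin_toR]
    exact (hA.2.2 _).2 hq.mem
  · simp only [E7.qt]
    rw [eT_add, map_mul, lin_add, hq.mul]
    ring
  · simp only [E7.qt]
    rw [norm_mul, good2_norm_eT, one_mul, hq.norm, tr_lin]

theorem good2_bdd (s : Finset ℂ) :
    ∃ C : ℝ, 0 < C ∧ ∀ x ∈ Submodule.span ℤ (s : Set ℂ), ‖e.symm x‖ ≤ C := by
  have h0 : 0 ≤ ∑ z ∈ s, ‖e.symm z‖ := Finset.sum_nonneg fun _ _ => norm_nonneg _
  refine ⟨∑ z ∈ s, ‖e.symm z‖ + 1, by linarith, fun x hx => ?_⟩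
  induction hx using Submodule.span_induction with
  | mem z hz =>
    have := Finset.single_le_sum (f := fun z => ‖e.symm z‖) (fun _ _ => norm_nonneg _) hz
    linarith
  | zero =>
    rw [map_zero, norm_zero]
    linarith
  | add x y _ _ hx hy =>
    rw [map_add]
    exact (IsUltrametricDist.norm_add_le_max _ _).trans (max_le hx hy)
  | smul n x _ hx =>
    rw [map_zsmul]
    exact (IsUltrametricDist.norm_zsmul_le _ _).trans hx

/-- The coefficients are bounded and `q T` tends to zero (`finite_psd`). -/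
theorem hasSum_evq (hq : Chr p q Y) {F : Fn} (hF : Gd F) :
    HasSum (fun T => e.symm (cf F T) * q T) (evq e q F) := by
  refine Summable.hasSum ?_
  obtain ⟨⟨M, hM, h1⟩, ⟨s, h2⟩, -⟩ := hF.spec
  obtain ⟨C, hC, h3⟩ := good2_bdd e s
  have hp : (1 : ℝ) < p := by exact_mod_cast (Fact.out : p.Prime).one_lt
  rw [NonarchimedeanAddGroup.summable_iff_tendsto_cofinite_zero, Metric.tendsto_nhds]
  intro ε hε
  obtain ⟨R, hR⟩ : ∃ R : ℝ, (p : ℝ) ^ (-R) = ε / C :=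
    ⟨-Real.logb p (ε / C), by
      rw [neg_neg, Real.rpow_logb (by linarith) hp.ne' (div_pos hε hC)]⟩
  refine (finite_psd hM hq.mem R).subset fun T hT => ?_
  simp only [Set.mem_compl_iff, Set.mem_ofPred_eq, dist_zero_right, not_lt] at hT
  have h4 : cf F T ≠ 0 := fun h => by
    rw [h, map_zero, zero_mul, norm_zero] at hT
    linarith
  refine ⟨(h1 T h4).1, (h1 T h4).2, ?_⟩
  rw [tr_toR]
  rw [norm_mul, hq.norm] at hT
  have h5 : ε ≤ C * (p : ℝ) ^ (-(tr T Y : ℚ) : ℝ) := hT.trans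
    (mul_le_mul_of_nonneg_right (h3 _ (h2 T)) (Real.rpow_nonneg (by linarith) _))
  have h6 : (p : ℝ) ^ (-R) ≤ (p : ℝ) ^ (-(tr T Y : ℚ) : ℝ) := by
    rw [hR, div_le_iff₀ hC, mul_comm]
    exact h5
  have h7 := (Real.rpow_le_rpow_left_iff hp).1 h6
  linarith

theorem evq_add (hq : Chr p q Y) {F G : Fn} (hF : Gd F) (hG : Gd G) :
    evq e q (F + G) = evq e q F + evq e q G := by
  rw [← ((hasSum_evq e hq hF).add (hasSum_evq e hq hG)).tsum_eq, evq,
    (hF.spec.add hG.spec).cf_eq]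
  simp only [Pi.add_apply, map_add, add_mul]

theorem evq_smul (hq : Chr p q Y) {F : Fn} (hF : Gd F) (c : ℂ) :
    evq e q (c • F) = e.symm c * evq e q F := by
  rw [← ((hasSum_evq e hq hF).mul_left (e.symm c)).tsum_eq, evq, (hF.spec.smul c).cf_eq]
  simp only [Pi.smul_apply, smul_eq_mul, map_mul, mul_assoc]

theorem evq_one (hq : Chr p q Y) : evq e q 1 = 1 := by
  rw [evq, GoodC.one.cf_eq, tsum_eq_single 0]
  · simp [hq.zero]
  · intro T hT
    simp [hT]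

theorem evq_zero : evq e q 0 = 0 := by
  rw [evq, GoodC.zero.cf_eq]
  simp

/-- `HasSum.mul_of_nonarchimedean` and `hasSum_conv`. -/
theorem evq_mul (hq : Chr p q Y) {F G : Fn} (hF : Gd F) (hG : Gd G) :
    evq e q (F * G) = evq e q F * evq e q G := by
  have : NonarchimedeanRing ℂ_[p] := ⟨NonarchimedeanAddGroup.is_nonarchimedean⟩
  have h1 := (hasSum_evq e hq hF).mul_of_nonarchimedean (hasSum_evq e hq hG)
  have h2 := fun T => hF.spec.conv_finite hG.spec T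
  have h3 := hasSum_conv (f := fun T => e.symm (cf F T) * q T)
    (g := fun T => e.symm (cf G T) * q T) h1 fun T => (h2 T).subset fun S hS =>
      ⟨fun h => hS.1 (by rw [h, map_zero, zero_mul]), fun h => hS.2 (by rw [h, map_zero, zero_mul])⟩
  rw [← h3.tsum_eq, evq, (hF.spec.mul hG.spec).cf_eq]
  refine tsum_congr fun T => ?_
  have h4 := (e.symm : ℂ ≃+ ℂ_[p]).map_finsum fun S => cf F S * cf G (T - S)
  rw [show e.symm (∑ᶠ S, cf F S * cf G (T - S)) = ∑ᶠ S, e.symm (cf F S * cf G (T - S)) from h4,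
    finsum_mul]
  refine finsum_congr fun S => ?_
  have h5 := hq.mul S (T - S)
  rw [add_sub_cancel] at h5
  rw [h5, map_mul]
  ring

theorem evq_pow (hq : Chr p q Y) {F : Fn} (hF : Gd F) (n : ℕ) :
    evq e q (F ^ n) = evq e q F ^ n := by
  induction n with
  | zero => rw [pow_zero, pow_zero, evq_one e hq]
  | succ n ih =>
    rw [pow_succ, pow_succ, evq_mul e hq (mem_GQ.1 (pow_mem (mem_GQ.2 hF) n)) hF, ih]

theorem evq_sum (hq : Chr p q Y) {α : Type} (s : Finset α) {F : α → Fn} (hF : ∀ a ∈ s, Gd (F a)) :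
    evq e q (∑ a ∈ s, F a) = ∑ a ∈ s, evq e q (F a) := by
  classical
  induction s using Finset.induction_on with
  | empty => rw [Finset.sum_empty, Finset.sum_empty, evq_zero]
  | insert a s ha ih =>
    have h1 : ∀ b ∈ s, Gd (F b) := fun b hb => hF b (Finset.mem_insert_of_mem hb)
    rw [Finset.sum_insert ha, Finset.sum_insert ha, evq_add e hq (hF a (Finset.mem_insert_self a s))
      (mem_GQ.1 (sum_mem fun b hb => mem_GQ.2 (h1 b hb))), ih h1]

theorem evq_slP {F : Fn} (hF : Gd F) (k : ℤ) {g : Gb} {t : ℚ} {B : Ix → ℚ}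
    {A : Matrix Ix Ix ℚ} {c : ℚ} (hg : IsP g t B A c) :
    evq e q (sl k g F) = (t : ℂ_[p]) ^ (-k) * evq e (qt e q A B) F := by
  have hA : IsUnit (adjM A).det := by
    rw [det_adjM]
    exact hg.2.1.1
  let φ : (Ix → ℚ) ≃ (Ix → ℚ) :=
    ⟨lin (adjM A), lin (adjM A)⁻¹, lin_inv_lin hA, lin_lin_inv hA⟩
  rw [evq, evq, (hF.spec.slP k hg).cf_eq, ← tsum_mul_left, ← φ.tsum_eq]
  refine tsum_congr fun T => ?_
  have h1 : lin (adjM A)⁻¹ (φ T) = T := lin_inv_lin hA T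
  have h2 : φ T = lin (adjM A) T := rfl
  beta_reduce
  rw [h1, h2, map_mul, map_mul, map_zpow₀, map_ratCast, qt]
  ring

end Pool.Agent.E7
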