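import Pool.Agent.Lib.MP_7e5527_ag.E7.WrA

/-! Brackets along a curve: the operators `Dk` become ordinary differential operators. -/

set_option linter.unusedSectionVars false

noncomputable section

namespace Pool.Agent.E7.Wr

variable {ι : Type} [Fintype ι] [DecidableEq ι] {A L : Type} [CommRing A] [CommRing L]

theorem det_two_rows {n : Type} [Fintype n] [DecidableEq n] (X : Matrix n n L) (r1 r2 c0 : n)
    (h : r1 ≠ r2) (h1 : ∀ c, c ≠ c0 → X r1 c = 0) (h2 : ∀ c, c ≠ c0 → X r2 c = 0) : X.det = 0 := by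
  rw [Matrix.det_apply]
  refine Finset.sum_eq_zero fun σ _ => ?_
  have : ∏ i, X (σ i) i = 0 := by
    by_cases hc : σ⁻¹ r1 = c0
    · have h3 : σ⁻¹ r2 ≠ c0 := fun h3 => h (σ⁻¹.injective (hc.trans h3.symm))
      exact Finset.prod_eq_zero (Finset.mem_univ (σ⁻¹ r2)) (by simpa using h2 _ h3)
    · exact Finset.prod_eq_zero (Finset.mem_univ (σ⁻¹ r1)) (by simpa using h1 _ hc)
  rw [this, smul_zero]

variable {R : Type} [CommRing R] [Algebra R L]

theorem curve (dl : ι → A → A) (k : Option ι → ℤ) (F : Option ι → A) (i1 : ι)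
    (D : Derivation R L L) (ε : A →+* L) (η : ι → L)
    (hch : ∀ x, D (ε x) = ∑ i, ε (dl i x) * η i) (hΦ : ∀ j, j ≠ i1 → ε (F (some j)) = 0) (l : ι) :
    ∃ u v : L, ∀ (n : ℤ) (G : A),
      η l * ε (Dk dl k F i1 n G) = u * D (ε G) + (n : L) * v * ε G := by
  let c : Option ι → L := fun r => r.elim 0 η
  let M0 : Matrix (Option ι) (Option ι) L := ε.mapMatrix (brM dl k F)
  let M1 : Matrix (Option ι) (Option ι) L := M0.updateRow (some l) fun a => D (ε (F a))
  refine ⟨M1.cramer (Pi.single (some l) 1) (some i1), M1.cramer (Pi.single none 1) (some i1),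
    fun n G => ?_⟩
  let x : Option ι → L := fun r => ε (col dl n G r)
  have h1 : ε (Dk dl k F i1 n G) = (M0.updateCol (some i1) x).det := by
    rw [Dk_eq, RingHom.map_det]
    congr 1
    ext r a
    by_cases h : a = some i1
    · subst h; simp [x]
    · simp [Matrix.updateCol_ne h, M0]
  let x' : Option ι → L := Function.update x (some l) (D (ε G))
  have h2 : (M0.updateCol (some i1) x).updateRow (some l)
      (∑ r, c r • (M0.updateCol (some i1) x) r) = M1.updateCol (some i1) x' := by
    ext r a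
    by_cases hr : r = some l
    · subst hr
      rw [Matrix.updateRow_self, Finset.sum_apply, Fintype.sum_option]
      by_cases h : a = some i1
      · subst h
        simp [c, x', x, col, hch, mul_comm]
      · simp [c, M1, M0, Matrix.updateCol_ne h, brM, col, hch, mul_comm]
    · rw [Matrix.updateRow_ne hr]
      by_cases h : a = some i1
      · subst h; simp [x', Function.update_of_ne hr]
      · simp [Matrix.updateCol_ne h, M1, Matrix.updateRow_ne hr]
  have h3 := Matrix.det_updateRow_sum (M0.updateCol (some i1) x) (some l) c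
  rw [h2, ← h1] at h3
  let y : Option ι → L := x' - D (ε G) • (Pi.single (some l) 1 : Option ι → L) -
    ((n : L) * ε G) • (Pi.single none 1 : Option ι → L)
  have h4 : M1.cramer y (some i1) = 0 := by
    rw [Matrix.cramer_apply]
    refine det_two_rows _ none (some l) none (by simp) ?_ ?_
    · intro a ha
      by_cases h : a = some i1
      · subst h; simp [y, x', x, col]
      · obtain ⟨j, rfl⟩ := Option.ne_none_iff_exists'.1 ha
        have hj : j ≠ i1 := fun e => h (by rw [e])
        simp [Matrix.updateCol_ne h, M1, M0, brM, col, hΦ j hj]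
    · intro a ha
      by_cases h : a = some i1
      · subst h; simp [y, x']
      · obtain ⟨j, rfl⟩ := Option.ne_none_iff_exists'.1 ha
        have hj : j ≠ i1 := fun e => h (by rw [e])
        simp [Matrix.updateCol_ne h, M1, hΦ j hj]
  simp only [y, map_sub, map_smul, Pi.sub_apply, Pi.smul_apply, smul_eq_mul] at h4
  rw [Matrix.cramer_apply M1 x', h3] at h4
  simp only [c, Option.elim, smul_eq_mul] at h4
  linear_combination h4

/-- A constant linear relation among the `b` kills the Wronskian. -/
theorem psi_zero_of_rel [IsDomain L] (dl : ι → A → A) (k : Option ι → ℤ) (F : Option ι → A)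
    (i1 : ι) (D : Derivation R L L) (ε : A →+* L) (η : ι → L)
    (hch : ∀ x, D (ε x) = ∑ i, ε (dl i x) * η i) (hΦ : ∀ j, j ≠ i1 → ε (F (some j)) = 0)
    (hη : ∃ l, η l ≠ 0) (w n : ℤ) {N : ℕ} (b : Fin N → A) (c : Fin N → L) (hc : c ≠ 0)
    (hD : ∀ a, D (c a) = 0) (hrel : ∑ a, c a * ε (b a) = 0) :
    ε (Psi dl k F i1 w n b) = 0 := by
  obtain ⟨l, hl⟩ := hη
  obtain ⟨u, v, h⟩ := curve dl k F i1 D ε η hch hΦ l
  have key : ∀ m, ∑ a, c a * ε (Dit dl k F i1 w n (b a) m) = 0 := by
    intro m
    induction m with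
    | zero => exact hrel
    | succ m ih =>
      apply mul_left_cancel₀ hl
      have h1 := congrArg D ih
      rw [map_sum, map_zero] at h1
      simp only [Derivation.leibniz, hD, smul_eq_mul, mul_zero, add_zero] at h1
      rw [Finset.mul_sum, mul_zero]
      have : ∀ a, η l * (c a * ε (Dit dl k F i1 w n (b a) (m + 1))) =
          u * (c a * D (ε (Dit dl k F i1 w n (b a) m))) +
          (((n + m * w : ℤ) : L) * v) * (c a * ε (Dit dl k F i1 w n (b a) m)) := by
        intro a
        simp only [Dit]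
        linear_combination c a * h (n + m * w) (Dit dl k F i1 w n (b a) m)
      simp only [this, Finset.sum_add_distrib, ← Finset.mul_sum, h1, ih, mul_zero, add_zero]
  unfold Psi
  rw [RingHom.map_det, ← Matrix.exists_mulVec_eq_zero_iff]
  refine ⟨c, hc, funext fun m => ?_⟩
  simpa [Matrix.mulVec, dotProduct, mul_comm] using key m

/-- The criterion of Wronski in a differential domain. -/
theorem wronski [IsDomain L] (D : Derivation R L L) {N : ℕ} (r : ℕ → Fin N → L) (κ u : L)
    (v : ℕ → L) (hu : u ≠ 0) (hr : ∀ m a, κ * r (m + 1) a = u * D (r m a) + v m * r m a)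
    (hdet : (Matrix.of fun m a : Fin N => r m a).det = 0) :
    ∃ (c : Fin N → L) (a0 : Fin N), c a0 ≠ 0 ∧ ∑ a, c a * r 0 a = 0 ∧
      ∀ a, c a0 * D (c a) = D (c a0) * c a := by
  classical
  let Nn : ℕ → Set (Fin N → L) := fun m => {c | ∀ i < m, ∑ a, c a * r i a = 0}
  obtain ⟨m, hm, hst⟩ : ∃ m < N, ∀ c ∈ Nn m, c ∈ Nn (m + 1) := by
    by_contra hcon
    push Not at hcon
    choose c hc hc' using hcon
    let Cm : Matrix (Fin N) (Fin N) L := Matrix.of fun a m => c m m.2 a
    have htri : ((Matrix.of fun m a : Fin N => r m a) * Cm).BlockTriangular OrderDual.toDual := by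
      intro i m him
      have : (i : ℕ) < m := by simpa using him
      simpa [Matrix.mul_apply, Cm, mul_comm] using hc m m.2 i this
    have hd := Matrix.det_of_isLowerTriangular _ htri
    rw [Matrix.det_mul, hdet, zero_mul] at hd
    obtain ⟨m, -, hm⟩ := Finset.prod_eq_zero_iff.1 hd.symm
    refine hc' m m.2 fun i hi => ?_
    rcases Nat.lt_succ_iff_lt_or_eq.1 hi with h | h
    · exact hc m m.2 i h
    · subst h; simpa [Matrix.mul_apply, Cm, mul_comm] using hm
  obtain ⟨c1, hc1, hc1'⟩ := Matrix.exists_mulVec_eq_zero_iff.2 hdet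
  have hex : ∃ s : ℕ, ∃ c ∈ Nn m, c ≠ 0 ∧ (Finset.univ.filter fun a => c a ≠ 0).card = s :=
    ⟨_, c1, fun i hi => by
      simpa [Matrix.mulVec, dotProduct, mul_comm] using congrFun hc1' ⟨i, hi.trans hm⟩, hc1, rfl⟩
  obtain ⟨c, hc, hc0, hcs⟩ := Nat.find_spec hex
  obtain ⟨a0, ha0⟩ := Function.ne_iff.1 hc0
  have ha0 : c a0 ≠ 0 := ha0
  have hDc : (fun a => D (c a)) ∈ Nn m := by
    intro i hi
    have h1 := congrArg D (hc i hi)
    rw [map_sum, map_zero] at h1
    simp only [Derivation.leibniz, smul_eq_mul, Finset.sum_add_distrib] at h1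
    have h2 : u * ∑ a, c a * D (r i a) = 0 := by
      have : ∀ a, u * (c a * D (r i a)) = κ * (c a * r (i + 1) a) - v i * (c a * r i a) :=
        fun a => by linear_combination (-c a) * hr i a
      rw [Finset.mul_sum]
      simp only [this, Finset.sum_sub_distrib, ← Finset.mul_sum]
      rw [hst c hc (i + 1) (by omega), hc i hi, mul_zero, mul_zero, sub_zero]
    rw [(mul_eq_zero.1 h2).resolve_left hu, zero_add] at h1
    simpa [mul_comm] using h1
  refine ⟨c, a0, ha0, hst c hc 0 (by omega), ?_⟩
  by_contra hne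
  let c' : Fin N → L := fun a => c a0 * D (c a) - D (c a0) * c a
  have hc' : c' ∈ Nn m := by
    intro i hi
    have : ∀ a, c' a * r i a = c a0 * (D (c a) * r i a) - D (c a0) * (c a * r i a) :=
      fun a => by simp only [c']; ring
    simp only [this, Finset.sum_sub_distrib, ← Finset.mul_sum]
    rw [hDc i hi, hc i hi, mul_zero, mul_zero, sub_zero]
  have hc0' : c' ≠ 0 := fun h => hne fun a => sub_eq_zero.1 (congrFun h a)
  have hlt : (Finset.univ.filter fun a => c' a ≠ 0).card <
      (Finset.univ.filter fun a => c a ≠ 0).card := by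
    refine Finset.card_lt_card ⟨fun a ha => ?_, fun h => ?_⟩
    · simp only [Finset.mem_filter, Finset.mem_univ, true_and] at ha ⊢
      intro h0
      exact ha (by simp [c', h0])
    · have := h (Finset.mem_filter.2 ⟨Finset.mem_univ a0, ha0⟩)
      simp only [Finset.mem_filter, Finset.mem_univ, true_and] at this
      exact this (by simp only [c']; ring)
  exact Nat.find_min hex (hcs ▸ hlt) ⟨c', hc', hc0', rfl⟩

/-- If the Wronskian vanishes along the curve and `Dk` does not, the `b` satisfy a relation with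
projectively constant coefficients. -/
theorem rel_of_psi_zero [IsDomain L] (dl : ι → A → A) (k : Option ι → ℤ) (F : Option ι → A)
    (i1 : ι) (D : Derivation R L L) (ε : A →+* L) (η : ι → L)
    (hch : ∀ x, D (ε x) = ∑ i, ε (dl i x) * η i) (hΦ : ∀ j, j ≠ i1 → ε (F (some j)) = 0)
    (hη : ∃ l, η l ≠ 0) (h0 : (k none : L) * ε (F none) ≠ 0)
    (h1 : ∃ n G, ε (Dk dl k F i1 n G) ≠ 0) (w n : ℤ) {N : ℕ} (b : Fin N → A)
    (hz : ε (Psi dl k F i1 w n b) = 0) :
    ∃ (c : Fin N → L) (a0 : Fin N), c a0 ≠ 0 ∧ ∑ a, c a * ε (b a) = 0 ∧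
      ∀ a, c a0 * D (c a) = D (c a0) * c a := by
  obtain ⟨l, hl⟩ := hη
  obtain ⟨u, v, h⟩ := curve dl k F i1 D ε η hch hΦ l
  have hu : u ≠ 0 := by
    rintro rfl
    have hz : Dk dl k F i1 (k none) (F none) = 0 := by
      rw [Dk_eq]
      refine Matrix.det_zero_of_column_eq (i := none) (j := some i1) (by simp) fun r => ?_
      simp [brM]
    have h2 := h (k none) (F none)
    rw [hz, map_zero, mul_zero, zero_mul, zero_add] at h2
    have hv : v = 0 := by
      have : v * ((k none : L) * ε (F none)) = 0 := by linear_combination -h2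
      exact (mul_eq_zero.1 this).resolve_right h0
    obtain ⟨n', G, hG⟩ := h1
    have h3 := h n' G
    rw [hv, zero_mul, mul_zero, zero_mul, add_zero] at h3
    exact mul_ne_zero hl hG h3
  refine wronski D (fun m a => ε (Dit dl k F i1 w n (b a) m)) (η l) u
    (fun m => ((n + m * w : ℤ) : L) * v) hu (fun m a => h _ _) ?_
  unfold Psi at hz
  rw [RingHom.map_det] at hz
  exact hz

end Pool.Agent.E7.Wr
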