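import Pool.Agent.Lib.MP_7e5527_ag.E7.Sl
import Pool.Agent.Lib.MP_7e5527_ag.E7.WrB

/-! The differential ring of holomorphic functions; the Wronskian and the Jacobian. -/

open scoped ContDiff

noncomputable section

namespace Pool.Agent.E7

theorem isHol_res {f : (Ix → ℂ) → ℂ} (h : ContDiffOn ℂ ∞ f HH) : IsHol (res f) :=
  h.congr fun _ hZ => ext_res f hZ
theorem PolyFn.contDiff {f : (Ix → ℂ) → ℂ} (h : PolyFn f) : ContDiff ℂ ∞ f := by
  obtain ⟨P, hP⟩ := h
  obtain rfl : f = fun Z => MvPolynomial.eval Z P := funext hP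
  clear hP
  induction P using MvPolynomial.induction_on with
  | C c => simpa using contDiff_const
  | add p q hp hq => simpa using hp.add hq
  | mul_X p i hp => simpa using hp.mul (contDiff_apply ℂ ℂ i)
theorem IsHol.differentiableAt {F : Fn} (h : IsHol F) {Z : Ix → ℂ} (hZ : Z ∈ HH) :
    DifferentiableAt ℂ (ext F) Z :=
  (ContDiffOn.contDiffAt h (isOpen_HH.mem_nhds hZ)).differentiableAt (by simp)

/-- Holomorphic functions. -/
def Hol : Subalgebra ℂ Fn where
  carrier := {F | IsHol F}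
  mul_mem' := fun hF hG => ContDiffOn.mul hF hG
  add_mem' := fun hF hG => ContDiffOn.add hF hG
  algebraMap_mem' := fun c => contDiffOn_const (c := c)

theorem mem_Hol {F : Fn} : F ∈ Hol ↔ IsHol F := Iff.rfl

/-- `ContDiffOn.fderiv_of_isOpen`. -/
theorem IsHol.dl {F : Fn} (h : IsHol F) (i : Ix) : IsHol (dl i F) :=
  isHol_res (f := fun Z => (2 * Real.pi * Complex.I)⁻¹ * fderiv ℂ (ext F) Z (toR ℂ (UU i)))
    (contDiffOn_const.mul
      ((ContDiffOn.fderiv_of_isOpen h isOpen_HH (by simp)).clm_apply contDiffOn_const))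
theorem dl_add {F G : Fn} (hF : IsHol F) (hG : IsHol G) (i : Ix) :
    dl i (F + G) = dl i F + dl i G := by
  funext Z
  have e : ext (F + G) = ext F + ext G := rfl
  rw [Pi.add_apply, dl, dl, dl, e, fderiv_add (hF.differentiableAt Z.2) (hG.differentiableAt Z.2),
    add_apply, mul_add]
theorem dl_mul {F G : Fn} (hF : IsHol F) (hG : IsHol G) (i : Ix) :
    dl i (F * G) = F * dl i G + G * dl i F := by
  funext Z
  have e : ext (F * G) = ext F * ext G := rfl
  have e1 : ∀ K : Fn, ext K Z = K Z := fun K => congrArg K (ofC_coe Z)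
  rw [Pi.add_apply, Pi.mul_apply, Pi.mul_apply, dl, dl, dl, e,
    fderiv_mul (hF.differentiableAt Z.2) (hG.differentiableAt Z.2), add_apply,
    smul_apply, smul_apply, e1, e1, smul_eq_mul,
    smul_eq_mul]
  ring
theorem dl_const (i : Ix) (c : ℂ) : dl i (algebraMap ℂ Fn c) = 0 := by
  funext Z
  have e : ext (algebraMap ℂ Fn c) = fun _ => c := rfl
  rw [dl, e, fderiv_const_apply, zero_apply, mul_zero, Pi.zero_apply]
theorem dl_zero (i : Ix) : dl i 0 = 0 := by
  simpa using dl_const i 0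
theorem dl_smul {F : Fn} (hF : IsHol F) (c : ℂ) (i : Ix) : dl i (c • F) = c • dl i F := by
  rw [Algebra.smul_def, dl_mul (Hol.algebraMap_mem c) hF, dl_const, mul_zero, add_zero,
    Algebra.smul_def]

/-- The derivations of the ring of holomorphic functions. -/
def dH (i : Ix) : Derivation ℤ Hol Hol :=
  Derivation.mk' (AddMonoidHom.toIntLinearMap
    { toFun := fun F => ⟨dl i F, IsHol.dl F.2 i⟩
      map_zero' := Subtype.ext (dl_zero i)
      map_add' := fun F G => Subtype.ext (dl_add F.2 G.2 i) })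
    fun F G => Subtype.ext (dl_mul F.2 G.2 i)

theorem dH_coe (i : Ix) (F : Hol) : (dH i F : Fn) = dl i F := rfl
theorem dH_const (i : Ix) (c : ℂ) : dH i (algebraMap ℂ Hol c) = 0 := Subtype.ext (dl_const i c)

/-- The full derivative in terms of the `dl i` (`pt_yc`). -/
theorem fderiv_ext (F : Fn) (Z : HH) (v : Ix → ℂ) :
    fderiv ℂ (ext F) Z v = 2 * Real.pi * Complex.I * ∑ i, dl i F Z * yc v i := by
  conv_lhs => rw [← pt_yc v, pt, map_sum]
  rw [Finset.mul_sum]
  refine Finset.sum_congr rfl fun i _ => ?_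
  rw [map_smul, smul_eq_mul, dl, ← mul_assoc, ← mul_assoc,
    mul_inv_cancel₀ Complex.two_pi_I_ne_zero, one_mul, mul_comm]

theorem hol_poly_yc (i : Ix) : PolyFn fun Z => yc Z i := by
  simp only [yc, tr_eq_sum]
  exact PolyFn.sum _ fun l _ => (PolyFn.const _).mul (PolyFn.coord l)

theorem isHol_yF (i : Ix) : IsHol (yF i) :=
  isHol_res (hol_poly_yc i).contDiff.contDiffOn
theorem dl_yF (i j : Ix) : dl i (yF j) =
    if i = j then algebraMap ℂ Fn (2 * Real.pi * Complex.I)⁻¹ else 0 := by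
  funext Z
  let L : (Ix → ℂ) →L[ℂ] ℂ := LinearMap.toContinuousLinearMap (LinearMap.proj j ∘ₗ latJ_ycL)
  have e : ext (yF j) =ᶠ[nhds (Z : Ix → ℂ)] L :=
    Filter.mem_of_superset (isOpen_HH.mem_nhds Z.2) fun W hW => ext_res (fun Y => yc Y j) hW
  have e1 : L (toR ℂ (UU i)) = if j = i then 1 else 0 := by
    show tr (toR ℂ (TT j)) (toR ℂ (UU i)) = _
    rw [tr_toR, tr_TT_UU]
    split_ifs <;> simp
  rw [dl, e.fderiv_eq, L.fderiv, e1]
  by_cases h : i = j
  · rw [if_pos h, if_pos h.symm, mul_one]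
    rfl
  · rw [if_neg h, if_neg (Ne.symm h), mul_zero]
    rfl
theorem aeval_apply {σ : Type} (F : σ → Fn) (P : MvPolynomial σ ℂ) (Z : HH) :
    MvPolynomial.aeval F P Z = MvPolynomial.eval (fun r => F r Z) P := by
  induction P using MvPolynomial.induction_on with
  | C c => simp
  | add p q hp hq => simp [hp, hq]
  | mul_X p i hp => simp [hp]
theorem pF_eq (P : MvPolynomial Ix ℚ) :
    pF P = MvPolynomial.aeval yF (MvPolynomial.map (algebraMap ℚ ℂ) P) := by
  funext Z
  rw [aeval_apply, MvPolynomial.eval_map, pF, MvPolynomial.aeval_def]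
  rfl
theorem isHol_aeval {σ : Type} {F : σ → Fn} (h : ∀ r, IsHol (F r)) (P : MvPolynomial σ ℂ) :
    IsHol (MvPolynomial.aeval F P) := by
  induction P using MvPolynomial.induction_on with
  | C c => rw [MvPolynomial.aeval_C]; exact Hol.algebraMap_mem c
  | add p q hp hq => rw [map_add]; exact Hol.add_mem hp hq
  | mul_X p i hp => rw [map_mul, MvPolynomial.aeval_X]; exact Hol.mul_mem hp (h i)
theorem isHol_pF (P : MvPolynomial Ix ℚ) : IsHol (pF P) :=
  pF_eq P ▸ isHol_aeval isHol_yF _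

/-- Substitute the linear forms `yc` (`poly_eq_zero`, `yc_pt`, `MvPolynomial.funext`). -/
theorem exists_poly_yc (P : MvPolynomial Ix ℂ) : ∃ P' : MvPolynomial Ix ℂ,
    (∀ Z, MvPolynomial.eval Z P' = MvPolynomial.eval (yc Z) P) ∧ (P' = 0 → P = 0) := by
  choose ℓ hℓ using hol_poly_yc
  have h : ∀ Z, MvPolynomial.eval Z (MvPolynomial.aeval ℓ P) = MvPolynomial.eval (yc Z) P := by
    intro Z
    induction P using MvPolynomial.induction_on with
    | C c => simp
    | add p q hp hq => simp only [map_add, hp, hq]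
    | mul_X p i hp => simp only [map_mul, hp, MvPolynomial.aeval_X, MvPolynomial.eval_X, hℓ]
  refine ⟨_, h, fun e => MvPolynomial.funext fun y => ?_⟩
  rw [← yc_pt y, ← h, e, map_zero, map_zero]
theorem aeval_yF_eq_zero {P : MvPolynomial Ix ℂ} (h : MvPolynomial.aeval yF P = 0) : P = 0 := by
  obtain ⟨P', h1, h2⟩ := exists_poly_yc P
  refine h2 (poly_eq_zero fun Z hZ => ?_)
  have h3 := congrFun h ⟨Z, hZ⟩
  rw [aeval_apply] at h3
  exact (h1 Z).trans h3

/-- `Wr.map_br`, `Wr.map_Dk` with the inclusion of `Hol`. -/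
theorem isHol_br (k : Option Ix → ℤ) {F : Option Ix → Fn} (h : ∀ a, IsHol (F a)) :
    IsHol (Wr.br dl k F) := by
  have e := Wr.map_br (dl := fun i => dH i) (dl' := dl) Hol.val.toRingHom (fun _ _ => rfl) k
    fun a => ⟨F a, h a⟩
  exact e ▸ (Wr.br (fun i => dH i) k fun a => (⟨F a, h a⟩ : Hol)).2
theorem isHol_Dk (k : Option Ix → ℤ) {F : Option Ix → Fn} (h : ∀ a, IsHol (F a)) (i1 : Ix) (n : ℤ)
    {G : Fn} (hG : IsHol G) : IsHol (Wr.Dk dl k F i1 n G) := by
  refine isHol_br _ fun a => ?_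
  rcases eq_or_ne a (some i1) with rfl | e
  · rwa [Function.update_self]
  · rw [Function.update_of_ne e]
    exact h a

/-- Forms of level `Gam2`. -/
abbrev M2 (k : ℤ) (F : Fn) : Prop := MF k F ∧ Inv Gam2 k F

/-- The weights of the equations of the curve. -/
def kk (m : Ix → ℕ) : Option Ix → ℤ := fun o => o.elim 4 fun j => 4 * (m j : ℤ)

/-- The form of weight four followed by a family. -/
def FF (Φ : Ix → Fn) : Option Ix → Fn := fun o => o.elim ThF Φ

/-- The Wronskian. -/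
def PsiF (k : Option Ix → ℤ) (F : Option Ix → Fn) (i1 : Ix) {d : ℕ} (P : PB d) : Fn :=
  Wr.Psi dl k F i1 (Wr.wStep k i1 18) (-(d : ℤ)) fun α => pF (P.b α)

/-- The weight of the Wronskian. -/
def wP (k : Option Ix → ℤ) (i1 : Ix) {d : ℕ} (P : PB d) : ℤ :=
  Wr.wPsi (Wr.wStep k i1 18) (-(d : ℤ)) P.D

/-- The Jacobian of the forms of weight four. -/
def JacF : Fn := Wr.br dl (fun _ => 4) (FF Thi)

theorem isHol_PsiF (k : Option Ix → ℤ) {F : Option Ix → Fn} (h : ∀ a, IsHol (F a)) (i1 : Ix) {d : ℕ}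
    (P : PB d) : IsHol (PsiF k F i1 P) := by
  have e : _ = PsiF k F i1 P :=
    Wr.map_Psi (dl := fun i => dH i) (dl' := dl) Hol.val.toRingHom (fun _ _ => rfl) k
      (fun a => ⟨F a, h a⟩) i1 (Wr.wStep k i1 18) (-(d : ℤ)) fun α => ⟨pF (P.b α), isHol_pF _⟩
  rw [← e]
  exact Subtype.property (p := fun x => x ∈ Hol) _

end Pool.Agent.E7
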