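import Pool.Agent.Lib.MP_7e5527_ag.E7.Good2
import Pool.Agent.Lib.MP_7e5527_ag.E7.Hol

/-! Good functions are holomorphic; termwise derivatives. -/

open scoped ContDiff

noncomputable section

namespace Pool.Agent.E7

/-- Local uniform bound: take `ε` with `Im Z0 - 3 ε one3` in the cone (`exists_sub_one3`); near `Z0`
we have `tr T (Im Z) ≥ tr T (Im Z0 - 3 ε one3) + ε tr T one3` for `Psd T` (`Psd.abs_le`), and
`t exp (-ε t)` is bounded. -/
theorem GoodC.local_bound {F : Fn} {a : (Ix → ℚ) → ℂ} (h : GoodC F a) {Z0 : Ix → ℂ} (h0 : Z0 ∈ HH) :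
    ∃ (r : ℝ) (u : (Ix → ℚ) → ℝ), 0 < r ∧ Metric.ball Z0 r ⊆ HH ∧ Summable u ∧
      ∀ T, ∀ Z ∈ Metric.ball Z0 r, ‖a T * eT T Z‖ * (1 + ∑ l, |(T l : ℝ)|) ≤ u T := by
  obtain ⟨M, -, h1⟩ := h.supp
  have hY : (1 / 2 : ℝ) • (fun l => (Z0 l).im) ∈ Om := Om.smul h0 (by norm_num)
  obtain ⟨δ, hδ, h2⟩ := exists_sub_one3 hY
  set Y : Ix → ℝ := (1 / 2 : ℝ) • fun l => (Z0 l).im with hYd
  have hc : Continuous fun Z : Ix → ℂ => (fun l => (Z l).im) - Y - δ • (one3 : Ix → ℝ) := by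
    fun_prop
  have hm : Z0 ∈ HH ∩ (fun Z : Ix → ℂ => (fun l => (Z l).im) - Y - δ • (one3 : Ix → ℝ)) ⁻¹' Om := by
    refine ⟨h0, ?_⟩
    have e : (fun l => (Z0 l).im) - Y = Y := by
      funext l
      simp only [hYd, Pi.sub_apply, Pi.smul_apply, smul_eq_mul]
      ring
    rw [Set.mem_preimage, e]
    exact h2
  obtain ⟨r, hr, h3⟩ := Metric.isOpen_iff.1 (isOpen_HH.inter (isOpen_Om.preimage hc)) Z0 hm
  have hZ1 : (Complex.I • fun l => (Y l : ℂ)) ∈ HH := smul_mem_HH hY (by simp)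
  have him : (fun l => ((Complex.I • fun l => (Y l : ℂ)) l).im) = Y := by
    funext l
    simp
  obtain ⟨C, hC, h4⟩ := psd_pow_le 1 (e := 2 * Real.pi * δ) (by positivity)
  refine ⟨r, fun T => 27 * C * ‖a T * eT T (Complex.I • fun l => (Y l : ℂ))‖, hr,
    fun Z hZ => (h3 hZ).1, (h.sum ⟨_, hZ1⟩).summable.norm.mul_left _, fun T Z hZ => ?_⟩
  by_cases ha : a T = 0
  · simp [ha]
  have hT := (h1 T ha).2
  have h5 := hT _ (h3 hZ).2
  rw [tr_sub_right, tr_sub_right, tr_smul_right δ, ← toR_one3, tr_toR] at h5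
  have h6 : ∀ l ∈ (Finset.univ : Finset Ix), |(T l : ℝ)| ≤ ((tr T one3 : ℚ) : ℝ) := fun l _ => by
    exact_mod_cast hT.abs_le l
  have h7 := Finset.sum_le_card_nsmul _ _ _ h6
  rw [show (Finset.univ : Finset Ix).card = 27 by simp, nsmul_eq_mul] at h7
  have h8 : (0 : ℝ) ≤ ((tr T one3 : ℚ) : ℝ) := (abs_nonneg _).trans (h6 (.inl 0) (Finset.mem_univ _))
  have h9 := h4 _ h8
  set t : ℝ := ((tr T one3 : ℚ) : ℝ)
  have h10 : 1 + ∑ l, |(T l : ℝ)| ≤ 27 * C * Real.exp (2 * Real.pi * δ * t) := by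
    push_cast at h7
    rw [pow_one] at h9
    linarith
  have h11 : Real.exp (-(2 * Real.pi * tr (toR ℝ T) fun l => (Z l).im)) *
      Real.exp (2 * Real.pi * δ * t) ≤ Real.exp (-(2 * Real.pi * tr (toR ℝ T) Y)) := by
    rw [← Real.exp_add, Real.exp_le_exp]
    have := mul_nonneg Real.pi_pos.le h5
    linarith
  beta_reduce
  rw [norm_mul, norm_mul, norm_eT, norm_eT, him]
  calc _ ≤ ‖a T‖ * Real.exp (-(2 * Real.pi * tr (toR ℝ T) fun l => (Z l).im)) *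
        (27 * C * Real.exp (2 * Real.pi * δ * t)) := mul_le_mul_of_nonneg_left h10 (by positivity)
    _ = 27 * C * (‖a T‖ * (Real.exp (-(2 * Real.pi * tr (toR ℝ T) fun l => (Z l).im)) *
        Real.exp (2 * Real.pi * δ * t))) := by ring
    _ ≤ _ := mul_le_mul_of_nonneg_left (mul_le_mul_of_nonneg_left h11 (norm_nonneg _))
        (by positivity)

/-- The exponent as a continuous linear form. -/
def good3_L (T : Ix → ℚ) : (Ix → ℂ) →L[ℂ] ℂ :=
  LinearMap.toContinuousLinearMap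
    { toFun := fun v => 2 * Real.pi * Complex.I * tr (toR ℂ T) v
      map_add' := fun v w => by rw [tr_add_right, mul_add]
      map_smul' := fun c v => by rw [tr_smul_right, RingHom.id_apply, smul_eq_mul, mul_left_comm] }

theorem good3_L_apply (T : Ix → ℚ) (v : Ix → ℂ) :
    good3_L T v = 2 * Real.pi * Complex.I * tr (toR ℂ T) v := rfl

theorem good3_L_norm (T : Ix → ℚ) : ‖good3_L T‖ ≤ 4 * Real.pi * (1 + ∑ l, |(T l : ℝ)|) := by
  refine ContinuousLinearMap.opNorm_le_bound _ (by positivity) fun v => ?_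
  have h1 : ‖tr (toR ℂ T) v‖ ≤ ∑ l, 2 * |(T l : ℝ)| * ‖v‖ := by
    rw [tr_eq_sum]
    refine norm_sum_le_of_le _ fun l _ => ?_
    have h2 : ‖((wt l : ℕ) : ℂ)‖ ≤ 2 := by rcases l with i | b <;> simp [wt]
    have h3 : ‖toR ℂ T l‖ = |(T l : ℝ)| := by
      rw [toR, ← Complex.ofReal_ratCast, Complex.norm_real, Real.norm_eq_abs]
    rw [norm_mul, norm_mul, h3]
    gcongr
    exact norm_le_pi_norm v l
  have h4 : ‖(2 * Real.pi * Complex.I : ℂ)‖ = 2 * Real.pi := by simp [abs_of_pos Real.pi_pos]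
  rw [good3_L_apply, norm_mul, h4]
  rw [← Finset.sum_mul, ← Finset.mul_sum] at h1
  have h5 := mul_le_mul_of_nonneg_left h1 (by positivity : 0 ≤ 2 * Real.pi)
  have h6 : 0 ≤ Real.pi * ‖v‖ := by positivity
  linarith

/-- `hasFDerivAt_tsum_of_isPreconnected` on the ball. -/
theorem GoodC.hasSum_fderiv {F : Fn} {a : (Ix → ℚ) → ℂ} (h : GoodC F a) {Z : Ix → ℂ} (hZ : Z ∈ HH) :
    DifferentiableAt ℂ (ext F) Z ∧ ∀ v : Ix → ℂ,
      HasSum (fun T => 2 * Real.pi * Complex.I * tr (toR ℂ T) v * (a T * eT T Z))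
        (fderiv ℂ (ext F) Z v) := by
  obtain ⟨r, u, hr, h1, hu, h2⟩ := h.local_bound hZ
  have h3 : ∀ T, ∀ x ∈ Metric.ball Z r,
      ‖(a T * eT T x) • good3_L T‖ ≤ 4 * Real.pi * u T := fun T x hx => by
    rw [norm_smul]
    calc _ ≤ ‖a T * eT T x‖ * (4 * Real.pi * (1 + ∑ l, |(T l : ℝ)|)) :=
          mul_le_mul_of_nonneg_left (good3_L_norm T) (norm_nonneg _)
      _ = 4 * Real.pi * (‖a T * eT T x‖ * (1 + ∑ l, |(T l : ℝ)|)) := by ring
      _ ≤ _ := mul_le_mul_of_nonneg_left (h2 T x hx) (by positivity)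
  have h4 := hasFDerivAt_tsum_of_isPreconnected (𝕜 := ℂ) (f := fun T x => a T * eT T x)
    (f' := fun T x => (a T * eT T x) • good3_L T) (hu.mul_left (4 * Real.pi)) Metric.isOpen_ball
    (convex_ball Z r).isPreconnected (fun T x _ => by
      have h5 := ((good3_L T).hasFDerivAt (x := x)).cexp.const_mul (a T)
      rw [smul_smul] at h5
      exact h5) h3 (Metric.mem_ball_self hr) (h.sum ⟨Z, hZ⟩).summable (Metric.mem_ball_self hr)
  have h6 : HasFDerivAt (ext F) (∑' T, (a T * eT T Z) • good3_L T) Z := by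
    refine h4.congr_of_eventuallyEq ?_
    filter_upwards [isOpen_HH.mem_nhds hZ] with x hx
    rw [ext, ofC_eq hx]
    exact (h.sum ⟨x, hx⟩).tsum_eq.symm
  refine ⟨h6.differentiableAt, fun v => ?_⟩
  have h7 : Summable fun T => (a T * eT T Z) • good3_L T :=
    Summable.of_norm_bounded (hu.mul_left (4 * Real.pi)) fun T => h3 T Z (Metric.mem_ball_self hr)
  have h8 := (ContinuousLinearMap.apply ℂ ℂ v).hasSum h7.hasSum
  rw [h6.fderiv]
  simpa only [ContinuousLinearMap.apply_apply, smul_apply, good3_L_apply,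
    smul_eq_mul, mul_comm (a _ * eT _ Z)] using h8

/-- For `M • T ∈ Lam` the number `M * tr T (UU i)` is an integer. -/
theorem GoodC.dl {F : Fn} {a : (Ix → ℚ) → ℂ} (h : GoodC F a) (i : Ix) :
    GoodC (dl i F) fun T => ((tr T (UU i) : ℚ) : ℂ) * a T := by
  obtain ⟨M, hM, h1⟩ := h.supp
  obtain ⟨s, hs⟩ := h.fg
  obtain ⟨u, hu⟩ := g1_span_mul {(M : ℂ)⁻¹} s
  refine ⟨⟨M, hM, fun T hT => h1 T (right_ne_zero_of_mul hT)⟩, ⟨u, fun T => ?_⟩, fun Z => ?_⟩
  · by_cases ha : a T = 0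
    · rw [ha, mul_zero]
      exact zero_mem _
    obtain ⟨n, hn⟩ := Lam.tr_int (h1 T ha).1 (UU_mem i)
    have hM0 : (M : ℚ) ≠ 0 := Nat.cast_ne_zero.2 hM.ne'
    rw [tr_smul_left, mul_comm, ← eq_mul_inv_iff_mul_eq₀ hM0] at hn
    refine hu _ ?_ _ (hs T)
    rw [hn, Finset.coe_singleton, Submodule.mem_span_singleton]
    exact ⟨n, by simp⟩
  · have h2 := ((h.hasSum_fderiv Z.2).2 (toR ℂ (UU i))).mul_left (2 * Real.pi * Complex.I)⁻¹
    simp only [tr_toR, mul_assoc (2 * Real.pi * Complex.I : ℂ),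
      inv_mul_cancel_left₀ Complex.two_pi_I_ne_zero] at h2
    simp only [mul_assoc ((tr _ (UU i) : ℚ) : ℂ)]
    exact h2

/-- Induction on the order of differentiability (`contDiffOn_infty`,
`contDiffOn_succ_iff_fderiv_of_isOpen`, `contDiffOn_clm_apply`, `fderiv_ext`). -/
theorem Gd.isHol {F : Fn} (h : Gd F) : IsHol F := by
  refine contDiffOn_infty.2 fun n => ?_
  have hd : ∀ {F : Fn}, Gd F → DifferentiableOn ℂ (ext F) HH := fun ⟨_, ha⟩ _ hZ =>
    (ha.hasSum_fderiv hZ).1.differentiableWithinAt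
  induction n generalizing F with
  | zero => exact contDiffOn_zero.2 (hd h).continuousOn
  | succ n ih =>
    rw [Nat.cast_succ, contDiffOn_succ_iff_fderiv_of_isOpen isOpen_HH]
    refine ⟨hd h, fun e => absurd e (by simp), contDiffOn_clm_apply.2 fun v => ?_⟩
    have h1 : ContDiffOn ℂ n (fun Z => 2 * Real.pi * Complex.I * ∑ i, ext (dl i F) Z * yc v i)
        HH := contDiffOn_const.mul (ContDiffOn.sum fun i _ =>
      (ih ⟨_, h.spec.dl i⟩).mul contDiffOn_const)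
    refine h1.congr fun Z hZ => ?_
    simp only [ext, ofC_eq hZ]
    exact fderiv_ext F ⟨Z, hZ⟩ v

theorem GQ_le_Hol : GQ ≤ Hol := fun _ h => Gd.isHol h
theorem GQ.dl_mem (i : Ix) {F : Fn} (h : F ∈ GQ) : dl i F ∈ GQ := by
  exact ⟨_, (Gd.spec h).dl i⟩
theorem GZ.dl_mem (i : Ix) {F : Fn} (h : F ∈ GZ) : dl i F ∈ GZ := by
  have h1 := h.1.spec.dl i
  refine ⟨⟨_, h1⟩, fun T hT => h.2 T ?_⟩
  rw [h1.cf_eq] at hT
  exact right_ne_zero_of_mul hT
theorem cf_dl (i : Ix) {F : Fn} (h : Gd F) (T : Ix → ℚ) :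
    cf (dl i F) T = ((tr T (UU i) : ℚ) : ℂ) * cf F T := by
  rw [(h.spec.dl i).cf_eq]

/-- `Wr.map_br` with the inclusion of the subalgebra. -/
theorem br_mem (𝒮 : Subalgebra ℂ Fn) (hd : ∀ i, ∀ F ∈ 𝒮, dl i F ∈ 𝒮) (k : Option Ix → ℤ)
    {F : Option Ix → Fn} (h : ∀ a, F a ∈ 𝒮) : Wr.br dl k F ∈ 𝒮 := by
  have h1 := Wr.map_br (dl := fun i (G : 𝒮) => (⟨dl i G, hd i G G.2⟩ : 𝒮)) (dl' := dl)
    𝒮.val.toRingHom (fun _ _ => rfl) k fun a => ⟨F a, h a⟩
  exact h1 ▸ Subtype.property _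

end Pool.Agent.E7
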