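import Pool.Agent.Lib.MP_7e5527_ag.E7.Sl

/-! The Jacobian determinant of the action. -/

open Filter Topology

noncomputable section

namespace Pool.Agent.E7

theorem jac_tri {ι R : Type} [Fintype ι] [DecidableEq ι] [CommRing R] (b : ι → ℕ)
    (M : Matrix ι ι R) (h : ∀ l l', l ≠ l' → b l ≤ b l' → M l l' = 0) : M.det = ∏ l, M l l := by
  rw [Matrix.det_apply, Finset.sum_eq_single 1]
  · simp
  · intro σ _ hσ
    obtain ⟨i, h1, h2⟩ : ∃ i, σ i ≠ i ∧ b (σ i) ≤ b i := by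
      by_contra hc
      push Not at hc
      obtain ⟨i, hi⟩ : ∃ i, σ i ≠ i := by
        by_contra h3
        push Not at h3
        exact hσ (Equiv.ext h3)
      have h4 : ∑ j, b j < ∑ j, b (σ j) := Finset.sum_lt_sum (fun j _ => by
        by_cases h5 : σ j = j
        · rw [h5]
        · exact (hc j h5).le) ⟨i, Finset.mem_univ i, hc i hi⟩
      exact h4.ne (Equiv.sum_comp σ b).symm
    rw [Finset.prod_eq_zero (f := fun i => M (σ i) i) (Finset.mem_univ i) (h _ _ h1 h2), smul_zero]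
  · simp

/-- The blocks of the coordinates. -/
def jacB : Ix → ℕ :=
  Sum.elim (fun i => if i = 0 then 0 else 2) fun a => if a.1 = 0 then 2 else 1

theorem jac_i0 {Z : Ix → ℂ} (h : dg Z 0 ≠ 0) (l : Ix) : i0 Z l =
    if jacB l = 0 then -(dg Z 0)⁻¹ else if jacB l = 1 then (dg Z 0)⁻¹ * Z l else
      Z l - (dg Z 0)⁻¹ * mkJ ![0, onorm (oc Z 2), onorm (oc Z 1)]
        ![oconj (omul (oc Z 1) (oc Z 2)), 0, 0] l := by
  rcases l with i | ⟨i, k⟩ <;> fin_cases i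
  · rfl
  · change (dg Z 0)⁻¹ * dg (sharp Z) 2 = dg Z 1 - (dg Z 0)⁻¹ * onorm (oc Z 2)
    rw [dg_sharp_2]
    field_simp
  · change (dg Z 0)⁻¹ * dg (sharp Z) 1 = dg Z 2 - (dg Z 0)⁻¹ * onorm (oc Z 1)
    rw [dg_sharp_1]
    field_simp
  · change -((dg Z 0)⁻¹ * oc (sharp Z) 0 k) =
      oc Z 0 k - (dg Z 0)⁻¹ * oconj (omul (oc Z 1) (oc Z 2)) k
    rw [oc_sharp_0]
    simp only [Pi.sub_apply, Pi.smul_apply, smul_eq_mul]
    field_simp
    ring
  · rfl
  · rfl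

theorem jac_line {f : (Ix → ℂ) → Ix → ℂ} {Z v : Ix → ℂ} (hf : DifferentiableAt ℂ f Z) (l : Ix)
    {c : ℂ} (h : HasDerivAt (fun t : ℂ => f (Z + t • v) l) c 0) : fderiv ℂ f Z v l = c := by
  have h1 : HasDerivAt (fun t : ℂ => Z + t • v) v 0 := by
    simpa using ((hasDerivAt_id (0 : ℂ)).smul_const v).const_add Z
  have h2 := hf.hasFDerivAt.comp_hasDerivAt_of_eq (0 : ℂ) h1 (by simp)
  exact (hasDerivAt_pi.1 h2 l).unique h

theorem jac_diff {Z : Ix → ℂ} (h0 : dg Z 0 ≠ 0) : DifferentiableAt ℂ i0 Z := by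
  have he : i0 =ᶠ[𝓝 Z] act w0E :=
    ((continuous_apply (.inl 0 : Ix)).continuousAt.eventually_ne h0).mono fun W hW =>
      (act_of_eq hW (w0E_rr hW)).2.symm
  refine DifferentiableAt.congr_of_eventuallyEq (differentiableAt_pi.2 fun l => ?_) he
  exact (((polyFn_jf w0E).differentiable Z).inv h0).mul ((actx_polyFn w0E l).differentiable Z)

theorem det_fderiv_i0 {Z : Ix → ℂ} (h : dg Z 0 ≠ 0) :
    LinearMap.det (fderiv ℂ i0 Z : (Ix → ℂ) →ₗ[ℂ] Ix → ℂ) = dg Z 0 ^ (-18 : ℤ) := by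
  have h0 := h
  have hd := jac_diff h
  have e0 : ∀ (l l' : Ix) (t : ℂ), l ≠ l' → (Z + t • (Pi.single l' 1 : Ix → ℂ)) l = Z l :=
    fun l l' t h => by simp [h]
  have e1 : ∀ (l' : Ix) (t : ℂ), jacB l' ≠ 0 → dg (Z + t • (Pi.single l' 1 : Ix → ℂ)) 0 = dg Z 0 :=
    fun l' t h => e0 _ _ t fun e => h (e ▸ rfl)
  have e2 : ∀ (l' : Ix) (t : ℂ) (i : Fin 3), jacB l' ≠ 1 → i ≠ 0 →
      oc (Z + t • (Pi.single l' 1 : Ix → ℂ)) i = oc Z i :=
    fun l' t i h hi => funext fun k => e0 _ _ t fun e => h (e ▸ if_neg hi)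
  have b0 : ∀ l, jacB l = 0 → l = .inl 0 := by decide
  have b2 : ∀ l, jacB l ≤ 2 := by decide
  rw [← LinearMap.det_toMatrix', jac_tri jacB]
  · have h1 : ∀ l, LinearMap.toMatrix' (fderiv ℂ i0 Z : (Ix → ℂ) →ₗ[ℂ] Ix → ℂ) l l =
        if jacB l = 0 then (dg Z 0)⁻¹ ^ 2 else if jacB l = 1 then (dg Z 0)⁻¹ else 1 := by
      intro l
      rw [LinearMap.toMatrix'_apply]
      refine jac_line hd l ?_
      split_ifs with c0 c1
      · obtain rfl := b0 l c0
        have h2 := (((hasDerivAt_id (0 : ℂ)).const_add (dg Z 0)).inv (by simpa using h0)).neg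
        have e : (fun t : ℂ => i0 (Z + t • (Pi.single (.inl 0) 1 : Ix → ℂ)) (.inl 0)) =
            fun t => -(dg Z 0 + t)⁻¹ := funext fun t => by simp [i0, mkJ, dg]
        rw [e]
        exact h2.congr_deriv (by simp [neg_div])
      · have e : (fun t : ℂ => i0 (Z + t • (Pi.single l 1 : Ix → ℂ)) l) =
            fun t => (dg Z 0)⁻¹ * (Z l + t) := funext fun t => by
          rw [jac_i0 (by rwa [e1 l t c0]), if_neg c0, if_pos c1, e1 l t c0]
          simp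
        rw [e]
        simpa using ((hasDerivAt_id (0 : ℂ)).const_add (Z l)).const_mul (dg Z 0)⁻¹
      · have e : (fun t : ℂ => i0 (Z + t • (Pi.single l 1 : Ix → ℂ)) l) =
            fun t => t + i0 Z l := funext fun t => by
          rw [jac_i0 (by rwa [e1 l t c0]), jac_i0 h0, if_neg c0, if_neg c1, if_neg c0, if_neg c1,
            e1 l t c0, e2 l t 1 c1 (by decide), e2 l t 2 c1 (by decide)]
          simp only [Pi.add_apply, Pi.smul_apply, Pi.single_eq_same, smul_eq_mul]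
          ring
        rw [e]
        exact (hasDerivAt_id (0 : ℂ)).add_const _
    simp only [h1, Fintype.prod_sum_type, Fintype.prod_prod_type, Fin.prod_univ_three, jacB]
    simp
    field_simp
  · intro l l' h1 h2
    rw [LinearMap.toMatrix'_apply]
    refine jac_line hd l ?_
    have c0 : jacB l' ≠ 0 := fun c0 => h1 ((b0 l (by omega)).trans (b0 l' c0).symm)
    have e : (fun t : ℂ => i0 (Z + t • (Pi.single l' 1 : Ix → ℂ)) l) = fun _ => i0 Z l := by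
      funext t
      rw [jac_i0 (by rwa [e1 l' t c0]), jac_i0 h0, e1 l' t c0, e0 l l' t h1]
      split_ifs with d0 d1
      · rfl
      · rfl
      · have c1 : jacB l' ≠ 1 := by omega
        rw [e2 l' t 1 c1 (by decide), e2 l' t 2 c1 (by decide)]
    rw [e]
    exact hasDerivAt_const _ _

theorem jac_w0 {Z : Ix → ℂ} (hZ : Z ∈ HH) :
    LinearMap.det (fderiv ℂ (act w0E) Z : (Ix → ℂ) →ₗ[ℂ] Ix → ℂ) = dg Z 0 ^ (-18 : ℤ) := by
  have he : act w0E =ᶠ[𝓝 Z] i0 := (isOpen_HH.eventually_mem hZ).mono fun W hW => act_w0E hW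
  rw [he.fderiv_eq, det_fderiv_i0 (HH.dg_ne hZ 0)]

theorem fderiv_act_mul {g g' : Gb} (hg : g ∈ GG) (hg' : g' ∈ GG) {Z : Ix → ℂ} (hZ : Z ∈ HH) :
    fderiv ℂ (act (g * g')) Z = (fderiv ℂ (act g) (act g' Z)).comp (fderiv ℂ (act g') Z) := by
  have he : act (g * g') =ᶠ[𝓝 Z] act g ∘ act g' :=
    (isOpen_HH.eventually_mem hZ).mono fun W hW => act_mul hg hg' hW
  rw [he.fderiv_eq, fderiv_comp Z (differentiableAt_act hg (act_spec hg' hZ).2.1)
    (differentiableAt_act hg' hZ)]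

/-- The Jacobian determinant is `± j ^ (-18)`. -/
theorem jac_det {γ : Gb} (hγ : γ ∈ Gam) : ∃ s : ℤ, s ^ 2 = 1 ∧ ∀ Z ∈ HH,
    LinearMap.det (fderiv ℂ (act γ) Z : (Ix → ℂ) →ₗ[ℂ] Ix → ℂ) = s * jf γ Z ^ (-18 : ℤ) := by
  refine Gam_ind (p := fun γ => ∃ s : ℤ, s ^ 2 = 1 ∧ ∀ Z ∈ HH,
    LinearMap.det (fderiv ℂ (act γ) Z : (Ix → ℂ) →ₗ[ℂ] Ix → ℂ) = s * jf γ Z ^ (-18 : ℤ))
    (fun B _ => ⟨1, rfl, fun Z _ => ?_⟩) (fun A g hA hg => ?_)
    ⟨1, rfl, fun Z hZ => by rw [jac_w0 hZ, jf_w0E, Int.cast_one, one_mul]⟩ ?_ γ hγ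
  · rw [show act (nE (toR ℂ B)) = fun Z => Z + toR ℂ B from funext (act_nE _), fderiv_add_const,
      fderiv_id', jf_nE]
    simp
  · obtain ⟨n, hn⟩ := latJ_det_int hA
    refine ⟨n, by exact_mod_cast hn ▸ hA.det_sq, fun Z _ => ?_⟩
    have e : act g = (Matrix.toLin' (A.map (Rat.castHom ℂ))).toContinuousLinearMap :=
      funext fun W => hg.act_eq W
    rw [e, ContinuousLinearMap.fderiv, hg.jf_eq, one_zpow, mul_one,
      LinearMap.coe_toContinuousLinearMap, LinearMap.det_toLin', ← RingHom.mapMatrix_apply,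
      ← RingHom.map_det, hn]
    simp
  · rintro g hg g' hg' ⟨s, h1, h2⟩ ⟨s', h3, h4⟩
    refine ⟨s * s', by rw [mul_pow, h1, h3, mul_one], fun Z hZ => ?_⟩
    rw [fderiv_act_mul (Gam_le hg) (Gam_le hg') hZ, ContinuousLinearMap.toLinearMap_comp,
      LinearMap.det_comp, h2 _ (act_spec (Gam_le hg') hZ).2.1, h4 _ hZ, jf_mul g (Gam_le hg') hZ,
      mul_zpow]
    push_cast
    ring

/-- The matrix in the basis `UU`. -/
theorem det_yc (f : (Ix → ℂ) →ₗ[ℂ] Ix → ℂ) :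
    (Matrix.of fun l i => yc (f (toR ℂ (UU i))) l).det = LinearMap.det f := by
  rw [← LinearMap.det_conj _ (LinearEquiv.ofLinear latJ_ycL latJ_ptL (LinearMap.ext yc_pt)
    (LinearMap.ext pt_yc)), ← LinearMap.det_toMatrix']
  congr 1
  ext l i
  rw [LinearMap.toMatrix'_apply]
  change yc (f (toR ℂ (UU i))) l = yc (f (pt (Pi.single i 1))) l
  rw [pt, Finset.sum_eq_single i] <;> simp +contextual

end Pool.Agent.E7
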