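import Pool.Agent.Lib.MP_7e5527_ag.E7.Oct

/-! Identities in the exceptional Jordan algebra. -/

noncomputable section

namespace Pool.Agent.E7

set_option linter.unusedSectionVars false

variable {R : Type} [CommRing R]

/-- The matrix with given diagonal and off diagonal entries. -/
def mkJ (z : Fin 3 → R) (x : Fin 3 → Fin 8 → R) : Ix → R := Sum.elim z fun a => x a.1 a.2

/-- The polar form of the adjoint. -/
def cross (X Y : Ix → R) : Ix → R := sharp (X + Y) - sharp X - sharp Y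

/-- The diagonal idempotents. -/
def ed (i : Fin 3) : Ix → R := mkJ (Pi.single i 1) 0

/-- The unit matrix. -/
def one3 : Ix → R := mkJ 1 0

/-- Weight of a coordinate in the trace form. -/
def wt : Ix → ℕ := Sum.elim (fun _ => 1) fun _ => 2

/-- Cyclic permutation of the indices. -/
def cyc (Z : Ix → R) : Ix → R := mkJ ![dg Z 2, dg Z 0, dg Z 1] ![oc Z 2, oc Z 0, oc Z 1]

/-- Exchange of the indices `1` and `2`. -/
def swp (Z : Ix → R) : Ix → R :=
  mkJ ![dg Z 0, dg Z 2, dg Z 1] ![oconj (oc Z 0), oconj (oc Z 2), oconj (oc Z 1)]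

/-- The elementary operation: add `u` times row `1` to row `2`. -/
def elm (u : Fin 8 → R) (Z : Ix → R) : Ix → R :=
  mkJ ![dg Z 0, dg Z 1, dg Z 2 + oip u (oconj (oc Z 0)) + onorm u * dg Z 1]
    ![oc Z 0 + dg Z 1 • oconj u, oc Z 1 + omul u (oconj (oc Z 2)), oc Z 2]

/-- Jacobi coordinates: the rank one matrix with first row `(1, u2, conj u1)`. -/
def v0 (u1 u2 : Fin 8 → R) : Ix → R :=
  mkJ ![1, onorm u2, onorm u1] ![oconj (omul u1 u2), u1, u2]

/-- Jacobi coordinates: the rank one matrix in the lower block. -/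
def v1 (u0 : Fin 8 → R) : Ix → R := mkJ ![0, 1, onorm u0] ![u0, 0, 0]

/-- Jacobi coordinates. -/
def jac (d0 d1 d2 : R) (u0 u1 u2 : Fin 8 → R) : Ix → R :=
  d0 • v0 u1 u2 + d1 • v1 u0 + d2 • ed 2

@[simp] theorem dg_mkJ (z : Fin 3 → R) (x : Fin 3 → Fin 8 → R) (i : Fin 3) :
    dg (mkJ z x) i = z i := rfl
@[simp] theorem oc_mkJ (z : Fin 3 → R) (x : Fin 3 → Fin 8 → R) (i : Fin 3) :
    oc (mkJ z x) i = x i := rfl
@[simp] theorem dg_add (X Y : Ix → R) (i : Fin 3) : dg (X + Y) i = dg X i + dg Y i := rfl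
@[simp] theorem oc_add (X Y : Ix → R) (i : Fin 3) : oc (X + Y) i = oc X i + oc Y i := rfl
@[simp] theorem dg_sub (X Y : Ix → R) (i : Fin 3) : dg (X - Y) i = dg X i - dg Y i := rfl
@[simp] theorem oc_sub (X Y : Ix → R) (i : Fin 3) : oc (X - Y) i = oc X i - oc Y i := rfl
@[simp] theorem dg_neg (X : Ix → R) (i : Fin 3) : dg (-X) i = -dg X i := rfl
@[simp] theorem oc_neg (X : Ix → R) (i : Fin 3) : oc (-X) i = -oc X i := rfl
@[simp] theorem dg_smul (c : R) (X : Ix → R) (i : Fin 3) : dg (c • X) i = c * dg X i := rfl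
@[simp] theorem oc_smul (c : R) (X : Ix → R) (i : Fin 3) : oc (c • X) i = c • oc X i := rfl
@[simp] theorem dg_zero (i : Fin 3) : dg (0 : Ix → R) i = 0 := rfl
@[simp] theorem oc_zero (i : Fin 3) : oc (0 : Ix → R) i = 0 := rfl

theorem jext {X Y : Ix → R} (h0 : dg X 0 = dg Y 0) (h1 : dg X 1 = dg Y 1) (h2 : dg X 2 = dg Y 2)
    (k0 : oc X 0 = oc Y 0) (k1 : oc X 1 = oc Y 1) (k2 : oc X 2 = oc Y 2) : X = Y := by
  funext l
  rcases l with i | ⟨i, k⟩
  · fin_cases i
    exacts [h0, h1, h2]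
  · fin_cases i
    exacts [congrFun k0 k, congrFun k1 k, congrFun k2 k]

theorem dg_sharp_0 (Z : Ix → R) : dg (sharp Z) 0 = dg Z 1 * dg Z 2 - onorm (oc Z 0) := rfl
theorem dg_sharp_1 (Z : Ix → R) : dg (sharp Z) 1 = dg Z 2 * dg Z 0 - onorm (oc Z 1) := rfl
theorem dg_sharp_2 (Z : Ix → R) : dg (sharp Z) 2 = dg Z 0 * dg Z 1 - onorm (oc Z 2) := rfl
theorem oc_sharp_0 (Z : Ix → R) :
    oc (sharp Z) 0 = oconj (omul (oc Z 1) (oc Z 2)) - dg Z 0 • oc Z 0 := rfl
theorem oc_sharp_1 (Z : Ix → R) :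
    oc (sharp Z) 1 = oconj (omul (oc Z 2) (oc Z 0)) - dg Z 1 • oc Z 1 := rfl
theorem oc_sharp_2 (Z : Ix → R) :
    oc (sharp Z) 2 = oconj (omul (oc Z 0) (oc Z 1)) - dg Z 2 • oc Z 2 := rfl

theorem nrm_eq (Z : Ix → R) : nrm Z = dg Z 0 * dg Z 1 * dg Z 2 - dg Z 0 * onorm (oc Z 0) -
    dg Z 1 * onorm (oc Z 1) - dg Z 2 * onorm (oc Z 2) +
    oip (omul (oc Z 0) (oc Z 1)) (oconj (oc Z 2)) := by
  simp only [nrm, Fin.sum_univ_three, two_mul_omul_0]; ring

theorem tr_eq (T Z : Ix → R) : tr T Z = dg T 0 * dg Z 0 + dg T 1 * dg Z 1 + dg T 2 * dg Z 2 +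
    oip (oc T 0) (oc Z 0) + oip (oc T 1) (oc Z 1) + oip (oc T 2) (oc Z 2) := by
  simp only [tr, Fin.sum_univ_three, oip]; ring

theorem tr_eq_sum (T Z : Ix → R) : tr T Z = ∑ l, (wt l : R) * T l * Z l := by
  simp only [tr, Fintype.sum_sum_type, Fintype.sum_prod_type, wt, dg, oc, Sum.elim_inl,
    Sum.elim_inr, Nat.cast_one, one_mul, Nat.cast_ofNat, Finset.mul_sum, mul_assoc]

theorem tr_comm (T Z : Ix → R) : tr T Z = tr Z T := by
  simp only [tr_eq_sum]; exact Finset.sum_congr rfl fun _ _ => by ring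

theorem tr_add_left (T T' Z : Ix → R) : tr (T + T') Z = tr T Z + tr T' Z := by
  simp only [tr_eq_sum, ← Finset.sum_add_distrib, Pi.add_apply]
  exact Finset.sum_congr rfl fun _ _ => by ring

theorem tr_smul_left (c : R) (T Z : Ix → R) : tr (c • T) Z = c * tr T Z := by
  simp only [tr_eq_sum, Finset.mul_sum, Pi.smul_apply, smul_eq_mul]
  exact Finset.sum_congr rfl fun _ _ => by ring

theorem tr_add_right (T Z Z' : Ix → R) : tr T (Z + Z') = tr T Z + tr T Z' := by
  rw [tr_comm, tr_add_left, tr_comm Z, tr_comm Z']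

theorem tr_smul_right (c : R) (T Z : Ix → R) : tr T (c • Z) = c * tr T Z := by
  rw [tr_comm, tr_smul_left, tr_comm Z]

theorem tr_neg_left (T Z : Ix → R) : tr (-T) Z = -tr T Z := by
  rw [← neg_one_smul R T, tr_smul_left]; ring

theorem tr_neg_right (T Z : Ix → R) : tr T (-Z) = -tr T Z := by
  rw [← neg_one_smul R Z, tr_smul_right]; ring

theorem tr_sub_left (T T' Z : Ix → R) : tr (T - T') Z = tr T Z - tr T' Z := by
  rw [sub_eq_add_neg, tr_add_left, tr_neg_left, sub_eq_add_neg]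

theorem tr_sub_right (T Z Z' : Ix → R) : tr T (Z - Z') = tr T Z - tr T Z' := by
  rw [sub_eq_add_neg, tr_add_right, tr_neg_right, sub_eq_add_neg]

theorem tr_zero_left (Z : Ix → R) : tr 0 Z = 0 := by simp [tr_eq_sum]

theorem tr_zero_right (T : Ix → R) : tr T 0 = 0 := by simp [tr_eq_sum]

theorem tr_sum_left {α : Type} (s : Finset α) (T : α → Ix → R) (Z : Ix → R) :
    tr (∑ a ∈ s, T a) Z = ∑ a ∈ s, tr (T a) Z := by
  classical
  induction s using Finset.induction_on with
  | empty => simp [tr_zero_left]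
  | insert a s ha ih => rw [Finset.sum_insert ha, Finset.sum_insert ha, tr_add_left, ih]

theorem tr_sum_right {α : Type} (s : Finset α) (T : Ix → R) (Z : α → Ix → R) :
    tr T (∑ a ∈ s, Z a) = ∑ a ∈ s, tr T (Z a) := by
  rw [tr_comm, tr_sum_left]; exact Finset.sum_congr rfl fun _ _ => tr_comm _ _

theorem tr_single (T : Ix → R) (l : Ix) : tr T (Pi.single l 1) = (wt l : R) * T l := by
  rw [tr_eq_sum, Finset.sum_eq_single l] <;> simp +contextual

theorem tr_ed (T : Ix → R) (i : Fin 3) : tr T (ed i) = dg T i := by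
  fin_cases i <;> simp [tr_eq, ed, oip_zero_right]

theorem eq_of_tr {F : Type} [Field F] [CharZero F] {X Y : Ix → F} (h : ∀ T, tr X T = tr Y T) :
    X = Y := by
  funext l
  have h1 := h (Pi.single l 1)
  rw [tr_single, tr_single] at h1
  refine mul_left_cancel₀ ?_ h1
  rcases l with i | a <;> simp [wt]

theorem sharp_smul (c : R) (X : Ix → R) : sharp (c • X) = c ^ 2 • sharp X := by
  apply jext <;> simp only [dg_sharp_0, dg_sharp_1, dg_sharp_2, oc_sharp_0, oc_sharp_1, oc_sharp_2,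
    dg_smul, oc_smul, onorm_smul, omul_smul_left, omul_smul_right, oconj_smul]
  all_goals first | ring1 | module

theorem sharp_neg (X : Ix → R) : sharp (-X) = sharp X := by
  rw [← neg_one_smul R X, sharp_smul]; simp

theorem sharp_zero : sharp (0 : Ix → R) = 0 := by
  rw [← zero_smul R (0 : Ix → R), sharp_smul]; simp

theorem nrm_smul (c : R) (X : Ix → R) : nrm (c • X) = c ^ 3 * nrm X := by
  simp only [nrm_eq, dg_smul, oc_smul, onorm_smul, omul_smul_left, omul_smul_right, oconj_smul,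
    oip_smul_left, oip_smul_right]
  ring

theorem nrm_neg (X : Ix → R) : nrm (-X) = -nrm X := by
  rw [← neg_one_smul R X, nrm_smul]; ring

theorem nrm_zero : nrm (0 : Ix → R) = 0 := by
  rw [← zero_smul R (0 : Ix → R), nrm_smul]; simp

theorem sharp_add (X Y : Ix → R) : sharp (X + Y) = sharp X + cross X Y + sharp Y := by
  simp only [cross]; abel

theorem dg_cross_0 (X Y : Ix → R) :
    dg (cross X Y) 0 = dg X 1 * dg Y 2 + dg X 2 * dg Y 1 - oip (oc X 0) (oc Y 0) := by
  simp only [cross, dg_sub, dg_sharp_0, dg_add, oc_add, onorm_add]; ring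

theorem dg_cross_1 (X Y : Ix → R) :
    dg (cross X Y) 1 = dg X 2 * dg Y 0 + dg X 0 * dg Y 2 - oip (oc X 1) (oc Y 1) := by
  simp only [cross, dg_sub, dg_sharp_1, dg_add, oc_add, onorm_add]; ring

theorem dg_cross_2 (X Y : Ix → R) :
    dg (cross X Y) 2 = dg X 0 * dg Y 1 + dg X 1 * dg Y 0 - oip (oc X 2) (oc Y 2) := by
  simp only [cross, dg_sub, dg_sharp_2, dg_add, oc_add, onorm_add]; ring

theorem oc_cross_0 (X Y : Ix → R) : oc (cross X Y) 0 = oconj (omul (oc X 1) (oc Y 2)) +
    oconj (omul (oc Y 1) (oc X 2)) - dg X 0 • oc Y 0 - dg Y 0 • oc X 0 := by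
  simp only [cross, oc_sub, oc_sharp_0, dg_add, oc_add, omul_add_left, omul_add_right, oconj_add]
  module

theorem oc_cross_1 (X Y : Ix → R) : oc (cross X Y) 1 = oconj (omul (oc X 2) (oc Y 0)) +
    oconj (omul (oc Y 2) (oc X 0)) - dg X 1 • oc Y 1 - dg Y 1 • oc X 1 := by
  simp only [cross, oc_sub, oc_sharp_1, dg_add, oc_add, omul_add_left, omul_add_right, oconj_add]
  module

theorem oc_cross_2 (X Y : Ix → R) : oc (cross X Y) 2 = oconj (omul (oc X 0) (oc Y 1)) +
    oconj (omul (oc Y 0) (oc X 1)) - dg X 2 • oc Y 2 - dg Y 2 • oc X 2 := by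
  simp only [cross, oc_sub, oc_sharp_2, dg_add, oc_add, omul_add_left, omul_add_right, oconj_add]
  module

theorem cross_comm (X Y : Ix → R) : cross X Y = cross Y X := by
  simp only [cross, add_comm X Y]; abel

theorem cross_add_left (X X' Y : Ix → R) : cross (X + X') Y = cross X Y + cross X' Y := by
  apply jext <;> simp only [dg_cross_0, dg_cross_1, dg_cross_2, oc_cross_0, oc_cross_1, oc_cross_2,
    dg_add, oc_add, oip_add_left, omul_add_left, omul_add_right, oconj_add]
  all_goals first | ring1 | module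

theorem cross_smul_left (c : R) (X Y : Ix → R) : cross (c • X) Y = c • cross X Y := by
  apply jext <;> simp only [dg_cross_0, dg_cross_1, dg_cross_2, oc_cross_0, oc_cross_1, oc_cross_2,
    dg_smul, oc_smul, oip_smul_left, omul_smul_left, omul_smul_right, oconj_smul]
  all_goals first | ring1 | module

theorem cross_add_right (X Y Y' : Ix → R) : cross X (Y + Y') = cross X Y + cross X Y' := by
  rw [cross_comm, cross_add_left, cross_comm Y, cross_comm Y']

theorem cross_smul_right (c : R) (X Y : Ix → R) : cross X (c • Y) = c • cross X Y := by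
  rw [cross_comm, cross_smul_left, cross_comm Y]

theorem cross_zero_left (Y : Ix → R) : cross 0 Y = 0 := by
  simp [cross, sharp_zero]

theorem cross_zero_right (X : Ix → R) : cross X 0 = 0 := by
  simp [cross, sharp_zero]

theorem cross_neg_right (X Y : Ix → R) : cross X (-Y) = -cross X Y := by
  rw [← neg_one_smul R Y, cross_smul_right, neg_one_smul]

theorem cross_self (X : Ix → R) : cross X X = (2 : R) • sharp X := by
  rw [cross, ← two_smul R X, sharp_smul]; module

theorem tr_cross (X Y Z : Ix → R) : tr (cross X Y) Z = tr X (cross Y Z) := by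
  simp only [tr_eq, dg_cross_0, dg_cross_1, dg_cross_2, oc_cross_0, oc_cross_1, oc_cross_2, oip_eq,
    Pi.add_apply, Pi.sub_apply, Pi.smul_apply, smul_eq_mul, omul_0, omul_1, omul_2, omul_3, omul_4,
    omul_5, omul_6, omul_7, oconj_0, oconj_1, oconj_2, oconj_3, oconj_4, oconj_5, oconj_6, oconj_7]
  ring

theorem tr_sharp_self (X : Ix → R) : tr (sharp X) X = 3 * nrm X := by
  simp only [tr_eq, nrm_eq, dg_sharp_0, dg_sharp_1, dg_sharp_2, oc_sharp_0, oc_sharp_1, oc_sharp_2,
    oip_eq, onorm_eq, Pi.sub_apply, Pi.smul_apply, smul_eq_mul, omul_0, omul_1, omul_2, omul_3,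
    omul_4, omul_5, omul_6, omul_7, oconj_0, oconj_1, oconj_2, oconj_3, oconj_4, oconj_5, oconj_6,
    oconj_7]
  ring

theorem nrm_add (X Y : Ix → R) :
    nrm (X + Y) = nrm X + tr (sharp X) Y + tr X (sharp Y) + nrm Y := by
  simp only [tr_eq, nrm_eq, dg_sharp_0, dg_sharp_1, dg_sharp_2, oc_sharp_0, oc_sharp_1, oc_sharp_2,
    dg_add, oc_add, oip_eq, onorm_eq, Pi.add_apply, Pi.sub_apply, Pi.smul_apply, smul_eq_mul,
    omul_0, omul_1, omul_2, omul_3, omul_4, omul_5, omul_6, omul_7, oconj_0, oconj_1, oconj_2,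
    oconj_3, oconj_4, oconj_5, oconj_6, oconj_7]
  ring

theorem sharp_cyc (X : Ix → R) : sharp (cyc X) = cyc (sharp X) := by
  apply jext <;> rfl

theorem nrm_cyc (X : Ix → R) : nrm (cyc X) = nrm X := by
  simp only [nrm, Fin.sum_univ_three, cyc, dg_mkJ, oc_mkJ, Matrix.cons_val_zero,
    Matrix.cons_val_one, Matrix.cons_val]
  rw [omul_cyc_0 (oc X 2)]; ring

theorem tr_cyc (T X : Ix → R) : tr (cyc T) (cyc X) = tr T X := by
  simp only [tr_eq, cyc, dg_mkJ, oc_mkJ, Matrix.cons_val_zero, Matrix.cons_val_one,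
    Matrix.cons_val]
  ring

theorem cyc_cyc_cyc (X : Ix → R) : cyc (cyc (cyc X)) = X := by
  apply jext <;> rfl

theorem cyc_add (X Y : Ix → R) : cyc (X + Y) = cyc X + cyc Y := by
  apply jext <;> rfl

theorem cyc_smul (c : R) (X : Ix → R) : cyc (c • X) = c • cyc X := by
  apply jext <;> rfl

theorem sharp_sharp (X : Ix → R) : sharp (sharp X) = nrm X • X := by
  have h0 : ∀ X : Ix → R, dg (sharp (sharp X)) 0 = dg (nrm X • X) 0 := by
    intro X
    simp only [dg_sharp_0, dg_sharp_1, dg_sharp_2, oc_sharp_0, dg_smul, nrm_eq, onorm_sub,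
      onorm_oconj, onorm_omul, onorm_smul, oip_smul_right]
    rw [oip_oconj_left, ← two_mul_omul_0, ← two_mul_omul_0, omul_cyc_0 (oc X 0)]
    ring
  have k0 : ∀ X : Ix → R, oc (sharp (sharp X)) 0 = oc (nrm X • X) 0 := by
    intro X
    simp only [dg_sharp_0, oc_sharp_0, oc_sharp_1, oc_sharp_2, oc_smul, nrm_eq]
    apply oct_ext <;> simp only [oip_eq, onorm_eq, Pi.sub_apply, Pi.smul_apply, smul_eq_mul,
      omul_0, omul_1, omul_2, omul_3, omul_4, omul_5, omul_6, omul_7, oconj_0, oconj_1, oconj_2,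
      oconj_3, oconj_4, oconj_5, oconj_6, oconj_7] <;> ring
  refine jext (h0 X) ?_ ?_ (k0 X) ?_ ?_
  · have h := h0 (cyc (cyc X)); rw [sharp_cyc, sharp_cyc, sharp_cyc, sharp_cyc, nrm_cyc,
      nrm_cyc] at h; exact h
  · have h := h0 (cyc X); rw [sharp_cyc, sharp_cyc, nrm_cyc] at h; exact h
  · have h := k0 (cyc (cyc X)); rw [sharp_cyc, sharp_cyc, sharp_cyc, sharp_cyc, nrm_cyc,
      nrm_cyc] at h; exact h
  · have h := k0 (cyc X); rw [sharp_cyc, sharp_cyc, nrm_cyc] at h; exact h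

theorem nrm_sharp {F : Type} [Field F] [CharZero F] (X : Ix → F) : nrm (sharp X) = nrm X ^ 2 := by
  have h := tr_sharp_self (sharp X)
  rw [sharp_sharp, tr_smul_left, tr_comm, tr_sharp_self] at h
  linear_combination (-1 / 3 : F) * h

theorem swp_swp (X : Ix → R) : swp (swp X) = X := by
  apply jext <;> simp [swp, oconj_oconj]

theorem swp_add (X Y : Ix → R) : swp (X + Y) = swp X + swp Y := by
  apply jext <;> simp [swp, oconj_add]

theorem swp_smul (c : R) (X : Ix → R) : swp (c • X) = c • swp X := by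
  apply jext <;> simp [swp, oconj_smul]

theorem sharp_swp (X : Ix → R) : sharp (swp X) = swp (sharp X) := by
  apply jext <;> simp [swp, dg_sharp_0, dg_sharp_1, dg_sharp_2, oc_sharp_0, oc_sharp_1, oc_sharp_2,
    onorm_oconj, oconj_omul, oconj_oconj, oconj_sub, oconj_smul, mul_comm]

theorem tr_swp (T X : Ix → R) : tr (swp T) (swp X) = tr T X := by
  simp only [tr_eq, swp, dg_mkJ, oc_mkJ, Matrix.cons_val_zero, Matrix.cons_val_one,
    Matrix.cons_val, oip_oconj]
  ring

theorem nrm_swp (X : Ix → R) : nrm (swp X) = nrm X := by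
  simp only [nrm_eq, swp, dg_mkJ, oc_mkJ, Matrix.cons_val_zero, Matrix.cons_val_one,
    Matrix.cons_val, onorm_oconj, oip_eq, omul_0, omul_1, omul_2, omul_3, omul_4, omul_5, omul_6,
    omul_7, oconj_0, oconj_1, oconj_2, oconj_3, oconj_4, oconj_5, oconj_6, oconj_7]
  ring

theorem elm_add (u : Fin 8 → R) (X Y : Ix → R) : elm u (X + Y) = elm u X + elm u Y := by
  apply jext <;> simp [elm, oconj_add, oip_add_right, omul_add_right, add_smul]
  · ring
  · abel
  · abel

theorem elm_smul (u : Fin 8 → R) (c : R) (X : Ix → R) : elm u (c • X) = c • elm u X := by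
  apply jext <;> simp [elm, oconj_smul, oip_smul_right, omul_smul_right, mul_smul]
  ring

theorem elm_neg_elm (u : Fin 8 → R) (X : Ix → R) : elm (-u) (elm u X) = X := by
  apply jext <;> simp [elm, oconj_add, oconj_smul, oconj_neg, oconj_oconj, oip_add_right,
    oip_neg_left, oip_smul_right, oip_self, onorm_neg, omul_neg_left]
  ring

theorem nrm_elm (u : Fin 8 → R) (X : Ix → R) : nrm (elm u X) = nrm X := by
  simp only [nrm_eq, elm, dg_mkJ, oc_mkJ, Matrix.cons_val_zero, Matrix.cons_val_one,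
    Matrix.cons_val, oip_eq, onorm_eq, Pi.add_apply, Pi.smul_apply, smul_eq_mul, omul_0, omul_1,
    omul_2, omul_3, omul_4, omul_5, omul_6, omul_7, oconj_0, oconj_1, oconj_2, oconj_3, oconj_4,
    oconj_5, oconj_6, oconj_7]
  ring

theorem tr_elm (u : Fin 8 → R) (T X : Ix → R) :
    tr T (elm u X) = tr (swp (elm (oconj u) (swp T))) X := by
  simp only [tr_eq, elm, swp, dg_mkJ, oc_mkJ, Matrix.cons_val_zero, Matrix.cons_val_one,
    Matrix.cons_val, oip_eq, onorm_eq, Pi.add_apply, Pi.smul_apply, smul_eq_mul, omul_0, omul_1,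
    omul_2, omul_3, omul_4, omul_5, omul_6, omul_7, oconj_0, oconj_1, oconj_2, oconj_3, oconj_4,
    oconj_5, oconj_6, oconj_7]
  ring

section Map

variable {S : Type} [CommRing S] (f : R →+* S)

theorem sharp_map (X : Ix → R) : sharp (fun l => f (X l)) = fun l => f (sharp X l) := by
  funext l
  rcases l with i | ⟨i, k⟩
  · exact (by simp only [map_sub, map_mul, ← onorm_map]; rfl :
      _ = f (dg X (i + 1) * dg X (i + 2) - onorm (oc X i)))
  · have h := congrFun (oconj_map f (omul (oc X (i + 1)) (oc X (i + 2)))) k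
    rw [← omul_map] at h
    exact (by simp only [map_sub, map_mul, ← h]; rfl : _ = f (oconj (omul (oc X (i + 1))
      (oc X (i + 2))) k - dg X i * oc X i k))

theorem tr_map (T X : Ix → R) : tr (fun l => f (T l)) (fun l => f (X l)) = f (tr T X) := by
  simp only [tr_eq_sum, map_sum, map_mul, map_natCast]

theorem nrm_map (X : Ix → R) : nrm (fun l => f (X l)) = f (nrm X) := by
  have h : ∀ i, oc (fun l => f (X l)) i = fun k => f (oc X i k) := fun _ => rfl
  have h' : ∀ i, dg (fun l => f (X l)) i = f (dg X i) := fun _ => rfl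
  simp only [nrm_eq, h, h', onorm_map, omul_map, oconj_map, oip_map, map_add, map_sub, map_mul]

theorem cross_map (X Y : Ix → R) :
    cross (fun l => f (X l)) (fun l => f (Y l)) = fun l => f (cross X Y l) := by
  have h : ((fun l => f (X l)) + fun l => f (Y l)) = fun l => f ((X + Y) l) :=
    funext fun l => (map_add f _ _).symm
  simp only [cross, h, sharp_map]
  funext l; simp

end Map

end Pool.Agent.E7
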