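import Pool.Agent.Lib.MP_7e5527_ag.E7.KT

/-! Fourier expansions. -/

noncomputable section

namespace Pool.Agent.E7.Kim

open Complex
open scoped Classical

theorem kf_add (z w : ℂ) : ee (z + w) = ee z * ee w := by
  rw [ee, mul_add, exp_add, ee, ee]

theorem kf_pow (n : ℕ) (z : ℂ) : ee (n * z) = ee z ^ n := by
  rw [ee, ee, ← exp_nat_mul]
  congr 1
  ring

theorem kf_nat (n : ℕ) : ee n = 1 := by
  rw [ee, mul_comm]
  exact exp_nat_mul_two_pi_mul_I n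

theorem kf_ne (z : ℂ) : ee z ≠ 0 := exp_ne_zero _

theorem kf_geom {n d : ℕ} (hd : 0 < d) (h : ¬ d ∣ n) :
    ∑ b ∈ Finset.range d, ee (b * (n / d)) = 0 := by
  have hd' : (d : ℂ) ≠ 0 := by exact_mod_cast hd.ne'
  have h1 : ee (n / d) ≠ 1 := fun e => h <| by
    obtain ⟨k, hk⟩ := exp_eq_one_iff.1 e
    rw [mul_comm, mul_left_inj' two_pi_I_ne_zero, div_eq_iff hd'] at hk
    have : (n : ℤ) = k * d := by exact_mod_cast hk
    exact Int.natCast_dvd_natCast.1 ⟨k, by rw [this, mul_comm]⟩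
  simp only [kf_pow]
  rw [geom_sum_eq h1, ← kf_pow, mul_div_cancel₀ _ hd', kf_nat, sub_self, zero_div]

theorem kf_oip (c : ℚ) (x : Fin 8 → ℚ) (u : Fin 8 → ℂ) :
    oip (oC (c • x)) u = c * oip (oC x) u := by
  simp only [oip, oC, Pi.smul_apply, smul_eq_mul, Rat.cast_mul, Finset.mul_sum, mul_assoc]

theorem kf_one {a d : ℕ} (ha : 0 < a) (hd : 0 < d) {τ : ℂ} (hτ : 0 < τ.im) (u : Fin 8 → ℂ) :
    HasSum (fun p : {p : ℕ × (Fin 8 → ℚ) // OZ p.2 ∧ (p.1 * (a * d : ℕ) : ℚ) = onorm p.2} =>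
      (if a ∣ p.1.1 ∧ OZ ((a : ℚ)⁻¹ • p.1.2) then (a : ℂ) ^ 3 else 0) *
        ee (p.1.1 * τ + 2 * oip (oC p.1.2) u))
      ((a : ℂ) ^ 3 / d * ∑ b ∈ Finset.range d, thE ((a * τ + b) / d) ((a : ℂ) • u)) := by
  have ha' : (a : ℂ) ≠ 0 := by exact_mod_cast ha.ne'
  have haq : (a : ℚ) ≠ 0 := by exact_mod_cast ha.ne'
  have hd' : (d : ℂ) ≠ 0 := by exact_mod_cast hd.ne'
  have him : ∀ b : ℕ, 0 < ((a * τ + b) / d : ℂ).im := fun b => by
    rw [div_natCast_im]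
    simp only [add_im, mul_im, natCast_re, natCast_im, zero_mul, add_zero]
    positivity
  have h1 := (hasSum_sum (s := Finset.range d) fun b _ =>
    (summable_thE (him b) ((a : ℂ) • u)).hasSum).mul_left ((a : ℂ) ^ 3 / d)
  refine (hasSum_iff_hasSum_of_ne_zero_bij (fun p => ⟨(a : ℚ)⁻¹ • p.1.1.2,
    by_contra fun h => p.2 (by simp only [h, and_false, if_false, zero_mul])⟩) ?_ ?_ ?_).1 h1
  · rintro ⟨⟨⟨t, x⟩, hx, h⟩, h0⟩ ⟨⟨⟨t', x'⟩, hx', h'⟩, h0'⟩ e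
    obtain rfl : x = x' := smul_right_injective _ (inv_ne_zero haq) (congrArg Subtype.val e)
    obtain rfl : t = t' := by
      have := mul_right_cancel₀ (by positivity) (h.trans h'.symm)
      exact_mod_cast this
    rfl
  · rintro ⟨x, hx⟩ h
    obtain ⟨n, hn⟩ := oz_norm hx
    obtain ⟨k, rfl⟩ : d ∣ n := by
      by_contra hdn
      refine h ?_
      have : ∀ b : ℕ, ee ((onorm x : ℚ) * ((a * τ + b) / d) + 2 * oip (oC x) ((a : ℂ) • u)) =
          ee (n * (a * τ / d) + 2 * oip (oC x) ((a : ℂ) • u)) * ee (b * (n / d)) := fun b => by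
        rw [← kf_add, hn]
        congr 1
        push_cast
        ring
      simp only [this]
      rw [← Finset.mul_sum, kf_geom hd hdn, mul_zero, mul_zero]
    have e : (a : ℚ)⁻¹ • (a : ℚ) • x = x := inv_smul_smul₀ haq x
    refine ⟨⟨⟨⟨a * k, (a : ℚ) • x⟩, by simpa using oz_smul a hx, ?_⟩, ?_⟩, Subtype.ext e⟩
    · rw [onorm_smul, hn]
      push_cast
      ring
    · refine mul_ne_zero ?_ (kf_ne _)
      rw [if_pos ⟨dvd_mul_right _ _, by rwa [e]⟩]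
      exact pow_ne_zero _ ha'
  · rintro ⟨⟨⟨t, x⟩, hx, h⟩, h0⟩
    have hc : a ∣ t ∧ OZ ((a : ℚ)⁻¹ • x) := by
      by_contra h
      exact h0 (by simp only [h, if_false, zero_mul])
    obtain ⟨⟨k, rfl⟩, hc⟩ := hc
    have : ∀ b : ℕ, ee ((onorm ((a : ℚ)⁻¹ • x) : ℚ) * ((a * τ + b) / d) +
        2 * oip (oC ((a : ℚ)⁻¹ • x)) ((a : ℂ) • u)) =
          ee ((a * k : ℕ) * τ + 2 * oip (oC x) u) := fun b => by
      rw [← mul_one (ee ((a * k : ℕ) * τ + _)), ← kf_nat (k * b), ← kf_add, onorm_smul, ← h,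
        kf_oip, oip_smul]
      congr 1
      push_cast
      field_simp
      ring
    simp only [this]
    rw [if_pos ⟨dvd_mul_right _ _, hc⟩, Finset.sum_const, Finset.card_range, nsmul_eq_mul,
      ← mul_assoc, div_mul_cancel₀ _ hd']

theorem hasSum_vm {m : ℕ} (hm : 0 < m) {τ : ℂ} (hτ : 0 < τ.im) (u : Fin 8 → ℂ) :
    HasSum (fun p : {p : ℕ × (Fin 8 → ℚ) // OZ p.2 ∧ (p.1 * m : ℚ) = onorm p.2} =>
      (∑ d ∈ m.divisors with d ∣ p.1.1 ∧ OZ ((d : ℚ)⁻¹ • p.1.2), (d : ℂ) ^ 3) *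
        ee (p.1.1 * τ + 2 * oip (oC p.1.2) u)) (vm thE m τ u) := by
  have h := hasSum_sum (s := m.divisorsAntidiagonal) fun q hq => by
    obtain ⟨e, -⟩ := Nat.mem_divisorsAntidiagonal.1 hq
    have := kf_one (a := q.1) (d := q.2) (Nat.pos_of_mul_pos_right (e ▸ hm))
      (Nat.pos_of_mul_pos_left (e ▸ hm)) hτ u
    rw [e] at this
    exact this
  refine (congrArg (HasSum · _) (funext fun p => ?_)).mp h
  rw [eq_comm, ← Finset.sum_mul, Finset.sum_filter, Nat.sum_divisorsAntidiagonal (fun a _ =>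
    if a ∣ p.1.1 ∧ OZ ((a : ℚ)⁻¹ • p.1.2) then (a : ℂ) ^ 3 else 0)]

theorem exists_e4 : ∃ f : ℂ → ℂ, (∀ τ : ℂ, 0 < τ.im → HasSum (fun n : ℕ =>
      (if n = 0 then 1 else 240 * ∑ d ∈ n.divisors, (d : ℂ) ^ 3) * ee (n * τ)) (f τ)) ∧
    ∀ τ : ℂ, 0 < τ.im → f (-1 / τ) = τ ^ 4 * f τ := by
  refine ⟨fun τ => ModularForm.E₄ (UpperHalfPlane.ofComplex τ), fun τ hτ => ?_, fun τ hτ => ?_⟩
  · simp only [UpperHalfPlane.ofComplex_apply_of_im_pos hτ]
    have hb : bernoulli 4 = -1 / 30 := by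
      rw [bernoulli_eq_bernoulli'_of_ne_one (by norm_num), bernoulli'_four]
    have hS := ((summable_nat_add_iff 1).2 (EisensteinSeries.summable_sigma_mul_cexp_pow
      (k := 4) (by norm_num) ⟨τ, hτ⟩)).hasSum.mul_left 240
    have hv := EisensteinSeries.q_expansion_bernoulli (k := 4) (by norm_num) (by decide) ⟨τ, hτ⟩
    simp_rw [zpow_natCast] at hv
    rw [tsum_pnat_eq_tsum_succ (f := fun n => (ArithmeticFunction.sigma (4 - 1) n : ℂ) *
      cexp (2 * Real.pi * I * (⟨τ, hτ⟩ : UpperHalfPlane)) ^ n), hb] at hv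
    rw [← hasSum_nat_add_iff' 1]
    convert! hS using 1
    · funext n
      rw [if_neg n.succ_ne_zero, kf_pow, ArithmeticFunction.sigma_apply, mul_assoc]
      push_cast
      rfl
    · rw [hv]
      simp [ee]
      ring
  · have hγ : (ModularGroup.S : Matrix.GeneralLinearGroup (Fin 2) ℝ) ∈
        (Matrix.SpecialLinearGroup.mapGL ℝ : Matrix.SpecialLinearGroup (Fin 2) ℤ →* _).range :=
      ⟨_, rfl⟩
    have h := SlashInvariantForm.slash_action_eqn'' ModularForm.E₄ hγ ⟨τ, hτ⟩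
    rw [ModularGroup.denom_S, ← ModularGroup.sl_moeb, UpperHalfPlane.modular_S_smul] at h
    have e : -1 / τ = (-τ)⁻¹ := by rw [inv_neg, neg_div, one_div]
    have h' : 0 < ((-τ)⁻¹).im := UpperHalfPlane.im_inv_neg_coe_pos ⟨τ, hτ⟩
    simp only [e]
    rw [UpperHalfPlane.ofComplex_apply_of_im_pos hτ, UpperHalfPlane.ofComplex_apply_of_im_pos h']
    exact h

end Pool.Agent.E7.Kim
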