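import Pool.Agent.Lib.MP_7e5527_ag.E7.KO

/-! The index raising operator commutes with the inversion. -/

noncomputable section

namespace Pool.Agent.E7.Kim

open Complex
open scoped Classical

/-- The slash operator for a matrix of determinant `m`. -/
def kv_sl (θ : ℂ → (Fin 8 → ℂ) → ℂ) (m a b c d τ : ℂ) (u : Fin 8 → ℂ) : ℂ :=
  ((c * τ + d) ^ 4)⁻¹ * ee (-(m * c * onorm u / (c * τ + d))) *
    θ ((a * τ + b) / (c * τ + d)) ((m / (c * τ + d)) • u)

theorem kv_ee_add (x y : ℂ) : ee (x + y) = ee x * ee y := by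
  rw [ee, ee, ee, mul_add, Complex.exp_add]

theorem kv_ne {c d : ℤ} {τ : ℂ} (hτ : 0 < τ.im) (h : c ≠ 0 ∨ d ≠ 0) : (c : ℂ) * τ + d ≠ 0 := by
  intro h0
  have h1 := congrArg Complex.im h0
  simp only [add_im, mul_im, intCast_re, intCast_im, zero_mul, add_zero, zero_im,
    mul_eq_zero, Int.cast_eq_zero] at h1
  have hc : c = 0 := h1.resolve_right hτ.ne'
  rw [hc] at h0
  simp only [Int.cast_zero, zero_mul, zero_add, Int.cast_eq_zero] at h0
  rcases h with h | h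
  exacts [h hc, h h0]

theorem kv_im {a b c d : ℤ} {τ : ℂ} (hτ : 0 < τ.im) (h : 0 < a * d - b * c)
    (h0 : (c : ℂ) * τ + d ≠ 0) : 0 < (((a : ℂ) * τ + b) / (c * τ + d)).im := by
  have h1 : 0 < normSq ((c : ℂ) * τ + d) := normSq_pos.2 h0
  have h2 : (0 : ℝ) < a * d - b * c := by exact_mod_cast h
  rw [div_im, ← sub_div]
  refine div_pos ?_ h1
  simp only [add_im, add_re, mul_im, mul_re, intCast_re, intCast_im, zero_mul, add_zero, sub_zero]
  have h3 : (a : ℝ) * τ.im * (c * τ.re + d) - (a * τ.re + b) * (c * τ.im) =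
    (a * d - b * c) * τ.im := by ring
  rw [h3]
  exact mul_pos h2 hτ

variable {θ : ℂ → (Fin 8 → ℂ) → ℂ}

theorem kv_T (hT : ∀ τ u, θ (τ + 1) u = θ τ u) {m a b c d τ : ℂ} (h : c * τ + d ≠ 0)
    (u : Fin 8 → ℂ) : kv_sl θ m (a + c) (b + d) c d τ u = kv_sl θ m a b c d τ u := by
  have e : ((a + c) * τ + (b + d)) / (c * τ + d) = (a * τ + b) / (c * τ + d) + 1 := by
    rw [div_add_one h]
    congr 1
    ring
  rw [kv_sl, kv_sl, e, hT]

theorem kv_S
    (hS : ∀ τ u, 0 < τ.im → θ (-1 / τ) (τ⁻¹ • u) = τ ^ 4 * ee (onorm u / τ) * θ τ u)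
    {m a b c d τ : ℂ} (hm : a * d - b * c = m) (h : c * τ + d ≠ 0) (h' : a * τ + b ≠ 0)
    (hi : 0 < ((a * τ + b) / (c * τ + d)).im) (u : Fin 8 → ℂ) :
    kv_sl θ m (-c) (-d) a b τ u = kv_sl θ m a b c d τ u := by
  have k := hS _ ((m / (c * τ + d)) • u) hi
  have hx : -c * τ + -d = -(c * τ + d) := by ring
  have hz : m - a * (c * τ + d) = -c * (a * τ + b) := by rw [← hm]; ring
  rw [kv_sl, kv_sl, hx]
  generalize c * τ + d = y at *
  generalize a * τ + b = x at *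
  have e1 : -y / x = -1 / (x / y) := by field_simp
  have e2 : (m / x) • u = (x / y)⁻¹ • (m / y) • u := by
    rw [smul_smul]
    congr 1
    field_simp
  have e3 : -(m * c * onorm u / y) = -(m * a * onorm u / x) + onorm ((m / y) • u) / (x / y) := by
    rw [onorm_smul]
    field_simp
    linear_combination (-(m * onorm u)) * hz
  rw [e1, e2, k, e3, kv_ee_add]
  field_simp

theorem kv_R {m a b c d τ : ℂ} (hτ : τ ≠ 0) (h : d * τ + -c ≠ 0) (u : Fin 8 → ℂ) :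
    kv_sl θ m a b c d (-1 / τ) (τ⁻¹ • u) =
      τ ^ 4 * ee (m * onorm u / τ) * kv_sl θ m b (-a) d (-c) τ u := by
  have e0 : c * (-1 / τ) + d = (d * τ + -c) / τ := by
    field_simp
    ring
  have e1 : a * (-1 / τ) + b = (b * τ + -a) / τ := by
    field_simp
    ring
  have hz : d * τ - c = d * τ + -c := by ring
  rw [kv_sl, kv_sl, e0, e1]
  generalize d * τ + -c = y at *
  generalize b * τ + -a = x at *
  have e2 : x / τ / (y / τ) = x / y := by field_simp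
  have e3 : (m / (y / τ)) • τ⁻¹ • u = (m / y) • u := by
    rw [smul_smul]
    congr 1
    field_simp
  have e4 : -(m * c * onorm (τ⁻¹ • u) / (y / τ)) =
      m * onorm u / τ + -(m * d * onorm u / y) := by
    rw [onorm_smul]
    field_simp
    linear_combination (m * onorm u) * hz
  rw [e2, e3, e4, kv_ee_add]
  field_simp

open MatrixGroups ModularGroup FixedDetMatrices

theorem kv_det {m : ℤ} (A : FixedDetMatrix (Fin 2) ℤ m) :
    A.1 0 0 * A.1 1 1 - A.1 0 1 * A.1 1 0 = m := by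
  rw [← Matrix.det_fin_two]
  exact A.2

theorem kv_inv {m : ℤ} {f : FixedDetMatrix (Fin 2) ℤ m → ℂ} (hS : ∀ A, f (S • A) = f A)
    (hT : ∀ A, f (T • A) = f A) (g : SL(2, ℤ)) : ∀ A, f (g • A) = f A := by
  have hg : g ∈ Subgroup.closure ({S, T} : Set SL(2, ℤ)) := by
    rw [SpecialLinearGroup.SL2Z_generators]
    trivial
  induction hg using Subgroup.closure_induction with
  | mem x hx =>
    rcases hx with rfl | rfl
    exacts [hS, hT]
  | one => exact fun A => by rw [one_smul]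
  | mul x y _ _ hx hy => exact fun A => by rw [mul_smul, hx, hy]
  | inv x _ hx => exact fun A => by rw [← hx (x⁻¹ • A), smul_inv_smul]

theorem kv_orbit {m : ℤ} (A : FixedDetMatrix (Fin 2) ℤ m) : ∃ g : SL(2, ℤ), reduce A = g • A := by
  induction A using reduce_rec with
  | base A h =>
    by_cases h1 : 0 < A.1 0 0
    · exact ⟨_, reduce_of_pos h h1⟩
    · exact ⟨_, by rw [reduce_of_not_pos h h1, smul_smul, smul_smul]⟩
  | step A h ih =>
    obtain ⟨g, hg⟩ := ih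
    rw [reduce_reduceStep h, reduceStep, smul_smul, smul_smul] at hg
    exact ⟨_, hg⟩

theorem kv_uniq {m : ℤ} (hm : 0 < m) {A B : FixedDetMatrix (Fin 2) ℤ m} (hA : A ∈ reps m)
    (hB : B ∈ reps m) {g : SL(2, ℤ)} (h : g • A = B) : A = B := by
  obtain ⟨a1, a2, a3, a4⟩ := hA
  obtain ⟨b1, b2, b3, b4⟩ := hB
  have hd := kv_det A
  have hd' := kv_det B
  have hg : g.1 0 0 * g.1 1 1 - g.1 0 1 * g.1 1 0 = 1 := by
    rw [← Matrix.det_fin_two]
    exact g.2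
  have he : ∀ i j, B.1 i j = g.1 i 0 * A.1 0 j + g.1 i 1 * A.1 1 j := fun i j => by
    rw [← h, smul_coe, Matrix.mul_apply, Fin.sum_univ_two]
  have e00 := he 0 0
  have e01 := he 0 1
  have e10 := he 1 0
  have e11 := he 1 1
  rw [a1, mul_zero, sub_zero] at hd
  rw [b1, mul_zero, sub_zero] at hd'
  rw [a1, mul_zero, add_zero] at e00 e10
  have g10 : g.1 1 0 = 0 := (mul_eq_zero.1 (e10.symm.trans b1)).resolve_right a2.ne'
  rw [g10, mul_zero, sub_zero] at hg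
  have g0 : 0 < g.1 0 0 := (mul_pos_iff_of_pos_right a2).1 (e00 ▸ b2)
  have g00 : g.1 0 0 = 1 := by
    rcases Int.mul_eq_one_iff_eq_one_or_neg_one.1 hg with k | k
    · exact k.1
    · omega
  have g11 : g.1 1 1 = 1 := by rwa [g00, one_mul] at hg
  rw [g00, one_mul] at e00 e01
  rw [g10, g11, zero_mul, zero_add, one_mul] at e11
  have d0 : 0 < A.1 1 1 := (mul_pos_iff_of_pos_left a2).1 (hm.trans_eq hd.symm)
  rw [e11] at b4
  rw [abs_of_nonneg a3, abs_of_pos d0] at a4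
  rw [abs_of_nonneg b3, abs_of_pos d0] at b4
  have g01 : g.1 0 1 = 0 := by
    by_contra hne
    rcases lt_or_gt_of_ne hne with k | k
    · nlinarith
    · nlinarith
  rw [g01, zero_mul, add_zero] at e01
  refine FixedDetMatrices.ext _ _ fun i j => ?_
  fin_cases i <;> fin_cases j
  exacts [e00.symm, e01.symm, a1.trans b1.symm, e11.symm]

/-- Multiplication by the inversion on the right. -/
def kv_r {m : ℤ} (A : FixedDetMatrix (Fin 2) ℤ m) : FixedDetMatrix (Fin 2) ℤ m :=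
  ⟨A.1 * S.1, by rw [Matrix.det_mul, A.2, S.2, mul_one]⟩

theorem kv_r_smul {m : ℤ} (g : SL(2, ℤ)) (A : FixedDetMatrix (Fin 2) ℤ m) :
    kv_r (g • A) = g • kv_r A :=
  FixedDetMatrices.ext' _ _ (Matrix.mul_assoc g.1 A.1 S.1)

theorem kv_r_apply {m : ℤ} (A : FixedDetMatrix (Fin 2) ℤ m) (i : Fin 2) :
    (kv_r A).1 i 0 = A.1 i 1 ∧ (kv_r A).1 i 1 = -A.1 i 0 := by
  simp [kv_r, S, Matrix.mul_apply, Fin.sum_univ_two]

theorem kv_r_inj {m : ℤ} {A B : FixedDetMatrix (Fin 2) ℤ m} (h : kv_r A = kv_r B) : A = B := by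
  refine FixedDetMatrices.ext _ _ fun i j => ?_
  have h1 := kv_r_apply A i
  have h2 := kv_r_apply B i
  rw [h] at h1
  fin_cases j
  · exact neg_injective (h1.2.symm.trans h2.2)
  · exact h1.1.symm.trans h2.1

theorem kv_S_apply {m : ℤ} (A : FixedDetMatrix (Fin 2) ℤ m) (j : Fin 2) :
    (S • A).1 0 j = -A.1 1 j ∧ (S • A).1 1 j = A.1 0 j := by
  rw [smul_coe, coe_S]
  simp [Matrix.mul_apply, Fin.sum_univ_two]

theorem kv_T_apply {m : ℤ} (A : FixedDetMatrix (Fin 2) ℤ m) (j : Fin 2) :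
    (T • A).1 0 j = A.1 0 j + A.1 1 j ∧ (T • A).1 1 j = A.1 1 j := by
  rw [smul_coe, coe_T]
  simp [Matrix.mul_apply, Fin.sum_univ_two]

theorem kv_perm {m : ℤ} (hm : 0 < m) {f : FixedDetMatrix (Fin 2) ℤ m → ℂ}
    (hf : ∀ (g : SL(2, ℤ)) A, f (g • A) = f A) :
    ∑ A : reps m, f (kv_r A.1) = ∑ A : reps m, f A.1 := by
  have hi : Function.Injective fun A : reps m =>
      (⟨reduce (kv_r A.1), reduce_mem_reps hm.ne' _⟩ : reps m) := fun A B h => by
    obtain ⟨g, hg⟩ := kv_orbit (kv_r A.1)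
    obtain ⟨g', hg'⟩ := kv_orbit (kv_r B.1)
    have h1 : reduce (kv_r A.1) = reduce (kv_r B.1) := congrArg Subtype.val h
    rw [hg, hg', ← kv_r_smul, ← kv_r_smul] at h1
    refine Subtype.ext (kv_uniq hm A.2 B.2 (g := g'⁻¹ * g) ?_)
    rw [mul_smul, kv_r_inj h1, inv_smul_smul]
  rw [← (Finite.injective_iff_bijective.1 hi).sum_comp fun A : reps m => f A.1]
  refine Finset.sum_congr rfl fun A _ => ?_
  obtain ⟨g, hg⟩ := kv_orbit (kv_r A.1)
  rw [← hf g, ← hg]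

theorem kv_sum {m : ℕ} (hm : 0 < m) (F : ℤ → ℤ → ℤ → ℤ → ℂ) :
    ∑ A : reps (m : ℤ), F (A.1.1 0 0) (A.1.1 0 1) (A.1.1 1 0) (A.1.1 1 1) =
      ∑ p ∈ m.divisorsAntidiagonal, ∑ b ∈ Finset.range p.2, F p.1 b 0 p.2 := by
  rw [Finset.sum_sigma']
  symm
  refine Finset.sum_bij (fun x hx => ⟨⟨!![(x.1.1 : ℤ), x.2; 0, x.1.2], ?_⟩, ?_⟩)
    (fun _ _ => Finset.mem_univ _) ?_ ?_ ?_
  · have h1 := (Nat.mem_divisorsAntidiagonal.1 (Finset.mem_sigma.1 hx).1).1
    rw [Matrix.det_fin_two_of, mul_zero, sub_zero]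
    exact_mod_cast h1
  · have h1 := (Nat.mem_divisorsAntidiagonal.1 (Finset.mem_sigma.1 hx).1).1
    have h2 := Finset.mem_range.1 (Finset.mem_sigma.1 hx).2
    have h3 : 0 < x.1.1 := Nat.pos_of_ne_zero fun k => by
      rw [k, zero_mul] at h1
      omega
    refine ⟨rfl, ?_, ?_, ?_⟩ <;> simp [h2, h3]
  · rintro ⟨⟨a, d⟩, b⟩ _ ⟨⟨a', d'⟩, b'⟩ _ h
    have h1 := congrArg (fun A : reps (m : ℤ) => A.1.1) h
    have e1 : (a : ℤ) = a' := congrFun₂ h1 0 0
    have e2 : (b : ℤ) = b' := congrFun₂ h1 0 1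
    have e3 : (d : ℤ) = d' := congrFun₂ h1 1 1
    obtain rfl : a = a' := by exact_mod_cast e1
    obtain rfl : b = b' := by exact_mod_cast e2
    obtain rfl : d = d' := by exact_mod_cast e3
    rfl
  · rintro ⟨A, a1, a2, a3, a4⟩ -
    have hd := kv_det A
    rw [a1, mul_zero, sub_zero] at hd
    have d0 : 0 < A.1 1 1 :=
      (mul_pos_iff_of_pos_left a2).1 ((by exact_mod_cast hm : (0 : ℤ) < m).trans_eq hd.symm)
    rw [abs_of_nonneg a3, abs_of_pos d0] at a4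
    obtain ⟨a, ha⟩ := Int.eq_ofNat_of_zero_le a2.le
    obtain ⟨b, hb⟩ := Int.eq_ofNat_of_zero_le a3
    obtain ⟨d, hd'⟩ := Int.eq_ofNat_of_zero_le d0.le
    rw [ha, hd'] at hd
    rw [hb, hd'] at a4
    refine ⟨⟨(a, d), b⟩, Finset.mem_sigma.2 ⟨Nat.mem_divisorsAntidiagonal.2
      ⟨by exact_mod_cast hd, hm.ne'⟩, Finset.mem_range.2 (by exact_mod_cast a4)⟩,
      Subtype.ext (FixedDetMatrices.ext _ _ fun i j => ?_)⟩
    fin_cases i <;> fin_cases j
    exacts [ha.symm, hb.symm, a1.symm, hd'.symm]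
  · intro x hx
    rfl

theorem kv_vm {m : ℕ} (hm : 0 < m) (τ : ℂ) (u : Fin 8 → ℂ) :
    vm θ m τ u = (m : ℂ) ^ 3 * ∑ A : reps (m : ℤ),
      kv_sl θ m (A.1.1 0 0) (A.1.1 0 1) (A.1.1 1 0) (A.1.1 1 1) τ u := by
  rw [kv_sum hm fun a b c d => kv_sl θ m a b c d τ u, vm, Finset.mul_sum]
  refine Finset.sum_congr rfl fun p hp => ?_
  have h1 := (Nat.mem_divisorsAntidiagonal.1 hp).1
  have h2 : (p.2 : ℂ) ≠ 0 := by
    refine Nat.cast_ne_zero.2 fun k => ?_
    rw [k, mul_zero] at h1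
    omega
  have h3 : (m : ℂ) = p.1 * p.2 := by exact_mod_cast h1.symm
  rw [Finset.mul_sum, Finset.mul_sum]
  refine Finset.sum_congr rfl fun b _ => ?_
  simp only [kv_sl, Int.cast_natCast, Int.cast_zero, zero_mul, zero_add, mul_zero, zero_div,
    neg_zero, ee, Complex.exp_zero, mul_one]
  rw [h3, mul_div_cancel_right₀ _ h2]
  field_simp

theorem vm_S {θ : ℂ → (Fin 8 → ℂ) → ℂ} (hT : ∀ τ u, θ (τ + 1) u = θ τ u)
    (hS : ∀ τ u, 0 < τ.im → θ (-1 / τ) (τ⁻¹ • u) = τ ^ 4 * ee (onorm u / τ) * θ τ u)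
    {m : ℕ} (hm : 0 < m) {τ : ℂ} (hτ : 0 < τ.im) (u : Fin 8 → ℂ) :
    vm θ m (-1 / τ) (τ⁻¹ • u) = τ ^ 4 * ee (m * onorm u / τ) * vm θ m τ u := by
  have hm' : (0 : ℤ) < m := by exact_mod_cast hm
  have hτ0 : τ ≠ 0 := fun k => by
    rw [k] at hτ
    exact lt_irrefl _ hτ
  have hrow : ∀ (A : FixedDetMatrix (Fin 2) ℤ m) (i : Fin 2),
      (A.1 i 0 : ℂ) * τ + A.1 i 1 ≠ 0 := fun A i => kv_ne hτ (by
    have hd := kv_det A
    by_contra k
    rw [not_or, not_not, not_not] at k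
    fin_cases i
    · have k1 : A.1 0 0 = 0 := k.1
      have k2 : A.1 0 1 = 0 := k.2
      rw [k1, k2] at hd
      omega
    · have k1 : A.1 1 0 = 0 := k.1
      have k2 : A.1 1 1 = 0 := k.2
      rw [k1, k2] at hd
      omega)
  have hf := kv_inv (m := m)
    (f := fun A => kv_sl θ m (A.1 0 0) (A.1 0 1) (A.1 1 0) (A.1 1 1) τ u) (fun A => by
      have k := kv_S hS (m := m) (by exact_mod_cast kv_det A) (hrow A 1) (hrow A 0)
        (kv_im hτ (by rw [kv_det A]; exact hm') (hrow A 1)) u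
      rw [← k, (kv_S_apply A 0).1, (kv_S_apply A 0).2, (kv_S_apply A 1).1, (kv_S_apply A 1).2,
        Int.cast_neg, Int.cast_neg]) fun A => by
      rw [← kv_T hT (hrow A 1) u, (kv_T_apply A 0).1, (kv_T_apply A 0).2, (kv_T_apply A 1).1,
        (kv_T_apply A 1).2, Int.cast_add, Int.cast_add]
  have hp := kv_perm hm'
    (f := fun A => kv_sl θ m (A.1 0 0) (A.1 0 1) (A.1 1 0) (A.1 1 1) τ u) hf
  rw [kv_vm hm, kv_vm hm, ← hp, mul_left_comm, Finset.mul_sum _ _ (_ * ee _)]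
  congr 1
  refine Finset.sum_congr rfl fun A _ => ?_
  have k := hrow (kv_r A.1) 1
  rw [(kv_r_apply A.1 1).1, (kv_r_apply A.1 1).2, Int.cast_neg] at k
  rw [kv_R hτ0 k, (kv_r_apply A.1 0).1, (kv_r_apply A.1 0).2, (kv_r_apply A.1 1).1,
    (kv_r_apply A.1 1).2, Int.cast_neg, Int.cast_neg]

end Pool.Agent.E7.Kim
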