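import Pool.Agent.Lib.MP_7e5527_ag.E7.KW
import Pool.Agent.Lib.MP_7e5527_ag.E7.KV
import Pool.Agent.Lib.MP_7e5527_ag.E7.KF

/-! The lower blocks `0` and `m e`. -/

noncomputable section

namespace Pool.Agent.E7.Kim

open Complex
open scoped Classical

/-- The points with lower block `m e`. -/
def kb_P (t m : ℕ) (x : Fin 8 → ℚ) : Ix → ℚ := mkJ ![t, m, 0] ![0, 0, x]

theorem kb_ee (a b : ℂ) : ee (a + b) = ee a * ee b := by
  rw [ee, mul_add, Complex.exp_add, ee, ee]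

theorem kb_tr (t m : ℕ) (x : Fin 8 → ℚ) (Z : Ix → ℂ) : tr (toR ℂ (kb_P t m x)) Z =
    m * dg Z 1 + (t * dg Z 0 + 2 * oip (oC x) (oc Z 2)) := by
  simp [tr, Fin.sum_univ_three, kb_P, toR, dg, oc, mkJ, oip, oC]
  ring

theorem kb_norm {x : Fin 8 → ℚ} (h : onorm x = 0) : x = 0 := funext fun k =>
  (pow_eq_zero_iff two_ne_zero).1
    ((Finset.sum_eq_zero_iff_of_nonneg fun k _ => sq_nonneg (x k)).1 h k (Finset.mem_univ k))

theorem kb_dvd {d t : ℕ} (hd : 0 < d) : (∃ n : ℤ, (d : ℚ)⁻¹ * t = n) ↔ d ∣ t := by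
  have h0 : (d : ℚ) ≠ 0 := Nat.cast_ne_zero.2 hd.ne'
  refine ⟨fun ⟨n, h⟩ => Int.natCast_dvd_natCast.1 ⟨n, ?_⟩, ?_⟩
  · rw [inv_mul_eq_iff_eq_mul₀ h0] at h
    exact_mod_cast h
  · rintro ⟨k, rfl⟩
    exact ⟨k, by rw [Nat.cast_mul, inv_mul_cancel_left₀ h0, Int.cast_natCast]⟩

theorem kb_lam {d t m : ℕ} {x : Fin 8 → ℚ} (hd : 0 < d) :
    (d : ℚ)⁻¹ • kb_P t m x ∈ Lam ↔ d ∣ m ∧ d ∣ t ∧ OZ ((d : ℚ)⁻¹ • x) := by
  refine ⟨fun h => ⟨(kb_dvd hd).1 (h.1 1), (kb_dvd hd).1 (h.1 0), h.2 2⟩,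
    fun h => ⟨fun i => ?_, fun i => ?_⟩⟩
  · fin_cases i
    exacts [(kb_dvd hd).2 h.2.1, (kb_dvd hd).2 h.1, ⟨0, mul_zero _⟩]
  · have h0 : OZ ((d : ℚ)⁻¹ • 0) := by
      rw [smul_zero]
      exact oz_zero
    fin_cases i
    exacts [h0, h0, h.2.2]

theorem kb_kc {t m : ℕ} {x : Fin 8 → ℚ} (hx : OZ x) (h : (t * m : ℚ) = onorm x)
    (h0 : kb_P t m x ≠ 0) {s : Finset ℕ}
    (hs : ∀ d, d ∈ s ↔ 0 < d ∧ d ∣ m ∧ d ∣ t ∧ OZ ((d : ℚ)⁻¹ • x)) :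
    kc (kb_P t m x) = 240 * ∑ d ∈ s, (d : ℂ) ^ 3 := by
  have z1 : ∀ y : Fin 8 → ℚ, omul 0 y = 0 := fun y => by simpa using smul_omul 0 y y
  have z2 : ∀ y : Fin 8 → ℚ, omul y 0 = 0 := fun y => by simpa using omul_smul 0 y y
  have z3 : oconj (0 : Fin 8 → ℚ) = 0 := by simpa using oconj_smul (0 : ℚ) 0
  have z4 : onorm (0 : Fin 8 → ℚ) = 0 := by simp [onorm]
  have h1 : sharp (kb_P t m x) = 0 := by
    refine ext_J (fun i => ?_) fun i => ?_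
    · rw [dg_sharp]
      fin_cases i <;> simp [kb_P, z4, h] <;> rfl
    · rw [oc_sharp]
      fin_cases i <;> simp [kb_P, z1, z2, z3] <;> rfl
  have h2 : kb_P t m x ∈ Lam := by
    simpa using (kb_lam (t := t) (m := m) (x := x) one_pos).2 (by simpa using hx)
  have h3 : s3 (kb_P t m x) = ∑ d ∈ s, d ^ 3 := by
    have h4 : ∀ d : ℕ, (0 < d ∧ (d : ℚ)⁻¹ • kb_P t m x ∈ Lam) ↔ d ∈ s := fun d => by
      rw [hs]
      exact and_congr_right fun hd => kb_lam hd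
    exact (finsum_eq_sum_of_support_subset _ fun d hd => by_contra fun h =>
      hd (if_neg (mt (h4 d).1 h))).trans (Finset.sum_congr rfl fun d hd => if_pos ((h4 d).2 hd))
  rw [kc, if_neg h0, if_pos ⟨h2, psd_of_sharp h1 fun i => by fin_cases i <;> simp [kb_P], h1⟩, h3]
  push_cast
  rfl

theorem kb_tsum {ι : Type} (m : ℕ) (g : ι → ℕ × (Fin 8 → ℚ)) (hg : Function.Injective g)
    (hs : ∀ (t : ℕ) x, OZ x → (t * m : ℚ) = onorm x → ∃ i, g i = (t, x)) (Z : Ix → ℂ) :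
    Thl (m, 0, 0) Z = ∑' i, term Z (kb_P (g i).1 m (g i).2) := by
  refine (Function.Injective.tsum_eq (f := fun T : {T // low T = ((m : ℚ), 0, 0)} => term Z T.1)
    (g := fun i => ⟨kb_P (g i).1 m (g i).2, rfl⟩) (fun i j h => hg ?_) ?_).symm
  · have h1 := congrArg Subtype.val h
    exact Prod.ext (Nat.cast_injective (R := ℚ) (congrArg (dg · 0) h1)) (congrArg (oc · 2) h1)
  rintro ⟨T, hT⟩ h
  obtain ⟨a1, a2, a3⟩ : dg T 1 = m ∧ dg T 2 = 0 ∧ oc T 0 = 0 := by simpa [low] using hT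
  obtain ⟨t, b1, b2, b3, b4⟩ : ∃ t : ℕ, dg T 0 = t ∧ oc T 1 = 0 ∧ OZ (oc T 2) ∧
      dg T 0 * dg T 1 = onorm (oc T 2) := by
    by_cases h0 : T = 0
    · subst h0
      exact ⟨0, rfl, rfl, oz_zero, by simp [dg, oc, onorm]⟩
    have h1 : R1 T := by_contra fun h1 => h (by simp only [term, kc, if_neg h0, if_neg h1, zero_mul])
    obtain ⟨n, hn⟩ := h1.1.1 0
    have h2 := psd_dg h1.2.1 0
    rw [hn, Int.cast_nonneg_iff] at h2
    lift n to ℕ using h2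
    have h3 : dg T 2 * dg T 0 - onorm (oc T 1) = 0 := congrArg (dg · 1) h1.2.2
    rw [a2, zero_mul, zero_sub, neg_eq_zero] at h3
    exact ⟨n, hn, kb_norm h3, h1.1.2 2, sub_eq_zero.1 (congrArg (dg · 2) h1.2.2)⟩
  obtain ⟨i, hi⟩ := hs t _ b3 (by rw [← b1, ← a1, b4])
  refine ⟨i, Subtype.ext ((congrArg (fun p : ℕ × _ => kb_P p.1 m p.2) hi).trans
    (ext_J (fun k => ?_) fun k => ?_))⟩ <;> fin_cases k
  exacts [b1.symm, a1.symm, a2.symm, a3.symm, b2.symm, rfl]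

theorem inv_zero : Inv (0, 0, 0) := by
  obtain ⟨f, h1, h2⟩ := exists_e4
  have h3 : ∀ Z ∈ HH, Thl (0, 0, 0) Z = f (dg Z 0) := fun Z hZ => by
    refine (kb_tsum 0 (fun n : ℕ => (n, 0)) (fun _ _ h => congrArg Prod.fst h)
      (fun t x _ h => ⟨t, by rw [kb_norm (h.symm.trans (mul_zero _))]⟩) Z).trans
      ((tsum_congr fun n => ?_).trans (h1 _ (hh_im hZ 0)).tsum_eq)
    rw [term, kb_tr]
    congr 1
    · split_ifs with h
      · refine if_pos (ext_J (fun i => ?_) fun i => ?_) <;> fin_cases i <;> simp [kb_P, h] <;> rfl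
      · exact kb_kc oz_zero (by simp [onorm]) (fun e => h (Nat.cast_eq_zero.1 (congrArg (dg · 0) e)))
          fun d => ⟨fun hd => ⟨Nat.pos_of_mem_divisors hd, dvd_zero d, Nat.dvd_of_mem_divisors hd,
            by rw [smul_zero]; exact oz_zero⟩, fun hd => Nat.mem_divisors.2 ⟨hd.2.2.1, h⟩⟩
    · simp [oip, oC]
  intro Z hZ
  rw [h3 _ (hh_sw0 hZ), h3 Z hZ]
  exact h2 _ (hh_im hZ 0)

theorem inv_nat {m : ℕ} (hm : 0 < m) : Inv (m, 0, 0) := by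
  have h3 : ∀ Z ∈ HH, Thl (m, 0, 0) Z =
      240 * ee (m * dg Z 1) * vm thE m (dg Z 0) (oc Z 2) := fun Z hZ => by
    refine (kb_tsum m (Subtype.val : {p : ℕ × (Fin 8 → ℚ) // OZ p.2 ∧ (p.1 * m : ℚ) = onorm p.2} → _)
      Subtype.val_injective (fun t x a b => ⟨⟨(t, x), a, b⟩, rfl⟩) Z).trans
      ((tsum_congr fun p => ?_).trans ((hasSum_vm hm (hh_im hZ 0) (oc Z 2)).mul_left _).tsum_eq)
    rw [term, kb_tr, kb_ee, kb_kc p.2.1 p.2.2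
      (fun e => hm.ne' (Nat.cast_eq_zero.1 (congrArg (dg · 1) e)))
      (s := {d ∈ m.divisors | d ∣ p.1.1 ∧ OZ ((d : ℚ)⁻¹ • p.1.2)}) fun d => by
        rw [Finset.mem_filter]
        exact ⟨fun h => ⟨Nat.pos_of_mem_divisors h.1, Nat.dvd_of_mem_divisors h.1, h.2⟩,
          fun h => ⟨Nat.mem_divisors.2 ⟨h.2.1, hm.ne'⟩, h.2.2⟩⟩]
    ring
  intro Z hZ
  have h4 : ee (m * dg Z 1) =
      ee (m * (dg Z 1 - onorm (oc Z 2) / dg Z 0)) * ee (m * onorm (oc Z 2) / dg Z 0) := by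
    rw [← kb_ee]
    ring_nf
  rw [h3 _ (hh_sw0 hZ), h3 Z hZ, h4]
  refine (congrArg (_ * ·) (vm_S thE_T (fun τ u h => thE_S h u) hm (hh_im hZ 0) (oc Z 2))).trans ?_
  change 240 * ee (m * (dg Z 1 - onorm (oc Z 2) / dg Z 0)) * _ = _
  ring

end Pool.Agent.E7.Kim
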