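import Pool.Agent.Lib.MP_7e5527_ag.E7.KO

/-! The lattice of integral octonions. -/

noncomputable section

namespace Pool.Agent.E7.Kim

open Complex
open scoped Classical

variable {x y : Fin 8 → ℚ} {T : Ix → ℚ}

/-- Coordinates with respect to a basis of the lattice. -/
def klPar (a b c d e f g h : ℤ) : Fin 8 → ℚ :=
  ![(a + b + c) / 2 + e, (a + b) / 2 + f, (a + c) / 2 + g, a / 2, (b + c + d) / 2 + h, (b + d) / 2,
    d / 2, (c + d) / 2]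

theorem kl_of (a b c d e f g h : ℤ) : OZ (klPar a b c d e f g h) := by
  refine ⟨fun k => ⟨![a + b + c + 2 * e, a + b + 2 * f, a + c + 2 * g, a, b + c + d + 2 * h, b + d,
    d, c + d] k, ?_⟩, ⟨2 * a + b + c + e + f + g, ?_⟩, ⟨a + 2 * b + c + d + e + f + h, ?_⟩,
    ⟨a + b + 2 * c + d + e + g + h, ?_⟩, ⟨b + c + 2 * d + h, ?_⟩⟩
  · fin_cases k <;> simp [klPar] <;> ring
  all_goals simp [klPar]; ring

theorem kl_par (hx : OZ x) : ∃ a b c d e f g h, x = klPar a b c d e f g h := by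
  obtain ⟨h0, ⟨s1, h1⟩, ⟨s2, h2⟩, ⟨s3, h3⟩, ⟨s4, h4⟩⟩ := hx
  choose n hn using h0
  refine ⟨n 3, n 5 - n 6, n 7 - n 6, n 6, 2 * n 0 + n 1 + n 2 + n 4 + n 6 - s1 - s2 - s3,
    s1 + s3 + s4 - n 0 - n 2 - n 3 - n 4 - n 5 - n 7,
    s1 + s2 + s4 - n 0 - n 1 - n 3 - n 4 - n 5 - n 7, s4 - n 5 - n 7, funext fun k => ?_⟩
  fin_cases k <;> simp [klPar] <;>
    linarith [hn 0, hn 1, hn 2, hn 3, hn 4, hn 5, hn 6, hn 7]

theorem kl_int (h : ∀ k, ∃ n : ℤ, x k = n) : OZ x := by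
  choose n hn using h
  refine ⟨fun k => ⟨2 * n k, ?_⟩, ⟨n 0 + n 1 + n 2 + n 3, ?_⟩, ⟨n 0 + n 1 + n 4 + n 5, ?_⟩,
    ⟨n 0 + n 2 + n 4 + n 7, ?_⟩, ⟨n 4 + n 5 + n 6 + n 7, ?_⟩⟩ <;> simp [hn]

theorem oz_zero : OZ 0 := by
  exact kl_int fun _ => ⟨0, by simp⟩

theorem oz_add (hx : OZ x) (hy : OZ y) : OZ (x + y) := by
  obtain ⟨h0, ⟨s1, h1⟩, ⟨s2, h2⟩, ⟨s3, h3⟩, ⟨s4, h4⟩⟩ := hx
  obtain ⟨k0, ⟨t1, k1⟩, ⟨t2, k2⟩, ⟨t3, k3⟩, ⟨t4, k4⟩⟩ := hy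
  choose n hn using h0
  choose m hm using k0
  refine ⟨fun k => ⟨n k + m k, ?_⟩, ⟨s1 + t1, ?_⟩, ⟨s2 + t2, ?_⟩, ⟨s3 + t3, ?_⟩, ⟨s4 + t4, ?_⟩⟩ <;>
    simp only [Pi.add_apply, Int.cast_add]
  · linarith [hn k, hm k]
  all_goals linarith

theorem oz_neg (hx : OZ x) : OZ (-x) := by
  obtain ⟨h0, ⟨s1, h1⟩, ⟨s2, h2⟩, ⟨s3, h3⟩, ⟨s4, h4⟩⟩ := hx
  choose n hn using h0
  refine ⟨fun k => ⟨-n k, ?_⟩, ⟨-s1, ?_⟩, ⟨-s2, ?_⟩, ⟨-s3, ?_⟩, ⟨-s4, ?_⟩⟩ <;>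
    simp only [Pi.neg_apply, Int.cast_neg]
  · linarith [hn k]
  all_goals linarith

theorem oz_smul (n : ℤ) (hx : OZ x) : OZ ((n : ℚ) • x) := by
  obtain ⟨h0, ⟨s1, h1⟩, ⟨s2, h2⟩, ⟨s3, h3⟩, ⟨s4, h4⟩⟩ := hx
  choose m hm using h0
  refine ⟨fun k => ⟨n * m k, ?_⟩, ⟨n * s1, ?_⟩, ⟨n * s2, ?_⟩, ⟨n * s3, ?_⟩, ⟨n * s4, ?_⟩⟩ <;>
    simp only [Pi.smul_apply, Int.cast_mul, smul_eq_mul]
  · linear_combination n * hm k
  · linear_combination n * h1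
  · linear_combination n * h2
  · linear_combination n * h3
  · linear_combination n * h4

theorem oz_conj (hx : OZ x) : OZ (oconj x) := by
  obtain ⟨h0, ⟨s1, h1⟩, ⟨s2, h2⟩, ⟨s3, h3⟩, ⟨s4, h4⟩⟩ := hx
  choose n hn using h0
  refine ⟨fun k => ⟨if k = 0 then n k else -n k, ?_⟩, ⟨n 0 - s1, ?_⟩, ⟨n 0 - s2, ?_⟩,
    ⟨n 0 - s3, ?_⟩, ⟨-s4, ?_⟩⟩
  · rw [oconj]
    split_ifs <;> push_cast <;> linarith [hn k]
  all_goals simp [oconj_eq]; linarith [hn 0]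

theorem kl_mul (a b c d e f g h a' b' c' d' e' f' g' h' : ℤ) : ∃ A B C D E F G H,
    omul (klPar a b c d e f g h) (klPar a' b' c' d' e' f' g' h') = klPar A B C D E F G H := by
  refine ⟨
    a * (a' + c' + e' - f' + g') + b * (a' + c' + g') + c * (-b' - f' - h') + d * (-h') + e *
      (a') + f * (a' + c' + 2 * g') + g * (-a' - b' - 2 * f') + h * (c' + d'),
    a * (b' - c') + b * (b' + c' + e' - f' + g' + h') + c * (a' - d' + 2 * g' - h') + d * (c' +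
      2 * g') + e * (b') + f * (b' + 2 * h') + g * (-b' - 2 * c' - 2 * d' - 2 * h') + h * (-b' +
      c' - 2 * f' + 2 * g'),
    a * (b') + b * (-a' - d') + c * (a' + b' + c' + e' + f' + g' - h') + d * (b' + 2 * f') + e *
      (c') + f * (-c' - 2 * d') + g * (-c' - 2 * h') + h * (c' + 2 * g'),
    a * (c' + d' + h') + b * (d' - g') + c * (-a' + d' - f' - g' + h') + d * (e' - f' - g') + e
      * (d') + f * (c' + d') + g * (b' + c' + d' + 2 * h') + h * (-a' - c' - 2 * g'),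
    a * (-a' - b' - g') + b * (-b' - c' - g' - h') + c * (-a' - c' - 2 * g' + h') + d * (-b' -
      c' - d' - f' - g') + e * (e') + f * (-a' - b' + d' - f' - g' - h') + g * (b' + c' + d' +
      f' - g' + 2 * h') + h * (-2 * c' - d' + f' - 2 * g' - h'),
    a * (f' - g') + b * (-c' + f' - g' - h') + c * (b' + d' + f' - g' + h') + d * (-c' - g') + e
      * (f') + f * (e' - g' - h') + g * (a' + b' + c' + d' + f' + h') + h * (b' - c' + f' - g'),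
    a * (f') + b * (d') + c * (h') + d * (-b' - f') + e * (g') + f * (-a' + d' - g') + g * (a' +
      b' + c' + e' + f' + h') + h * (-c' - g'),
    a * (-b' - d') + b * (a' + f') + c * (-g' + h') + d * (a') + e * (h') + f * (-b' - h') + g *
      (c' + h') + h * (a' + b' + e' + f' - g'),
    funext fun k => ?_⟩
  rw [omul_eq]
  fin_cases k <;> simp [klPar] <;> ring

theorem oz_mul (hx : OZ x) (hy : OZ y) : OZ (omul x y) := by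
  obtain ⟨a, b, c, d, e, f, g, h, rfl⟩ := kl_par hx
  obtain ⟨a', b', c', d', e', f', g', h', rfl⟩ := kl_par hy
  obtain ⟨a, b, c, d, e, f, g, h, k⟩ := kl_mul a b c d e f g h a' b' c' d' e' f' g' h'
  exact k ▸ kl_of a b c d e f g h

theorem oz_ip (hx : OZ x) (hy : OZ y) : ∃ n : ℤ, 2 * oip x y = n := by
  have h := (oz_mul (oz_conj hx) hy).1 0
  rwa [omul_zero_eq, oconj_oconj] at h

theorem oz_norm (hx : OZ x) : ∃ n : ℕ, onorm x = n := by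
  obtain ⟨n, hn⟩ := (oz_mul hx (oz_conj hx)).2.1
  have h1 : onorm x = n := by
    rw [← hn]
    simp [omul_eq, oconj_eq, onorm, Fin.sum_univ_eight]
    ring
  have h2 : 0 ≤ onorm x := Finset.sum_nonneg fun k _ => sq_nonneg _
  rw [h1] at h2 ⊢
  lift n to ℕ using (by exact_mod_cast h2)
  exact ⟨n, by simp⟩

theorem oz_dual (h : ∀ y, OZ y → ∃ n : ℤ, 2 * oip x y = n) : OZ x := by
  refine ⟨fun k => ?_, ?_, ?_, ?_, ?_⟩
  · obtain ⟨n, hn⟩ := h (Pi.single k 1) (kl_int fun j => ⟨if j = k then 1 else 0, by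
      simp [Pi.single_apply]⟩)
    exact ⟨n, by simpa [oip, Pi.single_apply] using hn⟩
  · obtain ⟨n, hn⟩ := h _ (kl_of 1 0 0 0 0 0 0 0)
    simp [oip, klPar, Fin.sum_univ_eight] at hn
    exact ⟨n, by linarith⟩
  · obtain ⟨n, hn⟩ := h _ (kl_of 0 1 0 0 0 0 0 0)
    simp [oip, klPar, Fin.sum_univ_eight] at hn
    exact ⟨n, by linarith⟩
  · obtain ⟨n, hn⟩ := h _ (kl_of 0 0 1 0 0 0 0 0)
    simp [oip, klPar, Fin.sum_univ_eight] at hn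
    exact ⟨n, by linarith⟩
  · obtain ⟨n, hn⟩ := h _ (kl_of 0 0 0 1 0 0 0 0)
    simp [oip, klPar, Fin.sum_univ_eight] at hn
    exact ⟨n, by linarith⟩

theorem kl_code : ∀ a b c e : Fin 2, ∃ d0 d1 d2 d3 d4 d5 d6 d7 : Fin 2,
    (d0 : ℕ) + d1 + d2 + d3 + d4 + d5 + d6 + d7 ≤ 2 ∧ ((d0 : ℕ) + d1 + d2 + d3) % 2 = a ∧
      ((d0 : ℕ) + d1 + d4 + d5) % 2 = b ∧ ((d0 : ℕ) + d2 + d4 + d7) % 2 = c ∧
      ((d4 : ℕ) + d5 + d6 + d7) % 2 = e := by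
  decide

theorem kl_round (t : ℚ) (d : Fin 2) :
    ∃ u : ℤ, (t - ((round t + (d : ℕ) + 2 * u : ℤ) : ℚ)) ^ 2 ≤ 1 / 4 + 3 / 4 * ((d : ℕ) : ℚ) := by
  obtain ⟨h1, h2⟩ := abs_le.1 (abs_sub_round t)
  fin_cases d
  · exact ⟨0, by push_cast; nlinarith⟩
  · rcases le_total (round t : ℚ) t with h | h
    · exact ⟨0, by push_cast; nlinarith⟩
    · exact ⟨-1, by push_cast; nlinarith⟩

theorem oz_cover (x : Fin 8 → ℚ) : ∃ y, OZ y ∧ onorm (x - y) ≤ 7 / 8 := by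
  have par : ∀ n : ℤ, ∃ a : Fin 2, n % 2 = (a : ℕ) := fun n => by
    rcases Int.emod_two_eq_zero_or_one n with h | h
    exacts [⟨0, h⟩, ⟨1, h⟩]
  obtain ⟨n, hn⟩ : ∃ n : Fin 8 → ℤ, ∀ k, n k = round (2 * x k) := ⟨_, fun _ => rfl⟩
  obtain ⟨a, ha⟩ := par (n 0 + n 1 + n 2 + n 3)
  obtain ⟨b, hb⟩ := par (n 0 + n 1 + n 4 + n 5)
  obtain ⟨c, hc⟩ := par (n 0 + n 2 + n 4 + n 7)
  obtain ⟨e, he⟩ := par (n 4 + n 5 + n 6 + n 7)
  obtain ⟨d0, d1, d2, d3, d4, d5, d6, d7, h0, h1, h2, h3, h4⟩ := kl_code a b c e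
  choose u hu using fun k => kl_round (2 * x k) (![d0, d1, d2, d3, d4, d5, d6, d7] k)
  simp only [← hn] at hu
  have ev : ∀ {p q r s : ℤ}, (p + q + r + s) % 2 = 0 →
      ∃ m : ℤ, (p : ℚ) / 2 + q / 2 + r / 2 + s / 2 = m := fun {p q r s} h => by
    obtain ⟨m, hm⟩ := Int.dvd_of_emod_eq_zero h
    have h5 : (p : ℚ) + q + r + s = 2 * m := by exact_mod_cast hm
    exact ⟨m, by linarith⟩
  refine ⟨fun k => ((n k + (![d0, d1, d2, d3, d4, d5, d6, d7] k : ℕ) + 2 * u k : ℤ) : ℚ) / 2,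
    ⟨fun k => ⟨_, mul_div_cancel₀ _ two_ne_zero⟩, ev ?_, ev ?_, ev ?_, ev ?_⟩, ?_⟩
  · simp only [Matrix.cons_val]
    omega
  · simp only [Matrix.cons_val]
    omega
  · simp only [Matrix.cons_val]
    omega
  · simp only [Matrix.cons_val]
    omega
  · refine (Finset.sum_le_sum (g := fun k => (1 / 4 + 3 / 4 *
      ((![d0, d1, d2, d3, d4, d5, d6, d7] k : ℕ) : ℚ)) / 4) fun k _ => ?_).trans ?_
    · rw [Pi.sub_apply]
      linarith [hu k]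
    · have h5 : (((d0 : ℕ) : ℚ) + (d1 : ℕ) + (d2 : ℕ) + (d3 : ℕ) + (d4 : ℕ) + (d5 : ℕ) + (d6 : ℕ) +
        (d7 : ℕ)) ≤ 2 := by exact_mod_cast h0
      simp only [Fin.sum_univ_eight, Matrix.cons_val]
      linarith

theorem lam_rot (h : T ∈ Lam) : rot T ∈ Lam := by
  exact ⟨fun i => h.1 (i + 1), fun i => h.2 (i + 1)⟩

theorem lam_swp (h : T ∈ Lam) : swp T ∈ Lam := by
  refine ⟨fun i => ?_, fun i => ?_⟩ <;> fin_cases i
  exacts [h.1 0, h.1 2, h.1 1, oz_conj (h.2 0), oz_conj (h.2 2), oz_conj (h.2 1)]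

theorem lam_tv (hy : OZ y) (h : T ∈ Lam) : tv y T ∈ Lam := by
  obtain ⟨n1, h1⟩ := h.1 1
  obtain ⟨n2, h2⟩ := h.1 2
  obtain ⟨n3, h3⟩ := oz_ip (h.2 0) hy
  obtain ⟨n4, h4⟩ := oz_norm hy
  refine ⟨fun i => ?_, fun i => ?_⟩ <;> fin_cases i
  · exact h.1 0
  · exact h.1 1
  · refine ⟨n2 + n3 + n1 * n4, ?_⟩
    change dg T 2 + 2 * oip (oc T 0) y + dg T 1 * onorm y = _
    rw [h1, h2, h3, h4]
    push_cast
    rfl
  · change OZ (oc T 0 + dg T 1 • y)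
    rw [h1]
    exact oz_add (h.2 0) (oz_smul n1 hy)
  · exact oz_add (h.2 1) (oz_conj (oz_mul (h.2 2) hy))
  · exact h.2 2

theorem lam_tr {S : Ix → ℚ} (h : T ∈ Lam) (h' : S ∈ Lam) : ∃ n : ℤ, tr T S = n := by
  choose a ha using h.1
  choose b hb using h'.1
  choose c hc using fun i => oz_ip (h.2 i) (h'.2 i)
  refine ⟨∑ i, a i * b i + ∑ i, c i, ?_⟩
  simp [tr_eq, Finset.mul_sum, ha, hb, hc]

theorem lam_dual (h : ∀ S ∈ Lam, ∃ n : ℤ, tr T S = n) : T ∈ Lam := by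
  refine ⟨fun i => ?_, fun i => oz_dual fun y hy => ?_⟩
  · obtain ⟨n, hn⟩ := h (mkJ (Pi.single i 1) 0)
      ⟨fun j => ⟨if j = i then 1 else 0, by simp [Pi.single_apply]⟩, fun _ => oz_zero⟩
    exact ⟨n, by simpa [tr_eq, oip, Pi.single_apply] using hn⟩
  · obtain ⟨n, hn⟩ := h (mkJ 0 (Pi.single i y)) ⟨fun j => ⟨0, by simp⟩, fun j => by
      rw [oc_mkJ, Pi.single_apply]
      split_ifs
      exacts [hy, oz_zero]⟩
    refine ⟨n, ?_⟩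
    rw [← hn, tr_eq, Finset.sum_eq_single i (f := fun j => oip _ _) (fun j _ hj => by
      simp [oip, Pi.single_eq_of_ne hj]) (by simp)]
    simp

end Pool.Agent.E7.Kim
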