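import Pool.Agent.Lib.MP_7e5527_ag.E7.KJ
import Pool.Agent.Lib.MP_7e5527_ag.E7.KL

/-! The cone and the points of rank one. -/

noncomputable section

namespace Pool.Agent.E7.Kim

open Complex
open scoped Classical

variable {Y : Ix → ℝ} {Z : Ix → ℂ} {T : Ix → ℚ} {y : Fin 8 → ℚ}

theorem kc_tvd {R : Type} [CommRing R] (y : Fin 8 → R) (Z : Ix → R) : dg (tv y Z) 0 = dg Z 0 ∧
    dg (tv y Z) 1 = dg Z 1 ∧ oc (tv y Z) 2 = oc Z 2 ∧ oc (tv y Z) 0 = oc Z 0 + dg Z 1 • y :=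
  ⟨rfl, rfl, rfl, rfl⟩

theorem kc_rs {R : Type} [CommRing R] (Z : Ix → R) : dg (rot (swp Z)) 0 = dg Z 2 ∧
    dg (rot (swp Z)) 1 = dg Z 1 ∧ oc (rot (swp Z)) 2 = oconj (oc Z 0) :=
  ⟨rfl, rfl, rfl⟩

theorem kc_sh2 {R : Type} [CommRing R] (Z : Ix → R) :
    dg (sharp Z) 2 = dg Z 0 * dg Z 1 - onorm (oc Z 2) := rfl

theorem kc_nonneg (x : Fin 8 → ℝ) : 0 ≤ onorm x := Finset.sum_nonneg fun _ _ => sq_nonneg _

theorem kc_pos (h : Y ∈ Om) : (0 < dg Y 1 ∧ 0 < dg Y 2) ∧ 0 < dg (sharp Y) 0 ∧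
    0 < dg (sharp Y) 1 := by
  obtain ⟨h0, h2, hn⟩ := h
  have e2 : dg (sharp Y) 2 = dg Y 0 * dg Y 1 - onorm (oc Y 2) := rfl
  have e0 : dg (sharp Y) 0 = dg Y 1 * dg Y 2 - onorm (oc Y 0) := rfl
  have f0 : dg (sharp Y) 1 * dg (sharp Y) 2 - onorm (oc (sharp Y) 0) = nrm Y * dg Y 0 :=
    congrFun (sharp_sharp Y) (.inl 0)
  have f1 : dg (sharp Y) 2 * dg (sharp Y) 0 - onorm (oc (sharp Y) 1) = nrm Y * dg Y 1 :=
    congrFun (sharp_sharp Y) (.inl 1)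
  have h1 : 0 < dg Y 1 := by
    refine (pos_iff_pos_of_mul_pos (a := dg Y 0) ?_).mp h0
    linarith [kc_nonneg (oc Y 2)]
  have s1 : 0 < dg (sharp Y) 1 := by
    refine (pos_iff_pos_of_mul_pos (a := dg (sharp Y) 2) ?_).mp h2
    linarith [kc_nonneg (oc (sharp Y) 0), mul_pos hn h0]
  have s0 : 0 < dg (sharp Y) 0 := by
    refine (pos_iff_pos_of_mul_pos (a := dg (sharp Y) 2) ?_).mp h2
    linarith [kc_nonneg (oc (sharp Y) 1), mul_pos hn h1]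
  refine ⟨⟨h1, ?_⟩, s0, s1⟩
  refine (pos_iff_pos_of_mul_pos (a := dg Y 1) ?_).mp h1
  linarith [kc_nonneg (oc Y 0)]

theorem om_dg (h : Y ∈ Om) (i : Fin 3) : 0 < dg Y i := by
  fin_cases i
  exacts [h.1, (kc_pos h).1.1, (kc_pos h).1.2]

theorem om_sharp (h : Y ∈ Om) (i : Fin 3) : 0 < dg (sharp Y) i := by
  fin_cases i
  exacts [(kc_pos h).2.1, (kc_pos h).2.2, h.2.1]

theorem om_rot (h : Y ∈ Om) : rot Y ∈ Om := by
  refine ⟨om_dg h 1, ?_, ?_⟩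
  · rw [sharp_rot]
    exact om_sharp h 0
  · rw [nrm_rot]
    exact h.2.2

theorem om_swp (h : Y ∈ Om) : swp Y ∈ Om := by
  refine ⟨h.1, ?_, ?_⟩
  · rw [sharp_swp]
    exact om_sharp h 1
  · rw [nrm_swp]
    exact h.2.2

theorem om_tv (u : Fin 8 → ℝ) (h : Y ∈ Om) : tv u Y ∈ Om := by
  obtain ⟨e0, e1, e2, -⟩ := kc_tvd u Y
  refine ⟨?_, ?_, ?_⟩
  · rw [e0]
    exact h.1
  · rw [kc_sh2, e0, e1, e2, ← kc_sh2]
    exact h.2.1
  · rw [nrm_tv]
    exact h.2.2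

theorem om_tw (u : Fin 8 → ℝ) (h : Y ∈ Om) : tw u Y ∈ Om := by
  exact om_swp (om_tv _ (om_swp h))

theorem om_sub (h : Y ∈ Om) : ∃ ε > (0 : ℝ), Y - ε • mkJ 1 0 ∈ Om := by
  have e1 : ∀ (ε : ℝ) i, dg (Y - ε • mkJ 1 0) i = dg Y i - ε := fun ε i => by
    simp [dg, mkJ]
  have e2 : ∀ (ε : ℝ) i, oc (Y - ε • mkJ 1 0) i = oc Y i := fun ε i => by
    funext k
    simp [oc, mkJ]
  have key : ∀ f : ℝ → ℝ, Continuous f → 0 < f 0 → ∀ᶠ ε in nhdsWithin 0 (Set.Ioi 0), 0 < f ε :=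
    fun f hf h0 => (hf.continuousAt.eventually (lt_mem_nhds h0)).filter_mono nhdsWithin_le_nhds
  have h1 := key (fun ε => dg (Y - ε • mkJ 1 0) 0) (by simp only [e1]; fun_prop)
    (by simpa using h.1)
  have h2 := key (fun ε => dg (sharp (Y - ε • mkJ 1 0)) 2)
    (by simp only [dg_sharp, e1, e2]; fun_prop) (by simpa using h.2.1)
  have h3 := key (fun ε => nrm (Y - ε • mkJ 1 0)) (by simp only [nrm, e1, e2]; fun_prop)
    (by simpa using h.2.2)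
  obtain ⟨ε, ⟨⟨h4, h5⟩, h6⟩, h7⟩ := (((h1.and h2).and h3).and self_mem_nhdsWithin).exists
  exact ⟨ε, h7, h4, h5, h6⟩

theorem hh_rot (h : Z ∈ HH) : rot Z ∈ HH := by
  have e : (fun l => (rot Z l).im) = rot fun l => (Z l).im := by
    funext l
    rcases l with i | ⟨i, k⟩ <;> rfl
  change (fun l => (rot Z l).im) ∈ Om
  rw [e]
  exact om_rot h

theorem kc_im_oconj (x : Fin 8 → ℂ) (k : Fin 8) :
    (oconj x k).im = oconj (fun k => (x k).im) k := by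
  unfold oconj
  split_ifs <;> simp

theorem hh_swp (h : Z ∈ HH) : swp Z ∈ HH := by
  have e : (fun l => (swp Z l).im) = swp fun l => (Z l).im := by
    funext l
    rcases l with i | ⟨i, k⟩
    · fin_cases i <;> rfl
    · fin_cases i <;> exact kc_im_oconj _ k
  change (fun l => (swp Z l).im) ∈ Om
  rw [e]
  exact om_swp h

theorem kc_im_omul (x : Fin 8 → ℂ) (u : Fin 8 → ℝ) :
    (fun k => (omul x (fun k => (u k : ℂ)) k).im) = omul (fun k => (x k).im) u := by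
  funext k
  rw [omul_eq, omul_eq]
  fin_cases k <;> simp

theorem kc_hh_tv (u : Fin 8 → ℝ) (h : Z ∈ HH) : tv (fun k => (u k : ℂ)) Z ∈ HH := by
  have e : (fun l => (tv (fun k => (u k : ℂ)) Z l).im) = tv u fun l => (Z l).im := by
    funext l
    rcases l with i | ⟨i, k⟩
    · fin_cases i
      · rfl
      · rfl
      · change (dg Z 2 + 2 * oip (oc Z 0) (fun k => (u k : ℂ)) +
          dg Z 1 * onorm fun k => (u k : ℂ)).im =
          (dg Z 2).im + 2 * oip (fun k => (oc Z 0 k).im) u + (dg Z 1).im * onorm u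
        have e1 : (onorm fun k => (u k : ℂ)) = (onorm u : ℝ) := by simp [onorm]
        rw [e1]
        simp [oip]
    · fin_cases i
      · change (oc Z 0 k + dg Z 1 * (u k : ℂ)).im = (oc Z 0 k).im + (dg Z 1).im * u k
        simp
      · change (oc Z 1 k + oconj (omul (oc Z 2) fun k => (u k : ℂ)) k).im =
          (oc Z 1 k).im + oconj (omul (fun k => (oc Z 2 k).im) u) k
        rw [add_im, kc_im_oconj, kc_im_omul]
      · rfl
  change (fun l => (tv (fun k => (u k : ℂ)) Z l).im) ∈ Om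
  rw [e]
  exact om_tv u h

theorem hh_tw (y : Fin 8 → ℚ) (h : Z ∈ HH) : tw (oC y) Z ∈ HH := by
  have e : oconj (oC y) = fun k => (((oconj y k : ℚ) : ℝ) : ℂ) := by
    funext k
    unfold oconj oC
    split_ifs <;> simp
  unfold tw
  rw [e]
  exact hh_swp (kc_hh_tv _ (hh_swp h))

theorem hh_im (h : Z ∈ HH) (i : Fin 3) : 0 < (dg Z i).im := by
  exact om_dg h i

theorem psd_dg (h : Psd T) (i : Fin 3) : 0 ≤ dg T i := by
  have key : ∀ d : Fin 3 → ℝ, (∀ j, 0 < d j) → 0 ≤ ∑ j, ((dg T j : ℚ) : ℝ) * d j := by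
    intro d hd
    have h1 := h (mkJ d 0) ⟨hd 0, by
      simpa [dg_sharp, onorm] using mul_pos (hd 0) (hd 1), by
      simpa [nrm, onorm, omul_eq] using mul_pos (mul_pos (hd 0) (hd 1)) (hd 2)⟩
    rw [tr_eq] at h1
    simp only [oc_mkJ, dg_mkJ, oip, Pi.zero_apply, mul_zero, Finset.sum_const_zero,
      add_zero] at h1
    exact h1
  have h2 : ∀ ε : ℝ, 0 < ε → 0 ≤ ((dg T i : ℚ) : ℝ) + ε * ∑ j, ((dg T j : ℚ) : ℝ) := by
    intro ε hε
    have h3 := key (fun j => (if j = i then 1 else 0) + ε) fun j => by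
      split_ifs <;> linarith
    simpa [mul_add, Finset.sum_add_distrib, ← Finset.sum_mul, mul_comm ε] using h3
  have h3 : Filter.Tendsto (fun ε : ℝ => ((dg T i : ℚ) : ℝ) + ε * ∑ j, ((dg T j : ℚ) : ℝ))
      (nhdsWithin 0 (Set.Ioi 0)) (nhds ((dg T i : ℚ) : ℝ)) := by
    refine Filter.Tendsto.mono_left (Continuous.tendsto' (by fun_prop) _ _ (by simp))
      nhdsWithin_le_nhds
  exact_mod_cast ge_of_tendsto h3 (eventually_nhdsWithin_of_forall h2)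

theorem kc_psd_rot (h : Psd T) : Psd (rot T) := by
  intro Y hY
  rw [toR_rot, ← rot_rot_rot Y, tr_rot]
  exact h _ (om_rot (om_rot hY))

theorem kc_psd_swp (h : Psd T) : Psd (swp T) := by
  intro Y hY
  rw [toR_swp, tr_swp]
  exact h _ (om_swp hY)

theorem kc_psd_tv (y : Fin 8 → ℚ) (h : Psd T) : Psd (tv y T) := by
  intro Y hY
  rw [toR_tv, tr_tv]
  exact h _ (om_tw _ hY)

theorem kc_map0 {f : (Ix → ℚ) → Ix → ℚ} (h : ∀ (c : ℚ) T, f (c • T) = c • f T) : f 0 = 0 := by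
  simpa using h 0 0

theorem kc_sh_rot (h : sharp T = 0) : sharp (rot T) = 0 := by
  rw [sharp_rot, h, kc_map0 rot_smul]

theorem kc_sh_swp (h : sharp T = 0) : sharp (swp T) = 0 := by
  rw [sharp_swp, h, kc_map0 swp_smul]

theorem kc_sh_tv (y : Fin 8 → ℚ) (h : sharp T = 0) : sharp (tv y T) = 0 := by
  rw [sharp_tv, h, tw, kc_map0 swp_smul, kc_map0 (tv_smul _), kc_map0 swp_smul]

theorem kc_step (h : sharp T = 0) (h1 : dg T 1 ≠ 0) :
    ∃ y, dg (tv y T) 2 = 0 ∧ oc (tv y T) 0 = 0 ∧ oc (tv y T) 1 = 0 := by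
  refine ⟨-((dg T 1)⁻¹ • oc T 0), ?_⟩
  have e0 : oc (tv (-((dg T 1)⁻¹ • oc T 0)) T) 0 = 0 := by
    rw [(kc_tvd _ _).2.2.2, smul_neg, smul_smul, mul_inv_cancel₀ h1, one_smul, add_neg_cancel]
  have e1 : dg (tv (-((dg T 1)⁻¹ • oc T 0)) T) 1 = dg T 1 := (kc_tvd _ _).2.1
  have hs := kc_sh_tv (-((dg T 1)⁻¹ • oc T 0)) h
  generalize tv (-((dg T 1)⁻¹ • oc T 0)) T = S at *
  have f0 : dg S 1 * dg S 2 - onorm (oc S 0) = 0 := congrFun hs (.inl 0)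
  have f1 : oconj (omul (oc S 2) (oc S 0)) - dg S 1 • oc S 1 = 0 :=
    funext fun k => congrFun hs (.inr (1, k))
  have g0 : omul (oc S 2) (0 : Fin 8 → ℚ) = 0 := by simpa using omul_smul 0 (oc S 2) 0
  have g1 : oconj (0 : Fin 8 → ℚ) = 0 := by simpa using oconj_smul (0 : ℚ) 0
  rw [e0, e1] at f0 f1
  rw [g0, g1, zero_sub, neg_eq_zero, smul_eq_zero] at f1
  refine ⟨?_, e0, f1.resolve_left h1⟩
  simpa [onorm, h1] using f0

theorem kc_psd_one (h : sharp T = 0) (h1 : 0 < dg T 1) : Psd T := by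
  obtain ⟨y, a2, b0, -⟩ := kc_step h h1.ne'
  have hs := kc_sh_rot (kc_sh_swp (kc_sh_tv y h))
  have a1 : dg (rot (swp (tv y T))) 1 = dg T 1 := by rw [(kc_rs _).2.1, (kc_tvd _ _).2.1]
  obtain ⟨z, c2, d0, d1⟩ := kc_step hs (by rw [a1]; exact h1.ne')
  have c0 : dg (tv z (rot (swp (tv y T)))) 0 = 0 := by rw [(kc_tvd _ _).1, (kc_rs _).1, a2]
  have c1 : dg (tv z (rot (swp (tv y T)))) 1 = dg T 1 := by rw [(kc_tvd _ _).2.1, a1]
  have d2 : oc (tv z (rot (swp (tv y T)))) 2 = 0 := by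
    rw [(kc_tvd _ _).2.2.1, (kc_rs _).2.2, b0]
    simpa using oconj_smul (0 : ℚ) 0
  have h2 : Psd (tv z (rot (swp (tv y T)))) := by
    generalize tv z (rot (swp (tv y T))) = S at *
    intro Y hY
    have e1 : ∀ i, dg (toR ℝ S) i = ((dg S i : ℚ) : ℝ) := fun _ => rfl
    have e2 : ∀ i, oc S i = 0 → oip (oc (toR ℝ S) i) (oc Y i) = 0 := fun i hi =>
      Finset.sum_eq_zero fun k _ => by
        have h3 : oc (toR ℝ S) i k = ((oc S i k : ℚ) : ℝ) := rfl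
        rw [h3, hi]
        simp
    rw [tr_eq, Fin.sum_univ_three, Fin.sum_univ_three, e1, e1, e1, c0, c1, c2, e2 0 d0, e2 1 d1,
      e2 2 d2]
    have h3 : (0 : ℝ) < ((dg T 1 : ℚ) : ℝ) := by exact_mod_cast h1
    have h4 := mul_pos h3 (om_dg hY 1)
    simpa using h4.le
  have h3 := kc_psd_tv (-y) (kc_psd_swp (kc_psd_rot (kc_psd_rot (kc_psd_tv (-z) h2))))
  rwa [tv_neg, rot_rot_rot, swp_swp, tv_neg] at h3

theorem psd_of_sharp (h : sharp T = 0) (h0 : ∀ i, 0 ≤ dg T i) : Psd T := by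
  rcases (h0 1).lt_or_eq with h1 | h1
  · exact kc_psd_one h h1
  rcases (h0 2).lt_or_eq with h2 | h2
  · have h3 := kc_psd_rot (kc_psd_rot (kc_psd_one (kc_sh_rot h) h2))
    rwa [rot_rot_rot] at h3
  rcases (h0 0).lt_or_eq with h3 | h3
  · have h4 := kc_psd_rot (kc_psd_one (kc_sh_rot (kc_sh_rot h)) h3)
    rwa [rot_rot_rot] at h4
  have hd : ∀ i, dg T i = 0 := fun i => by
    fin_cases i
    exacts [h3.symm, h1.symm, h2.symm]
  have hT : T = 0 := by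
    refine ext_J hd fun i => funext fun k => ?_
    have h4 : dg T (i + 1) * dg T (i + 2) - onorm (oc T i) = 0 := congrFun h (.inl i)
    rw [hd, zero_mul, zero_sub, neg_eq_zero, onorm,
      Finset.sum_eq_zero_iff_of_nonneg fun _ _ => sq_nonneg _] at h4
    exact pow_eq_zero_iff two_ne_zero |>.mp (h4 k (Finset.mem_univ k))
  intro Y _
  rw [hT]
  simp [tr, dg, oc, toR]

theorem kc_inv {f g : (Ix → ℚ) → Ix → ℚ} (hgf : ∀ T, g (f T) = T)
    (hf : ∀ (c : ℚ) T, f (c • T) = c • f T) (hg : g 0 = 0)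
    (l1 : ∀ T, T ∈ Lam → f T ∈ Lam) (l2 : ∀ T, T ∈ Lam → g T ∈ Lam)
    (p1 : ∀ T, Psd T → Psd (f T)) (p2 : ∀ T, Psd T → Psd (g T))
    (s1 : ∀ T, sharp T = 0 → sharp (f T) = 0) (s2 : ∀ T, sharp T = 0 → sharp (g T) = 0)
    (T : Ix → ℚ) : kc (f T) = kc T := by
  have e0 : f T = 0 ↔ T = 0 :=
    ⟨fun h => by rw [← hgf T, h, hg], fun h => by rw [h, kc_map0 hf]⟩
  have e1 : ∀ T, f T ∈ Lam ↔ T ∈ Lam := fun T => ⟨fun h => hgf T ▸ l2 _ h, l1 T⟩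
  have e2 : R1 (f T) ↔ R1 T :=
    ⟨fun h => ⟨(e1 T).mp h.1, hgf T ▸ p2 _ h.2.1, hgf T ▸ s2 _ h.2.2⟩,
      fun h => ⟨l1 T h.1, p1 T h.2.1, s1 T h.2.2⟩⟩
  have e3 : s3 (f T) = s3 T := by
    unfold s3
    simp only [← hf, e1]
  unfold kc
  simp only [e0, e2, e3]

theorem kc_rot (T : Ix → ℚ) : kc (rot T) = kc T := by
  exact kc_inv (g := fun T => rot (rot T)) rot_rot_rot rot_smul
    (by simp only [kc_map0 rot_smul]) (fun _ => lam_rot) (fun _ h => lam_rot (lam_rot h))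
    (fun _ => kc_psd_rot) (fun _ h => kc_psd_rot (kc_psd_rot h)) (fun _ => kc_sh_rot)
    (fun _ h => kc_sh_rot (kc_sh_rot h)) T

theorem kc_swp (T : Ix → ℚ) : kc (swp T) = kc T := by
  exact kc_inv swp_swp swp_smul (kc_map0 swp_smul) (fun _ => lam_swp) (fun _ => lam_swp)
    (fun _ => kc_psd_swp) (fun _ => kc_psd_swp) (fun _ => kc_sh_swp) (fun _ => kc_sh_swp) T

theorem kc_tv (hy : OZ y) (T : Ix → ℚ) : kc (tv y T) = kc T := by
  exact kc_inv (tv_neg y) (tv_smul y) (kc_map0 (tv_smul _)) (fun _ => lam_tv hy)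
    (fun _ => lam_tv (oz_neg hy)) (fun _ => kc_psd_tv y) (fun _ => kc_psd_tv (-y))
    (fun _ => kc_sh_tv y) (fun _ => kc_sh_tv (-y)) T

end Pool.Agent.E7.Kim
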