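import Pool.Agent.Lib.MP_7e5527_ag.E7.Defs

/-! Definitions for the modular form of weight four. -/

noncomputable section

namespace Pool.Agent.E7.Kim

open Complex
open scoped Classical

section Alg

variable {R : Type} [CommRing R]

/-- The matrix with given diagonal and off diagonal entries. -/
def mkJ (d : Fin 3 → R) (x : Fin 3 → Fin 8 → R) : Ix → R := Sum.elim d fun a => x a.1 a.2

/-- The inner product of octonions. -/
def oip (x y : Fin 8 → R) : R := ∑ k, x k * y k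

/-- Cyclic permutation of the indices. -/
def rot (Z : Ix → R) : Ix → R := mkJ (fun i => dg Z (i + 1)) fun i => oc Z (i + 1)

/-- Exchange of the indices `1` and `2`. -/
def swp (Z : Ix → R) : Ix → R :=
  mkJ ![dg Z 0, dg Z 2, dg Z 1] ![oconj (oc Z 0), oconj (oc Z 2), oconj (oc Z 1)]

/-- The transvection that adds `y` times the index `1` to the index `2`. -/
def tv (y : Fin 8 → R) (Z : Ix → R) : Ix → R :=
  mkJ ![dg Z 0, dg Z 1, dg Z 2 + 2 * oip (oc Z 0) y + dg Z 1 * onorm y]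
    ![oc Z 0 + dg Z 1 • y, oc Z 1 + oconj (omul (oc Z 2) y), oc Z 2]

/-- The adjoint of `tv y`. -/
def tw (y : Fin 8 → R) (Z : Ix → R) : Ix → R := swp (tv (oconj y) (swp Z))

end Alg

/-- The one variable inversion at the index `0`. -/
def sw0 (Z : Ix → ℂ) : Ix → ℂ :=
  mkJ ![-1 / dg Z 0, dg Z 1 - onorm (oc Z 2) / dg Z 0, dg Z 2 - onorm (oc Z 1) / dg Z 0]
    ![oc Z 0 - (dg Z 0)⁻¹ • oconj (omul (oc Z 1) (oc Z 2)), (dg Z 0)⁻¹ • oc Z 1,
      (dg Z 0)⁻¹ • oc Z 2]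

/-- `e(z) = exp (2 π i z)`. -/
def ee (z : ℂ) : ℂ := cexp (2 * Real.pi * I * z)

/-- A rational octonion seen over `ℂ`. -/
def oC (x : Fin 8 → ℚ) : Fin 8 → ℂ := fun k => (x k : ℂ)

/-- The Jacobi theta series of the lattice of integral octonions. -/
def thE (τ : ℂ) (u : Fin 8 → ℂ) : ℂ :=
  ∑' x : {x // OZ x}, ee ((onorm x.1 : ℚ) * τ + 2 * oip (oC x.1) u)

/-- The index raising operator. -/
def vm (θ : ℂ → (Fin 8 → ℂ) → ℂ) (m : ℕ) (τ : ℂ) (u : Fin 8 → ℂ) : ℂ :=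
  ∑ p ∈ m.divisorsAntidiagonal, (p.1 : ℂ) ^ 3 / p.2 *
    ∑ b ∈ Finset.range p.2, θ ((p.1 * τ + b) / p.2) ((p.1 : ℂ) • u)

/-- The sum of the cubes of the divisors of `T` in the lattice. -/
def s3 (T : Ix → ℚ) : ℕ := ∑ᶠ d : ℕ, if 0 < d ∧ (d : ℚ)⁻¹ • T ∈ Lam then d ^ 3 else 0

/-- Semidefinite lattice points of rank at most one. -/
def R1 (T : Ix → ℚ) : Prop := T ∈ Lam ∧ Psd T ∧ sharp T = 0

/-- The Fourier coefficients. -/
def kc (T : Ix → ℚ) : ℂ := if T = 0 then 1 else if R1 T then 240 * (s3 T : ℂ) else 0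

/-- The terms of the series. -/
def term (Z : Ix → ℂ) (T : Ix → ℚ) : ℂ := kc T * ee (tr (toR ℂ T) Z)

/-- The modular form of weight four. -/
def Th (Z : Ix → ℂ) : ℂ := ∑' T, term Z T

/-- The lower two by two block. -/
def low (T : Ix → ℚ) : ℚ × ℚ × (Fin 8 → ℚ) := (dg T 1, dg T 2, oc T 0)

/-- The part of the series with a given lower block. -/
def Thl (b : ℚ × ℚ × (Fin 8 → ℚ)) (Z : Ix → ℂ) : ℂ := ∑' T : {T // low T = b}, term Z T.1

/-- The part with lower block `b` has weight four for the one variable inversion. -/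
def Inv (b : ℚ × ℚ × (Fin 8 → ℚ)) : Prop := ∀ Z ∈ HH, Thl b (sw0 Z) = dg Z 0 ^ 4 * Thl b Z

end Pool.Agent.E7.Kim
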