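import Pool.Agent.Lib.MP_7e5527_ag.E7.KW

/-! The inversion is the product of three one variable inversions. -/

noncomputable section

namespace Pool.Agent.E7.Kim

open Complex
open scoped Classical

variable {Z : Ix → ℂ}

theorem ki_step (a b c : ℂ) (x y w : Fin 8 → ℂ) : rot (sw0 (mkJ ![a, b, c] ![x, y, w])) =
    mkJ ![b - onorm w / a, c - onorm y / a, -1 / a]
      ![a⁻¹ • y, a⁻¹ • w, x - a⁻¹ • oconj (omul y w)] := by
  refine ext_J (fun i => ?_) fun i => ?_ <;> fin_cases i <;> rfl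

theorem ki_eta (Z : Ix → ℂ) : Z = mkJ ![dg Z 0, dg Z 1, dg Z 2] ![oc Z 0, oc Z 1, oc Z 2] := by
  refine ext_J (fun i => ?_) fun i => ?_ <;> fin_cases i <;> rfl

theorem ki_congr {a b c a' b' c' : ℂ} {x y w x' y' w' : Fin 8 → ℂ} (h1 : a = a') (h2 : b = b')
    (h3 : c = c') (h4 : x = x') (h5 : y = y') (h6 : w = w') :
    mkJ ![a, b, c] ![x, y, w] = mkJ ![a', b', c'] ![x', y', w'] := by
  rw [h1, h2, h3, h4, h5, h6]

theorem ki_z1 (ha : dg Z 0 ≠ 0) : rot (sw0 Z) =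
    mkJ ![dg (sharp Z) 2 / dg Z 0, dg (sharp Z) 1 / dg Z 0, -1 / dg Z 0]
      ![(dg Z 0)⁻¹ • oc Z 1, (dg Z 0)⁻¹ • oc Z 2, (-(dg Z 0)⁻¹) • oc (sharp Z) 0] := by
  have h2 : dg (sharp Z) 2 = dg Z 0 * dg Z 1 - onorm (oc Z 2) := rfl
  have h1 : dg (sharp Z) 1 = dg Z 2 * dg Z 0 - onorm (oc Z 1) := rfl
  have h0 : oc (sharp Z) 0 = oconj (omul (oc Z 1) (oc Z 2)) - dg Z 0 • oc Z 0 := rfl
  rw [h0, h1, h2]
  conv_lhs => rw [ki_eta Z, ki_step]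
  refine ki_congr ?_ ?_ rfl rfl rfl ?_
  · field_simp
  · field_simp
  · match_scalars <;> field_simp

theorem ki_ss0 (Z : Ix → ℂ) :
    onorm (oc (sharp Z) 0) = dg (sharp Z) 1 * dg (sharp Z) 2 - nrm Z * dg Z 0 := by
  have h : dg (sharp Z) 1 * dg (sharp Z) 2 - onorm (oc (sharp Z) 0) = nrm Z * dg Z 0 :=
    congrFun (sharp_sharp Z) (.inl 0)
  linear_combination -h

theorem ki_ss1 (Z : Ix → ℂ) :
    onorm (oc (sharp Z) 1) = dg (sharp Z) 2 * dg (sharp Z) 0 - nrm Z * dg Z 1 := by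
  have h : dg (sharp Z) 2 * dg (sharp Z) 0 - onorm (oc (sharp Z) 1) = nrm Z * dg Z 1 :=
    congrFun (sharp_sharp Z) (.inl 1)
  linear_combination -h

theorem ki_ss2 (Z : Ix → ℂ) : oconj (omul (oc (sharp Z) 0) (oc (sharp Z) 1)) =
    nrm Z • oc Z 2 + dg (sharp Z) 2 • oc (sharp Z) 2 := by
  have h : oconj (omul (oc (sharp Z) 0) (oc (sharp Z) 1)) - dg (sharp Z) 2 • oc (sharp Z) 2 =
      nrm Z • oc Z 2 := congrArg (fun W => oc W 2) (sharp_sharp Z)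
  rw [← h, sub_add_cancel]

theorem ki_wx (Z : Ix → ℂ) : oconj (omul (oc Z 2) (oc (sharp Z) 0)) =
    (-dg (sharp Z) 2) • oc Z 1 - dg Z 0 • oc (sharp Z) 1 := by
  have h2 : dg (sharp Z) 2 = dg Z 0 * dg Z 1 - onorm (oc Z 2) := rfl
  have h0 : oc (sharp Z) 0 = oconj (omul (oc Z 1) (oc Z 2)) - dg Z 0 • oc Z 0 := rfl
  have h1 : oc (sharp Z) 1 = oconj (omul (oc Z 2) (oc Z 0)) - dg Z 1 • oc Z 1 := rfl
  rw [h0, h1, h2, omul_sub, oconj_sub, omul_smul, oconj_smul, oconj_omul, oconj_oconj, alt_right]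
  module

theorem ki_z2 (ha : dg Z 0 ≠ 0) (hp : dg (sharp Z) 2 ≠ 0) : rot (sw0 (rot (sw0 Z))) =
    mkJ ![nrm Z / dg (sharp Z) 2, -dg Z 1 / dg (sharp Z) 2, -dg Z 0 / dg (sharp Z) 2]
      ![(dg (sharp Z) 2)⁻¹ • oc Z 2, (-(dg (sharp Z) 2)⁻¹) • oc (sharp Z) 0,
        (-(dg (sharp Z) 2)⁻¹) • oc (sharp Z) 1] := by
  have h2 : onorm (oc Z 2) = dg Z 0 * dg Z 1 - dg (sharp Z) 2 := by
    rw [show dg (sharp Z) 2 = dg Z 0 * dg Z 1 - onorm (oc Z 2) from rfl]; ring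
  rw [ki_z1 ha, ki_step, onorm_smul, onorm_smul, smul_omul, omul_smul, oconj_smul, oconj_smul,
    ki_wx, ki_ss0, h2]
  refine ki_congr ?_ ?_ ?_ ?_ ?_ ?_
  · field_simp; ring
  · field_simp; ring
  · field_simp
  · match_scalars; field_simp
  · match_scalars; field_simp
  · match_scalars <;> field_simp; ring

theorem ki_ne (h : Z ∈ HH) : dg Z 0 ≠ 0 := fun e => by
  have := hh_im h 0
  rw [e] at this
  exact lt_irrefl _ this

theorem ki_p (h : Z ∈ HH) : dg (sharp Z) 2 ≠ 0 := by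
  have h1 := ki_ne (hh_rot (hh_sw0 h))
  rw [ki_z1 (ki_ne h)] at h1
  exact (div_ne_zero_iff.1 h1).1

theorem ki_n (h : Z ∈ HH) : nrm Z ≠ 0 := by
  have h1 := ki_ne (hh_rot (hh_sw0 (hh_rot (hh_sw0 h))))
  rw [ki_z2 (ki_ne h) (ki_p h)] at h1
  exact (div_ne_zero_iff.1 h1).1

theorem nrm_eq_prod (h : Z ∈ HH) :
    dg Z 0 * dg (rot (sw0 Z)) 0 * dg (rot (sw0 (rot (sw0 Z)))) 0 = nrm Z := by
  have ha := ki_ne h
  have hp := ki_p h
  rw [ki_z2 ha hp, ki_z1 ha]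
  change dg Z 0 * (dg (sharp Z) 2 / dg Z 0) * (nrm Z / dg (sharp Z) 2) = nrm Z
  field_simp

theorem inv_eq (h : Z ∈ HH) : rot (sw0 (rot (sw0 (rot (sw0 Z))))) = inv Z := by
  have ha := ki_ne h
  have hp := ki_p h
  have hn := ki_n h
  have e : inv Z = mkJ ![-(nrm Z)⁻¹ * dg (sharp Z) 0, -(nrm Z)⁻¹ * dg (sharp Z) 1,
      -(nrm Z)⁻¹ * dg (sharp Z) 2] ![(-(nrm Z)⁻¹) • oc (sharp Z) 0, (-(nrm Z)⁻¹) • oc (sharp Z) 1,
      (-(nrm Z)⁻¹) • oc (sharp Z) 2] := ki_eta _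
  rw [e, ki_z2 ha hp, ki_step, onorm_smul, onorm_smul, smul_omul, omul_smul, oconj_smul, oconj_smul,
    ki_ss0, ki_ss1, ki_ss2]
  refine ki_congr ?_ ?_ ?_ ?_ ?_ ?_
  · field_simp; ring
  · field_simp; ring
  · field_simp
  · match_scalars; field_simp
  · match_scalars; field_simp
  · match_scalars <;> field_simp; ring

end Pool.Agent.E7.Kim
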