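import Pool.Agent.Lib.MP_7e5527_ag.E7.KO

/-! Identities in the Jordan algebra. -/

noncomputable section

namespace Pool.Agent.E7.Kim

open Complex
open scoped Classical

variable {R : Type} [CommRing R]

/-- The matrix with six given entries. -/
def kj_J (a b c : R) (x y z : Fin 8 → R) : Ix → R := mkJ ![a, b, c] ![x, y, z]

theorem kj_ex (Z : Ix → R) : ∃ a b c x y z, Z = kj_J a b c x y z :=
  ⟨dg Z 0, dg Z 1, dg Z 2, oc Z 0, oc Z 1, oc Z 2,
    ext_J (fun i => by fin_cases i <;> rfl) fun i => by fin_cases i <;> rfl⟩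

omit [CommRing R] in
theorem kj_congr {a b c a' b' c' : R} {x y z x' y' z' : Fin 8 → R} (h1 : a = a') (h2 : b = b')
    (h3 : c = c') (h4 : x = x') (h5 : y = y') (h6 : z = z') :
    kj_J a b c x y z = kj_J a' b' c' x' y' z' := by
  rw [h1, h2, h3, h4, h5, h6]

theorem kj_add_oip (x y z : Fin 8 → R) : oip (x + y) z = oip x z + oip y z := by
  rw [oip_comm, oip_add, oip_comm z, oip_comm z]

theorem kj_sub_oip (x y z : Fin 8 → R) : oip (x - y) z = oip x z - oip y z := by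
  rw [oip_comm, oip_sub, oip_comm z, oip_comm z]

theorem kj_smul_oip (c : R) (x y : Fin 8 → R) : oip (c • x) y = c * oip x y := by
  rw [oip_comm, oip_smul, oip_comm]

theorem kj_oip_neg (x y : Fin 8 → R) : oip x (-y) = -oip x y := by
  rw [← neg_one_smul R y, oip_smul, neg_one_mul]

theorem kj_onorm_neg (x : Fin 8 → R) : onorm (-x) = onorm x := by
  rw [← neg_one_smul R x, onorm_smul, neg_one_sq, one_mul]

theorem kj_cl (x y : Fin 8 → R) : oconj (omul (oconj (omul x y)) x) = onorm x • y := by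
  rw [oconj_omul (oconj _), oconj_oconj, alt_left]

theorem kj_cr (x y : Fin 8 → R) : oconj (omul y (oconj (omul x y))) = onorm y • x := by
  rw [oconj_omul y, oconj_oconj, alt_right]

theorem kj_lin (x y z : Fin 8 → R) : oconj (omul x (oconj (omul z y))) =
    (2 * oip x y) • z - oconj (omul y (oconj (omul z x))) := by
  rw [oconj_omul x, oconj_omul y, oconj_oconj, oconj_oconj, ← lin_right, add_sub_cancel_left]

theorem kj_mou (x y z : Fin 8 → R) : oconj (omul (oconj (omul z x)) (oconj (omul x y))) =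
    (2 * oip (oconj (omul x y)) z) • x - onorm x • oconj (omul y z) := by
  rw [oconj_omul (oconj _), oconj_oconj, oconj_oconj, ← lin_left, oconj_oconj, oconj_omul x y,
    alt_right', omul_smul, oconj_omul y z, add_sub_cancel_right]

section

variable (a b c a' b' c' t : R) (x y z x' y' z' u : Fin 8 → R)

theorem kj_rot : rot (kj_J a b c x y z) = kj_J b c a y z x :=
  ext_J (fun i => by fin_cases i <;> rfl) fun i => by fin_cases i <;> rfl

theorem kj_swp : swp (kj_J a b c x y z) = kj_J a c b (oconj x) (oconj z) (oconj y) := rfl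

theorem kj_tv : tv u (kj_J a b c x y z) =
    kj_J a b (c + 2 * oip x u + b * onorm u) (x + b • u) (y + oconj (omul z u)) z := rfl

theorem kj_tw : tw u (kj_J a b c x y z) =
    kj_J a (b + 2 * oip x u + c * onorm u) c (x + c • u) y (z + oconj (omul u y)) := by
  rw [tw, kj_swp, kj_tv, kj_swp]
  simp only [oip_oconj, onorm_oconj, oconj_add, oconj_smul, oconj_oconj, oconj_omul u]

theorem kj_sharp : sharp (kj_J a b c x y z) =
    kj_J (b * c - onorm x) (c * a - onorm y) (a * b - onorm z) (oconj (omul y z) - a • x)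
      (oconj (omul z x) - b • y) (oconj (omul x y) - c • z) :=
  ext_J (fun i => by fin_cases i <;> rfl) fun i => by fin_cases i <;> rfl

theorem kj_smul : t • kj_J a b c x y z = kj_J (t * a) (t * b) (t * c) (t • x) (t • y) (t • z) :=
  ext_J (fun i => by fin_cases i <;> rfl) fun i => by fin_cases i <;> rfl

theorem kj_add : kj_J a b c x y z + kj_J a' b' c' x' y' z' =
    kj_J (a + a') (b + b') (c + c') (x + x') (y + y') (z + z') :=
  ext_J (fun i => by fin_cases i <;> rfl) fun i => by fin_cases i <;> rfl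

theorem kj_tr : tr (kj_J a b c x y z) (kj_J a' b' c' x' y' z') =
    a * a' + b * b' + c * c' + 2 * (oip x x' + oip y y' + oip z z') := by
  rw [tr_eq, Fin.sum_univ_three, Fin.sum_univ_three]
  rfl

theorem kj_nrm : nrm (kj_J a b c x y z) =
    a * b * c - (a * onorm x + b * onorm y + c * onorm z) + 2 * oip (oconj (omul x y)) z := by
  rw [nrm, Fin.sum_univ_three, omul_zero_eq]
  rfl

theorem kj_ssd : (c * a - onorm y) * (a * b - onorm z) - onorm (oconj (omul y z) - a • x) =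
    nrm (kj_J a b c x y z) * a := by
  rw [kj_nrm, onorm_sub, onorm_oconj, onorm_omul, onorm_smul, oip_smul, oip_cyc x y z]
  ring

theorem kj_sso : oconj (omul (oconj (omul z x) - b • y) (oconj (omul x y) - c • z)) -
    (b * c - onorm x) • (oconj (omul y z) - a • x) = nrm (kj_J a b c x y z) • x := by
  rw [kj_nrm]
  simp only [omul_sub, sub_omul, omul_smul, smul_omul, oconj_sub, oconj_smul, kj_mou, kj_cl, kj_cr]
  module

end

section

variable (K : Type) [Field K] [CharZero K]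

omit [CharZero K] in
theorem kj_toR (a b c : ℚ) (x y z : Fin 8 → ℚ) : toR K (kj_J a b c x y z) =
    kj_J (a : K) b c (fun k => x k) (fun k => y k) fun k => z k :=
  ext_J (fun i => by fin_cases i <;> rfl) fun i => by fin_cases i <;> rfl

omit [CharZero K] in
theorem kj_cast_oconj (x : Fin 8 → ℚ) :
    (fun k => ((oconj x k : ℚ) : K)) = oconj fun k => (x k : K) := by
  funext k
  simp only [oconj]
  split_ifs <;> simp

theorem kj_cast_omul (x y : Fin 8 → ℚ) :
    (fun k => ((omul x y k : ℚ) : K)) = omul (fun k => (x k : K)) fun k => (y k : K) := by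
  funext k
  fin_cases k <;> simp [omul_eq]

end

theorem rot_rot_rot (Z : Ix → R) : rot (rot (rot Z)) = Z := by
  obtain ⟨a, b, c, x, y, z, rfl⟩ := kj_ex Z
  rw [kj_rot, kj_rot, kj_rot]

theorem swp_swp (Z : Ix → R) : swp (swp Z) = Z := by
  obtain ⟨a, b, c, x, y, z, rfl⟩ := kj_ex Z
  simp only [kj_swp, oconj_oconj]

theorem tv_neg (y : Fin 8 → R) (Z : Ix → R) : tv (-y) (tv y Z) = Z := by
  obtain ⟨a, b, c, x, w, z, rfl⟩ := kj_ex Z
  rw [kj_tv, kj_tv]
  refine kj_congr rfl rfl ?_ ?_ ?_ rfl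
  · rw [kj_oip_neg, kj_onorm_neg, kj_add_oip, kj_smul_oip, ← onorm_eq]
    ring
  · module
  · rw [omul_neg, oconj_neg, add_neg_cancel_right]

theorem rot_smul (c : R) (Z : Ix → R) : rot (c • Z) = c • rot Z := by
  obtain ⟨a, b, e, x, y, z, rfl⟩ := kj_ex Z
  simp only [kj_smul, kj_rot]

theorem swp_smul (c : R) (Z : Ix → R) : swp (c • Z) = c • swp Z := by
  obtain ⟨a, b, e, x, y, z, rfl⟩ := kj_ex Z
  simp only [kj_smul, kj_swp, oconj_smul]

theorem tv_smul (y : Fin 8 → R) (c : R) (Z : Ix → R) : tv y (c • Z) = c • tv y Z := by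
  obtain ⟨a, b, e, x, w, z, rfl⟩ := kj_ex Z
  rw [kj_smul, kj_tv, kj_tv, kj_smul]
  refine kj_congr rfl rfl ?_ ?_ ?_ rfl
  · rw [kj_smul_oip]
    ring
  · module
  · rw [smul_omul, oconj_smul, smul_add]

theorem tr_comm (T Z : Ix → R) : tr T Z = tr Z T := by
  obtain ⟨a, b, c, x, y, z, rfl⟩ := kj_ex Z
  obtain ⟨a', b', c', x', y', z', rfl⟩ := kj_ex T
  rw [kj_tr, kj_tr, oip_comm x, oip_comm y, oip_comm z]
  ring

theorem tr_rot (T Z : Ix → R) : tr (rot T) (rot Z) = tr T Z := by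
  obtain ⟨a, b, c, x, y, z, rfl⟩ := kj_ex Z
  obtain ⟨a', b', c', x', y', z', rfl⟩ := kj_ex T
  rw [kj_rot, kj_rot, kj_tr, kj_tr]
  ring

theorem tr_swp (T Z : Ix → R) : tr (swp T) Z = tr T (swp Z) := by
  obtain ⟨a, b, c, x, y, z, rfl⟩ := kj_ex Z
  obtain ⟨a', b', c', x', y', z', rfl⟩ := kj_ex T
  rw [kj_swp, kj_swp, kj_tr, kj_tr, ← oip_oconj x', ← oip_oconj y', ← oip_oconj z']
  simp only [oconj_oconj]
  ring

theorem tr_tv (y : Fin 8 → R) (T Z : Ix → R) : tr (tv y T) Z = tr T (tw y Z) := by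
  obtain ⟨a, b, c, x, w, z, rfl⟩ := kj_ex Z
  obtain ⟨a', b', c', x', y', z', rfl⟩ := kj_ex T
  rw [kj_tv, kj_tw, kj_tr, kj_tr]
  simp only [kj_add_oip, oip_add, kj_smul_oip, oip_smul]
  rw [oip_cyc z' y w, oip_comm z' (oconj _), oip_comm y x]
  ring

theorem nrm_rot (Z : Ix → R) : nrm (rot Z) = nrm Z := by
  obtain ⟨a, b, c, x, y, z, rfl⟩ := kj_ex Z
  rw [kj_rot, kj_nrm, kj_nrm, oip_cyc x y z]
  ring

theorem nrm_swp (Z : Ix → R) : nrm (swp Z) = nrm Z := by
  obtain ⟨a, b, c, x, y, z, rfl⟩ := kj_ex Z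
  rw [kj_swp, kj_nrm, kj_nrm, ← oconj_omul, oip_oconj, oip_cyc x y z, oip_cyc y z x]
  simp only [onorm_oconj]
  ring

theorem nrm_tv (y : Fin 8 → R) (Z : Ix → R) : nrm (tv y Z) = nrm Z := by
  obtain ⟨a, b, c, x, w, z, rfl⟩ := kj_ex Z
  rw [kj_tv, kj_nrm, kj_nrm, oip_cyc (x + b • y), oip_cyc x w z]
  simp only [add_omul, oconj_add, kj_cl, kj_add_oip, oip_add, kj_smul_oip, oip_smul, onorm_add,
    onorm_smul, onorm_oconj, onorm_omul, ← onorm_eq]
  rw [oip_cyc w z y, oip_comm w, oip_comm y x]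
  ring

theorem sharp_rot (Z : Ix → R) : sharp (rot Z) = rot (sharp Z) := by
  obtain ⟨a, b, c, x, y, z, rfl⟩ := kj_ex Z
  rw [kj_rot, kj_sharp, kj_sharp, kj_rot]

theorem sharp_swp (Z : Ix → R) : sharp (swp Z) = swp (sharp Z) := by
  obtain ⟨a, b, c, x, y, z, rfl⟩ := kj_ex Z
  rw [kj_swp, kj_sharp, kj_sharp, kj_swp]
  simp only [onorm_oconj, oconj_sub, oconj_smul, ← oconj_omul, mul_comm]

theorem sharp_tv (y : Fin 8 → R) (Z : Ix → R) : sharp (tv y Z) = tw (-y) (sharp Z) := by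
  obtain ⟨a, b, c, x, w, z, rfl⟩ := kj_ex Z
  rw [kj_tv, kj_sharp, kj_sharp, kj_tw]
  refine kj_congr ?_ ?_ rfl ?_ ?_ ?_
  · rw [onorm_add, oip_smul, onorm_smul]
    ring
  · rw [onorm_add, onorm_oconj, onorm_omul, kj_oip_neg, kj_onorm_neg, kj_sub_oip, kj_smul_oip,
      oip_cyc w z y, oip_comm w]
    ring
  · rw [add_omul, oconj_add, kj_cl]
    module
  · rw [omul_add, omul_smul, oconj_add, oconj_smul]
    module
  · simp only [add_omul, omul_add, omul_sub, neg_omul, omul_smul, smul_omul, oconj_add, oconj_sub,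
      oconj_neg, oconj_smul, kj_cr]
    rw [kj_lin x y z]
    module

theorem sharp_sharp (Z : Ix → R) : sharp (sharp Z) = nrm Z • Z := by
  obtain ⟨a, b, c, x, y, z, rfl⟩ := kj_ex Z
  have h1 : nrm (kj_J b c a y z x) = nrm (kj_J a b c x y z) := by rw [← kj_rot, nrm_rot]
  have h2 : nrm (kj_J c a b z x y) = nrm (kj_J a b c x y z) := by rw [← kj_rot, nrm_rot, h1]
  rw [kj_sharp, kj_sharp, kj_smul]
  exact kj_congr (kj_ssd ..) (h1 ▸ kj_ssd ..) (h2 ▸ kj_ssd ..) (kj_sso ..) (h1 ▸ kj_sso ..)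
    (h2 ▸ kj_sso ..)

theorem tr_sharp (Z : Ix → R) : tr (sharp Z) Z = 3 * nrm Z := by
  obtain ⟨a, b, c, x, y, z, rfl⟩ := kj_ex Z
  rw [kj_sharp, kj_tr, kj_nrm]
  simp only [kj_sub_oip, kj_smul_oip, ← onorm_eq]
  rw [← oip_cyc y z x, ← oip_cyc x y z]
  ring

theorem nrm_add (Z W : Ix → R) :
    nrm (Z + W) = nrm Z + tr (sharp Z) W + tr Z (sharp W) + nrm W := by
  obtain ⟨a, b, c, x, y, z, rfl⟩ := kj_ex Z
  obtain ⟨a', b', c', x', y', z', rfl⟩ := kj_ex W
  rw [kj_add, kj_sharp, kj_sharp, kj_tr, kj_tr, kj_nrm, kj_nrm, kj_nrm]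
  simp only [add_omul, omul_add, oconj_add, kj_add_oip, oip_add, onorm_add, kj_sub_oip, oip_sub,
    kj_smul_oip, oip_smul]
  rw [oip_comm x (oconj _), oip_comm y (oconj _), oip_comm z (oconj _), ← oip_cyc x' y z,
    oip_cyc z x y', ← oip_cyc x y' z', oip_cyc z' x' y]
  ring

theorem nrm_smul (c : R) (Z : Ix → R) : nrm (c • Z) = c ^ 3 * nrm Z := by
  obtain ⟨a, b, e, x, y, z, rfl⟩ := kj_ex Z
  rw [kj_smul, kj_nrm, kj_nrm]
  simp only [onorm_smul, omul_smul, smul_omul, oconj_smul, kj_smul_oip, oip_smul]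
  ring

theorem sharp_smul (c : R) (Z : Ix → R) : sharp (c • Z) = c ^ 2 • sharp Z := by
  obtain ⟨a, b, e, x, y, z, rfl⟩ := kj_ex Z
  rw [kj_smul, kj_sharp, kj_sharp, kj_smul]
  simp only [onorm_smul, omul_smul, smul_omul, oconj_smul]
  refine kj_congr ?_ ?_ ?_ ?_ ?_ ?_
  iterate 3 ring
  all_goals module

theorem toR_rot (K : Type) [Field K] [CharZero K] (T : Ix → ℚ) : toR K (rot T) = rot (toR K T) := by
  obtain ⟨a', b', c', x', y', z', rfl⟩ := kj_ex T
  rw [kj_rot, kj_toR, kj_toR, kj_rot]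

theorem toR_swp (K : Type) [Field K] [CharZero K] (T : Ix → ℚ) : toR K (swp T) = swp (toR K T) := by
  obtain ⟨a', b', c', x', y', z', rfl⟩ := kj_ex T
  rw [kj_swp, kj_toR, kj_toR, kj_swp, kj_cast_oconj, kj_cast_oconj, kj_cast_oconj]

theorem toR_tv (K : Type) [Field K] [CharZero K] (y : Fin 8 → ℚ) (T : Ix → ℚ) :
    toR K (tv y T) = tv (fun k => (y k : K)) (toR K T) := by
  obtain ⟨a', b', c', x', y', z', rfl⟩ := kj_ex T
  rw [kj_tv, kj_toR, kj_toR, kj_tv, ← kj_cast_omul, ← kj_cast_oconj]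
  refine kj_congr rfl rfl ?_ ?_ ?_ rfl
  · simp [oip, onorm]
  · funext k
    simp
  · funext k
    simp

end Pool.Agent.E7.Kim
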