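import Pool.Agent.Lib.MP_7e5527_ag.E7.KDefs

/-! Octonion identities. -/

noncomputable section

namespace Pool.Agent.E7.Kim

open Complex
open scoped Classical

variable {R : Type} [CommRing R]

theorem omul_eq (x y : Fin 8 → R) : omul x y = ![
  x 0 * y 0 - x 1 * y 1 - x 2 * y 2 - x 3 * y 3 - x 4 * y 4 - x 5 * y 5 - x 6 * y 6 - x 7 * y 7,
  x 0 * y 1 + x 1 * y 0 + x 2 * y 3 - x 3 * y 2 + x 4 * y 5 - x 5 * y 4 - x 6 * y 7 + x 7 * y 6,
  x 0 * y 2 - x 1 * y 3 + x 2 * y 0 + x 3 * y 1 + x 4 * y 6 + x 5 * y 7 - x 6 * y 4 - x 7 * y 5,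
  x 0 * y 3 + x 1 * y 2 - x 2 * y 1 + x 3 * y 0 + x 4 * y 7 - x 5 * y 6 + x 6 * y 5 - x 7 * y 4,
  x 0 * y 4 - x 1 * y 5 - x 2 * y 6 - x 3 * y 7 + x 4 * y 0 + x 5 * y 1 + x 6 * y 2 + x 7 * y 3,
  x 0 * y 5 + x 1 * y 4 - x 2 * y 7 + x 3 * y 6 - x 4 * y 1 + x 5 * y 0 - x 6 * y 3 + x 7 * y 2,
  x 0 * y 6 + x 1 * y 7 + x 2 * y 4 - x 3 * y 5 - x 4 * y 2 + x 5 * y 3 + x 6 * y 0 - x 7 * y 1,
  x 0 * y 7 - x 1 * y 6 + x 2 * y 5 + x 3 * y 4 - x 4 * y 3 - x 5 * y 2 + x 6 * y 1 + x 7 * y 0] := by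
  funext k
  fin_cases k <;> simp [omul, ofQ, q1, q2] <;> ring

theorem oconj_eq (x : Fin 8 → R) :
    oconj x = ![x 0, -x 1, -x 2, -x 3, -x 4, -x 5, -x 6, -x 7] := by
  funext k
  fin_cases k <;> simp [oconj]

@[simp] theorem dg_mkJ (d : Fin 3 → R) (x : Fin 3 → Fin 8 → R) (i : Fin 3) :
    dg (mkJ d x) i = d i := rfl

@[simp] theorem oc_mkJ (d : Fin 3 → R) (x : Fin 3 → Fin 8 → R) (i : Fin 3) :
    oc (mkJ d x) i = x i := rfl

theorem ext_J {Z W : Ix → R} (h1 : ∀ i, dg Z i = dg W i) (h2 : ∀ i, oc Z i = oc W i) : Z = W := by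
  funext l
  rcases l with i | ⟨i, k⟩
  · exact h1 i
  · exact congrFun (h2 i) k

theorem dg_sharp (Z : Ix → R) (i : Fin 3) :
    dg (sharp Z) i = dg Z (i + 1) * dg Z (i + 2) - onorm (oc Z i) := rfl

theorem oc_sharp (Z : Ix → R) (i : Fin 3) :
    oc (sharp Z) i = oconj (omul (oc Z (i + 1)) (oc Z (i + 2))) - dg Z i • oc Z i := rfl

theorem tr_eq (T Z : Ix → R) :
    tr T Z = ∑ i, dg T i * dg Z i + 2 * ∑ i, oip (oc T i) (oc Z i) := rfl

theorem ko_m0 (x y : Fin 8 → R) : omul x y 0 =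
    x 0 * y 0 - x 1 * y 1 - x 2 * y 2 - x 3 * y 3 - x 4 * y 4 - x 5 * y 5 - x 6 * y 6 - x 7 * y 7 := by
  rw [omul_eq]; rfl

theorem ko_m1 (x y : Fin 8 → R) : omul x y 1 =
    x 0 * y 1 + x 1 * y 0 + x 2 * y 3 - x 3 * y 2 + x 4 * y 5 - x 5 * y 4 - x 6 * y 7 + x 7 * y 6 := by
  rw [omul_eq]; rfl

theorem ko_m2 (x y : Fin 8 → R) : omul x y 2 =
    x 0 * y 2 - x 1 * y 3 + x 2 * y 0 + x 3 * y 1 + x 4 * y 6 + x 5 * y 7 - x 6 * y 4 - x 7 * y 5 := by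
  rw [omul_eq]; rfl

theorem ko_m3 (x y : Fin 8 → R) : omul x y 3 =
    x 0 * y 3 + x 1 * y 2 - x 2 * y 1 + x 3 * y 0 + x 4 * y 7 - x 5 * y 6 + x 6 * y 5 - x 7 * y 4 := by
  rw [omul_eq]; rfl

theorem ko_m4 (x y : Fin 8 → R) : omul x y 4 =
    x 0 * y 4 - x 1 * y 5 - x 2 * y 6 - x 3 * y 7 + x 4 * y 0 + x 5 * y 1 + x 6 * y 2 + x 7 * y 3 := by
  rw [omul_eq]; rfl

theorem ko_m5 (x y : Fin 8 → R) : omul x y 5 =
    x 0 * y 5 + x 1 * y 4 - x 2 * y 7 + x 3 * y 6 - x 4 * y 1 + x 5 * y 0 - x 6 * y 3 + x 7 * y 2 := by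
  rw [omul_eq]; rfl

theorem ko_m6 (x y : Fin 8 → R) : omul x y 6 =
    x 0 * y 6 + x 1 * y 7 + x 2 * y 4 - x 3 * y 5 - x 4 * y 2 + x 5 * y 3 + x 6 * y 0 - x 7 * y 1 := by
  rw [omul_eq]; rfl

theorem ko_m7 (x y : Fin 8 → R) : omul x y 7 =
    x 0 * y 7 - x 1 * y 6 + x 2 * y 5 + x 3 * y 4 - x 4 * y 3 - x 5 * y 2 + x 6 * y 1 + x 7 * y 0 := by
  rw [omul_eq]; rfl

theorem ko_c0 (x : Fin 8 → R) : oconj x 0 = x 0 := by
  rw [oconj_eq]; rfl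

theorem ko_c1 (x : Fin 8 → R) : oconj x 1 = -x 1 := by
  rw [oconj_eq]; rfl

theorem ko_c2 (x : Fin 8 → R) : oconj x 2 = -x 2 := by
  rw [oconj_eq]; rfl

theorem ko_c3 (x : Fin 8 → R) : oconj x 3 = -x 3 := by
  rw [oconj_eq]; rfl

theorem ko_c4 (x : Fin 8 → R) : oconj x 4 = -x 4 := by
  rw [oconj_eq]; rfl

theorem ko_c5 (x : Fin 8 → R) : oconj x 5 = -x 5 := by
  rw [oconj_eq]; rfl

theorem ko_c6 (x : Fin 8 → R) : oconj x 6 = -x 6 := by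
  rw [oconj_eq]; rfl

theorem ko_c7 (x : Fin 8 → R) : oconj x 7 = -x 7 := by
  rw [oconj_eq]; rfl

theorem ko_ext {x y : Fin 8 → R} (h0 : x 0 = y 0) (h1 : x 1 = y 1) (h2 : x 2 = y 2)
    (h3 : x 3 = y 3) (h4 : x 4 = y 4) (h5 : x 5 = y 5) (h6 : x 6 = y 6) (h7 : x 7 = y 7) :
    x = y := by
  funext k
  fin_cases k
  exacts [h0, h1, h2, h3, h4, h5, h6, h7]

theorem ko_ip (x y : Fin 8 → R) : oip x y = x 0 * y 0 + x 1 * y 1 + x 2 * y 2 + x 3 * y 3 +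
    x 4 * y 4 + x 5 * y 5 + x 6 * y 6 + x 7 * y 7 := by
  rw [oip, Fin.sum_univ_eight]

theorem ko_n (x : Fin 8 → R) : onorm x = x 0 ^ 2 + x 1 ^ 2 + x 2 ^ 2 + x 3 ^ 2 +
    x 4 ^ 2 + x 5 ^ 2 + x 6 ^ 2 + x 7 ^ 2 := by
  rw [onorm, Fin.sum_univ_eight]

theorem omul_add (x y z : Fin 8 → R) : omul x (y + z) = omul x y + omul x z := by
  apply ko_ext <;>
    simp only [ko_m0, ko_m1, ko_m2, ko_m3, ko_m4, ko_m5, ko_m6, ko_m7, Pi.add_apply] <;>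
    ring

theorem add_omul (x y z : Fin 8 → R) : omul (x + y) z = omul x z + omul y z := by
  apply ko_ext <;>
    simp only [ko_m0, ko_m1, ko_m2, ko_m3, ko_m4, ko_m5, ko_m6, ko_m7, Pi.add_apply] <;>
    ring

theorem omul_smul (c : R) (x y : Fin 8 → R) : omul x (c • y) = c • omul x y := by
  apply ko_ext <;>
    simp only [ko_m0, ko_m1, ko_m2, ko_m3, ko_m4, ko_m5, ko_m6, ko_m7, Pi.smul_apply,
      smul_eq_mul] <;>
    ring

theorem smul_omul (c : R) (x y : Fin 8 → R) : omul (c • x) y = c • omul x y := by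
  apply ko_ext <;>
    simp only [ko_m0, ko_m1, ko_m2, ko_m3, ko_m4, ko_m5, ko_m6, ko_m7, Pi.smul_apply,
      smul_eq_mul] <;>
    ring

theorem omul_neg (x y : Fin 8 → R) : omul x (-y) = -omul x y := by
  apply ko_ext <;>
    simp only [ko_m0, ko_m1, ko_m2, ko_m3, ko_m4, ko_m5, ko_m6, ko_m7, Pi.neg_apply] <;>
    ring

theorem neg_omul (x y : Fin 8 → R) : omul (-x) y = -omul x y := by
  apply ko_ext <;>
    simp only [ko_m0, ko_m1, ko_m2, ko_m3, ko_m4, ko_m5, ko_m6, ko_m7, Pi.neg_apply] <;>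
    ring

theorem omul_sub (x y z : Fin 8 → R) : omul x (y - z) = omul x y - omul x z := by
  apply ko_ext <;>
    simp only [ko_m0, ko_m1, ko_m2, ko_m3, ko_m4, ko_m5, ko_m6, ko_m7, Pi.sub_apply] <;>
    ring

theorem sub_omul (x y z : Fin 8 → R) : omul (x - y) z = omul x z - omul y z := by
  apply ko_ext <;>
    simp only [ko_m0, ko_m1, ko_m2, ko_m3, ko_m4, ko_m5, ko_m6, ko_m7, Pi.sub_apply] <;>
    ring

theorem oconj_add (x y : Fin 8 → R) : oconj (x + y) = oconj x + oconj y := by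
  apply ko_ext <;>
    simp only [ko_c0, ko_c1, ko_c2, ko_c3, ko_c4, ko_c5, ko_c6, ko_c7, Pi.add_apply] <;>
    ring

theorem oconj_sub (x y : Fin 8 → R) : oconj (x - y) = oconj x - oconj y := by
  apply ko_ext <;>
    simp only [ko_c0, ko_c1, ko_c2, ko_c3, ko_c4, ko_c5, ko_c6, ko_c7, Pi.sub_apply] <;>
    ring

theorem oconj_neg (x : Fin 8 → R) : oconj (-x) = -oconj x := by
  apply ko_ext <;>
    simp only [ko_c0, ko_c1, ko_c2, ko_c3, ko_c4, ko_c5, ko_c6, ko_c7, Pi.neg_apply]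

theorem oconj_smul (c : R) (x : Fin 8 → R) : oconj (c • x) = c • oconj x := by
  apply ko_ext <;>
    simp only [ko_c0, ko_c1, ko_c2, ko_c3, ko_c4, ko_c5, ko_c6, ko_c7, Pi.smul_apply,
      smul_eq_mul] <;>
    ring

theorem oconj_oconj (x : Fin 8 → R) : oconj (oconj x) = x := by
  apply ko_ext <;>
    simp only [ko_c0, ko_c1, ko_c2, ko_c3, ko_c4, ko_c5, ko_c6, ko_c7] <;>
    ring

theorem oconj_omul (x y : Fin 8 → R) : oconj (omul x y) = omul (oconj y) (oconj x) := by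
  apply ko_ext <;>
    simp only [ko_m0, ko_m1, ko_m2, ko_m3, ko_m4, ko_m5, ko_m6, ko_m7, ko_c0, ko_c1, ko_c2,
      ko_c3, ko_c4, ko_c5, ko_c6, ko_c7] <;>
    ring

theorem onorm_eq (x : Fin 8 → R) : onorm x = oip x x := by
  simp only [ko_ip, ko_n]
  ring

theorem oip_comm (x y : Fin 8 → R) : oip x y = oip y x := by
  simp only [ko_ip]
  ring

theorem oip_add (x y z : Fin 8 → R) : oip x (y + z) = oip x y + oip x z := by
  simp only [ko_ip, Pi.add_apply]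
  ring

theorem oip_sub (x y z : Fin 8 → R) : oip x (y - z) = oip x y - oip x z := by
  simp only [ko_ip, Pi.sub_apply]
  ring

theorem oip_smul (c : R) (x y : Fin 8 → R) : oip x (c • y) = c * oip x y := by
  simp only [ko_ip, Pi.smul_apply, smul_eq_mul]
  ring

theorem oip_oconj (x y : Fin 8 → R) : oip (oconj x) (oconj y) = oip x y := by
  simp only [ko_c0, ko_c1, ko_c2, ko_c3, ko_c4, ko_c5, ko_c6, ko_c7, ko_ip]
  ring

theorem onorm_add (x y : Fin 8 → R) : onorm (x + y) = onorm x + 2 * oip x y + onorm y := by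
  simp only [ko_ip, ko_n, Pi.add_apply]
  ring

theorem onorm_sub (x y : Fin 8 → R) : onorm (x - y) = onorm x - 2 * oip x y + onorm y := by
  simp only [ko_ip, ko_n, Pi.sub_apply]
  ring

theorem onorm_smul (c : R) (x : Fin 8 → R) : onorm (c • x) = c ^ 2 * onorm x := by
  simp only [ko_n, Pi.smul_apply, smul_eq_mul]
  ring

theorem onorm_oconj (x : Fin 8 → R) : onorm (oconj x) = onorm x := by
  simp only [ko_c0, ko_c1, ko_c2, ko_c3, ko_c4, ko_c5, ko_c6, ko_c7, ko_n]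
  ring

theorem onorm_omul (x y : Fin 8 → R) : onorm (omul x y) = onorm x * onorm y := by
  simp only [ko_m0, ko_m1, ko_m2, ko_m3, ko_m4, ko_m5, ko_m6, ko_m7, ko_n]
  ring

theorem omul_zero_eq (x y : Fin 8 → R) : omul x y 0 = oip (oconj x) y := by
  simp only [ko_m0, ko_c0, ko_c1, ko_c2, ko_c3, ko_c4, ko_c5, ko_c6, ko_c7, ko_ip]
  ring

theorem oip_cyc (x y z : Fin 8 → R) : oip (oconj (omul x y)) z = oip (oconj (omul y z)) x := by
  simp only [ko_m0, ko_m1, ko_m2, ko_m3, ko_m4, ko_m5, ko_m6, ko_m7, ko_c0, ko_c1, ko_c2,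
      ko_c3, ko_c4, ko_c5, ko_c6, ko_c7, ko_ip]
  ring

theorem alt_left (x y : Fin 8 → R) : omul (oconj x) (omul x y) = onorm x • y := by
  apply ko_ext <;>
    simp only [ko_m0, ko_m1, ko_m2, ko_m3, ko_m4, ko_m5, ko_m6, ko_m7, ko_c0, ko_c1, ko_c2,
      ko_c3, ko_c4, ko_c5, ko_c6, ko_c7, ko_n, Pi.smul_apply, smul_eq_mul] <;>
    ring

theorem alt_left' (x y : Fin 8 → R) : omul x (omul (oconj x) y) = onorm x • y := by
  apply ko_ext <;>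
    simp only [ko_m0, ko_m1, ko_m2, ko_m3, ko_m4, ko_m5, ko_m6, ko_m7, ko_c0, ko_c1, ko_c2,
      ko_c3, ko_c4, ko_c5, ko_c6, ko_c7, ko_n, Pi.smul_apply, smul_eq_mul] <;>
    ring

theorem alt_right (x y : Fin 8 → R) : omul (omul x y) (oconj y) = onorm y • x := by
  apply ko_ext <;>
    simp only [ko_m0, ko_m1, ko_m2, ko_m3, ko_m4, ko_m5, ko_m6, ko_m7, ko_c0, ko_c1, ko_c2,
      ko_c3, ko_c4, ko_c5, ko_c6, ko_c7, ko_n, Pi.smul_apply, smul_eq_mul] <;>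
    ring

theorem alt_right' (x y : Fin 8 → R) : omul (omul x (oconj y)) y = onorm y • x := by
  apply ko_ext <;>
    simp only [ko_m0, ko_m1, ko_m2, ko_m3, ko_m4, ko_m5, ko_m6, ko_m7, ko_c0, ko_c1, ko_c2,
      ko_c3, ko_c4, ko_c5, ko_c6, ko_c7, ko_n, Pi.smul_apply, smul_eq_mul] <;>
    ring

theorem lin_left (x y z : Fin 8 → R) :
    omul (oconj x) (omul y z) + omul (oconj y) (omul x z) = (2 * oip x y) • z := by
  apply ko_ext <;>
    simp only [ko_m0, ko_m1, ko_m2, ko_m3, ko_m4, ko_m5, ko_m6, ko_m7, ko_c0, ko_c1, ko_c2,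
      ko_c3, ko_c4, ko_c5, ko_c6, ko_c7, ko_ip, Pi.add_apply, Pi.smul_apply,
      smul_eq_mul] <;>
    ring

theorem lin_right (x y z : Fin 8 → R) :
    omul (omul z x) (oconj y) + omul (omul z y) (oconj x) = (2 * oip x y) • z := by
  apply ko_ext <;>
    simp only [ko_m0, ko_m1, ko_m2, ko_m3, ko_m4, ko_m5, ko_m6, ko_m7, ko_c0, ko_c1, ko_c2,
      ko_c3, ko_c4, ko_c5, ko_c6, ko_c7, ko_ip, Pi.add_apply, Pi.smul_apply,
      smul_eq_mul] <;>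
    ring

end Pool.Agent.E7.Kim
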