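import Pool.Agent.Lib.MP_7e5527_ag.E7.KC

/-! Convergence and the coefficients. -/

noncomputable section

namespace Pool.Agent.E7.Kim

open Complex
open scoped Classical

variable {T : Ix → ℚ}

theorem ks_le {d : ℕ} (hd : 0 < d) (h : (d : ℚ)⁻¹ • T ∈ Lam) {i : Fin 3} {n : ℕ}
    (h1 : dg T i = n) (hn : 0 < n) : d ≤ n := by
  obtain ⟨m, hm⟩ := h.1 i
  have h2 : (d : ℚ) ≠ 0 := by positivity
  have h3 : (n : ℚ) = d * m := by
    rw [← hm, ← h1]
    simp only [dg, Pi.smul_apply, smul_eq_mul]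
    field_simp
  have h4 : (n : ℤ) = d * m := by exact_mod_cast h3
  exact Nat.le_of_dvd hn (Int.natCast_dvd_natCast.1 ⟨m, h4⟩)

theorem ks_coord (h : R1 T) (l : Ix) : |T l| ≤ ∑ i, dg T i := by
  have h0 := psd_dg h.2.1
  have h1 : ∀ j, dg T j ≤ ∑ i, dg T i := fun j =>
    Finset.single_le_sum (fun i _ => h0 i) (Finset.mem_univ j)
  rcases l with i | ⟨i, k⟩
  · exact (abs_of_nonneg (h0 i)).trans_le (h1 i)
  · refine abs_le_of_sq_le_sq ?_ ((h0 0).trans (h1 0))
    have h2 := dg_sharp T i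
    rw [h.2.2] at h2
    have h3 : oc T i k ^ 2 ≤ onorm (oc T i) :=
      Finset.single_le_sum (f := fun k => oc T i k ^ 2) (fun k _ => sq_nonneg _) (Finset.mem_univ k)
    have h4 := mul_le_mul (h1 (i + 1)) (h1 (i + 2)) (h0 _) ((h0 0).trans (h1 0))
    have h5 : dg (0 : Ix → ℚ) i = 0 := rfl
    change oc T i k ^ 2 ≤ _
    linarith

theorem ks_s3 (h : R1 T) (h0 : T ≠ 0) : (s3 T : ℚ) ≤ (∑ i, dg T i) ^ 4 := by
  have h1 := psd_dg h.2.1
  obtain ⟨i, hi⟩ : ∃ i, 0 < dg T i := by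
    by_contra h2
    push Not at h2
    refine h0 (funext fun l => abs_nonpos_iff.1 ((ks_coord h l).trans ?_))
    exact Finset.sum_nonpos fun i _ => h2 i
  obtain ⟨m, hm⟩ := h.1.1 i
  have h2 : 0 < m := by
    rw [hm] at hi
    exact_mod_cast hi
  lift m to ℕ using h2.le
  have h3 : 0 < m := by exact_mod_cast h2
  have h4 : s3 T ≤ m ^ 4 := by
    rw [s3, finsum_eq_sum_of_support_subset (s := Finset.Icc 1 m)]
    · refine (Finset.sum_le_card_nsmul _ _ (m ^ 3) fun d hd => ?_).trans_eq ?_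
      · split_ifs
        · exact Nat.pow_le_pow_left (Finset.mem_Icc.1 hd).2 3
        · exact Nat.zero_le _
      · simp only [Nat.card_Icc, Nat.add_sub_cancel, smul_eq_mul]
        ring
    · intro d hd
      have h5 : 0 < d ∧ (d : ℚ)⁻¹ • T ∈ Lam := by
        by_contra h5
        exact hd (if_neg h5)
      exact Finset.mem_coe.2 (Finset.mem_Icc.2 ⟨h5.1, ks_le h5.1 h5.2 (by simpa using hm) h3⟩)
  have h5 : (m : ℚ) ≤ ∑ i, dg T i := by
    have h6 := Finset.single_le_sum (fun i _ => h1 i) (Finset.mem_univ i)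
    rw [hm] at h6
    exact_mod_cast h6
  calc (s3 T : ℚ) ≤ (m : ℚ) ^ 4 := by exact_mod_cast h4
    _ ≤ _ := pow_le_pow_left₀ (by positivity) h5 4

theorem ks_half (h : T ∈ Lam) (l : Ix) : ∃ n : ℤ, 2 * T l = n := by
  rcases l with i | ⟨i, k⟩
  · obtain ⟨n, hn⟩ := h.1 i
    exact ⟨2 * n, by rw [Int.cast_mul, ← hn]; rfl⟩
  · exact (h.2 i).1 k

/-- The majorant in one variable. -/
def ks_G (c : ℝ) (q : ℚ) : ℝ := if ∃ n : ℤ, 2 * q = n then Real.exp (-(c * |(q : ℝ)|)) else 0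

theorem ks_G_eq (c : ℝ) {q : ℚ} (h : ∃ n : ℤ, 2 * q = n) :
    ks_G c q = Real.exp (-(c * |(q : ℝ)|)) := if_pos h

theorem ks_g_nonneg (c : ℝ) (q : ℚ) : 0 ≤ ks_G c q := by
  unfold ks_G
  split_ifs
  · positivity
  · exact le_rfl

theorem ks_g {c : ℝ} (hc : 0 < c) : Summable (ks_G c) := by
  have h1 : Function.Injective fun n : ℤ => (n : ℚ) / 2 := fun m n h => by
    have h2 : (m : ℚ) = n := by
      simp only at h
      linarith
    exact_mod_cast h2
  refine (h1.summable_iff fun q hq => if_neg ?_).1 ?_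
  · rintro ⟨n, hn⟩
    exact hq ⟨n, by simp only; linarith⟩
  have h2 : ∀ n : ℤ, (ks_G c ∘ fun n : ℤ => (n : ℚ) / 2) n = Real.exp (|(n : ℝ)| * -(c / 2)) := by
    intro n
    rw [Function.comp_apply, ks_G_eq c ⟨n, by ring⟩]
    push_cast
    rw [abs_div, abs_two]
    congr 1
    ring
  refine Summable.congr ?_ fun n => (h2 n).symm
  have h3 : Summable fun n : ℕ => Real.exp (n * -(c / 2)) :=
    Real.summable_exp_nat_mul_iff.2 (by linarith)
  exact Summable.of_nat_of_neg (by simpa using h3) (by simpa using h3)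

theorem ks_pi (g : ℚ → ℝ) (h0 : ∀ q, 0 ≤ g q) (h : Summable g) :
    Summable fun T : Ix → ℚ => ∏ l, g (T l) := by
  refine summable_of_sum_le (c := ∏ _l : Ix, ∑' q, g q)
    (fun T => Finset.prod_nonneg fun l _ => h0 _) fun u => ?_
  have h1 : u ⊆ Fintype.piFinset fun l => u.image fun T => T l := fun T hT =>
    Fintype.mem_piFinset.2 fun l => Finset.mem_image_of_mem _ hT
  refine (Finset.sum_le_sum_of_subset_of_nonneg h1
    fun T _ _ => Finset.prod_nonneg fun l _ => h0 _).trans ?_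
  rw [← Finset.prod_univ_sum (f := fun _ q => g q)]
  exact Finset.prod_le_prod (fun l _ => Finset.sum_nonneg fun q _ => h0 q)
    fun l _ => h.sum_le_tsum _ fun q _ => h0 q

theorem ks_norm_ee (z : ℂ) : ‖ee z‖ = Real.exp (-(2 * Real.pi * z.im)) := by
  rw [ee, Complex.norm_exp]
  simp

theorem ks_im (T : Ix → ℚ) (Z : Ix → ℂ) :
    (tr (toR ℂ T) Z).im = tr (toR ℝ T) fun l => (Z l).im := by
  simp [tr, dg, oc, toR]

theorem ks_tr_sub (T : Ix → ℚ) (Y : Ix → ℝ) (ε : ℝ) :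
    tr (toR ℝ T) (Y - ε • mkJ 1 0) = tr (toR ℝ T) Y - ε * ((∑ i, dg T i : ℚ) : ℝ) := by
  simp [tr, dg, oc, toR, mkJ, Fin.sum_univ_three]
  ring

theorem kc_zero : kc 0 = 1 := by
  simp [kc]

theorem kc_int (h : T ≠ 0) : ∃ n : ℤ, kc T = 240 * n := by
  rw [kc, if_neg h]
  split_ifs
  · exact ⟨s3 T, by simp⟩
  · exact ⟨0, by simp⟩

theorem kc_prim (h : R1 T) {i : Fin 3} (h1 : dg T i = 1) : kc T = 240 := by
  have h0 : T ≠ 0 := by
    rintro rfl
    simp [dg] at h1
  have h2 : s3 T = 1 := by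
    rw [s3, finsum_eq_single _ 1 fun d hd => if_neg fun k => hd ?_]
    · simp [h.1]
    · have h3 := ks_le k.1 k.2 (n := 1) (i := i) (by simpa using h1) one_pos
      have h4 := k.1
      omega
  rw [kc, if_neg h0, if_pos h, h2]
  simp

theorem summable_term {Z : Ix → ℂ} (h : Z ∈ HH) : Summable (term Z) := by
  obtain ⟨ε, hε, h1⟩ := om_sub h
  have ha : 0 < Real.pi * ε := mul_pos Real.pi_pos hε
  generalize hb : Real.pi * ε = a at ha
  have h2 := (ks_pi _ (ks_g_nonneg (a / 27)) (ks_g (c := a / 27) (by positivity))).mul_left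
    (240 * (24 / a ^ 4))
  refine Summable.of_norm_bounded_eventually h2 ?_
  refine Filter.eventually_of_mem ((Set.finite_singleton 0).compl_mem_cofinite) fun T hT => ?_
  have h0 : T ≠ 0 := hT
  rw [term, kc, if_neg h0]
  split_ifs with hR
  swap
  · rw [zero_mul, norm_zero]
    exact mul_nonneg (by positivity) (Finset.prod_nonneg fun l _ => ks_g_nonneg _ _)
  have h3 := hR.2.1 _ h1
  rw [ks_tr_sub] at h3
  have h4 : (s3 T : ℝ) ≤ ((∑ i, dg T i : ℚ) : ℝ) ^ 4 := by exact_mod_cast ks_s3 hR h0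
  have h5 : ∀ l, |(T l : ℝ)| ≤ ((∑ i, dg T i : ℚ) : ℝ) := fun l => by
    exact_mod_cast ks_coord hR l
  have h6 : 0 ≤ ((∑ i, dg T i : ℚ) : ℝ) := (abs_nonneg _).trans (h5 (.inl 0))
  generalize ((∑ i, dg T i : ℚ) : ℝ) = s at *
  have h7 : Real.exp (-(a * s)) ≤ ∏ l, ks_G (a / 27) (T l) := by
    rw [Finset.prod_congr rfl fun l _ => ks_G_eq (a / 27) (ks_half hR.1 l), ← Real.exp_sum,
      Real.exp_le_exp]
    have h8 := Finset.card_nsmul_le_sum Finset.univ (fun l => -(a / 27 * |(T l : ℝ)|))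
      (-(a / 27 * s)) fun l _ => neg_le_neg (mul_le_mul_of_nonneg_left (h5 l) (by positivity))
    refine le_trans (le_of_eq ?_) h8
    simp
    ring
  have h8 : s ^ 4 ≤ 24 / a ^ 4 * Real.exp (a * s) := by
    have h9 := Real.pow_div_factorial_le_exp (a * s) (by positivity) 4
    rw [div_mul_eq_mul_div, le_div_iff₀ (by positivity)]
    norm_num [Nat.factorial] at h9
    rw [mul_pow] at h9
    linarith
  rw [norm_mul, norm_mul, ks_norm_ee, ks_im, Complex.norm_natCast]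
  have h9 : Real.exp (-(2 * Real.pi * tr (toR ℝ T) fun l => (Z l).im)) ≤
      Real.exp (-(a * s)) * Real.exp (-(a * s)) := by
    rw [← Real.exp_add, Real.exp_le_exp, ← hb]
    nlinarith [mul_nonneg Real.pi_pos.le h3]
  have h10 : Real.exp (a * s) * Real.exp (-(a * s)) = 1 := by
    rw [← Real.exp_add, add_neg_cancel, Real.exp_zero]
  calc _ ≤ 240 * (24 / a ^ 4 * Real.exp (a * s)) *
        (Real.exp (-(a * s)) * Real.exp (-(a * s))) := by
        refine mul_le_mul (mul_le_mul (by simp) (h4.trans h8) (by positivity) (by positivity)) h9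
          (by positivity) (by positivity)
    _ = 240 * (24 / a ^ 4) * Real.exp (-(a * s)) := by
        linear_combination 240 * (24 / a ^ 4) * Real.exp (-(a * s)) * h10
    _ ≤ _ := mul_le_mul_of_nonneg_left h7 (by positivity)

end Pool.Agent.E7.Kim
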