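import Pool.Agent.Lib.MP_7e5527_ag.E7.KL

/-! The theta series. -/

noncomputable section

namespace Pool.Agent.E7.Kim

open Complex
open scoped Classical

variable {τ : ℂ}

theorem kt_pi (m : ℕ) (g : Fin m → ℤ → ℂ) (hg : ∀ k, Summable fun n => ‖g k n‖) :
    (Summable fun n : Fin m → ℤ => ‖∏ k, g k (n k)‖) ∧
      ∑' n : Fin m → ℤ, ∏ k, g k (n k) = ∏ k, ∑' n, g k n := by
  induction m with
  | zero => exact ⟨Summable.of_finite, by simp⟩
  | succ m ih =>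
    obtain ⟨h1, h2⟩ := ih (fun k => g k.succ) fun k => hg k.succ
    refine ⟨(Fin.consEquiv fun _ => ℤ).summable_iff.1 ?_, ?_⟩
    · refine ((hg 0).mul_norm h1).congr fun x => ?_
      simp [Fin.prod_univ_succ, Fin.consEquiv]
    · rw [Fin.prod_univ_succ, ← h2, tsum_mul_tsum_of_summable_norm (hg 0) h1,
        ← (Fin.consEquiv fun _ => ℤ).tsum_eq]
      refine tsum_congr fun x => ?_
      simp [Fin.prod_univ_succ, Fin.consEquiv]

/-- The words of the code. -/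
def kt_c (a : Fin 4 → Fin 2) : Fin 8 → ℤ :=
  ![(a 0 : ℕ) + (a 1 : ℕ) + (a 2 : ℕ), (a 0 : ℕ) + (a 1 : ℕ), (a 0 : ℕ) + (a 2 : ℕ), (a 0 : ℕ),
    (a 1 : ℕ) + (a 2 : ℕ) + (a 3 : ℕ), (a 1 : ℕ) + (a 3 : ℕ), (a 3 : ℕ), (a 2 : ℕ) + (a 3 : ℕ)]

/-- The parity checks. -/
def kt_s (n : Fin 8 → ℤ) : Fin 4 → ℤ :=
  ![n 0 + n 1 + n 2 + n 3, n 0 + n 1 + n 4 + n 5, n 0 + n 2 + n 4 + n 7, n 4 + n 5 + n 6 + n 7]

theorem kt_half (a b c d : ℤ) :
    (∃ m : ℤ, (a : ℚ) / 2 + b / 2 + c / 2 + d / 2 = m) ↔ 2 ∣ a + b + c + d := by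
  refine exists_congr fun m => ⟨fun h => ?_, fun h => ?_⟩
  · have h1 : ((a + b + c + d : ℤ) : ℚ) = (2 * m : ℤ) := by
      push_cast
      linear_combination 2 * h
    exact_mod_cast h1
  · have h1 : (a : ℚ) + b + c + d = 2 * m := by exact_mod_cast h
    linear_combination h1 / 2

theorem kt_oz (n : Fin 8 → ℤ) : OZ (fun k => (n k : ℚ) / 2) ↔ ∀ j, 2 ∣ kt_s n j := by
  rw [OZ, and_iff_right fun k => ⟨n k, mul_div_cancel₀ _ two_ne_zero⟩]
  simp only [kt_half, Fin.forall_fin_succ, kt_s]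
  simp

theorem kt_main (hτ : 0 < τ.im) (u : Fin 8 → ℂ) (c : ℂ) (w : (Fin 4 → Fin 2) → Fin 8 → ℤ → ℂ)
    (hw : ∀ a k n, ‖w a k n‖ ≤ 1) (hL : ∀ n : Fin 8 → ℤ,
      (if ∀ j, 2 ∣ kt_s n j then 1 else 0) = c * ∑ a, ∏ k, w a k (n k)) :
    HasSum (fun x : {x // OZ x} => ee ((onorm x.1 : ℚ) * τ + 2 * oip (oC x.1) u))
      (c * ∑ a, ∏ k, ∑' n, w a k n * jacobiTheta₂_term n (u k) (τ / 2)) := by
  have h2 : 0 < (τ / 2).im := by
    rw [div_ofNat_im]
    exact half_pos hτ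
  have hs : ∀ a k, Summable fun n => ‖w a k n * jacobiTheta₂_term n (u k) (τ / 2)‖ := fun a k =>
    ((summable_jacobiTheta₂_term_iff (u k) _).2 h2).norm.of_nonneg_of_le (fun _ => norm_nonneg _)
      fun n => (norm_mul_le _ _).trans (mul_le_of_le_one_left (norm_nonneg _) (hw a k n))
  have h3 := (hasSum_sum (s := Finset.univ) fun a _ =>
    (kt_pi 8 _ (hs a)).2 ▸ (kt_pi 8 _ (hs a)).1.of_norm.hasSum).mul_left c
  let e : {n : Fin 8 → ℤ | ∀ j, 2 ∣ kt_s n j} ≃ {x // OZ x} :=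
    Equiv.ofBijective (fun n => ⟨fun k => (n.1 k : ℚ) / 2, (kt_oz _).2 n.2⟩)
      ⟨fun n n' h => Subtype.ext (funext fun k => by
        have h4 := congrFun (congrArg Subtype.val h) k
        exact_mod_cast (div_left_inj' (two_ne_zero' ℚ)).1 h4), fun x => by
        choose n hn using x.2.1
        have h4 : (fun k => (n k : ℚ) / 2) = x.1 := funext fun k => by
          rw [← hn, mul_div_cancel_left₀ _ two_ne_zero]
        exact ⟨⟨n, (kt_oz n).1 (h4 ▸ x.2)⟩, Subtype.ext h4⟩⟩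
  rw [← e.hasSum_iff]
  have h5 : ((fun x : {x // OZ x} => ee ((onorm x.1 : ℚ) * τ + 2 * oip (oC x.1) u)) ∘ e) =
      (fun n : Fin 8 → ℤ => ∏ k, jacobiTheta₂_term (n k) (u k) (τ / 2)) ∘ Subtype.val := by
    funext n
    simp only [Function.comp, e, Equiv.ofBijective_apply, jacobiTheta₂_term, ← exp_sum, ee, onorm,
      oip, oC]
    congr 1
    push_cast
    simp only [Finset.sum_mul, Finset.mul_sum, ← Finset.sum_add_distrib]
    exact Finset.sum_congr rfl fun k _ => by ring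
  rw [h5, hasSum_subtype_iff_indicator]
  refine Eq.mpr (congrArg (HasSum · _) (funext fun n => ?_)) h3
  simp only [Finset.prod_mul_distrib, ← Finset.sum_mul, ← mul_assoc, ← hL, Set.indicator,
    Set.mem_ofPred_eq, ite_mul, one_mul, zero_mul]

theorem kt_A (n : Fin 8 → ℤ) : (if ∀ j, 2 ∣ kt_s n j then 1 else 0 : ℂ) =
    1 / 16 * ∑ a, ∏ k, cexp (Real.pi * I * n k * kt_c a k) := by
  have h1 : ∀ a : Fin 4 → Fin 2, ∏ k, cexp (Real.pi * I * n k * kt_c a k) =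
      ∏ j, cexp (kt_s n j * (Real.pi * I)) ^ (a j : ℕ) := fun a => by
    simp only [← exp_nat_mul, ← exp_sum]
    congr 1
    simp [Fin.sum_univ_eight, Fin.sum_univ_four, kt_c, kt_s]
    ring
  have h2 : ∀ s : ℤ, ∑ b : Fin 2, cexp (s * (Real.pi * I)) ^ (b : ℕ) = if 2 ∣ s then 2 else 0 := by
    intro s
    rw [Fin.sum_univ_two, exp_int_mul, exp_pi_mul_I]
    split_ifs with h
    · rw [(even_iff_two_dvd.2 h).neg_one_zpow]
      norm_num
    · rw [(Int.not_even_iff_odd.1 fun e => h e.two_dvd).neg_one_zpow]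
      norm_num
  simp only [h1]
  rw [← Fintype.piFinset_univ, ← Finset.prod_univ_sum (fun _ => Finset.univ)
    fun j (b : Fin 2) => cexp (kt_s n j * (Real.pi * I)) ^ (b : ℕ)]
  simp only [h2, Finset.prod_ite_zero, Finset.mem_univ, forall_const]
  split_ifs <;> norm_num

theorem kt_B (n : Fin 8 → ℤ) : (if ∀ j, 2 ∣ kt_s n j then 1 else 0 : ℂ) =
    1 * ∑ a, ∏ k, if 2 ∣ n k + kt_c a k then 1 else 0 := by
  have hf : ∀ s : ℤ, ∃ b : Fin 2, 2 ∣ s + (b : ℕ) := fun s => ⟨⟨(s % 2).toNat, by omega⟩, by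
    simp only
    omega⟩
  choose f hf using hf
  have h1 : ∀ a : Fin 4 → Fin 2, (∀ k, 2 ∣ n k + kt_c a k) ↔ (∀ j, 2 ∣ kt_s n j) ∧
      a = ![f (n 3), f (n 1 + n 3), f (n 2 + n 3), f (n 6)] := fun a => by
    have a0 := hf (n 3)
    have a1 := hf (n 1 + n 3)
    have a2 := hf (n 2 + n 3)
    have a3 := hf (n 6)
    simp only [funext_iff, Fin.forall_fin_succ, Fin.ext_iff, kt_c, kt_s]
    simp
    omega
  simp only [Finset.prod_ite_zero, Finset.mem_univ, forall_const, Finset.prod_const_one, h1]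
  split_ifs with h <;> simp [h]

theorem kt_S (hτ : 0 < τ.im) (v : ℂ) (e : ℤ) :
    ∑' n : ℤ, (if 2 ∣ n + e then 1 else 0) * jacobiTheta₂_term n (τ⁻¹ * v) (-1 / τ / 2) =
      (-I * (τ / 2)) ^ (1 / 2 : ℂ) * (cexp (2 * Real.pi * I * (v ^ 2 / τ)) *
        ∑' n : ℤ, cexp (Real.pi * I * n * e) * jacobiTheta₂_term n v (τ / 2)) := by
  have h0 : τ ≠ 0 := fun e => by simp [e] at hτ
  have h1 : (-I * (τ / 2)) ^ (1 / 2 : ℂ) ≠ 0 := by simp [h0]
  have h2 : ∑' n : ℤ, cexp (Real.pi * I * n * e) * jacobiTheta₂_term n v (τ / 2) =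
      jacobiTheta₂ (v + e / 2) (τ / 2) := tsum_congr fun n => by
    rw [jacobiTheta₂_term, jacobiTheta₂_term, ← exp_add]
    congr 1
    ring
  have h3 : Function.Injective fun m : ℤ => 2 * m - e := fun a b h => by
    simp only at h
    omega
  rw [h2, jacobiTheta₂_functional_equation (v + e / 2), ← h3.tsum_eq (fun n hn => by
    by_contra h
    refine hn (mul_eq_zero_of_left (if_neg ?_) _)
    rintro ⟨m, hm⟩
    exact h ⟨m, by simp only; omega⟩), mul_left_comm, ← mul_assoc (_ ^ _), ← mul_assoc (_ ^ _),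
    mul_one_div_cancel h1, one_mul, ← mul_assoc, ← exp_add, jacobiTheta₂, ← tsum_mul_left]
  refine tsum_congr fun m => ?_
  rw [if_pos ⟨m, by ring⟩, one_mul, jacobiTheta₂_term, jacobiTheta₂_term, ← exp_add]
  congr 1
  push_cast
  field_simp
  ring

theorem summable_thE (hτ : 0 < τ.im) (u : Fin 8 → ℂ) :
    Summable fun x : {x // OZ x} => ee ((onorm x.1 : ℚ) * τ + 2 * oip (oC x.1) u) := by
  exact (kt_main hτ u 1 (fun a k n => if 2 ∣ n + kt_c a k then 1 else 0)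
    (fun _ _ _ => by split_ifs <;> simp) kt_B).summable

theorem thE_T (τ : ℂ) (u : Fin 8 → ℂ) : thE (τ + 1) u = thE τ u := by
  refine tsum_congr fun x => ?_
  obtain ⟨n, hn⟩ := oz_norm x.2
  rw [hn, mul_add, add_right_comm, ee, ee, mul_add, exp_add, mul_one, mul_comm _ ((n : ℚ) : ℂ),
    Rat.cast_natCast, exp_nat_mul_two_pi_mul_I, mul_one]

theorem thE_S (hτ : 0 < τ.im) (u : Fin 8 → ℂ) :
    thE (-1 / τ) (τ⁻¹ • u) = τ ^ 4 * ee (onorm u / τ) * thE τ u := by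
  have h0 : τ ≠ 0 := fun e => by simp [e] at hτ
  have h1 : 0 < (-1 / τ).im := by
    rw [neg_div, one_div, neg_im, inv_im, neg_div, neg_neg]
    exact div_pos hτ (normSq_pos.2 h0)
  have h8 : ((-I * (τ / 2)) ^ (1 / 2 : ℂ)) ^ 8 = τ ^ 4 / 16 := by
    rw [show 8 = 2 * 4 from rfl, pow_mul, one_div, cpow_ofNat_inv_pow]
    linear_combination (τ ^ 4 / 16) * I_pow_four
  rw [thE, thE, (kt_main h1 _ 1 (fun a k n => if 2 ∣ n + kt_c a k then 1 else 0)
      (fun _ _ _ => by split_ifs <;> simp) kt_B).tsum_eq,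
    (kt_main hτ u (1 / 16) (fun a k n => cexp (Real.pi * I * n * kt_c a k)) (fun a k n => by
      rw [show (Real.pi * I * n * kt_c a k : ℂ) = (Real.pi * n * kt_c a k : ℝ) * I by
        push_cast; ring, norm_exp_ofReal_mul_I]) kt_A).tsum_eq]
  simp only [Pi.smul_apply, smul_eq_mul, kt_S hτ, Finset.prod_mul_distrib, Finset.prod_const,
    Finset.card_univ, Fintype.card_fin, h8, ← Finset.mul_sum]
  rw [← exp_sum, ← Finset.mul_sum, ← Finset.sum_div, ee, onorm]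
  ring

end Pool.Agent.E7.Kim
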