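import Pool.Agent.Lib.MP_7e5527_ag.E7.KC

/-! The inversion at one index. -/

noncomputable section

namespace Pool.Agent.E7.Kim

open Complex
open scoped Classical

variable {Z : Ix → ℂ}

theorem sw0_swp (Z : Ix → ℂ) : sw0 (swp Z) = swp (sw0 Z) := by
  apply ext_J
  · intro i
    fin_cases i <;> simp [sw0, swp, onorm_oconj]
  · intro i
    fin_cases i <;>
      simp [sw0, swp, oconj_sub, oconj_smul, oconj_omul, oconj_oconj]

theorem kw_sw0_tv (y : Fin 8 → ℂ) (Z : Ix → ℂ) : sw0 (tv y Z) = tv y (sw0 Z) := by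
  apply ext_J
  · intro i
    fin_cases i
    · simp [sw0, tv]
    · simp [sw0, tv]
    · have h1 : oip (oc Z 0 - (dg Z 0)⁻¹ • oconj (omul (oc Z 1) (oc Z 2))) y =
          oip (oc Z 0) y - (dg Z 0)⁻¹ * oip (oc Z 1) (oconj (omul (oc Z 2) y)) := by
        rw [oip_comm, oip_sub, oip_smul, oip_comm y, oip_comm y, oip_cyc, oip_comm _ (oc Z 1)]
      simp [sw0, tv, onorm_add, onorm_oconj, onorm_omul, h1]
      ring
  · intro i
    fin_cases i
    · have h1 : oconj (omul (oc Z 1 + oconj (omul (oc Z 2) y)) (oc Z 2)) =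
          oconj (omul (oc Z 1) (oc Z 2)) + onorm (oc Z 2) • y := by
        rw [add_omul, oconj_add, oconj_omul (oconj _), oconj_oconj, alt_left]
      simp only [sw0, tv, oc_mkJ, dg_mkJ, Fin.zero_eta, Matrix.cons_val_zero, Matrix.cons_val_one,
        Matrix.cons_val, h1, div_eq_mul_inv]
      module
    · simp [sw0, tv, smul_omul, oconj_smul]
    · simp [sw0, tv]

theorem sw0_tw (u : Fin 8 → ℂ) (Z : Ix → ℂ) : sw0 (tw u Z) = tw u (sw0 Z) := by
  rw [tw, tw, sw0_swp, kw_sw0_tv, sw0_swp]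

section Gen

variable {R S : Type} [CommRing R] [CommRing S]

theorem kw_omul_map (f : R →+* S) (x y : Fin 8 → R) :
    omul (fun k => f (x k)) (fun k => f (y k)) = fun k => f (omul x y k) := by
  funext k
  fin_cases k <;> simp [omul_eq]

theorem kw_oconj_map (f : R →+* S) (x : Fin 8 → R) :
    oconj (fun k => f (x k)) = fun k => f (oconj x k) := by
  funext k
  fin_cases k <;> simp [oconj_eq]

theorem kw_onorm_map (f : R →+* S) (x : Fin 8 → R) :
    onorm (fun k => f (x k)) = f (onorm x) := by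
  simp [onorm]

theorem kw_oc_map (f : R →+* S) (Z : Ix → R) (i : Fin 3) :
    oc (fun l => f (Z l)) i = fun k => f (oc Z i k) := rfl

theorem kw_dg_map (f : R →+* S) (Z : Ix → R) (i : Fin 3) :
    dg (fun l => f (Z l)) i = f (dg Z i) := rfl

theorem kw_nrm_map (f : R →+* S) (Z : Ix → R) : nrm (fun l => f (Z l)) = f (nrm Z) := by
  simp only [nrm, kw_oc_map, kw_dg_map, kw_omul_map, kw_onorm_map, map_add, map_sub, map_mul,
    map_sum, map_ofNat]

theorem kw_sharp_map (f : R →+* S) (Z : Ix → R) (i : Fin 3) :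
    dg (sharp fun l => f (Z l)) i = f (dg (sharp Z) i) := by
  simp only [dg_sharp, kw_oc_map, kw_dg_map, kw_onorm_map, map_sub, map_mul]

theorem kw_nrm_eq (Z : Ix → R) : nrm Z = dg Z 0 * dg Z 1 * dg Z 2 - (dg Z 0 * onorm (oc Z 0) +
    dg Z 1 * onorm (oc Z 1) + dg Z 2 * onorm (oc Z 2)) +
    2 * oip (oc Z 0) (oconj (omul (oc Z 1) (oc Z 2))) := by
  rw [nrm, Fin.sum_univ_three, omul_zero_eq, oip_cyc, oip_comm]

theorem kw_ip_left (a b c : Fin 8 → R) :
    oip (oconj (omul a b)) (oconj (omul a c)) = onorm a * oip b c := by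
  rw [oip_oconj]
  simp [omul_eq, oip, onorm, Fin.sum_univ_eight]
  ring

theorem kw_ip_right (a b c : Fin 8 → R) :
    oip (oconj (omul a c)) (oconj (omul b c)) = onorm c * oip a b := by
  rw [oip_oconj]
  simp [omul_eq, oip, onorm, Fin.sum_univ_eight]
  ring

theorem kw_add_oip (x y z : Fin 8 → R) : oip (x + y) z = oip x z + oip y z := by
  rw [oip_comm, oip_add, oip_comm z, oip_comm z]

theorem kw_sub_oip (x y z : Fin 8 → R) : oip (x - y) z = oip x z - oip y z := by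
  rw [oip_comm, oip_sub, oip_comm z, oip_comm z]

theorem kw_smul_oip (c : R) (x y : Fin 8 → R) : oip (c • x) y = c * oip x y := by
  rw [oip_comm, oip_smul, oip_comm y]

/-- The norm identity in coordinates free form. -/
theorem kw_core (i j e0 e1 e2 : R) (e a b a' b' : Fin 8 → R) (h : i * j * e0 = j - i) :
    (j - i) * (e1 - i * onorm b + j * onorm b') * (e2 - i * onorm a + j * onorm a') -
      ((j - i) * onorm (e - i • oconj (omul a b) + j • oconj (omul a' b')) +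
        (e1 - i * onorm b + j * onorm b') * onorm (i • a - j • a') +
        (e2 - i * onorm a + j * onorm a') * onorm (i • b - j • b')) +
      2 * oip (e - i • oconj (omul a b) + j • oconj (omul a' b'))
        (oconj (omul (i • a - j • a') (i • b - j • b'))) =
    i * j * (e0 * e1 * e2 - (e0 * onorm e + e1 * onorm (a - a') + e2 * onorm (b - b')) +
      2 * oip e (oconj (omul (a - a') (b - b')))) := by
  have h1 := kw_ip_left a b b'
  have h2 := kw_ip_right a a' b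
  have h3 := kw_ip_right a' a b'
  have h4 := kw_ip_left a' b' b
  have h5 := kw_ip_left a b b
  have h6 := kw_ip_left a' b' b'
  have h7 := oip_comm (oconj (omul a' b')) (oconj (omul a b))
  have h8 := oip_comm a' a
  have h9 := oip_comm b' b
  have h10 := oip_comm (oconj (omul a b)) e
  have h11 := oip_comm (oconj (omul a' b')) e
  simp only [onorm_eq] at h1 h2 h3 h4 h5 h6
  simp only [onorm_eq, omul_sub, sub_omul, omul_smul, smul_omul, oconj_sub, oconj_smul, oip_add,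
    oip_sub, oip_smul, kw_add_oip, kw_sub_oip, kw_smul_oip, h1, h2, h3, h4, h5, h6, h7, h8, h9,
    h10, h11]
  linear_combination (oip e e - e1 * e2) * h

end Gen

theorem kw_dg_sub (Z W : Ix → ℂ) (i : Fin 3) : dg (Z - W) i = dg Z i - dg W i := rfl

theorem kw_oc_sub (Z W : Ix → ℂ) (i : Fin 3) : oc (Z - W) i = oc Z i - oc W i := rfl

theorem kw_d0 (Z W : Ix → ℂ) (hz : dg Z 0 ≠ 0) (hw : dg W 0 ≠ 0) :
    dg (sw0 Z - sw0 W) 0 = (dg Z 0)⁻¹ * (dg W 0)⁻¹ * dg (Z - W) 0 := by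
  simp only [kw_dg_sub, sw0, dg_mkJ, Matrix.cons_val_zero]
  field_simp
  ring

theorem kw_d1 (Z W : Ix → ℂ) (hz : dg Z 0 ≠ 0) (hw : dg W 0 ≠ 0) :
    dg (sharp (sw0 Z - sw0 W)) 2 = (dg Z 0)⁻¹ * (dg W 0)⁻¹ * dg (sharp (Z - W)) 2 := by
  have e1 : (2 + 1 : Fin 3) = 0 := rfl
  have e2 : (2 + 2 : Fin 3) = 1 := rfl
  simp only [dg_sharp, e1, e2, kw_dg_sub, kw_oc_sub, sw0, dg_mkJ, oc_mkJ, Matrix.cons_val_zero,
    Matrix.cons_val_one, Matrix.cons_val, onorm_sub, onorm_smul, oip_smul, kw_smul_oip]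
  field_simp
  ring

theorem kw_d2 (Z W : Ix → ℂ) (hz : dg Z 0 ≠ 0) (hw : dg W 0 ≠ 0) :
    nrm (sw0 Z - sw0 W) = (dg Z 0)⁻¹ * (dg W 0)⁻¹ * nrm (Z - W) := by
  have h : (dg Z 0)⁻¹ * (dg W 0)⁻¹ * (dg Z 0 - dg W 0) = (dg W 0)⁻¹ - (dg Z 0)⁻¹ := by
    field_simp
  have hc := kw_core (dg Z 0)⁻¹ (dg W 0)⁻¹ (dg Z 0 - dg W 0) (dg Z 1 - dg W 1) (dg Z 2 - dg W 2)
    (oc Z 0 - oc W 0) (oc Z 1) (oc Z 2) (oc W 1) (oc W 2) h
  have h0 : oc Z 0 - (dg Z 0)⁻¹ • oconj (omul (oc Z 1) (oc Z 2)) -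
      (oc W 0 - (dg W 0)⁻¹ • oconj (omul (oc W 1) (oc W 2))) =
      oc Z 0 - oc W 0 - (dg Z 0)⁻¹ • oconj (omul (oc Z 1) (oc Z 2)) +
        (dg W 0)⁻¹ • oconj (omul (oc W 1) (oc W 2)) := by
    abel
  simp only [kw_nrm_eq, kw_dg_sub, kw_oc_sub, sw0, dg_mkJ, oc_mkJ, Matrix.cons_val_zero,
    Matrix.cons_val_one, Matrix.cons_val, h0]
  rw [← hc]
  simp only [div_eq_mul_inv]
  ring

theorem kw_sw0_conj (Z : Ix → ℂ) :
    sw0 (fun l => starRingEnd ℂ (Z l)) = fun l => starRingEnd ℂ (sw0 Z l) := by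
  apply ext_J
  · intro i
    rw [kw_dg_map]
    fin_cases i <;> simp [sw0, kw_dg_map, kw_oc_map, kw_onorm_map]
  · intro i
    rw [kw_oc_map]
    funext k
    fin_cases i <;> simp [sw0, kw_dg_map, kw_oc_map, kw_omul_map, kw_oconj_map]

theorem kw_sub_conj (Z : Ix → ℂ) :
    (Z - fun l => starRingEnd ℂ (Z l)) = (2 * I) • fun l => ofRealHom (Z l).im := by
  funext l
  simp only [Pi.sub_apply, Pi.smul_apply, smul_eq_mul, Complex.sub_conj, ofRealHom_eq_coe]
  push_cast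
  ring

theorem hh_sw0 (h : Z ∈ HH) : sw0 Z ∈ HH := by
  have hz : dg Z 0 ≠ 0 := fun h0 => by
    have := hh_im h 0
    rw [h0] at this
    simp at this
  have hw : dg (fun l => starRingEnd ℂ (Z l)) 0 ≠ 0 := by
    rw [kw_dg_map]
    exact (map_ne_zero _).2 hz
  have hn : (dg Z 0)⁻¹ * (dg (fun l => starRingEnd ℂ (Z l)) 0)⁻¹ =
      ((normSq (dg Z 0))⁻¹ : ℝ) := by
    rw [kw_dg_map, ← mul_inv, Complex.mul_conj, ofReal_inv]
  have hp : 0 < (normSq (dg Z 0))⁻¹ := inv_pos.2 (normSq_pos.2 hz)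
  have h0 := kw_d0 Z _ hz hw
  have h1 := kw_d1 Z _ hz hw
  have h2 := kw_d2 Z _ hz hw
  have hI : (2 * I : ℂ) ≠ 0 := mul_ne_zero two_ne_zero I_ne_zero
  have hs : ∀ (c : ℂ) (V : Ix → ℂ) (i : Fin 3), dg (c • V) i = c * dg V i := fun _ _ _ => rfl
  rw [hn, kw_sw0_conj, kw_sub_conj, kw_sub_conj] at h0 h1 h2
  rw [hs, hs, kw_dg_map, kw_dg_map, mul_left_comm] at h0
  rw [sharp_smul, sharp_smul, hs, hs, kw_sharp_map, kw_sharp_map, mul_left_comm] at h1
  rw [nrm_smul, nrm_smul, kw_nrm_map, kw_nrm_map, mul_left_comm] at h2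
  have g0 := mul_left_cancel₀ hI h0
  have g1 := mul_left_cancel₀ (pow_ne_zero 2 hI) h1
  have g2 := mul_left_cancel₀ (pow_ne_zero 3 hI) h2
  simp only [ofRealHom_eq_coe, ← ofReal_mul, ofReal_inj] at g0 g1 g2
  obtain ⟨p0, p1, p2⟩ := h
  refine ⟨?_, ?_, ?_⟩
  · rw [g0]; exact mul_pos hp p0
  · rw [g1]; exact mul_pos hp p1
  · rw [g2]; exact mul_pos hp p2

end Pool.Agent.E7.Kim
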