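import Pool.Agent.Lib.MP_7e5527_ag.E7.Stab

/-! One cusp: `G = Γ P`, and `Γ` is the stabiliser of the lattice. -/

noncomputable section

namespace Pool.Agent.E7

theorem kr_toR_mkJ (z : Fin 3 → ℚ) (x : Fin 3 → Fin 8 → ℚ) :
    toR ℂ (mkJ z x) = mkJ (fun i => (z i : ℂ)) fun i k => (x i k : ℂ) := by
  funext l
  rcases l with i | a <;> rfl

theorem kr_mk {n m : ℤ} {T T' : Ix → ℚ} (h : T ∈ Lam) (h' : T' ∈ Lam) :
    (((n : ℂ), toR ℂ T, toR ℂ T', (m : ℂ)) : W) ∈ WZ :=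
  ⟨⟨n, rfl⟩, ⟨T, h, rfl⟩, ⟨T', h', rfl⟩, m, rfl⟩

theorem WZ_map {g : Gb} (hg : g ∈ Gam) {v : W} (hv : v ∈ WZ) : g v ∈ WZ := by
  refine Gam_ind (p := fun g => ∀ v ∈ WZ, g v ∈ WZ) ?_ ?_ ?_
    (fun g _ g' _ h h' v hv => h _ (h' v hv)) g hg v hv
  · rintro B hB ⟨a, X, Y, d⟩ ⟨⟨n, rfl⟩, ⟨T, hT, rfl⟩, ⟨T', hT', rfl⟩, m, rfl⟩
    obtain ⟨k1, h1⟩ := Lam.tr_int hT' hB
    obtain ⟨k2, h2⟩ := Lam.tr_int hT (Lam.sharp_mem hB)
    obtain ⟨k3, h3⟩ := Lam.nrm_int hB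
    refine ⟨⟨n, rfl⟩, ⟨_, Lam.add hT (Lam.zsmul hB n), ?_⟩,
      ⟨_, Lam.add (Lam.add hT' (Lam.cross_mem hT hB)) (Lam.zsmul (Lam.sharp_mem hB) n), ?_⟩,
      m + k1 + k2 + n * k3, ?_⟩
    · simp only [nE_apply, nfun, toR_add, toR_smul, Rat.cast_intCast]
    · simp only [nE_apply, nfun, toR_add, toR_smul, Rat.cast_intCast, cross_toR, sharp_toR]
    · simp only [nE_apply, nfun, sharp_toR, tr_toR, nrm_toR, h1, h2, h3]
      push_cast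
      rfl
  · rintro A g hA hg ⟨a, X, Y, d⟩ ⟨⟨n, rfl⟩, ⟨T, hT, rfl⟩, ⟨T', hT', rfl⟩, m, rfl⟩
    rw [hg]
    refine ⟨⟨n, rfl⟩, ⟨_, (hA.2 T).2 hT, lin_toR _ _⟩, ⟨_, (hA.adj.symm.2 T').2 hT', ?_⟩, m, ?_⟩
    · simp only [mfun, lin_toR, Rat.cast_one, one_smul]
    · simp only [mfun, Rat.cast_one, one_mul]
  · rintro ⟨a, X, Y, d⟩ ⟨⟨n, rfl⟩, ⟨T, hT, rfl⟩, ⟨T', hT', rfl⟩, m, rfl⟩
    obtain ⟨k, hk⟩ := hT.1 0
    obtain ⟨k', hk'⟩ := hT'.1 0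
    refine ⟨⟨k, ?_⟩, ⟨mkJ ![-n, dg T' 2, dg T' 1] ![-oc T' 0, oc T 1, oc T 2], ⟨?_, ?_⟩, ?_⟩,
      ⟨mkJ ![m, -dg T 2, -dg T 1] ![oc T 0, oc T' 1, oc T' 2], ⟨?_, ?_⟩, ?_⟩, -k', ?_⟩
    · change dg (toR ℂ T) 0 = _
      rw [dg_toR, hk, Rat.cast_intCast]
    · intro i
      fin_cases i
      exacts [⟨-n, by simp⟩, hT'.1 2, hT'.1 1]
    · intro i
      fin_cases i
      exacts [(hT'.2 0).neg, hT.2 1, hT.2 2]
    · rw [kr_toR_mkJ]
      apply jext <;> simp [w0E, dg_toR, oc_toR, funext_iff]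
    · intro i
      fin_cases i
      exacts [⟨m, by simp⟩, (Lam.neg hT).1 2, (Lam.neg hT).1 1]
    · intro i
      fin_cases i
      exacts [hT.2 0, hT'.2 1, hT'.2 2]
    · rw [kr_toR_mkJ]
      apply jext <;> simp [w0E, dg_toR, oc_toR]
    · change -dg (toR ℂ T') 0 = _
      rw [dg_toR, hk', Rat.cast_intCast, Int.cast_neg]

theorem WZ_sub : WZ ⊆ WQ := by
  rintro v ⟨⟨n, h1⟩, ⟨T, -, h2⟩, ⟨T', -, h3⟩, m, h4⟩
  exact ⟨⟨n, by simpa using h1⟩, ⟨T, h2⟩, ⟨T', h3⟩, m, by simpa using h4⟩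

theorem exists_den_W {v : W} (hv : v ∈ WQ) : ∃ M : ℕ, 0 < M ∧ (M : ℂ) • v ∈ WZ := by
  obtain ⟨a, X, Y, d⟩ := v
  obtain ⟨⟨n, rfl⟩, ⟨T, rfl⟩, ⟨T', rfl⟩, m, rfl⟩ := hv
  obtain ⟨M, hM, h⟩ := exists_den T
  obtain ⟨M', hM', h'⟩ := exists_den T'
  have e : ∀ q : ℚ, (q.den : ℂ) * q = q.num := fun q => by exact_mod_cast q.den_mul_eq_num
  refine ⟨n.den * m.den * M * M', by have := n.den_pos; have := m.den_pos; positivity,
    ⟨m.den * M * M' * n.num, ?_⟩, ⟨_, Lam.nsmul h (n.den * m.den * M'), ?_⟩,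
    ⟨_, Lam.nsmul h' (n.den * m.den * M), ?_⟩, n.den * M * M' * m.num, ?_⟩
  · simp only [Prod.smul_mk, smul_eq_mul]
    push_cast
    rw [← e]
    ring
  · simp only [Prod.smul_mk, toR_smul, smul_smul]
    congr 1
    push_cast
    ring
  · simp only [Prod.smul_mk, toR_smul, smul_smul]
    congr 1
    push_cast
    ring
  · simp only [Prod.smul_mk, smul_eq_mul]
    push_cast
    rw [← e]
    ring

theorem kr_poly (g : Gb) : ∃ (a d : MvPolynomial Ix ℂ) (X Y : Ix → MvPolynomial Ix ℂ), ∀ Z,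
    g (rr Z) = (MvPolynomial.eval Z a, fun l => MvPolynomial.eval Z (X l),
      fun l => MvPolynomial.eval Z (Y l), MvPolynomial.eval Z d) := by
  obtain ⟨a, ha⟩ := polyFn_rr ((LinearMap.fst ℂ _ _).comp g.toLinearMap)
  obtain ⟨d, hd⟩ := polyFn_rr ((LinearMap.snd ℂ _ _).comp ((LinearMap.snd ℂ _ _).comp
    ((LinearMap.snd ℂ _ _).comp g.toLinearMap)))
  choose X hX using fun l : Ix => polyFn_rr ((LinearMap.proj l).comp ((LinearMap.fst ℂ _ _).comp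
    ((LinearMap.snd ℂ _ _).comp g.toLinearMap)))
  choose Y hY using fun l : Ix => polyFn_rr ((LinearMap.proj l).comp ((LinearMap.fst ℂ _ _).comp
    ((LinearMap.snd ℂ _ _).comp ((LinearMap.snd ℂ _ _).comp g.toLinearMap))))
  exact ⟨a, d, X, Y, fun Z => Prod.ext (ha Z) (Prod.ext (funext fun l => hX l Z)
    (Prod.ext (funext fun l => hY l Z) (hd Z)))⟩

theorem kr_smul (s : ℂ) {v : W} (h : sharp v.2.1 = v.1 • v.2.2.1 ∧
    sharp v.2.2.1 = v.2.2.2 • v.2.1 ∧ tr v.2.1 v.2.2.1 = 3 * (v.1 * v.2.2.2)) :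
    sharp (s • v).2.1 = (s • v).1 • (s • v).2.2.1 ∧
      sharp (s • v).2.2.1 = (s • v).2.2.2 • (s • v).2.1 ∧
      tr (s • v).2.1 (s • v).2.2.1 = 3 * ((s • v).1 * (s • v).2.2.2) := by
  simp only [Prod.smul_fst, Prod.smul_snd, sharp_smul, tr_smul_left, tr_smul_right, h.1, h.2.1,
    h.2.2, smul_eq_mul]
  exact ⟨by module, by module, by ring⟩

/-- The equations hold at `g (rr (s one3))`, `Im s > 0` (`act_spec`, `sharp_sharp`,
`tr_sharp_self`), are homogeneous and closed, and `s⁻¹ ^ 3 • rr (s one3)` tends to `ee`. -/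
theorem rank_one {g : Gb} (hg : g ∈ GG) (s : ℂ) {v : W} (hv : v = s • g ee) :
    sharp v.2.1 = v.1 • v.2.2.1 ∧ sharp v.2.2.1 = v.2.2.2 • v.2.1 ∧
      tr v.2.1 v.2.2.1 = 3 * (v.1 * v.2.2.2) := by
  obtain ⟨a, d, X, Y, h⟩ := kr_poly (g * wE)
  have h1 : ∀ Z ∈ HH, (∀ l, MvPolynomial.eval Z (sharp X l - a * Y l) = 0) ∧
      (∀ l, MvPolynomial.eval Z (sharp Y l - d * X l) = 0) ∧
      MvPolynomial.eval Z (tr X Y - 3 * (a * d)) = 0 := fun Z hZ => by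
    obtain ⟨-, -, e⟩ := act_spec (mul_mem hg (Gam_le wE_mem)) hZ
    have h2 := kr_smul (jf (g * wE) Z) (v := rr (act (g * wE) Z))
      ⟨(one_smul _ _).symm, sharp_sharp _, ((tr_comm _ _).trans (tr_sharp_self _)).trans
        (congrArg (3 * ·) (one_mul _).symm)⟩
    rw [← e, h] at h2
    simp only [sharp_map, tr_map, funext_iff, Pi.smul_apply, smul_eq_mul] at h2
    simp only [map_sub, map_mul, map_ofNat, sub_eq_zero]
    exact h2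
  have h3 : v = (-s) • (g * wE) (rr 0) := by
    have e : wE (rr 0) = -ee := by simp [wE, rr, ee, sharp_zero, nrm_zero]
    rw [hv, LinearEquiv.mul_apply, e, map_neg, smul_neg, neg_smul, neg_neg]
  rw [h3]
  refine kr_smul _ ?_
  rw [h]
  simp only [sharp_map, tr_map, funext_iff, Pi.smul_apply, smul_eq_mul, ← map_mul]
  refine ⟨fun l => ?_, fun l => ?_, ?_⟩
  · rw [sub_eq_zero.1 (poly_eq_zero fun Z hZ => (h1 Z hZ).1 l)]
  · rw [sub_eq_zero.1 (poly_eq_zero fun Z hZ => (h1 Z hZ).2.1 l)]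
  · rw [sub_eq_zero.1 (poly_eq_zero fun Z hZ => (h1 Z hZ).2.2), map_mul, map_ofNat]

/-- If the first coordinate of `γ v` vanishes for all `γ`, then `sy v (rr B) = 0` for `B` in the
lattice, so `v = 0` (a direct argument: test `nE B` after `wE`, with `B`, `-B`, `2 B`). -/
theorem exists_fst_ne {v : W} (hv : v ≠ 0) : ∃ γ ∈ Gam, (γ v).1 ≠ 0 := by
  by_contra h
  push Not at h
  have h1 : ∀ v : W, (∀ γ ∈ Gam, (γ v).1 = 0) → v.2.2.1 = 0 := fun v h => by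
    have a1 : v.1 = 0 := h 1 (one_mem _)
    have a2 : v.2.2.2 = 0 := h wE wE_mem
    have a3 : yc v.2.2.1 = (0 : ℂ) • yc v.2.2.1 := by
      funext i
      have e : (nfun (toR ℂ (TT i)) v).2.2.2 = 0 :=
        h (wE * nE (toR ℂ (TT i))) (mul_mem wE_mem (nE_mem_Gam (TT_mem i)))
      simp only [nfun, a1, a2, sharp_toR, sharp_TT, toR_zero, tr_zero_right, zero_mul, zero_add,
        add_zero] at e
      rw [zero_smul, yc, tr_comm]
      exact e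
    rw [← pt_yc v.2.2.1, a3, pt_smul, zero_smul]
  exact hv (Prod.ext (h 1 (one_mem _)) (Prod.ext
    (h1 (wE v) fun γ hγ => h (γ * wE) (mul_mem hγ wE_mem)) (Prod.ext (h1 v h) (h wE wE_mem))))

theorem kr_dg (i : Fin 3) : ∃ γ ∈ Gam, ∀ v : W, (γ v).1 = dg v.2.1 i := by
  fin_cases i
  exacts [⟨w0E, w0E_mem, fun _ => rfl⟩,
    ⟨w0E * (cE * cE), mul_mem w0E_mem (mul_mem cE_mem cE_mem), fun _ => rfl⟩,
    ⟨w0E * cE, mul_mem w0E_mem cE_mem, fun _ => rfl⟩]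

theorem kr_red {T : Ix → ℚ} (hT : T ∈ Lam) {a : ℤ} (ha : a ≠ 0) : ∃ B ∈ Lam,
    (∀ i, |dg (T + (a : ℚ) • B) i| < |(a : ℚ)|) ∧
      ∀ i, onorm (oc (T + (a : ℚ) • B) i) < (a : ℚ) ^ 2 := by
  have ha' : (a : ℚ) ≠ 0 := Int.cast_ne_zero.2 ha
  choose n hn using hT.1
  choose u hu hu' using fun i => cover_rat ((a : ℚ)⁻¹ • oc T i)
  refine ⟨mkJ (fun i => ((-(n i / a) : ℤ) : ℚ)) fun i => -u i, ⟨fun i => ⟨_, rfl⟩,
    fun i => (hu i).neg⟩, fun i => ?_, fun i => ?_⟩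
  · have e : n i + a * -(n i / a) = n i % a := by rw [Int.emod_def]; ring
    have h1 : |n i + a * -(n i / a)| < |a| := by
      rw [e, abs_of_nonneg (Int.emod_nonneg _ ha)]
      exact Int.emod_lt_abs _ ha
    rw [dg_add, dg_smul, dg_mkJ, hn]
    exact_mod_cast h1
  · have e : oc T i + (a : ℚ) • -u i = (a : ℚ) • ((a : ℚ)⁻¹ • oc T i - u i) := by
      rw [smul_sub, smul_inv_smul₀ ha', smul_neg, sub_eq_add_neg]
    rw [oc_add, oc_smul, oc_mkJ, e, onorm_smul]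
    nlinarith [hu' i, sq_pos_of_ne_zero ha']

theorem kr_zero {a : ℤ} (ha : a ≠ 0) {T T' : Ix → ℚ} {d : ℂ} {v : W}
    (hv : v = ((a : ℂ), toR ℂ T, toR ℂ T', d))
    (hm : ∀ γ ∈ Gam, ∀ q : ℚ, (γ v).1 = q → |q| < |(a : ℚ)| → q = 0)
    (h1 : ∀ i, |dg T i| < |(a : ℚ)|) (h2 : ∀ i, onorm (oc T i) < (a : ℚ) ^ 2)
    (h3 : sharp v.2.1 = v.1 • v.2.2.1) (h4 : tr v.2.1 v.2.2.1 = 3 * (v.1 * v.2.2.2)) :
    wE v = (-(a : ℂ)) • ee := by
  subst hv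
  have ha' : (a : ℚ) ≠ 0 := Int.cast_ne_zero.2 ha
  have hc : (a : ℂ) ≠ 0 := Int.cast_ne_zero.2 ha
  have b1 : ∀ i, dg T i = 0 := fun i => by
    obtain ⟨γ, hγ, e⟩ := kr_dg i
    exact hm γ hγ _ ((e _).trans (dg_toR T i)) (h1 i)
  have b2 : sharp T = (a : ℚ) • T' := toR_inj (F := ℂ) (by
    rw [← sharp_toR, toR_smul, Rat.cast_intCast]; exact h3)
  have b3 : ∀ i, (a : ℚ) * dg T' i = -onorm (oc T i) := fun i => by
    have e : dg (sharp T) i = dg T (i + 1) * dg T (i + 2) - onorm (oc T i) := rfl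
    rw [← dg_smul, ← b2, e, b1, zero_mul, zero_sub]
  have b4 : ∀ i, oc T i = 0 := fun i => by
    obtain ⟨γ, hγ, e⟩ := kr_dg i
    have c1 : -dg T' i = 0 := by
      refine hm (γ * wE) (mul_mem hγ wE_mem) _ ((e _).trans ?_) ?_
      · change dg (-toR ℂ T') i = _
        rw [dg_neg, dg_toR, Rat.cast_neg]
      · refine lt_of_mul_lt_mul_left ?_ (abs_nonneg (a : ℚ))
        rw [← abs_mul, mul_neg, b3, neg_neg, abs_of_nonneg (onorm_nonneg _), abs_mul_abs_self, ← sq]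
        exact h2 i
    have c2 := b3 i
    rw [neg_eq_zero.1 c1, mul_zero] at c2
    exact onorm_eq_zero (neg_eq_zero.1 c2.symm)
  obtain rfl : T = 0 := jext (b1 0) (b1 1) (b1 2) (b4 0) (b4 1) (b4 2)
  obtain rfl : T' = 0 := (smul_eq_zero.1 (b2.symm.trans sharp_zero)).resolve_left ha'
  simp only [toR_zero, tr_zero_left] at h4
  obtain rfl : d = 0 := by simpa [hc] using h4
  simp [wE, ee, toR_zero]

/-- Take `v = M • g ee ∈ WZ` and `γ` with `|(γ v).1|` minimal and not zero. Translate so that the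
diagonal entries of the second block are less than `|a|` and the octonions have norm less than
`a ^ 2` (`cover_rat`). `w0E` and its conjugates by `cE` move these diagonal entries to the first
place, `wE * w0E⁻¹` and conjugates move the diagonal of the third block there; `rank_one` gives
that the vector is `(a, 0, 0, 0)`. Apply `wE`, then `stab`. -/
theorem krut {g : Gb} (hg : g ∈ GG) : ∃ γ ∈ Gam, ∃ t B A c, IsP (γ * g) t B A c := by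
  classical
  have he : ee ∈ WQ := ⟨⟨0, by simp [ee]⟩, ⟨0, toR_zero.symm⟩, ⟨0, toR_zero.symm⟩, 1, by simp [ee]⟩
  obtain ⟨M, hM, hv⟩ := exists_den_W (WQ_map hg he)
  have hM' : (M : ℂ) ≠ 0 := Nat.cast_ne_zero.2 hM.ne'
  have h0 : (M : ℂ) • g ee ≠ 0 :=
    smul_ne_zero hM' (by simp [ee, Prod.ext_iff.not.2, g.map_eq_zero_iff])
  have hex : ∃ n : ℕ, ∃ γ ∈ Gam, ∃ a : ℤ, a ≠ 0 ∧ (γ ((M : ℂ) • g ee)).1 = a ∧ a.natAbs = n := by
    obtain ⟨γ, hγ, h⟩ := exists_fst_ne h0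
    obtain ⟨a, ha⟩ := (WZ_map hγ hv).1
    exact ⟨_, γ, hγ, a, fun e => h (by rw [ha, e, Int.cast_zero]), ha, rfl⟩
  obtain ⟨γ, hγ, a, ha, e1, e2⟩ := Nat.find_spec hex
  obtain ⟨-, ⟨T, hT, e3⟩, -⟩ := WZ_map hγ hv
  obtain ⟨B, hB, h1, h2⟩ := kr_red hT ha
  have hγ' := mul_mem (nE_mem_Gam hB) hγ
  obtain ⟨-, -, ⟨T', -, e4⟩, -⟩ := WZ_map hγ' hv
  obtain ⟨r1, -, r2⟩ := rank_one (mul_mem (Gam_le hγ') hg) M
    (v := (nE (toR ℂ B) * γ) ((M : ℂ) • g ee)) (map_smul _ _ _)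
  have e5 := kr_zero ha (T := T + (a : ℚ) • B) (T' := T')
    (v := (nE (toR ℂ B) * γ) ((M : ℂ) • g ee)) (Prod.ext e1 (Prod.ext (by
    change (γ _).2.1 + (γ _).1 • _ = toR ℂ _
    rw [e1, e3, toR_add, toR_smul, Rat.cast_intCast]) (Prod.ext e4 rfl))) (fun δ hδ q hq hl => by
      obtain ⟨b, hb⟩ := (WZ_map (mul_mem hδ hγ') hv).1
      obtain rfl : q = b := by exact_mod_cast hq.symm.trans hb
      by_contra hne
      have c1 := Nat.find_min' hex ⟨_, mul_mem hδ hγ', b, fun e => hne (by simp [e]), hb, rfl⟩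
      have c2 : |b| < |a| := by exact_mod_cast hl
      rw [← e2] at c1
      rw [Int.abs_eq_natAbs, Int.abs_eq_natAbs] at c2
      omega) h1 h2 r1 r2
  refine ⟨wE * (nE (toR ℂ B) * γ), mul_mem wE_mem hγ',
    stab (mul_mem (Gam_le (mul_mem wE_mem hγ')) hg) (s := (M : ℂ)⁻¹ * -(a : ℂ)) ?_⟩
  rw [mul_smul, ← e5, map_smul, map_smul, inv_smul_smul₀ hM']
  rfl

theorem kr_iff {γ : Gb} (hγ : γ ∈ Gam) (v : W) : γ v ∈ WZ ↔ v ∈ WZ :=
  ⟨fun h => by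
    have e := WZ_map (inv_mem hγ) h
    rwa [← LinearEquiv.mul_apply, inv_mul_cancel] at e, WZ_map hγ⟩

theorem kr_unit {q : ℚ} {n m : ℤ} (h : (q : ℂ) = n) (h' : (q : ℂ) * m = 1) : q = 1 ∨ q = -1 := by
  obtain rfl : q = n := by exact_mod_cast h
  have e : n * m = 1 := by exact_mod_cast h'
  exact_mod_cast Int.eq_one_or_neg_one_of_mul_eq_one e

/-- By `krut` assume `g` parabolic; test on `(1,0,0,0)`, `(0,T,0,0)`, `ee` and use `g⁻¹`: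
`t = ±1`, `c = 1`, `A` integral, `B ∈ Lam`; `-1 = wE ^ 2`. -/
theorem mem_Gam_of_WZ {g : Gb} (hg : g ∈ GG) (h : ∀ v, g v ∈ WZ ↔ v ∈ WZ) : g ∈ Gam := by
  obtain ⟨γ, hγ, t, B, A, c, ht, hA, e⟩ := krut hg
  have h1 : ∀ v, (γ * g) v ∈ WZ ↔ v ∈ WZ := fun v => (kr_iff hγ _).trans (h v)
  refine (mul_mem_cancel_left hγ).1 ?_
  generalize γ * g = g at e h1
  have z1 : ((1, 0, 0, 0) : W) ∈ WZ := by
    simpa [toR_zero] using kr_mk (n := 1) (m := 0) Lam.zero Lam.zero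
  have a1 := (h1 _).2 z1
  have ht1 : t = 1 ∨ t = -1 := by
    obtain ⟨n, hn⟩ := a1.1
    obtain ⟨m, hm⟩ := ((h1 (g.symm (1, 0, 0, 0))).1 (by simpa using z1)).1
    have e1 := congrArg Prod.fst (e (g.symm (1, 0, 0, 0)))
    refine kr_unit (n := n) (m := m) (by simpa [e, nfun, mfun] using hn) ?_
    simpa [nfun, mfun, hm] using e1.symm
  obtain ⟨τ, hτ, eτ⟩ : ∃ τ ∈ Gam, ∀ v, τ v = (t : ℂ) • v := by
    rcases ht1 with rfl | rfl
    · exact ⟨1, one_mem _, fun v => by simp⟩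
    · exact ⟨wE * wE, mul_mem wE_mem wE_mem, fun v => (wE_sq v).trans (by simp)⟩
  have hB : B ∈ Lam := by
    rw [e, ← eτ, kr_iff hτ] at a1
    obtain ⟨-, ⟨T, hT, e1⟩, -⟩ := a1
    obtain rfl : B = T := toR_inj (F := ℂ) (by simpa [nfun, mfun, lin_zero] using e1)
    exact hT
  obtain ⟨m, hm⟩ := exists_m hA
  have hn := mul_mem hτ (nE_mem_Gam hB)
  obtain rfl : g = τ * nE (toR ℂ B) * m := LinearEquiv.ext fun v => by
    rw [e, ← eτ, ← hm]; rfl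
  have h2 : ∀ v, mfun A c v ∈ WZ ↔ v ∈ WZ := fun v => by
    rw [← hm, ← kr_iff hn]; exact h1 v
  have hc : (c : ℂ) ≠ 0 := Rat.cast_ne_zero.2 hA.pos.ne'
  have z2 : ((0, 0, 0, 1) : W) ∈ WZ := by
    simpa [toR_zero] using kr_mk (n := 0) (m := 1) Lam.zero Lam.zero
  obtain rfl : c = 1 := by
    obtain ⟨n, hn⟩ := ((h2 _).2 z2).2.2.2
    obtain ⟨k, hk⟩ := ((h2 (0, 0, 0, (c : ℂ)⁻¹)).1 (by simpa [mfun, lin_zero, hc] using z2)).2.2.2
    refine (kr_unit (n := n) (m := k) (by simpa [mfun] using hn) ?_).resolve_right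
      fun e => by linarith [hA.pos]
    rw [← hk]
    exact mul_inv_cancel₀ hc
  have h3 : ∀ T : Ix → ℚ, ((0, toR ℂ T, 0, 0) : W) ∈ WZ ↔ T ∈ Lam := fun T =>
    ⟨fun ⟨_, ⟨T', hT, e1⟩, _⟩ => toR_inj (F := ℂ) e1 ▸ hT, fun hT => by
      simpa [toR_zero] using kr_mk (n := 0) (m := 0) hT Lam.zero⟩
  refine mul_mem hn (hm.mem_Gam ⟨hA, fun T => ?_⟩)
  rw [← h3, ← h3, ← h2 (0, toR ℂ T, 0, 0)]
  simp [mfun, lin_zero, lin_toR]

end Pool.Agent.E7
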