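import Pool.Agent.Lib.MP_7e5527_ag.E7.GDefs

/-! Casts, rational matrices, adjoints, similitudes. -/

noncomputable section

namespace Pool.Agent.E7

section Cast

variable {F : Type} [Field F] [CharZero F]

theorem toR_rat (T : Ix → ℚ) : toR ℚ T = T := by
  rfl

theorem toR_add (T T' : Ix → ℚ) : toR F (T + T') = toR F T + toR F T' := by
  funext l; simp [toR]

theorem toR_sub (T T' : Ix → ℚ) : toR F (T - T') = toR F T - toR F T' := by
  funext l; simp [toR]

theorem toR_neg (T : Ix → ℚ) : toR F (-T) = -toR F T := by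
  funext l; simp [toR]

theorem toR_zero : toR F 0 = 0 := by
  funext l; simp [toR]

theorem toR_smul (c : ℚ) (T : Ix → ℚ) : toR F (c • T) = (c : F) • toR F T := by
  funext l; simp [toR]

theorem toR_sum {α : Type} (s : Finset α) (T : α → Ix → ℚ) :
    toR F (∑ a ∈ s, T a) = ∑ a ∈ s, toR F (T a) := by
  funext l; simp [toR]

theorem toR_inj {T T' : Ix → ℚ} (h : toR F T = toR F T') : T = T' := by
  exact funext fun l => Rat.cast_injective (α := F) (congrFun h l)

theorem dg_toR (T : Ix → ℚ) (i : Fin 3) : dg (toR F T) i = (dg T i : ℚ) := by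
  rfl

theorem oc_toR (T : Ix → ℚ) (i : Fin 3) : oc (toR F T) i = fun k => ((oc T i k : ℚ) : F) := by
  rfl

theorem toR_ed (i : Fin 3) : toR F (ed i) = ed i := by
  funext l
  rcases l with j | a <;> simp [toR, ed, mkJ, Pi.single_apply, apply_ite]

theorem toR_one3 : toR F one3 = one3 := by
  funext l
  rcases l with j | a <;> simp [toR, one3, mkJ]

theorem toR_single (l : Ix) : toR F (Pi.single l 1) = Pi.single l 1 := by
  funext j; by_cases h : j = l <;> simp [toR, h]

theorem tr_toR (T T' : Ix → ℚ) : tr (toR F T) (toR F T') = (tr T T' : ℚ) := by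
  exact tr_map (Rat.castHom F) T T'

theorem sharp_toR (T : Ix → ℚ) : sharp (toR F T) = toR F (sharp T) := by
  exact sharp_map (Rat.castHom F) T

theorem cross_toR (T T' : Ix → ℚ) : cross (toR F T) (toR F T') = toR F (cross T T') := by
  exact cross_map (Rat.castHom F) T T'

theorem nrm_toR (T : Ix → ℚ) : nrm (toR F T) = (nrm T : ℚ) := by
  exact nrm_map (Rat.castHom F) T

theorem onorm_cast (x : Fin 8 → ℚ) : onorm (fun k => (x k : F)) = (onorm x : ℚ) := by
  exact onorm_map (Rat.castHom F) x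

theorem oip_cast (x y : Fin 8 → ℚ) :
    oip (fun k => (x k : F)) (fun k => (y k : F)) = (oip x y : ℚ) := by
  exact oip_map (Rat.castHom F) x y


theorem lin_cast (A : Matrix Ix Ix ℚ) (Z : Ix → F) :
    lin A Z = (A.map (Rat.castHom F)).mulVec Z := rfl

omit [CharZero F] in
theorem lin_apply (A : Matrix Ix Ix ℚ) (Z : Ix → F) (l : Ix) :
    lin A Z l = ∑ j, (A l j : F) * Z j := rfl

theorem lin_wt (l : Ix) : (wt l : F) ≠ 0 := by
  rcases l with i | a <;> simp [wt]

theorem lin_add (A : Matrix Ix Ix ℚ) (Z Z' : Ix → F) : lin A (Z + Z') = lin A Z + lin A Z' := by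
  exact Matrix.mulVec_add _ _ _

theorem lin_sub (A : Matrix Ix Ix ℚ) (Z Z' : Ix → F) : lin A (Z - Z') = lin A Z - lin A Z' := by
  exact Matrix.mulVec_sub _ _ _

theorem lin_smul (A : Matrix Ix Ix ℚ) (c : F) (Z : Ix → F) : lin A (c • Z) = c • lin A Z := by
  exact Matrix.mulVec_smul _ _ _

theorem lin_zero (A : Matrix Ix Ix ℚ) : lin A (0 : Ix → F) = 0 := by
  exact Matrix.mulVec_zero _

theorem lin_one (Z : Ix → F) : lin 1 Z = Z := by
  rw [lin_cast, Matrix.map_one _ (map_zero _) (map_one _), Matrix.one_mulVec]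

theorem lin_mul (A B : Matrix Ix Ix ℚ) (Z : Ix → F) : lin (A * B) Z = lin A (lin B Z) := by
  simp only [lin_cast, Matrix.map_mul, Matrix.mulVec_mulVec]

theorem lin_toR (A : Matrix Ix Ix ℚ) (T : Ix → ℚ) : lin A (toR F T) = toR F (lin A T) := by
  funext l; simp [toR, lin_apply]

theorem lin_map {F' : Type} [Field F'] [CharZero F'] (f : F →+* F') (A : Matrix Ix Ix ℚ)
    (Z : Ix → F) : lin A (fun l => f (Z l)) = fun l => f (lin A Z l) := by
  funext l; simp [lin_apply]

theorem lin_inv_lin {A : Matrix Ix Ix ℚ} (hA : IsUnit A.det) (Z : Ix → F) :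
    lin A⁻¹ (lin A Z) = Z := by
  rw [← lin_mul, Matrix.nonsing_inv_mul _ hA, lin_one]

theorem lin_lin_inv {A : Matrix Ix Ix ℚ} (hA : IsUnit A.det) (Z : Ix → F) :
    lin A (lin A⁻¹ Z) = Z := by
  rw [← lin_mul, Matrix.mul_nonsing_inv _ hA, lin_one]

theorem lin_ext {A B : Matrix Ix Ix ℚ} (h : ∀ Z : Ix → F, lin A Z = lin B Z) : A = B := by
  ext l l'
  have := congrFun (h (Pi.single l' 1)) l
  simpa [lin] using this

theorem tr_lin (A : Matrix Ix Ix ℚ) (T Z : Ix → F) :
    tr T (lin A Z) = tr (lin (adjM A) T) Z := by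
  simp only [tr_eq_sum, lin_apply, Finset.mul_sum, Finset.sum_mul]
  rw [Finset.sum_comm]
  refine Finset.sum_congr rfl fun l _ => Finset.sum_congr rfl fun l' _ => ?_
  have := lin_wt (F := F) l
  simp only [adjM, Matrix.of_apply]
  push_cast
  field_simp


/-- A map that commutes with casts and is linear over `F` is given by its matrix. -/
theorem lin_matOf (f : (Ix → ℚ) → Ix → ℚ) (g : (Ix → F) → Ix → F)
    (ha : ∀ X Y, g (X + Y) = g X + g Y) (hs : ∀ (c : F) X, g (c • X) = c • g X)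
    (hc : ∀ T, g (toR F T) = toR F (f T)) (Z : Ix → F) : lin (matOf f) Z = g Z := by
  let G : (Ix → F) →ₗ[F] Ix → F := ⟨⟨g, ha⟩, hs⟩
  have e := G.pi_apply_eq_sum_univ Z
  funext l
  rw [show g Z = _ from e, lin_apply, Finset.sum_apply]
  refine Finset.sum_congr rfl fun j _ => ?_
  have e2 : (fun i => if j = i then (1 : F) else 0) = toR F (Pi.single j 1) := by
    rw [toR_single]; funext i; simp [Pi.single_apply, eq_comm]
  rw [e2, show G (toR F (Pi.single j 1)) = _ from hc _, Pi.smul_apply, smul_eq_mul, mul_comm]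
  rfl

theorem lin_cyc (Z : Ix → F) : lin (matOf cyc) Z = cyc Z := by
  exact lin_matOf _ _ cyc_add cyc_smul (fun T => by apply jext <;> rfl) Z

theorem lin_swp (Z : Ix → F) : lin (matOf swp) Z = swp Z := by
  refine lin_matOf _ _ swp_add swp_smul (fun T => ?_) Z
  exact jext rfl rfl rfl (oconj_map (Rat.castHom F) _) (oconj_map (Rat.castHom F) _)
    (oconj_map (Rat.castHom F) _)

theorem lin_elm (u : Fin 8 → ℚ) (Z : Ix → F) :
    lin (matOf (elm u)) Z = elm (fun k => (u k : F)) Z := by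
  refine lin_matOf _ _ (elm_add _) (elm_smul _) (fun T => ?_) Z
  have hc : ∀ x : Fin 8 → ℚ, (oconj fun k => (x k : F)) = fun k => ((oconj x k : ℚ) : F) :=
    oconj_map (Rat.castHom F)
  have hm : ∀ x y : Fin 8 → ℚ, (omul (fun k => (x k : F)) fun k => (y k : F)) =
      fun k => ((omul x y k : ℚ) : F) := omul_map (Rat.castHom F)
  refine jext rfl rfl ?_ ?_ ?_ rfl
  · simp [elm, dg_toR, oc_toR, hc, oip_cast, onorm_cast]
  · funext k; simp [elm, dg_toR, oc_toR, hc]
  · funext k; simp [elm, oc_toR, hc, hm]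


end Cast

theorem im_lin (A : Matrix Ix Ix ℚ) (Z : Ix → ℂ) :
    (fun l => (lin A Z l).im) = lin A fun l => (Z l).im := by
  funext l; simp [lin_apply]

theorem im_tr (T : Ix → ℚ) (Z : Ix → ℂ) :
    (tr (toR ℂ T) Z).im = tr (toR ℝ T) fun l => (Z l).im := by
  simp [tr_eq_sum, toR]


theorem adjM_adjM (A : Matrix Ix Ix ℚ) : adjM (adjM A) = A := by
  ext l l'
  have := lin_wt (F := ℚ) l
  have := lin_wt (F := ℚ) l'
  simp only [adjM, Matrix.of_apply]
  field_simp

theorem adjM_one : adjM 1 = 1 := by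
  exact lin_ext (F := ℚ) fun T => eq_of_tr fun Z => by rw [← tr_lin, lin_one, lin_one]

theorem adjM_mul (A B : Matrix Ix Ix ℚ) : adjM (A * B) = adjM B * adjM A := by
  exact lin_ext (F := ℚ) fun T => eq_of_tr fun Z => by
    rw [← tr_lin, lin_mul, lin_mul, tr_lin, tr_lin]

theorem det_adjM (A : Matrix Ix Ix ℚ) : (adjM A).det = A.det := by
  have e : adjM A = Matrix.diagonal (fun l => (wt l : ℚ)⁻¹) * A.transpose *
      Matrix.diagonal fun l => (wt l : ℚ) := by
    ext l l'; simp [adjM]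
  rw [e, Matrix.det_mul, Matrix.det_mul, Matrix.det_transpose, mul_right_comm, ← Matrix.det_mul,
    Matrix.diagonal_mul_diagonal]
  simp [inv_mul_cancel₀ (lin_wt (F := ℚ) _)]

theorem adjM_inv {A : Matrix Ix Ix ℚ} (hA : IsUnit A.det) : adjM A⁻¹ = (adjM A)⁻¹ := by
  symm
  apply Matrix.inv_eq_left_inv
  rw [← adjM_mul, Matrix.mul_nonsing_inv _ hA, adjM_one]

theorem lin_adj_cyc {F : Type} [Field F] [CharZero F] (T : Ix → F) :
    lin (adjM (matOf cyc)) T = cyc (cyc T) := by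
  exact eq_of_tr fun Z => by rw [← tr_lin, lin_cyc, ← tr_cyc (cyc (cyc T)), cyc_cyc_cyc]

theorem lin_adj_swp {F : Type} [Field F] [CharZero F] (T : Ix → F) :
    lin (adjM (matOf swp)) T = swp T := by
  exact eq_of_tr fun Z => by rw [← tr_lin, lin_swp, ← tr_swp (swp T), swp_swp]

theorem lin_adj_elm {F : Type} [Field F] [CharZero F] (u : Fin 8 → ℚ) (T : Ix → F) :
    lin (adjM (matOf (elm u))) T = swp (elm (oconj fun k => (u k : F)) (swp T)) := by
  exact eq_of_tr fun Z => by rw [← tr_lin, lin_elm, tr_elm]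


/-- The norm identity over any field that embeds in `ℂ` (`nrm_map`, `lin_map`). -/
theorem IsSim.nrm_lin {A : Matrix Ix Ix ℚ} {c : ℚ} (h : IsSim A c) {F : Type} [Field F]
    [CharZero F] (f : F →+* ℂ) (Z : Ix → F) : nrm (lin A Z) = c * nrm Z := by
  apply f.injective
  rw [← nrm_map, ← lin_map, h.2.1, nrm_map, map_mul, map_ratCast]


/-- Compare the terms linear in `t` of `nrm (A (Z + t Y)) = c nrm (Z + t Y)` (`nrm_add` at
`t = 1, -1, 2`), then `tr_lin` and `eq_of_tr`. -/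
theorem IsSim.sharp_lin {A : Matrix Ix Ix ℚ} {c : ℚ} (h : IsSim A c) {F : Type} [Field F]
    [CharZero F] (f : F →+* ℂ) (Z : Ix → F) :
    sharp (lin A Z) = (c : F) • lin (adjM A)⁻¹ (sharp Z) := by
  have e : lin (adjM A) (sharp (lin A Z)) = (c : F) • sharp Z := eq_of_tr fun Y => by
    have h1 := h.nrm_lin f (Z + Y)
    have h2 := h.nrm_lin f (Z + (-1 : F) • Y)
    have h3 := h.nrm_lin f Y
    rw [lin_add, nrm_add, nrm_add] at h1
    rw [lin_add, lin_smul, nrm_add, nrm_add] at h2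
    simp only [sharp_smul, tr_smul_right, nrm_smul] at h2
    rw [← tr_lin, tr_smul_left]
    linear_combination (1 / 2 : F) * h1 - (1 / 2 : F) * h2 - h3
  rw [← lin_smul, ← e, lin_inv_lin (by rw [det_adjM]; exact h.1)]


theorem one3_mem : (one3 : Ix → ℝ) ∈ Om := by
  simp [Om, one3, dg_sharp_2, nrm_eq, onorm_zero, omul_zero_left, oip_zero_left]

theorem IsSim.pos {A : Matrix Ix Ix ℚ} {c : ℚ} (h : IsSim A c) : 0 < c := by
  have h1 := ((h.2.2 _).2 one3_mem).2.2
  rw [h.nrm_lin Complex.ofRealHom] at h1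
  exact_mod_cast (mul_pos_iff_of_pos_right one3_mem.2.2).1 h1

theorem IsSim.one : IsSim 1 1 := by
  exact ⟨by simp, fun Z => by simp [lin_one], fun Y => by rw [lin_one]⟩

theorem IsSim.mul {A B : Matrix Ix Ix ℚ} {c d : ℚ} (h : IsSim A c) (h' : IsSim B d) :
    IsSim (A * B) (c * d) := by
  refine ⟨by rw [Matrix.det_mul]; exact h.1.mul h'.1, fun Z => ?_, fun Y => ?_⟩
  · rw [lin_mul, h.2.1, h'.2.1]; push_cast; ring
  · rw [lin_mul, h.2.2, h'.2.2]

theorem IsSim.symm {A : Matrix Ix Ix ℚ} {c : ℚ} (h : IsSim A c) : IsSim A⁻¹ c⁻¹ := by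
  refine ⟨Matrix.isUnit_nonsing_inv_det _ h.1, fun Z => ?_, fun Y => ?_⟩
  · have h1 := h.2.1 (lin A⁻¹ Z)
    have h2 : (c : ℂ) ≠ 0 := by exact_mod_cast h.pos.ne'
    rw [lin_lin_inv h.1] at h1
    rw [h1]; push_cast; field_simp
  · rw [← h.2.2, lin_lin_inv h.1]

theorem IsSimZ.one : IsSimZ 1 := by
  exact ⟨IsSim.one, fun T => by rw [lin_one]⟩

theorem IsSimZ.mul {A B : Matrix Ix Ix ℚ} (h : IsSimZ A) (h' : IsSimZ B) : IsSimZ (A * B) := by
  exact ⟨by simpa using h.1.mul h'.1, fun T => by rw [lin_mul, h.2, h'.2]⟩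

theorem IsSimZ.symm {A : Matrix Ix Ix ℚ} (h : IsSimZ A) : IsSimZ A⁻¹ := by
  exact ⟨by simpa using h.1.symm, fun T => by rw [← h.2, lin_lin_inv h.1.1]⟩


end Pool.Agent.E7
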