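import Pool.Agent.Lib.MP_7e5527_ag.E7.Good2

/-! Forms of arbitrary level, traces, the class sums. -/

noncomputable section

namespace Pool.Agent.E7

theorem mfs_inv {k : ℤ} {F : Fn} (h : Gd F) (hi : Inv Gam k F) : MF k F :=
  ⟨fun γ hγ => (hi γ hγ).symm ▸ h, (Set.finite_singleton F).subset fun _ ⟨γ, hγ, e⟩ =>
    e.trans (hi γ hγ)⟩

theorem mfs_two {k l m : ℤ} {F G H : Fn} (hF : MF k F) (hG : MF l G) (op : Fn → Fn → Fn)
    (h1 : ∀ X Y, X ∈ GQ → Y ∈ GQ → op X Y ∈ GQ)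
    (h2 : ∀ γ ∈ Gam, sl m γ H = op (sl k γ F) (sl l γ G)) : MF m H :=
  ⟨fun γ hγ => (h2 γ hγ).symm ▸ h1 _ _ (hF.1 γ hγ) (hG.1 γ hγ),
    (hF.2.image2 op hG.2).subset fun _ ⟨γ, hγ, e⟩ =>
      ⟨_, ⟨γ, hγ, rfl⟩, _, ⟨γ, hγ, rfl⟩, (e.trans (h2 γ hγ)).symm⟩⟩

theorem mfs_congr {F : Fn} {a b : (Ix → ℚ) → ℂ} (h : GoodC F a) (e : ∀ T, a T = b T) :
    GoodC F b := funext e ▸ h

theorem MF.gd {k : ℤ} {F : Fn} (h : MF k F) : Gd F := by
  simpa only [sl_one] using h.1 1 (one_mem _)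

theorem MF.zero (k : ℤ) : MF k 0 := by
  exact mfs_inv ⟨_, GoodC.zero⟩ (Inv.zero _ _)

theorem MF.one : MF 0 1 := by
  exact mfs_inv ⟨_, GoodC.one⟩ (Inv.one _)

theorem MF.add {k : ℤ} {F G : Fn} (hF : MF k F) (hG : MF k G) : MF k (F + G) := by
  exact mfs_two hF hG (· + ·) (fun _ _ => GQ.add_mem) fun γ _ => sl_add k γ F G

theorem MF.smul {k : ℤ} {F : Fn} (hF : MF k F) (c : ℂ) : MF k (c • F) := by
  exact mfs_two hF hF (fun X _ => c • X) (fun _ _ h _ => GQ.smul_mem h c) fun γ _ =>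
    sl_smul k γ c F

theorem MF.sum {k : ℤ} {α : Type} (s : Finset α) {F : α → Fn} (h : ∀ a ∈ s, MF k (F a)) :
    MF k (∑ a ∈ s, F a) := by
  exact Finset.sum_induction _ _ (fun _ _ => MF.add) (MF.zero k) h

theorem MF.mul {k l : ℤ} {F G : Fn} (hF : MF k F) (hG : MF l G) : MF (k + l) (F * G) := by
  exact mfs_two hF hG (· * ·) (fun _ _ => GQ.mul_mem) fun γ hγ => sl_mul_fn k l (Gam_le hγ) F G

theorem MF.pow {k : ℤ} {F : Fn} (hF : MF k F) (n : ℕ) : MF (n * k) (F ^ n) := by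
  exact mfs_two hF hF (fun X _ => X ^ n) (fun _ _ h _ => GQ.pow_mem h n) fun γ hγ =>
    sl_pow k (Gam_le hγ) F n

theorem MF.prod {α : Type} (s : Finset α) {k : α → ℤ} {F : α → Fn} (h : ∀ a ∈ s, MF (k a) (F a)) :
    MF (∑ a ∈ s, k a) (∏ a ∈ s, F a) := by
  classical
  induction s using Finset.induction_on with
  | empty => simpa using MF.one
  | insert a s ha ih =>
    rw [Finset.sum_insert ha, Finset.prod_insert ha]
    exact (h a (Finset.mem_insert_self _ _)).mul (ih fun b hb => h b (Finset.mem_insert_of_mem hb))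


/-- `krut` and `GoodC.slP` for the expansions, `double_coset` for the orbit. -/
theorem MF.slash {k : ℤ} {F : Fn} (hF : MF k F) {g : Gb} (hg : g ∈ GG) : MF k (sl k g F) := by
  refine ⟨fun γ hγ => ?_, ?_⟩
  · have h1 := mul_mem hg (Gam_le hγ)
    obtain ⟨γ', hγ', t, B, A, c, hP⟩ := krut h1
    obtain ⟨a, ha⟩ := hF.1 _ (inv_mem hγ')
    rw [← sl_mul k hg (Gam_le hγ), ← inv_mul_cancel_left γ' (g * γ),
      sl_mul k (Gam_le (inv_mem hγ')) (mul_mem (Gam_le hγ') h1)]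
    exact ⟨_, ha.slP k hP⟩
  · obtain ⟨s, hs, h⟩ := double_coset hg
    refine (Set.Finite.image2 (sl k) s.finite_toSet hF.2).subset ?_
    rintro _ ⟨γ, hγ, rfl⟩
    obtain ⟨γ', hγ', x, hx, e⟩ := h γ hγ
    refine ⟨x, hx, _, ⟨γ', hγ', rfl⟩, ?_⟩
    rw [← sl_mul k hg (Gam_le hγ), e, sl_mul k (Gam_le hγ') (hs x hx)]


theorem IsMF.good {k : ℤ} {F : (Ix → ℂ) → ℂ} {a : (Ix → ℚ) → ℂ} (h : IsMF k F a) :
    GoodC (res F) a := by
  exact ⟨⟨1, one_pos, fun T hT => by simpa using h.1 T hT⟩, h.2.1, fun Z => h.2.2.1 Z Z.2⟩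


/-- Induction over the closure that defines `Gam`. -/
theorem IsMF.inv_Gam {k : ℤ} {F : (Ix → ℂ) → ℂ} {a : (Ix → ℚ) → ℂ} (h : IsMF k F a) :
    Inv Gam k (res F) := by
  intro g hg
  induction hg using Subgroup.closure_induction with
  | mem x hx =>
    rcases hx with ⟨B, hB, rfl⟩ | ⟨A, hA, hx⟩ | rfl
    · exact h.good.sl_nE (fun T hT => (h.1 T hT).1) k hB
    · funext Z
      rw [sl, res, coe_ofC (act_spec (hx.mem_GG hA.1) Z.2).2.1, hx.jf_eq, hx.act_eq, one_zpow,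
        one_mul]
      exact h.2.2.2.1 A hA.1 hA.2 Z Z.2
    · funext Z
      rw [sl, res, coe_ofC (act_spec (Gam_le wE_mem) Z.2).2.1, jf_wE, act_wE, h.2.2.2.2 Z Z.2,
        zpow_neg, inv_mul_cancel_left₀ (zpow_ne_zero _ (HH.nrm_ne Z.2))]
      rfl
  | one => exact sl_one _ _
  | mul x y hx hy px py => rw [sl_mul k (Gam_le hx) (Gam_le hy), px, py]
  | inv x hx px =>
    conv_lhs => rw [← px]
    rw [← sl_mul k (Gam_le hx) (Gam_le (inv_mem hx)), mul_inv_cancel, sl_one]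

theorem IsMF.mf {k : ℤ} {F : (Ix → ℂ) → ℂ} {a : (Ix → ℚ) → ℂ} (h : IsMF k F a) :
    MF k (res F) := by
  exact mfs_inv ⟨_, h.good⟩ h.inv_Gam

theorem isMF_ext {k : ℤ} {F : Fn} (h : Gd F) (hi : Inv Gam k F) : IsMF k (ext F) (cf F) := by
  refine ⟨fun T hT => ⟨h.spec.supp_Lam (fun B hB => hi _ (nE_mem_Gam hB)) hT, ?_⟩, h.spec.fg,
    fun Z hZ => ?_, fun A hA hL Z hZ => ?_, fun Z hZ => ?_⟩
  · obtain ⟨M, -, hM⟩ := h.spec.supp
    exact (hM T hT).2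
  · rw [ext, ofC_eq hZ]
    exact h.spec.sum ⟨Z, hZ⟩
  · obtain ⟨g, hg⟩ := exists_m hA
    have e := congrFun (hi g (hg.mem_Gam ⟨hA, hL⟩)) ⟨Z, hZ⟩
    rw [sl, hg.jf_eq, hg.act_eq, one_zpow, one_mul] at e
    rw [ext, ext, ofC_eq hZ]
    exact e
  · have e := congrFun (hi wE wE_mem) ⟨Z, hZ⟩
    rw [sl, jf_wE, act_wE] at e
    rw [ext, ext, ofC_eq hZ, ← e, zpow_neg, mul_inv_cancel_left₀ (zpow_ne_zero _ (HH.nrm_ne hZ))]


/-- The trace. -/
theorem Trans.trace {Δ : Subgroup Gb} (hΔ : Δ ≤ Gam) {τ : Type} [Fintype τ] (R : Trans Δ τ) {k : ℤ}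
    {F : Fn} (hF : MF k F) (hi : Inv Δ k F) :
    MF k (∑ t, sl k (R.rep t) F) ∧ Inv Gam k (∑ t, sl k (R.rep t) F) := by
  refine ⟨MF.sum _ fun t _ => hF.slash (Gam_le (R.mem t)), fun g hg => ?_⟩
  obtain ⟨σ, hσ⟩ := R.perm g hg
  rw [sl_sum, ← Equiv.sum_comp σ fun t => sl k (R.rep t) F]
  refine Finset.sum_congr rfl fun t _ => ?_
  obtain ⟨δ, hδ, e⟩ := hσ t
  rw [← sl_mul k (Gam_le (R.mem t)) (Gam_le hg), e, sl_mul k (Gam_le (hΔ hδ)) (Gam_le (R.mem _)),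
    hi δ hδ]


theorem ThF_good : GoodC ThF Kim.kc := Kim.isMF_Th.good
theorem ThF_mf : MF 4 ThF := Kim.isMF_Th.mf
theorem ThF_inv : Inv Gam 4 ThF := Kim.isMF_Th.inv_Gam

/-- Apply `GoodC.filter` with `B = 1000⁻¹ • UU l` for all `l` (`mem_Lam_iff`, `MF.slash`). -/
theorem Thi_spec (i : Ix) : GoodC (Thi i) (thci i) ∧ MF 4 (Thi i) := by
  classical
  have key : ∀ s : Finset Ix, ∃ F, MF 4 F ∧ GoodC F fun T =>
      if ∀ l ∈ s, ∃ n : ℤ, tr (T - TT i) ((1 / 1000 : ℚ) • UU l) = n then Kim.kc T else 0 := by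
    intro s
    induction s using Finset.induction_on with
    | empty => exact ⟨ThF, ThF_mf, by simpa using ThF_good⟩
    | insert l s hl ih =>
      obtain ⟨F, h1, h2⟩ := ih
      obtain ⟨N, c, h3⟩ := h2.filter 4 (TT i) ((1 / 1000 : ℚ) • UU l)
      refine ⟨_, MF.sum _ fun j _ => (h1.slash (nE_mem_GG _)).smul _, mfs_congr h3 fun T => ?_⟩
      simp only [Finset.forall_mem_insert, ite_and]
  obtain ⟨F, h1, h2⟩ := key Finset.univ
  have h3 : GoodC ((1 / 240 : ℂ) • F) (thci i) := mfs_congr (h2.smul _) fun T => by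
    simp only [thci, Cong, mem_Lam_iff, tr_smul_left, tr_smul_right, Finset.mem_univ,
      forall_true_left, Pi.smul_apply, smul_eq_mul]
    split_ifs <;> ring
  have e : Thi i = (1 / 240 : ℂ) • F := funext fun Z => (h3.sum Z).tsum_eq
  rw [e]
  exact ⟨h3, h1.smul _⟩

theorem thci_supp {i : Ix} {T : Ix → ℚ} (h : thci i T ≠ 0) : T ∈ Lam ∧ Psd T ∧ Cong T (TT i) := by
  rw [thci] at h
  split_ifs at h with hc
  · have h1 := Kim.isMF_Th.1 T fun e => h (by rw [e, zero_div])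
    exact ⟨h1.1, h1.2, hc⟩
  · exact absurd rfl h

theorem thci_int (i : Ix) (T : Ix → ℚ) : ∃ n : ℤ, thci i T = n := by
  rw [thci]
  split_ifs with hc
  · have h0 : T ≠ 0 := by
      rintro rfl
      obtain ⟨j, hj⟩ := TT_one i
      obtain ⟨n, hn⟩ := hc.1 j
      rw [dg_smul, dg_sub, dg_zero, hj] at hn
      have : (1000 * n + 1 : ℤ) = 0 := by exact_mod_cast (by linarith : (1000 * n + 1 : ℚ) = 0)
      omega
    obtain ⟨n, hn⟩ := Kim.kc_int h0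
    exact ⟨n, by rw [hn]; ring⟩
  · exact ⟨0, by simp⟩

theorem thci_TT (i : Ix) : thci i (TT i) = 1 := by
  obtain ⟨j, hj⟩ := TT_one i
  rw [thci, if_pos (by simpa [Cong] using Lam.zero),
    Kim.kc_prim ⟨TT_mem i, psd_TT i, sharp_TT i⟩ hj]
  norm_num


theorem Gam2_le : Gam2 ≤ Gam := stabF_le _ _
theorem Gam2_index : Gam2.relIndex Gam ≠ 0 := by
  exact stabF_index 4 Thi fun a => (Thi_spec a).2.2

theorem Thi_inv (i : Ix) : Inv Gam2 4 (Thi i) := by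
  exact fun δ hδ => hδ.2 i

theorem nE_mem_Gam2 {B : Ix → ℚ} (h : B ∈ Lam) : nE (toR ℂ B) ∈ Gam2 := by
  exact ⟨nE_mem_Gam h, fun a => (Thi_spec a).1.sl_nE (fun T hT => (thci_supp hT).1) 4 h⟩

theorem MF.mem_GZ {k : ℤ} {F : Fn} (hF : MF k F) (hi : Inv Gam2 k F) : F ∈ GZ := by
  exact ⟨hF.gd, fun T hT => hF.gd.spec.supp_Lam (fun B hB => hi _ (nE_mem_Gam2 hB)) hT⟩

theorem ThF_mem : ThF ∈ GZ := ThF_mf.mem_GZ (ThF_inv.mono Gam2_le)
theorem Thi_mem (i : Ix) : Thi i ∈ GZ := (Thi_spec i).2.mem_GZ (Thi_inv i)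

/-- A homogeneous polynomial in forms of weight four. -/
theorem mf_aeval {σ : Type} {F : σ → Fn} (hF : ∀ r, MF 4 (F r) ∧ Inv Gam2 4 (F r))
    {P : MvPolynomial σ ℂ} {m : ℕ} (hP : P.IsHomogeneous m) :
    MF (4 * m) (MvPolynomial.aeval F P) ∧ Inv Gam2 (4 * m) (MvPolynomial.aeval F P) := by
  have e : MvPolynomial.aeval F P =
      ∑ d ∈ P.support, P.coeff d • ∏ r ∈ d.support, F r ^ d r := by
    rw [MvPolynomial.aeval_def, MvPolynomial.eval₂_eq]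
    simp only [Algebra.smul_def]
  have w : ∀ d ∈ P.support, (4 * m : ℤ) = ∑ r ∈ d.support, (d r : ℤ) * 4 := fun d hd => by
    rw [hP.degree_eq_sum_deg_support hd, ← Finset.sum_mul, mul_comm]
    push_cast
    rfl
  rw [e]
  refine ⟨MF.sum _ fun d hd => MF.smul ?_ _, Inv.sum _ fun d hd => Inv.smul ?_ _⟩ <;> rw [w d hd]
  · exact MF.prod _ fun r _ => (hF r).1.pow _
  · exact Inv.prod Gam2_le _ fun r _ => (hF r).2.pow Gam2_le _


end Pool.Agent.E7
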