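import Pool.Agent.Lib.MP_7e5527_ag.E7.MFs

/-! Matching of complex points and `p`-adic characters, going up. -/

open Filter Topology

noncomputable section

namespace Pool.Agent.E7

/-- Two finite families of characters with the same sum have the same members
(`linearIndependent_monoidHom`, characteristic zero). -/
theorem char_match {M τ : Type} [Monoid M] [Fintype τ] (χ ψ : τ → M →* ℂ)
    (h : ∀ x, ∑ t, χ t x = ∑ t, ψ t x) (t : τ) : ∃ s, ψ t = χ s := by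
  classical
  by_contra hn
  push Not at hn
  have h1 := linearIndependent_iff.1 (linearIndependent_monoidHom M ℂ)
    (∑ s, Finsupp.single (χ s) 1 - ∑ s, Finsupp.single (ψ s) 1) (by
      funext x
      simp only [map_sub, map_sum, Finsupp.linearCombination_single, one_smul, Pi.sub_apply,
        Finset.sum_apply, Pi.zero_apply, h x, sub_self])
  have h2 := DFunLike.congr_fun h1 (ψ t)
  simp only [Finsupp.coe_sub, Finsupp.coe_finsetSum, Pi.sub_apply, Finset.sum_apply,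
    Finsupp.single_apply, fun s => (hn s).symm, if_false, Finset.sum_const_zero, zero_sub,
    Finsupp.coe_zero, Pi.zero_apply, neg_eq_zero, Finset.sum_boole, Nat.cast_eq_zero,
    Finset.card_eq_zero, Finset.filter_eq_empty_iff] at h2
  exact h2 (Finset.mem_univ t) rfl

/-- If all power sums vanish, all numbers vanish. -/
theorem eq_zero_of_psum {τ : Type} [Fintype τ] (x : τ → ℂ) (h : ∀ n : ℕ, ∑ t, x t ^ (n + 1) = 0)
    (t : τ) : x t = 0 := by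
  obtain ⟨s, hs⟩ := char_match (fun _ : τ => powersHom ℂ 0) (fun t => powersHom ℂ (x t))
    (fun n => by
      simp only [powersHom_apply]
      rcases n.toAdd with _ | n
      · simp
      · simp [h n]) t
  exact (powersHom ℂ).injective hs

variable {p : ℕ} [Fact p.Prime] (e : ℂ_[p] ≃+* ℂ) {q : (Ix → ℚ) → ℂ_[p]} {Y : Ix → ℚ}

/-- The monoid of pairs. -/
def mat1_S {Δ : Subgroup Gb} (hΔ : Δ ≤ Gam) : Submonoid (Multiplicative ℤ × Fn) where
  carrier := {x | MF x.1.toAdd x.2 ∧ Inv Δ x.1.toAdd x.2}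
  mul_mem' hx hy := ⟨hx.1.mul hy.1, Inv.mul hΔ hx.2 hy.2⟩
  one_mem' := ⟨MF.one, Inv.one Δ⟩

/-- Slashing acts on pairs. -/
theorem mat1_mul {Δ : Subgroup Gb} (hΔ : Δ ≤ Gam) {γ : Gb} (hγ : γ ∈ Gam) (x y : mat1_S hΔ) :
    sl (x * y).1.1.toAdd γ (x * y).1.2 = sl x.1.1.toAdd γ x.1.2 * sl y.1.1.toAdd γ y.1.2 :=
  sl_mul_fn _ _ (Gam_le hγ) _ _

/-- The complex characters. -/
def mat1_χ {Δ : Subgroup Gb} (hΔ : Δ ≤ Gam) {γ : Gb} (hγ : γ ∈ Gam) (Z0 : HH) :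
    mat1_S hΔ →* ℂ where
  toFun x := sl x.1.1.toAdd γ x.1.2 Z0
  map_one' := congrFun (sl_zero_one γ) Z0
  map_mul' x y := congrFun (mat1_mul hΔ hγ x y) Z0

/-- The `p`-adic characters. -/
def mat1_ψ (hq : Chr p q Y) {c : ℂ} (hc : c ≠ 0) {Δ : Subgroup Gb} (hΔ : Δ ≤ Gam) {γ : Gb}
    (hγ : γ ∈ Gam) : mat1_S hΔ →* ℂ where
  toFun x := c ^ x.1.1.toAdd * e (evq e q (sl x.1.1.toAdd γ x.1.2))
  map_one' := by
    change c ^ (0 : ℤ) * e (evq e q (sl 0 γ 1)) = 1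
    rw [sl_zero_one, evq_one e hq, map_one, zpow_zero, mul_one]
  map_mul' x y := by
    rw [mat1_mul hΔ hγ, evq_mul e hq (x.2.1.slash (Gam_le hγ)).gd (y.2.1.slash (Gam_le hγ)).gd,
      map_mul]
    change c ^ (x.1.1.toAdd + y.1.1.toAdd) * _ = _
    rw [zpow_add₀ hc]
    ring

/-- Use the monoid of pairs `(k, F)` with `MF k F`, `Inv Δ k F` (a submonoid of
`Multiplicative ℤ × Fn`), the characters `sl k (rep t) F Z0` and
`c ^ k * e (evq e q (sl k (rep t) F))`, `Trans.trace`, `isMF_ext`; some `rep t` lies in `Δ`. -/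
theorem match0 (hq : Chr p q Y) {c : ℂ} (hc : c ≠ 0) {Z0 : HH}
    (hT : ∀ k F a, IsMF k F a → F Z0 = c ^ k * e (∑' T, e.symm (a T) * q T))
    {Δ : Subgroup Gb} (hΔ : Δ ≤ Gam) (hi : Δ.relIndex Gam ≠ 0) :
    ∃ γ ∈ Gam, ∀ k F, MF k F → Inv Δ k F → sl k γ F Z0 = c ^ k * e (evq e q F) := by
  obtain ⟨τ, _, ⟨R⟩⟩ := exists_trans hΔ hi
  obtain ⟨t, δ, hδ, h1⟩ := R.cover 1 (one_mem _)
  have ht : R.rep t ∈ Δ := by
    rw [eq_inv_of_mul_eq_one_right h1.symm]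
    exact inv_mem hδ
  obtain ⟨s, hs⟩ := char_match (fun t => mat1_χ hΔ (R.mem t) Z0)
    (fun t => mat1_ψ e hq hc hΔ (R.mem t)) (fun x => by
      obtain ⟨h2, h3⟩ := R.trace hΔ x.2.1 x.2.2
      have h4 := hT _ _ _ (isMF_ext h2.gd h3)
      rw [ext, ofC_coe, Finset.sum_apply, ← evq,
        evq_sum e hq _ fun a _ => (x.2.1.slash (Gam_le (R.mem a))).gd, map_sum,
        Finset.mul_sum] at h4
      exact h4) t
  refine ⟨R.rep s, R.mem s, fun k F hF hI => ?_⟩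
  have h2 : c ^ k * e (evq e q (sl k (R.rep t) F)) = sl k (R.rep s) F Z0 :=
    DFunLike.congr_fun hs ⟨(Multiplicative.ofAdd k, F), hF, hI⟩
  rw [← h2, hI _ ht]

/-- Take `Δ'` from `exists_level`, `γ0` from `match0` for `Δ'`, `γ1` from `krut` for `g * γ0⁻¹`,
move `lin A Y` to the Siegel set (`reduce`, `exists_m`, `IsP.m_mul`); apply `match0` to
`sl k (m * γ1 * g * γ0⁻¹) F` and use `evq_slP`. -/
theorem match_pt (hq : Chr p q Y) {c : ℂ} (hc : c ≠ 0) {Z0 : HH}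
    (hT : ∀ k F a, IsMF k F a → F Z0 = c ^ k * e (∑' T, e.symm (a T) * q T))
    {Δ : Subgroup Gb} (hΔ : Δ ≤ Gam) (hi : Δ.relIndex Gam ≠ 0) {g : Gb} (hg : g ∈ GG) :
    ∃ γ ∈ Gam, ∃ (c' : ℂ) (A : Matrix Ix Ix ℚ) (cA : ℚ) (B : Ix → ℚ), c' ≠ 0 ∧ IsSim A cA ∧
      toR ℝ (lin A Y) ∈ Sieg ∧ ∀ k F, MF k F → Inv Δ k F →
        sl k (γ * g) F Z0 = c' ^ k * e (evq e (qt e q A B) F) := by
  obtain ⟨Δ', h1, h2, h3⟩ := exists_level hΔ hi hg
  obtain ⟨γ0, hγ0, h4⟩ := match0 e hq hc hT h1 h2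
  obtain ⟨γ1, hγ1, t, B, A, cA, hP⟩ := krut (mul_mem hg (Gam_le (inv_mem hγ0)))
  obtain ⟨A', hA', hS⟩ := reduce (hq.qt e hP.2.1 B).mem
  obtain ⟨m, hm⟩ := exists_m hA'.1
  have hP' := hP.m_mul hA'.1 hm
  have hγ : m * γ1 ∈ Gam := mul_mem (hm.mem_Gam hA') hγ1
  rw [← mul_assoc, ← mul_assoc] at hP'
  have hG : m * γ1 * g * γ0⁻¹ ∈ GG := mul_mem (mul_mem (Gam_le hγ) hg) (Gam_le (inv_mem hγ0))
  refine ⟨m * γ1, hγ, c * (t : ℂ)⁻¹, A' * A, 1 * cA, lin A' B,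
    mul_ne_zero hc (inv_ne_zero (Rat.cast_ne_zero.2 hP.1)), hP'.2.1, by rwa [lin_mul],
    fun k F hF hI => ?_⟩
  have h5 := h4 k _ (hF.slash hG) fun δ hδ => by
    have h6 := h3 δ hδ _ (inv_mem hγ0) _ hγ
    rw [← sl_mul k hG (Gam_le (h1 hδ)), ← inv_mul_cancel_right (m * γ1 * g * γ0⁻¹ * δ)
      (m * γ1 * g * γ0⁻¹), sl_mul k (Gam_le (hΔ h6)) hG, hI _ h6]
  rw [← sl_mul k hG (Gam_le hγ0), inv_mul_cancel_right, evq_slP e hF.gd k hP', map_mul,
    map_zpow₀, map_ratCast] at h5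
  rw [h5, mul_zpow, inv_zpow', mul_assoc]

/-- Otherwise multiply the witnesses; the traces of the powers of the product vanish along `h`,
hence at `Z`; use `eq_zero_of_psum` and `R.cover`. -/
theorem going_up {Δ : Subgroup Gb} (hΔ : Δ ≤ Gam) {τ : Type} [Fintype τ] (R : Trans Δ τ)
    {h : ℂ → Ix → ℂ} {Z : HH}
    (hV : ∀ k F a, IsMF k F a → (∀ᶠ t in 𝓝 (0 : ℂ), F (h t) = 0) → F Z = 0)
    {γ : Gb} (hγ : γ ∈ Gam) :
    ∃ t, ∀ k F, MF k F → Inv Δ k F → Van (sl k (R.rep t) F) h → sl k γ F Z = 0 := by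
  by_contra hc
  push Not at hc
  choose k F hF hI hv hne using hc
  have hG : MF (∑ t, k t) (∏ t, F t) := MF.prod _ fun t _ => hF t
  have hGI : Inv Δ (∑ t, k t) (∏ t, F t) := Inv.prod hΔ _ fun t _ => hI t
  have hv' : ∀ s, Van (sl (∑ t, k t) (R.rep s) (∏ t, F t)) h := fun s => by
    filter_upwards [hv s] with z hz
    rw [sl_prod (Gam_le (R.mem s)), Finset.prod_apply]
    exact Finset.prod_eq_zero (Finset.mem_univ s) hz
  have hz : ∀ s, sl (∑ t, k t) (R.rep s) (∏ t, F t) Z = 0 := by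
    refine eq_zero_of_psum _ fun n => ?_
    obtain ⟨h1, h2⟩ := R.trace hΔ (hG.pow (n + 1)) (hGI.pow hΔ (n + 1))
    have h3 : ∀ W : HH, (∑ s, sl (((n + 1 : ℕ) : ℤ) * ∑ t, k t) (R.rep s)
        ((∏ t, F t) ^ (n + 1))) W = ∑ s, sl (∑ t, k t) (R.rep s) (∏ t, F t) W ^ (n + 1) :=
      fun W => by
        rw [Finset.sum_apply]
        exact Finset.sum_congr rfl fun s _ => by
          rw [sl_pow _ (Gam_le (R.mem s)), Pi.pow_apply]
    have h4 := hV _ _ _ (isMF_ext h1.gd h2) (by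
      filter_upwards [eventually_all.2 hv'] with z hz
      unfold ext
      rw [h3]
      exact Finset.sum_eq_zero fun s _ => by rw [hz s, zero_pow n.succ_ne_zero])
    unfold ext at h4
    rwa [ofC_coe, h3] at h4
  obtain ⟨s, δ, hδ, hs⟩ := R.cover γ hγ
  have h5 := hz s
  rw [← hGI δ hδ, ← sl_mul _ (Gam_le (hΔ hδ)) (Gam_le (R.mem s)), ← hs,
    sl_prod (Gam_le hγ), Finset.prod_apply] at h5
  exact Finset.prod_ne_zero_iff.2 (fun t _ => hne t) h5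

/-- An infinite sequence of Hecke points on the curve, in the Siegel set. -/
structure Pts (e : ℂ_[p] ≃+* ℂ) (q : (Ix → ℚ) → ℂ_[p]) (Y : Ix → ℚ) where
  h : ℂ → Ix → ℂ
  arc : Arc h
  A : ℕ → Matrix Ix Ix ℚ
  c : ℕ → ℚ
  B : ℕ → Ix → ℚ
  sim : ∀ n, IsSim (A n) (c n)
  sieg : ∀ n, toR ℝ (lin (A n) Y) ∈ Sieg
  kill : ∀ n k F, MF k F → Inv Gam2 k F → Van F h → evq e (qt e q (A n) (B n)) F = 0
  inj : Function.Injective fun n i => qt e q (A n) (B n) (TT i)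

theorem Chr.eq_on_Lam {q' : (Ix → ℚ) → ℂ_[p]} {Y' : Ix → ℚ} (hq : Chr p q Y) (hq' : Chr p q' Y')
    (h : ∀ i, q (TT i) = q' (TT i)) {T : Ix → ℚ} (hT : T ∈ Lam) : q T = q' T := by
  let S : AddSubgroup (Ix → ℚ) :=
    { carrier := {T | q T = q' T}
      add_mem' := fun {a b} ha hb => by
        change q (a + b) = q' (a + b)
        rw [hq.mul, hq'.mul, show q a = q' a from ha, show q b = q' b from hb]
      zero_mem' := hq.zero.trans hq'.zero.symm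
      neg_mem' := fun {a} ha => by
        have h1 := hq.mul (-a) a
        have h2 := hq'.mul (-a) a
        rw [neg_add_cancel, hq.zero] at h1
        rw [neg_add_cancel, hq'.zero, ← show q a = q' a from ha] at h2
        exact mul_right_cancel₀ (hq.ne a) (h1.symm.trans h2) }
  rw [← range_vec] at hT
  obtain ⟨m, rfl⟩ := hT
  have h1 : vec m ∈ S := S.sum_mem fun i _ => by
    rw [Int.cast_smul_eq_zsmul]
    exact S.zsmul_mem (h i) _
  exact h1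

theorem match_val {q' : (Ix → ℚ) → ℂ_[p]} {Y' : Ix → ℚ} (hq : Chr p q Y) (hq' : Chr p q' Y')
    (h : ∀ i, q (TT i) = q' (TT i)) {k : ℤ} {F : (Ix → ℂ) → ℂ} {a : (Ix → ℚ) → ℂ}
    (hF : IsMF k F a) : evq e q (res F) = evq e q' (res F) := by
  unfold evq
  rw [hF.good.cf_eq]
  refine tsum_congr fun T => ?_
  by_cases ha : a T = 0
  · rw [ha, map_zero, zero_mul, zero_mul]
  · rw [hq.eq_on_Lam hq' h (hF.1 T ha).1]

theorem match_seq {Z0 : Ix → ℂ} (h0 : Z0 ∈ HH) {V : (Ix → ℂ) → Prop}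
    (hn : ¬ ∃ S : Set (Ix → ℂ), S.Finite ∧ S ⊆ HH ∧ ∀ Z, Hecke Z0 Z → V Z →
      ∃ Z' ∈ S, SamePt Z Z') :
    ∃ g : ℕ → Gb, (∀ n, g n ∈ GG ∧ V (act (g n) Z0)) ∧
      ∀ m n, m < n → ¬ SamePt (act (g n) Z0) (act (g m) Z0) := by
  refine exists_seq_of_forall_finset_exists (fun g : Gb => g ∈ GG ∧ V (act g Z0))
    (fun g g' => ¬ SamePt (act g' Z0) (act g Z0)) fun s hs => ?_
  by_contra hc
  push Not at hc
  refine hn ⟨(fun g => act g Z0) '' s, s.finite_toSet.image _, ?_, fun Z hZ hV => ?_⟩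
  · rintro _ ⟨g, hg, rfl⟩
    exact (act_spec (hs g hg).1 h0).2.1
  · obtain ⟨g, hg, rfl⟩ := hZ.exists_act h0
    obtain ⟨g', hg', h1⟩ := hc g ⟨hg, hV⟩
    exact ⟨_, ⟨g', hg', rfl⟩, h1⟩

/-- Choose points that are pairwise not `SamePt`, write them as `act (g n) Z0`
(`Hecke.exists_act`), apply `match_pt` and `going_up` for `Gam2`, pass to a subsequence on which
`t` is constant, and move the arc (`Arc.move`, `van_move`, `sl_mul_apply`). Equal characters on the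
lattice would give `SamePt`. -/
theorem exists_pts (hq : Chr p q Y) {c : ℂ} (hc : c ≠ 0) {Z0 : Ix → ℂ} (h0 : Z0 ∈ HH)
    (hT : ∀ k F a, IsMF k F a → F Z0 = c ^ k * e (∑' T, e.symm (a T) * q T))
    {h : ℂ → Ix → ℂ} (hA : Arc h)
    (hn : ¬ ∃ S : Set (Ix → ℂ), S.Finite ∧ S ⊆ HH ∧ ∀ Z, Hecke Z0 Z →
      (∀ k F a, IsMF k F a → (∀ᶠ t in 𝓝 (0 : ℂ), F (h t) = 0) → F Z = 0) →
        ∃ Z' ∈ S, SamePt Z Z') : Nonempty (Pts e q Y) := by
  obtain ⟨g, hg, hne⟩ := match_seq h0 hn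
  obtain ⟨τ, _, ⟨R⟩⟩ := exists_trans Gam2_le Gam2_index
  choose γ hγ c' A cA B hc' hsim hsg hm using fun n =>
    match_pt e hq hc (Z0 := ⟨Z0, h0⟩) hT Gam2_le Gam2_index (hg n).1
  have hZ : ∀ n, act (g n) Z0 ∈ HH := fun n => (act_spec (hg n).1 h0).2.1
  have hj : ∀ n, jf (g n) Z0 ≠ 0 := fun n => (act_spec (hg n).1 h0).1
  have hm' : ∀ n k F, MF k F → Inv Gam2 k F → sl k (γ n) F ⟨act (g n) Z0, hZ n⟩ =
      (jf (g n) Z0 * c' n) ^ k * e (evq e (qt e q (A n) (B n)) F) := fun n k F hF hI => by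
    have h1 := hm n k F hF hI
    rw [sl_mul_apply k (Gam_le (hγ n)) (hg n).1, ofC_eq (hZ n)] at h1
    rw [mul_zpow, mul_assoc, ← h1, ← mul_assoc, zpow_neg,
      mul_inv_cancel₀ (zpow_ne_zero k (hj n)), one_mul]
  choose t ht using fun n => going_up Gam2_le R (Z := ⟨act (g n) Z0, hZ n⟩) (hg n).2 (hγ n)
  obtain ⟨t0, ht0⟩ := Finite.exists_infinite_fiber t
  let φ : ℕ ↪ t ⁻¹' {t0} := Infinite.natEmbedding _
  have hφ : ∀ n, t (φ n) = t0 := fun n => (φ n).2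
  have hsame : ∀ n m, (fun i => qt e q (A n) (B n) (TT i)) = (fun i => qt e q (A m) (B m) (TT i)) →
      SamePt (act (g n) Z0) (act (g m) Z0) := fun n m hnm => by
    have h1 : ∀ l, jf (g l) Z0 * c' l ≠ 0 := fun l => mul_ne_zero (hj l) (hc' l)
    refine ⟨jf (g n) Z0 * c' n / (jf (g m) Z0 * c' m), div_ne_zero (h1 n) (h1 m),
      fun k F a hF => ?_⟩
    have h2 : ∀ l, F (act (g l) Z0) =
        (jf (g l) Z0 * c' l) ^ k * e (evq e (qt e q (A l) (B l)) (res F)) := fun l => by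
      rw [← hm' l k _ hF.mf (hF.inv_Gam.mono Gam2_le), hF.inv_Gam _ (hγ l)]
      rfl
    rw [h2 n, h2 m, match_val e (hq.qt e (hsim n) (B n)) (hq.qt e (hsim m) (B m))
      (congrFun hnm) hF, div_zpow, ← mul_assoc, div_mul_cancel₀ _ (zpow_ne_zero k (h1 m))]
  refine ⟨⟨fun s => act (R.rep t0) (h s), hA.move (R.mem t0), fun n => A (φ n), fun n => cA (φ n),
    fun n => B (φ n), fun n => hsim _, fun n => hsg _, fun n k F hF hI hv => ?_,
    fun n m hnm => φ.injective (Subtype.ext ?_)⟩⟩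
  · have h1 := ht (φ n) k F hF hI (by
      rw [hφ]
      exact (van_move hA (Gam_le (R.mem t0)) k F).2 hv)
    rw [hm' _ k F hF hI] at h1
    exact (map_eq_zero e).1 ((mul_eq_zero.1 h1).resolve_left
      (zpow_ne_zero k (mul_ne_zero (hj _) (hc' _))))
  · rcases lt_trichotomy (φ n : ℕ) (φ m) with h1 | h1 | h1
    · exact absurd (hsame _ _ hnm.symm) (hne _ _ h1)
    · exact h1
    · exact absurd (hsame _ _ hnm) (hne _ _ h1)

end Pool.Agent.E7
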