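import Pool.Agent.Lib.MP_7e5527_ag.E7.Defs

/-! Identities for octonions. -/

noncomputable section

namespace Pool.Agent.E7

variable {R : Type} [CommRing R]

/-- The polar form of the norm. -/
def oip (x y : Fin 8 → R) : R := 2 * ∑ k, x k * y k

theorem omul_0 (x y : Fin 8 → R) : omul x y 0 = x 0 * y 0 - x 1 * y 1 - x 2 * y 2 - x 3 * y 3 -
    x 4 * y 4 - x 5 * y 5 - x 6 * y 6 - x 7 * y 7 := by
  simp [omul, ofQ, q1, q2]; ring

theorem omul_1 (x y : Fin 8 → R) : omul x y 1 = x 0 * y 1 + x 1 * y 0 + x 2 * y 3 - x 3 * y 2 +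
    x 4 * y 5 - x 5 * y 4 - x 6 * y 7 + x 7 * y 6 := by
  simp [omul, ofQ, q1, q2]; ring

theorem omul_2 (x y : Fin 8 → R) : omul x y 2 = x 0 * y 2 - x 1 * y 3 + x 2 * y 0 + x 3 * y 1 +
    x 4 * y 6 + x 5 * y 7 - x 6 * y 4 - x 7 * y 5 := by
  simp [omul, ofQ, q1, q2]; ring

theorem omul_3 (x y : Fin 8 → R) : omul x y 3 = x 0 * y 3 + x 1 * y 2 - x 2 * y 1 + x 3 * y 0 +
    x 4 * y 7 - x 5 * y 6 + x 6 * y 5 - x 7 * y 4 := by
  simp [omul, ofQ, q1, q2]; ring

theorem omul_4 (x y : Fin 8 → R) : omul x y 4 = x 0 * y 4 - x 1 * y 5 - x 2 * y 6 - x 3 * y 7 +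
    x 4 * y 0 + x 5 * y 1 + x 6 * y 2 + x 7 * y 3 := by
  simp [omul, ofQ, q1, q2]; ring

theorem omul_5 (x y : Fin 8 → R) : omul x y 5 = x 0 * y 5 + x 1 * y 4 - x 2 * y 7 + x 3 * y 6 -
    x 4 * y 1 + x 5 * y 0 - x 6 * y 3 + x 7 * y 2 := by
  simp [omul, ofQ, q1, q2]; ring

theorem omul_6 (x y : Fin 8 → R) : omul x y 6 = x 0 * y 6 + x 1 * y 7 + x 2 * y 4 - x 3 * y 5 -
    x 4 * y 2 + x 5 * y 3 + x 6 * y 0 - x 7 * y 1 := by
  simp [omul, ofQ, q1, q2]; ring

theorem omul_7 (x y : Fin 8 → R) : omul x y 7 = x 0 * y 7 - x 1 * y 6 + x 2 * y 5 + x 3 * y 4 -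
    x 4 * y 3 - x 5 * y 2 + x 6 * y 1 + x 7 * y 0 := by
  simp [omul, ofQ, q1, q2]; ring

theorem oconj_0 (x : Fin 8 → R) : oconj x 0 = x 0 := rfl
theorem oconj_1 (x : Fin 8 → R) : oconj x 1 = -x 1 := rfl
theorem oconj_2 (x : Fin 8 → R) : oconj x 2 = -x 2 := rfl
theorem oconj_3 (x : Fin 8 → R) : oconj x 3 = -x 3 := rfl
theorem oconj_4 (x : Fin 8 → R) : oconj x 4 = -x 4 := rfl
theorem oconj_5 (x : Fin 8 → R) : oconj x 5 = -x 5 := rfl
theorem oconj_6 (x : Fin 8 → R) : oconj x 6 = -x 6 := rfl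
theorem oconj_7 (x : Fin 8 → R) : oconj x 7 = -x 7 := rfl

theorem onorm_eq (x : Fin 8 → R) : onorm x = x 0 ^ 2 + x 1 ^ 2 + x 2 ^ 2 + x 3 ^ 2 + x 4 ^ 2 +
    x 5 ^ 2 + x 6 ^ 2 + x 7 ^ 2 := by
  simp only [onorm, Fin.sum_univ_eight]

theorem oip_eq (x y : Fin 8 → R) : oip x y = 2 * (x 0 * y 0 + x 1 * y 1 + x 2 * y 2 + x 3 * y 3 +
    x 4 * y 4 + x 5 * y 5 + x 6 * y 6 + x 7 * y 7) := by
  simp only [oip, Fin.sum_univ_eight]

theorem oct_ext {α : Type} {x y : Fin 8 → α} (h0 : x 0 = y 0) (h1 : x 1 = y 1) (h2 : x 2 = y 2)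
    (h3 : x 3 = y 3) (h4 : x 4 = y 4) (h5 : x 5 = y 5) (h6 : x 6 = y 6) (h7 : x 7 = y 7) :
    x = y := by
  funext k
  fin_cases k
  exacts [h0, h1, h2, h3, h4, h5, h6, h7]

theorem omul_add_left (x x' y : Fin 8 → R) : omul (x + x') y = omul x y + omul x' y := by
  apply oct_ext <;> simp only [Pi.add_apply, omul_0, omul_1, omul_2, omul_3, omul_4, omul_5,
    omul_6, omul_7] <;> ring

theorem omul_add_right (x y y' : Fin 8 → R) : omul x (y + y') = omul x y + omul x y' := by
  apply oct_ext <;> simp only [Pi.add_apply, omul_0, omul_1, omul_2, omul_3, omul_4, omul_5,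
    omul_6, omul_7] <;> ring

theorem omul_smul_left (c : R) (x y : Fin 8 → R) : omul (c • x) y = c • omul x y := by
  apply oct_ext <;> simp only [Pi.smul_apply, smul_eq_mul, omul_0, omul_1, omul_2, omul_3, omul_4,
    omul_5, omul_6, omul_7] <;> ring

theorem omul_smul_right (c : R) (x y : Fin 8 → R) : omul x (c • y) = c • omul x y := by
  apply oct_ext <;> simp only [Pi.smul_apply, smul_eq_mul, omul_0, omul_1, omul_2, omul_3, omul_4,
    omul_5, omul_6, omul_7] <;> ring

theorem omul_neg_left (x y : Fin 8 → R) : omul (-x) y = -omul x y := by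
  rw [← neg_one_smul R x, omul_smul_left, neg_one_smul]

theorem omul_neg_right (x y : Fin 8 → R) : omul x (-y) = -omul x y := by
  rw [← neg_one_smul R y, omul_smul_right, neg_one_smul]

theorem omul_sub_left (x x' y : Fin 8 → R) : omul (x - x') y = omul x y - omul x' y := by
  rw [sub_eq_add_neg, omul_add_left, omul_neg_left, sub_eq_add_neg]

theorem omul_sub_right (x y y' : Fin 8 → R) : omul x (y - y') = omul x y - omul x y' := by
  rw [sub_eq_add_neg, omul_add_right, omul_neg_right, sub_eq_add_neg]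

theorem omul_zero_left (y : Fin 8 → R) : omul 0 y = 0 := by
  rw [← zero_smul R (0 : Fin 8 → R), omul_smul_left, zero_smul, zero_smul]

theorem omul_zero_right (x : Fin 8 → R) : omul x 0 = 0 := by
  rw [← zero_smul R (0 : Fin 8 → R), omul_smul_right, zero_smul, zero_smul]

theorem oconj_add (x y : Fin 8 → R) : oconj (x + y) = oconj x + oconj y := by
  funext k; simp only [oconj, Pi.add_apply]; split_ifs <;> ring

theorem oconj_smul (c : R) (x : Fin 8 → R) : oconj (c • x) = c • oconj x := by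
  funext k; simp only [oconj, Pi.smul_apply, smul_eq_mul]; split_ifs <;> ring

theorem oconj_neg (x : Fin 8 → R) : oconj (-x) = -oconj x := by
  funext k; simp only [oconj, Pi.neg_apply]; split_ifs <;> ring

theorem oconj_sub (x y : Fin 8 → R) : oconj (x - y) = oconj x - oconj y := by
  funext k; simp only [oconj, Pi.sub_apply]; split_ifs <;> ring

theorem oconj_zero : oconj (0 : Fin 8 → R) = 0 := by
  funext k; simp [oconj]

theorem oconj_oconj (x : Fin 8 → R) : oconj (oconj x) = x := by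
  funext k; simp only [oconj]; split_ifs <;> ring

theorem oconj_omul (x y : Fin 8 → R) : oconj (omul x y) = omul (oconj y) (oconj x) := by
  apply oct_ext <;> simp only [omul_0, omul_1, omul_2, omul_3, omul_4, omul_5, omul_6, omul_7,
    oconj_0, oconj_1, oconj_2, oconj_3, oconj_4, oconj_5, oconj_6, oconj_7] <;> ring

theorem onorm_omul (x y : Fin 8 → R) : onorm (omul x y) = onorm x * onorm y := by
  simp only [onorm_eq, omul_0, omul_1, omul_2, omul_3, omul_4, omul_5, omul_6, omul_7]; ring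

theorem onorm_oconj (x : Fin 8 → R) : onorm (oconj x) = onorm x := by
  simp only [onorm_eq, oconj_0, oconj_1, oconj_2, oconj_3, oconj_4, oconj_5, oconj_6, oconj_7]
  ring

theorem onorm_add (x y : Fin 8 → R) : onorm (x + y) = onorm x + oip x y + onorm y := by
  simp only [onorm_eq, oip_eq, Pi.add_apply]; ring

theorem onorm_sub (x y : Fin 8 → R) : onorm (x - y) = onorm x - oip x y + onorm y := by
  simp only [onorm_eq, oip_eq, Pi.sub_apply]; ring

theorem onorm_smul (c : R) (x : Fin 8 → R) : onorm (c • x) = c ^ 2 * onorm x := by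
  simp only [onorm_eq, Pi.smul_apply, smul_eq_mul]; ring

theorem onorm_neg (x : Fin 8 → R) : onorm (-x) = onorm x := by
  simp only [onorm_eq, Pi.neg_apply]; ring

theorem onorm_zero : onorm (0 : Fin 8 → R) = 0 := by simp [onorm]

theorem oip_comm (x y : Fin 8 → R) : oip x y = oip y x := by simp only [oip_eq]; ring

theorem oip_self (x : Fin 8 → R) : oip x x = 2 * onorm x := by simp only [oip_eq, onorm_eq]; ring

theorem oip_add_left (x x' y : Fin 8 → R) : oip (x + x') y = oip x y + oip x' y := by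
  simp only [oip_eq, Pi.add_apply]; ring

theorem oip_add_right (x y y' : Fin 8 → R) : oip x (y + y') = oip x y + oip x y' := by
  simp only [oip_eq, Pi.add_apply]; ring

theorem oip_sub_left (x x' y : Fin 8 → R) : oip (x - x') y = oip x y - oip x' y := by
  simp only [oip_eq, Pi.sub_apply]; ring

theorem oip_sub_right (x y y' : Fin 8 → R) : oip x (y - y') = oip x y - oip x y' := by
  simp only [oip_eq, Pi.sub_apply]; ring

theorem oip_neg_left (x y : Fin 8 → R) : oip (-x) y = -oip x y := by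
  simp only [oip_eq, Pi.neg_apply]; ring

theorem oip_neg_right (x y : Fin 8 → R) : oip x (-y) = -oip x y := by
  simp only [oip_eq, Pi.neg_apply]; ring

theorem oip_smul_left (c : R) (x y : Fin 8 → R) : oip (c • x) y = c * oip x y := by
  simp only [oip_eq, Pi.smul_apply, smul_eq_mul]; ring

theorem oip_smul_right (c : R) (x y : Fin 8 → R) : oip x (c • y) = c * oip x y := by
  simp only [oip_eq, Pi.smul_apply, smul_eq_mul]; ring

theorem oip_zero_left (y : Fin 8 → R) : oip 0 y = 0 := by simp [oip]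

theorem oip_zero_right (x : Fin 8 → R) : oip x 0 = 0 := by simp [oip]

theorem oip_oconj (x y : Fin 8 → R) : oip (oconj x) (oconj y) = oip x y := by
  simp only [oip_eq, oconj_0, oconj_1, oconj_2, oconj_3, oconj_4, oconj_5, oconj_6, oconj_7]; ring

theorem oip_oconj_left (x y : Fin 8 → R) : oip (oconj x) y = oip x (oconj y) := by
  simp only [oip_eq, oconj_0, oconj_1, oconj_2, oconj_3, oconj_4, oconj_5, oconj_6, oconj_7]; ring

theorem two_mul_omul_0 (x y : Fin 8 → R) : 2 * omul x y 0 = oip x (oconj y) := by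
  simp only [oip_eq, omul_0, oconj_0, oconj_1, oconj_2, oconj_3, oconj_4, oconj_5, oconj_6,
    oconj_7]; ring

theorem omul_assoc_0 (x y z : Fin 8 → R) : omul (omul x y) z 0 = omul x (omul y z) 0 := by
  simp only [omul_0, omul_1, omul_2, omul_3, omul_4, omul_5, omul_6, omul_7]; ring

theorem omul_cyc_0 (x y z : Fin 8 → R) : omul (omul x y) z 0 = omul (omul y z) x 0 := by
  simp only [omul_0, omul_1, omul_2, omul_3, omul_4, omul_5, omul_6, omul_7]; ring

theorem oip_omul_left (x y z : Fin 8 → R) : oip (omul x y) z = oip y (omul (oconj x) z) := by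
  simp only [oip_eq, omul_0, omul_1, omul_2, omul_3, omul_4, omul_5, omul_6, omul_7,
    oconj_0, oconj_1, oconj_2, oconj_3, oconj_4, oconj_5, oconj_6, oconj_7]; ring

theorem oip_omul_right (x y z : Fin 8 → R) : oip (omul x y) z = oip x (omul z (oconj y)) := by
  simp only [oip_eq, omul_0, omul_1, omul_2, omul_3, omul_4, omul_5, omul_6, omul_7,
    oconj_0, oconj_1, oconj_2, oconj_3, oconj_4, oconj_5, oconj_6, oconj_7]; ring

theorem conj_mul_mul (x y : Fin 8 → R) : omul (oconj x) (omul x y) = onorm x • y := by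
  apply oct_ext <;> simp only [Pi.smul_apply, smul_eq_mul, onorm_eq, omul_0, omul_1, omul_2, omul_3,
    omul_4, omul_5, omul_6, omul_7, oconj_0, oconj_1, oconj_2, oconj_3, oconj_4, oconj_5, oconj_6,
    oconj_7] <;> ring

theorem mul_mul_conj (x y : Fin 8 → R) : omul (omul y x) (oconj x) = onorm x • y := by
  apply oct_ext <;> simp only [Pi.smul_apply, smul_eq_mul, onorm_eq, omul_0, omul_1, omul_2, omul_3,
    omul_4, omul_5, omul_6, omul_7, oconj_0, oconj_1, oconj_2, oconj_3, oconj_4, oconj_5, oconj_6,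
    oconj_7] <;> ring

theorem mul_conj_mul (x y : Fin 8 → R) : omul x (omul (oconj x) y) = onorm x • y := by
  have h := conj_mul_mul (oconj x) y
  rwa [oconj_oconj, onorm_oconj] at h

theorem mul_conj_mul' (x y : Fin 8 → R) : omul (omul y (oconj x)) x = onorm x • y := by
  have h := mul_mul_conj (oconj x) y
  rwa [oconj_oconj, onorm_oconj] at h

section Map

variable {S : Type} [CommRing S] (f : R →+* S)

theorem omul_map (x y : Fin 8 → R) :
    omul (fun k => f (x k)) (fun k => f (y k)) = fun k => f (omul x y k) := by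
  apply oct_ext <;> simp only [omul_0, omul_1, omul_2, omul_3, omul_4, omul_5, omul_6, omul_7,
    map_add, map_sub, map_mul]

theorem oconj_map (x : Fin 8 → R) : oconj (fun k => f (x k)) = fun k => f (oconj x k) := by
  funext k; simp only [oconj]; split_ifs <;> simp

theorem onorm_map (x : Fin 8 → R) : onorm (fun k => f (x k)) = f (onorm x) := by
  simp only [onorm, map_sum, map_pow]

theorem oip_map (x y : Fin 8 → R) : oip (fun k => f (x k)) (fun k => f (y k)) = f (oip x y) := by
  simp only [oip, map_sum, map_mul, map_ofNat]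

end Map

section Ord

variable {F : Type} [Field F] [LinearOrder F] [IsStrictOrderedRing F]

theorem onorm_nonneg (x : Fin 8 → F) : 0 ≤ onorm x := Finset.sum_nonneg fun _ _ => sq_nonneg _

theorem onorm_eq_zero {x : Fin 8 → F} (h : onorm x = 0) : x = 0 := by
  funext k
  exact pow_eq_zero_iff two_ne_zero |>.1
    ((Finset.sum_eq_zero_iff_of_nonneg fun _ _ => sq_nonneg _).1 h k (Finset.mem_univ k))

theorem oip_sq_le (x y : Fin 8 → F) : oip x y ^ 2 ≤ 4 * (onorm x * onorm y) := by
  have h := Finset.sum_mul_sq_le_sq_mul_sq Finset.univ x y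
  simp only [oip, onorm]
  nlinarith [h]

end Ord

end Pool.Agent.E7
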