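import Pool.Agent.Lib.MP_7e5527_ag.Ev

/-! Class sums and the lemma of Artin and Rees. -/

open Filter Topology
open scoped Classical

noncomputable section

namespace Pool.Agent.E7

variable {p : ℕ} [Fact p.Prime]

theorem pa_fib {α J G : Type} [DecidableEq J] [NormedAddCommGroup G] [CompleteSpace G] {f : α → G}
    (hf : Summable f) (cl : α → J) :
    HasSum (fun j => ∑' T, if cl T = j then f T else 0) (∑' T, f T) := by
  have h := hf.hasSum.tsum_fiberwise cl
  have e : (fun j => ∑' T, if cl T = j then f T else 0) =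
      fun j => ∑' T : cl ⁻¹' {j}, f T := by
    funext j
    rw [tsum_subtype]
    exact tsum_congr fun T => by by_cases hT : cl T = j <;> simp [hT]
  rwa [e]

theorem pa_fib_le {α J G : Type} [DecidableEq J] [NormedAddCommGroup G] [CompleteSpace G]
    [IsUltrametricDist G] {f : α → G} (hf : Summable f) (cl : α → J) {M : ℝ} (hM : 0 ≤ M)
    (h : ∀ j, ‖∑' T, if cl T = j then f T else 0‖ ≤ M) : ‖∑' T, f T‖ ≤ M := by
  rw [← (pa_fib hf cl).tsum_eq]
  exact IsUltrametricDist.norm_tsum_le_of_forall_le_of_nonneg hM h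

theorem pa_ite {α G : Type} [NormedAddCommGroup G] [CompleteSpace G] {f : α → G}
    (hf : Summable f) (P : α → Prop) [DecidablePred P] :
    Summable fun T => if P T then f T else 0 :=
  (hf.indicator {T | P T}).congr fun T => by by_cases hT : P T <;> simp [hT]

/-- The filter by roots of unity. -/
theorem pa_filter {α : Type} (χ f : α → ℂ_[p]) {m : ℕ} (hm : 0 < m) (hχ : ∀ T, χ T ^ m = 1)
    (h : ∀ j : ℕ, HasSum (fun T => χ T ^ j * f T) 0) (T0 : α) :
    ∑' T, (if χ T = χ T0 then f T else 0) = 0 := by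
  have h0 : χ T0 ≠ 0 := fun h0 => by
    have := hχ T0
    rw [h0, zero_pow hm.ne'] at this
    exact zero_ne_one this
  have hm' : (m : ℂ_[p]) ≠ 0 := by exact_mod_cast hm.ne'
  have h1 := (hasSum_sum (s := Finset.range m) fun j _ => (h j).mul_left ((χ T0)⁻¹ ^ j)).mul_left
    (m : ℂ_[p])⁻¹
  simp only [mul_zero, Finset.sum_const_zero] at h1
  refine Eq.trans (tsum_congr fun T => ?_) h1.tsum_eq
  have e : ∑ j ∈ Finset.range m, (χ T0)⁻¹ ^ j * (χ T ^ j * f T) =
      (∑ j ∈ Finset.range m, (χ T / χ T0) ^ j) * f T := by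
    rw [Finset.sum_mul]
    exact Finset.sum_congr rfl fun j _ => by rw [div_eq_mul_inv, mul_pow]; ring
  rw [e]
  split_ifs with hT
  · rw [hT, div_self h0]
    simp only [one_pow, Finset.sum_const, Finset.card_range, nsmul_eq_mul, mul_one]
    field_simp
  · have h2 : χ T / χ T0 - 1 ≠ 0 := sub_ne_zero.2 fun h2 => hT (eq_of_div_eq_one h2)
    have h3 := geom_sum_mul (χ T / χ T0) m
    rw [div_pow, hχ, hχ, div_one, sub_self] at h3
    rw [(mul_eq_zero.1 h3).resolve_right h2, zero_mul, mul_zero]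

theorem pa_ar {R J : Type} [CommRing R] [IsNoetherianRing R] (x : R) (G : J → R) :
    ∃ (s : Finset J) (N : ℕ), ∀ e : R →+* ℂ_[p], (∀ f, ‖e f‖ ≤ 1) → ‖e x‖ < 1 →
      (∀ i ∈ s, ∀ M : ℝ, 0 ≤ M → (∀ j, x ^ N ∣ G j → ‖e (G j)‖ ≤ M) → ‖e (G i)‖ ≤ M) →
      ∀ j, e (G j) = 0 := by
  obtain ⟨s', h1, h2⟩ := (Submodule.fg_span_iff_fg_span_finset_subset (Set.range G)).1
    (IsNoetherian.noetherian (Submodule.span R (Set.range G)))
  rw [← Set.image_univ, Finset.subset_set_image_iff] at h1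
  obtain ⟨s, -, rfl⟩ := h1
  obtain ⟨k, hk⟩ := (Ideal.span {x}).exists_pow_inf_eq_pow_smul (Submodule.span R (Set.range G))
  refine ⟨s, k + 1, fun e he hx h => ?_⟩
  obtain ⟨M, hM⟩ : ∃ M : NNReal, M = s.sup fun i => ‖e (G i)‖₊ := ⟨_, rfl⟩
  have hadd : ∀ {B : ℝ} {a b : R}, ‖e a‖ ≤ B → ‖e b‖ ≤ B → ‖e (a + b)‖ ≤ B := fun ha hb => by
    rw [map_add]
    exact (IsUltrametricDist.norm_add_le_max _ _).trans (max_le ha hb)
  have hI : ∀ f ∈ Submodule.span R (Set.range G), ‖e f‖ ≤ M := by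
    intro f hf
    rw [h2] at hf
    induction hf using Submodule.span_induction with
    | mem g hg =>
      obtain ⟨i, hi, rfl⟩ := Finset.mem_image.1 hg
      have : ‖e (G i)‖₊ ≤ M := hM ▸ Finset.le_sup (f := fun i => ‖e (G i)‖₊) hi
      exact this
    | zero => simp
    | add a b _ _ ha hb => exact hadd ha hb
    | smul r a _ ha =>
      rw [smul_eq_mul, map_mul, norm_mul]
      exact (mul_le_of_le_one_left (norm_nonneg _) (he r)).trans ha
  have hN : ∀ j, x ^ (k + 1) ∣ G j → ‖e (G j)‖ ≤ ‖e x‖ * M := by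
    intro j hj
    have h3 : G j ∈ (Ideal.span {x} ^ (k + 1) • ⊤ ⊓ Submodule.span R (Set.range G) :
        Submodule R R) := by
      refine ⟨?_, Submodule.subset_span ⟨j, rfl⟩⟩
      rw [Ideal.span_singleton_pow, smul_eq_mul, Ideal.mul_top]
      exact Ideal.mem_span_singleton.2 hj
    rw [hk (k + 1) k.le_succ, Nat.add_sub_cancel_left, pow_one] at h3
    refine Submodule.smul_induction_on (p := fun f => ‖e f‖ ≤ ‖e x‖ * M) h3 ?_ fun a b => hadd
    intro r hr n hn
    obtain ⟨r, rfl⟩ := Ideal.mem_span_singleton.1 hr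
    rw [smul_eq_mul, map_mul, map_mul, norm_mul, norm_mul]
    exact mul_le_mul (mul_le_of_le_one_right (norm_nonneg _) (he r)) (hI n hn.2) (norm_nonneg _)
      (norm_nonneg _)
  have h4 : M ≤ ‖e x‖₊ * M := by
    nth_rewrite 1 [hM]
    exact Finset.sup_le fun i hi => h i hi _ (mul_nonneg (norm_nonneg _) M.2) hN
  have h5 : (M : ℝ) ≤ ‖e x‖ * M := h4
  have h6 : (M : ℝ) ≤ 0 := by nlinarith [M.2]
  exact fun j => norm_le_zero_iff.1 ((hI _ (Submodule.subset_span ⟨j, rfl⟩)).trans h6)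

theorem pa_summable {α : Type} (w : α → ℂ_[p]) (hw : ∀ T, ‖w T‖ ≤ 1) (n1 : α → ℕ)
    (hfin : ∀ n, {T | w T ≠ 0 ∧ n1 T = n}.Finite) {π : ℂ_[p]} (hπ : ‖π‖ < 1) :
    Summable fun T => w T * π ^ n1 T := by
  rw [NonarchimedeanAddGroup.summable_iff_tendsto_cofinite_zero, Metric.tendsto_nhds]
  intro ε hε
  obtain ⟨N, hN⟩ := exists_pow_lt_of_lt_one hε hπ
  refine ((Set.finite_Iio N).biUnion fun n _ => hfin n).subset fun T hT => ?_
  simp only [Set.mem_compl_iff, Set.mem_ofPred_eq, dist_zero_right, not_lt, norm_mul, norm_pow] at hT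
  simp only [Set.mem_iUnion, Set.mem_ofPred_eq, Set.mem_Iio]
  refine ⟨n1 T, not_le.1 fun hn => ?_, fun h0 => ?_, rfl⟩
  · have := pow_le_pow_of_le_one (norm_nonneg π) hπ.le hn
    have := mul_le_of_le_one_left (pow_nonneg (norm_nonneg π) (n1 T)) (hw T)
    linarith
  · rw [h0, norm_zero, zero_mul] at hT
    linarith

/-- If the sums over the classes of `χ k` vanish then so do the sums over the limit classes. -/
theorem pa_vanish {α J A : Type} [CommRing A] [IsNoetherianRing A] (l : Filter ℕ) (w : α → A)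
    (n1 : α → ℕ) (hfin : ∀ n, {T | w T ≠ 0 ∧ n1 T = n}.Finite) (φ : ℕ → A →+* ℂ_[p])
    (π : ℕ → ℂ_[p]) (χ : ℕ → α → ℂ_[p]) (cl : α → J) (rep : J → α) (hrep : ∀ j, cl (rep j) = j)
    (h1 : ∀ᶠ k in l, (∀ a, ‖φ k a‖ ≤ 1) ∧ ‖π k‖ < 1 ∧ (∀ T T', cl T = cl T' → χ k T = χ k T') ∧
      ∀ T0, ∑' T, (if χ k T = χ k T0 then φ k (w T) * π k ^ n1 T else 0) = 0)
    (h2 : ∀ T T', cl T ≠ cl T' → ∀ᶠ k in l, χ k T ≠ χ k T') :
    ∀ᶠ k in l, ∀ j, ∑' T, (if cl T = j then φ k (w T) * π k ^ n1 T else 0) = 0 := by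
  obtain ⟨G, hG⟩ : ∃ G : J → PowerSeries A, ∀ j n, PowerSeries.coeff n (G j) =
      ∑ T ∈ (hfin n).toFinset, if cl T = j then w T else 0 :=
    ⟨fun j => PowerSeries.mk _, fun j n => PowerSeries.coeff_mk _ _⟩
  obtain ⟨s, N, hs⟩ := pa_ar (p := p) PowerSeries.X G
  obtain ⟨J0, hJ0⟩ : ∃ J0 : Finset J, J0 = s ∪ (Finset.range N).biUnion fun n =>
    (hfin n).toFinset.image cl := ⟨_, rfl⟩
  have h3 : ∀ᶠ k in l, ∀ j ∈ J0, ∀ j' ∈ J0, j ≠ j' → χ k (rep j) ≠ χ k (rep j') := by
    refine (eventually_all_finset _).2 fun j _ => (eventually_all_finset _).2 fun j' _ => ?_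
    by_cases h : j = j'
    · exact Eventually.of_forall fun _ h' => absurd h h'
    · exact (h2 _ _ (by rwa [hrep, hrep])).mono fun _ h _ => h
  filter_upwards [h1, h3] with k ⟨hφ, hπ, hχ, hz⟩ hsep
  have hsum : Summable fun T => φ k (w T) * π k ^ n1 T :=
    pa_summable _ (fun T => hφ _) n1 (fun n => (hfin n).subset fun T hT =>
      ⟨fun h0 => hT.1 (by rw [h0, map_zero]), hT.2⟩) hπ
  have hev : ∀ j, UAP.evI (φ k) (π k) (G j) =
      ∑' T, if cl T = j then φ k (w T) * π k ^ n1 T else 0 := by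
    intro j
    refine (UAP.hasEv_evI (φ k) hφ hπ (G j)).unique ?_
    have h4 := pa_fib (pa_ite hsum fun T => cl T = j) n1
    have e : (fun n => PowerSeries.coeff n (PowerSeries.map (φ k) (G j)) * π k ^ n) = fun n =>
        ∑' T, if n1 T = n then (if cl T = j then φ k (w T) * π k ^ n1 T else 0) else 0 := by
      funext n
      rw [PowerSeries.coeff_map, hG, map_sum, Finset.sum_mul,
        tsum_eq_sum (s := (hfin n).toFinset) fun T hT => ?_]
      · refine Finset.sum_congr rfl fun T hT => ?_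
        rw [if_pos ((hfin n).mem_toFinset.1 hT).2, ((hfin n).mem_toFinset.1 hT).2]
        split_ifs <;> simp
      · by_cases h5 : n1 T = n
        · have h6 : w T = 0 := not_not.1 fun h6 => hT ((hfin n).mem_toFinset.2 ⟨h6, h5⟩)
          simp [h6]
        · exact if_neg h5
    unfold UAP.HasEv
    rwa [e]
  simp only [← hev]
  refine hs _ (UAP.norm_evI_le _ hφ hπ) ?_ fun i hi M hM hle => ?_
  · have h4 := UAP.evI_coe (φ k) hφ hπ Polynomial.X
    rw [Polynomial.coe_X, Polynomial.map_X, Polynomial.eval_X] at h4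
    rwa [h4]
  · have h4 := hz (rep i)
    have h5 : ∀ T, (if χ k T = χ k (rep i) then φ k (w T) * π k ^ n1 T else 0) =
        (if cl T = i then φ k (w T) * π k ^ n1 T else 0) +
        (if χ k T = χ k (rep i) ∧ cl T ≠ i then φ k (w T) * π k ^ n1 T else 0) := by
      intro T
      by_cases hT : cl T = i
      · simp [hT, hχ T (rep i) (by rw [hT, hrep])]
      · simp [hT]
    rw [tsum_congr h5, (pa_ite hsum _).tsum_add (pa_ite hsum _), ← hev] at h4
    rw [eq_neg_of_add_eq_zero_left h4, norm_neg]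
    refine pa_fib_le (pa_ite hsum _) cl hM fun j => ?_
    by_cases hj : χ k (rep j) = χ k (rep i) ∧ j ≠ i
    · have h6 : j ∉ J0 := fun h6 => hsep j h6 i (hJ0 ▸ Finset.mem_union_left _ hi) hj.2 hj.1
      have h7 : PowerSeries.X ^ N ∣ G j := PowerSeries.X_pow_dvd_iff.2 fun n hn => by
        rw [hG]
        refine Finset.sum_eq_zero fun T hT => if_neg fun h8 => h6 ?_
        rw [hJ0]
        exact Finset.mem_union_right _ (Finset.mem_biUnion.2 ⟨n, Finset.mem_range.2 hn,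
          Finset.mem_image.2 ⟨T, hT, h8⟩⟩)
      refine le_of_eq_of_le ?_ (hle j h7)
      rw [hev]
      congr 1
      refine tsum_congr fun T => ?_
      by_cases hT : cl T = j
      · rw [if_pos hT, if_pos hT, if_pos ⟨(hχ T (rep j) (by rw [hT, hrep])).trans hj.1, hT ▸ hj.2⟩]
      · rw [if_neg hT, if_neg hT]
    · refine le_of_eq_of_le ?_ hM
      rw [norm_eq_zero]
      refine (tsum_congr fun T => ?_).trans tsum_zero
      by_cases hT : cl T = j
      · rw [if_pos hT, if_neg fun h8 => hj ⟨(hχ _ T (by rw [hT, hrep])).trans h8.1, hT ▸ h8.2⟩]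
      · rw [if_neg hT]

end Pool.Agent.E7
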