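import Pool.Agent.Lib.MP_7e5527_ag.E7.PData

/-! Collinear valuations, lattices, elements of given norm. -/

open Filter Topology Polynomial
open scoped Polynomial.Bivariate

noncomputable section

namespace Pool.Agent.E7

variable {ι : Type} [Fintype ι] [DecidableEq ι] {p : ℕ} [Fact p.Prime] {C : Cone ι} {Q : Type}
  [CommRing Q]

theorem pa_den (y : ι → ℚ) (y' : ι → ℚ) : ∃ d : ℕ, 0 < d ∧ ∃ z z' : ι → ℤ,
    (∀ i, (z i : ℚ) = d * y i) ∧ ∀ i, (z' i : ℚ) = d * y' i := by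
  have h : ∀ (d : ℕ) (r : ℚ), r.den ∣ d → ∃ z : ℤ, (z : ℚ) = d * r := by
    rintro _ r ⟨e, rfl⟩
    refine ⟨e * r.num, ?_⟩
    push_cast
    rw [← Rat.mul_den_eq_num r]
    ring
  have h1 := fun i => h ((∏ i, (y i).den) * ∏ i, (y' i).den) (y i)
    ((Finset.dvd_prod_of_mem _ (Finset.mem_univ i)).mul_right _)
  have h2 := fun i => h ((∏ i, (y i).den) * ∏ i, (y' i).den) (y' i)
    ((Finset.dvd_prod_of_mem _ (Finset.mem_univ i)).mul_left _)
  choose z hz using h1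
  choose z' hz' using h2
  exact ⟨_, mul_pos (Finset.prod_pos fun i _ => (y i).den_pos)
    (Finset.prod_pos fun i _ => (y' i).den_pos), z, z', hz, hz'⟩

theorem pa_orth (Λ : Submodule ℤ (ι → ℤ)) (h : ∀ N : ℕ, 0 < N → ∃ i, Pi.single i (N : ℤ) ∉ Λ) :
    ∃ a : ι → ℤ, a ≠ 0 ∧ ∀ T ∈ Λ, ipZ T a = 0 := by
  obtain ⟨i, hi⟩ : ∃ i, ∀ N : ℕ, 0 < N → Pi.single i (N : ℤ) ∉ Λ := by
    by_contra hc
    push Not at hc
    choose N hN hm using hc
    obtain ⟨i, hi⟩ := h (∏ i, N i) (Finset.prod_pos fun i _ => hN i)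
    obtain ⟨e, he⟩ := Finset.dvd_prod_of_mem N (Finset.mem_univ i)
    refine hi ?_
    have := Λ.smul_mem (e : ℤ) (hm i)
    rwa [← Pi.single_smul', smul_eq_mul, mul_comm, ← Nat.cast_mul, ← he] at this
  have h1 : ∀ v ∈ Submodule.span ℚ ((fun (T : ι → ℤ) l => (T l : ℚ)) '' Λ),
      ∃ N : ℕ, 0 < N ∧ ∃ T ∈ Λ, ∀ l, (T l : ℚ) = N * v l := by
    intro v hv
    induction hv using Submodule.span_induction with
    | mem v hv =>
      obtain ⟨T, hT, rfl⟩ := hv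
      exact ⟨1, one_pos, T, hT, fun l => by simp⟩
    | zero => exact ⟨1, one_pos, 0, Λ.zero_mem, fun l => by simp⟩
    | add v v' _ _ hv hv' =>
      obtain ⟨N, hN, T, hT, e⟩ := hv
      obtain ⟨N', hN', T', hT', e'⟩ := hv'
      refine ⟨N * N', mul_pos hN hN', (N' : ℤ) • T + (N : ℤ) • T',
        Λ.add_mem (Λ.smul_mem _ hT) (Λ.smul_mem _ hT'), fun l => ?_⟩
      simp only [Pi.add_apply, Pi.smul_apply, smul_eq_mul]
      push_cast
      rw [e, e']
      ring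
    | smul r v _ hv =>
      obtain ⟨N, hN, T, hT, e⟩ := hv
      refine ⟨N * r.den, mul_pos hN r.den_pos, r.num • T, Λ.smul_mem _ hT, fun l => ?_⟩
      simp only [Pi.smul_apply, smul_eq_mul]
      push_cast
      rw [e, ← Rat.mul_den_eq_num r]
      ring
  have h2 : (Pi.single i 1 : ι → ℚ) ∉
      Submodule.span ℚ ((fun (T : ι → ℤ) l => (T l : ℚ)) '' Λ) := fun hv => by
    obtain ⟨N, hN, T, hT, e⟩ := h1 _ hv
    refine hi N hN ((?_ : T = Pi.single i (N : ℤ)) ▸ hT)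
    funext l
    refine Int.cast_injective (α := ℚ) ?_
    rw [e]
    by_cases hl : l = i <;> simp [Pi.single_apply, hl]
  obtain ⟨f, hf, hk⟩ := Submodule.exists_le_ker_of_notMem h2
  obtain ⟨d, hd, z, -, hz, -⟩ := pa_den (fun l => f (Pi.single l 1)) 0
  have hd' : (d : ℚ) ≠ 0 := by exact_mod_cast hd.ne'
  refine ⟨z, fun h0 => ?_, fun T hT => ?_⟩
  · have := hz i
    rw [h0] at this
    exact mul_ne_zero hd' hf (by simpa using this.symm)
  · have h3 : f (fun l => (T l : ℚ)) = 0 := hk (Submodule.subset_span ⟨T, hT, rfl⟩)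
    rw [LinearMap.pi_apply_eq_sum_univ] at h3
    refine Int.cast_injective (α := ℚ) ?_
    rw [ipZ_cast, ip, Int.cast_zero, ← mul_zero (d : ℚ), ← h3, Finset.mul_sum]
    refine Finset.sum_congr rfl fun l _ => ?_
    have e : (fun j => if l = j then (1 : ℚ) else 0) = Pi.single l 1 := by
      funext j
      simp [Pi.single_apply, eq_comm]
    rw [hz, e, smul_eq_mul]
    ring

theorem pa_norm (r : ℚ) : ∃ π : ℂ_[p], ‖π‖ = (p : ℝ) ^ (-(r : ℝ)) := by
  have hp : (0 : ℝ) < p := one_pos.trans one_lt_p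
  obtain ⟨π, h⟩ := IsAlgClosed.exists_pow_nat_eq ((p : ℂ_[p]) ^ r.num) r.den_pos
  refine ⟨π, (pow_left_inj₀ (norm_nonneg _) (by positivity) r.den_pos.ne').1 ?_⟩
  rw [← norm_pow, h, norm_zpow, UAP.norm_p_eq, ← Real.rpow_natCast, ← Real.rpow_mul hp.le,
    inv_zpow', ← Real.rpow_intCast]
  congr 1
  have : ((r * r.den : ℚ) : ℝ) = (r.num : ℚ) := by rw [Rat.mul_den_eq_num]
  push_cast at this ⊢
  linarith

/-- Two monomials of a relation have the same norm. -/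
theorem pa_two {P : ℂ_[p][X][Y]} (hP : P ≠ 0) : ∃ s : Finset (ℕ × ℕ), ∃ a : ℕ × ℕ → ℂ_[p],
    (∀ m ∈ s, a m ≠ 0) ∧ ∀ x y : ℂ_[p], x ≠ 0 → y ≠ 0 → P.evalEval x y = 0 → ∃ m ∈ s ×ˢ s,
      m.1 ≠ m.2 ∧ ‖a m.1 * x ^ m.1.1 * y ^ m.1.2‖ = ‖a m.2 * x ^ m.2.1 * y ^ m.2.2‖ := by
  classical
  obtain ⟨s, hs⟩ : ∃ s : Finset (ℕ × ℕ), ∀ m, m ∈ s ↔ (P.coeff m.2).coeff m.1 ≠ 0 := by
    refine ⟨P.support.biUnion fun k => (P.coeff k).support.image fun l => (l, k), fun m => ?_⟩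
    simp only [Finset.mem_biUnion, Finset.mem_image, mem_support_iff]
    refine ⟨?_, fun h => ⟨m.2, fun h0 => h (by rw [h0, coeff_zero]), m.1, h, rfl⟩⟩
    rintro ⟨k, -, l, h, rfl⟩
    exact h
  refine ⟨s, fun m => (P.coeff m.2).coeff m.1, fun m hm => (hs m).1 hm, fun x y hx hy h => ?_⟩
  have e : P.evalEval x y = ∑ m ∈ s, (P.coeff m.2).coeff m.1 * x ^ m.1 * y ^ m.2 := by
    rw [evalEval, eval_eq_sum (p := P), Polynomial.sum_def, eval_finsetSum,
      ← Finset.sum_fiberwise_of_maps_to (s := s) (t := P.support) (g := Prod.snd) fun m hm =>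
        mem_support_iff.2 fun h0 => (hs m).1 hm (by rw [h0, coeff_zero])]
    refine Finset.sum_congr rfl fun k _ => ?_
    rw [eval_mul, eval_pow, eval_C, eval_eq_sum, Polynomial.sum_def, Finset.sum_mul]
    symm
    refine Finset.sum_bij (fun m _ => m.1) ?_ ?_ ?_ ?_
    · intro m hm
      obtain ⟨h1, rfl⟩ := Finset.mem_filter.1 hm
      exact mem_support_iff.2 ((hs m).1 h1)
    · intro m hm m' hm' h1
      exact Prod.ext h1 ((Finset.mem_filter.1 hm).2.trans (Finset.mem_filter.1 hm').2.symm)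
    · intro l hl
      exact ⟨(l, k), Finset.mem_filter.2 ⟨(hs _).2 (mem_support_iff.1 hl), rfl⟩, rfl⟩
    · intro m hm
      rw [(Finset.mem_filter.1 hm).2]
  by_contra hc
  push Not at hc
  obtain ⟨k, hk⟩ := Polynomial.support_nonempty.2 hP
  obtain ⟨l, hl⟩ := Polynomial.support_nonempty.2 (mem_support_iff.1 hk)
  have hm : (l, k) ∈ s := (hs _).2 (mem_support_iff.1 hl)
  have h1 := IsUltrametricDist.norm_sum_eq_sup'_of_pairwise_ne
    (f := fun m : ℕ × ℕ => (P.coeff m.2).coeff m.1 * x ^ m.1 * y ^ m.2) ⟨_, hm⟩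
    fun m hm m' hm' h1 => hc (m, m') (Finset.mem_product.2 ⟨hm, hm'⟩) h1
  rw [← e, h, norm_zero] at h1
  have h2 := Finset.le_sup' (fun m : ℕ × ℕ => ‖(P.coeff m.2).coeff m.1 * x ^ m.1 * y ^ m.2‖) hm
  rw [← h1, norm_le_zero_iff] at h2
  exact mul_ne_zero (mul_ne_zero ((hs _).1 hm) (pow_ne_zero _ hx)) (pow_ne_zero _ hy) h2

theorem pa_trop {x : ℕ → ι → ℂ_[p]} {y : ℕ → ι → ℚ} (hx : ∀ n, Pt p (x n) (y n))
    (rel : ∀ i j, ∃ P : ℂ_[p][X][Y], P ≠ 0 ∧ ∀ n, P.evalEval (x n i) (x n j) = 0)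
    (U : Ultrafilter ℕ) : ∃ ya yb : ι → ℚ, ∀ᶠ n in (U : Filter ℕ), ∃ s : ℚ, y n = ya + s • yb := by
  have hp : (0 : ℝ) < p := one_pos.trans one_lt_p
  have h1 : ∀ i j, ∃ (al be r : ℝ), (al ≠ 0 ∨ be ≠ 0) ∧
      ∀ᶠ n in (U : Filter ℕ), al * y n i + be * y n j = r := by
    intro i j
    obtain ⟨P, hP, h⟩ := rel i j
    obtain ⟨s, a, ha, h2⟩ := pa_two hP
    have h3 : ∀ᶠ n in (U : Filter ℕ), ∃ m ∈ (↑(s ×ˢ s) : Set ((ℕ × ℕ) × ℕ × ℕ)), m.1 ≠ m.2 ∧
        ‖a m.1 * x n i ^ m.1.1 * x n j ^ m.1.2‖ = ‖a m.2 * x n i ^ m.2.1 * x n j ^ m.2.2‖ :=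
      Eventually.of_forall fun n => h2 _ _ ((hx n).ne_zero i) ((hx n).ne_zero j) (h n)
    obtain ⟨⟨m, m'⟩, hm, h4⟩ := (Ultrafilter.eventually_exists_mem_iff (Finset.finite_toSet _)).1 h3
    obtain ⟨hm1, hm2⟩ := Finset.mem_product.1 hm
    refine ⟨(m.1 - m'.1 : ℝ), (m.2 - m'.2 : ℝ), (Real.log ‖a m‖ - Real.log ‖a m'‖) / Real.log p, ?_,
      h4.mono fun n hn => ?_⟩
    · by_contra hc
      push Not at hc
      exact h4.exists.choose_spec.1 (Prod.ext (by exact_mod_cast sub_eq_zero.1 hc.1)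
        (by exact_mod_cast sub_eq_zero.1 hc.2))
    · have h5 := congrArg Real.log hn.2
      have n1 := norm_ne_zero_iff.2 (ha m hm1)
      have n2 := norm_ne_zero_iff.2 (ha m' hm2)
      have n3 := norm_ne_zero_iff.2 ((hx n).ne_zero i)
      have n4 := norm_ne_zero_iff.2 ((hx n).ne_zero j)
      simp only [norm_mul, norm_pow] at h5
      rw [Real.log_mul (by positivity) (by positivity), Real.log_mul n1 (by positivity),
        Real.log_mul (by positivity) (by positivity), Real.log_mul n2 (by positivity)] at h5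
      simp only [Real.log_pow, hx n i, hx n j, Real.log_rpow hp] at h5
      rw [eq_div_iff (Real.log_pos one_lt_p).ne']
      linarith
  choose al be r h2 h3 using h1
  have h4 : ∀ᶠ n in (U : Filter ℕ), ∀ i j, al i j * y n i + be i j * y n j = r i j :=
    eventually_all.2 fun i => eventually_all.2 fun j => h3 i j
  obtain ⟨n0, h0⟩ := h4.exists
  by_cases hc : ∀ᶠ n in (U : Filter ℕ), y n = y n0
  · exact ⟨y n0, 0, hc.mono fun n hn => ⟨0, by simp [hn]⟩⟩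
  obtain ⟨n1, h5, h6⟩ := (h4.and (Ultrafilter.eventually_not.2 hc)).exists
  obtain ⟨i, hi⟩ := Function.ne_iff.1 h6
  have hi' := sub_ne_zero.2 hi
  refine ⟨y n0, y n1 - y n0, h4.mono fun n hn => ⟨(y n i - y n0 i) / (y n1 i - y n0 i), ?_⟩⟩
  funext j
  have h7 : ((y n j - y n0 j) * (y n1 i - y n0 i) - (y n i - y n0 i) * (y n1 j - y n0 j) : ℝ) =
      0 := by
    rcases h2 i j with h | h
    · refine (mul_eq_zero.1 ?_).resolve_left h
      linear_combination (y n j - y n0 j : ℝ) * (h5 i j - h0 i j) -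
        (y n1 j - y n0 j : ℝ) * (hn i j - h0 i j)
    · refine (mul_eq_zero.1 ?_).resolve_left h
      linear_combination (y n1 i - y n0 i : ℝ) * (hn i j - h0 i j) -
        (y n i - y n0 i : ℝ) * (h5 i j - h0 i j)
  have h8 : (y n j - y n0 j) * (y n1 i - y n0 i) - (y n i - y n0 i) * (y n1 j - y n0 j) = 0 := by
    exact_mod_cast h7
  simp only [Pi.add_apply, Pi.smul_apply, Pi.sub_apply, smul_eq_mul]
  field_simp
  linarith

end Pool.Agent.E7
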