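import Pool.Agent.Lib.MP_7e5527_ag.E7.PPt

/-! Subsequences and the final contradiction. -/

open Filter Topology Polynomial
open scoped Polynomial.Bivariate

noncomputable section

namespace Pool.Agent.E7

variable {ι : Type} [Fintype ι] [DecidableEq ι] {p : ℕ} [Fact p.Prime] {C : Cone ι} {Q : Type}
  [CommRing Q]

variable {S : SR p C Q} {κ : Type}

/-- A subsequence. -/
def Data.comp (D : Data S κ) (f : ℕ → ℕ) (hf : Tendsto f cofinite cofinite) : Data S κ where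
  q n := D.q (f n)
  y n := D.y (f n)
  Φ := D.Φ
  ψ := D.ψ
  i1 := D.i1
  E := D.E
  finE := D.finE
  pt n := D.pt _
  sg n := D.sg _
  van n := D.van _
  coE := D.coE
  kum n := D.kum _
  rel i j := (D.rel i j).imp fun _ h => ⟨h.1, fun _ => h.2 _⟩
  fib c := by
    have := hf (D.fib c).compl_mem_cofinite
    rw [mem_map, Set.preimage_compl, mem_cofinite, compl_compl] at this
    exact this
  dep d := by
    obtain ⟨Q0, h0, B, h⟩ := D.dep d
    exact ⟨Q0, h0, B, fun _ => h _⟩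
  orc := D.orc
  lgr Lg hL U y0 a h := D.lgr Lg hL (U.map f) y0 a h

theorem Data.om (D : Data S κ) (n : ℕ) : D.y n ∈ C.Om := C.sub (D.sg n)

theorem Data.adm (D : Data S κ) (n : ℕ) : Adm C (mon (D.q n)) := (D.pt n).adm (D.om n)

theorem Data.pt_xc (D : Data S κ) (n : ℕ) : Pt p (S.xc (D.q n)) (D.y n) :=
  S.pt_xc (D.pt n) (D.sg n)

theorem Data.ne_ev (D : Data S κ) {U : Ultrafilter ℕ} (hU : (U : Filter ℕ) ≤ cofinite)
    (c : ℂ_[p]) : ∀ᶠ n in (U : Filter ℕ), S.xc (D.q n) D.i1 ≠ c :=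
  hU (D.fib c).compl_mem_cofinite

theorem Data.absurd (D : Data S κ) {U : Ultrafilter ℕ} (hU : (U : Filter ℕ) ≤ cofinite) (d : ℕ)
    (h : ∀ᶠ n in (U : Filter ℕ), S.ev (mon (D.q n)) (D.ψ d) = 0) : False := by
  classical
  obtain ⟨Q0, h0, B, hB⟩ := D.dep d
  have h1 : ∀ᶠ n in (U : Filter ℕ), ∀ c ∈ Q0.roots.toFinset, S.xc (D.q n) D.i1 ≠ c :=
    (eventually_all_finset _).2 fun c _ => D.ne_ev hU c
  obtain ⟨n, h2, h3⟩ := (h.and h1).exists
  have h4 := hB n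
  rw [h2, norm_zero, mul_zero, norm_le_zero_iff] at h4
  exact h3 _ (Multiset.mem_toFinset.2 ((mem_roots h0).2 h4)) rfl

/-- If `P(x n)` tends to zero along an ultrafilter then `x n` tends to a root. -/
theorem tendsto_root {P : ℂ_[p][X]} (hP : P ≠ 0) (U : Ultrafilter ℕ) {x : ℕ → ℂ_[p]}
    (h : Tendsto (fun n => P.eval (x n)) U (𝓝 0)) : ∃ c, Tendsto x U (𝓝 c) := by
  by_contra hc
  push Not at hc
  have h1 : ∀ c, ∃ ε : ℝ, 0 < ε ∧ ∀ᶠ n in (U : Filter ℕ), ε ≤ ‖x n - c‖ := by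
    intro c
    have h2 := hc c
    rw [Metric.tendsto_nhds] at h2
    push Not at h2
    obtain ⟨ε, hε, h3⟩ := h2
    refine ⟨ε, hε, ?_⟩
    simpa [dist_eq_norm] using h3
  choose ε hε h2 using h1
  have h3 : ∀ s : Multiset ℂ_[p], ∃ δ : ℝ, 0 < δ ∧
      ∀ᶠ n in (U : Filter ℕ), δ ≤ ‖(s.map fun a => x n - a).prod‖ := by
    intro s
    induction s using Multiset.induction_on with
    | empty => exact ⟨1, one_pos, by simp⟩
    | cons a s ih =>
      obtain ⟨δ, hδ, h4⟩ := ih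
      refine ⟨ε a * δ, mul_pos (hε a) hδ, ?_⟩
      filter_upwards [h2 a, h4] with n h5 h6
      rw [Multiset.map_cons, Multiset.prod_cons, norm_mul]
      exact mul_le_mul h5 h6 hδ.le (norm_nonneg _)
  obtain ⟨δ, hδ, h4⟩ := h3 P.roots
  have h5 : 0 < ‖P.leadingCoeff‖ * δ := mul_pos (norm_pos_iff.2 (leadingCoeff_ne_zero.2 hP)) hδ
  obtain ⟨n, h6, h7⟩ := (h4.and ((Metric.tendsto_nhds.1 h) _ h5)).exists
  rw [dist_zero_right, (IsAlgClosed.splits P).eval_eq_prod_roots, norm_mul] at h7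
  exact absurd (mul_le_mul_of_nonneg_left h6 (norm_nonneg _)) (not_le.2 h7)

theorem Data.conv (D : Data S κ) (U : Ultrafilter ℕ) (d : ℕ)
    (h : Tendsto (fun n => S.ev (mon (D.q n)) (D.ψ d)) U (𝓝 0)) :
    ∃ c, Tendsto (fun n => S.xc (D.q n) D.i1) U (𝓝 c) := by
  obtain ⟨Q0, h0, B, hB⟩ := D.dep d
  refine tendsto_root h0 U (squeeze_zero_norm hB ?_)
  simpa using h.norm.const_mul B

theorem Good.pow_eq_one {E : IntermediateField ℚ_[p] ℂ_[p]} {q c : ι → ℂ_[p]} (h : Good E q c)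
    {m : ℕ} {i : ι} (h0 : q i ≠ 0) (hm : q i ^ m ∈ E) : c i ^ m = 1 := by
  obtain ⟨σ, -, h1, h2⟩ := h 1
  have h3 := h1 _ hm
  rw [map_pow, h2, pow_one, mul_pow] at h3
  exact mul_right_cancel₀ (pow_ne_zero m h0) (by rw [h3, one_mul])

end Pool.Agent.E7
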