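import Pool.Agent.Lib.MP_7e5527_ag.E7.PFix
import Pool.Agent.Lib.MP_7e5527_ag.E7.PData

/-! Monomials on an arc; the points lie on an arc. -/

open Filter Topology Polynomial
open scoped Polynomial.Bivariate

noncomputable section

namespace Pool.Agent.E7

variable {ι : Type} [Fintype ι] [DecidableEq ι] {p : ℕ} [Fact p.Prime] {C : Cone ι} {Q : Type}
  [CommRing Q]

variable {A : Type} [NormedCommRing A] [NormOneClass A] [NormedAlgebra ℂ_[p] A] [CompleteSpace A]
  [IsUltrametricDist A] [IsDomain A]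

variable {B : BS p A} {U : Ultrafilter ℕ} {x : ℕ → ι → ℂ_[p]} {n0 : ℕ} {t : ℕ → ℂ_[p]}
  {cc : ι → ℂ_[p]} {a : ι → ℤ} {g : ι → Aˣ} {y : ℕ → ι → ℚ}

theorem BS.ev_cont (B : BS p A) (s : ℂ_[p]) : Continuous (B.ev s) := by
  exact AddMonoidHomClass.continuous_of_bound (B.ev s) 1 fun f => by
    rw [one_mul]
    exact B.ev_le s f

theorem BS.norm_ev_unit (B : BS p A) {f : A} (hf : ‖f - 1‖ < 1) (s : ℂ_[p]) : ‖B.ev s f‖ = 1 := by
  have h1 : ‖B.ev s f - 1‖ < 1 := by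
    have h2 := (B.ev_le s (f - 1)).trans_lt hf
    rwa [map_sub, map_one] at h2
  have h2 := IsUltrametricDist.norm_add_eq_max_of_norm_ne_norm (x := B.ev s f - 1) (y := 1)
    (by rw [norm_one]; exact h1.ne)
  rwa [sub_add_cancel, norm_one, max_eq_right h1.le] at h2

theorem parc_mon (h : PArc B U x n0 t cc a g) : ∀ᶠ n in (U : Filter ℕ), t n ≠ 0 ∧ ‖t n‖ < 1 ∧
    ∀ T, mon (x n) T = mon cc T * t n ^ ipZ T a * B.ev (t n) (umon g T) := by
  filter_upwards [h.eq] with n hn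
  refine ⟨hn.1, hn.2.1, fun T => ?_⟩
  have e : B.ev (t n) (umon g T) = mon (fun i => B.ev (t n) (g i)) T :=
    (map_umon (B.ev (t n) : A →+* ℂ_[p]) g T).trans (umon_eq_mon _ T)
  rw [funext hn.2.2, mon_mul (fun i => cc i * t n ^ a i), mon_mul, mon_zpow hn.1, e]

theorem PArc.pt (h : PArc B U x n0 t cc a g) (hx : ∀ n, Pt p (x n) (y n)) : Pt p cc (y n0) := by
  exact fun i => (h.norm i).trans (hx n0 i)

theorem PArc.nonneg (h : PArc B U x n0 t cc a g) (hx : ∀ n, Pt p (x n) (y n)) {T : ι → ℤ}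
    (hT : ∀ n, 0 ≤ ip T (y n)) : 0 ≤ ipZ T a := by
  by_contra hk
  have hc : 0 < ‖mon cc T‖ := norm_pos_iff.2 (mon_ne_zero (h.pt hx).ne_zero T)
  obtain ⟨n, ⟨h1, h2, h3⟩, h4⟩ :=
    ((parc_mon h).and (Metric.tendsto_nhds.1 h.lim _ hc)).exists
  rw [dist_zero_right] at h4
  have h0 : 0 < ‖t n‖ := norm_pos_iff.2 h1
  have h5 : ‖mon (x n) T‖ ≤ 1 := by
    rw [(hx n).norm_mon]
    exact Real.rpow_le_one_of_one_le_of_nonpos one_lt_p.le
      (neg_nonpos.2 (by exact_mod_cast hT n))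
  rw [h3, norm_mul, norm_mul, B.norm_ev_unit (norm_umon_sub_one h.one T), mul_one,
    norm_zpow] at h5
  have h6 : ‖t n‖ ^ (-1 : ℤ) ≤ ‖t n‖ ^ ipZ T a :=
    zpow_le_zpow_right_of_le_one₀ h0 h2.le (by omega)
  have h7 := (mul_le_mul_of_nonneg_left h6 hc.le).trans h5
  rw [zpow_neg_one, ← div_eq_mul_inv, div_le_one h0] at h7
  exact absurd h4 (not_lt.2 h7)

theorem PArc.line (h : PArc B U x n0 t cc a g) (hx : ∀ n, Pt p (x n) (y n)) :
    ∀ᶠ n in (U : Filter ℕ), ∃ s : ℚ, y n = y n0 + s • fun i => (a i : ℚ) := by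
  filter_upwards [h.eq] with n hn
  have hp : (0 : ℝ) < p := one_pos.trans one_lt_p
  have hL : 0 < Real.log p := Real.log_pos one_lt_p
  have h0 : 0 < ‖t n‖ := norm_pos_iff.2 hn.1
  have key : ∀ i, (y n i : ℝ) = y n0 i + a i * (-Real.log ‖t n‖ / Real.log p) := fun i => by
    have h1 := congrArg (fun z => Real.log ‖z‖) (hn.2.2 i)
    simp only [norm_mul, norm_zpow] at h1
    rw [B.norm_ev_unit (h.one i), mul_one, hx n i, h.pt hx i,
      Real.log_mul (Real.rpow_pos_of_pos hp _).ne' (zpow_pos h0 _).ne', Real.log_rpow hp,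
      Real.log_rpow hp, Real.log_zpow] at h1
    field_simp
    linarith
  generalize -Real.log ‖t n‖ / Real.log p = τ at key
  by_cases ha : ∃ j, a j ≠ 0
  · obtain ⟨j, hj⟩ := ha
    have hj' : (a j : ℝ) ≠ 0 := by exact_mod_cast hj
    refine ⟨(y n j - y n0 j) / a j, funext fun i => ?_⟩
    have h1 : τ = ((y n j : ℝ) - y n0 j) / a j := by
      rw [key j]
      field_simp
      ring
    have h2 := key i
    rw [h1, mul_comm] at h2
    simp only [Pi.add_apply, Pi.smul_apply, smul_eq_mul]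
    exact_mod_cast h2
  · refine ⟨0, funext fun i => ?_⟩
    have h2 := key i
    rw [not_not.1 fun k => ha ⟨i, k⟩, Int.cast_zero, zero_mul, add_zero] at h2
    rw [zero_smul, add_zero]
    exact_mod_cast h2

theorem PArc.norm_mon (h : PArc B U x n0 t cc a g) (hx : ∀ n, Pt p (x n) (y n)) (T : ι → ℤ) :
    ‖B.mon cc a g T‖ ≤ (p : ℝ) ^ (-((ip T (y n0) : ℚ) : ℝ)) := by
  rw [← (h.pt hx).norm_mon T, BS.mon]
  refine (norm_smul_le _ _).trans (mul_le_of_le_one_right (norm_nonneg _) ?_)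
  exact (norm_mul_le _ _).trans (mul_le_one₀ ((norm_pow_le _ _).trans
    (pow_le_one₀ (norm_nonneg _) B.norm_t)) (norm_nonneg _) (norm_umon_le h.one T))

theorem PArc.ev_mon (h : PArc B U x n0 t cc a g) : ∀ᶠ n in (U : Filter ℕ), ∀ T, 0 ≤ ipZ T a →
    B.ev (t n) (B.mon cc a g T) = mon (x n) T := by
  filter_upwards [parc_mon h] with n hn T hT
  rw [hn.2.2 T, BS.mon, map_smul, map_mul, map_pow, B.ev_t _ hn.2.1, smul_eq_mul, ← zpow_natCast,
    Int.toNat_of_nonneg hT, mul_assoc]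

theorem PArc.adm (h : PArc B U x n0 t cc a g) (hx : ∀ n, Pt p (x n) (y n)) (hy : ∀ n, y n ∈ C.Om) :
    Adm C (B.mon cc a g) := by
  refine ⟨?_, fun T hT T' hT' => ?_, C.tendsto_zero (hy n0) fun T _ => h.norm_mon hx T⟩
  · rw [BS.mon, mon_zero, ipZ_zero, umon_zero, one_smul, mul_one]
    exact pow_zero _
  · rw [BS.mon, BS.mon, BS.mon, mon_add (h.pt hx).ne_zero, ipZ_add, umon_add,
      Int.toNat_add (h.nonneg hx fun n => C.ip_nonneg (hy n) hT)
        (h.nonneg hx fun n => C.ip_nonneg (hy n) hT'), pow_add, smul_mul_smul_comm,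
      mul_mul_mul_comm]

/-- Derivative of a monomial on the arc for `t d/dt`. -/
theorem BS.der_mon (B : BS p A) (cc : ι → ℂ_[p]) (a : ι → ℤ) (g : ι → Aˣ) (lam : ι → A)
    (h : ∀ i, B.dt (lam i) * g i = B.dt (g i : A)) {T : ι → ℤ} (hT : 0 ≤ ipZ T a) :
    (B.t • B.dt) (B.mon cc a g T) =
      (∑ i, (T i : A) * ((a i : A) + (B.t • B.dt) (lam i))) * B.mon cc a g T := by
  have h1 := der_umon (B.t • B.dt) g (fun i => (B.t • B.dt) (lam i)) (fun i => by
    rw [Derivation.smul_apply, Derivation.smul_apply, ← h i, smul_mul_assoc]) T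
  have h2 : ∀ k : ℕ, (B.t • B.dt) (B.t ^ k) = k * B.t ^ k := fun k => by
    induction k with
    | zero => simp
    | succ k ih =>
      rw [pow_succ, Derivation.leibniz, ih, Derivation.smul_apply, B.dt_t]
      simp only [smul_eq_mul]
      push_cast
      ring
  have h3 : (((ipZ T a).toNat : ℕ) : A) = ∑ i, (T i : A) * (a i : A) := by
    rw [← Int.cast_natCast, Int.toNat_of_nonneg hT, ipZ]
    push_cast
    rfl
  rw [BS.mon, Derivation.map_smul, Derivation.leibniz, h1, h2, h3, mul_smul_comm]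
  congr 1
  simp only [smul_eq_mul, mul_add, Finset.sum_add_distrib]
  ring

/-- `exists_fix` for `ν = B.mon cc a g`, then `SR.fix_eval` at `t n`; the new units are `g i u i`. -/
theorem Data.lift {S : SR p C Q} {κ : Type} (D : Data S κ)
    (h : PArc B U (fun n => S.xc (D.q n)) n0 t cc a g) : ∃ g', PArc B U D.q n0 t cc a g' := by
  have hν := h.norm_mon D.pt_xc
  obtain ⟨u, hu⟩ := exists_fix (S.small_m0 (D.sg n0) hν) (S.small_m1 (D.sg n0) hν)
  refine ⟨fun i => g i * u i, fun i => norm_mul_sub_one (h.one i) (hu i).1,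
    fun i => (h.pt D.pt_xc i).trans (D.pt n0 i).symm, h.lim, ?_⟩
  filter_upwards [h.eq, h.ev_mon] with n hn hm
  refine ⟨hn.1, hn.2.1, fun i => ?_⟩
  rw [← S.fix_eval (D.sg n0) hν hu (B.ev (t n)) (B.ev_le _) (D.pt n) (D.sg n)
    (fun T hT => hm T (h.nonneg D.pt_xc fun k => (hT _ (D.sg k)).le)) i, hn.2.2 i, Units.val_mul,
    map_mul, mul_assoc]

end Pool.Agent.E7
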