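import Mathlib

/-! Continuous derivations on complete fields of transcendence type one. -/

open Polynomial
open scoped IntermediateField

noncomputable section

namespace Pool.Agent.E7

variable {k K : Type*} [NontriviallyNormedField k] [NontriviallyNormedField K] [NormedAlgebra k K]

/-- The closure of an intermediate field. -/
def clo (F : IntermediateField k K) : IntermediateField k K :=
  F.toSubfield.topologicalClosure.toIntermediateField fun c =>
    F.toSubfield.le_topologicalClosure (F.algebraMap_mem c)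

theorem coe_clo (F : IntermediateField k K) : (clo F : Set K) = closure (F : Set K) := rfl

theorem isClosed_clo (F : IntermediateField k K) : IsClosed (clo F : Set K) := isClosed_closure

theorem le_clo (F : IntermediateField k K) : F ≤ clo F := fun _ h => subset_closure h

theorem clo_le {F G : IntermediateField k K} (h : F ≤ G) (hG : IsClosed (G : Set K)) : clo F ≤ G :=
  fun _ hz => closure_minimal (s := (F : Set K)) h hG hz

instance [CompleteSpace K] (F : IntermediateField k K) : CompleteSpace (clo F) :=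
  (isClosed_clo F).completeSpace_coe

theorem pbd_dist [CompleteSpace k] (x : K) (hx : ∀ c, x ≠ algebraMap k K c) :
    ∃ r : ℝ, 0 < r ∧ ∀ c, r ≤ ‖x - algebraMap k K c‖ := by
  have hc : IsClosed (Set.range (algebraMap k K)) :=
    (algebraMap_isometry k K).isClosedEmbedding.isClosed_range
  obtain ⟨r, hr, h⟩ := Metric.isOpen_iff.1 hc.isOpen_compl x (by
    rintro ⟨c, hc⟩
    exact hx c hc.symm)
  refine ⟨r, hr, fun c => le_of_not_gt fun hlt => h (a := algebraMap k K c) ?_ ⟨c, rfl⟩⟩
  rwa [Metric.mem_ball, dist_comm, dist_eq_norm]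

theorem pbd_poly [IsAlgClosed k] [IsUltrametricDist K] (x : K) {r : ℝ} (h0 : 0 < r)
    (hr : ∀ c, r ≤ ‖x - algebraMap k K c‖) (P : k[X]) :
    r * ‖aeval x (derivative P)‖ ≤ ‖aeval x P‖ := by
  have hP : P ∈ Submonoid.closure ({C a | a : k} ∪ {X + C a | a : k}) := IsAlgClosed.splits P
  induction hP using Submonoid.closure_induction with
  | mem f hf =>
    rcases hf with ⟨a, rfl⟩ | ⟨a, rfl⟩
    · simp
    · simpa using hr (-a)
  | one => simp
  | mul f g _ _ hf hg =>
    rw [derivative_mul, map_add, map_mul, map_mul, map_mul, norm_mul]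
    refine le_trans (mul_le_mul_of_nonneg_left (IsUltrametricDist.norm_add_le_max _ _) h0.le) ?_
    rw [mul_max_of_nonneg _ _ h0.le, norm_mul, norm_mul]
    refine max_le ?_ ?_
    · rw [← mul_assoc]
      exact mul_le_mul_of_nonneg_right hf (norm_nonneg _)
    · rw [mul_left_comm]
      exact mul_le_mul_of_nonneg_left hg (norm_nonneg _)

variable (k) in
/-- The graph of `d / dx` on rational functions of `x`. -/
def gr (x : K) : Submodule k (K × K) where
  carrier := {g | ∃ P Q : k[X], Q ≠ 0 ∧ g.1 * aeval x Q = aeval x P ∧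
    g.2 * aeval x Q + g.1 * aeval x (derivative Q) = aeval x (derivative P)}
  zero_mem' := ⟨0, 1, one_ne_zero, by simp, by simp⟩
  add_mem' := by
    rintro g h ⟨P, Q, hQ, e1, e2⟩ ⟨P', Q', hQ', f1, f2⟩
    refine ⟨P * Q' + P' * Q, Q * Q', mul_ne_zero hQ hQ', ?_, ?_⟩
    · simp only [Prod.fst_add, map_add, map_mul, ← e1, ← f1]
      ring
    · simp only [Prod.fst_add, Prod.snd_add, derivative_mul, map_add, map_mul, ← e1, ← f1, ← e2,
        ← f2]
      ring
  smul_mem' := by
    rintro c g ⟨P, Q, hQ, e1, e2⟩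
    refine ⟨c • P, Q, hQ, ?_, ?_⟩
    · simp only [Prod.smul_fst, map_smul, ← e1, smul_mul_assoc]
    · simp only [Prod.smul_fst, Prod.smul_snd, map_smul, ← e2, smul_mul_assoc, smul_add]

theorem gr_mul {x : K} {g h : K × K} (hg : g ∈ gr k x) (hh : h ∈ gr k x) :
    (g.1 * h.1, g.1 * h.2 + h.1 * g.2) ∈ gr k x := by
  obtain ⟨P, Q, hQ, e1, e2⟩ := hg
  obtain ⟨P', Q', hQ', f1, f2⟩ := hh
  refine ⟨P * P', Q * Q', mul_ne_zero hQ hQ', ?_, ?_⟩
  · simp only [map_mul, ← e1, ← f1]
    ring
  · simp only [derivative_mul, map_add, map_mul, ← e1, ← f1, ← e2, ← f2]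
    ring

theorem pbd_ne [IsAlgClosed k] {x : K} (hx : ∀ c, x ≠ algebraMap k K c) {Q : k[X]} (hQ : Q ≠ 0) :
    aeval x Q ≠ 0 := by
  intro h
  have hi : IsIntegral k x := (show IsAlgebraic k x from ⟨Q, hQ, h⟩).isIntegral
  obtain ⟨c, hc⟩ := minpoly.mem_range_of_degree_eq_one k x
    (IsAlgClosed.degree_eq_one_of_irreducible k (minpoly.irreducible hi))
  exact hx c hc.symm

theorem gr_mem [IsAlgClosed k] {x : K} (hx : ∀ c, x ≠ algebraMap k K c) {g : K × K}
    (hg : g ∈ gr k x) : g.1 ∈ k⟮x⟯ ∧ g.2 ∈ k⟮x⟯ := by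
  obtain ⟨P, Q, hQ, e1, e2⟩ := hg
  have h0 := pbd_ne hx hQ
  have hm : ∀ R : k[X], aeval x R ∈ k⟮x⟯ := fun R =>
    IntermediateField.algebra_adjoin_le_adjoin k {x} (aeval_mem_adjoin_singleton k x)
  have h1 : g.1 ∈ k⟮x⟯ := by
    rw [eq_div_of_mul_eq h0 e1]
    exact div_mem (hm _) (hm _)
  refine ⟨h1, ?_⟩
  rw [eq_div_of_mul_eq h0 (eq_sub_of_add_eq e2)]
  exact div_mem (sub_mem (hm _) (mul_mem h1 (hm _))) (hm _)

theorem gr_surj [IsAlgClosed k] {x : K} (hx : ∀ c, x ≠ algebraMap k K c) {z : K} (hz : z ∈ k⟮x⟯) :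
    ∃ w, (z, w) ∈ gr k x := by
  obtain ⟨P, Q, rfl⟩ := (IntermediateField.mem_adjoin_simple_iff k z).1 hz
  by_cases hQ : Q = 0
  · rw [hQ, map_zero, div_zero]
    exact ⟨0, (gr k x).zero_mem⟩
  have h0 := pbd_ne hx hQ
  refine ⟨(aeval x (derivative P) - aeval x P / aeval x Q * aeval x (derivative Q)) / aeval x Q,
    P, Q, hQ, div_mul_cancel₀ _ h0, ?_⟩
  simp only [div_mul_cancel₀ _ h0]
  ring

theorem gr_bound [IsAlgClosed k] [IsUltrametricDist K] {x : K} (hx : ∀ c, x ≠ algebraMap k K c)
    {r : ℝ} (h0 : 0 < r) (hr : ∀ c, r ≤ ‖x - algebraMap k K c‖) {g : K × K} (hg : g ∈ gr k x) :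
    ‖g.2‖ ≤ r⁻¹ * ‖g.1‖ := by
  obtain ⟨P, Q, hQ, e1, e2⟩ := hg
  have hq : 0 < ‖aeval x Q‖ := norm_pos_iff.2 (pbd_ne hx hQ)
  rw [← div_eq_inv_mul, le_div_iff₀ h0]
  refine le_of_mul_le_mul_right ?_ hq
  have h1 : ‖g.2 * aeval x Q‖ ≤ max ‖aeval x (derivative P)‖ ‖g.1 * aeval x (derivative Q)‖ := by
    rw [eq_sub_of_add_eq e2, sub_eq_add_neg, ← norm_neg (g.1 * _)]
    exact IsUltrametricDist.norm_add_le_max _ _
  have h2 := mul_le_mul_of_nonneg_left h1 h0.le
  rw [mul_max_of_nonneg _ _ h0.le, norm_mul, norm_mul] at h2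
  calc ‖g.2‖ * r * ‖aeval x Q‖ = r * (‖g.2‖ * ‖aeval x Q‖) := by ring
    _ ≤ _ := h2
    _ ≤ ‖g.1‖ * ‖aeval x Q‖ := by
      refine max_le ?_ ?_
      · rw [← norm_mul, e1]
        exact pbd_poly x h0 hr P
      · rw [mul_left_comm]
        exact mul_le_mul_of_nonneg_left (pbd_poly x h0 hr Q) (norm_nonneg _)

/-- The derivation `d / dx` on the closure of `k(x)`. -/
theorem exists_der0 [CompleteSpace k] [IsAlgClosed k] [CompleteSpace K] [IsUltrametricDist K]
    (x : K) (hx : ∀ c, x ≠ algebraMap k K c) :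
    ∃ D : Derivation k (clo k⟮x⟯) (clo k⟮x⟯), Continuous D ∧
      D ⟨x, le_clo _ (IntermediateField.mem_adjoin_simple_self k x)⟩ = 1 := by
  obtain ⟨r, h0, hr⟩ := pbd_dist x hx
  let e : gr k x →ₗ[k] clo k⟮x⟯ :=
    { toFun := fun g => ⟨g.1.1, le_clo _ (gr_mem hx g.2).1⟩
      map_add' := fun _ _ => rfl
      map_smul' := fun _ _ => rfl }
  let f : gr k x →ₗ[k] clo k⟮x⟯ :=
    { toFun := fun g => ⟨g.1.2, le_clo _ (gr_mem hx g.2).2⟩
      map_add' := fun _ _ => rfl
      map_smul' := fun _ _ => rfl }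
  have hd : DenseRange e := by
    rw [DenseRange, Subtype.dense_iff]
    refine closure_mono fun z hz => ?_
    obtain ⟨w, hw⟩ := gr_surj hx hz
    exact ⟨_, ⟨⟨_, hw⟩, rfl⟩, rfl⟩
  have hn : ∃ C, ∀ g, ‖f g‖ ≤ C * ‖e g‖ := ⟨r⁻¹, fun g => gr_bound hx h0 hr g.2⟩
  let D := f.extendOfNorm e
  have hD : ∀ g, D (e g) = f g := LinearMap.extendOfNorm_eq hd hn
  refine ⟨Derivation.mk' D.toLinearMap fun a b => ?_, D.continuous, ?_⟩
  · show D (a * b) = a • D b + b • D a
    refine hd.induction_on₂ (p := fun a b => D (a * b) = a • D b + b • D a) ?_ ?_ a b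
    · exact isClosed_eq (by fun_prop) (by fun_prop)
    · intro g h
      rw [hD, hD]
      exact hD ⟨_, gr_mul g.2 h.2⟩
  · exact hD ⟨(x, 1), X, 1, one_ne_zero, by simp, by simp⟩

/-- A continuous derivation on a finite extension of the closure of `k(x)`. -/
theorem exists_der [CompleteSpace k] [IsAlgClosed k] [CharZero k] [CompleteSpace K]
    [IsUltrametricDist K] (x : K) (hx : ∀ c, x ≠ algebraMap k K c)
    [FiniteDimensional (clo k⟮x⟯) K] : ∃ D : Derivation k K K, Continuous D ∧ D x = 1 := by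
  obtain ⟨D0, hc, h1⟩ := exists_der0 x hx
  have : CharZero (clo k⟮x⟯) := charZero_of_injective_algebraMap (algebraMap k _).injective
  let _ : Differential (clo k⟮x⟯) := ⟨D0.restrictScalars ℤ⟩
  let d : Differential K := Differential.differentialFiniteDimensional (clo k⟮x⟯) K
  have hA : DifferentialAlgebra (clo k⟮x⟯) K := Differential.differentialAlgebraFiniteDimensional
  have hD : ∀ a : clo k⟮x⟯, d.deriv (a : K) = (D0 a : K) := fun a => hA.deriv_algebraMap a
  have hL : ∀ a b : K, d.deriv (a * b) = a • d.deriv b + b • d.deriv a := d.deriv.leibniz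
  have hk : ∀ c : k, d.deriv (algebraMap k K c) = 0 := fun c => by
    have := hD (algebraMap k _ c)
    rw [Derivation.map_algebraMap] at this
    exact this
  let L : K →ₗ[k] K :=
    { toFun := d.deriv
      map_add' := map_add _
      map_smul' := fun c z => by
        rw [Algebra.smul_def, hL, hk, smul_zero, add_zero, RingHom.id_apply, smul_eq_mul,
          Algebra.smul_def] }
  refine ⟨Derivation.mk' L hL, ?_, hD ⟨x, _⟩ |>.trans (by rw [h1]; rfl)⟩
  let b := Module.finBasis (clo k⟮x⟯) K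
  have he : (d.deriv : K → K) = fun z => ∑ i, (((b.coord i z : clo k⟮x⟯) : K) * d.deriv (b i) +
      b i * ((D0 (b.coord i z) : clo k⟮x⟯) : K)) := by
    funext z
    conv_lhs => rw [← b.sum_repr z, map_sum]
    refine Finset.sum_congr rfl fun i _ => ?_
    rw [← hD]
    exact hL _ _
  show Continuous (d.deriv : K → K)
  rw [he]
  refine continuous_finsetSum _ fun i _ => ?_
  have h2 : Continuous (b.coord i) := LinearMap.continuous_of_finiteDimensional _
  exact ((continuous_subtype_val.comp h2).mul continuous_const).add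
    (continuous_const.mul (continuous_subtype_val.comp (hc.comp h2)))

/-- Uniqueness of continuous twisted derivations. -/
theorem der_uniq [CharZero k] (φ : K →+* K) (E : K →+ K)
    (hm : ∀ a b, E (a * b) = φ a * E b + φ b * E a) (hc : Continuous E)
    (hk : ∀ c, E (algebraMap k K c) = 0) (x : K) (hx : E x = 0)
    [Algebra.IsAlgebraic (clo k⟮x⟯) K] (z : K) : E z = 0 := by
  let Z : IntermediateField k K :=
    { carrier := {z | E z = 0}
      mul_mem' := fun {a b} ha hb => by
        show E (a * b) = 0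
        rw [hm, show E a = 0 from ha, show E b = 0 from hb]
        simp
      add_mem' := fun {a b} ha hb => by
        show E (a + b) = 0
        rw [map_add, show E a = 0 from ha, show E b = 0 from hb, add_zero]
      algebraMap_mem' := hk
      inv_mem' := fun a ha => by
        show E a⁻¹ = 0
        by_cases h0 : a = 0
        · simp [h0]
        have h1 := hm a a⁻¹
        rw [mul_inv_cancel₀ h0, ← map_one (algebraMap k K), hk, show E a = 0 from ha, mul_zero,
          add_zero] at h1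
        exact (mul_eq_zero.1 h1.symm).resolve_left ((map_ne_zero φ).2 h0) }
  have hZ : clo k⟮x⟯ ≤ Z := clo_le (IntermediateField.adjoin_simple_le_iff.2 hx)
    (isClosed_eq hc continuous_const)
  have key : ∀ P : (clo k⟮x⟯)[X], E (aeval z P) = φ (aeval z (derivative P)) * E z := by
    intro P
    induction P using Polynomial.induction_on with
    | C a => simpa using (show E a = 0 from hZ a.2)
    | add P Q hP hQ => simp only [map_add, hP, hQ, add_mul]
    | monomial n a h =>
      rw [pow_succ, ← mul_assoc, derivative_mul, map_mul, aeval_X, hm, h]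
      simp only [derivative_X, mul_one, map_add, map_mul, aeval_X]
      ring
  have : CharZero (clo k⟮x⟯) := charZero_of_injective_algebraMap (algebraMap k _).injective
  have hs := (Algebra.IsSeparable.isSeparable (clo k⟮x⟯) z).aeval_derivative_ne_zero
    (minpoly.aeval _ z)
  have h1 := key (minpoly _ z)
  rw [minpoly.aeval, map_zero] at h1
  exact (mul_eq_zero.1 h1.symm).resolve_left ((map_ne_zero φ).2 hs)

end Pool.Agent.E7
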