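import Pool.Agent.Lib.MP_7e5527_ag.E7.PBS
import Pool.Agent.Lib.MP_7e5527_ag.E7.PFix

/-! Frobenius rigidity forces the first Wronskian to vanish. -/

open Filter Topology Polynomial
open scoped IntermediateField Polynomial.Bivariate

noncomputable section

namespace Pool.Agent.E7

variable {ι : Type} [Fintype ι] [DecidableEq ι] {p : ℕ} [Fact p.Prime] {C : Cone ι} {Q : Type}
  [CommRing Q]

theorem pbr_mon {k K : Type} [CommRing k] [Field K] [Algebra k K] (D : Derivation k K K)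
    (q g : ι → K) (hq : ∀ i, q i ≠ 0) (h : ∀ i, D (q i) = g i * q i) (T : ι → ℤ) :
    D (mon q T) = (∑ i, (T i : K) * g i) * mon q T := by
  unfold mon
  induction (Finset.univ : Finset ι) using Finset.induction_on with
  | empty => simp
  | insert a s ha ih =>
    rw [Finset.prod_insert ha, Finset.sum_insert ha, D.leibniz, ih, D.leibniz_zpow, h,
      zpow_sub_one₀ (hq a)]
    simp only [smul_eq_mul, zsmul_eq_mul]
    field_simp [hq a]
    ring

omit [Fintype ι] [DecidableEq ι] in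
theorem pbr_ne {K : Type} [NormedField K] {q : ι → K} {y : ι → ℚ} (hq : Pt p q y) (i : ι) :
    q i ≠ 0 := by
  rw [← norm_pos_iff, hq i]
  exact Real.rpow_pos_of_pos (Nat.cast_pos.2 (Fact.out : p.Prime).pos) _

theorem rigid_gen [Nontrivial ι] {K : Type} [NontriviallyNormedField K] [NormedAlgebra ℂ_[p] K]
    [CompleteSpace K] [IsUltrametricDist K] (S : SR p C Q) {κ : Type} {Φ : κ → Q} {ψ : ℕ → Q}
    (orc : Oracle' S Φ ψ) (q : ι → K) {y : ι → ℚ} (hq : Pt p q y) (hy : y ∈ C.Sg)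
    (hd : TopGen ℂ_[p] q) (van : ∀ j, S.ev (mon q) (Φ j) = 0) (i1 : ι)
    (tr : ∀ c, S.xc q i1 ≠ algebraMap ℂ_[p] K c)
    (rel : ∀ j, ∃ P : ℂ_[p][X][Y], P ≠ 0 ∧ P.aevalAeval (S.xc q i1) (S.xc q j) = 0)
    (φ : K →+* K) (hφ : ∀ z, ‖φ z‖ = ‖z‖)
    (hφc : ∀ c, ∃ c', φ (algebraMap ℂ_[p] K c) = algebraMap ℂ_[p] K c')
    (N : ℕ) (hN : 0 < N) (hN1 : ‖(N : ℂ_[p])‖ < 1) (v : ι → ℂ_[p])
    (hv : ∀ i, φ (q i) * algebraMap ℂ_[p] K (v i) = q i ^ N) : S.ev (mon q) (ψ 1) = 0 := by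
  have hfin : FiniteDimensional (clo ℂ_[p]⟮S.xc q i1⟯) K :=
    pbs_fin _ (S.xc q) q hd (fun j => by
      obtain ⟨P, hP, h⟩ := rel j
      exact pbs_integral tr hP h) fun Z hZ h => S.mem_of_xc_mem Z hZ hq hy h
  obtain ⟨D, g, i0, hc, hg0, hg, hD⟩ :=
    exists_slopes _ tr q (pbr_ne hq) hd φ hφ hφc N hN hN1 v hv
  obtain ⟨i2, hi2⟩ := exists_ne i0
  have hA : Adm C (mon q) := hq.adm (C.sub hy)
  rw [← S.evHom_apply hA]
  refine orc K D (S.evHom hA) g 0 (fun c => ?_) hg (fun F => ?_) (fun j => ?_) ?_ ⟨i0, ?_⟩ 1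
    (MvPolynomial.X i2 - MvPolynomial.C (g i2) * MvPolynomial.X i0) ?_ ?_ ?_ ?_
  · rw [S.evHom_apply, S.ev_cst hA]
  · simp only [S.evHom_apply, Pi.zero_apply, map_zero, add_zero]
    exact S.ev_der hA D hc g (fun T _ => pbr_mon D q g (pbr_ne hq) hD T) F
  · rw [S.evHom_apply, van]
  · rw [S.evHom_apply, ← norm_pos_iff, S.norm_ev_th0 hq (C.sub hy)]
    exact one_pos
  · simp [hg0]
  · intro h
    have := congrArg (MvPolynomial.eval (Pi.single i2 (1 : K))) h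
    simp [hi2.symm] at this
  · refine le_trans (MvPolynomial.totalDegree_sub _ _) (max_le ?_ ?_)
    · rw [MvPolynomial.totalDegree_X]
    · refine le_trans (MvPolynomial.totalDegree_mul _ _) ?_
      rw [MvPolynomial.totalDegree_C, MvPolynomial.totalDegree_X]
  · intro m
    rw [MvPolynomial.coeff_sub, MvPolynomial.coeff_C_mul, map_sub, D.leibniz, hg]
    simp only [MvPolynomial.coeff_X]
    split_ifs <;> simp
  · simp [hg0]

theorem rigid [Nontrivial ι] {K : Type} [NontriviallyNormedField K] [NormedAlgebra ℂ_[p] K]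
    [CompleteSpace K] [IsUltrametricDist K] (S : SR p C Q) {κ : Type} {Φ : κ → Q} {ψ : ℕ → Q}
    (orc : Oracle' S Φ ψ) {q : ι → K} {y : ι → ℚ} (hq : Pt p q y) (hy : y ∈ C.Sg)
    (van : ∀ j, S.ev (mon q) (Φ j) = 0) (i1 : ι) (tr : ∀ c, S.xc q i1 ≠ algebraMap ℂ_[p] K c)
    (rel : ∀ j, ∃ P : ℂ_[p][X][Y], P ≠ 0 ∧ P.aevalAeval (S.xc q i1) (S.xc q j) = 0)
    (φ : K →+* K) (hφ : ∀ z, ‖φ z‖ = ‖z‖)
    (hK : ∀ c, ∃ c', φ (algebraMap ℂ_[p] K c) = algebraMap ℂ_[p] K c') {N : ℕ} (hN : 0 < N)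
    (hN1 : ‖(N : ℂ_[p])‖ < 1) (v : ι → ℂ_[p])
    (hv : ∀ i, φ (q i) * algebraMap ℂ_[p] K (v i) = q i ^ N) : S.ev (mon q) (ψ 1) = 0 := by
  let M := gen ℂ_[p] q
  let q' : ι → M := fun i => ⟨q i, mem_gen q i⟩
  have hq' : Pt p q' y := hq
  have hA : Adm C (mon q') := hq'.adm (C.sub hy)
  have hev : ∀ F, M.val (S.ev (mon q') F) = S.ev (mon q) F := by
    intro F
    rw [S.ev_map_alg hA M.val continuous_subtype_val]
    congr 1
    funext T
    simp only [mon, map_prod, map_zpow₀]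
    rfl
  have hxc : ∀ i, M.val (S.xc q' i) = S.xc q i := fun i => by
    simp only [SR.xc, map_div₀, hev]
  have hinj : Function.Injective M.val := Subtype.val_injective
  obtain ⟨φ', hφ'⟩ := exists_restrict q φ hφ hK fun i => by
    have h0 : algebraMap ℂ_[p] K (v i) ≠ 0 := fun h => by
      have := hv i
      rw [h, mul_zero] at this
      exact pow_ne_zero N (pbr_ne hq i) this.symm
    rw [eq_div_of_mul_eq h0 (hv i)]
    exact div_mem (pow_mem (mem_gen q i) N) ((gen ℂ_[p] q).algebraMap_mem _)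
  rw [← hev, rigid_gen S orc q' hq' hy (topGen_gen q) (fun j => hinj (by rw [hev, van, map_zero]))
    i1 (fun c h => tr c (by rw [← hxc, h, AlgHom.commutes])) (fun j => ?_) φ'
    (fun z => (congrArg norm (hφ' z)).trans (hφ z)) (fun c => ?_) N hN hN1 v
    (fun i => Subtype.ext ?_), map_zero]
  · obtain ⟨P, hP, h⟩ := rel j
    refine ⟨P, hP, hinj ?_⟩
    have : M.val.comp (aevalAeval (S.xc q' i1) (S.xc q' j)) =
        aevalAeval (S.xc q i1) (S.xc q j) := by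
      ext <;> simp [← hxc]
    rw [map_zero, ← h]
    exact DFunLike.congr_fun this P
  · obtain ⟨c', hc'⟩ := hK c
    exact ⟨c', Subtype.ext ((hφ' _).trans hc')⟩
  · have := hv i
    rw [← show ((φ' (q' i) : M) : K) = φ (q i) from hφ' (q' i)] at this
    simpa using this

end Pool.Agent.E7
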