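import Pool.Agent.Lib.MP_7e5527_ag.E7.PBD

/-! Frobenius rigidity: the logarithmic slopes are constants. -/

open Polynomial
open scoped IntermediateField Polynomial.Bivariate

noncomputable section

namespace Pool.Agent.E7

variable {k K : Type*} [NontriviallyNormedField k] [NontriviallyNormedField K] [NormedAlgebra k K]

variable (k) in
/-- The family `q` generates `K` as a closed field over `k`. -/
def TopGen {ι : Type*} (q : ι → K) : Prop :=
  ∀ Z : IntermediateField k K, IsClosed (Z : Set K) → (∀ i, q i ∈ Z) → Z = ⊤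

/-- The kernel of a derivation. -/
def derKer (D : Derivation k K K) : IntermediateField k K where
  carrier := {z | D z = 0}
  mul_mem' := fun {a b} ha hb => by
    show D (a * b) = 0
    rw [D.leibniz, show D a = 0 from ha, show D b = 0 from hb]
    simp
  add_mem' := fun {a b} ha hb => by
    show D (a + b) = 0
    rw [map_add, show D a = 0 from ha, show D b = 0 from hb, add_zero]
  algebraMap_mem' := D.map_algebraMap
  inv_mem' := fun a ha => by
    show D a⁻¹ = 0
    rw [D.leibniz_inv, show D a = 0 from ha, smul_zero]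

theorem exists_slopes [CompleteSpace k] [IsAlgClosed k] [CharZero k] [CompleteSpace K]
    [IsUltrametricDist K] {ι : Type*} (x : K) (hx : ∀ c, x ≠ algebraMap k K c)
    [FiniteDimensional (clo k⟮x⟯) K] (q : ι → K) (hq : ∀ i, q i ≠ 0) (hd : TopGen k q)
    (φ : K →+* K) (hφ : ∀ z, ‖φ z‖ = ‖z‖) (hφc : ∀ c, ∃ c', φ (algebraMap k K c) = algebraMap k K c')
    (N : ℕ) (hN : 0 < N) (hN1 : ‖(N : k)‖ < 1) (v : ι → k)
    (hv : ∀ i, φ (q i) * algebraMap k K (v i) = q i ^ N) :
    ∃ (D : Derivation k K K) (g : ι → K) (i0 : ι), Continuous D ∧ g i0 = 1 ∧ (∀ i, D (g i) = 0) ∧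
      ∀ i, D (q i) = g i * q i := by
  obtain ⟨D, hc, h1⟩ := exists_der x hx
  have hφi : Continuous φ := (AddMonoidHomClass.isometry_of_norm φ hφ).continuous
  have : CharZero K := charZero_of_injective_algebraMap (algebraMap k K).injective
  set l := D (φ x) with hl
  have hcomm : ∀ z, D (φ z) = l * φ (D z) := by
    intro z
    have := der_uniq (k := k) φ
      ((D : K →+ K).comp (φ : K →+ K) - (AddMonoidHom.mulLeft l).comp ((φ : K →+ K).comp (D : K →+ K)))
      (fun a b => by
        show D (φ (a * b)) - l * φ (D (a * b)) =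
          φ a * (D (φ b) - l * φ (D b)) + φ b * (D (φ a) - l * φ (D a))
        rw [map_mul, D.leibniz, D.leibniz]
        simp only [smul_eq_mul, map_add, map_mul]
        ring)
      ((hc.comp hφi).sub (continuous_const.mul (hφi.comp hc)))
      (fun c => by
        show D (φ (algebraMap k K c)) - l * φ (D (algebraMap k K c)) = 0
        obtain ⟨c', hc'⟩ := hφc c
        rw [hc', D.map_algebraMap, D.map_algebraMap, map_zero, mul_zero, sub_zero])
      x (by
        show D (φ x) - l * φ (D x) = 0
        rw [h1, map_one, mul_one, sub_self]) z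
    exact sub_eq_zero.1 this
  let w : ι → K := fun i => D (q i) / q i
  have hw : ∀ i, D (q i) = w i * q i := fun i => (div_mul_cancel₀ _ (hq i)).symm
  have hφw : ∀ i, l * φ (w i) = N * w i := by
    intro i
    have h2 := congrArg D (hv i)
    rw [D.leibniz, D.map_algebraMap, smul_zero, zero_add, hcomm, D.leibniz_pow, hw, map_mul,
      smul_eq_mul, smul_eq_mul, nsmul_eq_mul] at h2
    refine mul_right_cancel₀ (pow_ne_zero N (hq i)) ?_
    obtain ⟨m, rfl⟩ : ∃ m, N = m + 1 := Nat.exists_eq_succ_of_ne_zero hN.ne'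
    calc l * φ (w i) * q i ^ (m + 1) = algebraMap k K (v i) * (l * (φ (w i) * φ (q i))) := by
          rw [← hv i]; ring
      _ = _ := by rw [h2, Nat.add_sub_cancel]; ring
  have hex : ∃ i0, w i0 ≠ 0 := by
    by_contra h
    push Not at h
    have h2 := hd (derKer D) (isClosed_eq hc continuous_const) fun i => by
      show D (q i) = 0
      rw [hw, h, zero_mul]
    have h3 : D x = 0 := (h2 ▸ IntermediateField.mem_top : x ∈ derKer D)
    rw [h1] at h3
    exact one_ne_zero h3
  obtain ⟨i0, hi0⟩ := hex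
  have hN0 : (N : K) ≠ 0 := Nat.cast_ne_zero.2 hN.ne'
  have hl0 : l ≠ 0 := fun h => by
    have := hφw i0
    rw [h, zero_mul] at this
    exact mul_ne_zero hN0 hi0 this.symm
  have hφ0 : φ (w i0) ≠ 0 := (map_ne_zero φ).2 hi0
  refine ⟨(w i0)⁻¹ • D, fun i => w i / w i0, i0, continuous_const.mul hc, div_self hi0,
    fun i => ?_, fun i => ?_⟩
  · have h2 : φ (w i / w i0) = w i / w i0 := by
      rw [map_div₀, ← mul_div_mul_left _ _ hl0, hφw, hφw, mul_div_mul_left _ _ hN0]
    show (w i0)⁻¹ * D (w i / w i0) = 0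
    set t := (w i0)⁻¹ * D (w i / w i0) with ht
    have h3 : t = N * φ t := by
      have h4 := hcomm (w i / w i0)
      rw [h2] at h4
      have h5 : (N : K) = l * φ (w i0) * (w i0)⁻¹ := by
        rw [hφw, mul_inv_cancel_right₀ hi0]
      rw [h5, ht, map_mul, map_inv₀]
      conv_lhs => rw [h4]
      field_simp
    have h4 : ‖t‖ = ‖(N : k)‖ * ‖t‖ := by
      conv_lhs => rw [h3, norm_mul, hφ, ← map_natCast (algebraMap k K), norm_algebraMap']
    by_contra h0
    have h5 : 0 < ‖t‖ := norm_pos_iff.2 h0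
    nlinarith
  · show (w i0)⁻¹ * D (q i) = w i / w i0 * q i
    rw [hw]
    ring

theorem pbs_integral [IsAlgClosed k] {x z : K} (hx : ∀ c, x ≠ algebraMap k K c) {P : k[X][Y]}
    (hP : P ≠ 0) (h : P.aevalAeval x z = 0) : IsIntegral (clo k⟮x⟯) z := by
  let x' : clo k⟮x⟯ := ⟨x, le_clo _ (IntermediateField.mem_adjoin_simple_self k x)⟩
  have hcoe : ∀ R : k[X], algebraMap (clo k⟮x⟯) K (aeval x' R) = aeval x R := fun R =>
    (aeval_algHom_apply (clo k⟮x⟯).val x' R).symm
  have hinj : Function.Injective (aeval x' : k[X] →ₐ[k] clo k⟮x⟯).toRingHom := by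
    rw [injective_iff_map_eq_zero]
    intro R hR
    by_contra h0
    refine pbd_ne hx h0 ?_
    rw [← hcoe, show aeval x' R = 0 from hR, map_zero]
  refine (show IsAlgebraic _ z from ⟨P.map (aeval x' : k[X] →ₐ[k] clo k⟮x⟯).toRingHom,
    (Polynomial.map_ne_zero_iff hinj).2 hP, ?_⟩).isIntegral
  rw [← h]
  clear h hP
  induction P using Polynomial.induction_on' with
  | add P Q hP hQ => simp only [Polynomial.map_add, map_add, hP, hQ]
  | monomial n a =>
    rw [Polynomial.map_monomial, aeval_monomial, ← C_mul_X_pow_eq_monomial, map_mul, map_pow,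
      aevalAeval_C, aevalAeval_Y]
    exact congrArg (· * z ^ n) (hcoe a)

/-- Finiteness over the closure of `k(x)`. -/
theorem pbs_fin [CompleteSpace K] {ι τ : Type*} [Finite τ] (x : K) (z : τ → K) (q : ι → K)
    (hd : TopGen k q) (hz : ∀ j, IsIntegral (clo k⟮x⟯) (z j))
    (hm : ∀ Z : IntermediateField k K, IsClosed (Z : Set K) → (∀ j, z j ∈ Z) → ∀ i, q i ∈ Z) :
    FiniteDimensional (clo k⟮x⟯) K := by
  let M := IntermediateField.adjoin (clo k⟮x⟯) (Set.range z)
  have hM : FiniteDimensional (clo k⟮x⟯) M := by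
    have := (Set.finite_range z).to_subtype
    exact IntermediateField.finiteDimensional_adjoin (by rintro _ ⟨j, rfl⟩; exact hz j)
  have hcl : IsClosed (M : Set K) :=
    haveI : FiniteDimensional (clo k⟮x⟯) M.toSubalgebra.toSubmodule := hM
    Submodule.closed_of_finiteDimensional M.toSubalgebra.toSubmodule
  have htop : M.restrictScalars k = ⊤ := hd _ hcl (hm _ hcl fun j =>
    IntermediateField.subset_adjoin (clo k⟮x⟯) (Set.range z) ⟨j, rfl⟩)
  refine Module.Finite.of_surjective M.val.toLinearMap fun a => ⟨⟨a, ?_⟩, rfl⟩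
  exact (htop ▸ IntermediateField.mem_top : a ∈ M.restrictScalars k)

/-- The closed field generated by a family. -/
def gen (k : Type*) [NontriviallyNormedField k] [NormedAlgebra k K] {ι : Type*} (q : ι → K) :
    IntermediateField k K := clo (IntermediateField.adjoin k (Set.range q))

instance [CompleteSpace K] {ι : Type*} (q : ι → K) : CompleteSpace (gen k q) :=
  (isClosed_clo _).completeSpace_coe

theorem mem_gen {ι : Type*} (q : ι → K) (i : ι) : q i ∈ gen k q :=
  le_clo _ (IntermediateField.subset_adjoin _ _ ⟨i, rfl⟩)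

theorem gen_le {ι : Type*} {q : ι → K} {Z : IntermediateField k K} (hZ : IsClosed (Z : Set K))
    (h : ∀ i, q i ∈ Z) : gen k q ≤ Z :=
  clo_le (IntermediateField.adjoin_le_iff.2 (by rintro _ ⟨i, rfl⟩; exact h i)) hZ

theorem topGen_gen {ι : Type*} (q : ι → K) :
    TopGen k (fun i => (⟨q i, mem_gen q i⟩ : gen k q)) := by
  intro Z hZ h
  have h1 : IsClosed ((Z.map (gen k q).val : IntermediateField k K) : Set K) :=
    (isClosed_clo _).isClosedEmbedding_subtypeVal.isClosedMap _ hZ
  have h2 : gen k q ≤ Z.map (gen k q).val := gen_le h1 fun i => ⟨_, h i, rfl⟩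
  refine eq_top_iff.2 fun a _ => ?_
  obtain ⟨b, hb, hab⟩ := h2 a.2
  rwa [← show b = a from Subtype.ext hab]

/-- An isometric endomorphism that preserves the generators restricts to the generated field. -/
theorem exists_restrict {ι : Type*} (q : ι → K) (φ : K →+* K) (hφ : ∀ z, ‖φ z‖ = ‖z‖)
    (hφc : ∀ c, ∃ c', φ (algebraMap k K c) = algebraMap k K c') (h : ∀ i, φ (q i) ∈ gen k q) :
    ∃ φ' : gen k q →+* gen k q, ∀ z, (φ' z : K) = φ z := by
  have hφi : Continuous φ := (AddMonoidHomClass.isometry_of_norm φ hφ).continuous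
  let Z : IntermediateField k K := ((gen k q).toSubfield.comap φ).toIntermediateField fun c => by
    obtain ⟨c', hc'⟩ := hφc c
    show φ _ ∈ gen k q
    rw [hc']
    exact (gen k q).algebraMap_mem c'
  have hZ : gen k q ≤ Z := gen_le ((isClosed_clo _).preimage hφi) h
  exact ⟨(φ.comp (gen k q).val.toRingHom).codRestrict (gen k q) fun z => hZ z.2, fun _ => rfl⟩

end Pool.Agent.E7
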