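import Pool.Agent.Lib.MP_7e5527_ag.E7.PDefs

/-! Existence of the ultralimit field. -/

open Filter Topology

noncomputable section

namespace Pool.Agent.E7

variable {p : ℕ} [Fact p.Prime]

/-- Bounded sequences as a subalgebra. -/
def bdS (p : ℕ) [Fact p.Prime] : Subalgebra ℂ_[p] (ℕ → ℂ_[p]) where
  carrier := {x | Bdd x}
  mul_mem' := by
    rintro x y ⟨A, hA⟩ ⟨B, hB⟩
    refine ⟨A * B, fun n => ?_⟩
    rw [Pi.mul_apply, norm_mul]
    exact mul_le_mul (hA n) (hB n) (norm_nonneg _) (le_trans (norm_nonneg _) (hA n))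
  add_mem' := by
    rintro x y ⟨A, hA⟩ ⟨B, hB⟩
    exact ⟨A + B, fun n => le_trans (norm_add_le _ _) (add_le_add (hA n) (hB n))⟩
  algebraMap_mem' c := ⟨‖c‖, fun _ => le_rfl⟩

/-- Bounded sequences, to be seminormed along an ultrafilter. -/
def Bd (p : ℕ) [Fact p.Prime] (_U : Ultrafilter ℕ) : Type := bdS p

variable {U : Ultrafilter ℕ}

instance : CommRing (Bd p U) := inferInstanceAs (CommRing (bdS p))

instance : Algebra ℂ_[p] (Bd p U) := inferInstanceAs (Algebra ℂ_[p] (bdS p))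

/-- The underlying sequence. -/
def Bd.sq : Bd p U →ₐ[ℂ_[p]] (ℕ → ℂ_[p]) := (bdS p).val

theorem Bd.bdd (x : Bd p U) : Bdd (Bd.sq x) := x.2

/-- A bounded sequence as an element. -/
def Bd.mk (U : Ultrafilter ℕ) (x : ℕ → ℂ_[p]) (h : Bdd x) : Bd p U := ⟨x, h⟩

theorem Bd.ext' {x y : Bd p U} (h : Bd.sq x = Bd.sq y) : x = y := Subtype.ext h

/-- The limit of the norms. -/
def Bd.nn (x : Bd p U) : ℝ := limUnder (U : Filter ℕ) fun n => ‖Bd.sq x n‖

theorem Bd.tendsto (x : Bd p U) : Tendsto (fun n => ‖Bd.sq x n‖) U (𝓝 x.nn) := by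
  obtain ⟨B, hB⟩ := x.bdd
  obtain ⟨a, -, ha⟩ := (isCompact_Icc (a := (0 : ℝ)) (b := B)).ultrafilter_le_nhds
    (U.map fun n => ‖Bd.sq x n‖) (by
      rw [Ultrafilter.coe_map, le_principal_iff, mem_map]
      exact univ_mem' fun n => ⟨norm_nonneg _, hB n⟩)
  exact tendsto_nhds_limUnder ⟨a, ha⟩

theorem Bd.nn_eq (x : Bd p U) {a : ℝ} (h : Tendsto (fun n => ‖Bd.sq x n‖) U (𝓝 a)) : x.nn = a :=
  tendsto_nhds_unique x.tendsto h

theorem Bd.nn_mul (x y : Bd p U) : (x * y).nn = x.nn * y.nn :=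
  Bd.nn_eq _ (by simpa only [map_mul, Pi.mul_apply, norm_mul] using x.tendsto.mul y.tendsto)

/-- The seminorm. -/
def Bd.sn (p : ℕ) [Fact p.Prime] (U : Ultrafilter ℕ) : RingSeminorm (Bd p U) where
  toFun := Bd.nn
  map_zero' := Bd.nn_eq _ (by simp)
  add_le' x y := le_of_tendsto_of_tendsto' (x + y).tendsto (x.tendsto.add y.tendsto) fun n => by
    rw [map_add]
    exact norm_add_le _ _
  neg' x := Bd.nn_eq _ (by simpa only [map_neg, Pi.neg_apply, norm_neg] using x.tendsto)
  mul_le' x y := (Bd.nn_mul x y).le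

instance : SeminormedCommRing (Bd p U) where
  __ := (Bd.sn p U).toSeminormedRing
  mul_comm := mul_comm

theorem Bd.norm_eq (x : Bd p U) : ‖x‖ = x.nn := rfl

theorem Bd.norm_alg (c : ℂ_[p]) : ‖algebraMap ℂ_[p] (Bd p U) c‖ = ‖c‖ :=
  Bd.nn_eq _ (by simp)

instance : NormedAlgebra ℂ_[p] (Bd p U) where
  norm_smul_le c x := by
    rw [Algebra.smul_def, Bd.norm_eq, Bd.nn_mul, ← Bd.norm_eq, Bd.norm_alg, Bd.norm_eq]

open UniformSpace

theorem Bd.norm_mul_c (x y : Completion (Bd p U)) : ‖x * y‖ = ‖x‖ * ‖y‖ := by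
  induction x, y using Completion.induction_on₂ with
  | hp => exact isClosed_eq (by fun_prop) (by fun_prop)
  | ih a b =>
    rw [← Completion.coe_mul, Completion.norm_coe, Completion.norm_coe, Completion.norm_coe]
    exact Bd.nn_mul a b

theorem Bd.norm_one_c : ‖(1 : Completion (Bd p U))‖ = 1 := by
  rw [← Completion.coe_one, Completion.norm_coe, ← map_one (algebraMap ℂ_[p] (Bd p U)),
    Bd.norm_alg, norm_one]

theorem Bd.exists_inv (a : Bd p U) (ha : 0 < ‖a‖) :
    ∃ b : Bd p U, (a : Completion (Bd p U)) * b = 1 := by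
  classical
  have hb : Bdd fun n => if ‖a‖ / 2 < ‖Bd.sq a n‖ then (Bd.sq a n)⁻¹ else 0 := by
    refine ⟨(‖a‖ / 2)⁻¹, fun n => ?_⟩
    dsimp only
    split_ifs with h
    · rw [norm_inv]
      exact inv_anti₀ (by positivity) h.le
    · rw [norm_zero]
      positivity
  refine ⟨Bd.mk U _ hb, ?_⟩
  rw [← Completion.coe_mul, ← sub_eq_zero, ← Completion.coe_one, ← Completion.coe_sub,
    ← norm_eq_zero, Completion.norm_coe]
  refine Bd.nn_eq _ (tendsto_const_nhds.congr' ?_)
  filter_upwards [a.tendsto.eventually (lt_mem_nhds (show ‖a‖ / 2 < a.nn from half_lt_self ha))]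
    with n hn
  have h0 : Bd.sq a n ≠ 0 := norm_pos_iff.1 (lt_trans (half_pos ha) hn)
  rw [map_sub, map_mul, map_one, Pi.sub_apply, Pi.mul_apply]
  show 0 = ‖Bd.sq a n * (if ‖a‖ / 2 < ‖Bd.sq a n‖ then (Bd.sq a n)⁻¹ else 0) - 1‖
  rw [if_pos hn, mul_inv_cancel₀ h0, sub_self, norm_zero]

theorem Bd.isField : IsField (Completion (Bd p U)) where
  exists_pair_ne := ⟨1, 0, by
    rw [← norm_ne_zero_iff, Bd.norm_one_c]
    exact one_ne_zero⟩
  mul_comm := mul_comm
  mul_inv_cancel := by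
    intro z hz
    have h0 : 0 < ‖z‖ / 2 := half_pos (norm_pos_iff.2 hz)
    obtain ⟨a, ha⟩ := Completion.denseRange_coe.exists_dist_lt z h0
    rw [dist_comm, dist_eq_norm] at ha
    have h1 : ‖z‖ / 2 < ‖(a : Completion (Bd p U))‖ := by
      have := norm_sub_norm_le z (a : Completion (Bd p U))
      rw [norm_sub_rev] at this
      linarith
    obtain ⟨b, hb⟩ := Bd.exists_inv a (by rw [← Completion.norm_coe]; linarith)
    have h2 : ‖(a : Completion (Bd p U))‖ * ‖(b : Completion (Bd p U))‖ = 1 := by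
      rw [← Bd.norm_mul_c, hb, Bd.norm_one_c]
    have h3 : ‖((a : Completion (Bd p U)) - z) * b‖ < 1 := by
      rw [Bd.norm_mul_c, ← h2]
      refine mul_lt_mul_of_pos_right (by linarith) (lt_of_le_of_ne (norm_nonneg _) fun h => ?_)
      rw [← h, mul_zero] at h2
      exact zero_ne_one h2
    refine ⟨b * ((Units.oneSub _ h3)⁻¹ : (Completion (Bd p U))ˣ), ?_⟩
    have h4 : z * b = (Units.oneSub _ h3 : (Completion (Bd p U))ˣ) := by
      rw [Units.val_oneSub, ← hb]
      ring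
    rw [← mul_assoc, h4, Units.mul_inv]

/-- The ultralimit field. -/
def UK (p : ℕ) [Fact p.Prime] (U : Ultrafilter ℕ) : Type := Completion (Bd p U)

instance : NormedCommRing (UK p U) := inferInstanceAs (NormedCommRing (Completion (Bd p U)))

instance : NormedAlgebra ℂ_[p] (UK p U) :=
  inferInstanceAs (NormedAlgebra ℂ_[p] (Completion (Bd p U)))

instance : CompleteSpace (UK p U) := inferInstanceAs (CompleteSpace (Completion (Bd p U)))

/-- The field structure. -/
@[reducible] def UK.nf (p : ℕ) [Fact p.Prime] (U : Ultrafilter ℕ) : NormedField (UK p U) where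
  __ : NormedCommRing (UK p U) := inferInstance
  __ := IsField.toField (R := UK p U) Bd.isField
  norm_mul := Bd.norm_mul_c

open Classical in
/-- The class of a bounded sequence. -/
def UK.lim (U : Ultrafilter ℕ) (x : ℕ → ℂ_[p]) : Completion (Bd p U) :=
  if h : Bdd x then (Bd.mk U x h : Completion (Bd p U)) else 0

theorem UK.lim_eq (x : ℕ → ℂ_[p]) (h : Bdd x) :
    UK.lim U x = (Bd.mk U x h : Completion (Bd p U)) := dif_pos h

/-- A sequence of isometric maps acts on bounded sequences. -/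
def Bd.act (U : Ultrafilter ℕ) (φ : ℕ → ℂ_[p] →+* ℂ_[p]) (h : ∀ n, UAP.Iso (φ n)) :
    Bd p U →+* Bd p U where
  toFun x := Bd.mk U (fun n => φ n (Bd.sq x n)) (x.bdd.imp fun _ hB n => (h n _).trans_le (hB n))
  map_one' := Bd.ext' (funext fun n => map_one (φ n))
  map_mul' _ _ := Bd.ext' (funext fun n => map_mul (φ n) _ _)
  map_zero' := Bd.ext' (funext fun n => map_zero (φ n))
  map_add' _ _ := Bd.ext' (funext fun n => map_add (φ n) _ _)

theorem Bd.norm_act (φ : ℕ → ℂ_[p] →+* ℂ_[p]) (h : ∀ n, UAP.Iso (φ n)) (x : Bd p U) :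
    ‖Bd.act U φ h x‖ = ‖x‖ :=
  Bd.nn_eq _ (x.tendsto.congr fun n => (h n _).symm)

theorem exists_ulim (U : Ultrafilter ℕ) :
    ∃ (K : Type) (_ : NontriviallyNormedField K) (_ : NormedAlgebra ℂ_[p] K)
      (_ : CompleteSpace K) (_ : IsUltrametricDist K), Nonempty (ULim p U K) := by
  let nf : NormedField (UK p U) := UK.nf p U
  let na : NormedAlgebra ℂ_[p] (UK p U) :=
    inferInstanceAs (NormedAlgebra ℂ_[p] (Completion (Bd p U)))
  let nn : NontriviallyNormedField (UK p U) :=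
    { nf with
      non_trivial := by
        obtain ⟨c, hc⟩ := NontriviallyNormedField.non_trivial (α := ℂ_[p])
        exact ⟨algebraMap ℂ_[p] (UK p U) c, by rwa [norm_algebraMap']⟩ }
  refine ⟨UK p U, nn, na, inferInstanceAs (CompleteSpace (Completion (Bd p U))),
    IsUltrametricDist.of_normedAlgebra ℂ_[p], ⟨⟨UK.lim U, ?_, ?_, ?_, ?_, ?_⟩⟩⟩
  · intro x hx
    rw [UK.lim_eq x hx]
    have h : ‖(Bd.mk U x hx : Completion (Bd p U))‖ = (Bd.mk U x hx).nn := Completion.norm_coe _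
    exact h ▸ (Bd.mk U x hx).tendsto
  · intro x y hx hy
    rw [UK.lim_eq x hx, UK.lim_eq y hy,
      UK.lim_eq (fun n => x n + y n) ((bdS p).add_mem hx hy)]
    exact Completion.coe_add (Bd.mk U x hx) (Bd.mk U y hy)
  · intro x y hx hy
    rw [UK.lim_eq x hx, UK.lim_eq y hy,
      UK.lim_eq (fun n => x n * y n) ((bdS p).mul_mem hx hy)]
    exact Completion.coe_mul (Bd.mk U x hx) (Bd.mk U y hy)
  · intro c
    rw [UK.lim_eq _ ⟨‖c‖, fun _ => le_rfl⟩]
    rfl
  · intro φ hφ
    have hi : Isometry (Bd.act U φ hφ) :=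
      AddMonoidHomClass.isometry_of_norm _ (Bd.norm_act φ hφ)
    refine ⟨Completion.mapRingHom (Bd.act U φ hφ) hi.continuous, fun z => ?_, fun x hx => ?_⟩
    · show ‖Completion.mapRingHom (Bd.act U φ hφ) hi.continuous z‖ = ‖(z : Completion (Bd p U))‖
      induction z using Completion.induction_on with
      | hp => exact isClosed_eq (Completion.continuous_map.norm) continuous_norm
      | ih a =>
        rw [Completion.mapRingHom_coe, Completion.norm_coe, Bd.norm_act]
        exact (Completion.norm_coe a).symm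
    · rw [UK.lim_eq x hx, UK.lim_eq _ (hx.imp fun _ hB n => (hφ n _).trans_le (hB n))]
      exact Completion.mapRingHom_coe hi.continuous _

end Pool.Agent.E7
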