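import Pool.Agent.Lib.MP_7e5527_ag.E7.PDefs
import Pool.Agent.Lib.MP_7e5527_ag.Ev
import Pool.Agent.Lib.MP_7e5527_ag.Puis
import Pool.Agent.Lib.MP_7e5527_ag.Grow

/-! One Puiseux branch. -/

open Filter Topology Polynomial
open scoped Polynomial.Bivariate

noncomputable section

namespace Pool.Agent.E7

variable {ι : Type} [Fintype ι] [DecidableEq ι] {p : ℕ} [Fact p.Prime] {C : Cone ι} {Q : Type}
  [CommRing Q]

theorem pbr1_root (z : PowerSeries ℂ_[p]) (d : ℕ) : ∀ P : (PowerSeries ℂ_[p])[X], P.natDegree = d →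
    P ≠ 0 → (∀ i, UAP.Grow (P.coeff i)) → P.eval z = 0 → UAP.Grow z := by
  induction d using Nat.strong_induction_on with
  | _ d ih =>
  intro P hd h0 h hz
  by_cases h1 : P.derivative.eval z = 0
  · have h2 : P.natDegree ≠ 0 := by
      intro e
      rw [eq_C_of_natDegree_eq_zero e, eval_C] at hz
      exact h0 (by rw [eq_C_of_natDegree_eq_zero e, hz, map_zero])
    have : CharZero (PowerSeries ℂ_[p]) :=
      charZero_of_injective_ringHom (f := PowerSeries.C (R := ℂ_[p])) PowerSeries.C_injective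
    refine ih _ (hd ▸ natDegree_derivative_lt h2) _ rfl
      (fun e => h2 (Polynomial.derivative_eq_zero.1 e)) (fun i => ?_) h1
    rw [coeff_derivative]
    refine (h _).mul ?_
    have := UAP.grow_intCast (k := ℂ_[p]) ((i : ℤ) + 1)
    push_cast at this
    exact this
  · exact UAP.grow_root P h hz h1

theorem pbr1_radius {f : PowerSeries ℂ_[p]} (h : UAP.Grow f) :
    ∃ r : ℝ, 0 < r ∧ ∀ s : ℂ_[p], ‖s‖ < r → ∃ v, UAP.HasEv f s v := by
  obtain ⟨B, Λ, hΛ, h⟩ := h
  refine ⟨1 / Λ, by positivity, fun s hs => UAP.exists_hasEv_of_bound h hΛ ?_⟩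
  rwa [lt_div_iff₀ hΛ, mul_comm] at hs

theorem pbr1_div {f : PowerSeries ℂ_[p]} (h : UAP.Grow f) : UAP.Grow f.divXPowOrder := by
  obtain ⟨B, Λ, hΛ, h⟩ := h
  refine ⟨B * Λ ^ f.order.toNat, Λ, hΛ, fun n => ?_⟩
  rw [PowerSeries.coeff_divXPowOrder]
  refine (h _).trans_eq ?_
  ring

theorem pbr1_inv {f : PowerSeries ℂ_[p]} (h : UAP.Grow f) (h0 : PowerSeries.constantCoeff f ≠ 0) :
    UAP.Grow f⁻¹ := by
  have hf : f ≠ 0 := fun e => h0 (by rw [e, map_zero])
  refine UAP.grow_root (Polynomial.C f * X + Polynomial.C (-1)) (fun i => ?_) ?_ ?_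
  · rw [coeff_add, coeff_C_mul_X, coeff_C]
    have g0 : UAP.Grow (0 : PowerSeries ℂ_[p]) := by simpa using UAP.grow_C (0 : ℂ_[p])
    have g1 : UAP.Grow (-1 : PowerSeries ℂ_[p]) := by simpa using UAP.grow_C (-1 : ℂ_[p])
    refine UAP.Grow.add ?_ ?_
    · split_ifs
      exacts [h, g0]
    · split_ifs
      exacts [g1, g0]
  · rw [eval_add, eval_mul, eval_C, eval_X, eval_C, PowerSeries.mul_inv_cancel _ h0, add_neg_cancel]
  · simpa using hf

/-- The substitution `X = c + s`. -/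
def pbr1_phi (c : ℂ_[p]) : ℂ_[p][X] →+* PowerSeries ℂ_[p] :=
  eval₂RingHom PowerSeries.C (PowerSeries.C c + PowerSeries.X)

theorem pbr1_phi_ev (c s : ℂ_[p]) (f : ℂ_[p][X]) : UAP.HasEv (pbr1_phi c f) s (f.eval (c + s)) := by
  induction f using Polynomial.induction_on' with
  | add f g hf hg =>
    rw [map_add, eval_add]
    exact hf.add hg
  | monomial n a =>
    rw [pbr1_phi, coe_eval₂RingHom, eval₂_monomial, eval_monomial]
    exact (((UAP.hasEv_C c s).add (UAP.hasEv_X s)).pow UAP.mulOK_ultra n).C_mul a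

theorem pbr1_phi_grow (c : ℂ_[p]) (f : ℂ_[p][X]) : UAP.Grow (pbr1_phi c f) := by
  have gX : UAP.Grow (PowerSeries.X : PowerSeries ℂ_[p]) := by
    refine ⟨1, 1, one_pos, fun n => ?_⟩
    rw [PowerSeries.coeff_X]
    split_ifs <;> simp
  induction f using Polynomial.induction_on' with
  | add f g hf hg =>
    rw [map_add]
    exact hf.add hg
  | monomial n a =>
    rw [pbr1_phi, coe_eval₂RingHom, eval₂_monomial]
    exact (UAP.grow_C a).mul (((UAP.grow_C c).add gX).pow n)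

theorem pbr1_sub_ev (c s : ℂ_[p]) {m : ℕ} (hm : m ≠ 0) (f : ℂ_[p][X]) :
    UAP.HasEv (UAP.subM 1 m hm (pbr1_phi c f)) s (f.eval (c + s ^ m)) := by
  refine UAP.HasEv.substM hm ?_
  rw [one_mul]
  exact pbr1_phi_ev c _ f

theorem pbr1_sub_ne (c : ℂ_[p]) {m : ℕ} (hm : m ≠ 0) {f : ℂ_[p][X]} (hf : f ≠ 0) :
    UAP.subM 1 m hm (pbr1_phi c f) ≠ 0 := by
  intro e
  refine hf (Polynomial.funext fun x => ?_)
  obtain ⟨s, hs⟩ := IsAlgClosed.exists_pow_nat_eq (x - c) (Nat.pos_of_ne_zero hm)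
  have h1 := pbr1_sub_ev c s hm f
  rw [e, hs, add_sub_cancel] at h1
  rw [eval_zero]
  exact h1.unique (UAP.hasEv_zero s)

theorem pbr1_poly_ev (c s w : ℂ_[p]) {m : ℕ} (hm : m ≠ 0) (N : ℂ_[p][X][Y]) :
    UAP.HasEv (((N.map (pbr1_phi c)).map (UAP.subM 1 m hm)).eval (PowerSeries.C w)) s
      (N.evalEval (c + s ^ m) w) := by
  induction N using Polynomial.induction_on' with
  | add f g hf hg =>
    rw [Polynomial.map_add, Polynomial.map_add, eval_add, evalEval_add]
    exact hf.add hg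
  | monomial n a =>
    rw [Polynomial.map_monomial, Polynomial.map_monomial, eval_monomial,
      ← C_mul_X_pow_eq_monomial, evalEval_mul, evalEval_pow, evalEval_C, evalEval_X]
    exact UAP.mulOK_ultra _ _ _ _ _ (pbr1_sub_ev c s hm a)
      ((UAP.hasEv_C w s).pow UAP.mulOK_ultra n)

/-- A root of a monic polynomial with growing coefficients grows (differentiate until the root is
simple, then `UAP.grow_root`). -/
theorem grow_of_monic {P : (PowerSeries ℂ_[p])[X]} (hP : P.Monic) (h : ∀ i, UAP.Grow (P.coeff i))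
    {z : PowerSeries ℂ_[p]} (hz : P.eval z = 0) : UAP.Grow z := by
  exact pbr1_root z _ P rfl hP.ne_zero h hz

/-- A quotient of two nonzero growing series is `cc t ^ a g(t)` with `g(0) = 1`. -/
theorem grow_quot {z l : PowerSeries ℂ_[p]} (hz : z ≠ 0) (hl : l ≠ 0) (gz : UAP.Grow z)
    (gl : UAP.Grow l) : ∃ (cc : ℂ_[p]) (a : ℤ) (g : PowerSeries ℂ_[p]) (r : ℝ), cc ≠ 0 ∧
      UAP.Grow g ∧ PowerSeries.constantCoeff g = 1 ∧ 0 < r ∧ ∀ s v w : ℂ_[p], s ≠ 0 → ‖s‖ < r →
        UAP.HasEv z s v → UAP.HasEv l s w → w ≠ 0 ∧ ∃ u, UAP.HasEv g s u ∧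
          v / w = cc * s ^ a * u := by
  have z0 : PowerSeries.constantCoeff z.divXPowOrder ≠ 0 := fun e =>
    hz (PowerSeries.constantCoeff_divXPowOrder_eq_zero_iff.1 e)
  have l0 : PowerSeries.constantCoeff l.divXPowOrder ≠ 0 := fun e =>
    hl (PowerSeries.constantCoeff_divXPowOrder_eq_zero_iff.1 e)
  have ez := (PowerSeries.X_pow_order_mul_divXPowOrder (f := z)).symm
  have el := (PowerSeries.X_pow_order_mul_divXPowOrder (f := l)).symm
  have g1 := pbr1_div gz
  have g2 := pbr1_div gl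
  generalize z.divXPowOrder = z1 at z0 ez g1
  generalize l.divXPowOrder = l1 at l0 el g2
  generalize z.order.toNat = a at ez
  generalize l.order.toNat = b at el
  subst ez el
  have g3 := pbr1_inv g2 l0
  obtain ⟨r1, hr1, h1⟩ := pbr1_radius g1
  obtain ⟨r2, hr2, h2⟩ := pbr1_radius g2
  obtain ⟨r3, hr3, h3⟩ := pbr1_radius g3
  refine ⟨PowerSeries.constantCoeff z1 / PowerSeries.constantCoeff l1, (a : ℤ) - b,
    PowerSeries.C (PowerSeries.constantCoeff l1 / PowerSeries.constantCoeff z1) * (z1 * l1⁻¹),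
    min r1 (min r2 r3), div_ne_zero z0 l0, (UAP.grow_C _).mul (g1.mul g3), ?_,
    lt_min hr1 (lt_min hr2 hr3), fun s v w hs hr hv hw => ?_⟩
  · rw [map_mul, map_mul, PowerSeries.constantCoeff_C, PowerSeries.constantCoeff_inv]
    field_simp
  · obtain ⟨v1, hv1⟩ := h1 s (hr.trans_le (min_le_left _ _))
    obtain ⟨w1, hw1⟩ := h2 s (hr.trans_le ((min_le_right _ _).trans (min_le_left _ _)))
    obtain ⟨w2, hw2⟩ := h3 s (hr.trans_le ((min_le_right _ _).trans (min_le_right _ _)))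
    have e1 := hv.unique (hv1.X_pow_mul a)
    have e2 := hw.unique (hw1.X_pow_mul b)
    have e3 : w1 * w2 = 1 := by
      have := UAP.mulOK_ultra _ _ _ _ _ hw1 hw2
      rw [PowerSeries.mul_inv_cancel _ l0] at this
      exact this.unique (UAP.hasEv_one s)
    have hw0 : w1 ≠ 0 := left_ne_zero_of_mul_eq_one e3
    refine ⟨by rw [e2]; exact mul_ne_zero (pow_ne_zero _ hs) hw0, _,
      (UAP.mulOK_ultra _ _ _ _ _ hv1 hw2).C_mul _, ?_⟩
    rw [e1, e2, eq_inv_of_mul_eq_one_right e3, zpow_sub₀ hs, zpow_natCast, zpow_natCast]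
    field_simp

/-- Put `X = c + s`, make the polynomial monic in `Y` (`Polynomial.integralNormalization`), factor
it by `UAP.puiseux`, evaluate at `s n`; the ultrafilter chooses one factor. If `P` has degree zero
in `Y` the hypotheses are contradictory. -/
theorem branch_one {P : ℂ_[p][X][Y]} (hP : P ≠ 0) (c : ℂ_[p]) : ∃ m : ℕ, m ≠ 0 ∧
    ∀ (U : Ultrafilter ℕ) (s y : ℕ → ℂ_[p]), Tendsto s U (𝓝 0) →
      (∀ᶠ n in (U : Filter ℕ), s n ≠ 0 ∧ y n ≠ 0 ∧ P.evalEval (c + s n ^ m) (y n) = 0) →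
      ∃ (cc : ℂ_[p]) (a : ℤ) (g : PowerSeries ℂ_[p]), UAP.Grow g ∧
        PowerSeries.constantCoeff g = 1 ∧ ∀ᶠ n in (U : Filter ℕ), ∃ u, UAP.HasEv g (s n) u ∧
          y n = cc * s n ^ a * u := by
  have hN : (integralNormalization P).Monic := monic_integralNormalization hP
  obtain ⟨m, hm, z, hz⟩ := UAP.puiseux ℂ_[p] _ (hN.map (pbr1_phi c))
  refine ⟨m, hm, fun U s y hs h => ?_⟩
  have hL := pbr1_sub_ne c hm (leadingCoeff_ne_zero.2 hP)
  have gL := (pbr1_phi_grow c P.leadingCoeff).substM 1 m hm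
  have small : ∀ r : ℝ, 0 < r → ∀ᶠ n in (U : Filter ℕ), ‖s n‖ < r := fun r hr =>
    (hs.eventually (Metric.ball_mem_nhds 0 hr)).mono fun n hn => mem_ball_zero_iff.1 hn
  have hl0 : ∀ᶠ n in (U : Filter ℕ), P.leadingCoeff.eval (c + s n ^ m) ≠ 0 := by
    obtain ⟨cc, a, g, r, -, -, -, hr, H⟩ := grow_quot hL hL gL gL
    filter_upwards [small r hr, h] with n h1 h2
    exact (H _ _ _ h2.1 h1 (pbr1_sub_ev c _ hm _) (pbr1_sub_ev c _ hm _)).1
  have hd : 1 ≤ P.natDegree := by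
    by_contra hd
    have e := eq_C_of_natDegree_eq_zero (p := P) (by omega)
    obtain ⟨n, h1, h2⟩ := (hl0.and h).exists
    rw [e, leadingCoeff_C] at h1
    rw [e, evalEval_C] at h2
    exact h1 h2.2.2
  have gz : ∀ i, UAP.Grow (z i) := by
    intro i
    refine grow_of_monic ((hN.map (pbr1_phi c)).map (UAP.subM 1 m hm)) (fun j => ?_) ?_
    · rw [coeff_map, coeff_map]
      exact (pbr1_phi_grow c _).substM 1 m hm
    · rw [hz, eval_prod]
      exact Finset.prod_eq_zero (Finset.mem_univ i) (by simp)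
  choose r hr hv using fun i => pbr1_radius (gz i)
  have h3 : ∀ᶠ n in (U : Filter ℕ), ∃ i,
      UAP.HasEv (z i) (s n) (P.leadingCoeff.eval (c + s n ^ m) * y n) := by
    filter_upwards [eventually_all.2 fun i => small (r i) (hr i), h] with n h1 h2
    choose v hv' using fun i => hv i (s n) (h1 i)
    have k1 := pbr1_poly_ev c (s n) (P.leadingCoeff.eval (c + s n ^ m) * y n) hm
      (integralNormalization P)
    have k2 := integralNormalization_eval₂_leadingCoeff_mul hd (evalRingHom (c + s n ^ m)) (y n)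
    rw [eval₂_evalRingHom, h2.2.2, mul_zero, coe_evalRingHom] at k2
    rw [k2, hz, eval_prod] at k1
    have k3 := UAP.hasEv_prod UAP.mulOK_ultra Finset.univ
      (f := fun i => eval (PowerSeries.C (P.leadingCoeff.eval (c + s n ^ m) * y n))
        (X - Polynomial.C (z i))) (x := s n)
      (v := fun i => P.leadingCoeff.eval (c + s n ^ m) * y n - v i) fun i _ => by
        rw [eval_sub, eval_X, eval_C]
        exact (UAP.hasEv_C _ _).sub (hv' i)
    obtain ⟨i, -, hi⟩ := Finset.prod_eq_zero_iff.1 (k3.unique k1)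
    exact ⟨i, sub_eq_zero.1 hi ▸ hv' i⟩
  obtain ⟨i, hi⟩ := Ultrafilter.eventually_exists_iff.1 h3
  have hz0 : z i ≠ 0 := by
    intro e
    obtain ⟨n, h1, h2, h4⟩ := (hi.and (hl0.and h)).exists
    rw [e] at h1
    exact mul_ne_zero h2 h4.2.1 (h1.unique (UAP.hasEv_zero _))
  obtain ⟨cc, a, g, ρ, -, g1, g2, hρ, H⟩ := grow_quot hz0 hL (gz i) gL
  refine ⟨cc, a, g, g1, g2, ?_⟩
  filter_upwards [small ρ hρ, h, hi] with n h1 h2 h4
  obtain ⟨h5, u, hu, e⟩ := H _ _ _ h2.1 h1 h4 (pbr1_sub_ev c _ hm _)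
  exact ⟨u, hu, by rw [← e, mul_div_cancel_left₀ _ h5]⟩

end Pool.Agent.E7
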