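import Pool.Agent.Lib.MP_7e5527_ag.E7.PBr1
import Pool.Agent.Lib.MP_7e5527_ag.E7.PInv

/-! The coordinates lie on an arc. -/

open Filter Topology Polynomial
open scoped Polynomial.Bivariate

noncomputable section

namespace Pool.Agent.E7

variable {ι : Type} [Fintype ι] [DecidableEq ι] {p : ℕ} [Fact p.Prime] {C : Cone ι} {Q : Type}
  [CommRing Q]

variable {A : Type} [NormedCommRing A] [NormOneClass A] [NormedAlgebra ℂ_[p] A] [CompleteSpace A]
  [IsUltrametricDist A] [IsDomain A]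

theorem pbr2_norm_one {u : ℂ_[p]} (h : ‖u - 1‖ < 1) : ‖u‖ = 1 := by
  have h1 : ‖(1 : ℂ_[p])‖ ≠ ‖u - 1‖ := by
    rw [norm_one]
    exact h.ne'
  have h2 := IsUltrametricDist.norm_add_eq_max_of_norm_ne_norm h1
  rw [add_sub_cancel, norm_one, max_eq_left h.le] at h2
  exact h2

/-- Roots of a null sequence form a null sequence. -/
theorem pbr2_tendsto {F : Filter ℕ} {τ : ℕ → ℂ_[p]} {m : ℕ}
    (h : Tendsto (fun n => τ n ^ m) F (𝓝 0)) : Tendsto τ F (𝓝 0) := by
  rw [tendsto_zero_iff_norm_tendsto_zero] at h ⊢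
  refine tendsto_order.2 ⟨fun b hb => Eventually.of_forall fun n => hb.trans_le (norm_nonneg _),
    fun b hb => ?_⟩
  filter_upwards [(tendsto_order.1 h).2 (b ^ m) (pow_pos hb m)] with n hn
  rw [norm_pow] at hn
  exact lt_of_pow_lt_pow_left₀ m hb.le hn

/-- After a small rescaling a growing series with constant term one is a principal unit of the ring
of bounded series. -/
theorem BS.rescale (B : BS p A) {g : PowerSeries ℂ_[p]} (hg : UAP.Grow g)
    (h1 : PowerSeries.constantCoeff g = 1) : ∃ r : ℝ, 0 < r ∧ ∀ t0 : ℂ_[p], ‖t0‖ < r →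
      (∀ u, UAP.HasEv g t0 u → ‖u‖ = 1) ∧ ∃ f : Aˣ, ‖(f : A) - 1‖ < 1 ∧
        ∀ s u, ‖s‖ < 1 → UAP.HasEv g (t0 * s) u → B.ev s f = u := by
  obtain ⟨K, Λ, hΛ, h⟩ := hg
  have hc0 : PowerSeries.coeff 0 g = 1 := by
    rw [PowerSeries.coeff_zero_eq_constantCoeff_apply, h1]
  have hK : 1 ≤ K := by simpa [hc0] using h 0
  refine ⟨1 / (2 * K * Λ), by positivity, fun t0 ht => ?_⟩
  have hρ0 : 0 ≤ Λ * ‖t0‖ := by positivity
  have hKρ : K * (Λ * ‖t0‖) ≤ 1 / 2 := by
    rw [lt_div_iff₀ (by positivity)] at ht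
    linarith
  have hρ : Λ * ‖t0‖ ≤ 1 / 2 := (le_mul_of_one_le_left hρ0 hK).trans hKρ
  refine ⟨fun u hu => ?_, ?_⟩
  · have ht := hu.tail h hΛ (by linarith) 0 (fun n hn => absurd hn (Nat.not_lt_zero n))
    rw [hc0, pow_zero, mul_one, zero_add, pow_one] at ht
    exact pbr2_norm_one (by linarith)
  · obtain ⟨f0, hf0, hev⟩ := B.ser (PowerSeries.rescale t0 g - 1) (1 / 2) fun k => by
      rw [map_sub, PowerSeries.coeff_rescale, PowerSeries.coeff_one]
      split_ifs with hk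
      · subst hk
        simp [hc0]
      · rw [sub_zero, norm_mul, norm_pow]
        calc ‖t0‖ ^ k * ‖PowerSeries.coeff k g‖ ≤ ‖t0‖ ^ k * (K * Λ ^ k) :=
              mul_le_mul_of_nonneg_left (h k) (by positivity)
          _ = K * (Λ * ‖t0‖) ^ k := by ring
          _ ≤ K * (Λ * ‖t0‖) :=
              mul_le_mul_of_nonneg_left (pow_le_of_le_one hρ0 (by linarith) hk) (by linarith)
          _ ≤ 1 / 2 := hKρ
    have hlt : ‖(1 + f0) - 1‖ < 1 := by
      rw [add_sub_cancel_left]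
      linarith
    obtain ⟨f, hf⟩ := exists_unit hlt
    refine ⟨f, hf ▸ hlt, fun s u hs hu => ?_⟩
    have h2 : UAP.HasEv (PowerSeries.rescale t0 g) s u := by
      unfold UAP.HasEv at hu ⊢
      simpa only [PowerSeries.coeff_rescale, mul_pow, mul_assoc, mul_left_comm] using hu
    have h3 := (hev s hs).unique (h2.sub (UAP.hasEv_one s))
    rw [hf, map_add, map_one, h3, add_sub_cancel]

/-- Common exponent `m = ∏ m j`, `t n ^ m = x n i0 - c`, `branch_one` at `t n ^ (m / m j)`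
(`HasEv.substM`), then rescale by `t n0`. -/
theorem branch (B : BS p A) (U : Ultrafilter ℕ) (x : ℕ → ι → ℂ_[p]) (hx : ∀ n i, x n i ≠ 0)
    (i0 : ι) (c : ℂ_[p]) (hc : Tendsto (fun n => x n i0) U (𝓝 c))
    (hne : ∀ᶠ n in (U : Filter ℕ), x n i0 ≠ c)
    (rel : ∀ j, ∃ P : ℂ_[p][X][Y], P ≠ 0 ∧ ∀ n, P.evalEval (x n i0) (x n j) = 0) :
    ∃ n0 t cc a g, PArc B U x n0 t cc a g := by
  choose P hP hPx using rel
  choose m hm hbr using fun j => branch_one (hP j) c
  have hM : ∏ j, m j ≠ 0 := Finset.prod_ne_zero_iff.2 fun j _ => hm j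
  choose k hk using fun j => Finset.dvd_prod_of_mem m (Finset.mem_univ j)
  have hk0 : ∀ j, k j ≠ 0 := fun j h => hM (by rw [hk j, h, mul_zero])
  choose τ hτ using fun n =>
    IsAlgClosed.exists_pow_nat_eq (x n i0 - c) (Nat.pos_of_ne_zero hM)
  have hτ0 : Tendsto τ U (𝓝 0) := by
    refine pbr2_tendsto (m := ∏ j, m j) ?_
    simp only [hτ]
    simpa using hc.sub_const c
  have hτne : ∀ᶠ n in (U : Filter ℕ), τ n ≠ 0 := by
    filter_upwards [hne] with n hn h0
    have h1 := hτ n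
    rw [h0, zero_pow hM] at h1
    exact hn (sub_eq_zero.1 h1.symm)
  have hbr2 := fun j => hbr j U (fun n => τ n ^ k j) (fun n => x n j)
    (by simpa [zero_pow (hk0 j)] using hτ0.pow (k j)) (by
      filter_upwards [hτne] with n hn
      refine ⟨pow_ne_zero _ hn, hx n j, ?_⟩
      rw [← pow_mul, mul_comm, ← hk j, hτ n, add_sub_cancel]
      exact hPx j n)
  choose cc a g hg hg1 hev using hbr2
  choose r hr hres using fun j => B.rescale ((hg j).substM 1 (k j) (hk0 j)) (by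
    rw [← PowerSeries.coeff_zero_eq_constantCoeff_apply, UAP.coeff_subM, if_pos (dvd_zero _),
      Nat.zero_div, pow_zero, one_mul, PowerSeries.coeff_zero_eq_constantCoeff_apply, hg1 j])
  have hall : ∀ᶠ n in (U : Filter ℕ), ∀ j, ∃ u, UAP.HasEv (UAP.subM 1 (k j) (hk0 j) (g j)) (τ n) u ∧
      x n j = cc j * τ n ^ ((k j : ℤ) * a j) * u := by
    refine eventually_all.2 fun j => ?_
    filter_upwards [hev j] with n ⟨u, hu, hxu⟩
    refine ⟨u, UAP.HasEv.substM (hk0 j) (by rwa [one_mul]), ?_⟩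
    rw [hxu, zpow_mul, zpow_natCast]
  have hsm : ∀ᶠ n in (U : Filter ℕ), ∀ j, ‖τ n‖ < r j :=
    eventually_all.2 fun j =>
      (tendsto_order.1 (tendsto_zero_iff_norm_tendsto_zero.1 hτ0)).2 _ (hr j)
  obtain ⟨n0, h0, h0r, h0u⟩ := (hτne.and (hsm.and hall)).exists
  choose f hf1 hfe using fun j => (hres j (τ n0) (h0r j)).2
  refine ⟨n0, fun n => τ n / τ n0, fun j => cc j * τ n0 ^ ((k j : ℤ) * a j),
    fun j => (k j : ℤ) * a j, f, hf1, fun j => ?_, by simpa using hτ0.div_const (τ n0), ?_⟩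
  · obtain ⟨u, hu, hxu⟩ := h0u j
    rw [hxu, norm_mul _ u, (hres j (τ n0) (h0r j)).1 u hu, mul_one]
  · filter_upwards [hτne, hall, (tendsto_order.1
      (tendsto_zero_iff_norm_tendsto_zero.1 hτ0)).2 _ (norm_pos_iff.2 h0)] with n hn hu hlt
    have hlt1 : ‖τ n / τ n0‖ < 1 := by
      rw [norm_div]
      exact (div_lt_one (norm_pos_iff.2 h0)).2 hlt
    refine ⟨div_ne_zero hn h0, hlt1, fun j => ?_⟩
    obtain ⟨u, hu, hxu⟩ := hu j
    rw [hfe j _ u hlt1 (by rwa [mul_div_cancel₀ _ h0]), hxu, mul_assoc (cc j) (τ n0 ^ _),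
      ← mul_zpow, mul_div_cancel₀ _ h0]

end Pool.Agent.E7
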