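import Pool.Agent.Lib.MP_7e5527_ag.E7.PData

/-! Convergence in finite extensions. -/

open Filter Topology Polynomial
open scoped Polynomial.Bivariate

noncomputable section

namespace Pool.Agent.E7

variable {ι : Type} [Fintype ι] [DecidableEq ι] {p : ℕ} [Fact p.Prime] {C : Cone ι} {Q : Type}
  [CommRing Q]

/-- A finite extension of `ℚ_p` is proper; then `tendsto_root` for `X ^ w - b`. -/
theorem conv_of_pow_mem (E' : IntermediateField ℚ_[p] ℂ_[p]) [FiniteDimensional ℚ_[p] E']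
    (U : Ultrafilter ℕ) {v : ℕ → ℂ_[p]} (hb : Bdd v) {w : ℕ} (hw : 0 < w) (h : ∀ n, v n ^ w ∈ E') :
    ∃ c, Tendsto v U (𝓝 c) := by
  obtain ⟨B, hB⟩ := hb
  let M : Submodule ℚ_[p] ℂ_[p] := E'.toSubalgebra.toSubmodule
  have : FiniteDimensional ℚ_[p] M := ‹FiniteDimensional ℚ_[p] E'›
  have : ProperSpace M := FiniteDimensional.proper ℚ_[p] M
  let z : ℕ → M := fun n => ⟨v n ^ w, h n⟩
  have hz : ∀ n, z n ∈ Metric.closedBall (0 : M) (B ^ w) := by
    intro n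
    rw [mem_closedBall_zero_iff]
    change ‖v n ^ w‖ ≤ B ^ w
    rw [norm_pow]
    exact pow_le_pow_left₀ (norm_nonneg _) (hB n) w
  obtain ⟨b, -, hb⟩ := (isCompact_closedBall (0 : M) (B ^ w)).ultrafilter_le_nhds' (U.map z)
    (Ultrafilter.mem_map.2 (Filter.univ_mem' hz))
  have h1 : Tendsto z U (𝓝 b) := hb
  have h2 : Tendsto (fun n => v n ^ w) U (𝓝 (b : ℂ_[p])) :=
    (continuous_subtype_val.tendsto b).comp h1
  refine tendsto_root (X_pow_sub_C_ne_zero hw (b : ℂ_[p])) U ?_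
  have h3 := h2.sub_const (b : ℂ_[p])
  rw [sub_self] at h3
  simpa using h3

/-- Bounded positive vectors with bounded denominators take one value on a subsequence. -/
theorem exists_const {y : ℕ → ι → ℚ} {R : ℚ} {e : ℕ} (he : 0 < e) (h0 : ∀ n i, 0 < y n i)
    (hR : ∀ n i, y n i ≤ R) (h : ∀ n i, ∃ k : ℤ, (e : ℚ) * y n i = k) :
    ∃ (f : ℕ → ℕ) (y0 : ι → ℚ), Tendsto f cofinite cofinite ∧ ∀ n, y (f n) = y0 := by
  have he' : (0 : ℚ) < e := by exact_mod_cast he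
  have hfin : (Set.range y).Finite := by
    have hs : ((fun k : ℤ => (k : ℚ) / e) '' Set.Icc 0 ⌈(e : ℚ) * R⌉).Finite :=
      (Set.finite_Icc _ _).image _
    refine (Set.Finite.pi' (fun _ : ι => hs)).subset ?_
    rintro _ ⟨n, rfl⟩ i
    obtain ⟨k, hk⟩ := h n i
    refine ⟨k, ⟨?_, ?_⟩, ?_⟩
    · have h1 : (0 : ℚ) ≤ k := hk ▸ (mul_pos he' (h0 n i)).le
      exact_mod_cast h1
    · have h1 : (k : ℚ) ≤ ⌈(e : ℚ) * R⌉ :=
        hk ▸ (mul_le_mul_of_nonneg_left (hR n i) he'.le).trans (Int.le_ceil _)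
      exact_mod_cast h1
    · change (k : ℚ) / e = y n i
      rw [← hk]
      field_simp
  have : Finite (Set.range y) := hfin
  obtain ⟨y0, hy0⟩ := Finite.exists_infinite_fiber (Set.rangeFactorization y)
  let g := Infinite.natEmbedding (Set.rangeFactorization y ⁻¹' {y0})
  refine ⟨fun n => (g n : ℕ), y0, ?_, fun n => ?_⟩
  · exact Function.Injective.tendsto_cofinite (Subtype.val_injective.comp g.injective)
  · exact congrArg Subtype.val (g n).2

theorem Pt.int {q : ι → ℂ_[p]} {y : ι → ℚ} (hq : Pt p q y) {e : ℕ} {i : ι}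
    (h : ∃ k : ℤ, ‖q i‖ ^ e = (p : ℝ) ^ k) : ∃ k : ℤ, (e : ℚ) * y i = k := by
  obtain ⟨k, hk⟩ := h
  have hp : (1 : ℝ) < p := by exact_mod_cast (Fact.out : p.Prime).one_lt
  have hp0 : (0 : ℝ) < p := one_pos.trans hp
  rw [hq i, ← Real.rpow_natCast, ← Real.rpow_mul hp0.le, ← Real.rpow_intCast] at hk
  have h1 : -(y i : ℝ) * (e : ℝ) = (k : ℝ) :=
    le_antisymm ((Real.rpow_le_rpow_left_iff hp).1 hk.le) ((Real.rpow_le_rpow_left_iff hp).1 hk.ge)
  refine ⟨-k, ?_⟩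
  have h2 : (e : ℝ) * (y i : ℝ) = ((-k : ℤ) : ℝ) := by
    push_cast
    linarith
  exact_mod_cast h2

end Pool.Agent.E7
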