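import Pool.Agent.Lib.MP_7e5527_ag.E7.PDefs

/-! Isometries over the `p`-adic numbers preserve the constants. -/

open Filter Topology Polynomial
open scoped Polynomial.Bivariate

noncomputable section

namespace Pool.Agent.E7

variable {ι : Type} [Fintype ι] [DecidableEq ι] {p : ℕ} [Fact p.Prime] {C : Cone ι} {Q : Type}
  [CommRing Q]

variable {K : Type} [NormedField K] [NormedAlgebra ℂ_[p] K] [CompleteSpace K]
  [IsUltrametricDist K]

/-- A root in `K` of a polynomial over `ℚ_p` lies in `ℂ_p`; the algebraic elements are dense in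
`ℂ_p` and the image of `ℂ_p` is closed. -/
theorem map_cst_mem (Φ : K →+* K) (hΦ : ∀ z, ‖Φ z‖ = ‖z‖)
    (h : ∀ a : ℚ_[p], Φ (algebraMap ℂ_[p] K (algebraMap ℚ_[p] ℂ_[p] a)) =
      algebraMap ℂ_[p] K (algebraMap ℚ_[p] ℂ_[p] a)) (c : ℂ_[p]) :
    ∃ c', Φ (algebraMap ℂ_[p] K c) = algebraMap ℂ_[p] K c' := by
  have hc : Continuous Φ := (AddMonoidHomClass.isometry_of_norm Φ hΦ).continuous
  have hi := algebraMap_isometry ℂ_[p] K
  suffices H : Φ (algebraMap ℂ_[p] K c) ∈ Set.range (algebraMap ℂ_[p] K) from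
    H.imp fun _ => Eq.symm
  induction c using UniformSpace.Completion.induction_on with
  | hp => exact hi.isClosedEmbedding.isClosed_range.preimage (hc.comp hi.continuous)
  | ih x =>
    obtain ⟨f, hf, hx⟩ := (PadicAlgCl.isAlgebraic p).isAlgebraic x
    refine (IsAlgClosed.splits (f.map (algebraMap ℚ_[p] ℂ_[p]))).mem_range_of_isRoot
      (Polynomial.map_ne_zero hf) ?_
    have h1 : (Φ.comp (algebraMap ℂ_[p] K)).comp (algebraMap ℚ_[p] ℂ_[p]) =
        (algebraMap ℂ_[p] K).comp (algebraMap ℚ_[p] ℂ_[p]) := RingHom.ext h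
    have h2 : f.eval₂ (algebraMap ℚ_[p] ℂ_[p]) (x : ℂ_[p]) = 0 := by
      rw [← aeval_def, PadicComplex.coe_eq, aeval_algebraMap_apply, hx, map_zero]
    have h3 := Polynomial.hom_eval₂ f (algebraMap ℚ_[p] ℂ_[p]) (Φ.comp (algebraMap ℂ_[p] K)) x
    rw [h2, map_zero, h1] at h3
    rw [IsRoot, Polynomial.map_map, eval_map]
    exact h3.symm

end Pool.Agent.E7
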