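import Pool.Agent.Lib.MP_7e5527_ag.E7.POrb

/-! Frobenius. -/

open Filter Topology Polynomial
open scoped Polynomial.Bivariate

noncomputable section

namespace Pool.Agent.E7

variable {ι : Type} [Fintype ι] [DecidableEq ι] {p : ℕ} [Fact p.Prime] {C : Cone ι} {Q : Type}
  [CommRing Q]

open IntermediateField

/-- Two maps that fix `K` and send `ω` to a power of `ω` commute on `K ⊔ ℚ_p(ω)`. -/
theorem pgal_comm (K : IntermediateField ℚ_[p] ℂ_[p]) {ω : ℂ_[p]} {τ φ : ℂ_[p] →+* ℂ_[p]}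
    (hτ : ∀ a ∈ K, τ a = a) (hφ : ∀ a ∈ K, φ a = a) {M N : ℕ} (h1 : τ ω = ω ^ M)
    (h2 : φ ω = ω ^ N) {z : ℂ_[p]} (hz : z ∈ K ⊔ ℚ_[p]⟮ω⟯) : τ (φ z) = φ (τ z) := by
  let L : IntermediateField ℚ_[p] ℂ_[p] :=
    ((τ.comp φ).eqLocusField (φ.comp τ)).toIntermediateField fun x => by
      change τ (φ (algebraMap ℚ_[p] ℂ_[p] x)) = φ (τ (algebraMap ℚ_[p] ℂ_[p] x))
      rw [hφ _ (K.algebraMap_mem x), hτ _ (K.algebraMap_mem x), hφ _ (K.algebraMap_mem x)]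
  have hL : K ⊔ ℚ_[p]⟮ω⟯ ≤ L := by
    refine sup_le (fun a ha => ?_) (IntermediateField.adjoin_simple_le_iff.2 ?_)
    · change τ (φ a) = φ (τ a)
      rw [hφ a ha, hτ a ha, hφ a ha]
    · change τ (φ ω) = φ (τ ω)
      rw [h1, h2, map_pow, map_pow, h1, h2, ← pow_mul, ← pow_mul, mul_comm]
  exact hL hz

/-- Primitive roots of unity exist. -/
theorem pgal_prim (p : ℕ) [Fact p.Prime] {n : ℕ} (hn : 0 < n) :
    ∃ ω : ℂ_[p], IsPrimitiveRoot ω n := by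
  have : NeZero n := ⟨hn.ne'⟩
  have : NeZero (n : ℂ_[p]) := ⟨by exact_mod_cast hn.ne'⟩
  exact HasEnoughRootsOfUnity.exists_primitiveRoot ℂ_[p] n

/-- For `τ` fixing `E'`: `τ z = c z`, `c = c₁ c₂` (`UAP.exists_root_decomp`), `c₁` of `p`-power order
lies in `E' ⊔ ℚ_p(ω)`, so its order is bounded (`UAP.exists_ppow_bound`,
`UAP.norm_pow_factorial_unram`); `φ c₂ = c₂ ^ N`; `τ` and `φ` commute on `E' ⊔ ℚ_p(ω)`. -/
theorem frob_mem (E' : IntermediateField ℚ_[p] ℂ_[p]) [FiniteDimensional ℚ_[p] E'] : ∃ w : ℕ,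
    0 < w ∧ ∀ (s r N : ℕ) (ω z : ℂ_[p]) (φ : ℂ_[p] →+* ℂ_[p]), ¬ p ∣ r → IsPrimitiveRoot ω r →
      z ≠ 0 → z ∈ E' ⊔ ℚ_[p]⟮ω⟯ → z ^ (p ^ s * r) ∈ E' → (∀ a ∈ E', φ a = a) → φ ω = ω ^ N →
      (z ^ N / φ z) ^ w ∈ E' := by
  have hp : p.Prime := Fact.out
  obtain ⟨s1, hs1⟩ := UAP.exists_ppow_bound p (Nat.factorial_pos (Module.finrank ℚ_[p] E'))
  refine ⟨p ^ s1, pow_pos hp.pos _, ?_⟩
  intro s r N ω z φ hr hω hz0 hz hzn hφ hφω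
  have hr0 : r ≠ 0 := fun h => hr (h ▸ dvd_zero p)
  have : NeZero r := ⟨hr0⟩
  have hn : 0 < p ^ s * r := Nat.mul_pos (pow_pos hp.pos _) (Nat.pos_of_ne_zero hr0)
  refine UAP.mem_of_fixed E' hn ?_ fun τ _ hτ => ?_
  · have h : ((z ^ N / φ z) ^ p ^ s1) ^ (p ^ s * r) =
        ((z ^ (p ^ s * r)) ^ N / φ (z ^ (p ^ s * r))) ^ p ^ s1 := by
      rw [← pow_mul, mul_comm (p ^ s1), pow_mul, div_pow, map_pow, ← pow_mul z N,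
        ← pow_mul z _ N, mul_comm N]
    rw [h, hφ _ hzn]
    exact pow_mem (div_mem (pow_mem hzn N) hzn) _
  obtain ⟨M, -, hM⟩ := hω.eq_pow_of_pow_eq_one (ξ := τ ω)
    (by rw [← map_pow, hω.pow_eq_one, map_one])
  obtain ⟨c, hc⟩ : ∃ c, c = τ z / z := ⟨_, rfl⟩
  have hcz : τ z = c * z := by rw [hc, div_mul_cancel₀ _ hz0]
  have hcL : c ∈ E' ⊔ ℚ_[p]⟮ω⟯ := hc ▸ div_mem (UAP.map_mem_sup_root E' hτ hM.symm hz) hz
  have hc1 : c ^ (p ^ s * r) = 1 := by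
    rw [hc, div_pow, ← map_pow, hτ _ hzn, div_self (pow_ne_zero _ hz0)]
  obtain ⟨a, b, hab, ha, hb⟩ := UAP.exists_root_decomp hr hc1
  have h1 : (c ^ a) ^ p ^ s1 = 1 := hs1 _ s ha fun hne =>
    UAP.norm_pow_factorial_unram E' le_rfl hr hω (sub_mem (pow_mem hcL a) (one_mem _))
      (sub_ne_zero.mpr hne)
  obtain ⟨j, -, hj⟩ := hω.eq_pow_of_pow_eq_one hb
  have h2 : φ (c ^ b) = (c ^ b) ^ N := by
    rw [← hj, map_pow, hφω, ← pow_mul, ← pow_mul, mul_comm]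
  have h3 : (c ^ N) ^ p ^ s1 = (φ c) ^ p ^ s1 := by
    have h4 : (φ (c ^ a)) ^ p ^ s1 = 1 := by rw [← map_pow, h1, map_one]
    have h5 : ((c ^ a) ^ N) ^ p ^ s1 = 1 := by
      rw [← pow_mul, mul_comm N, pow_mul, h1, one_pow]
    calc (c ^ N) ^ p ^ s1 = ((c ^ a * c ^ b) ^ N) ^ p ^ s1 := by rw [← hab]
      _ = (φ (c ^ a * c ^ b)) ^ p ^ s1 := by
        rw [map_mul, mul_pow, mul_pow, mul_pow, h4, h5, h2]
      _ = (φ c) ^ p ^ s1 := by rw [← hab]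
  have hc0 : (φ c) ^ p ^ s1 ≠ 0 := by
    refine pow_ne_zero _ ((map_ne_zero φ).2 fun h0 => ?_)
    rw [h0, zero_pow hn.ne'] at hc1
    exact zero_ne_one hc1
  rw [map_pow, map_div₀, map_pow, pgal_comm E' hτ hφ hM.symm hφω hz, hcz, map_mul, mul_pow,
    div_pow, div_pow, mul_pow, mul_pow, h3, mul_div_mul_left _ _ hc0]

/-- `E' = E ⊔ ℚ_p(ξ)`, `ξ` a primitive root of unity of order `p ^ 2`; `f = (finrank E')!`;
`kum_mem`, `UAP.norm_pow_factorial_unram`, `UAP.exists_frobenius`, `frob_mem`. -/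
theorem gal (ι : Type) [Fintype ι] [DecidableEq ι] (E : IntermediateField ℚ_[p] ℂ_[p])
    [FiniteDimensional ℚ_[p] E] {w0 : ℕ} (hw : 0 < w0) :
    ∃ (f w e : ℕ) (E' : IntermediateField ℚ_[p] ℂ_[p]), 0 < f ∧ 0 < w ∧ 0 < e ∧
      FiniteDimensional ℚ_[p] E' ∧ ∀ q : ι → ℂ_[p], (∀ i, q i ≠ 0) →
        (∃ m : ℕ, 0 < m ∧ ∀ i, q i ^ m ∈ E) → (∀ c, Good E q c → ∀ i, c i ^ w0 = 1) →
        (∀ i, ∃ k : ℤ, ‖q i‖ ^ e = (p : ℝ) ^ k) ∧ ∃ φ : ℂ_[p] →+* ℂ_[p], UAP.Iso φ ∧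
          (∀ a ∈ E', φ a = a) ∧ ∀ i, (q i ^ p ^ f / φ (q i)) ^ w ∈ E' := by
  have hp : p.Prime := Fact.out
  have hp2 : 0 < p ^ 2 := pow_pos hp.pos _
  obtain ⟨ξ, hξ⟩ := pgal_prim p hp2
  have hfin := UAP.finiteDimensional_sup_root E hp2 hξ.pow_eq_one
  obtain ⟨E', hE'⟩ : ∃ E' : IntermediateField ℚ_[p] ℂ_[p], E' = E ⊔ ℚ_[p]⟮ξ⟯ := ⟨_, rfl⟩
  have hE : E ≤ E' := hE' ▸ le_sup_left
  have hξE : ξ ∈ E' := hE' ▸ (le_sup_right : ℚ_[p]⟮ξ⟯ ≤ E ⊔ ℚ_[p]⟮ξ⟯)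
    (IntermediateField.mem_adjoin_simple_self _ ξ)
  rw [← hE'] at hfin
  have hroot : ∀ x : ℂ_[p], x ^ p ^ 2 = 1 → x ∈ E' := by
    intro x hx
    have : NeZero (p ^ 2) := ⟨hp2.ne'⟩
    obtain ⟨j, -, rfl⟩ := hξ.eq_pow_of_pow_eq_one hx
    exact pow_mem hξE j
  obtain ⟨w1, hw1, hfr⟩ := frob_mem E'
  refine ⟨(Module.finrank ℚ_[p] E').factorial, w0 * w1,
    w0 * (Module.finrank ℚ_[p] E').factorial, E', Nat.factorial_pos _, Nat.mul_pos hw hw1,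
    Nat.mul_pos hw (Nat.factorial_pos _), hfin, ?_⟩
  rintro q hq ⟨m, hm, hqm⟩ hg
  obtain ⟨s, r, hr, rfl⟩ := Nat.exists_eq_pow_mul_and_not_dvd hm.ne' p hp.ne_one
  have hr0 : 0 < r := Nat.pos_of_ne_zero fun h => hr (h ▸ dvd_zero p)
  obtain ⟨ω, hω⟩ := pgal_prim p hr0
  have hk := fun i => kum_mem hE hroot hq hr hqm hω hg i
  refine ⟨fun i => ?_, ?_⟩
  · obtain ⟨k, hk'⟩ := UAP.norm_pow_factorial_unram E' le_rfl hr hω (hk i)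
      (pow_ne_zero _ (hq i))
    exact ⟨k, by rw [pow_mul, ← norm_pow, hk']⟩
  · obtain ⟨φ, hφ, hφE, hφω⟩ := UAP.exists_frobenius E' le_rfl hr hω.pow_eq_one
    refine ⟨φ, hφ, hφE, fun i => ?_⟩
    have h := hfr s r _ ω (q i ^ w0) φ hr hω (pow_ne_zero _ (hq i)) (hk i)
      (by rw [← pow_mul, mul_comm, pow_mul]; exact pow_mem (hE (hqm i)) _) hφE hφω
    rwa [map_pow, ← pow_mul, mul_comm w0, pow_mul, ← div_pow, ← pow_mul] at h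

end Pool.Agent.E7
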