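import Pool.Agent.Lib.MP_7e5527_ag.E7.PPt

/-! Computations in the ultralimit. -/

open Filter Topology Polynomial
open scoped Polynomial.Bivariate

noncomputable section

namespace Pool.Agent.E7

variable {ι : Type} [Fintype ι] [DecidableEq ι] {p : ℕ} [Fact p.Prime] {C : Cone ι} {Q : Type}
  [CommRing Q]

variable {K : Type} [NormedField K] [NormedAlgebra ℂ_[p] K] [CompleteSpace K]
  [IsUltrametricDist K]

variable {U : Ultrafilter ℕ} (L : ULim p U K) {x x' : ℕ → ℂ_[p]}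

theorem pul_bdd_const (c : ℂ_[p]) : Bdd fun _ => c := ⟨‖c‖, fun _ => le_rfl⟩

theorem pul_bdd_add (hx : Bdd x) (hx' : Bdd x') : Bdd fun n => x n + x' n := by
  obtain ⟨B, hB⟩ := hx
  obtain ⟨B', hB'⟩ := hx'
  exact ⟨B + B', fun n => (norm_add_le _ _).trans (add_le_add (hB n) (hB' n))⟩

theorem pul_bdd_mul (hx : Bdd x) (hx' : Bdd x') : Bdd fun n => x n * x' n := by
  obtain ⟨B, hB⟩ := hx
  obtain ⟨B', hB'⟩ := hx'
  refine ⟨B * B', fun n => ?_⟩
  rw [norm_mul]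
  exact mul_le_mul (hB n) (hB' n) (norm_nonneg _) ((norm_nonneg _).trans (hB n))

theorem pul_bdd_sub (hx : Bdd x) (hx' : Bdd x') : Bdd fun n => x n - x' n := by
  obtain ⟨B, hB⟩ := hx
  obtain ⟨B', hB'⟩ := hx'
  exact ⟨B + B', fun n => (norm_sub_le _ _).trans (add_le_add (hB n) (hB' n))⟩

theorem pul_bdd_pow (hx : Bdd x) (k : ℕ) : Bdd fun n => x n ^ k := by
  obtain ⟨B, hB⟩ := hx
  refine ⟨B ^ k, fun n => ?_⟩
  rw [norm_pow]
  exact pow_le_pow_left₀ (norm_nonneg _) (hB n) k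

theorem pul_sub (hx : Bdd x) (hx' : Bdd x') :
    L.lim (fun n => x n - x' n) = L.lim x - L.lim x' := by
  have h := L.add _ _ (pul_bdd_sub hx hx') hx'
  simp only [sub_add_cancel] at h
  exact eq_sub_of_add_eq h.symm

theorem pul_norm_le {B : ℝ} (h : ∀ n, ‖x n‖ ≤ B) : ‖L.lim x‖ ≤ B :=
  le_of_tendsto' (L.norm x ⟨B, h⟩) h

theorem pul_norm_eq {r : ℝ} (h : ∀ n, ‖x n‖ = r) : ‖L.lim x‖ = r := by
  have h1 := L.norm x ⟨r, fun n => (h n).le⟩
  simp only [h] at h1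
  exact tendsto_nhds_unique h1 tendsto_const_nhds

theorem pul_inv {r : ℝ} (hr : r ≠ 0) (h : ∀ n, ‖x n‖ = r) :
    (Bdd fun n => (x n)⁻¹) ∧ L.lim (fun n => (x n)⁻¹) = (L.lim x)⁻¹ := by
  have h1 : Bdd fun n => (x n)⁻¹ := ⟨r⁻¹, fun n => by rw [norm_inv, h n]⟩
  refine ⟨h1, ?_⟩
  have h2 := L.mul _ _ h1 ⟨r, fun n => (h n).le⟩
  have h3 : (fun n => (x n)⁻¹ * x n) = fun _ => 1 :=
    funext fun n => inv_mul_cancel₀ (by rw [← norm_ne_zero_iff, h n]; exact hr)
  rw [h3, L.const, map_one] at h2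
  exact eq_inv_of_mul_eq_one_left h2.symm

theorem pul_sum {α : Type} (s : Finset α) {f : α → ℕ → ℂ_[p]} (h : ∀ a, Bdd (f a)) :
    (Bdd fun n => ∑ a ∈ s, f a n) ∧ L.lim (fun n => ∑ a ∈ s, f a n) = ∑ a ∈ s, L.lim (f a) := by
  classical
  induction s using Finset.induction_on with
  | empty => simpa using ⟨pul_bdd_const 0, by simpa using L.const 0⟩
  | insert a s ha ih =>
    simp only [Finset.sum_insert ha]
    exact ⟨pul_bdd_add (h a) ih.1, by rw [L.add _ _ (h a) ih.1, ih.2]⟩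

theorem pul_prod {α : Type} (s : Finset α) {f : α → ℕ → ℂ_[p]} (h : ∀ a, Bdd (f a)) :
    (Bdd fun n => ∏ a ∈ s, f a n) ∧ L.lim (fun n => ∏ a ∈ s, f a n) = ∏ a ∈ s, L.lim (f a) := by
  classical
  induction s using Finset.induction_on with
  | empty => simpa using ⟨pul_bdd_const 1, by simpa using L.const 1⟩
  | insert a s ha ih =>
    simp only [Finset.prod_insert ha]
    exact ⟨pul_bdd_mul (h a) ih.1, by rw [L.mul _ _ (h a) ih.1, ih.2]⟩

theorem ULim.eq_iff (hx : Bdd x) (c : ℂ_[p]) :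
    L.lim x = algebraMap ℂ_[p] K c ↔ Tendsto x U (𝓝 c) := by
  have h1 := L.norm _ (pul_bdd_sub hx (pul_bdd_const c))
  rw [pul_sub L hx (pul_bdd_const c), L.const] at h1
  rw [tendsto_iff_norm_sub_tendsto_zero, ← sub_eq_zero, ← norm_eq_zero]
  exact ⟨fun h => h ▸ h1, fun h => tendsto_nhds_unique h1 h⟩

theorem ULim.pow (hx : Bdd x) (k : ℕ) : L.lim (fun n => x n ^ k) = L.lim x ^ k := by
  induction k with
  | zero => simpa using L.const 1
  | succ k ih =>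
    simp only [pow_succ]
    rw [L.mul _ _ (pul_bdd_pow hx k) hx, ih]

theorem pul_zpow {r : ℝ} (hr : r ≠ 0) (h : ∀ n, ‖x n‖ = r) (k : ℤ) :
    (Bdd fun n => x n ^ k) ∧ L.lim (fun n => x n ^ k) = L.lim x ^ k := by
  have hx : Bdd x := ⟨r, fun n => (h n).le⟩
  obtain ⟨k, rfl | rfl⟩ := k.eq_nat_or_neg
  · simp only [zpow_natCast]
    exact ⟨pul_bdd_pow hx k, L.pow hx k⟩
  · simp only [zpow_neg, zpow_natCast, ← inv_pow]
    obtain ⟨h1, h2⟩ := pul_inv L hr h
    exact ⟨pul_bdd_pow h1 k, by rw [L.pow h1 k, h2]⟩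

theorem pul_eval (hx : Bdd x) (P : ℂ_[p][X]) :
    (Bdd fun n => P.eval (x n)) ∧ L.lim (fun n => P.eval (x n)) = aeval (L.lim x) P := by
  induction P using Polynomial.induction_on' with
  | add P R h1 h2 =>
    simp only [eval_add, map_add]
    exact ⟨pul_bdd_add h1.1 h2.1, by rw [L.add _ _ h1.1 h2.1, h1.2, h2.2]⟩
  | monomial k c =>
    simp only [eval_monomial, aeval_monomial]
    exact ⟨pul_bdd_mul (pul_bdd_const c) (pul_bdd_pow hx k),
      by rw [L.mul _ _ (pul_bdd_const c) (pul_bdd_pow hx k), L.const, L.pow hx]⟩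

theorem ULim.evalEval (hx : Bdd x) (hx' : Bdd x') (P : ℂ_[p][X][Y]) :
    P.aevalAeval (L.lim x) (L.lim x') = L.lim fun n => P.evalEval (x n) (x' n) := by
  have h : (Bdd fun n => P.evalEval (x n) (x' n)) ∧
      L.lim (fun n => P.evalEval (x n) (x' n)) = P.aevalAeval (L.lim x) (L.lim x') := by
    induction P using Polynomial.induction_on' with
    | add P R h1 h2 =>
      simp only [evalEval_add, map_add]
      exact ⟨pul_bdd_add h1.1 h2.1, by rw [L.add _ _ h1.1 h2.1, h1.2, h2.2]⟩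
    | monomial k c =>
      obtain ⟨h1, h2⟩ := pul_eval L hx c
      simp only [← C_mul_X_pow_eq_monomial, evalEval_mul, evalEval_pow, evalEval_C, evalEval_X,
        map_mul, map_pow, aevalAeval_C, aevalAeval_Y]
      exact ⟨pul_bdd_mul h1 (pul_bdd_pow hx' k),
        by rw [L.mul _ _ h1 (pul_bdd_pow hx' k), h2, L.pow hx']⟩
  exact h.2.symm

theorem Pt.bdd {q : ℕ → ι → ℂ_[p]} {y : ι → ℚ} (hq : ∀ n, Pt p (q n) y) (i : ι) :
    Bdd fun n => q n i := by
  exact ⟨_, fun n => (hq n i).le⟩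

theorem ULim.pt {q : ℕ → ι → ℂ_[p]} {y : ι → ℚ} (hq : ∀ n, Pt p (q n) y) :
    Pt p (fun i => L.lim fun n => q n i) y := by
  exact fun i => pul_norm_eq L fun n => hq n i

theorem pul_mon {q : ℕ → ι → ℂ_[p]} {y : ι → ℚ} (hq : ∀ n, Pt p (q n) y) (T : ι → ℤ) :
    (Bdd fun n => mon (q n) T) ∧
      L.lim (fun n => mon (q n) T) = mon (fun i => L.lim fun n => q n i) T := by
  have h := fun i => pul_zpow L (Real.rpow_pos_of_pos (one_pos.trans one_lt_p) _).ne'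
    (fun n => hq n i) (T i)
  obtain ⟨h1, h2⟩ := pul_prod L Finset.univ fun i => (h i).1
  exact ⟨h1, h2.trans (Finset.prod_congr rfl fun i _ => (h i).2)⟩

theorem pul_tail {α G : Type} [NormedAddCommGroup G] [CompleteSpace G] [IsUltrametricDist G]
    {f : α → G} {a : G} (hf : HasSum f a) (s : Finset α) {ε : ℝ} (hε : 0 ≤ ε)
    (h : ∀ T ∉ s, ‖f T‖ ≤ ε) : ‖a - ∑ T ∈ s, f T‖ ≤ ε := by
  rw [← hf.tsum_eq, ← hf.summable.sum_add_tsum_compl (s := s), add_sub_cancel_left]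
  exact IsUltrametricDist.norm_tsum_le_of_forall_le_of_nonneg hε fun T => h _ T.2

/-- The series converge uniformly on the points of valuation `y`. -/
theorem ULim.ev (S : SR p C Q) {q : ℕ → ι → ℂ_[p]} {y : ι → ℚ} (hq : ∀ n, Pt p (q n) y)
    (hy : y ∈ C.Om) (F : Q) :
    S.ev (mon fun i => L.lim fun n => q n i) F = L.lim fun n => S.ev (mon (q n)) F := by
  have hP := L.pt hq
  have hb : Bdd fun n => S.ev (mon (q n)) F := by
    obtain ⟨B, hB⟩ := S.norm_ev_bound (K := ℂ_[p]) F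
    exact ⟨B, fun n => hB _ _ (hq n) hy⟩
  rw [← sub_eq_zero, ← norm_le_zero_iff]
  refine le_of_forall_pos_le_add fun ε hε => ?_
  have h1 := (NormedAddGroup.tendsto_nhds_zero.1 (S.tendsto_term (hP.adm hy) F)) ε hε
  rw [eventually_cofinite] at h1
  have h2 : ∀ T ∉ h1.toFinset, ‖S.co F T • mon (fun i => L.lim fun n => q n i) T‖ ≤ ε :=
    fun T hT => by
      rw [Set.Finite.mem_toFinset, Set.mem_ofPred_eq, not_not] at hT
      exact hT.le
  have h3 := pul_tail (S.hasSum_ev (hP.adm hy) F) _ hε.le h2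
  have h4 : ∀ n, ‖S.ev (mon (q n)) F - ∑ T ∈ h1.toFinset, S.co F T • mon (q n) T‖ ≤ ε :=
    fun n => pul_tail (S.hasSum_ev ((hq n).adm hy) F) _ hε.le fun T hT => by
      have h5 := h2 T hT
      rwa [norm_smul, hP.norm_mon, ← (hq n).norm_mon, ← norm_smul] at h5
  have h5 := fun T => pul_bdd_mul (pul_bdd_const (S.co F T)) (pul_mon L hq T).1
  obtain ⟨h6, h7⟩ := pul_sum L h1.toFinset h5
  have h8 := pul_norm_le L h4
  simp only [smul_eq_mul] at h8
  rw [pul_sub L hb h6, h7] at h8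
  have h9 : ∑ T ∈ h1.toFinset, (L.lim fun n => S.co F T * mon (q n) T) =
      ∑ T ∈ h1.toFinset, S.co F T • mon (fun i => L.lim fun n => q n i) T :=
    Finset.sum_congr rfl fun T _ => by
      rw [L.mul _ _ (pul_bdd_const _) (pul_mon L hq T).1, L.const, (pul_mon L hq T).2,
        Algebra.smul_def]
  rw [h9, norm_sub_rev] at h8
  rw [zero_add, ← sub_add_sub_cancel]
  exact (IsUltrametricDist.norm_add_le_max _ _).trans (max_le h3 h8)

theorem ULim.xc (S : SR p C Q) {q : ℕ → ι → ℂ_[p]} {y : ι → ℚ} (hq : ∀ n, Pt p (q n) y)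
    (hy : y ∈ C.Om) (i : ι) :
    S.xc (fun i => L.lim fun n => q n i) i = L.lim fun n => S.xc (q n) i := by
  have hb : Bdd fun n => S.ev (mon (q n)) (S.th i) := by
    obtain ⟨B, hB⟩ := S.norm_ev_bound (K := ℂ_[p]) (S.th i)
    exact ⟨B, fun n => hB _ _ (hq n) hy⟩
  obtain ⟨h1, h2⟩ := pul_inv L one_ne_zero fun n => S.norm_ev_th0 (hq n) hy
  simp only [SR.xc, div_eq_mul_inv]
  rw [L.mul _ _ hb h1, h2, L.ev S hq hy, L.ev S hq hy]

end Pool.Agent.E7
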