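import Pool.Agent.Lib.MP_7e5527_ag.E7.PCaseI
import Pool.Agent.Lib.MP_7e5527_ag.E7.PGal
import Pool.Agent.Lib.MP_7e5527_ag.E7.PBU
import Pool.Agent.Lib.MP_7e5527_ag.E7.PBR
import Pool.Agent.Lib.MP_7e5527_ag.E7.PUl
import Pool.Agent.Lib.MP_7e5527_ag.E7.PCst
import Pool.Agent.Lib.MP_7e5527_ag.E7.PConv

/-! The case of bounded torsion cosets. -/

open Filter Topology Polynomial
open scoped Polynomial.Bivariate

noncomputable section

namespace Pool.Agent.E7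

variable {ι : Type} [Fintype ι] [DecidableEq ι] {p : ℕ} [Fact p.Prime] {C : Cone ι} {Q : Type}
  [CommRing Q]

variable {S : SR p C Q} {κ : Type}

/-- `U = hyperfilter ℕ`. If `xc i1` converges: `caseI`. Otherwise `rigid` in the ultralimit and
`Data.conv`. -/
theorem caseB0 [Nontrivial ι] (D : Data S κ) {y : ι → ℚ} (hy : ∀ n, D.y n = y)
    (E' : IntermediateField ℚ_[p] ℂ_[p]) [FiniteDimensional ℚ_[p] E'] {f w : ℕ} (hf : 0 < f)
    (hw : 0 < w) (φ : ℕ → ℂ_[p] →+* ℂ_[p]) (h1 : ∀ n, UAP.Iso (φ n))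
    (h2 : ∀ n, ∀ a ∈ E', φ n a = a) (h3 : ∀ n i, (D.q n i ^ p ^ f / φ n (D.q n i)) ^ w ∈ E') :
    False := by
  obtain ⟨U, hU⟩ : ∃ U : Ultrafilter ℕ, (U : Filter ℕ) ≤ cofinite := ⟨_, hyperfilter_le_cofinite⟩
  have key : ¬ ∃ c, Tendsto (fun n => S.xc (D.q n) D.i1) U (𝓝 c) := fun ⟨c, hc⟩ =>
    caseI D hU D.i1 c hc (D.ne_ev hU c)
  obtain ⟨K, _, _, _, _, ⟨L⟩⟩ := exists_ulim (p := p) U
  have hq : ∀ n, Pt p (D.q n) y := fun n => hy n ▸ D.pt n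
  have hs : y ∈ C.Sg := hy 0 ▸ D.sg 0
  have ho := C.sub hs
  have hx : ∀ n, Pt p (S.xc (D.q n)) y := fun n => S.pt_xc (hq n) hs
  obtain ⟨Φ, a1, a2⟩ := L.aut φ h1
  have hb : ∀ i, Bdd fun n => D.q n i ^ p ^ f / φ n (D.q n i) := fun i =>
    ⟨_, fun n => by rw [norm_div, norm_pow, h1 n, hq n i]⟩
  choose v hv using fun i => conv_of_pow_mem E' U (hb i) hw fun n => h3 n i
  have h0 : L.lim (fun _ => 0) = 0 := (L.const 0).trans (map_zero _)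
  have hp : ‖(p : ℂ_[p])‖ < 1 := by
    rw [← map_natCast (algebraMap ℚ_[p] ℂ_[p]), norm_algebraMap']
    exact Padic.norm_p_lt_one
  have h4 := rigid S D.orc (L.pt hq) hs (fun j => by simp only [L.ev S hq ho, D.van, h0]) D.i1
    (fun c e => key ⟨c, (L.eq_iff (Pt.bdd hx _) c).1 ((L.xc S hq ho _).symm.trans e)⟩)
    (fun j => (D.rel D.i1 j).imp fun P h => ⟨h.1, by
      simp only [L.xc S hq ho, L.evalEval (Pt.bdd hx _) (Pt.bdd hx _), h.2, h0]⟩) Φ a1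
    (map_cst_mem Φ a1 fun a => by
      rw [← L.const, a2 _ ⟨_, fun _ => le_rfl⟩]
      simp only [h2 _ _ (E'.algebraMap_mem a)]) (pow_pos (Fact.out : p.Prime).pos f) (by
      rw [Nat.cast_pow, norm_pow]
      exact pow_lt_one₀ (norm_nonneg _) hp hf.ne') v fun i => by
      rw [a2 _ (Pt.bdd hq i), ← (L.eq_iff (hb i) _).2 (hv i), ← L.pow (Pt.bdd hq i),
        ← L.mul _ _ ((Pt.bdd hq i).imp fun _ h n => (h1 n _).trans_le (h n)) (hb i)]
      exact congrArg L.lim (funext fun n =>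
        mul_div_cancel₀ _ ((map_ne_zero (φ n)).2 ((hq n).ne_zero i)))
  obtain ⟨B, hB⟩ := S.norm_ev_bound (K := ℂ_[p]) (D.ψ 1)
  exact key (D.conv U 1 ((L.eq_iff ⟨B, fun n => hB _ _ (hq n) ho⟩ 0).1
    (((L.ev S hq ho _).symm.trans h4).trans (map_zero _).symm)))

theorem caseB [Nontrivial ι] (D : Data S κ) (hb : ∃ R : ℚ, ∀ n i, D.y n i ≤ R) {w0 : ℕ}
    (hw : 0 < w0) (hg : ∀ n c, Good D.E (D.q n) c → ∀ i, c i ^ w0 = 1) : False := by
  have := D.finE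
  obtain ⟨f, w, e, E', hf, hw', he, hE, h⟩ := gal ι D.E hw
  choose h1 φ h2 h3 h4 using fun n => h (D.q n) (D.pt n).ne_zero (D.kum n) (hg n)
  obtain ⟨R, hR⟩ := hb
  obtain ⟨g, y0, hg1, hg2⟩ := exists_const he (fun n => C.y_pos (D.om n)) hR
    fun n i => (D.pt n).int (h1 n i)
  exact caseB0 (D.comp g hg1) hg2 E' hf hw' (fun n => φ (g n)) (fun n => h2 _) (fun n => h3 _)
    fun n => h4 _

end Pool.Agent.E7
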