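import Pool.Agent.Lib.MP_7e5527_ag.E7.PLg

/-! The logarithm on the field and on bounded series. -/

open Filter Topology Polynomial
open scoped Polynomial.Bivariate

noncomputable section

namespace Pool.Agent.E7

variable {ι : Type} [Fintype ι] [DecidableEq ι] {p : ℕ} [Fact p.Prime] {C : Cone ι} {Q : Type}
  [CommRing Q]

/-- The principal units of a complete ultrametric field. -/
def plog_pu (p : ℕ) [Fact p.Prime] : Subgroup ℂ_[p]ˣ where
  carrier := {u | ‖(u : ℂ_[p]) - 1‖ < 1}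
  one_mem' := by simp
  mul_mem' := by
    intro a b ha hb
    simp only [Set.mem_ofPred_eq, Units.val_mul] at *
    have he : (a : ℂ_[p]) * b - 1 = (a - 1) * (b - 1) + ((a - 1) + (b - 1)) := by ring
    rw [he]
    refine (IsUltrametricDist.norm_add_le_max _ _).trans_lt (max_lt ?_ ?_)
    · rw [norm_mul]
      exact mul_lt_one_of_nonneg_of_lt_one_left (norm_nonneg _) ha hb.le
    · exact (IsUltrametricDist.norm_add_le_max _ _).trans_lt (max_lt ha hb)
  inv_mem' := by
    intro a ha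
    simp only [Set.mem_ofPred_eq, Units.val_inv_eq_inv_val] at *
    have h1 : ‖(a : ℂ_[p])‖ = 1 := by
      have he : (a : ℂ_[p]) = (a - 1) + 1 := by ring
      have hne : ‖(a : ℂ_[p]) - 1‖ ≠ ‖(1 : ℂ_[p])‖ := by
        rw [norm_one]
        exact ha.ne
      rw [he, IsUltrametricDist.norm_add_eq_max_of_norm_ne_norm hne, norm_one]
      exact max_eq_right ha.le
    have he : (a : ℂ_[p])⁻¹ - 1 = -((a : ℂ_[p])⁻¹ * (a - 1)) := by
      have := a.ne_zero
      field_simp
      ring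
    rw [he, norm_neg, norm_mul, norm_inv, h1, inv_one, one_mul]
    exact ha

theorem plog_mul {u v a b : ℂ_[p]} (hv : ‖v - 1‖ < 1)
    (ha : Tendsto (fun k : ℕ => ((p : ℂ_[p]) ^ k)⁻¹ • (u ^ p ^ k - 1)) atTop (𝓝 a))
    (hb : Tendsto (fun k : ℕ => ((p : ℂ_[p]) ^ k)⁻¹ • (v ^ p ^ k - 1)) atTop (𝓝 b)) :
    Tendsto (fun k : ℕ => ((p : ℂ_[p]) ^ k)⁻¹ • ((u * v) ^ p ^ k - 1)) atTop (𝓝 (a + b)) := by
  have h1 := tendsto_ppow p hv
  have h2 := (ha.mul h1).add hb
  rw [mul_one] at h2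
  refine h2.congr fun k => ?_
  simp only [smul_eq_mul, mul_pow]
  ring

/-- The limit is additive on principal units; extend it by the criterion of Baer. -/
theorem exists_Lg (p : ℕ) [Fact p.Prime] : ∃ Lg : ℂ_[p] → ℂ_[p], IsLog Lg ∧ ∀ u : ℂ_[p],
    ‖u - 1‖ < 1 →
      Tendsto (fun k : ℕ => ((p : ℂ_[p]) ^ k)⁻¹ • (u ^ p ^ k - 1)) atTop (𝓝 (Lg u)) := by
  classical
  have hex : ∀ u : plog_pu p, ∃ l : ℂ_[p], Tendsto
      (fun k : ℕ => ((p : ℂ_[p]) ^ k)⁻¹ • (((u : ℂ_[p]ˣ) : ℂ_[p]) ^ p ^ k - 1)) atTop (𝓝 l) :=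
    fun u => exists_lg (A := ℂ_[p]) u.2
  choose l hl using hex
  have hadd : ∀ u v : plog_pu p, l (u * v) = l u + l v := fun u v =>
    tendsto_nhds_unique (hl (u * v)) (by simpa using plog_mul v.2 (hl u) (hl v))
  let g : Additive (plog_pu p) →+ ℂ_[p] :=
    AddMonoidHom.mk' (fun u => l u.toMul) fun u v => hadd _ _
  let f : Additive (plog_pu p) →+ Additive ℂ_[p]ˣ := MonoidHom.toAdditive (plog_pu p).subtype
  have hf : Function.Injective f := fun a b hab =>
    Additive.toMul.injective (Subtype.ext (Additive.ofMul.injective hab))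
  obtain ⟨F, hF⟩ := (Module.Baer.of_divisible ℂ_[p]).extension_property_addMonoidHom f hf g
  refine ⟨fun x => if h : x = 0 then 0 else F (Additive.ofMul (Units.mk0 x h)), ?_, ?_⟩
  · intro x y hx hy
    simp only [dif_neg hx, dif_neg hy, dif_neg (mul_ne_zero hx hy)]
    rw [← map_add, ← ofMul_mul, Units.mk0_mul]
  · intro u hu
    have h0 : u ≠ 0 := by
      rintro rfl
      simp at hu
    have hm : Units.mk0 u h0 ∈ plog_pu p := hu
    have he : F (Additive.ofMul (Units.mk0 u h0)) = l ⟨Units.mk0 u h0, hm⟩ :=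
      DFunLike.congr_fun hF (Additive.ofMul ⟨Units.mk0 u h0, hm⟩)
    simp only [dif_neg h0, he]
    exact hl ⟨Units.mk0 u h0, hm⟩

theorem IsLog.one {Lg : ℂ_[p] → ℂ_[p]} (h : IsLog Lg) : Lg 1 = 0 := by
  have h1 := h 1 1 one_ne_zero one_ne_zero
  rw [mul_one] at h1
  exact left_eq_add.mp h1

theorem IsLog.zpow {Lg : ℂ_[p] → ℂ_[p]} (h : IsLog Lg) {x : ℂ_[p]} (hx : x ≠ 0) (k : ℤ) :
    Lg (x ^ k) = k * Lg x := by
  induction k using Int.induction_on with
  | zero => simp [h.one]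
  | succ n ih =>
    rw [zpow_add_one₀ hx, h _ _ (zpow_ne_zero _ hx) hx, ih]
    push_cast
    ring
  | pred n ih =>
    have h1 := h (x ^ (-(n : ℤ) - 1)) x (zpow_ne_zero _ hx) hx
    rw [← zpow_add_one₀ hx, sub_add_cancel, ih] at h1
    push_cast at h1 ⊢
    linear_combination -h1

theorem exists_log {A : Type} [NormedCommRing A] [NormOneClass A] [NormedAlgebra ℂ_[p] A]
    [CompleteSpace A] [IsUltrametricDist A] (B : BS p A) : ∃ Lg : ℂ_[p] → ℂ_[p], IsLog Lg ∧
    ∀ U : A, ‖U - 1‖ < 1 →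
      ∃ lam : A, B.dt lam * U = B.dt U ∧ ∀ s, B.ev s lam = Lg (B.ev s U) := by
  obtain ⟨Lg, hLg, hlim⟩ := exists_Lg p
  refine ⟨Lg, hLg, fun U hU => ?_⟩
  obtain ⟨lam, hlam⟩ := exists_lg (p := p) hU
  have hp : (p : ℂ_[p]) ≠ 0 := Nat.cast_ne_zero.mpr (Fact.out : p.Prime).ne_zero
  refine ⟨lam, ?_, fun s => ?_⟩
  · have h1 := ((B.dt_cont.tendsto lam).comp hlam).mul_const U
    have h2 := (tendsto_ppow p hU).mul_const (B.dt U)
    rw [one_mul] at h2
    refine tendsto_nhds_unique h1 (h2.congr fun k => ?_)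
    have hk : p ^ k - 1 + 1 = p ^ k :=
      Nat.sub_add_cancel (Nat.one_le_pow _ _ (Fact.out : p.Prime).pos)
    simp only [Function.comp, Derivation.map_smul, map_sub, Derivation.map_one_eq_zero, sub_zero,
      Derivation.leibniz_pow]
    rw [← Nat.cast_smul_eq_nsmul ℂ_[p], smul_smul, Nat.cast_pow, inv_mul_cancel₀ (pow_ne_zero _ hp),
      one_smul, smul_eq_mul, mul_right_comm, ← pow_succ, hk]
  · have hc : Continuous (B.ev s) :=
      AddMonoidHomClass.continuous_of_bound (B.ev s) 1 fun f => by simpa using B.ev_le s f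
    have h1 := (hc.tendsto lam).comp hlam
    have hu : ‖B.ev s U - 1‖ < 1 := by
      have := B.ev_le s (U - 1)
      rw [map_sub, map_one] at this
      exact this.trans_lt hU
    refine tendsto_nhds_unique h1 ((hlim _ hu).congr fun k => ?_)
    simp only [Function.comp, map_smul, map_sub, map_pow, map_one]

end Pool.Agent.E7
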