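import Pool.Agent.Lib.MP_7e5527_ag.E7.PArc
import Pool.Agent.Lib.MP_7e5527_ag.E7.PBr2
import Pool.Agent.Lib.MP_7e5527_ag.E7.PLog
import Pool.Agent.Lib.MP_7e5527_ag.E7.PSer

/-! The case of a convergent coordinate. -/

open Filter Topology Polynomial
open scoped Polynomial.Bivariate

noncomputable section

namespace Pool.Agent.E7

variable {ι : Type} [Fintype ι] [DecidableEq ι] {p : ℕ} [Fact p.Prime] {C : Cone ι} {Q : Type}
  [CommRing Q]

variable {S : SR p C Q} {κ : Type}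

/-- `ε = evHom h.adm`, derivation `t d/dt`, `lam i = Lg (cc i) + log (g i)`. `D.lgr` and `InvDir` give
the polynomial relation (first over `ℂ_p` at the `t n`, then `B.zero`, then in `A[X]`). If all
`a i + D (lam i)` vanish then `ε th0`, `ε (th i1)` are constants (`B.const`), against `D.ne_ev`.
Finish with `D.absurd`. -/
theorem arcI {A : Type} [NormedCommRing A] [NormOneClass A] [NormedAlgebra ℂ_[p] A]
    [CompleteSpace A] [IsUltrametricDist A] [IsDomain A] {B : BS p A} (D : Data S κ)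
    {U : Ultrafilter ℕ} (hU : (U : Filter ℕ) ≤ cofinite) {n0 : ℕ} {t : ℕ → ℂ_[p]}
    {cc : ι → ℂ_[p]} {a : ι → ℤ} {g : ι → Aˣ} (h : PArc B U D.q n0 t cc a g) : False := by
  have hadm : Adm C (B.mon cc a g) := h.adm D.pt D.om
  have hnn : ∀ T ∈ C.Lp, 0 ≤ ipZ T a := fun T hT =>
    h.nonneg D.pt fun n => C.ip_nonneg (D.om n) hT
  have hev : ∀ᶠ n in (U : Filter ℕ), ∀ F,
      B.ev (t n) (S.evHom hadm F) = S.ev (mon (D.q n)) F := by
    filter_upwards [h.ev_mon] with n hn F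
    rw [S.evHom_apply, S.ev_map_alg hadm _ (B.ev_cont _)]
    exact S.ev_congr (fun T hT => hn T (hnn T hT)) F
  obtain ⟨Lg, hL, hlog⟩ := exists_log B
  choose l hl1 hl2 using fun i => hlog (g i) (h.one i)
  obtain ⟨lam, hlam⟩ : ∃ lam : ι → A, ∀ i, lam i = algebraMap ℂ_[p] A (Lg (cc i)) + l i :=
    ⟨_, fun _ => rfl⟩
  have hd : ∀ i, B.dt (lam i) * g i = B.dt (g i : A) := fun i => by
    rw [hlam, map_add, Derivation.map_algebraMap, zero_add, hl1]
  have hcont : Continuous (B.t • B.dt : Derivation ℂ_[p] A A) :=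
    (continuous_const (y := B.t)).mul B.dt_cont
  have hder := S.ev_der hadm (B.t • B.dt) hcont (fun i => (a i : A) + (B.t • B.dt) (lam i))
    fun T hT => B.der_mon cc a g lam hd (hnn T hT)
  obtain ⟨P, hP0, hPi, hP⟩ := D.lgr Lg hL U (D.y n0) (fun i => (a i : ℚ)) (h.line D.pt)
  have hA : MvPolynomial.aeval lam P = 0 := by
    refine B.zero _ U t h.lim ?_
    filter_upwards [h.eq, hP] with n ⟨h1, _, h3⟩ h4
    refine ⟨h1, ?_⟩
    have h5 : ∀ i, Lg (D.q n i) =
        B.ev (t n) (lam i) + algebraMap ℂ_[p] ℂ_[p] (((a i : ℚ) : ℂ_[p])) * Lg (t n) := by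
      intro i
      have h6 : cc i ≠ 0 := (h.pt D.pt).ne_zero i
      have h7 : B.ev (t n) (g i) ≠ 0 := ((g i).isUnit.map (B.ev (t n))).ne_zero
      have h8 := zpow_ne_zero (a i) h1
      rw [h3, hL _ _ (mul_ne_zero h6 h8) h7, hL _ _ h6 h8, hL.zpow h1, hlam, map_add,
        AlgHom.commutes, hl2]
      simp only [Algebra.algebraMap_self, RingHom.id_apply, Rat.cast_intCast]
      ring
    rw [MvPolynomial.comp_aeval_apply, ← hPi ℂ_[p] _ (Lg (t n)), ← h4]
    simp only [← h5]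
    rfl
  have ht : B.t ≠ 0 := fun e => by
    have h1 := B.dt_t
    rw [e, map_zero] at h1
    exact zero_ne_one h1
  have hψ := D.orc A (B.t • B.dt) (S.evHom hadm) (fun i => (a i : A)) lam (S.ev_cst hadm)
    (fun i => Derivation.map_intCast _ _) hder (fun j => ?_) (fun e => ?_) ?_ _
    (MvPolynomial.map (algebraMap ℂ_[p] A) P) (fun e => hP0 ?_) le_rfl (fun m => ?_) ?_
  · refine D.absurd hU (MvPolynomial.map (algebraMap ℂ_[p] A) P).totalDegree ?_
    filter_upwards [hev] with n hn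
    rw [← hn, hψ, map_zero]
  · refine B.zero _ U t h.lim ?_
    filter_upwards [h.eq, hev] with n h1 h2
    exact ⟨h1.1, by rw [h2, D.van]⟩
  · obtain ⟨n, hn⟩ := hev.exists
    have h1 := S.norm_ev_th0 (D.pt n) (D.om n)
    rw [← hn, e, map_zero, norm_zero] at h1
    exact zero_ne_one h1
  · by_contra hc
    push Not at hc
    have h1 : ∀ F s, B.ev s (S.evHom hadm F) = B.ev 0 (S.evHom hadm F) := fun F => by
      refine B.const _ ((mul_eq_zero.1 ?_).resolve_left ht)
      have h2 := hder F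
      simp only [hc, mul_zero, Finset.sum_const_zero] at h2
      exact h2
    obtain ⟨n, h2, h3⟩ := (hev.and (D.ne_ev hU
      (B.ev 0 (S.evHom hadm (S.th D.i1)) / B.ev 0 (S.evHom hadm S.th0)))).exists
    exact h3 (by rw [SR.xc, ← h2, ← h2, h1, h1 S.th0])
  · exact MvPolynomial.map_injective _ (algebraMap ℂ_[p] A).injective (e.trans (map_zero _).symm)
  · rw [MvPolynomial.coeff_map, Derivation.map_algebraMap]
  · have h1 := MvPolynomial.comp_aeval_apply lam (IsScalarTower.toAlgHom ℂ_[p] A A[X]) P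
    rw [hA, map_zero, ← hPi A[X] _ X] at h1
    rw [MvPolynomial.aeval_map_algebraMap, h1]
    congr 2
    funext i
    simp [add_comm]

theorem caseI (D : Data S κ) {U : Ultrafilter ℕ} (hU : (U : Filter ℕ) ≤ cofinite) (i0 : ι)
    (c : ℂ_[p]) (hc : Tendsto (fun n => S.xc (D.q n) i0) U (𝓝 c))
    (hne : ∀ᶠ n in (U : Filter ℕ), S.xc (D.q n) i0 ≠ c) : False := by
  obtain ⟨A, _, _, _, _, _, _, ⟨B⟩⟩ := exists_bs p
  obtain ⟨n0, t, cc, a, g, h⟩ := branch B U (fun n => S.xc (D.q n))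
    (fun n => (D.pt_xc n).ne_zero) i0 c hc hne (D.rel i0)
  obtain ⟨g', h'⟩ := D.lift h
  exact arcI D hU h'

end Pool.Agent.E7
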