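import Pool.Agent.Lib.MP_7e5527_ag.E7.PDefs
import Pool.Agent.Lib.MP_7e5527_ag.Ev

/-! Evaluation of series. -/

open Filter Topology Polynomial
open scoped Polynomial.Bivariate

noncomputable section

namespace Pool.Agent.E7

variable {ι : Type} [Fintype ι] [DecidableEq ι] {p : ℕ} [Fact p.Prime] {C : Cone ι} {Q : Type}
  [CommRing Q]

variable {A : Type} [NormedCommRing A] [NormedAlgebra ℂ_[p] A] [CompleteSpace A]
  [IsUltrametricDist A]

/-- A strict bound for a sum in an ultrametric group. -/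
theorem norm_tsum_lt {α G : Type} [NormedAddCommGroup G] [IsUltrametricDist G] {f : α → G}
    (hf : Tendsto f cofinite (𝓝 0)) {r : ℝ} (hr : 0 < r) (h : ∀ a, ‖f a‖ < r) :
    ‖∑' a, f a‖ < r := by
  have hs : {a | r / 2 ≤ ‖f a‖}.Finite := by
    have h1 := (tendsto_zero_iff_norm_tendsto_zero.1 hf).eventually (gt_mem_nhds (half_pos hr))
    simpa only [eventually_cofinite, not_lt] using h1
  obtain ⟨r', h0, h1, h2⟩ : ∃ r', 0 ≤ r' ∧ r' < r ∧ ∀ a, ‖f a‖ ≤ r' := by
    rcases {a | r / 2 ≤ ‖f a‖}.eq_empty_or_nonempty with e | hne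
    · refine ⟨r / 2, (half_pos hr).le, half_lt_self hr, fun a => le_of_not_ge fun ha => ?_⟩
      exact (Set.eq_empty_iff_forall_notMem.1 e a) ha
    · obtain ⟨a, ha, hmax⟩ := Set.exists_max_image _ (fun a => ‖f a‖) hs hne
      refine ⟨‖f a‖, norm_nonneg _, h a, fun b => ?_⟩
      rcases le_total (r / 2) ‖f b‖ with hb | hb
      · exact hmax b hb
      · exact hb.trans ha
  exact (IsUltrametricDist.norm_tsum_le_of_forall_le_of_nonneg h0 h2).trans_lt h1

namespace SR

variable (S : SR p C Q) {μ : (ι → ℤ) → A}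

/-- The coefficients are integer combinations of finitely many numbers, hence bounded. -/
theorem bdd (F : Q) : ∃ B : ℝ, 0 ≤ B ∧ ∀ T, ‖S.co F T‖ ≤ B := by
  obtain ⟨s, hs⟩ := S.fg F
  have h0 : 0 ≤ ∑ x ∈ s, ‖x‖ := Finset.sum_nonneg fun x _ => norm_nonneg x
  refine ⟨∑ x ∈ s, ‖x‖, h0, fun T => ?_⟩
  have h := hs T
  generalize S.co F T = z at h
  induction h using Submodule.span_induction with
  | mem x hx => exact Finset.single_le_sum (f := fun x => ‖x‖) (fun x _ => norm_nonneg x) hx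
  | zero => rwa [norm_zero]
  | add x y _ _ hx hy => exact (IsUltrametricDist.norm_add_le_max x y).trans (max_le hx hy)
  | smul n x _ hx => exact (IsUltrametricDist.norm_zsmul_le x n).trans hx

theorem tendsto_term (hμ : Adm C μ) (F : Q) :
    Tendsto (fun T => S.co F T • μ T) cofinite (𝓝 0) := by
  obtain ⟨B, -, hB⟩ := S.bdd F
  have h1 : Tendsto (fun T : C.Lp => S.co F T • μ T) cofinite (𝓝 0) := by
    refine squeeze_zero_norm (a := fun T : C.Lp => B * ‖μ T‖) (fun T => ?_) ?_
    · exact (norm_smul_le _ _).trans (mul_le_mul_of_nonneg_right (hB _) (norm_nonneg _))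
    · simpa using hμ.lim.norm.const_mul B
  have h2 : Function.support (fun T => S.co F T • μ T) ⊆ C.Lp := fun T hT =>
    S.supp F T fun e => hT (by simp only [e, zero_smul])
  exact ((hasSum_subtype_iff_of_support_subset h2).1
    (NonarchimedeanAddGroup.summable_of_tendsto_cofinite_zero
      h1).hasSum).summable.tendsto_cofinite_zero

theorem hasSum_ev (hμ : Adm C μ) (F : Q) : HasSum (fun T => S.co F T • μ T) (S.ev μ F) := by
  exact (NonarchimedeanAddGroup.summable_of_tendsto_cofinite_zero (S.tendsto_term hμ F)).hasSum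

theorem ev_congr {μ' : (ι → ℤ) → A} (h : ∀ T ∈ C.Lp, μ T = μ' T) (F : Q) :
    S.ev μ F = S.ev μ' F := by
  refine tsum_congr fun T => ?_
  by_cases e : S.co F T = 0
  · rw [e, zero_smul, zero_smul]
  · rw [h T (S.supp F T e)]

theorem ev_add (hμ : Adm C μ) (F G : Q) : S.ev μ (F + G) = S.ev μ F + S.ev μ G := by
  refine (S.hasSum_ev hμ (F + G)).unique ?_
  simpa only [map_add, Pi.add_apply, add_smul] using (S.hasSum_ev hμ F).add (S.hasSum_ev hμ G)

theorem pev_conv {α : Type} [AddCommGroup α] {f g c : α → A} {a b : A} (hf : HasSum f a)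
    (hg : HasSum g b) (h : ∀ T, HasSum (fun U => f U * g (T - U)) (c T)) : HasSum c (a * b) := by
  have h0 : Summable fun x : α × α => f x.1 * g x.2 :=
    NonarchimedeanAddGroup.summable_of_tendsto_cofinite_zero
      (tendsto_mul_cofinite_nhds_zero hf.summable.tendsto_cofinite_zero
        hg.summable.tendsto_cofinite_zero)
  have h1 : HasSum (fun x : α × α => f x.1 * g x.2) (a * b) := hf.mul hg h0
  let e : α × α ≃ α × α :=
    ⟨fun x => (x.2, x.1 - x.2), fun x => (x.1 + x.2, x.1), fun x => by simp, fun x => by simp⟩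
  have h2 : HasSum (fun x : α × α => f x.2 * g (x.1 - x.2)) (a * b) := e.hasSum_iff.2 h1
  exact h2.prod_fiberwise h

theorem pev_fin (F G : Q) (T : ι → ℤ) :
    (Function.support fun U => S.co F U * S.co G (T - U)).Finite := by
  obtain ⟨y, hy⟩ := C.ne
  refine (C.fin y hy (ip T y)).subset fun U hU => ?_
  have h1 := S.supp F U (left_ne_zero_of_mul hU)
  have h2 := S.supp G _ (right_ne_zero_of_mul hU)
  refine ⟨h1, ?_⟩
  have h3 : ip T y = ip U y + ip (T - U) y := by
    simp only [ip, Pi.sub_apply, Int.cast_sub, ← Finset.sum_add_distrib]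
    exact Finset.sum_congr rfl fun i _ => by ring
  by_cases e : T - U = 0
  · rw [sub_eq_zero.1 e]
  · linarith [C.pos y hy _ h2 e]

/-- Cauchy product; the set of `S` with `S` and `T - S` in `C.Lp` is finite by `C.ne`, `C.fin`,
`C.pos`. -/
theorem ev_mul (hμ : Adm C μ) (F G : Q) : S.ev μ (F * G) = S.ev μ F * S.ev μ G := by
  refine (S.hasSum_ev hμ (F * G)).unique
    (pev_conv (S.hasSum_ev hμ F) (S.hasSum_ev hμ G) fun T => ?_)
  have h2 : HasSum (fun U => S.co F U * S.co G (T - U)) (S.co (F * G) T) := by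
    have h3 := pev_fin S F G T
    have h4 : Summable fun U => S.co F U * S.co G (T - U) := summable_of_hasFiniteSupport h3
    rw [S.co_mul]
    exact tsum_eq_finsum (L := .unconditional _) h3 ▸ h4.hasSum
  have h3 : ∀ U, S.co F U • μ U * S.co G (T - U) • μ (T - U) =
      (S.co F U * S.co G (T - U)) • μ T := by
    intro U
    by_cases e1 : S.co F U = 0
    · simp only [e1, zero_smul, zero_mul]
    by_cases e2 : S.co G (T - U) = 0
    · simp only [e2, zero_smul, mul_zero]
    rw [smul_mul_smul_comm, ← hμ.add U (S.supp F U e1) _ (S.supp G _ e2), add_sub_cancel]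
  have h4 := h2.smul_const (μ T)
  simp only [← h3] at h4
  exact h4

theorem ev_one (hμ : Adm C μ) : S.ev μ 1 = 1 := by
  rw [ev, S.co_one, tsum_eq_single 0 fun T hT => by rw [Pi.single_eq_of_ne hT, zero_smul],
    Pi.single_eq_same, one_smul, hμ.zero]

theorem ev_cst (hμ : Adm C μ) (c : ℂ_[p]) : S.ev μ (S.cst c) = algebraMap ℂ_[p] A c := by
  have h : ∀ T, S.co (S.cst c) T = c * (Pi.single 0 1 : (ι → ℤ) → ℂ_[p]) T := fun T => by
    rw [← S.co_one, ← S.co_cst, mul_one]
  rw [ev, tsum_eq_single 0 fun T hT => by rw [h, Pi.single_eq_of_ne hT, mul_zero, zero_smul], h,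
    Pi.single_eq_same, mul_one, hμ.zero, Algebra.algebraMap_eq_smul_one]

/-- Evaluation as a ring homomorphism. -/
def evHom (hμ : Adm C μ) : Q →+* A where
  toFun := S.ev μ
  map_one' := S.ev_one hμ
  map_mul' := S.ev_mul hμ
  map_zero' := by simpa using S.ev_add hμ 0 0
  map_add' := S.ev_add hμ

theorem evHom_apply (hμ : Adm C μ) (F : Q) : S.evHom hμ F = S.ev μ F := rfl

theorem norm_ev_le {F : Q} {B : ℝ} (hB : 0 ≤ B) (h : ∀ T, ‖S.co F T • μ T‖ ≤ B) :
    ‖S.ev μ F‖ ≤ B := by
  exact IsUltrametricDist.norm_tsum_le_of_forall_le_of_nonneg hB h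

theorem ev_mem (hμ : Adm C μ) {F : Q} (M : AddSubgroup A) (hM : IsClosed (M : Set A))
    (h : ∀ T, S.co F T • μ T ∈ M) : S.ev μ F ∈ M := by
  exact hM.mem_of_tendsto (S.hasSum_ev hμ F) (Eventually.of_forall fun s => sum_mem fun T _ => h T)

/-- The chain rule. -/
theorem ev_der (hμ : Adm C μ) (D : Derivation ℂ_[p] A A) (hD : Continuous D) (ω : ι → A)
    (h : ∀ T ∈ C.Lp, D (μ T) = (∑ i, (T i : A) * ω i) * μ T) (F : Q) :
    D (S.ev μ F) = ∑ i, S.ev μ (S.del i F) * ω i := by
  have h1 := (S.hasSum_ev hμ F).map D.toLinearMap.toAddMonoidHom hD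
  have h2 := hasSum_sum (s := Finset.univ) fun i _ => (S.hasSum_ev hμ (S.del i F)).mul_right (ω i)
  refine h1.unique ?_
  have h3 : (D.toLinearMap.toAddMonoidHom ∘ fun T => S.co F T • μ T) =
      fun T => ∑ i, S.co (S.del i F) T • μ T * ω i := by
    funext T
    change D (S.co F T • μ T) = _
    simp only [S.co_del]
    by_cases e : S.co F T = 0
    · simp only [e, zero_smul, map_zero, mul_zero, zero_mul, Finset.sum_const_zero]
    rw [D.map_smul, h T (S.supp F T e), Finset.sum_mul, Finset.smul_sum]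
    refine Finset.sum_congr rfl fun i _ => ?_
    simp only [Algebra.smul_def, map_mul, map_intCast]
    ring
  rw [h3]
  exact h2

end SR

variable {A' : Type} [NormedCommRing A'] [NormedAlgebra ℂ_[p] A']

theorem Adm.map {A A' : Type} [NormedCommRing A] [NormedCommRing A'] {μ : (ι → ℤ) → A}
    (hμ : Adm C μ) (φ : A →+* A') (hφ : Continuous φ) : Adm C fun T => φ (μ T) := by
  refine ⟨by rw [hμ.zero, map_one], fun T hT T' hT' => by rw [hμ.add T hT T' hT', map_mul], ?_⟩
  have h := (hφ.tendsto 0).comp hμ.lim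
  rwa [map_zero] at h

theorem SR.ev_map (S : SR p C Q) {μ : (ι → ℤ) → A} (hμ : Adm C μ) (φ : A →+* A')
    (hφ : Continuous φ) (F : Q)
    (hF : ∀ T, φ (algebraMap ℂ_[p] A (S.co F T)) = algebraMap ℂ_[p] A' (S.co F T)) :
    φ (S.ev μ F) = S.ev (fun T => φ (μ T)) F := by
  have h1 := (S.hasSum_ev hμ F).map φ hφ
  rw [← h1.tsum_eq]
  refine tsum_congr fun T => ?_
  change φ (S.co F T • μ T) = S.co F T • φ (μ T)
  rw [Algebra.smul_def, Algebra.smul_def, map_mul, hF]

theorem SR.ev_map_alg (S : SR p C Q) {μ : (ι → ℤ) → A} (hμ : Adm C μ) (φ : A →ₐ[ℂ_[p]] A')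
    (hφ : Continuous φ) (F : Q) : φ (S.ev μ F) = S.ev (fun T => φ (μ T)) F :=
  S.ev_map hμ (φ : A →+* A') hφ F fun _ => φ.commutes _

end Pool.Agent.E7
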