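import Pool.Agent.Lib.MP_7e5527_ag.E7.PDefs
import Pool.Agent.Lib.MP_7e5527_ag.Ev

/-! The logarithm of a principal unit. -/

open Filter Topology Polynomial
open scoped Polynomial.Bivariate

noncomputable section

namespace Pool.Agent.E7

variable {ι : Type} [Fintype ι] [DecidableEq ι] {p : ℕ} [Fact p.Prime] {C : Cone ι} {Q : Type}
  [CommRing Q]

variable {A : Type} [NormedCommRing A] [NormOneClass A] [NormedAlgebra ℂ_[p] A] [CompleteSpace A]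
  [IsUltrametricDist A]

omit [CompleteSpace A] in
theorem plg_step {U : A} (hU : ‖U - 1‖ ≤ 1) (n : ℕ) :
    ‖U ^ n - 1 - n * (U - 1)‖ ≤ ‖U - 1‖ ^ 2 := by
  have h1 : ‖U‖ ≤ 1 := by
    simpa using (IsUltrametricDist.norm_add_le_max (U - 1) 1).trans (max_le hU norm_one.le)
  induction n with
  | zero => simp
  | succ n ih =>
    rw [show U ^ (n + 1) - 1 - (n + 1 : ℕ) * (U - 1) =
      (U ^ n - 1 - n * (U - 1)) * U + n * (U - 1) ^ 2 by push_cast; ring]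
    refine (IsUltrametricDist.norm_add_le_max _ _).trans (max_le ?_ ?_)
    · exact (norm_mul_le _ _).trans ((mul_le_of_le_one_right (norm_nonneg _) h1).trans ih)
    · exact (norm_mul_le _ _).trans ((mul_le_of_le_one_left (norm_nonneg _)
        (IsUltrametricDist.norm_natCast_le_one A n)).trans (norm_pow_le _ _))

omit [CompleteSpace A] in
theorem plg_geo {U : A} {θ : ℝ} (hU : ‖U - 1‖ ≤ θ) (h0 : (p : ℝ)⁻¹ ≤ θ) (h1 : θ ≤ 1) (k : ℕ) :
    ‖U ^ p ^ k - 1‖ ≤ θ ^ (k + 1) := by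
  have h2 : 0 ≤ θ := (norm_nonneg _).trans hU
  have h3 : ‖(p : A)‖ ≤ θ := by
    rw [← map_natCast (algebraMap ℂ_[p] A), norm_algebraMap', UAP.norm_p_eq]
    exact h0
  induction k with
  | zero => simpa using hU
  | succ k ih =>
    have h4 : ‖U ^ p ^ k - 1‖ ≤ θ := ih.trans (pow_le_of_le_one h2 h1 k.succ_ne_zero)
    rw [pow_succ p, pow_mul, pow_succ' θ, ← sub_add_cancel (_ - 1) (p * (U ^ p ^ k - 1))]
    refine (IsUltrametricDist.norm_add_le_max _ _).trans (max_le ?_ ?_)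
    · refine (plg_step (h4.trans h1) p).trans ?_
      rw [sq]
      exact mul_le_mul h4 ih (norm_nonneg _) h2
    · exact (norm_mul_le _ _).trans (mul_le_mul h3 ih (norm_nonneg _) h2)

theorem plg_lt (p : ℕ) [Fact p.Prime] : 0 < (p : ℝ)⁻¹ ∧ (p : ℝ)⁻¹ < 1 := by
  have h : (1 : ℝ) < p := Nat.one_lt_cast.2 (Fact.out : p.Prime).one_lt
  exact ⟨inv_pos.2 (one_pos.trans h), inv_lt_one_of_one_lt₀ h⟩

/-- With `w k = U ^ p ^ k - 1`: `‖w (k+1)‖ ≤ ‖w k‖ max (1/p) (‖w k‖ ^ (p-1))`. -/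
theorem tendsto_ppow (p : ℕ) [Fact p.Prime] {A : Type} [NormedCommRing A] [NormOneClass A]
    [NormedAlgebra ℂ_[p] A] [IsUltrametricDist A] {U : A} (hU : ‖U - 1‖ < 1) :
    Tendsto (fun k : ℕ => U ^ p ^ k) atTop (𝓝 1) := by
  have h1 : max ‖U - 1‖ (p : ℝ)⁻¹ < 1 := max_lt hU (plg_lt p).2
  rw [tendsto_iff_norm_sub_tendsto_zero]
  exact squeeze_zero (fun _ => norm_nonneg _)
    (plg_geo (le_max_left _ _) (le_max_right _ _) h1.le)
    ((tendsto_add_atTop_iff_nat 1).2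
      (tendsto_pow_atTop_nhds_zero_of_lt_one (le_max_of_le_left (norm_nonneg _)) h1))

/-- `‖w (k+1) - p w k‖ ≤ ‖w k‖ ^ 2` and `‖w k‖ ≤ c p ^ (-k)`. -/
theorem exists_lg {U : A} (hU : ‖U - 1‖ < 1) : ∃ l : A,
    Tendsto (fun k : ℕ => ((p : ℂ_[p]) ^ k)⁻¹ • (U ^ p ^ k - 1)) atTop (𝓝 l) := by
  obtain ⟨h0, h1⟩ := plg_lt p
  have hp : (p : ℂ_[p]) ≠ 0 := Nat.cast_ne_zero.2 (Fact.out : p.Prime).ne_zero
  obtain ⟨m, hm⟩ := ((tendsto_iff_norm_sub_tendsto_zero.1 (tendsto_ppow p hU)).eventually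
    (eventually_le_nhds h0)).exists
  simp only [← tendsto_add_atTop_iff_nat (f := fun k : ℕ => ((p : ℂ_[p]) ^ k)⁻¹ • (U ^ p ^ k - 1))
    m]
  refine cauchySeq_tendsto_of_complete
    (cauchySeq_of_le_geometric (p : ℝ)⁻¹ (p ^ m) h1 fun k => ?_)
  have h2 := plg_geo hm le_rfl h1.le k
  rw [← pow_mul, ← pow_add, add_comm m] at h2
  have h3 := plg_step (h2.trans (pow_le_one₀ h0.le h1.le)) p
  have e : ((p : ℂ_[p]) ^ (k + 1 + m))⁻¹ • (U ^ p ^ (k + 1 + m) - 1) -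
      ((p : ℂ_[p]) ^ (k + m))⁻¹ • (U ^ p ^ (k + m) - 1) = ((p : ℂ_[p]) ^ (k + m + 1))⁻¹ •
        ((U ^ p ^ (k + m)) ^ p - 1 - p * (U ^ p ^ (k + m) - 1)) := by
    rw [add_right_comm, pow_succ p, pow_mul, smul_sub _ (_ - 1), ← nsmul_eq_mul,
      ← Nat.cast_smul_eq_nsmul ℂ_[p], smul_smul, pow_succ, mul_inv, inv_mul_cancel_right₀ hp]
  rw [dist_comm, dist_eq_norm, e, norm_smul, norm_inv, norm_pow, UAP.norm_p_eq, inv_pow, inv_inv]
  refine (mul_le_mul_of_nonneg_left (h3.trans (pow_le_pow_left₀ (norm_nonneg _) h2 2))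
    (by positivity)).trans ?_
  have h4 : (p : ℝ) * (p : ℝ)⁻¹ = 1 := mul_inv_cancel₀ (inv_pos.1 h0).ne'
  calc (p : ℝ) ^ (k + m + 1) * ((p : ℝ)⁻¹ ^ (k + 1)) ^ 2
      = ((p : ℝ) * (p : ℝ)⁻¹) ^ (k + 1) * (p ^ m * (p : ℝ)⁻¹ ^ k) * (p : ℝ)⁻¹ := by ring
    _ ≤ _ := by
      rw [h4, one_pow, one_mul]
      exact mul_le_of_le_one_right (by positivity) h1.le

end Pool.Agent.E7
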