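import Pool.Agent.Lib.MP_7e5527_ag.E7.PDefs
import Pool.Agent.Lib.MP_7e5527_ag.Gal2

/-! Inertia and Kummer theory. -/

open Filter Topology Polynomial
open scoped Polynomial.Bivariate

noncomputable section

namespace Pool.Agent.E7

variable {ι : Type} [Fintype ι] [DecidableEq ι] {p : ℕ} [Fact p.Prime] {C : Cone ι} {Q : Type}
  [CommRing Q]

open IntermediateField

/-- Family version of `UAP.orbit_full` (same proof). -/
theorem orbit_fam {σ : ℂ_[p] →+* ℂ_[p]} {x ζ : ι → ℂ_[p]} {s r : ℕ} (hr : ¬ p ∣ r)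
    (h1 : ∀ i, ζ i ^ (p ^ s * r) = 1) (hx : ∀ i, σ (x i) = ζ i * x i)
    (hp : ∀ ξ : ℂ_[p], ξ ^ p ^ 2 = 1 → σ ξ = ξ) (hω : ∀ ω : ℂ_[p], ω ^ r = 1 → σ ω = ω) (e : ℕ) :
    ∃ k : ℕ, ∀ i, (σ ^ k) (x i) = ζ i ^ e * x i := by
  have hn : p ^ s * r ≠ 0 :=
    mul_ne_zero (pow_ne_zero _ (Fact.out : p.Prime).ne_zero) fun h => hr (h ▸ dvd_zero p)
  have : NeZero (p ^ s * r) := ⟨hn⟩
  let H : Subgroup ℂ_[p]ˣ :=
    { carrier := {u | u ^ (p ^ s * r) = 1 ∧ ∃ y : ℂ_[p], y ≠ 0 ∧ σ y = u * y}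
      one_mem' := ⟨one_pow _, 1, one_ne_zero, by simp⟩
      mul_mem' := by
        rintro u v ⟨hu, y, hy, ey⟩ ⟨hv, z, hz, ez⟩
        exact ⟨by rw [mul_pow, hu, hv, one_mul], y * z, mul_ne_zero hy hz, by
          rw [map_mul, ey, ez, Units.val_mul]; ring⟩
      inv_mem' := by
        rintro u ⟨hu, y, hy, ey⟩
        exact ⟨by rw [inv_pow, hu, inv_one], y⁻¹, inv_ne_zero hy, by
          rw [map_inv₀, ey, mul_inv, Units.val_inv_eq_inv_val]⟩ }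
  have hle : H ≤ rootsOfUnity (p ^ s * r) ℂ_[p] := fun u hu => hu.1
  have : Finite H := Finite.of_injective _ (Subgroup.inclusion_injective hle)
  obtain ⟨⟨u, hu, y, hy, ey⟩, hgen⟩ := IsCyclic.exists_generator (α := H)
  have hu' : (u : ℂ_[p]) ^ (p ^ s * r) = 1 := by rw [← Units.val_pow_eq_pow_val, hu, Units.val_one]
  obtain ⟨k, hk, -⟩ := UAP.orbit_full hr hu' hu' ey ey hp hω e
  refine ⟨k, fun i => ?_⟩
  by_cases h0 : x i = 0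
  · rw [h0, map_zero, mul_zero]
  have hz : ζ i ≠ 0 := fun h => by simpa [h, hn] using h1 i
  obtain ⟨m, hm⟩ := hgen ⟨Units.mk0 _ hz, Units.ext (by simpa using h1 i), x i, h0, hx i⟩
  have hm' : (u : ℂ_[p]) ^ m = ζ i := by
    simpa using congrArg (fun v : H => ((v : ℂ_[p]ˣ) : ℂ_[p])) hm
  have hf : σ (x i / y ^ m) = x i / y ^ m := by
    rw [map_div₀, map_zpow₀, ey, hx, mul_zpow, hm', mul_div_mul_left _ _ hz]
  have hf' : (σ ^ k) (x i / y ^ m) = x i / y ^ m := by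
    rw [RingHom.coe_pow]
    exact Function.iterate_fixed hf k
  have hc : x i / y ^ m * y ^ m = x i := div_mul_cancel₀ _ (zpow_ne_zero m hy)
  rw [← hc, map_mul, hf', map_zpow₀, hk, mul_zpow, ← hm', ← zpow_natCast, ← zpow_natCast,
    zpow_comm]
  ring

/-- `UAP.mem_of_fixed`: an isometry that fixes `E' ⊔ ℚ_p(ω)` multiplies `q` by a good `c`. -/
theorem kum_mem {E E' : IntermediateField ℚ_[p] ℂ_[p]} [FiniteDimensional ℚ_[p] E'] (hE : E ≤ E')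
    (hp : ∀ ξ : ℂ_[p], ξ ^ p ^ 2 = 1 → ξ ∈ E') {q : ι → ℂ_[p]} (hq : ∀ i, q i ≠ 0) {s r : ℕ}
    (hr : ¬ p ∣ r) (hm : ∀ i, q i ^ (p ^ s * r) ∈ E) {ω : ℂ_[p]} (hω : IsPrimitiveRoot ω r)
    {w0 : ℕ} (hg : ∀ c, Good E q c → ∀ i, c i ^ w0 = 1) (i : ι) :
    q i ^ w0 ∈ E' ⊔ ℚ_[p]⟮ω⟯ := by
  have hr0 : r ≠ 0 := fun h => hr (h ▸ dvd_zero p)
  have : NeZero r := ⟨hr0⟩
  have := UAP.finiteDimensional_sup_root E' (Nat.pos_of_ne_zero hr0) hω.pow_eq_one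
  have hK : E' ≤ E' ⊔ ℚ_[p]⟮ω⟯ := le_sup_left
  have hωK : ω ∈ E' ⊔ ℚ_[p]⟮ω⟯ :=
    (le_sup_right : ℚ_[p]⟮ω⟯ ≤ E' ⊔ ℚ_[p]⟮ω⟯) (mem_adjoin_simple_self _ ω)
  refine UAP.mem_of_fixed _ (n := p ^ s * r)
    (Nat.mul_pos (pow_pos (Fact.out : p.Prime).pos _) (Nat.pos_of_ne_zero hr0))
    (by rw [pow_right_comm]; exact pow_mem (hK (hE (hm i))) _) fun σ hσ hf => ?_
  have hx : ∀ j, σ (q j) = σ (q j) / q j * q j := fun j => (div_mul_cancel₀ _ (hq j)).symm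
  have h1 : ∀ j, (σ (q j) / q j) ^ (p ^ s * r) = 1 := fun j => by
    rw [div_pow, ← map_pow, hf _ (hK (hE (hm j))), div_self (pow_ne_zero _ (hq j))]
  have hG : Good E q fun j => σ (q j) / q j := fun e => by
    obtain ⟨k, hk⟩ := orbit_fam hr h1 hx (fun ξ h => hf ξ (hK (hp ξ h))) (fun w hw => by
      obtain ⟨l, -, rfl⟩ := hω.eq_pow_of_pow_eq_one hw
      exact hf _ (pow_mem hωK l)) e
    refine ⟨σ ^ k, hσ.iterate k, fun a ha => ?_, hk⟩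
    rw [RingHom.coe_pow]
    exact Function.iterate_fixed (hf a (hK (hE ha))) k
  rw [map_pow, hx i, mul_pow, hg _ hG i, one_mul]

end Pool.Agent.E7
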