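import Pool.Agent.Lib.MP_7e5527_ag.E7.Good3

/-! Polynomials in the coordinates over good functions. -/

noncomputable section

namespace Pool.Agent.E7

/-- A polynomial that is constant on a translate of a lattice is constant. -/
theorem poly_lattice {σ : Type} [Fintype σ] (P : MvPolynomial σ ℂ) (y : σ → ℂ) {M : ℕ} (hM : 0 < M)
    (c : ℂ) (h : ∀ n : σ → ℤ, MvPolynomial.eval (fun i => y i + M * n i) P = c) :
    P = MvPolynomial.C c := by
  refine MvPolynomial.funext_set (fun i => Set.range fun n : ℤ => y i + M * n)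
    (fun i => Set.infinite_range_of_injective fun a b hab => ?_) fun x hx => ?_
  · have h0 : (M : ℂ) ≠ 0 := Nat.cast_ne_zero.2 hM.ne'
    exact Int.cast_injective (mul_left_cancel₀ h0 (add_left_cancel hab))
  · choose n hn using fun i => hx i (Set.mem_univ i)
    rw [MvPolynomial.eval_C, ← h n]
    exact congrArg (fun z => MvPolynomial.eval z P) (funext hn).symm

/-- Evaluation of the coefficients at a point. -/
def polyP_ev (𝒮 : Subalgebra ℂ Fn) (Z : HH) : 𝒮 →+* ℂ :=
  (Pi.evalRingHom (fun _ : HH => ℂ) Z).comp (algebraMap 𝒮 Fn)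

theorem polyP_apply {𝒮 : Subalgebra ℂ Fn} (P : MvPolynomial Ix 𝒮) (Z : HH) :
    MvPolynomial.aeval yF P Z =
      MvPolynomial.eval (yc (Z : Ix → ℂ)) (MvPolynomial.map (polyP_ev 𝒮 Z) P) := by
  rw [MvPolynomial.eval_map, MvPolynomial.aeval_def]
  exact MvPolynomial.eval₂_comp_left (Pi.evalRingHom (fun _ : HH => ℂ) Z) _ _ P

/-- Take a common period of the coefficients (`GoodC.periodic`), fix `Z`, translate by multiples of
`∑ n i • UU i` and use `poly_lattice`. -/
theorem poly_periodic {𝒮 : Subalgebra ℂ Fn} (h𝒮 : 𝒮 ≤ GQ) (P : MvPolynomial Ix 𝒮) {k : ℤ} {M : ℕ}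
    (hM : 0 < M) (h : ∀ B ∈ Lam, sl k (nE (toR ℂ ((M : ℚ) • B))) (MvPolynomial.aeval yF P) =
      MvPolynomial.aeval yF P) : P = MvPolynomial.C (P.coeff 0) := by
  choose N hN hp using fun m : Ix →₀ ℕ =>
    (Gd.spec (F := (P.coeff m : 𝒮)) (h𝒮 (P.coeff m).2)).periodic
  have hpos : 0 < (∏ m ∈ P.support, N m) * M := Nat.mul_pos (Finset.prod_pos fun m _ => hN m) hM
  have key : ∀ Z : HH, MvPolynomial.map (polyP_ev 𝒮 Z) P =
      MvPolynomial.C (MvPolynomial.aeval yF P Z) := fun Z => by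
    refine poly_lattice _ (yc (Z : Ix → ℂ)) hpos _ fun n => ?_
    have hB : pt (fun i => (n i : ℚ)) ∈ Lam := Lam.sum _ fun i _ => by
      rw [toR_rat]
      exact Lam.zsmul (UU_mem i) (n i)
    have h1 := congrFun (h _ (Lam.nsmul hB (∏ m ∈ P.support, N m))) Z
    rw [smul_smul, mul_comm, ← Nat.cast_mul, sl_nE, polyP_apply, coe_ofC (HH.add_toR Z.2 _),
      yc_add, toR_smul, yc_smul, toR_pt, yc_pt] at h1
    rw [← h1]
    refine congrArg₂ (fun z Q => MvPolynomial.eval z Q) (funext fun i => by simp) ?_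
    · ext m
      rw [MvPolynomial.coeff_map, MvPolynomial.coeff_map]
      by_cases hm : m ∈ P.support
      · obtain ⟨c, hc⟩ := Finset.dvd_prod_of_mem N hm
        have h2 := congrFun (hp m k (c * M) _ hB) Z
        rw [sl_nE, ← mul_assoc, ← hc, toR_smul, toR_pt] at h2
        exact h2.symm
      · rw [MvPolynomial.notMem_support_iff.1 hm, map_zero, map_zero]
  ext m Z
  by_cases hm : 0 = m
  · rw [← hm, MvPolynomial.coeff_zero_C]
  · have h3 := congrArg (MvPolynomial.coeff m) (key Z)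
    rw [MvPolynomial.coeff_map, MvPolynomial.coeff_C, if_neg hm] at h3
    rw [MvPolynomial.coeff_C, if_neg hm]
    exact h3

theorem aeval_yF_inj {𝒮 : Subalgebra ℂ Fn} (h𝒮 : 𝒮 ≤ GQ) :
    Function.Injective (MvPolynomial.aeval yF : MvPolynomial Ix 𝒮 →ₐ[𝒮] Fn) := by
  refine (injective_iff_map_eq_zero _).2 fun P hP => ?_
  have h := poly_periodic h𝒮 P (k := 0) one_pos fun B _ => by rw [hP, sl_zero]
  rw [h, MvPolynomial.aeval_C] at hP
  rw [h, show P.coeff 0 = 0 from Subtype.ext hP, map_zero]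

theorem polyP_der {A σ : Type} [CommRing A] (δ : A →+ A)
    (hδ : ∀ a b, δ (a * b) = a * δ b + b * δ a) (v : σ → MvPolynomial σ A) :
    ∃ d : Derivation ℤ (MvPolynomial σ A) (MvPolynomial σ A),
      (∀ c, d (MvPolynomial.C c) = MvPolynomial.C (δ c)) ∧ ∀ j, d (MvPolynomial.X j) = v j := by
  have h1 : δ 1 = 0 := by simpa using hδ 1 1
  let f : A →+* DualNumber (MvPolynomial σ A) :=
    { toFun := fun c => TrivSqZeroExt.inl (MvPolynomial.C c) +
        TrivSqZeroExt.inr (MvPolynomial.C (δ c))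
      map_one' := by simp [h1]
      map_mul' := fun a b => TrivSqZeroExt.ext (by simp) (by simp [hδ, mul_comm])
      map_zero' := by simp
      map_add' := fun a b => TrivSqZeroExt.ext (by simp) (by simp) }
  let φ : MvPolynomial σ A →+* DualNumber (MvPolynomial σ A) := MvPolynomial.eval₂Hom f
    fun j => TrivSqZeroExt.inl (MvPolynomial.X j) + TrivSqZeroExt.inr (v j)
  have hφ : ∀ P, (φ P).fst = P := fun P => by
    induction P using MvPolynomial.induction_on with
    | C a => simp [φ, f]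
    | add P Q hP hQ => rw [map_add, TrivSqZeroExt.fst_add, hP, hQ]
    | mul_X P j hP =>
      rw [map_mul, TrivSqZeroExt.fst_mul, hP]
      simp [φ]
  refine ⟨Derivation.mk' (AddMonoidHom.toIntLinearMap
    { toFun := fun P => (φ P).snd
      map_zero' := by rw [map_zero, TrivSqZeroExt.snd_zero]
      map_add' := fun P Q => by rw [map_add, TrivSqZeroExt.snd_add] }) fun P Q => ?_,
    fun c => ?_, fun j => ?_⟩
  · show (φ (P * Q)).snd = P * (φ Q).snd + Q * (φ P).snd
    rw [map_mul, DualNumber.snd_mul, hφ, hφ, mul_comm Q]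
  · show (φ (MvPolynomial.C c)).snd = _
    simp [φ, f]
  · show (φ (MvPolynomial.X j)).snd = _
    simp [φ]

/-- The coefficientwise derivation plus `(2 π i)⁻¹` times `pderiv i`; the last claim by
`MvPolynomial.induction_on` with `dl_add`, `dl_mul`, `dl_yF`. -/
theorem exists_dP {𝒮 : Subalgebra ℂ Fn} (h𝒮 : 𝒮 ≤ Hol) (hd : ∀ i, ∀ F ∈ 𝒮, dl i F ∈ 𝒮) :
    ∃ d : Ix → Derivation ℤ (MvPolynomial Ix 𝒮) (MvPolynomial Ix 𝒮),
      (∀ i (c : 𝒮), d i (MvPolynomial.C c) = MvPolynomial.C ⟨dl i c, hd i c c.2⟩) ∧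
      (∀ i j, d i (MvPolynomial.X j) = if i = j then
        MvPolynomial.C (algebraMap ℂ 𝒮 (2 * Real.pi * Complex.I)⁻¹) else 0) ∧
      ∀ i P, MvPolynomial.aeval yF (d i P) = dl i (MvPolynomial.aeval yF P) := by
  choose d h1 h2 using fun i : Ix => polyP_der (A := 𝒮)
    { toFun := fun c => ⟨dl i c, hd i c c.2⟩
      map_zero' := Subtype.ext (dl_zero i)
      map_add' := fun F G => Subtype.ext (dl_add (h𝒮 F.2) (h𝒮 G.2) i) }
    (fun F G => Subtype.ext (dl_mul (h𝒮 F.2) (h𝒮 G.2) i))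
    fun j : Ix => if i = j then MvPolynomial.C (algebraMap ℂ 𝒮 (2 * Real.pi * Complex.I)⁻¹) else 0
  have hH : ∀ P : MvPolynomial Ix 𝒮, MvPolynomial.aeval yF P ∈ Hol := fun P => by
    induction P using MvPolynomial.induction_on with
    | C a =>
      rw [MvPolynomial.aeval_C]
      exact h𝒮 a.2
    | add P Q hP hQ =>
      rw [map_add]
      exact add_mem hP hQ
    | mul_X P j hP =>
      rw [map_mul, MvPolynomial.aeval_X]
      exact mul_mem hP (isHol_yF j)
  suffices key : ∀ i P, MvPolynomial.aeval yF (d i P) = dl i (MvPolynomial.aeval yF P) from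
    ⟨d, h1, h2, key⟩
  intro i P
  induction P using MvPolynomial.induction_on with
  | C a =>
    rw [h1, MvPolynomial.aeval_C, MvPolynomial.aeval_C]
    rfl
  | add P Q hP hQ => rw [map_add, map_add, map_add, hP, hQ, dl_add (hH P) (hH Q)]
  | mul_X P j hP =>
    rw [Derivation.leibniz, smul_eq_mul, smul_eq_mul, map_add, map_mul, map_mul, map_mul, hP, h2,
      MvPolynomial.aeval_X, dl_mul (hH P) (isHol_yF j), dl_yF]
    split_ifs
    · rw [MvPolynomial.aeval_C]
      rfl
    · rw [map_zero]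

theorem aeval_map_pF (𝒮 : Subalgebra ℂ Fn) (P : MvPolynomial Ix ℚ) :
    MvPolynomial.aeval yF (MvPolynomial.map ((algebraMap ℂ 𝒮).comp (algebraMap ℚ ℂ)) P) = pF P := by
  funext Z
  rw [polyP_apply, MvPolynomial.map_map, MvPolynomial.eval_map, pF, MvPolynomial.aeval_def]
  congr 1

end Pool.Agent.E7
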