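import Pool.Agent.Lib.MP_7e5527_ag.E7.LatJ

/-! Positive semidefinite matrices. -/

noncomputable section

namespace Pool.Agent.E7

theorem psd_lim {a b : ℝ} (h : ∀ e : ℝ, 0 < e → 0 ≤ a + e * b) : 0 ≤ a := by
  by_contra ha
  push Not at ha
  have hb : 0 < |b| + 1 := by positivity
  have he : 0 < -a / (|b| + 1) := div_pos (by linarith) hb
  have h1 := h _ he
  have h2 : -a / (|b| + 1) * (|b| + 1) = -a := div_mul_cancel₀ _ hb.ne'
  have h3 := mul_lt_mul_of_pos_left (by linarith [le_abs_self b] : b < |b| + 1) he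
  linarith

theorem psd_tr_v1 (T : Ix → ℝ) (u : Fin 8 → ℝ) :
    tr T (v1 u) = dg T 1 + dg T 2 * onorm u + oip (oc T 0) u := by
  simp [tr_eq, v1, oip_zero_right]

theorem psd_tr_one3 (T : Ix → ℚ) : tr T one3 = dg T 0 + dg T 1 + dg T 2 := by
  simp [tr_eq, one3, oip_zero_right]

theorem psd_tr_rot (T Y : Ix → ℝ) (i : Fin 3) : tr T Y = dg T i * dg Y i +
    dg T (i + 1) * dg Y (i + 1) + dg T (i + 2) * dg Y (i + 2) + oip (oc T i) (oc Y i) +
    oip (oc T (i + 1)) (oc Y (i + 1)) + oip (oc T (i + 2)) (oc Y (i + 2)) := by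
  rw [tr_eq]
  fin_cases i
  · rfl
  · show _ = dg T 1 * dg Y 1 + dg T 2 * dg Y 2 + dg T 0 * dg Y 0 +
      oip (oc T 1) (oc Y 1) + oip (oc T 2) (oc Y 2) + oip (oc T 0) (oc Y 0)
    ring
  · show _ = dg T 2 * dg Y 2 + dg T 0 * dg Y 0 + dg T 1 * dg Y 1 +
      oip (oc T 2) (oc Y 2) + oip (oc T 0) (oc Y 0) + oip (oc T 1) (oc Y 1)
    ring

theorem psd_fin_box {M : ℕ} (hM : 0 < M) (B : ℚ) :
    {T : Ix → ℚ | (M : ℚ) • T ∈ Lam ∧ ∀ l, |T l| ≤ B}.Finite := by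
  have hM' : (0 : ℚ) < 2 * M := by positivity
  have hS : ((fun n : ℤ => (n : ℚ) / (2 * M)) '' Set.Icc (-⌈2 * M * B⌉) ⌈2 * M * B⌉).Finite :=
    (Set.finite_Icc _ _).image _
  refine (Set.Finite.pi' fun _ : Ix => hS).subset fun T hT l => ?_
  obtain ⟨n, hn⟩ := Lam.two_mul hT.1 l
  have e : (n : ℚ) = 2 * M * T l := by rw [← hn, Pi.smul_apply, smul_eq_mul, mul_assoc]
  have h1 : |(n : ℚ)| ≤ (⌈2 * M * B⌉ : ℤ) := by
    rw [e, abs_mul, abs_of_pos hM']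
    exact (mul_le_mul_of_nonneg_left (hT.2 l) hM'.le).trans (Int.le_ceil _)
  have h2 : |n| ≤ ⌈2 * M * B⌉ := by exact_mod_cast h1
  refine ⟨n, abs_le.1 h2, ?_⟩
  show (n : ℚ) / (2 * M) = T l
  rw [e, mul_div_cancel_left₀ _ hM'.ne']

theorem psd_summable_pi {ι : Type} [Fintype ι] [DecidableEq ι] {f : ℤ → ℝ} (hf : Summable f)
    (h0 : ∀ n, 0 ≤ f n) : Summable fun m : ι → ℤ => ∏ l, f (m l) := by
  refine summable_of_sum_le (c := ∏ _l : ι, ∑' n, f n)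
    (fun m => Finset.prod_nonneg fun _ _ => h0 _) fun s => ?_
  calc ∑ m ∈ s, ∏ l, f (m l)
      ≤ ∑ m ∈ Fintype.piFinset (fun l => s.image fun m => m l), ∏ l, f (m l) :=
        Finset.sum_le_sum_of_subset_of_nonneg
          (fun m hm => Fintype.mem_piFinset.2 fun l => Finset.mem_image_of_mem _ hm)
          fun _ _ _ => Finset.prod_nonneg fun _ _ => h0 _
    _ = ∏ l, ∑ n ∈ s.image fun m => m l, f n := (Finset.prod_univ_sum _ fun _ n => f n).symm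
    _ ≤ _ := Finset.prod_le_prod (fun _ _ => Finset.sum_nonneg fun _ _ => h0 _)
        fun _ _ => hf.sum_le_tsum _ fun _ _ => h0 _

theorem psd_summable_int {d : ℝ} (hd : 0 < d) :
    Summable fun n : ℤ => Real.exp (-(d * |(n : ℝ)|)) := by
  have h : Summable fun n : ℕ => Real.exp ((n : ℝ) * (-d)) :=
    Real.summable_exp_nat_mul_iff.2 (by linarith)
  refine Summable.of_nat_of_neg (h.congr fun n => ?_) (h.congr fun n => ?_)
  · simp [mul_comm]
  · simp [mul_comm]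

theorem psd_pow_le (k : ℕ) {e : ℝ} (he : 0 < e) :
    ∃ C : ℝ, 0 ≤ C ∧ ∀ t : ℝ, 0 ≤ t → (1 + t) ^ k ≤ C * Real.exp (e * t) := by
  have hd : 0 < e / (k + 1) := by positivity
  set d := e / (k + 1) with hdef
  refine ⟨(1 + 1 / d) ^ k, by positivity, fun t ht => ?_⟩
  have h1 : 1 + t ≤ (1 + 1 / d) * Real.exp (d * t) := by
    have h2 : d * t + 1 ≤ Real.exp (d * t) := Real.add_one_le_exp _
    have h3 : (1 + 1 / d) * (d * t + 1) = d * t + 1 + t + 1 / d := by field_simp; ring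
    have h4 := mul_le_mul_of_nonneg_left h2 (by positivity : 0 ≤ 1 + 1 / d)
    have h5 : 0 ≤ d * t := by positivity
    have h6 : 0 ≤ 1 / d := by positivity
    linarith
  have h7 : (k : ℝ) * (d * t) ≤ e * t := by
    have h8 : d * (k + 1) = e := div_mul_cancel₀ _ (by positivity)
    have h5 : 0 ≤ d * t := by positivity
    rw [← h8]; nlinarith
  calc (1 + t) ^ k ≤ ((1 + 1 / d) * Real.exp (d * t)) ^ k :=
        pow_le_pow_left₀ (by positivity) h1 k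
    _ = (1 + 1 / d) ^ k * Real.exp (k * (d * t)) := by rw [mul_pow, Real.exp_nat_mul]
    _ ≤ _ := mul_le_mul_of_nonneg_left (Real.exp_le_exp.2 h7) (by positivity)

theorem Psd.zero : Psd 0 :=
  fun Y _ => by rw [toR_zero, tr_zero_left]
theorem Psd.add {T T' : Ix → ℚ} (h : Psd T) (h' : Psd T') : Psd (T + T') :=
  fun Y hY => by
  rw [toR_add, tr_add_left]; exact add_nonneg (h Y hY) (h' Y hY)
theorem Psd.smul {T : Ix → ℚ} (h : Psd T) {c : ℚ} (hc : 0 ≤ c) : Psd (c • T) :=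
  fun Y hY => by
  rw [toR_smul, tr_smul_left]; exact mul_nonneg (by exact_mod_cast hc) (h Y hY)
theorem Psd.lin_adj {A : Matrix Ix Ix ℚ} {c : ℚ} (hA : IsSim A c) (T : Ix → ℚ) :
    Psd (lin (adjM A) T) ↔ Psd T := by
  constructor
  · intro h Y hY
    have e : lin A (lin A⁻¹ Y) = Y := lin_lin_inv hA.1 Y
    have hY' : lin A⁻¹ Y ∈ Om := (hA.2.2 _).1 (by rw [e]; exact hY)
    have h1 := h _ hY'
    rwa [← lin_toR, ← tr_lin, e] at h1
  · intro h Y hY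
    rw [← lin_toR, ← tr_lin]
    exact h _ ((hA.2.2 Y).2 hY)

/-- Pair with `jac 1 ε ε` and let `ε` tend to zero (`jac_mem`). -/
theorem Psd.pair0 {T : Ix → ℚ} (h : Psd T) (u1 u2 : Fin 8 → ℝ) : 0 ≤ tr (toR ℝ T) (v0 u1 u2) := by
  refine psd_lim (b := tr (toR ℝ T) (v1 0) + tr (toR ℝ T) (ed 2)) fun e he => ?_
  have h1 := h _ (jac_mem one_pos he he 0 u1 u2)
  simp only [jac, tr_add_right, tr_smul_right] at h1
  linarith
theorem Psd.pair1 {T : Ix → ℚ} (h : Psd T) (u0 : Fin 8 → ℝ) : 0 ≤ tr (toR ℝ T) (v1 u0) := by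
  refine psd_lim (b := tr (toR ℝ T) (v0 0 0) + tr (toR ℝ T) (ed 2)) fun e he => ?_
  have h1 := h _ (jac_mem he one_pos he u0 0 0)
  simp only [jac, tr_add_right, tr_smul_right] at h1
  linarith
theorem Psd.cyc_mem {T : Ix → ℚ} (h : Psd T) : Psd (cyc T) :=
  fun Y hY => by
  have e : toR ℝ (cyc T) = cyc (toR ℝ T) := by apply jext <;> rfl
  rw [e, ← cyc_cyc_cyc Y, tr_cyc]
  exact h _ ((cyc_mem_Om _).2 ((cyc_mem_Om _).2 hY))
theorem Psd.dg_nonneg {T : Ix → ℚ} (h : Psd T) (i : Fin 3) : 0 ≤ dg T i := by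
  have h1 : ∀ {S : Ix → ℚ}, Psd S → 0 ≤ dg S 1 := by
    intro S hS
    have h2 := hS.pair1 0
    rw [psd_tr_v1, onorm_zero, oip_zero_right, dg_toR] at h2
    have h3 : (0 : ℝ) ≤ (dg S 1 : ℚ) := by linarith
    exact_mod_cast h3
  fin_cases i
  exacts [h1 h.cyc_mem, h1 h, h1 h.cyc_mem.cyc_mem]

/-- `Psd.pair1` with `u0 = s ξ` is a non negative quadratic polynomial in `s`; then `Psd.cyc_mem`. -/
theorem Psd.onorm_le {T : Ix → ℚ} (h : Psd T) (i : Fin 3) :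
    onorm (oc T i) ≤ dg T (i + 1) * dg T (i + 2) := by
  have h1 : ∀ {S : Ix → ℚ}, Psd S → onorm (oc S 0) ≤ dg S 1 * dg S 2 := by
    intro S hS
    have hN : onorm (oc (toR ℝ S) 0) = (onorm (oc S 0) : ℚ) := by rw [oc_toR, onorm_cast]
    have h2 : ∀ s : ℝ, 0 ≤ ((dg S 2 : ℚ) : ℝ) * ((onorm (oc S 0) : ℚ) : ℝ) * (s * s) +
        2 * ((onorm (oc S 0) : ℚ) : ℝ) * s + ((dg S 1 : ℚ) : ℝ) := by
      intro s
      have h3 := hS.pair1 (s • oc (toR ℝ S) 0)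
      rw [psd_tr_v1, onorm_smul, oip_smul_right, oip_self, hN, dg_toR, dg_toR] at h3
      linarith
    have h4 := discrim_le_zero h2
    rw [discrim] at h4
    have h5 : (2 * onorm (oc S 0)) ^ 2 - 4 * (dg S 2 * onorm (oc S 0)) * dg S 1 ≤ 0 := by
      exact_mod_cast h4
    rcases (onorm_nonneg (oc S 0)).eq_or_lt with h6 | h6
    · rw [← h6]; exact mul_nonneg (hS.dg_nonneg 1) (hS.dg_nonneg 2)
    · by_contra h7
      push Not at h7
      nlinarith [mul_pos h6 (sub_pos.2 h7)]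
  fin_cases i
  exacts [h1 h, h1 h.cyc_mem.cyc_mem, h1 h.cyc_mem]
theorem Psd.abs_le {T : Ix → ℚ} (h : Psd T) (l : Ix) : |T l| ≤ tr T one3 := by
  have h0 := h.dg_nonneg 0
  have h1 := h.dg_nonneg 1
  have h2 := h.dg_nonneg 2
  rw [psd_tr_one3]
  rcases l with i | ⟨i, k⟩
  · have e : T (.inl i) = dg T i := rfl
    rw [e, abs_of_nonneg (h.dg_nonneg i)]
    fin_cases i
    · show dg T 0 ≤ _
      linarith
    · show dg T 1 ≤ _
      linarith
    · show dg T 2 ≤ _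
      linarith
  · have e : T (.inr (i, k)) = oc T i k := rfl
    have h3 : oc T i k ^ 2 ≤ onorm (oc T i) :=
      Finset.single_le_sum (f := fun k => oc T i k ^ 2) (fun _ _ => sq_nonneg _)
        (Finset.mem_univ k)
    have h4 : dg T (i + 1) * dg T (i + 2) ≤ (dg T 0 + dg T 1 + dg T 2) ^ 2 := by
      have a := mul_nonneg h0 h1
      have b := mul_nonneg h1 h2
      have c := mul_nonneg h2 h0
      fin_cases i
      · show dg T 1 * dg T 2 ≤ _
        nlinarith [sq_nonneg (dg T 0), sq_nonneg (dg T 1), sq_nonneg (dg T 2)]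
      · show dg T 2 * dg T 0 ≤ _
        nlinarith [sq_nonneg (dg T 0), sq_nonneg (dg T 1), sq_nonneg (dg T 2)]
      · show dg T 0 * dg T 1 ≤ _
        nlinarith [sq_nonneg (dg T 0), sq_nonneg (dg T 1), sq_nonneg (dg T 2)]
    rw [e]
    exact abs_le_of_sq_le_sq (h3.trans ((h.onorm_le i).trans h4)) (by linarith)
theorem Psd.trace_le {Y : Ix → ℝ} (hY : Y ∈ Om) :
    ∃ ε : ℝ, 0 < ε ∧ ∀ T, Psd T → ε * ((tr T one3 : ℚ) : ℝ) ≤ tr (toR ℝ T) Y := by
  obtain ⟨e, he, h1⟩ := exists_sub_one3 hY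
  refine ⟨e, he, fun T hT => ?_⟩
  have h2 := hT _ h1
  rw [tr_sub_right, tr_smul_right, ← toR_one3, tr_toR] at h2
  linarith
theorem Psd.pos {T : Ix → ℚ} (h : Psd T) (h0 : T ≠ 0) {Y : Ix → ℝ} (hY : Y ∈ Om) :
    0 < tr (toR ℝ T) Y := by
  obtain ⟨e, he, h1⟩ := Psd.trace_le hY
  have h2 : 0 < tr T one3 := by
    by_contra h3
    push Not at h3
    exact h0 (funext fun l => abs_nonpos_iff.1 ((h.abs_le l).trans h3))
  exact (mul_pos he (by exact_mod_cast h2)).trans_le (h1 T h)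

/-- A matrix supported in a two by two block (`Om.block`). -/
theorem psd_block {T : Ix → ℚ} (i : Fin 3) (h0 : dg T i = 0) (h1 : oc T (i + 1) = 0)
    (h2 : oc T (i + 2) = 0) (hs : 0 ≤ dg T (i + 1)) (ht : 0 ≤ dg T (i + 2))
    (hx : onorm (oc T i) ≤ dg T (i + 1) * dg T (i + 2)) : Psd T :=
  fun Y hY => by
  have hb := Om.block hY i (s := dg (toR ℝ T) (i + 1)) (t := dg (toR ℝ T) (i + 2))
    (x := oc (toR ℝ T) i) (by rw [dg_toR]; exact_mod_cast hs) (by rw [dg_toR]; exact_mod_cast ht)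
    (by rw [dg_toR, dg_toR, oc_toR, onorm_cast]; exact_mod_cast hx)
  have k0 : dg (toR ℝ T) i = 0 := by rw [dg_toR, h0, Rat.cast_zero]
  have k1 : oc (toR ℝ T) (i + 1) = 0 := by rw [oc_toR, h1]; funext k; simp
  have k2 : oc (toR ℝ T) (i + 2) = 0 := by rw [oc_toR, h2]; funext k; simp
  rw [psd_tr_rot _ _ i, k0, k1, k2, oip_zero_left, oip_zero_left]
  linarith
theorem psd_TT (i : Ix) : Psd (TT i) := by
  rcases i with i | ⟨i, k⟩
  · intro Y hY
    have e : TT (.inl i) = ed i := rfl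
    rw [e, toR_ed, tr_comm, tr_ed]
    exact (Om.dg_pos hY i).le
  · have e : TT (.inr (i, k)) = mkJ (1 - Pi.single i 1) (Pi.single i (eps k)) := rfl
    have n1 : i + 1 ≠ i := by fin_cases i <;> decide
    have n2 : i + 2 ≠ i := by fin_cases i <;> decide
    rw [e]
    refine psd_block i ?_ ?_ ?_ ?_ ?_ ?_ <;> simp [n1, n2, onorm_eps]
theorem TT_ne_zero (i : Ix) : TT i ≠ 0 :=
  fun h => by
  obtain ⟨j, hj⟩ := TT_one i
  rw [h, dg_zero] at hj
  exact zero_ne_one hj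

theorem finite_psd {M : ℕ} (hM : 0 < M) {Y : Ix → ℝ} (hY : Y ∈ Om) (R : ℝ) :
    {T : Ix → ℚ | (M : ℚ) • T ∈ Lam ∧ Psd T ∧ tr (toR ℝ T) Y ≤ R}.Finite := by
  obtain ⟨e, he, h1⟩ := Psd.trace_le hY
  obtain ⟨B, hB⟩ := exists_rat_gt (R / e)
  refine (psd_fin_box hM B).subset fun T hT => ⟨hT.1, fun l => (hT.2.1.abs_le l).trans ?_⟩
  have h2 : ((tr T one3 : ℚ) : ℝ) ≤ R / e := by
    rw [le_div_iff₀ he]; linarith [h1 T hT.2.1, hT.2.2]
  exact_mod_cast h2.trans hB.le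

theorem finite_antidiag {M : ℕ} (hM : 0 < M) (T : Ix → ℚ) :
    {S : Ix → ℚ | (M : ℚ) • S ∈ Lam ∧ Psd S ∧ Psd (T - S)}.Finite := by
  refine (psd_fin_box hM (tr T one3)).subset fun S hS =>
    ⟨hS.1, fun l => (hS.2.1.abs_le l).trans ?_⟩
  have h1 := (abs_nonneg _).trans (hS.2.2.abs_le l)
  rw [tr_sub_left] at h1
  linarith

/-- There are at most `(4 n + 1) ^ 27` elements of trace `n` (`Psd.abs_le`, `Lam.two_mul`). -/
theorem summable_psd {Y : Ix → ℝ} (hY : Y ∈ Om) (k : ℕ) :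
    Summable fun T : {T : Ix → ℚ // T ∈ Lam ∧ Psd T} =>
      (1 + ((tr T.1 one3 : ℚ) : ℝ)) ^ k * Real.exp (-tr (toR ℝ T.1) Y) := by
  obtain ⟨e, he, h1⟩ := Psd.trace_le hY
  obtain ⟨C, hC, hk⟩ := psd_pow_le k (half_pos he)
  have hg : ∀ T : {T : Ix → ℚ // T ∈ Lam ∧ Psd T}, ∀ l, ((⌊2 * T.1 l⌋ : ℤ) : ℚ) = 2 * T.1 l := by
    intro T l
    obtain ⟨n, hn⟩ := Lam.two_mul T.2.1 l
    rw [hn, Int.floor_intCast]
  have hinj : Function.Injective
      fun (T : {T : Ix → ℚ // T ∈ Lam ∧ Psd T}) (l : Ix) => (⌊2 * T.1 l⌋ : ℤ) := by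
    intro T S hTS
    refine Subtype.ext (funext fun l => ?_)
    have h2 : (⌊2 * T.1 l⌋ : ℤ) = ⌊2 * S.1 l⌋ := congrFun hTS l
    have h3 := hg T l
    rw [h2, hg S l] at h3
    linarith
  have hs := ((psd_summable_pi (ι := Ix) (psd_summable_int (d := e / 108) (by positivity))
    fun _ => (Real.exp_pos _).le).comp_injective hinj).mul_left C
  have ht : ∀ T : {T : Ix → ℚ // T ∈ Lam ∧ Psd T}, (0 : ℝ) ≤ ((tr T.1 one3 : ℚ) : ℝ) := fun T => by
    exact_mod_cast (abs_nonneg _).trans (T.2.2.abs_le (.inl 0))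
  refine Summable.of_nonneg_of_le (fun T => ?_) (fun T => ?_) hs
  · have := ht T
    positivity
  · simp only [Function.comp_apply]
    rw [← Real.exp_sum]
    have h2 : ∑ l : Ix, |((⌊2 * T.1 l⌋ : ℤ) : ℝ)| ≤ 54 * ((tr T.1 one3 : ℚ) : ℝ) := by
      have h3 : ∀ l ∈ (Finset.univ : Finset Ix),
          |((⌊2 * T.1 l⌋ : ℤ) : ℝ)| ≤ 2 * ((tr T.1 one3 : ℚ) : ℝ) := by
        intro l _
        have h4 : |((⌊2 * T.1 l⌋ : ℤ) : ℚ)| ≤ 2 * tr T.1 one3 := by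
          rw [hg T l, abs_mul, abs_two]; linarith [T.2.2.abs_le l]
        exact_mod_cast h4
      have h5 := Finset.sum_le_card_nsmul _ _ _ h3
      have h6 : (Finset.univ : Finset Ix).card = 27 := by simp
      rw [h6, nsmul_eq_mul] at h5
      push_cast at h5
      linarith
    have h7 : e / 2 * ((tr T.1 one3 : ℚ) : ℝ) + -tr (toR ℝ T.1) Y ≤
        ∑ l : Ix, -(e / 108 * |((⌊2 * T.1 l⌋ : ℤ) : ℝ)|) := by
      rw [Finset.sum_neg_distrib, ← Finset.mul_sum]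
      have h8 := mul_le_mul_of_nonneg_left h2 (by positivity : 0 ≤ e / 108)
      linarith [h1 T.1 T.2.2]
    calc (1 + ((tr T.1 one3 : ℚ) : ℝ)) ^ k * Real.exp (-tr (toR ℝ T.1) Y)
        ≤ C * Real.exp (e / 2 * ((tr T.1 one3 : ℚ) : ℝ)) * Real.exp (-tr (toR ℝ T.1) Y) :=
          mul_le_mul_of_nonneg_right (hk _ (ht T)) (Real.exp_pos _).le
      _ = C * Real.exp (e / 2 * ((tr T.1 one3 : ℚ) : ℝ) + -tr (toR ℝ T.1) Y) := by
          rw [Real.exp_add, mul_assoc]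
      _ ≤ _ := mul_le_mul_of_nonneg_left (Real.exp_le_exp.2 h7) hC

end Pool.Agent.E7
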