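import Pool.Agent.Lib.MP_7e5527_ag.E7.Hol
import Pool.Agent.Lib.MP_7e5527_ag.E7.Jac

/-! The slash operator on holomorphic functions; transformation of brackets and Wronskians. -/

open scoped ContDiff

noncomputable section

namespace Pool.Agent.E7

theorem contDiffOn_act {g : Gb} (hg : g ∈ GG) : ContDiffOn ℂ ∞ (act g) HH :=
  contDiffOn_pi.2 fun l => ((polyFn_jf g).contDiff.contDiffOn.inv
    fun _ hZ => (act_spec hg hZ).1).mul (actx_polyFn g l).contDiff.contDiffOn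

theorem slh_zpow {g : Gb} (hg : g ∈ GG) (k : ℤ) : ContDiffOn ℂ ∞ (fun Z => jf g Z ^ k) HH := by
  have h : ContDiffOn ℂ ∞ (jf g) HH := (polyFn_jf g).contDiff.contDiffOn
  rcases k with n | n
  · simpa only [Int.ofNat_eq_natCast, zpow_natCast] using h.pow n
  · simp only [zpow_negSucc]
    exact (h.pow (n + 1)).inv fun _ hZ => pow_ne_zero _ (act_spec hg hZ).1

theorem IsHol.sl {F : Fn} (h : IsHol F) (k : ℤ) {g : Gb} (hg : g ∈ GG) : IsHol (sl k g F) :=
  isHol_res ((slh_zpow hg (-k)).mul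
    (ContDiffOn.comp h (contDiffOn_act hg) fun _ hZ => (act_spec hg hZ).2.1))

/-- Evaluation at a point. -/
def slh_ev (Z : HH) : Hol →+* ℂ := (Pi.evalRingHom (fun _ => ℂ) Z).comp Hol.val.toRingHom

theorem slh_ev_apply (Z : HH) (x : Hol) : (x : Fn) Z = slh_ev Z x := rfl

/-- The inclusion. -/
def slh_val : Hol →+* Fn := Hol.val.toRingHom

theorem slh_val_apply (x : Hol) : slh_val x = (x : Fn) := rfl

theorem slh_val_dH (i : Ix) (x : Hol) : slh_val (dH i x) = dl i (slh_val x) := rfl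

theorem slh_br (k : Option Ix → ℤ) (F : Option Ix → Hol) :
    slh_val (Wr.br (fun i x => dH i x) k F) = Wr.br dl k fun a => (F a : Fn) :=
  Wr.map_br (dl := fun i x => dH i x) (dl' := dl) slh_val slh_val_dH k F

theorem slh_Psi (k : Option Ix → ℤ) (F : Option Ix → Hol) (i1 : Ix) (w n : ℤ) {N : ℕ}
    (b : Fin N → Hol) : slh_val (Wr.Psi (fun i x => dH i x) k F i1 w n b) =
      Wr.Psi dl k (fun a => (F a : Fn)) i1 w n fun a => (b a : Fn) :=
  Wr.map_Psi (dl := fun i x => dH i x) (dl' := dl) slh_val slh_val_dH k F i1 w n b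

theorem slh_ev_zpow (Z : HH) (j : Holˣ) (n : ℤ) :
    slh_ev Z ((j ^ n : Holˣ) : Hol) = slh_ev Z j ^ n := by
  have h := congrArg Units.val (map_zpow (Units.map (slh_ev Z).toMonoidHom) j n)
  rwa [Units.val_zpow_eq_zpow_val] at h

theorem slh_chain {g : Gb} (hg : g ∈ GG) {F : Fn} (h : IsHol F) (i : Ix) (Z : HH) :
    dl i (sl 0 g F) Z =
      ∑ l, sl 0 g (dl l F) Z * yc (fderiv ℂ (act g) Z (toR ℂ (UU i))) l := by
  have hm := (act_spec hg Z.2).2.1
  have e : ext (sl 0 g F) =ᶠ[nhds (Z : Ix → ℂ)] ext F ∘ act g := by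
    filter_upwards [isOpen_HH.mem_nhds Z.2] with W hW
    simp only [ext, sl, coe_ofC hW, neg_zero, zpow_zero, one_mul, Function.comp_apply]
  have hπ : (2 * Real.pi * Complex.I : ℂ) ≠ 0 := Complex.two_pi_I_ne_zero
  rw [dl, e.fderiv_eq, fderiv_comp _ (h.differentiableAt hm) (differentiableAt_act hg Z.2),
    ContinuousLinearMap.comp_apply, fderiv_ext F ⟨_, hm⟩, inv_mul_cancel_left₀ hπ]
  simp only [sl, ofC_eq hm, neg_zero, zpow_zero, one_mul]

/-- `σ x = sl 0 γ x`, `j = res (jf γ)`, `J l i = sl`-free function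
`Z ↦ yc (fderiv ℂ (act γ) Z (toR ℂ (UU i))) l`; chain rule and `fderiv_ext`; `jac_det`,
`det_yc`. -/
theorem exists_slash {γ : Gb} (hγ : γ ∈ Gam) :
    ∃ (σ : Hol →+* Hol) (j : Holˣ) (J : Matrix Ix Ix Hol) (s : ℤ), s ^ 2 = 1 ∧
      (∀ i x, dH i (σ x) = ∑ l, σ (dH l x) * J l i) ∧
      J.det = (s : Hol) * ((j ^ (-(18 : ℤ)) : Holˣ) : Hol) ∧
      ∀ k x, ((Wr.sl σ j k x : Hol) : Fn) = sl k γ x := by
  have hg := Gam_le hγ
  obtain ⟨s, hs, hd⟩ := jac_det hγ
  have hJ : ∀ l i, IsHol (res fun Z => yc (fderiv ℂ (act γ) Z (toR ℂ (UU i))) l) := fun l i =>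
    isHol_res ((LinearMap.toContinuousLinearMap
      ((LinearMap.proj l).comp (latJ_ycL (F := ℂ)))).contDiff.comp_contDiffOn
      (((contDiffOn_act hg).fderiv_of_isOpen isOpen_HH (by simp)).clm_apply contDiffOn_const))
  let j : Holˣ := ⟨⟨res (jf γ), isHol_res (polyFn_jf γ).contDiff.contDiffOn⟩,
    ⟨res fun Z => (jf γ Z)⁻¹, isHol_res ((polyFn_jf γ).contDiff.contDiffOn.inv
      fun _ hZ => (act_spec hg hZ).1)⟩,
    Subtype.ext (funext fun Z => mul_inv_cancel₀ (act_spec hg Z.2).1),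
    Subtype.ext (funext fun Z => inv_mul_cancel₀ (act_spec hg Z.2).1)⟩
  refine ⟨{ toFun := fun x => ⟨sl 0 γ x, IsHol.sl x.2 0 hg⟩
            map_one' := Subtype.ext (sl_zero_one γ)
            map_mul' := fun x y => Subtype.ext (sl_mul_fn 0 0 hg x y)
            map_zero' := Subtype.ext (sl_zero 0 γ)
            map_add' := fun x y => Subtype.ext (sl_add 0 γ x y) }, j,
    Matrix.of fun l i => ⟨_, hJ l i⟩, s, hs, fun i x => Subtype.ext (funext fun Z => ?_),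
    Subtype.ext (funext fun Z => ?_), fun k x => funext fun Z => ?_⟩
  · refine (slh_chain hg x.2 i Z).trans ?_
    rw [slh_ev_apply, map_sum]
    exact Finset.sum_congr rfl fun l _ => rfl
  · rw [slh_ev_apply, slh_ev_apply, RingHom.map_det, map_mul, map_intCast, slh_ev_zpow]
    exact (det_yc (fderiv ℂ (act γ) Z : (Ix → ℂ) →ₗ[ℂ] Ix → ℂ)).trans (hd Z Z.2)
  · rw [slh_ev_apply, Wr.sl, map_mul, slh_ev_zpow]
    change jf γ Z ^ (-k) * sl 0 γ x Z = _
    simp only [sl, neg_zero, zpow_zero, one_mul]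

/-- `Wr.sl_br`, `Wr.map_br`, `sl_pow`. -/
theorem sl_br_sq {γ : Gb} (hγ : γ ∈ Gam) (k : Option Ix → ℤ) {F : Option Ix → Fn}
    (h : ∀ a, IsHol (F a)) :
    sl (2 * (∑ a, k a + 18)) γ (Wr.br dl k F ^ 2) =
      Wr.br dl k (fun a => sl (k a) γ (F a)) ^ 2 := by
  obtain ⟨σ, j, J, s, hs, h1, h2, h3⟩ := exists_slash hγ
  let G : Option Ix → Hol := fun a => ⟨F a, h a⟩
  have e : Wr.br (fun i x => dH i x) k (fun a => Wr.sl σ j (k a) (G a)) =
      (s : Hol) * Wr.sl σ j (∑ a, k a + 18) (Wr.br (fun i x => dH i x) k G) :=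
    Wr.sl_br (dl := fun i x => dH i x) dH σ j J h1 s 18 h2 k G
  have e' := congrArg slh_val e
  rw [slh_br, map_mul, map_intCast, slh_val_apply, h3, ← slh_val_apply, slh_br] at e'
  simp only [h3] at e'
  rw [show (fun a => sl (k a) γ (F a)) = fun a => sl (k a) γ (G a) from rfl, e', mul_pow,
    ← Int.cast_pow, hs, Int.cast_one, one_mul]
  exact sl_pow _ (Gam_le hγ) _ 2

/-- `Wr.sl_Psi`, `Wr.map_Psi`, `Wr.Psi_lin` with the matrix of `P.trans`. -/
theorem psi_slash {γ : Gb} (hγ : γ ∈ Gam) (k : Option Ix → ℤ) {F : Option Ix → Fn}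
    (h : ∀ a, IsHol (F a)) (i1 : Ix) {d : ℕ} (P : PB d) :
    sl (2 * wP k i1 P) γ (PsiF k F i1 P ^ 2) =
      PsiF k (fun a => sl (k a) γ (F a)) i1 P ^ 2 := by
  obtain ⟨σ, j, J, s, hs, h1, h2, h3⟩ := exists_slash hγ
  obtain ⟨R, hR, hb⟩ := P.trans γ hγ
  let G : Option Ix → Hol := fun a => ⟨F a, h a⟩
  let b : Fin P.D → Hol := fun α => ⟨pF (P.b α), isHol_pF _⟩
  have hb' : (fun α => Wr.sl σ j (-(d : ℤ)) (b α)) =
      fun α => ∑ β, R.map (Int.castRingHom Hol) α β * b β := by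
    funext α
    refine Subtype.ext ((h3 _ _).trans ((hb α).trans (funext fun Z => ?_)))
    rw [slh_ev_apply, map_sum, Finset.sum_apply]
    refine Finset.sum_congr rfl fun β _ => ?_
    rw [map_mul, Matrix.map_apply, eq_intCast, map_intCast]
    rfl
  have e : Wr.Psi (fun i x => dH i x) k (fun a => Wr.sl σ j (k a) (G a)) i1 (Wr.wStep k i1 18)
      (-(d : ℤ)) (fun α => Wr.sl σ j (-(d : ℤ)) (b α)) = (s : Hol) ^ (∑ m : Fin P.D, (m : ℕ)) *
        Wr.sl σ j (wP k i1 P) (Wr.Psi (fun i x => dH i x) k G i1 (Wr.wStep k i1 18) (-(d : ℤ)) b) :=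
    Wr.sl_Psi (dl := fun i x => dH i x) dH σ j J h1 s 18 h2 k G i1 (-(d : ℤ)) b
  have e0 : Wr.Psi (fun i x => dH i x) k (fun a => Wr.sl σ j (k a) (G a)) i1 (Wr.wStep k i1 18)
      (-(d : ℤ)) (fun α => ∑ β, R.map (Int.castRingHom Hol) α β * b β) =
      (R.map (Int.castRingHom Hol)).det * Wr.Psi (fun i x => dH i x) k
        (fun a => Wr.sl σ j (k a) (G a)) i1 (Wr.wStep k i1 18) (-(d : ℤ)) b :=
    Wr.Psi_lin dH k _ i1 _ _ b (R.map (Int.castRingHom Hol))
      fun a a' i => Derivation.map_intCast (dH i) (R a a')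
  rw [hb', e0, ← RingHom.mapMatrix_apply, ← RingHom.map_det, eq_intCast] at e
  have e' := congrArg slh_val e
  rw [map_mul, map_mul, map_pow, map_intCast, map_intCast, slh_Psi, slh_val_apply, h3,
    ← slh_val_apply, slh_Psi] at e'
  simp only [h3] at e'
  have e1 : (R.det : Fn) * PsiF k (fun a => sl (k a) γ (F a)) i1 P =
      (s : Fn) ^ (∑ m : Fin P.D, (m : ℕ)) * sl (wP k i1 P) γ (PsiF k F i1 P) := e'
  have e2 := congrArg (· ^ 2) e1
  simp only [mul_pow] at e2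
  rw [← pow_mul, mul_comm _ 2, pow_mul, ← Int.cast_pow, ← Int.cast_pow, hR, hs, Int.cast_one,
    one_pow, one_mul, one_mul] at e2
  rw [e2]
  exact sl_pow _ (Gam_le hγ) _ 2

end Pool.Agent.E7
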