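import Pool.Agent.Lib.MP_7e5527_ag.E7.WrA

/-! The bracket of the equations of the curve; homogenisation; a determinant. -/

noncomputable section

namespace Pool.Agent.E7

theorem wrc1_chain {σ R A : Type} [Fintype σ] [DecidableEq σ] [CommRing R] [CommRing A]
    [Algebra R A] (D : Derivation ℤ A A) (hc : ∀ c, D (algebraMap R A c) = 0) (f : σ → A)
    (P : MvPolynomial σ R) : D (MvPolynomial.aeval f P) =
      ∑ k, MvPolynomial.aeval f (MvPolynomial.pderiv k P) * D (f k) := by
  induction P using MvPolynomial.induction_on with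
  | C a => simp [hc]
  | add P Q hP hQ => simp only [map_add, hP, hQ, add_mul, Finset.sum_add_distrib]
  | mul_X P k hP =>
    simp [hP, Pi.single_apply, apply_ite, add_mul, Finset.sum_add_distrib, Finset.mul_sum,
      mul_assoc]

theorem wrc1_det {n A : Type} [Fintype n] [DecidableEq n] [CommRing A] (M M' : Matrix n n A)
    (a b c : n → A) (k l : n) (ak : a k = 0) (bk : b k = 0) (bl : b l = 0) (ck : c k = 1)
    (cl : c l = 1) (h : ∀ r o, M' r o = c o * M r o + b o * M r l + a o * M r k) :
    M'.det = (∏ o, c o) * M.det := by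
  rw [← Matrix.det_transpose M, ← Matrix.det_transpose M', ← Matrix.det_mul_column]
  refine (Matrix.det_eq_of_forall_row_eq_smul_add_const
    (B := Matrix.of fun o r => c o * M r o + b o * M r l) a k ak fun o r => ?_).trans
    (Matrix.det_eq_of_forall_row_eq_smul_add_const b l bl fun o r => ?_)
  · simp [h, ck, bk]
  · simp [cl]

/-- By the chain rule and the identity of Euler (`MvPolynomial.IsHomogeneous.sum_X_mul_pderiv`) the
column of the `j`-th equation is a combination of the columns of `t0`, `t i1`, `t j`. -/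
theorem Wr.Dk_aeval {ι R A : Type} [Fintype ι] [DecidableEq ι] [CommRing R] [CommRing A]
    [Algebra R A] (dl : ι → Derivation ℤ A A) (hc : ∀ i c, dl i (algebraMap R A c) = 0) (t0 : A)
    (t : ι → A) (w : ℤ) (Ph : ι → MvPolynomial (Fin 3) R) (m : ι → ℕ)
    (hP : ∀ j, (Ph j).IsHomogeneous (m j)) (i1 : ι) :
    Wr.Dk (fun i => dl i) (fun o => o.elim w fun j => w * (m j : ℤ))
        (fun o => o.elim t0 fun j => MvPolynomial.aeval ![t0, t i1, t j] (Ph j)) i1 w (t i1) =
      (∏ j ∈ Finset.univ.erase i1,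
        MvPolynomial.aeval ![t0, t i1, t j] (MvPolynomial.pderiv 2 (Ph j))) *
        Wr.br (fun i => dl i) (fun _ => w) fun o => o.elim t0 t := by
  let cf : Fin 3 → Option ι → A := fun k o => o.elim (![0, 0, 1] k) fun j =>
    if j = i1 then ![0, 0, 1] k
    else MvPolynomial.aeval ![t0, t i1, t j] (MvPolynomial.pderiv k (Ph j))
  rw [Wr.Dk_eq, wrc1_det (Wr.brM (fun i => dl i) (fun _ => w) fun o => o.elim t0 t) _ (cf 0) (cf 1)
    (cf 2) none (some i1) rfl rfl (if_pos rfl) rfl (if_pos rfl), Fintype.prod_option,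
    ← Finset.mul_prod_erase _ _ (Finset.mem_univ i1)]
  · congr 1
    simp only [cf, Option.elim, if_true, Matrix.cons_val, one_mul]
    exact Finset.prod_congr rfl fun j hj => if_neg (Finset.ne_of_mem_erase hj)
  intro r o
  obtain _ | j := o
  · simp [cf, Wr.brM]
  by_cases hj : j = i1
  · simp [cf, Wr.brM, hj]
  rw [Matrix.updateCol_ne (by simpa using hj)]
  simp only [cf, Wr.brM, Matrix.of_apply, Option.elim, if_neg hj]
  obtain _ | i := r
  · have h := congrArg (MvPolynomial.aeval ![t0, t i1, t j]) (hP j).sum_X_mul_pderiv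
    simp only [Fin.sum_univ_three, map_add, map_mul, MvPolynomial.aeval_X, Matrix.cons_val,
      nsmul_eq_mul, map_natCast] at h
    simp only [Wr.col, Option.elim]
    push_cast
    linear_combination -(w : A) * h
  · simp only [Wr.col, Option.elim, wrc1_chain _ (hc i), Fin.sum_univ_three, Matrix.cons_val]
    ring


theorem wrc2_aeval {K B : Type} [Field K] [CommRing B] [Algebra K B] (a b : B)
    (Q : MvPolynomial (Fin 3) K) :
    MvPolynomial.aeval ![a, b] (MvPolynomial.aeval
      (![1, MvPolynomial.X 0, MvPolynomial.X 1] : Fin 3 → MvPolynomial (Fin 2) K) Q) =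
      MvPolynomial.aeval ![1, a, b] Q := by
  rw [MvPolynomial.comp_aeval_apply]
  congr 2
  funext i
  fin_cases i <;> simp

theorem wrc2_pderiv {K : Type} [Field K] (Q : MvPolynomial (Fin 3) K) :
    MvPolynomial.aeval
        (![1, MvPolynomial.X 0, MvPolynomial.X 1] : Fin 3 → MvPolynomial (Fin 2) K)
        (MvPolynomial.pderiv 2 Q) =
      MvPolynomial.pderiv 1 (MvPolynomial.aeval
        (![1, MvPolynomial.X 0, MvPolynomial.X 1] : Fin 3 → MvPolynomial (Fin 2) K) Q) := by
  induction Q using MvPolynomial.induction_on with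
  | C c => simp
  | add p q hp hq => simp only [map_add, hp, hq]
  | mul_X p i hp =>
    simp only [map_mul, Derivation.leibniz, smul_eq_mul, map_add, hp, MvPolynomial.aeval_X]
    fin_cases i <;> simp

theorem wrc2_scale {σ K B : Type} [Field K] [CommRing B] [Algebra K B] {Q : MvPolynomial σ K}
    {m : ℕ} (h : Q.IsHomogeneous m) (c : B) (v : σ → B) :
    MvPolynomial.aeval (fun i => c * v i) Q = c ^ m * MvPolynomial.aeval v Q := by
  rw [MvPolynomial.aeval_def, MvPolynomial.aeval_def, MvPolynomial.eval₂_eq, MvPolynomial.eval₂_eq,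
    Finset.mul_sum]
  refine Finset.sum_congr rfl fun ν hν => ?_
  have h1 : ∑ i ∈ ν.support, ν i = m := by
    rw [← h (MvPolynomial.mem_support_iff.1 hν)]
    simp [Finsupp.weight_apply, Finsupp.sum]
  simp only [mul_pow, Finset.prod_mul_distrib, Finset.prod_pow_eq_pow_sum, h1]
  ring

theorem wrc2_sum {ι K : Type} [NormedField K] [IsUltrametricDist K] (s : Finset ι) {f : ι → K}
    {M : ℝ} (hM : 0 < M) (h : ∀ i, ‖f i‖ < M) : ‖∑ i ∈ s, f i‖ < M := by
  classical
  induction s using Finset.induction_on with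
  | empty => simpa using hM
  | insert a s ha ih =>
    rw [Finset.sum_insert ha]
    exact (IsUltrametricDist.norm_add_le_max _ _).trans_lt (max_lt (h a) ih)

/-- Homogenisation of a polynomial in two variables. -/
theorem exists_homog {K0 K : Type} [Field K0] [Field K] [Algebra K0 K] (E : IntermediateField K0 K)
    (P : MvPolynomial (Fin 2) K) (hE : ∀ ν, P.coeff ν ∈ E) :
    ∃ (m : ℕ) (Ph : MvPolynomial (Fin 3) K), Ph.IsHomogeneous m ∧ (∀ ν, Ph.coeff ν ∈ E) ∧
      ∀ (B : Type) [CommRing B] [Algebra K B] (a b : B),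
        MvPolynomial.aeval ![1, a, b] Ph = MvPolynomial.aeval ![a, b] P ∧
        MvPolynomial.aeval ![1, a, b] (MvPolynomial.pderiv 2 Ph) =
          MvPolynomial.aeval ![a, b] (MvPolynomial.pderiv 1 P) := by
  have key : ∃ Ph : MvPolynomial (Fin 3) K, Ph.IsHomogeneous P.totalDegree ∧
      (∀ ν, Ph.coeff ν ∈ E) ∧ MvPolynomial.aeval
        (![1, MvPolynomial.X 0, MvPolynomial.X 1] : Fin 3 → MvPolynomial (Fin 2) K) Ph = P := by
    refine ⟨∑ ν ∈ P.support, MvPolynomial.monomial
      (Finsupp.cons (P.totalDegree - (ν 0 + ν 1)) ν) (P.coeff ν), ?_, fun μ => ?_, ?_⟩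
    · refine MvPolynomial.IsHomogeneous.sum _ _ _ fun ν hν =>
        MvPolynomial.isHomogeneous_monomial _ ?_
      have h1 := MvPolynomial.le_totalDegree hν
      rw [Finsupp.sum_fintype _ _ fun _ => rfl, Fin.sum_univ_two] at h1
      rw [Finsupp.degree_eq_sum, Fin.sum_univ_succ, Fin.sum_univ_two, Finsupp.cons_zero,
        Finsupp.cons_succ, Finsupp.cons_succ]
      omega
    · rw [MvPolynomial.coeff_sum]
      refine sum_mem fun ν _ => ?_
      rw [MvPolynomial.coeff_monomial]
      split_ifs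
      · exact hE ν
      · exact zero_mem E
    · rw [map_sum]
      conv_rhs => rw [P.as_sum]
      refine Finset.sum_congr rfl fun ν _ => ?_
      rw [MvPolynomial.aeval_monomial, MvPolynomial.monomial_eq,
        Finsupp.prod_fintype _ _ fun _ => pow_zero _, Finsupp.prod_fintype _ _ fun _ => pow_zero _,
        Fin.prod_univ_succ, Fin.prod_univ_two, Fin.prod_univ_two, Finsupp.cons_succ,
        Finsupp.cons_succ]
      simp
  obtain ⟨Ph, h1, h2, h3⟩ := key
  refine ⟨_, Ph, h1, h2, fun B _ _ a b => ⟨?_, ?_⟩⟩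
  · rw [← wrc2_aeval, h3]
  · rw [← wrc2_aeval, wrc2_pderiv, h3]

/-- Dehomogenisation of a non zero homogeneous polynomial. -/
theorem exists_dehomog {K : Type} [Field K] {Ph : MvPolynomial (Fin 3) K} {m : ℕ} (h0 : Ph ≠ 0)
    (h : Ph.IsHomogeneous m) : ∃ P : MvPolynomial (Fin 2) K, P ≠ 0 ∧
      ∀ (B : Type) [CommRing B] [Algebra K B] (a b : B),
        MvPolynomial.aeval ![a, b] P = MvPolynomial.aeval ![1, a, b] Ph := by
  refine ⟨_, fun e => h0 ?_, fun B _ _ a b => wrc2_aeval a b Ph⟩
  let L := FractionRing (MvPolynomial (Fin 3) K)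
  let φ := IsScalarTower.toAlgHom K (MvPolynomial (Fin 3) K) L
  have hφ : Function.Injective φ := IsFractionRing.injective (MvPolynomial (Fin 3) K) L
  have h1 : φ (MvPolynomial.X 0) ≠ 0 := fun e =>
    MvPolynomial.X_ne_zero _ (hφ (e.trans (map_zero φ).symm))
  have h2 := wrc2_aeval (φ (MvPolynomial.X 1) / φ (MvPolynomial.X 0))
    (φ (MvPolynomial.X 2) / φ (MvPolynomial.X 0)) Ph
  rw [e, map_zero] at h2
  have h3 := wrc2_scale h (φ (MvPolynomial.X 0)) ![1, φ (MvPolynomial.X 1) / φ (MvPolynomial.X 0),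
    φ (MvPolynomial.X 2) / φ (MvPolynomial.X 0)]
  rw [← h2, mul_zero] at h3
  have h4 := MvPolynomial.comp_aeval_apply MvPolynomial.X φ Ph
  rw [MvPolynomial.aeval_X_left_apply] at h4
  refine hφ ?_
  rw [map_zero, h4, ← h3]
  congr 2
  funext i
  fin_cases i <;> simp [mul_div_cancel₀ _ h1]

/-- A matrix that is upper triangular with unit diagonal modulo the maximal ideal. -/
theorem det_ne_zero_of_small {ι K : Type} [Fintype ι] [DecidableEq ι] [NormedField K]
    [IsUltrametricDist K] (N : Matrix (Option ι) (Option ι) K) (h0 : ‖N none none‖ = 1)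
    (h1 : ∀ j, ‖N none (some j)‖ ≤ 1) (h2 : ∀ l, ‖N (some l) none‖ < 1)
    (h3 : ∀ l j, ‖N (some l) (some j) - if l = j then 1 else 0‖ < 1) : N.det ≠ 0 := by
  intro hd
  obtain ⟨v, hv0, hv⟩ := Matrix.exists_mulVec_eq_zero_iff.2 hd
  obtain ⟨r, -, hr⟩ := Finset.exists_max_image Finset.univ (fun r => ‖v r‖) Finset.univ_nonempty
  have hM : 0 < ‖v r‖ := by
    obtain ⟨i, hi⟩ := Function.ne_iff.1 hv0
    exact (norm_pos_iff.2 hi).trans_le (hr i (Finset.mem_univ i))
  have hm : ∀ (c : K) (i : Option ι), ‖c‖ < 1 → ‖c * v i‖ < ‖v r‖ := fun c i hc => by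
    rw [norm_mul]
    exact (mul_le_mul_of_nonneg_left (hr i (Finset.mem_univ i)) (norm_nonneg c)).trans_lt
      (mul_lt_of_lt_one_left hM hc)
  have hl : ∀ l, ‖v (some l)‖ < ‖v r‖ := fun l => by
    have e := congrFun hv (some l)
    rw [Matrix.mulVec, dotProduct, Fintype.sum_option, Pi.zero_apply] at e
    have e2 : -v (some l) = N (some l) none * v none +
        ∑ j, (N (some l) (some j) - if l = j then 1 else 0) * v (some j) := by
      simp only [sub_mul, Finset.sum_sub_distrib, ite_mul, one_mul, zero_mul, Finset.sum_ite_eq,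
        Finset.mem_univ, if_true]
      linear_combination -e
    rw [← norm_neg, e2]
    exact (IsUltrametricDist.norm_add_le_max _ _).trans_lt
      (max_lt (hm _ _ (h2 l)) (wrc2_sum _ hM fun j => hm _ _ (h3 l j)))
  cases r with
  | some l => exact lt_irrefl _ (hl l)
  | none =>
    have e := congrFun hv none
    rw [Matrix.mulVec, dotProduct, Fintype.sum_option, Pi.zero_apply, add_eq_zero_iff_eq_neg] at e
    have e2 := wrc2_sum Finset.univ hM (f := fun j => N none (some j) * v (some j)) fun j => by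
      rw [norm_mul]
      exact (mul_le_of_le_one_left (norm_nonneg _) (h1 j)).trans_lt (hl j)
    rw [← norm_neg, ← e, norm_mul, h0, one_mul] at e2
    exact lt_irrefl _ e2

end Pool.Agent.E7
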