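import Pool.Agent.Lib.MP_7e5527_ag.E7.MFs
import Pool.Agent.Lib.MP_7e5527_ag.E7.SlH
import Pool.Agent.Lib.MP_7e5527_ag.E7.PolyP
import Pool.Agent.Lib.MP_7e5527_ag.E7.WrC

/-! The squares of the Wronskian and of the Jacobian are modular forms. -/

noncomputable section

namespace Pool.Agent.E7

/-- The square is `aeval yF` of a polynomial over `GQ` (`exists_dP`, `Wr.map_Psi`, `aeval_map_pF`)
and is periodic (`GoodC.periodic`, `psi_slash`); use `poly_periodic`. -/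
theorem psi_gd (k : Option Ix → ℤ) {F : Option Ix → Fn} (h : ∀ a, Gd (F a)) (i1 : Ix) {d : ℕ}
    (P : PB d) : Gd (PsiF k F i1 P ^ 2) := by
  classical
  obtain ⟨D, -, -, hD⟩ := exists_dP GQ_le_Hol fun i F hF => GQ.dl_mem i hF
  have e := Wr.map_Psi (dl := fun i => D i) (dl' := dl)
    (MvPolynomial.aeval yF : MvPolynomial Ix GQ →ₐ[GQ] Fn).toRingHom hD k
    (fun a => MvPolynomial.C ⟨F a, h a⟩) i1 (Wr.wStep k i1 18) (-(d : ℤ))
    fun α => MvPolynomial.map ((algebraMap ℂ GQ).comp (algebraMap ℚ ℂ)) (P.b α)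
  generalize Wr.Psi (fun i => ⇑(D i)) k (fun a => MvPolynomial.C ⟨F a, h a⟩) i1 (Wr.wStep k i1 18)
    (-(d : ℤ)) (fun α => MvPolynomial.map ((algebraMap ℂ GQ).comp (algebraMap ℚ ℂ)) (P.b α)) = W
    at e
  have e1 : MvPolynomial.aeval yF W = PsiF k F i1 P := by
    refine e.trans ?_
    rw [PsiF]
    congr 1
    · funext a
      exact MvPolynomial.aeval_C yF _
    · funext α
      exact aeval_map_pF GQ (P.b α)
  have e2 : MvPolynomial.aeval yF (W ^ 2) = PsiF k F i1 P ^ 2 := by rw [map_pow, e1]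
  choose M hM hP using fun a => (h a).spec.periodic
  have e3 := poly_periodic le_rfl (W ^ 2) (k := 2 * wP k i1 P) (M := ∏ a, M a)
    (Finset.prod_pos fun a _ => hM a) fun B hB => by
      rw [e2, psi_slash (nE_mem_Gam (Lam.nsmul hB _)) k (fun a => (h a).isHol)]
      congr 2
      funext a
      rw [← Finset.mul_prod_erase _ M (Finset.mem_univ a)]
      exact hP a _ _ B hB
  rw [← e2, e3, MvPolynomial.aeval_C]
  exact ((W ^ 2).coeff 0).2

theorem psi_main {k : Option Ix → ℤ} {F : Option Ix → Fn} (h : ∀ a, M2 (k a) (F a)) (i1 : Ix)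
    {d : ℕ} (P : PB d) : M2 (2 * wP k i1 P) (PsiF k F i1 P ^ 2) := by
  have hH : ∀ a, IsHol (F a) := fun a => (h a).1.gd.isHol
  have hi : Inv Gam2 (2 * wP k i1 P) (PsiF k F i1 P ^ 2) := fun δ hδ => by
    rw [psi_slash (Gam2_le hδ) k hH, funext fun a => (h a).2 δ hδ]
  refine ⟨⟨fun γ hγ => ?_, hi.finite Gam2_le Gam2_index⟩, hi⟩
  rw [psi_slash hγ k hH]
  exact psi_gd k (fun a => (h a).1.1 γ hγ) i1 P

theorem psi_four {k : Option Ix → ℤ} {F : Option Ix → Fn} (h : ∀ a, M2 (k a) (F a)) (i1 : Ix)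
    {d : ℕ} (P : PB d) : M2 (4 * wP k i1 P) (PsiF k F i1 P ^ 4) := by
  have h1 := psi_main h i1 P
  have e1 : 4 * wP k i1 P = ((2 : ℕ) : ℤ) * (2 * wP k i1 P) := by push_cast; ring
  have e2 : PsiF k F i1 P ^ 4 = (PsiF k F i1 P ^ 2) ^ 2 := by rw [← pow_mul]
  rw [e1, e2]
  exact ⟨h1.1.pow 2, h1.2.pow Gam2_le 2⟩

theorem br_main {k : Option Ix → ℤ} {F : Option Ix → Fn} (h : ∀ a, M2 (k a) (F a)) :
    M2 (2 * (∑ a, k a + 18)) (Wr.br dl k F ^ 2) := by
  have hH : ∀ a, IsHol (F a) := fun a => (h a).1.gd.isHol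
  have hi : Inv Gam2 (2 * (∑ a, k a + 18)) (Wr.br dl k F ^ 2) := fun δ hδ => by
    rw [sl_br_sq (Gam2_le hδ) k hH, funext fun a => (h a).2 δ hδ]
  refine ⟨⟨fun γ hγ => ?_, hi.finite Gam2_le Gam2_index⟩, hi⟩
  rw [sl_br_sq hγ k hH]
  exact GQ.pow_mem (br_mem GQ (fun i _ hF => GQ.dl_mem i hF) k fun a => (h a).1.1 γ hγ) 2

theorem ThF_m2 : M2 4 ThF := ⟨ThF_mf, ThF_inv.mono Gam2_le⟩
theorem Thi_m2 (i : Ix) : M2 4 (Thi i) := ⟨(Thi_spec i).2, Thi_inv i⟩
theorem JacF_m2 : M2 260 (JacF ^ 2) := by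
  have h := br_main (k := fun _ => 4) (F := FF Thi) fun a => by
    cases a with
    | none => exact ThF_m2
    | some i => exact Thi_m2 i
  have e : 2 * (∑ _a : Option Ix, (4 : ℤ) + 18) = 260 := by
    simp [Finset.card_univ, Fintype.card_option]
  rwa [e] at h
theorem JacF_mem : JacF ∈ GZ := by
  refine br_mem GZ (fun i _ hF => GZ.dl_mem i hF) _ fun a => ?_
  cases a with
  | none => exact ThF_mem
  | some i => exact Thi_mem i

/-- `Wr.Dk_aeval` in the ring `Hol`. -/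
theorem Dk_eq_prod (Ph : Ix → MvPolynomial (Fin 3) ℂ) (m : Ix → ℕ)
    (hP : ∀ j, (Ph j).IsHomogeneous (m j)) (i1 : Ix) :
    Wr.Dk dl (kk m) (FF fun j => MvPolynomial.aeval ![ThF, Thi i1, Thi j] (Ph j)) i1 4 (Thi i1) =
      (∏ j ∈ Finset.univ.erase i1,
        MvPolynomial.aeval ![ThF, Thi i1, Thi j] (MvPolynomial.pderiv 2 (Ph j))) * JacF := by
  obtain ⟨t0, h0⟩ : ∃ t0 : Hol, (t0 : Fn) = ThF := ⟨⟨ThF, ThF_mf.gd.isHol⟩, rfl⟩
  obtain ⟨t, ht⟩ : ∃ t : Ix → Hol, ∀ i, (t i : Fn) = Thi i :=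
    ⟨fun i => ⟨Thi i, (Thi_spec i).2.gd.isHol⟩, fun _ => rfl⟩
  have hσ : ∀ i x, Hol.val.toRingHom (dH i x) = dl i (Hol.val.toRingHom x) := fun _ _ => rfl
  have ha : ∀ j (Q : MvPolynomial (Fin 3) ℂ), Hol.val.toRingHom (MvPolynomial.aeval
      ![t0, t i1, t j] Q) = MvPolynomial.aeval ![ThF, Thi i1, Thi j] Q := by
    intro j Q
    refine (MvPolynomial.comp_aeval_apply ![t0, t i1, t j] Hol.val Q).trans ?_
    congr 2
    funext r
    fin_cases r
    · exact h0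
    · exact ht i1
    · exact ht j
  have h := (Wr.map_Dk (dl := fun i => dH i) (dl' := dl) Hol.val.toRingHom hσ _ _ _ _ _).symm.trans
    ((congrArg Hol.val.toRingHom (Wr.Dk_aeval dH dH_const t0 t 4 Ph m hP i1)).trans
      ((map_mul _ _ _).trans (congrArg₂ (· * ·) (map_prod _ _ _)
        (Wr.map_br (dl := fun i => dH i) (dl' := dl) Hol.val.toRingHom hσ _ _))))
  have e1 : (fun a : Option Ix => Hol.val.toRingHom
      (a.elim t0 fun j => MvPolynomial.aeval ![t0, t i1, t j] (Ph j))) =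
      FF fun j => MvPolynomial.aeval ![ThF, Thi i1, Thi j] (Ph j) := by
    funext a
    cases a with
    | none => exact h0
    | some j => exact ha j _
  have e2 : (fun a : Option Ix => Hol.val.toRingHom (a.elim t0 t)) = FF Thi := by
    funext a
    cases a with
    | none => exact h0
    | some j => exact ht j
  have e3 : Hol.val.toRingHom (t i1) = Thi i1 := ht i1
  rw [e1, e2, e3, Finset.prod_congr rfl fun j _ => ha j _] at h
  exact h

end Pool.Agent.E7
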