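import Pool.Agent.Lib.MP_7e5527_ag.E7.FDefs

/-! The slash operator. -/

open Filter Topology

noncomputable section

namespace Pool.Agent.E7

theorem ofC_coe (Z : HH) : ofC Z = Z := dif_pos Z.2
theorem coe_ofC {Z : Ix → ℂ} (h : Z ∈ HH) : (ofC Z : Ix → ℂ) = Z := by
  rw [ofC, dif_pos h]
theorem ofC_eq {Z : Ix → ℂ} (h : Z ∈ HH) : ofC Z = ⟨Z, h⟩ := dif_pos h
theorem res_ext (F : Fn) : res (ext F) = F := funext fun Z => congrArg F (ofC_coe Z)
theorem ext_res (F : (Ix → ℂ) → ℂ) {Z : Ix → ℂ} (h : Z ∈ HH) : ext (res F) Z = F Z :=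
  congrArg F (coe_ofC h)

theorem sl_one (k : ℤ) (F : Fn) : sl k 1 F = F := by
  funext Z
  rw [sl, jf_one, act_one, ofC_coe, one_zpow, one_mul]
theorem sl_mul (k : ℤ) {g g' : Gb} (hg : g ∈ GG) (hg' : g' ∈ GG) (F : Fn) :
    sl k (g * g') F = sl k g' (sl k g F) := by
  funext Z
  simp only [sl]
  rw [jf_mul g hg' Z.2, act_mul hg hg' Z.2, coe_ofC (act_spec hg' Z.2).2.1, mul_zpow]
  ring
theorem sl_mul_apply (k : ℤ) {g g' : Gb} (hg : g ∈ GG) (hg' : g' ∈ GG) (F : Fn) (Z : HH) :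
    sl k (g * g') F Z = jf g' Z ^ (-k) * sl k g F (ofC (act g' Z)) := by
  rw [sl_mul k hg hg']
  rfl
theorem sl_zero (k : ℤ) (g : Gb) : sl k g 0 = 0 := funext fun _ => mul_zero _
theorem sl_add (k : ℤ) (g : Gb) (F G : Fn) : sl k g (F + G) = sl k g F + sl k g G :=
  funext fun _ => mul_add _ _ _
theorem sl_smul (k : ℤ) (g : Gb) (c : ℂ) (F : Fn) : sl k g (c • F) = c • sl k g F :=
  funext fun _ => mul_left_comm _ _ _
theorem sl_sum (k : ℤ) (g : Gb) {α : Type} (s : Finset α) (F : α → Fn) :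
    sl k g (∑ a ∈ s, F a) = ∑ a ∈ s, sl k g (F a) := by
  funext Z
  simp only [sl, Finset.sum_apply, Finset.mul_sum]
theorem sl_zero_one (g : Gb) : sl 0 g 1 = 1 := by
  funext Z
  simp [sl]
theorem sl_mul_fn (k l : ℤ) {g : Gb} (hg : g ∈ GG) (F G : Fn) :
    sl (k + l) g (F * G) = sl k g F * sl l g G := by
  funext Z
  simp only [sl, Pi.mul_apply]
  rw [neg_add, zpow_add₀ (act_spec hg Z.2).1]
  ring
theorem sl_pow (k : ℤ) {g : Gb} (hg : g ∈ GG) (F : Fn) (n : ℕ) :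
    sl (n * k) g (F ^ n) = sl k g F ^ n := by
  induction n with
  | zero => simpa using sl_zero_one g
  | succ n ih => rw [pow_succ, pow_succ, Nat.cast_succ, add_mul, one_mul, sl_mul_fn _ _ hg, ih]
theorem sl_prod {g : Gb} (hg : g ∈ GG) {α : Type} (s : Finset α) (k : α → ℤ) (F : α → Fn) :
    sl (∑ a ∈ s, k a) g (∏ a ∈ s, F a) = ∏ a ∈ s, sl (k a) g (F a) := by
  classical
  induction s using Finset.induction_on with
  | empty => simpa using sl_zero_one g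
  | insert a s ha ih =>
    rw [Finset.sum_insert ha, Finset.prod_insert ha, Finset.prod_insert ha, sl_mul_fn _ _ hg, ih]
theorem sl_nE (k : ℤ) (B : Ix → ℚ) (F : Fn) (Z : HH) :
    sl k (nE (toR ℂ B)) F Z = F (ofC (Z + toR ℂ B)) := by
  rw [sl, jf_nE, act_nE, one_zpow, one_mul]

theorem Inv.mono {Δ Δ' : Subgroup Gb} (h : Δ ≤ Δ') {k : ℤ} {F : Fn} (hF : Inv Δ' k F) :
    Inv Δ k F := fun δ hδ => hF δ (h hδ)
theorem Inv.zero (Δ : Subgroup Gb) (k : ℤ) : Inv Δ k 0 := fun δ _ => sl_zero k δ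
theorem Inv.one (Δ : Subgroup Gb) : Inv Δ 0 1 := fun δ _ => sl_zero_one δ
theorem Inv.add {Δ : Subgroup Gb} {k : ℤ} {F G : Fn} (hF : Inv Δ k F) (hG : Inv Δ k G) :
    Inv Δ k (F + G) := fun δ hδ => by rw [sl_add, hF δ hδ, hG δ hδ]
theorem Inv.smul {Δ : Subgroup Gb} {k : ℤ} {F : Fn} (hF : Inv Δ k F) (c : ℂ) :
    Inv Δ k (c • F) := fun δ hδ => by rw [sl_smul, hF δ hδ]
theorem Inv.sum {Δ : Subgroup Gb} {k : ℤ} {α : Type} (s : Finset α) {F : α → Fn}
    (h : ∀ a ∈ s, Inv Δ k (F a)) : Inv Δ k (∑ a ∈ s, F a) := fun δ hδ => by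
  rw [sl_sum]
  exact Finset.sum_congr rfl fun a ha => h a ha δ hδ
theorem Inv.mul {Δ : Subgroup Gb} (h : Δ ≤ Gam) {k l : ℤ} {F G : Fn} (hF : Inv Δ k F)
    (hG : Inv Δ l G) : Inv Δ (k + l) (F * G) := fun δ hδ => by
  rw [sl_mul_fn _ _ (Gam_le (h hδ)), hF δ hδ, hG δ hδ]
theorem Inv.pow {Δ : Subgroup Gb} (h : Δ ≤ Gam) {k : ℤ} {F : Fn} (hF : Inv Δ k F) (n : ℕ) :
    Inv Δ (n * k) (F ^ n) := fun δ hδ => by rw [sl_pow _ (Gam_le (h hδ)), hF δ hδ]
theorem Inv.prod {Δ : Subgroup Gb} (h : Δ ≤ Gam) {α : Type} (s : Finset α) {k : α → ℤ}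
    {F : α → Fn} (hF : ∀ a ∈ s, Inv Δ (k a) (F a)) : Inv Δ (∑ a ∈ s, k a) (∏ a ∈ s, F a) := by
  intro δ hδ
  rw [sl_prod (Gam_le (h hδ))]
  exact Finset.prod_congr rfl fun a ha => hF a ha δ hδ

/-- The stabiliser in `Gam` of a family of functions of weight `k`. -/
def stabF {α : Type} (k : ℤ) (F : α → Fn) : Subgroup Gb where
  carrier := {γ | γ ∈ Gam ∧ ∀ a, sl k γ (F a) = F a}
  mul_mem' := fun {x y} hx hy => ⟨mul_mem hx.1 hy.1, fun a => by
    rw [sl_mul k (Gam_le hx.1) (Gam_le hy.1), hx.2, hy.2]⟩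
  one_mem' := ⟨one_mem _, fun a => sl_one k (F a)⟩
  inv_mem' := fun {x} hx => ⟨inv_mem hx.1, fun a => by
    have h := sl_mul k (Gam_le hx.1) (Gam_le (inv_mem hx.1)) (F a)
    rw [mul_inv_cancel, sl_one, hx.2] at h
    exact h.symm⟩

theorem stabF_le {α : Type} (k : ℤ) (F : α → Fn) : stabF k F ≤ Gam := fun _ h => h.1

/-- Finite orbits give finite index: the cosets inject in a finite product of orbits. -/
theorem stabF_index {α : Type} [Finite α] (k : ℤ) (F : α → Fn)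
    (h : ∀ a, {G | ∃ γ ∈ Gam, G = sl k γ (F a)}.Finite) : (stabF k F).relIndex Gam ≠ 0 := by
  have := fun a => (h a).to_subtype
  let f : Gam ⧸ (stabF k F).subgroupOf Gam → ∀ a, {G | ∃ γ ∈ Gam, G = sl k γ (F a)} :=
    fun q a => ⟨sl k ((q.out⁻¹ : Gam) : Gb) (F a), _, (q.out⁻¹ : Gam).2, rfl⟩
  have hf : Function.Injective f := by
    intro q q' e
    rw [← q.out_eq', ← q'.out_eq', QuotientGroup.eq]
    refine ⟨(q.out⁻¹ * q'.out : Gam).2, fun a => ?_⟩
    have e1 : sl k ((q.out⁻¹ : Gam) : Gb) (F a) = sl k ((q'.out⁻¹ : Gam) : Gb) (F a) :=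
      congrArg Subtype.val (congrFun e a)
    show sl k (((q.out⁻¹ : Gam) : Gb) * (q'.out : Gam)) (F a) = F a
    rw [sl_mul k (Gam_le (q.out⁻¹ : Gam).2) (Gam_le q'.out.2), e1,
      ← sl_mul k (Gam_le (q'.out⁻¹ : Gam).2) (Gam_le q'.out.2), ← Subgroup.coe_mul,
      inv_mul_cancel, Subgroup.coe_one, sl_one]
  have := Finite.of_injective f hf
  exact Subgroup.index_ne_zero_of_finite

/-- Invariance under a subgroup of finite index gives a finite orbit (`exists_trans`). -/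
theorem Inv.finite {Δ : Subgroup Gb} (h : Δ ≤ Gam) (hi : Δ.relIndex Gam ≠ 0) {k : ℤ} {F : Fn}
    (hF : Inv Δ k F) : {G | ∃ γ ∈ Gam, G = sl k γ F}.Finite := by
  obtain ⟨τ, _, ⟨T⟩⟩ := exists_trans h hi
  refine (Set.finite_range fun t => sl k (T.rep t) F).subset ?_
  rintro _ ⟨γ, hγ, rfl⟩
  obtain ⟨t, δ, hδ, rfl⟩ := T.cover γ hγ
  exact ⟨t, by rw [sl_mul k (Gam_le (h hδ)) (Gam_le (T.mem t)), hF δ hδ]⟩

/-- The level of the class sums. -/
def Gam2 : Subgroup Gb := stabF 4 Thi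

theorem Arc.eventually_mem {h : ℂ → Ix → ℂ} (hA : Arc h) : ∀ᶠ t in 𝓝 (0 : ℂ), h t ∈ HH :=
  hA.an.continuousAt.eventually (isOpen_HH.mem_nhds hA.mem)
theorem van_move {h : ℂ → Ix → ℂ} (hA : Arc h) {g : Gb} (hg : g ∈ GG) (k : ℤ) (F : Fn) :
    Van (sl k g F) h ↔ Van F fun t => act g (h t) := by
  refine eventually_congr (hA.eventually_mem.mono fun t ht => ?_)
  rw [sl, coe_ofC ht, mul_eq_zero, or_iff_right (zpow_ne_zero _ (act_spec hg ht).1)]

theorem slx_hom {σ : Type} [Fintype σ] {P : MvPolynomial σ ℂ} {m : ℕ} (hP : P.IsHomogeneous m)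
    (c : ℂ) (x : σ → ℂ) :
    MvPolynomial.eval (fun i => c * x i) P = c ^ m * MvPolynomial.eval x P := by
  rw [MvPolynomial.eval_eq', MvPolynomial.eval_eq', Finset.mul_sum]
  refine Finset.sum_congr rfl fun s hs => ?_
  have h1 : ∑ i, s i = m := by
    have h2 := hP (MvPolynomial.mem_support_iff.1 hs)
    rw [Finsupp.weight_apply, Finsupp.sum_fintype _ _ (by simp)] at h2
    simpa using h2
  simp only [mul_pow, Finset.prod_mul_distrib, Finset.prod_pow_eq_pow_sum, h1]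
  ring

/-- Analyticity from `differentiableAt_act`; density from `exists_poly_act`, `poly_eq_zero`; an
invariant form along the moved arc is `jf ^ k` times the form along the arc. -/
theorem Arc.move {h : ℂ → Ix → ℂ} (hA : Arc h) {γ : Gb} (hγ : γ ∈ Gam) :
    Arc fun t => act γ (h t) := by
  have hg := Gam_le hγ
  refine ⟨?_, (act_spec hg hA.mem).2.1, fun P hP => ?_, fun k F hF => ?_⟩
  · refine Complex.analyticAt_iff_eventually_differentiableAt.2 ?_
    filter_upwards [hA.eventually_mem, hA.an.eventually_analyticAt] with t h1 h2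
    exact (differentiableAt_act hg h1).comp t h2.differentiableAt
  · obtain ⟨P', hP'⟩ := exists_poly_act hg P
    have h0 : P' = 0 := by
      refine hA.dense P' ?_
      filter_upwards [hA.eventually_mem, hP] with t h1 h2
      rw [hP' _ h1, h2, mul_zero]
    refine poly_eq_zero fun Z hZ => ?_
    have h1 := (act_spec (inv_mem hg) hZ).2.1
    have h2 := hP' _ h1
    rw [h0, map_zero, ← act_mul hg (inv_mem hg) hZ, mul_inv_cancel, act_one] at h2
    exact (mul_eq_zero.1 h2.symm).resolve_left (pow_ne_zero _ (act_spec hg h1).1)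
  · obtain ⟨P, m, h0, hm, hP⟩ := hA.crv k F hF
    refine ⟨P, m, h0, hm, ?_⟩
    filter_upwards [hA.eventually_mem, hP] with t h1 h2
    have e : (fun i => F i (ofC (act γ (h t)))) = fun i => jf γ (h t) ^ k * F i (ofC (h t)) := by
      funext i
      rw [← congrFun ((hF i).2 γ hγ) (ofC (h t)), sl, coe_ofC h1, ← mul_assoc,
        ← zpow_add₀ (act_spec hg h1).1, add_neg_cancel, zpow_zero, one_mul]
    rw [e, slx_hom hm, h2, mul_zero]

end Pool.Agent.E7
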