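import Pool.Agent.Lib.MP_7e5527_ag.E7.Act
import Pool.Agent.Lib.MP_7e5527_ag.E7.Psd

/-! The stabiliser of the cusp is the affine group. -/

noncomputable section

namespace Pool.Agent.E7

theorem sy_sim {g : Gb} (hg : g ∈ GG) : ∃ ν : ℂ, ν ≠ 0 ∧ ∀ v v', sy (g v) (g v') = ν * sy v v' := by
  refine GG_ind (p := fun g => ∃ ν : ℂ, ν ≠ 0 ∧ ∀ v v', sy (g v) (g v') = ν * sy v v')
    (fun B => ⟨1, one_ne_zero, fun v v' => by rw [sy_nE, one_mul]⟩)
    (fun A c g hA hm => ⟨c, by exact_mod_cast hA.pos.ne', fun v v' => by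
      rw [hm v, hm v', sy_mfun c hA.1]⟩)
    ⟨1, one_ne_zero, fun v v' => by rw [sy_w0E, one_mul]⟩ ?_ g hg
  rintro g - g' - ⟨ν, h0, h⟩ ⟨ν', h0', h'⟩
  refine ⟨ν * ν', mul_ne_zero h0 h0', fun v v' => ?_⟩
  rw [LinearEquiv.mul_apply, LinearEquiv.mul_apply, h, h', mul_assoc]

theorem WQ_map {g : Gb} (hg : g ∈ GG) {v : W} (hv : v ∈ WQ) : g v ∈ WQ := by
  refine GG_ind (p := fun g => ∀ v ∈ WQ, g v ∈ WQ) ?_ ?_ ?_
    (fun g _ g' _ h h' v hv => h _ (h' v hv)) g hg v hv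
  · rintro B ⟨a, b, c, d⟩ ⟨⟨a', ha⟩, ⟨T, hT⟩, ⟨T', hT'⟩, d', hd⟩
    dsimp only at ha hT hT' hd
    subst ha hT hT' hd
    refine ⟨⟨a', rfl⟩, ⟨T + a' • B, ?_⟩, ⟨T' + cross T B + a' • sharp B, ?_⟩,
      d' + tr T' B + tr T (sharp B) + a' * nrm B, ?_⟩
    · rw [toR_add, toR_smul]
      rfl
    · rw [toR_add, toR_add, toR_smul, ← cross_toR, ← sharp_toR]
      rfl
    · push_cast
      rw [← tr_toR, ← tr_toR, ← sharp_toR, ← nrm_toR]
      rfl
  · rintro A e g - hm ⟨a, b, c, d⟩ ⟨⟨a', ha⟩, ⟨T, hT⟩, ⟨T', hT'⟩, d', hd⟩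
    dsimp only at ha hT hT' hd
    subst ha hT hT' hd
    rw [hm]
    refine ⟨⟨a', rfl⟩, ⟨lin A T, lin_toR A T⟩, ⟨e • lin (adjM A)⁻¹ T', ?_⟩, e * d', ?_⟩
    · rw [toR_smul, ← lin_toR]
      rfl
    · push_cast
      rfl
  · rintro ⟨a, b, c, d⟩ ⟨⟨a', ha⟩, ⟨T, hT⟩, ⟨T', hT'⟩, d', hd⟩
    dsimp only at ha hT hT' hd
    subst ha hT hT' hd
    refine ⟨⟨dg T 0, rfl⟩, ⟨mkJ ![-a', dg T' 2, dg T' 1] ![-oc T' 0, oc T 1, oc T 2], ?_⟩,
      ⟨mkJ ![d', -dg T 2, -dg T 1] ![oc T 0, oc T' 1, oc T' 2], ?_⟩, -dg T' 0, ?_⟩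
    · change mkJ ![-(a' : ℂ), dg (toR ℂ T') 2, dg (toR ℂ T') 1]
        ![-oc (toR ℂ T') 0, oc (toR ℂ T) 1, oc (toR ℂ T) 2] = _
      apply jext <;> simp [dg_toR, oc_toR]
      funext k
      simp
    · change mkJ ![(d' : ℂ), -dg (toR ℂ T) 2, -dg (toR ℂ T) 1]
        ![oc (toR ℂ T) 0, oc (toR ℂ T') 1, oc (toR ℂ T') 2] = _
      apply jext <;> simp [dg_toR, oc_toR]
    · push_cast
      rfl

theorem stab_lead {a b : ℝ} (h : ∀ y : ℝ, 0 < y → 0 ≤ a * y ^ 2 + b) : 0 ≤ a := by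
  by_contra hn
  push Not at hn
  have h1 : 0 ≤ (|b| + 1) / -a := div_nonneg (by positivity) (by linarith)
  have h2 := h ((|b| + 1) / -a + 1) (by linarith)
  have h3 : -a * ((|b| + 1) / -a) = |b| + 1 := mul_div_cancel₀ _ (by linarith)
  generalize (|b| + 1) / -a = y at h1 h2 h3
  have h4 := le_abs_self b
  nlinarith [mul_nonneg h1 h1]

/-- A real cubic that maps the upper half plane to its closure has degree at most one: the
imaginary part at `x + i y` is `y (c3 (3 x ^ 2 - y ^ 2) + 2 c2 x + c1)`. -/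
theorem cubic_deg {c0 c1 c2 c3 : ℝ}
    (h : ∀ s : ℂ, 0 < s.im → 0 ≤ ((c0 : ℂ) + c1 * s + c2 * s ^ 2 + c3 * s ^ 3).im) :
    c2 = 0 ∧ c3 = 0 := by
  have key : ∀ x y : ℝ, 0 < y → 0 ≤ c3 * (3 * x ^ 2 - y ^ 2) + 2 * c2 * x + c1 := by
    intro x y hy
    have h1 := h ⟨x, y⟩ hy
    have e : ((c0 : ℂ) + c1 * (⟨x, y⟩ : ℂ) + c2 * (⟨x, y⟩ : ℂ) ^ 2 + c3 * (⟨x, y⟩ : ℂ) ^ 3).im =
        y * (c3 * (3 * x ^ 2 - y ^ 2) + 2 * c2 * x + c1) := by
      simp [pow_succ]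
      ring
    rw [e] at h1
    exact (mul_nonneg_iff_of_pos_left hy).1 h1
  have h1 : 0 ≤ -c3 := stab_lead (b := c1) fun y hy => by
    have := key 0 y hy
    linarith
  have h2 : 0 ≤ 3 * c3 := stab_lead (b := c1 - c3) fun x _ => by
    have h3 := key x 1 one_pos
    have h4 := key (-x) 1 one_pos
    linarith
  have h3 : c3 = 0 := by linarith
  subst h3
  have h4 : 0 ≤ 2 * c2 := stab_lead (b := c1) fun x _ => by
    have := key (x ^ 2) 1 one_pos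
    linarith
  have h5 : 0 ≤ -(2 * c2) := stab_lead (b := c1) fun x _ => by
    have := key (-x ^ 2) 1 one_pos
    linarith
  exact ⟨by linarith, rfl⟩

theorem stab_rr (s : ℂ) (Z : Ix → ℂ) : rr (s • Z) = ((1, 0, 0, 0) : W) + s • ((0, Z, 0, 0) : W) +
    s ^ 2 • ((0, 0, sharp Z, 0) : W) + (s ^ 3 * nrm Z) • ee := by
  simp [rr, ee, sharp_smul, nrm_smul]

theorem stab_mat (L : (Ix → ℂ) →ₗ[ℂ] (Ix → ℂ)) (h : ∀ T, ∃ T', L (toR ℂ T) = toR ℂ T') :
    ∃ A : Matrix Ix Ix ℚ, ∀ Z, lin A Z = L Z := by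
  choose f hf using h
  exact ⟨matOf f, lin_matOf f L L.map_add L.map_smul hf⟩

theorem stab_lin_re (A : Matrix Ix Ix ℚ) (Y : Ix → ℝ) :
    lin A (fun l => (Y l : ℂ)) = fun l => ((lin A Y l : ℝ) : ℂ) := lin_map Complex.ofRealHom A Y

theorem stab_sharp_re (Y : Ix → ℝ) :
    sharp (fun l => (Y l : ℂ)) = fun l => ((sharp Y l : ℝ) : ℂ) := sharp_map Complex.ofRealHom Y

theorem stab_cross_re (X Y : Ix → ℝ) : cross (fun l => (X l : ℂ)) (fun l => (Y l : ℂ)) =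
    fun l => ((cross X Y l : ℝ) : ℂ) := cross_map Complex.ofRealHom X Y

theorem stab_tr_re (T : Ix → ℚ) (Y : Ix → ℝ) :
    tr (toR ℂ T) (fun l => (Y l : ℂ)) = ((tr (toR ℝ T) Y : ℝ) : ℂ) := by
  have e : toR ℂ T = fun l => ((toR ℝ T l : ℝ) : ℂ) := by
    funext l
    simp [toR]
  rw [e]
  exact tr_map Complex.ofRealHom _ Y

theorem stab_kill {C : Matrix Ix Ix ℚ} (h : ∀ Y ∈ Om, lin C (sharp Y) = 0) (Z : Ix → ℂ) :
    lin C (sharp Z) = 0 := by
  have h1 : ∀ X : Ix → ℝ, lin C (sharp X) = 0 := by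
    intro X
    obtain ⟨s, hs⟩ := Filter.eventually_atTop.1 (eventually_add_one3 X)
    have k : ∀ u, s ≤ u → ∀ l, lin C (sharp X) l + u * lin C (cross X one3) l +
        u ^ 2 * lin C (sharp (one3 : Ix → ℝ)) l = 0 := by
      intro u hu l
      have := h _ (hs u hu)
      rw [sharp_add, cross_smul_right, sharp_smul, lin_add, lin_add, lin_smul, lin_smul] at this
      exact congrFun this l
    funext l
    have k0 := k s le_rfl l
    have k1 := k (s + 1) (by linarith) l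
    have k2 := k (s + 2) (by linarith) l
    rw [Pi.zero_apply]
    linear_combination ((s + 1) * (s + 2) / 2) * k0 - s * (s + 2) * k1 + (s * (s + 1) / 2) * k2
  have h2 : ∀ X X' : Ix → ℝ, lin C (cross X X') = 0 := by
    intro X X'
    rw [cross, lin_sub, lin_sub, h1, h1, h1, sub_zero, sub_zero]
  have e : Z = (fun l => ((Z l).re : ℂ)) + Complex.I • fun l => ((Z l).im : ℂ) := by
    funext l
    simp only [Pi.add_apply, Pi.smul_apply, smul_eq_mul]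
    rw [mul_comm, Complex.re_add_im]
  rw [e, sharp_add, cross_smul_right, sharp_smul, lin_add, lin_add, lin_smul, lin_smul,
    stab_sharp_re, stab_sharp_re, stab_cross_re, stab_lin_re, stab_lin_re, stab_lin_re, h1, h1, h2]
  funext l
  simp

/-- By `sy_sim`, `sy_ee` the first coordinate of `g v` is `t v.1`, so `jf g = t` and
`act g Z = B + A Z + C (sharp Z) + nrm Z • D` with rational data (`WQ_map`). For real `Y ∈ Om`
apply `cubic_deg` to `s ↦ tr (TT i) (act g (s Y))` (`smul_mem_HH`, `psd_TT`, `im_tr`): `D = 0`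
(`pt_yc`), and `C (sharp Y) = 0` for `Y ∈ Om`, hence `C = 0` (for `Z = i Y`; or extend by a
polynomial identity and use `eq_zero_of_rr`). -/
theorem stab_affine {g : Gb} (hg : g ∈ GG) {s : ℂ} (h : g ee = s • ee) :
    ∃ (t : ℚ) (B : Ix → ℚ) (A : Matrix Ix Ix ℚ), t ≠ 0 ∧
      ∀ Z, jf g Z = t ∧ act g Z = lin A Z + toR ℂ B := by
  obtain ⟨ν, hν, hsy⟩ := sy_sim hg
  have h1 : ∀ v, s * (g v).1 = ν * v.1 := by
    intro v
    have h2 := hsy v ee
    have h3 := sy_smul 1 s (g v) ee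
    rw [one_smul, one_mul, sy_ee] at h3
    rw [h, h3, sy_ee] at h2
    exact h2
  have q0 : ((1, 0, 0, 0) : W) ∈ WQ :=
    ⟨⟨1, by simp⟩, ⟨0, toR_zero.symm⟩, ⟨0, toR_zero.symm⟩, 0, by simp⟩
  obtain ⟨⟨t, ht⟩, ⟨B, hB⟩, -⟩ := WQ_map hg q0
  have h2 : s * t = ν := by
    rw [← ht, h1, mul_one]
  have hs : s ≠ 0 := fun e => hν (by rw [← h2, e, zero_mul])
  have ht0 : (t : ℂ) ≠ 0 := fun e => hν (by rw [← h2, e, mul_zero])
  have hj : ∀ Z, jf g Z = t := fun Z => mul_left_cancel₀ hs (by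
    rw [jf, h1, h2]
    exact mul_one ν)
  let π : W →ₗ[ℂ] (Ix → ℂ) := (t : ℂ)⁻¹ • ((LinearMap.fst ℂ _ _).comp
    ((LinearMap.snd ℂ _ _).comp g.toLinearMap))
  have hπ : ∀ v, π v = (t : ℂ)⁻¹ • (g v).2.1 := fun _ => rfl
  have hπq : ∀ v ∈ WQ, ∃ T', π v = toR ℂ T' := by
    intro v hv
    obtain ⟨-, ⟨T, hT⟩, -⟩ := WQ_map hg hv
    exact ⟨t⁻¹ • T, by rw [hπ, hT, toR_smul, Rat.cast_inv]⟩
  obtain ⟨A, hA⟩ := stab_mat (π.comp ((LinearMap.inr ℂ _ _).comp (LinearMap.inl ℂ _ _))) fun T =>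
    hπq (0, toR ℂ T, 0, 0) ⟨⟨0, by simp⟩, ⟨T, rfl⟩, ⟨0, toR_zero.symm⟩, 0, by simp⟩
  obtain ⟨C, hC⟩ := stab_mat (π.comp ((LinearMap.inr ℂ _ _).comp ((LinearMap.inr ℂ _ _).comp
    (LinearMap.inl ℂ _ _)))) fun T =>
    hπq (0, 0, toR ℂ T, 0) ⟨⟨0, by simp⟩, ⟨0, toR_zero.symm⟩, ⟨T, rfl⟩, 0, by simp⟩
  have hA' : ∀ Z, π (0, Z, 0, 0) = lin A Z := fun Z => (hA Z).symm
  have hC' : ∀ Z, π (0, 0, Z, 0) = lin C Z := fun Z => (hC Z).symm
  have he : π ee = 0 := by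
    rw [hπ, h]
    simp [ee]
  have h0 : π (1, 0, 0, 0) = toR ℂ (t⁻¹ • B) := by rw [hπ, hB, toR_smul, Rat.cast_inv]
  have hact : ∀ (u : ℂ) Z, act g (u • Z) =
      toR ℂ (t⁻¹ • B) + u • lin A Z + u ^ 2 • lin C (sharp Z) := by
    intro u Z
    rw [act, hj, ← hπ, stab_rr, map_add, map_add, map_add, map_smul, map_smul, map_smul, he, h0,
      hA', hC', smul_zero, add_zero]
  have hk : ∀ Y ∈ Om, lin C (sharp Y) = 0 := by
    intro Y hY
    have hy : yc (lin C (sharp Y)) = 0 := by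
      funext i
      refine (cubic_deg (c0 := ((tr (TT i) (t⁻¹ • B) : ℚ) : ℝ)) (c1 := yc (lin A Y) i)
        (c2 := yc (lin C (sharp Y)) i) (c3 := 0) fun u hu => ?_).1
      have h3 := psd_TT i _ (act_spec hg (smul_mem_HH hY hu)).2.1
      rw [← im_tr, hact, tr_add_right, tr_add_right, tr_smul_right, tr_smul_right, tr_toR,
        stab_sharp_re, stab_lin_re, stab_lin_re, stab_tr_re, stab_tr_re] at h3
      refine h3.trans_eq ?_
      congr 1
      simp only [yc, Complex.ofReal_zero, Complex.ofReal_ratCast]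
      ring
    rw [← pt_yc (lin C (sharp Y)), hy]
    simp [pt]
  refine ⟨t, t⁻¹ • B, A, by exact_mod_cast ht0, fun Z => ⟨hj Z, ?_⟩⟩
  have := hact 1 Z
  rw [one_smul, one_smul, stab_kill hk, smul_zero, add_zero, add_comm] at this
  exact this

theorem stab_cone {g : Gb} (hg : g ∈ GG) {B : Ix → ℚ} {A : Matrix Ix Ix ℚ}
    (h : ∀ Z, act g Z = lin A Z + toR ℂ B) {Y : Ix → ℝ} (hY : Y ∈ Om) : lin A Y ∈ Om := by
  have h1 := (act_spec hg (smul_mem_HH hY (s := Complex.I) (by simp))).2.1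
  rw [h, lin_smul, stab_lin_re] at h1
  have e : (fun l => ((Complex.I • (fun l => ((lin A Y l : ℝ) : ℂ)) + toR ℂ B) l).im) =
      lin A Y := by
    funext l
    simp [toR]
  rw [← e]
  exact h1

theorem stab_poly (A : Matrix Ix Ix ℚ) : PolyFn fun Z => nrm (lin A Z) := by
  refine ⟨nrm fun l => ∑ m, MvPolynomial.C (A l m : ℂ) * MvPolynomial.X m, fun Z => ?_⟩
  rw [← nrm_map (MvPolynomial.eval Z)]
  refine congrArg nrm (funext fun l => ?_)
  simp [lin, Matrix.mulVec, dotProduct]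

theorem stab_nrm_one3 : nrm (one3 : Ix → ℂ) = 1 := by
  rw [nrm_eq]
  simp [one3, onorm_zero, omul_zero_left, oip_zero_left]

/-- Apply `stab_affine` to `g` and `g⁻¹`: `A` is invertible and preserves the cone. The last
coordinate of `nE (-B) (g (rr Z)) = t • rr (A Z)` is a linear form in `rr Z`; homogeneity gives
`nrm (A Z) = c nrm Z`, `c = nrm (A one3)`. Conclude with `mfun_rr`, `ext_rr`. -/
theorem stab {g : Gb} (hg : g ∈ GG) {s : ℂ} (h : g ee = s • ee) :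
    ∃ t B A c, IsP g t B A c := by
  obtain ⟨t, B, A, ht, hg1⟩ := stab_affine hg h
  have hs : s ≠ 0 := by
    rintro rfl
    rw [zero_smul, map_eq_zero_iff g g.injective] at h
    simp [ee] at h
  have h' : g⁻¹ ee = s⁻¹ • ee := by
    apply g.injective
    rw [map_smul, h, smul_smul, inv_mul_cancel₀ hs, one_smul, ← LinearEquiv.mul_apply,
      mul_inv_cancel]
    rfl
  obtain ⟨t', B', A', -, hg2⟩ := stab_affine (inv_mem hg) h'
  have hAA : A * A' = 1 := by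
    have k : ∀ Z ∈ HH, lin (A * A') Z + lin A (toR ℂ B') + toR ℂ B = Z := by
      intro Z hZ
      have := act_mul hg (inv_mem hg) hZ
      rw [mul_inv_cancel, act_one, (hg1 _).2, (hg2 _).2, lin_add, ← lin_mul] at this
      exact this.symm
    have hZ := smul_mem_HH one3_mem (s := Complex.I) (by simp)
    refine lin_ext (F := ℚ) fun T => toR_inj (F := ℂ) ?_
    have k1 := k _ hZ
    have k2 := k _ (HH.add_toR hZ T)
    rw [lin_add, lin_toR (A * A') T] at k2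
    rw [lin_one]
    linear_combination k2 - k1
  have hdet : IsUnit A.det := Matrix.isUnit_det_of_right_inverse hAA
  have hAA' : A' * A = 1 := mul_eq_one_comm.1 hAA
  have hrr : ∀ Z ∈ HH, g (rr Z) = (t : ℂ) • nE (toR ℂ B) (rr (lin A Z)) := by
    intro Z hZ
    rw [(act_spec hg hZ).2.2, (hg1 Z).1, (hg1 Z).2, nE_rr]
  let φ : W →ₗ[ℂ] ℂ := (LinearMap.snd ℂ _ _).comp ((LinearMap.snd ℂ _ _).comp
    ((LinearMap.snd ℂ _ _).comp ((nE (-toR ℂ B)).toLinearMap.comp g.toLinearMap)))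
  have hφ : ∀ v, φ v = (nE (-toR ℂ B) (g v)).2.2.2 := fun _ => rfl
  have h1 : ∀ Z, φ (rr Z) + -(t : ℂ) * nrm (lin A Z) = 0 := by
    refine PolyFn.eq_zero ((polyFn_rr φ).add ((PolyFn.const _).mul (stab_poly A))) fun Z hZ => ?_
    rw [hφ, hrr Z hZ, nE_rr, map_smul, nE_rr, add_neg_cancel_right]
    simp [rr]
  have ht' : (t : ℂ) ≠ 0 := by exact_mod_cast ht
  have h2 : ∀ Z, (t : ℂ) * nrm (lin A Z) = nrm Z * φ ee := by
    intro Z
    have k : ∀ u : ℂ, φ (1, 0, 0, 0) + u * φ (0, Z, 0, 0) + u ^ 2 * φ (0, 0, sharp Z, 0) +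
        u ^ 3 * nrm Z * φ ee + -(t : ℂ) * (u ^ 3 * nrm (lin A Z)) = 0 := by
      intro u
      have := h1 (u • Z)
      rw [stab_rr, map_add, map_add, map_add, map_smul, map_smul, map_smul, lin_smul,
        nrm_smul] at this
      exact this
    linear_combination (1 / 6 : ℂ) * (k 1 - k (-1)) - (1 / 12 : ℂ) * (k 2 - k (-2))
  have hn : ∀ Z : Ix → ℂ, nrm (lin A Z) = (nrm (lin A (one3 : Ix → ℚ)) : ℚ) * nrm Z := by
    intro Z
    have k := h2 one3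
    rw [stab_nrm_one3, one_mul, ← toR_one3, lin_toR, nrm_toR] at k
    refine mul_left_cancel₀ ht' ?_
    rw [h2, ← k]
    ring
  have hsim : IsSim A (nrm (lin A (one3 : Ix → ℚ))) := by
    refine ⟨hdet, hn, fun Y => ⟨fun hY => ?_, stab_cone hg fun Z => (hg1 Z).2⟩⟩
    have := stab_cone (inv_mem hg) (fun Z => (hg2 Z).2) hY
    rwa [← lin_mul, hAA', lin_one] at this
  obtain ⟨m, hm⟩ := exists_m hsim
  refine ⟨t, B, A, _, ht, hsim, fun v => ?_⟩
  have := ext_rr g.toLinearMap ((t : ℂ) • (nE (toR ℂ B)).toLinearMap.comp m.toLinearMap)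
    fun Z hZ => by
      change g (rr Z) = (t : ℂ) • nE (toR ℂ B) (m (rr Z))
      rw [hrr Z hZ, hm, mfun_rr hsim]
  rw [← hm v]
  exact LinearMap.congr_fun this v

/-- Apply `stab` to `wE * m * wE⁻¹`. -/
theorem IsSim.adj {A : Matrix Ix Ix ℚ} {c : ℚ} (h : IsSim A c) : IsSim (adjM A) c := by
  obtain ⟨m, hm⟩ := exists_m h
  have hw : wE ∈ GG := Gam_le wE_mem
  have hv : ∀ v : W, (wE * m * wE⁻¹) v =
      (c * v.1, (c : ℂ) • lin (adjM A)⁻¹ v.2.1, lin A v.2.2.1, v.2.2.2) := by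
    intro v
    change wE (m (-v.2.2.2, v.2.2.1, -v.2.1, v.1)) = _
    rw [hm]
    change ((c : ℂ) * v.1, -((c : ℂ) • lin (adjM A)⁻¹ (-v.2.1)), lin A v.2.2.1, - -v.2.2.2) = _
    rw [neg_neg, ← neg_one_smul ℂ v.2.1, lin_smul, neg_one_smul, smul_neg, neg_neg]
  obtain ⟨t, B, A', c', ht, hsim, hP⟩ := stab (mul_mem (mul_mem hw (hm.mem_GG h)) (inv_mem hw))
    (s := 1) (by
      rw [hv, one_smul]
      simp [ee, lin_zero])
  have hc : (c : ℂ) ≠ 0 := by exact_mod_cast h.pos.ne'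
  have h1 : (c : ℂ) = t := by
    have := congrArg Prod.fst (hP (1, 0, 0, 0))
    rw [hv] at this
    simpa [nfun, mfun] using this
  have h2 : c' = c⁻¹ := by
    have := congrArg (fun v : W => v.2.2.2) (hP ee)
    simp only [hv] at this
    simp [nfun, mfun, ee, lin_zero, tr_zero_left, ← h1] at this
    have e : c * c' = 1 := by exact_mod_cast this.symm
    exact eq_inv_of_mul_eq_one_right e
  have h3 : A' = (adjM A)⁻¹ := by
    refine lin_ext (F := ℂ) fun Z => ?_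
    have := congrArg (fun v : W => v.2.1) (hP (0, Z, 0, 0))
    simp only [hv] at this
    simp only [nfun, mfun, Prod.smul_snd, Prod.smul_fst, zero_smul, add_zero, ← h1] at this
    exact (smul_right_injective _ hc this).symm
  have h4 := hsim.symm
  rwa [h2, h3, inv_inv, Matrix.nonsing_inv_nonsing_inv _ (by rw [det_adjM]; exact h.1)] at h4

theorem IsSimZ.adj {A : Matrix Ix Ix ℚ} (h : IsSimZ A) : IsSimZ (adjM A) := by
  exact ⟨h.1.adj, h.adj_mem⟩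

theorem IsSim.sharp_adj {A : Matrix Ix Ix ℚ} {c : ℚ} (h : IsSim A c) (T : Ix → ℚ) :
    sharp (lin (adjM A) T) = 0 ↔ sharp T = 0 := by
  rw [h.adj.sharp_lin (Rat.castHom ℂ) T, adjM_adjM]
  constructor
  · intro h1
    have hc : ((c : ℚ) : ℚ) ≠ 0 := h.pos.ne'
    have h2 := (smul_eq_zero.1 h1).resolve_left hc
    rw [← lin_lin_inv h.1 (sharp T), h2, lin_zero]
  · intro h1
    rw [h1, lin_zero, smul_zero]

end Pool.Agent.E7
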