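import Pool.Agent.Lib.MP_7e5527_ag.E7.Cone

/-! The tube domain, the generators, polynomial functions. -/

noncomputable section

namespace Pool.Agent.E7

theorem isOpen_HH : IsOpen HH := by
  exact isOpen_Om.preimage
    (continuous_pi fun l => Complex.continuous_im.comp (continuous_apply l))
theorem HH.add_toR {Z : Ix → ℂ} (h : Z ∈ HH) (B : Ix → ℚ) : Z + toR ℂ B ∈ HH := by
  have e : (fun l => ((Z + toR ℂ B) l).im) = fun l => (Z l).im := by
    funext l
    simp [toR]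
  show (fun l => ((Z + toR ℂ B) l).im) ∈ Om
  rw [e]
  exact h
theorem HH.lin_mem {Z : Ix → ℂ} (h : Z ∈ HH) {A : Matrix Ix Ix ℚ} {c : ℚ} (hA : IsSim A c) :
    lin A Z ∈ HH := by
  show (fun l => (lin A Z l).im) ∈ Om
  rw [im_lin]
  exact (hA.2.2 _).2 h
theorem HH.dg_im_pos {Z : Ix → ℂ} (h : Z ∈ HH) (i : Fin 3) : 0 < (dg Z i).im := by
  exact Om.dg_pos (Y := fun l => (Z l).im) h i
theorem HH.dg_ne {Z : Ix → ℂ} (h : Z ∈ HH) (i : Fin 3) : dg Z i ≠ 0 := by
  intro h0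
  have h1 := HH.dg_im_pos h i
  rw [h0] at h1
  simp at h1
theorem smul_mem_HH {Y : Ix → ℝ} (hY : Y ∈ Om) {s : ℂ} (hs : 0 < s.im) :
    (s • fun l => (Y l : ℂ)) ∈ HH := by
  have e : (fun l => ((s • fun l => (Y l : ℂ)) l).im) = s.im • Y := by
    funext l
    simp
  show (fun l => ((s • fun l => (Y l : ℂ)) l).im) ∈ Om
  rw [e]
  exact Om.smul hY hs

theorem nE_apply (B : Ix → ℂ) (v : W) : nE B v = nfun B v := rfl
theorem nE_rr (B Z : Ix → ℂ) : nE B (rr Z) = rr (Z + B) := by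
  simp only [nE_apply, nfun, rr, sharp_add, nrm_add, one_smul, one_mul]
theorem nE_add (B B' : Ix → ℂ) : nE (B + B') = nE B * nE B' := by
  apply LinearEquiv.ext
  intro v
  obtain ⟨a, b, c, d⟩ := v
  simp only [LinearEquiv.mul_apply, nE_apply, nfun, sharp_add, nrm_add, cross_add_left,
    cross_add_right, cross_smul_left, tr_add_left, tr_add_right, tr_smul_left, tr_cross,
    cross_comm B' B, tr_comm (sharp B') B, tr_comm B' (sharp B), Prod.mk.injEq, true_and]
  refine ⟨by module, by module, by ring⟩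
theorem nE_zero : nE 0 = 1 := by
  apply LinearEquiv.ext
  intro v
  obtain ⟨a, b, c, d⟩ := v
  simp [nE_apply, nfun, cross_zero_right, sharp_zero, nrm_zero, tr_zero_right]
theorem nE_neg (B : Ix → ℂ) : nE (-B) = (nE B)⁻¹ := by
  apply eq_inv_of_mul_eq_one_left
  rw [← nE_add, neg_add_cancel, nE_zero]
theorem mfun_rr {A : Matrix Ix Ix ℚ} {c : ℚ} (h : IsSim A c) (Z : Ix → ℂ) :
    mfun A c (rr Z) = rr (lin A Z) := by
  simp only [mfun, rr, h.sharp_lin (RingHom.id ℂ) Z, h.2.1 Z]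
theorem tube1_wE_apply (v : W) : wE v = (v.2.2.2, -v.2.2.1, v.2.1, -v.1) := rfl
theorem tube1_wE_inv_apply (v : W) : wE⁻¹ v = (-v.2.2.2, v.2.2.1, -v.2.1, v.1) := rfl
theorem tube1_cE_apply (v : W) : cE v = (v.1, cyc v.2.1, cyc v.2.2.1, v.2.2.2) := rfl
theorem tube1_cE_inv_apply (v : W) :
    cE⁻¹ v = (v.1, cyc (cyc v.2.1), cyc (cyc v.2.2.1), v.2.2.2) := rfl
theorem tube1_w0E_apply (v : W) : w0E v = (dg v.2.1 0,
    mkJ ![-v.1, dg v.2.2.1 2, dg v.2.2.1 1] ![-oc v.2.2.1 0, oc v.2.1 1, oc v.2.1 2],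
    mkJ ![v.2.2.2, -dg v.2.1 2, -dg v.2.1 1] ![oc v.2.1 0, oc v.2.2.1 1, oc v.2.2.1 2],
    -dg v.2.2.1 0) := rfl
theorem wE_rr {Z : Ix → ℂ} (h : nrm Z ≠ 0) : wE (rr Z) = nrm Z • rr (inv Z) := by
  rw [tube1_wE_apply]
  simp only [rr, inv, sharp_smul, sharp_sharp, nrm_smul, nrm_sharp, Prod.smul_mk, smul_smul,
    smul_eq_mul, mul_one, Prod.mk.injEq, true_and]
  refine ⟨?_, ?_, ?_⟩
  · have e : nrm Z * -(nrm Z)⁻¹ = -1 := by field_simp
    rw [e, neg_one_smul]
  · have e : nrm Z * ((-(nrm Z)⁻¹) ^ 2 * nrm Z) = 1 := by field_simp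
    rw [e, one_smul]
  · field_simp

/-- The second block of `w0E (rr Z)`. -/
def tube1U (Z : Ix → ℂ) : Ix → ℂ :=
  mkJ ![-1, dg (sharp Z) 2, dg (sharp Z) 1] ![-oc (sharp Z) 0, oc Z 1, oc Z 2]

/-- The third block of `w0E (rr Z)`. -/
def tube1V (Z : Ix → ℂ) : Ix → ℂ :=
  mkJ ![nrm Z, -dg Z 2, -dg Z 1] ![oc Z 0, oc (sharp Z) 1, oc (sharp Z) 2]

theorem tube1_sharp_U (Z : Ix → ℂ) : sharp (tube1U Z) = dg Z 0 • tube1V Z := by
  have h0 : dg (sharp (sharp Z)) 0 = dg (nrm Z • Z) 0 := by rw [sharp_sharp]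
  rw [dg_sharp_0, dg_smul] at h0
  apply jext
  · rw [dg_sharp_0]
    simp only [tube1U, tube1V, dg_smul, dg_mkJ, oc_mkJ, Matrix.cons_val_zero, Matrix.cons_val_one,
      Matrix.cons_val, onorm_neg]
    linear_combination h0
  · rw [dg_sharp_1]
    simp only [tube1U, tube1V, dg_smul, dg_mkJ, oc_mkJ, Matrix.cons_val_zero, Matrix.cons_val_one,
      Matrix.cons_val, dg_sharp_1]
    ring
  · rw [dg_sharp_2]
    simp only [tube1U, tube1V, dg_smul, dg_mkJ, oc_mkJ, Matrix.cons_val_zero, Matrix.cons_val_one,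
      Matrix.cons_val, dg_sharp_2]
    ring
  · rw [oc_sharp_0]
    simp only [tube1U, tube1V, oc_smul, dg_mkJ, oc_mkJ, Matrix.cons_val_zero, Matrix.cons_val_one,
      Matrix.cons_val, oc_sharp_0]
    module
  · rw [oc_sharp_1]
    simp only [tube1U, tube1V, oc_smul, dg_mkJ, oc_mkJ, Matrix.cons_val_zero, Matrix.cons_val_one,
      Matrix.cons_val, oc_sharp_0, oc_sharp_1, dg_sharp_2, omul_neg_right, omul_sub_right,
      omul_smul_right, oconj_neg, oconj_sub, oconj_smul]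
    rw [oconj_omul (oc Z 2) (oconj _), oconj_oconj, mul_mul_conj]
    module
  · rw [oc_sharp_2]
    simp only [tube1U, tube1V, oc_smul, dg_mkJ, oc_mkJ, Matrix.cons_val_zero, Matrix.cons_val_one,
      Matrix.cons_val, oc_sharp_0, oc_sharp_2, dg_sharp_1, omul_neg_left, omul_sub_left,
      omul_smul_left, oconj_neg, oconj_sub, oconj_smul]
    rw [oconj_omul (oconj _) (oc Z 1), oconj_oconj, conj_mul_mul]
    module

theorem tube1_nrm_U (Z : Ix → ℂ) : nrm (tube1U Z) = -(dg Z 0 ^ 2 * dg (sharp Z) 0) := by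
  have h0 : dg (sharp (sharp (tube1U Z))) 0 = dg (nrm (tube1U Z) • tube1U Z) 0 := by
    rw [sharp_sharp]
  have h1 : dg (tube1U Z) 0 = -1 := rfl
  have h2 : dg (sharp (tube1V Z)) 0 = -dg Z 2 * -dg Z 1 - onorm (oc Z 0) := rfl
  rw [tube1_sharp_U, sharp_smul, dg_smul, dg_smul, h1, h2] at h0
  rw [dg_sharp_0]
  linear_combination h0

/-- Direct check of each block with the octonion identities of `Oct` and `sharp_sharp`. -/
theorem w0E_rr {Z : Ix → ℂ} (h : dg Z 0 ≠ 0) : w0E (rr Z) = dg Z 0 • rr (i0 Z) := by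
  have e : i0 Z = (dg Z 0)⁻¹ • tube1U Z := by
    apply jext <;> simp [i0, tube1U]
  rw [tube1_w0E_apply, e]
  simp only [rr, sharp_smul, nrm_smul, tube1_sharp_U, tube1_nrm_U, Prod.smul_mk, smul_smul,
    smul_eq_mul, mul_one, Prod.mk.injEq, true_and]
  refine ⟨?_, ?_, ?_⟩
  · rw [mul_inv_cancel₀ h, one_smul]
    rfl
  · have e1 : dg Z 0 * ((dg Z 0)⁻¹ ^ 2 * dg Z 0) = 1 := by field_simp
    rw [e1, one_smul]
    rfl
  · field_simp
theorem isM_cE : IsM (matOf cyc) 1 cE := by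
  intro v
  have hu : IsUnit (adjM (matOf cyc)).det := by
    rw [det_adjM]
    exact isSim_cyc.1
  have e : ∀ T : Ix → ℂ, lin (adjM (matOf cyc))⁻¹ T = cyc T := by
    intro T
    have h1 := lin_inv_lin hu (cyc T)
    rwa [lin_adj_cyc, cyc_cyc_cyc] at h1
  rw [tube1_cE_apply]
  simp only [mfun, lin_cyc, e, Rat.cast_one, one_smul, one_mul]
theorem wE_eq : wE = w0E * (cE * w0E * cE⁻¹) * (cE⁻¹ * w0E * cE) := by
  apply LinearEquiv.ext
  intro v
  obtain ⟨a, b, c, d⟩ := v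
  simp only [LinearEquiv.mul_apply, tube1_wE_apply, tube1_cE_apply, tube1_cE_inv_apply,
    tube1_w0E_apply]
  refine Prod.ext ?_ (Prod.ext ?_ (Prod.ext ?_ ?_))
  · simp [cyc]
  · apply jext <;> simp [cyc]
  · apply jext <;> simp [cyc]
  · simp [cyc]
theorem tube1_nE_ed (v : W) : nE (-ed 0) v = (v.1,
    mkJ ![dg v.2.1 0 - v.1, dg v.2.1 1, dg v.2.1 2] ![oc v.2.1 0, oc v.2.1 1, oc v.2.1 2],
    mkJ ![dg v.2.2.1 0, dg v.2.2.1 1 - dg v.2.1 2, dg v.2.2.1 2 - dg v.2.1 1]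
      ![oc v.2.2.1 0 + oc v.2.1 0, oc v.2.2.1 1, oc v.2.2.1 2],
    v.2.2.2 - dg v.2.2.1 0) := by
  have hs : sharp (ed 0 : Ix → ℂ) = 0 := by
    apply jext <;> simp [ed, dg_sharp_0, dg_sharp_1, dg_sharp_2, oc_sharp_0, oc_sharp_1, oc_sharp_2,
      onorm_zero, omul_zero_left, oconj_zero]
  have hn : nrm (ed 0 : Ix → ℂ) = 0 := by
    simp [ed, nrm_eq, onorm_zero, omul_zero_left, oip_zero_left]
  obtain ⟨a, b, c, d⟩ := v
  simp only [nE_apply, nfun, sharp_neg, nrm_neg, hs, hn, cross_neg_right, tr_neg_right, tr_ed,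
    tr_zero_right, smul_zero, add_zero, neg_zero, mul_zero]
  refine Prod.ext rfl (Prod.ext ?_ (Prod.ext ?_ ?_))
  · apply jext <;> simp [ed, sub_eq_add_neg]
  · apply jext <;> simp [ed, dg_cross_0, dg_cross_1, dg_cross_2, oc_cross_0, oc_cross_1,
      oc_cross_2, oip_zero_right, omul_zero_left, omul_zero_right, oconj_zero, sub_eq_add_neg]
  · simp [sub_eq_add_neg]

theorem w0E_eq : w0E = nE (-ed 0) * (wE * nE (-ed 0) * wE⁻¹) * nE (-ed 0) := by
  apply LinearEquiv.ext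
  intro v
  obtain ⟨a, b, c, d⟩ := v
  simp only [LinearEquiv.mul_apply, tube1_wE_apply, tube1_wE_inv_apply, tube1_nE_ed,
    tube1_w0E_apply]
  refine Prod.ext ?_ (Prod.ext ?_ (Prod.ext ?_ ?_))
  · simp
  · apply jext <;> simp
  · apply jext <;> simp
  · simp
theorem w0E_pow : w0E ^ 4 = 1 := by
  apply LinearEquiv.ext
  intro v
  obtain ⟨a, b, c, d⟩ := v
  simp only [pow_succ, pow_zero, one_mul, LinearEquiv.mul_apply, tube1_w0E_apply]
  refine Prod.ext ?_ (Prod.ext ?_ (Prod.ext ?_ ?_))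
  · simp
  · apply jext <;> simp
  · apply jext <;> simp
  · simp
theorem wE_sq (v : W) : wE (wE v) = -v := by
  obtain ⟨a, b, c, d⟩ := v
  simp [tube1_wE_apply]

theorem sy_rr (Z Z' : Ix → ℂ) : sy (rr Z) (rr Z') = nrm (Z' - Z) := by
  rw [sub_eq_add_neg Z', nrm_add, sharp_neg, nrm_neg, tr_neg_right, tr_comm (sharp Z') Z,
    tr_comm Z' (sharp Z)]
  simp only [sy, rr]
  ring
theorem sy_nE (B : Ix → ℂ) (v v' : W) : sy (nE B v) (nE B v') = sy v v' := by
  obtain ⟨a, b, c, d⟩ := v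
  obtain ⟨a', b', c', d'⟩ := v'
  have h1 : tr B (cross b' B) = 2 * tr b' (sharp B) := by
    rw [tr_comm, tr_cross, cross_self, tr_smul_right]
  have h2 : tr (cross b B) B = 2 * tr b (sharp B) := by
    rw [tr_cross, cross_self, tr_smul_right]
  have h3 : tr (cross b B) b' = tr b (cross b' B) := by
    rw [tr_cross, cross_comm]
  simp only [sy, nE_apply, nfun, tr_add_left, tr_add_right, tr_smul_left, tr_smul_right, h1, h2,
    h3, tr_comm B c', tr_comm B (sharp B), tr_comm (sharp B) b']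
  ring
theorem sy_mfun {A : Matrix Ix Ix ℚ} (c : ℚ) (h : IsUnit A.det) (v v' : W) :
    sy (mfun A c v) (mfun A c v') = c * sy v v' := by
  have hu : IsUnit (adjM A).det := by
    rw [det_adjM]
    exact h
  have e : ∀ T Z : Ix → ℂ, tr (lin (adjM A)⁻¹ T) (lin A Z) = tr T Z := by
    intro T Z
    rw [tr_lin, lin_lin_inv hu]
  simp only [sy, mfun, tr_smul_left, tr_comm (lin A v.2.1), e,
    tr_comm v'.2.2.1 v.2.1]
  ring
theorem sy_wE (v v' : W) : sy (wE v) (wE v') = sy v v' := by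
  simp only [sy, tube1_wE_apply, tr_neg_left, tr_neg_right]
  ring
theorem sy_w0E (v v' : W) : sy (w0E v) (w0E v') = sy v v' := by
  simp only [sy, tube1_w0E_apply, tr_eq, dg_mkJ, oc_mkJ, Matrix.cons_val_zero,
    Matrix.cons_val_one, Matrix.cons_val, oip_neg_left, oip_neg_right]
  ring
theorem sy_smul (s t : ℂ) (v v' : W) : sy (s • v) (t • v') = s * t * sy v v' := by
  simp only [sy, Prod.smul_fst, Prod.smul_snd, tr_smul_left, tr_smul_right, smul_eq_mul]
  ring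
theorem sy_ee (v : W) : sy v ee = v.1 := by
  simp [sy, ee, tr_zero_right]

theorem tube1_minors {Z Z' : Ix → ℂ} (h : dg Z 0 ≠ 0) (h' : dg Z' 0 ≠ 0) :
    dg Z 0 * dg Z' 0 * dg (i0 Z - i0 Z') 0 = dg (Z - Z') 0 ∧
    dg Z 0 * dg Z' 0 * dg (sharp (i0 Z - i0 Z')) 2 = dg (sharp (Z - Z')) 2 ∧
    dg Z 0 * dg Z' 0 * nrm (i0 Z - i0 Z') = nrm (Z - Z') := by
  refine ⟨?_, ?_, ?_⟩
  · simp only [i0, dg_sub, dg_mkJ, Matrix.cons_val_zero]
    field_simp
    ring
  · simp only [i0, dg_sharp_2, dg_sub, oc_sub, dg_mkJ, oc_mkJ, Matrix.cons_val_zero,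
      Matrix.cons_val_one, Matrix.cons_val, onorm_sub, onorm_smul, oip_smul_left, oip_smul_right]
    field_simp
    ring
  · have k := sy_w0E (rr Z') (rr Z)
    rw [w0E_rr h, w0E_rr h', sy_smul, sy_rr, sy_rr] at k
    rw [← k]
    ring

/-- The complex conjugate point. -/
def tube1C (Z : Ix → ℂ) : Ix → ℂ := fun l => (starRingEnd ℂ) (Z l)

theorem tube1_i0_C (Z : Ix → ℂ) : i0 (tube1C Z) = tube1C (i0 Z) := by
  have hs : sharp (tube1C Z) = tube1C (sharp Z) := sharp_map (starRingEnd ℂ) Z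
  have hd : ∀ (X : Ix → ℂ) (i : Fin 3), dg (tube1C X) i = (starRingEnd ℂ) (dg X i) :=
    fun _ _ => rfl
  have ho : ∀ (X : Ix → ℂ) (i : Fin 3),
      oc (tube1C X) i = fun k => (starRingEnd ℂ) (oc X i k) := fun _ _ => rfl
  apply jext
  · simp [i0, hd]
  · simp [i0, hd, hs]
  · simp [i0, hd, hs]
  · funext k
    simp [i0, hd, ho, hs]
  · funext k
    simp [i0, hd, ho]
  · funext k
    simp [i0, hd, ho]

theorem tube1_sub_C (Z : Ix → ℂ) :
    Z - tube1C Z = (2 * Complex.I) • fun l => (((Z l).im : ℝ) : ℂ) := by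
  funext l
  simp only [tube1C, Pi.sub_apply, Pi.smul_apply, smul_eq_mul, Complex.sub_conj]
  push_cast
  ring

theorem tube1_sharp_ofReal (Y : Ix → ℝ) :
    sharp (fun l => ((Y l : ℝ) : ℂ)) = fun l => ((sharp Y l : ℝ) : ℂ) :=
  sharp_map Complex.ofRealHom Y

theorem tube1_nrm_ofReal (Y : Ix → ℝ) : nrm (fun l => ((Y l : ℝ) : ℂ)) = ((nrm Y : ℝ) : ℂ) :=
  nrm_map Complex.ofRealHom Y

/-- For `D = i0 Z - i0 Z'` the three leading minors are those of `Z - Z'` divided by `z0 z0'`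
(the third by `sy_rr`, `sy_w0E`, `w0E_rr`); take `Z'` the complex conjugate of `Z`
(`nrm_map`, `sharp_map`, `nrm_smul`, `sharp_smul`). -/
theorem HH.i0_mem {Z : Ix → ℂ} (h : Z ∈ HH) : i0 Z ∈ HH := by
  have h0 : dg Z 0 ≠ 0 := HH.dg_ne h 0
  have hc : dg (tube1C Z) 0 = (starRingEnd ℂ) (dg Z 0) := rfl
  have h0' : dg (tube1C Z) 0 ≠ 0 := by
    rw [hc]
    exact (map_ne_zero _).2 h0
  have hn : dg Z 0 * dg (tube1C Z) 0 = (Complex.normSq (dg Z 0) : ℝ) := by
    rw [hc, Complex.mul_conj]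
  have hp : 0 < Complex.normSq (dg Z 0) := Complex.normSq_pos.2 h0
  have hI : (2 * Complex.I : ℂ) ≠ 0 := mul_ne_zero two_ne_zero Complex.I_ne_zero
  obtain ⟨m0, m1, m2⟩ := tube1_minors h0 h0'
  rw [tube1_i0_C, tube1_sub_C, tube1_sub_C, hn] at m0 m1 m2
  obtain ⟨p0, p1, p2⟩ := h
  refine ⟨?_, ?_, ?_⟩
  · rw [dg_smul, dg_smul, mul_left_comm] at m0
    have k := mul_left_cancel₀ hI m0
    have k' : Complex.normSq (dg Z 0) * dg (fun l => (i0 Z l).im) 0 =
        dg (fun l => (Z l).im) 0 := by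
      have k2 : ((Complex.normSq (dg Z 0) * dg (fun l => (i0 Z l).im) 0 : ℝ) : ℂ) =
          ((dg (fun l => (Z l).im) 0 : ℝ) : ℂ) := by
        rw [Complex.ofReal_mul]
        exact k
      exact Complex.ofReal_injective k2
    rw [← k'] at p0
    exact (mul_pos_iff_of_pos_left hp).1 p0
  · rw [sharp_smul, sharp_smul, dg_smul, dg_smul, mul_left_comm, tube1_sharp_ofReal,
      tube1_sharp_ofReal] at m1
    have k := mul_left_cancel₀ (pow_ne_zero 2 hI) m1
    have k' : Complex.normSq (dg Z 0) * dg (sharp fun l => (i0 Z l).im) 2 =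
        dg (sharp fun l => (Z l).im) 2 := by
      have k2 : ((Complex.normSq (dg Z 0) * dg (sharp fun l => (i0 Z l).im) 2 : ℝ) : ℂ) =
          ((dg (sharp fun l => (Z l).im) 2 : ℝ) : ℂ) := by
        rw [Complex.ofReal_mul]
        exact k
      exact Complex.ofReal_injective k2
    rw [← k'] at p1
    exact (mul_pos_iff_of_pos_left hp).1 p1
  · rw [nrm_smul, nrm_smul, mul_left_comm, tube1_nrm_ofReal, tube1_nrm_ofReal] at m2
    have k := mul_left_cancel₀ (pow_ne_zero 3 hI) m2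
    have k' : Complex.normSq (dg Z 0) * nrm (fun l => (i0 Z l).im) =
        nrm (fun l => (Z l).im) := by
      have k2 : ((Complex.normSq (dg Z 0) * nrm (fun l => (i0 Z l).im) : ℝ) : ℂ) =
          ((nrm (fun l => (Z l).im) : ℝ) : ℂ) := by
        rw [Complex.ofReal_mul]
        exact k
      exact Complex.ofReal_injective k2
    rw [← k'] at p2
    exact (mul_pos_iff_of_pos_left hp).1 p2

theorem i0_swp (Z : Ix → ℂ) : i0 (swp Z) = swp (i0 Z) := by
  simp only [i0, sharp_swp]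
  apply jext <;> simp only [swp, dg_mkJ, oc_mkJ, Matrix.cons_val_zero, Matrix.cons_val_one,
    Matrix.cons_val, oconj_neg, oconj_smul]
theorem i0_elm (u : Fin 8 → ℂ) {Z : Ix → ℂ} (h : dg Z 0 ≠ 0) : i0 (elm u Z) = elm u (i0 Z) := by
  have _h := h
  apply jext
  · simp only [i0, elm, dg_mkJ, Matrix.cons_val_zero]
  · simp only [i0, elm, dg_sharp_2, dg_mkJ, oc_mkJ, Matrix.cons_val_zero, Matrix.cons_val_one,
      Matrix.cons_val]
  · simp only [i0, elm, dg_sharp_1, dg_sharp_2, oc_sharp_0, dg_mkJ, oc_mkJ, Matrix.cons_val_zero,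
      Matrix.cons_val_one, Matrix.cons_val, onorm_add, onorm_omul, onorm_oconj, oconj_neg,
      oconj_smul, oconj_sub, oconj_oconj, oip_neg_right, oip_smul_right, oip_sub_right,
      ← oip_omul_right, oip_comm (omul (oc Z 1) (oc Z 2)) u]
    ring
  · simp only [i0, elm, dg_sharp_2, oc_sharp_0, dg_mkJ, oc_mkJ, Matrix.cons_val_zero,
      Matrix.cons_val_one, Matrix.cons_val, omul_add_left, mul_conj_mul', oconj_add, oconj_smul]
    module
  · simp only [i0, elm, dg_mkJ, oc_mkJ, Matrix.cons_val_zero, Matrix.cons_val_one,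
      Matrix.cons_val, oconj_smul, omul_smul_right, smul_add]
  · simp only [i0, elm, dg_mkJ, oc_mkJ, Matrix.cons_val_zero, Matrix.cons_val]

theorem PolyFn.const (c : ℂ) : PolyFn fun _ => c := ⟨MvPolynomial.C c, fun _ => by simp⟩
theorem PolyFn.coord (l : Ix) : PolyFn fun Z => Z l := ⟨MvPolynomial.X l, fun _ => by simp⟩
theorem PolyFn.add {f g : (Ix → ℂ) → ℂ} (hf : PolyFn f) (hg : PolyFn g) :
    PolyFn fun Z => f Z + g Z := by
  obtain ⟨P, hP⟩ := hf
  obtain ⟨Q, hQ⟩ := hg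
  exact ⟨P + Q, fun Z => by simp only [map_add, hP, hQ]⟩
theorem PolyFn.mul {f g : (Ix → ℂ) → ℂ} (hf : PolyFn f) (hg : PolyFn g) :
    PolyFn fun Z => f Z * g Z := by
  obtain ⟨P, hP⟩ := hf
  obtain ⟨Q, hQ⟩ := hg
  exact ⟨P * Q, fun Z => by simp only [map_mul, hP, hQ]⟩
theorem PolyFn.pow {f : (Ix → ℂ) → ℂ} (hf : PolyFn f) (n : ℕ) : PolyFn fun Z => f Z ^ n := by
  obtain ⟨P, hP⟩ := hf
  exact ⟨P ^ n, fun Z => by simp only [map_pow, hP]⟩
theorem PolyFn.sum {α : Type} (s : Finset α) {f : α → (Ix → ℂ) → ℂ} (hf : ∀ a ∈ s, PolyFn (f a)) :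
    PolyFn fun Z => ∑ a ∈ s, f a Z := by
  classical
  induction s using Finset.induction_on with
  | empty => simpa using PolyFn.const 0
  | insert a s ha ih =>
    simp only [Finset.sum_insert ha]
    exact (hf a (Finset.mem_insert_self a s)).add
      (ih fun b hb => hf b (Finset.mem_insert_of_mem hb))
theorem PolyFn.prod {α : Type} (s : Finset α) {f : α → (Ix → ℂ) → ℂ} (hf : ∀ a ∈ s, PolyFn (f a)) :
    PolyFn fun Z => ∏ a ∈ s, f a Z := by
  classical
  induction s using Finset.induction_on with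
  | empty => simpa using PolyFn.const 1
  | insert a s ha ih =>
    simp only [Finset.prod_insert ha]
    exact (hf a (Finset.mem_insert_self a s)).mul
      (ih fun b hb => hf b (Finset.mem_insert_of_mem hb))
theorem PolyFn.differentiable {f : (Ix → ℂ) → ℂ} (hf : PolyFn f) : Differentiable ℂ f := by
  obtain ⟨P, hP⟩ := hf
  obtain rfl : f = fun Z => MvPolynomial.eval Z P := funext hP
  clear hP
  induction P using MvPolynomial.induction_on with
  | C c => simp
  | add P Q hP hQ =>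
    simp only [map_add]
    exact hP.add hQ
  | mul_X P l hP =>
    simp only [map_mul, MvPolynomial.eval_X]
    exact hP.mul (differentiable_apply l)

private theorem tube2_sharp (l : Ix) : PolyFn fun Z => sharp Z l := by
  refine ⟨sharp (MvPolynomial.X : Ix → MvPolynomial Ix ℂ) l, fun Z => ?_⟩
  have h := congrFun (sharp_map (MvPolynomial.eval Z) (MvPolynomial.X : Ix → MvPolynomial Ix ℂ)) l
  simpa only [MvPolynomial.eval_X] using h

private theorem tube2_nrm : PolyFn fun Z => nrm Z := by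
  refine ⟨nrm (MvPolynomial.X : Ix → MvPolynomial Ix ℂ), fun Z => ?_⟩
  have h := nrm_map (MvPolynomial.eval Z) (MvPolynomial.X : Ix → MvPolynomial Ix ℂ)
  simpa only [MvPolynomial.eval_X] using h

private theorem tube2_lin (ψ : (Ix → ℂ) →ₗ[ℂ] ℂ) (T : Ix → ℂ) :
    ψ T = ∑ l, T l * ψ (Pi.single l 1) := by
  conv_lhs => rw [pi_eq_sum_univ' T]
  simp only [map_sum, map_smul, smul_eq_mul]

/-- The second block. -/
private def tube2_b : (Ix → ℂ) →ₗ[ℂ] W :=
  (LinearMap.inr ℂ ℂ _).comp (LinearMap.inl ℂ (Ix → ℂ) ((Ix → ℂ) × ℂ))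

/-- The third block. -/
private def tube2_c : (Ix → ℂ) →ₗ[ℂ] W :=
  (LinearMap.inr ℂ ℂ _).comp ((LinearMap.inr ℂ (Ix → ℂ) _).comp (LinearMap.inl ℂ (Ix → ℂ) ℂ))

private theorem tube2_split (φ : W →ₗ[ℂ] ℂ) (v : W) :
    φ v = v.1 * φ (1, 0, 0, 0) + φ (tube2_b v.2.1) + φ (tube2_c v.2.2.1) +
      v.2.2.2 * φ (0, 0, 0, 1) := by
  have h : v = v.1 • ((1, 0, 0, 0) : W) + tube2_b v.2.1 + tube2_c v.2.2.1 +
      v.2.2.2 • ((0, 0, 0, 1) : W) := by
    obtain ⟨a, b, c, d⟩ := v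
    simp [tube2_b, tube2_c]
  conv_lhs => rw [h]
  simp only [map_add, map_smul, smul_eq_mul]

/-- `sharp` and `nrm` are polynomial by `sharp_map`, `nrm_map` applied to `MvPolynomial.X`; a
linear form on `W` is a combination of the coordinates. -/
theorem polyFn_rr (φ : W →ₗ[ℂ] ℂ) : PolyFn fun Z => φ (rr Z) := by
  have h : (fun Z => φ (rr Z)) = fun Z => φ (1, 0, 0, 0) +
      ∑ l, Z l * φ (tube2_b (Pi.single l 1)) + ∑ l, sharp Z l * φ (tube2_c (Pi.single l 1)) +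
      nrm Z * φ (0, 0, 0, 1) := by
    funext Z
    have h1 := tube2_lin (φ.comp tube2_b) Z
    have h2 := tube2_lin (φ.comp tube2_c) (sharp Z)
    simp only [LinearMap.comp_apply] at h1 h2
    rw [tube2_split, ← h1, ← h2]
    simp only [rr, one_mul]
  rw [h]
  exact (((PolyFn.const _).add (PolyFn.sum _ fun l _ => (PolyFn.coord l).mul (PolyFn.const _))).add
    (PolyFn.sum _ fun l _ => (tube2_sharp l).mul (PolyFn.const _))).add
    (tube2_nrm.mul (PolyFn.const _))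

private theorem tube2_one3 (l : Ix) : (one3 : Ix → ℂ) l = (((one3 : Ix → ℝ) l : ℝ) : ℂ) := by
  rcases l with i | a <;> simp [one3, mkJ]

/-- Restrict to the line `Z + s i one3` (`eventually_add_one3`): a polynomial in `s` with
infinitely many zeros. -/
theorem PolyFn.eq_zero {f : (Ix → ℂ) → ℂ} (hf : PolyFn f) (h : ∀ Z ∈ HH, f Z = 0) (Z : Ix → ℂ) :
    f Z = 0 := by
  obtain ⟨P, hP⟩ := hf
  let L : Ix → Polynomial ℂ := fun l =>
    Polynomial.C (Z l) + Polynomial.C (Complex.I * (one3 : Ix → ℂ) l) * Polynomial.X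
  have he : ∀ s : ℂ, (MvPolynomial.aeval L P).eval s =
      f fun l => Z l + Complex.I * (one3 : Ix → ℂ) l * s := by
    intro s
    rw [hP]
    clear hP
    induction P using MvPolynomial.induction_on with
    | C c => simp
    | add P Q h1 h2 => simp only [map_add, Polynomial.eval_add, h1, h2]
    | mul_X P l h1 =>
      rw [map_mul, map_mul, Polynomial.eval_mul, h1, MvPolynomial.aeval_X, MvPolynomial.eval_X]
      simp only [L, Polynomial.eval_mul, Polynomial.eval_add, Polynomial.eval_C, Polynomial.eval_X]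
  obtain ⟨s0, hs0⟩ := Filter.eventually_atTop.1 (eventually_add_one3 fun l => (Z l).im)
  have hq : MvPolynomial.aeval L P = 0 := by
    apply Polynomial.eq_zero_of_infinite_isRoot
    refine Set.Infinite.mono ?_
      ((Set.Ici_infinite s0).image Complex.ofReal_injective.injOn)
    rintro _ ⟨s, hs, rfl⟩
    refine (he s).trans (h _ ?_)
    have h1 := hs0 s hs
    have h2 : (fun l => (Z l + Complex.I * (one3 : Ix → ℂ) l * (s : ℂ)).im) =
        (fun l => (Z l).im) + s • (one3 : Ix → ℝ) := by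
      funext l
      rw [tube2_one3]
      simp [mul_comm]
    change (fun l => (Z l + Complex.I * (one3 : Ix → ℂ) l * (s : ℂ)).im) ∈ Om
    rw [h2]
    exact h1
  have h0 := he 0
  rw [hq] at h0
  simpa using h0.symm
theorem poly_eq_zero {P : MvPolynomial Ix ℂ} (h : ∀ Z ∈ HH, MvPolynomial.eval Z P = 0) : P = 0 := by
  refine MvPolynomial.funext fun Z => ?_
  rw [map_zero]
  exact PolyFn.eq_zero (f := fun Z => MvPolynomial.eval Z P) ⟨P, fun _ => rfl⟩ h Z

private theorem tube2_nrm_one3 : nrm (one3 : Ix → ℂ) = 1 := by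
  simp [nrm_eq, one3, onorm_zero, omul_zero_left, oip_zero_left]

/-- The `rr Z` span `W`: by `PolyFn.eq_zero` the form vanishes on all `rr Z`; replacing `Z` by
`s Z` separates the four blocks; the values of `sharp` span (`sharp (ed j + ed k) = ed i`, and
`sharp` of `ed i` plus an octonion in slot `i`). -/
theorem eq_zero_of_rr (φ : W →ₗ[ℂ] ℂ) (h : ∀ Z ∈ HH, φ (rr Z) = 0) : φ = 0 := by
  have h1 : ∀ (s : ℂ) (Z : Ix → ℂ), φ (1, 0, 0, 0) + s * φ (tube2_b Z) +
      s ^ 2 * φ (tube2_c (sharp Z)) + s ^ 3 * (nrm Z * φ (0, 0, 0, 1)) = 0 := by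
    intro s Z
    have h2 := (polyFn_rr φ).eq_zero h (s • Z)
    rw [tube2_split] at h2
    simp only [rr, one_mul, sharp_smul, nrm_smul, map_smul, smul_eq_mul] at h2
    linear_combination h2
  have ha : φ (1, 0, 0, 0) = 0 := by simpa using h1 0 0
  have hb : ∀ Z, φ (tube2_b Z) = 0 := fun Z => by
    linear_combination h1 1 Z - (1 / 3 : ℂ) * h1 (-1) Z - (1 / 6 : ℂ) * h1 2 Z -
      (1 / 2 : ℂ) * ha
  have hc : ∀ Z, φ (tube2_c (sharp Z)) = 0 := fun Z => by
    linear_combination (1 / 2 : ℂ) * h1 1 Z + (1 / 2 : ℂ) * h1 (-1) Z - ha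
  have hd : φ (0, 0, 0, 1) = 0 := by
    have h2 := h1 1 one3
    rw [ha, hb, hc, tube2_nrm_one3] at h2
    linear_combination h2
  have hn : ∀ Z, nrm Z * φ (tube2_c Z) = 0 := fun Z => by
    have h2 := hc (sharp Z)
    rwa [sharp_sharp, map_smul, map_smul, smul_eq_mul] at h2
  have ho : φ (tube2_c one3) = 0 := by
    have h2 := hn one3
    rwa [tube2_nrm_one3, one_mul] at h2
  have hc' : ∀ Z, φ (tube2_c Z) = 0 := fun Z => by
    have h2 : ∀ s : ℂ, (nrm Z + s * tr (sharp Z) one3 + s ^ 2 * tr Z (sharp one3) + s ^ 3) *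
        φ (tube2_c Z) = 0 := fun s => by
      have h3 := hn (Z + s • one3)
      rw [nrm_add, map_add, map_add, map_smul, map_smul, ho, sharp_smul, nrm_smul, tr_smul_right,
        tr_smul_right, tube2_nrm_one3] at h3
      simpa using h3
    linear_combination (1 / 6 : ℂ) * h2 2 - (1 / 2 : ℂ) * h2 1 + (1 / 2 : ℂ) * h2 0 -
      (1 / 6 : ℂ) * h2 (-1)
  refine LinearMap.ext fun v => ?_
  rw [tube2_split, ha, hb, hc', hd]
  simp
theorem ext_rr {V : Type} [AddCommGroup V] [Module ℂ V] (f g : W →ₗ[ℂ] V)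
    (h : ∀ Z ∈ HH, f (rr Z) = g (rr Z)) : f = g := by
  refine LinearMap.ext fun v => sub_eq_zero.1 ?_
  refine (Module.forall_dual_apply_eq_zero_iff ℂ _).1 fun ψ => ?_
  have h1 := eq_zero_of_rr (ψ.comp (f - g)) fun Z hZ => by
    simp only [LinearMap.comp_apply, LinearMap.sub_apply, h Z hZ, sub_self, map_zero]
  exact LinearMap.congr_fun h1 v

end Pool.Agent.E7
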