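import Mathlib

/-! Brackets (Jacobian determinants with a weight row), the operators `D`, and the Wronskian
determinant `Psi`: definitions and transformation rules. -/

set_option linter.unusedSectionVars false

noncomputable section

namespace Pool.Agent.E7.Wr

variable {ι : Type} [Fintype ι] [DecidableEq ι] {A A' : Type} [CommRing A] [CommRing A']

/-- The column of an element of weight `n`. -/
def col (dl : ι → A → A) (n : ℤ) (G : A) : Option ι → A :=
  fun r => r.elim ((n : A) * G) fun i => dl i G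

/-- The matrix of the bracket. -/
def brM (dl : ι → A → A) (k : Option ι → ℤ) (F : Option ι → A) :
    Matrix (Option ι) (Option ι) A := Matrix.of fun r c => col dl (k c) (F c) r

/-- The bracket of a family `F` of weights `k`. -/
def br (dl : ι → A → A) (k : Option ι → ℤ) (F : Option ι → A) : A := (brM dl k F).det

/-- The bracket with `G`, of weight `n`, at the place `i1`. -/
def Dk (dl : ι → A → A) (k : Option ι → ℤ) (F : Option ι → A) (i1 : ι) (n : ℤ) (G : A) : A :=
  br dl (Function.update k (some i1) n) (Function.update F (some i1) G)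

/-- Iterates of `Dk`; each step raises the weight by `w`. -/
def Dit (dl : ι → A → A) (k : Option ι → ℤ) (F : Option ι → A) (i1 : ι) (w n : ℤ) (G : A) :
    ℕ → A
  | 0 => G
  | m + 1 => Dk dl k F i1 (n + m * w) (Dit dl k F i1 w n G m)

/-- The Wronskian determinant of a family `b` of weight `n`. -/
def Psi (dl : ι → A → A) (k : Option ι → ℤ) (F : Option ι → A) (i1 : ι) (w n : ℤ) {N : ℕ}
    (b : Fin N → A) : A := (Matrix.of fun m a : Fin N => Dit dl k F i1 w n (b a) m).det

/-- The weight of `Psi`. -/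
def wPsi (w n : ℤ) (N : ℕ) : ℤ := ∑ m : Fin N, (n + (m : ℕ) * w)

/-- The step of the weight. -/
def wStep (k : Option ι → ℤ) (i1 : ι) (c : ℤ) : ℤ := ∑ a ∈ Finset.univ.erase (some i1), k a + c

theorem Dk_eq (dl : ι → A → A) (k : Option ι → ℤ) (F : Option ι → A) (i1 : ι) (n : ℤ) (G : A) :
    Dk dl k F i1 n G = ((brM dl k F).updateCol (some i1) (col dl n G)).det := by
  unfold Dk br
  congr 1
  ext r c
  by_cases h : c = some i1
  · subst h; simp [brM]
  · simp [brM, Matrix.updateCol_ne h, Function.update_of_ne h]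

theorem Dk_sum (dl : ι → A → A) (k : Option ι → ℤ) (F : Option ι → A) (i1 : ι) (n : ℤ) (G : A) :
    Dk dl k F i1 n G = ∑ r, (brM dl k F).adjugate (some i1) r * col dl n G r := by
  rw [Dk_eq, ← Matrix.cramer_apply, Matrix.cramer_eq_adjugate_mulVec]
  rfl

section Lin

variable (dl : ι → Derivation ℤ A A) (k : Option ι → ℤ) (F : Option ι → A) (i1 : ι)

theorem col_sum {β : Type} (s : Finset β) (c G : β → A) (hc : ∀ x i, dl i (c x) = 0) (n : ℤ)
    (r : Option ι) : col (fun i => dl i) n (∑ x ∈ s, c x * G x) r =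
      ∑ x ∈ s, c x * col (fun i => dl i) n (G x) r := by
  cases r with
  | none =>
    simp only [col, Option.elim, Finset.mul_sum]
    exact Finset.sum_congr rfl fun x _ => by ring
  | some i =>
    simp only [col, Option.elim, map_sum]
    exact Finset.sum_congr rfl fun x _ => by simp [hc]

theorem Dk_lin {β : Type} (s : Finset β) (c G : β → A) (hc : ∀ x i, dl i (c x) = 0) (n : ℤ) :
    Dk (fun i => dl i) k F i1 n (∑ x ∈ s, c x * G x) =
      ∑ x ∈ s, c x * Dk (fun i => dl i) k F i1 n (G x) := by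
  simp only [Dk_sum, col_sum dl s c G hc, Finset.mul_sum]
  rw [Finset.sum_comm]
  exact Finset.sum_congr rfl fun x _ => Finset.sum_congr rfl fun r _ => by ring

theorem Dit_lin {β : Type} (s : Finset β) (c G : β → A) (hc : ∀ x i, dl i (c x) = 0) (w n : ℤ)
    (m : ℕ) : Dit (fun i => dl i) k F i1 w n (∑ x ∈ s, c x * G x) m =
      ∑ x ∈ s, c x * Dit (fun i => dl i) k F i1 w n (G x) m := by
  induction m with
  | zero => rfl
  | succ m ih => simp only [Dit]; rw [ih, Dk_lin dl k F i1 s c _ hc]

/-- Change of the family `b` by a constant matrix. -/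
theorem Psi_lin (w n : ℤ) {N : ℕ} (b : Fin N → A) (R : Matrix (Fin N) (Fin N) A)
    (hR : ∀ a a' i, dl i (R a a') = 0) :
    Psi (fun i => dl i) k F i1 w n (fun a => ∑ a', R a a' * b a') =
      R.det * Psi (fun i => dl i) k F i1 w n b := by
  unfold Psi
  rw [← Matrix.det_transpose R, mul_comm, ← Matrix.det_mul]
  congr 1
  ext m a
  simp only [Matrix.of_apply, Matrix.mul_apply, Matrix.transpose_apply]
  rw [Dit_lin dl k F i1 _ _ _ (fun x i => hR a x i)]
  exact Finset.sum_congr rfl fun x _ => mul_comm _ _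

end Lin

section Map

variable {dl : ι → A → A} {dl' : ι → A' → A'} (σ : A →+* A')
  (hσ : ∀ i x, σ (dl i x) = dl' i (σ x))
include hσ

theorem map_br (k : Option ι → ℤ) (F : Option ι → A) :
    σ (br dl k F) = br dl' k fun a => σ (F a) := by
  unfold br
  rw [RingHom.map_det]
  congr 1
  ext r c
  cases r <;> simp [brM, col, hσ]

theorem map_Dk (k : Option ι → ℤ) (F : Option ι → A) (i1 : ι) (n : ℤ) (G : A) :
    σ (Dk dl k F i1 n G) = Dk dl' k (fun a => σ (F a)) i1 n (σ G) := by
  unfold Dk
  rw [map_br σ hσ]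
  congr 1
  funext a
  exact Function.apply_update (fun _ => σ) F (some i1) G a

theorem map_Dit (k : Option ι → ℤ) (F : Option ι → A) (i1 : ι) (w n : ℤ) (G : A) (m : ℕ) :
    σ (Dit dl k F i1 w n G m) = Dit dl' k (fun a => σ (F a)) i1 w n (σ G) m := by
  induction m with
  | zero => rfl
  | succ m ih => simp only [Dit]; rw [map_Dk σ hσ, ih]

theorem map_Psi (k : Option ι → ℤ) (F : Option ι → A) (i1 : ι) (w n : ℤ) {N : ℕ}
    (b : Fin N → A) :
    σ (Psi dl k F i1 w n b) = Psi dl' k (fun a => σ (F a)) i1 w n fun a => σ (b a) := by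
  unfold Psi
  rw [RingHom.map_det]
  congr 1
  ext m a
  simp [map_Dit σ hσ]

end Map

/-- The slash operator given by a substitution `σ` and a factor `j`. -/
def sl (σ : A →+* A') (j : A'ˣ) (n : ℤ) (x : A) : A' := ((j ^ (-n) : A'ˣ) : A') * σ x

theorem der_zpow (D : Derivation ℤ A' A') (j : A'ˣ) (n : ℤ) :
    D ((j ^ n : A'ˣ) : A') = (n : A') * ((j ^ n : A'ˣ) : A') * (((j⁻¹ : A'ˣ) : A') * D j) := by
  have hi : D ((j⁻¹ : A'ˣ) : A') = -(((j⁻¹ : A'ˣ) : A') * (((j⁻¹ : A'ˣ) : A') * D j)) := by
    have h1 : D (((j⁻¹ : A'ˣ) : A') * j) = 0 := by simp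
    rw [Derivation.leibniz, smul_eq_mul, smul_eq_mul] at h1
    have h2 : ((j⁻¹ : A'ˣ) : A') * j = 1 := by simp
    linear_combination ((j⁻¹ : A'ˣ) : A') * h1 - D ((j⁻¹ : A'ˣ) : A') * h2
  induction n using Int.induction_on with
  | zero => simp
  | succ n ih =>
    rw [zpow_add_one, Units.val_mul, Derivation.leibniz, ih, smul_eq_mul, smul_eq_mul]
    have h2 : ((j⁻¹ : A'ˣ) : A') * j = 1 := by simp
    push_cast
    linear_combination (-((j ^ (n : ℤ) : A'ˣ) : A') * D j) * h2
  | pred n ih =>
    rw [zpow_sub_one, Units.val_mul, Derivation.leibniz, ih, hi, smul_eq_mul, smul_eq_mul]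
    push_cast
    ring

theorem prod_zp {β : Type} (j : A'ˣ) (t : Finset β) (f : β → ℤ) :
    ∏ a ∈ t, ((j ^ f a : A'ˣ) : A') = ((j ^ (∑ a ∈ t, f a) : A'ˣ) : A') := by
  classical
  induction t using Finset.induction_on with
  | empty => simp
  | insert a t ha ih => rw [Finset.prod_insert ha, Finset.sum_insert ha, ih, zpow_add, Units.val_mul]

section Slash

variable {dl : ι → A → A} (dl' : ι → Derivation ℤ A' A') (σ : A →+* A') (j : A'ˣ)
  (J : Matrix ι ι A') (hσ : ∀ i x, dl' i (σ x) = ∑ l, σ (dl l x) * J l i) (s c : ℤ)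
  (hJ : J.det = (s : A') * ((j ^ (-c) : A'ˣ) : A'))
include hσ hJ

theorem sl_br (k : Option ι → ℤ) (F : Option ι → A) :
    br (fun i => dl' i) k (fun a => sl σ j (k a) (F a)) =
      (s : A') * sl σ j (∑ a, k a + c) (br dl k F) := by
  classical
  let T : Matrix (Option ι) (Option ι) A' := Matrix.of fun r r' =>
    r.elim (r'.elim 1 fun _ => 0) fun i =>
      r'.elim (-(((j⁻¹ : A'ˣ) : A') * dl' i j)) fun l => J l i
  have hT : T.det = J.det := by
    rw [← Matrix.det_transpose J]
    let e : Option ι ≃ Unit ⊕ ι := (Equiv.optionEquivSumPUnit ι).trans (Equiv.sumComm _ _)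
    have : T = (Matrix.fromBlocks (1 : Matrix Unit Unit A') 0
        (Matrix.of fun i _ => -(((j⁻¹ : A'ˣ) : A') * dl' i j)) J.transpose).submatrix e e := by
      ext r r'
      cases r <;> cases r' <;> simp [T, e]
    rw [this, Matrix.det_submatrix_equiv_self, Matrix.det_fromBlocks_zero₁₂]
    simp
  have hM : brM (fun i => dl' i) k (fun a => sl σ j (k a) (F a)) =
      T * (σ.mapMatrix (brM dl k F)) * Matrix.diagonal fun a => ((j ^ (-k a) : A'ˣ) : A') := by
    ext r a
    rw [Matrix.mul_diagonal, Matrix.mul_apply, Fintype.sum_option]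
    cases r with
    | none => simp [brM, col, T, sl]; ring
    | some i =>
      simp only [brM, col, T, sl, Matrix.of_apply, Option.elim, RingHom.mapMatrix_apply,
        Matrix.map_apply, Derivation.leibniz, smul_eq_mul, hσ, der_zpow, map_mul, map_intCast]
      simp only [mul_comm (J _ _)]
      push_cast
      ring
  unfold br
  rw [hM, Matrix.det_mul, Matrix.det_mul, hT, hJ, Matrix.det_diagonal, ← RingHom.map_det, sl,
    prod_zp, Finset.sum_neg_distrib, neg_add, zpow_add, Units.val_mul]
  ring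

theorem sl_Dk (k : Option ι → ℤ) (F : Option ι → A) (i1 : ι) (n : ℤ) (G : A) :
    Dk (fun i => dl' i) k (fun a => sl σ j (k a) (F a)) i1 n (sl σ j n G) =
      (s : A') * sl σ j (n + wStep k i1 c) (Dk dl k F i1 n G) := by
  have h := sl_br dl' σ j J hσ s c hJ (Function.update k (some i1) n)
    (Function.update F (some i1) G)
  rw [Finset.sum_update_of_mem (Finset.mem_univ _), ← Finset.erase_eq, add_assoc] at h
  unfold Dk wStep
  rw [← h]
  congr 1
  funext a
  by_cases ha : a = some i1
  · subst ha; simp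
  · simp [Function.update_of_ne ha]

theorem sl_Dit (k : Option ι → ℤ) (F : Option ι → A) (i1 : ι) (n : ℤ) (G : A) (m : ℕ) :
    Dit (fun i => dl' i) k (fun a => sl σ j (k a) (F a)) i1 (wStep k i1 c) n (sl σ j n G) m =
      (s : A') ^ m * sl σ j (n + m * wStep k i1 c) (Dit dl k F i1 (wStep k i1 c) n G m) := by
  induction m with
  | zero => simp [Dit]
  | succ m ih =>
    simp only [Dit]
    have h := Dk_lin dl' k (fun a => sl σ j (k a) (F a)) i1 (Finset.univ : Finset Unit)
      (fun _ => (s : A') ^ m)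
      (fun _ => sl σ j (n + m * wStep k i1 c) (Dit dl k F i1 (wStep k i1 c) n G m))
      (fun _ i => by rw [← Int.cast_pow]; exact (dl' i).map_intCast _) (n + m * wStep k i1 c)
    simp only [Finset.univ_unique, Finset.sum_singleton] at h
    rw [ih, h, sl_Dk dl' σ j J hσ s c hJ, pow_succ, mul_assoc]
    congr 3
    push_cast
    ring

/-- The transformation rule of `Psi`. -/
theorem sl_Psi (k : Option ι → ℤ) (F : Option ι → A) (i1 : ι) (n : ℤ) {N : ℕ} (b : Fin N → A) :
    Psi (fun i => dl' i) k (fun a => sl σ j (k a) (F a)) i1 (wStep k i1 c) n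
        (fun a => sl σ j n (b a)) =
      (s : A') ^ (∑ m : Fin N, (m : ℕ)) *
        sl σ j (wPsi (wStep k i1 c) n N) (Psi dl k F i1 (wStep k i1 c) n b) := by
  unfold Psi
  have : (Matrix.of fun m a : Fin N => Dit (fun i => dl' i) k (fun a => sl σ j (k a) (F a)) i1
      (wStep k i1 c) n (sl σ j n (b a)) m) =
      Matrix.diagonal (fun m : Fin N =>
        (s : A') ^ (m : ℕ) * ((j ^ (-(n + (m : ℕ) * wStep k i1 c)) : A'ˣ) : A')) *
      σ.mapMatrix (Matrix.of fun m a : Fin N => Dit dl k F i1 (wStep k i1 c) n (b a) m) := by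
    ext m a
    rw [Matrix.diagonal_mul, Matrix.of_apply, sl_Dit dl' σ j J hσ s c hJ, sl, mul_assoc]
    rfl
  rw [this, Matrix.det_mul, Matrix.det_diagonal, ← RingHom.map_det, Finset.prod_mul_distrib,
    Finset.prod_pow_eq_pow_sum, prod_zp, Finset.sum_neg_distrib, sl, mul_assoc]
  rfl

end Slash

end Pool.Agent.E7.Wr
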